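import Mathlib

/-!
H984: the base walk on `Q × Q`, its contraction, and separated sites.
-/

set_option autoImplicit false

open Classical

namespace Pool.Agent.H984

variable {Q : Type} [Group Q] [Fintype Q]

/-- The average over the steps. -/
noncomputable def Av (T : Finset Q) (f : Q → ℝ) (y : Q) : ℝ := (∑ t ∈ T, f (y * t)) / (T.card : ℝ)

/-- The spectral gap hypothesis. -/
def Gap (T : Finset Q) : Prop :=
  0 < T.card ∧ ∀ f : Q → ℝ, ∑ y, f y = 0 → ∑ y, (Av T f y) ^ 2 ≤ (1 / 16) * ∑ y, (f y) ^ 2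

theorem sum_Av {T : Finset Q} (hT : 0 < T.card) (f : Q → ℝ) : ∑ y, Av T f y = ∑ y, f y := by
  unfold Av
  rw [← Finset.sum_div, Finset.sum_comm]
  have : ∀ t ∈ T, ∑ y, f (y * t) = ∑ y, f y := fun t _ => Equiv.sum_comp (Equiv.mulRight t) f
  rw [Finset.sum_congr rfl this, Finset.sum_const, nsmul_eq_mul]
  have : (T.card : ℝ) ≠ 0 := by exact_mod_cast hT.ne'
  field_simp

theorem Av_const {T : Finset Q} (hT : 0 < T.card) (c : ℝ) (y : Q) : Av T (fun _ => c) y = c := by
  unfold Av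
  have : (T.card : ℝ) ≠ 0 := by exact_mod_cast hT.ne'
  rw [Finset.sum_const, nsmul_eq_mul]; field_simp

theorem Av_add {T : Finset Q} (f g : Q → ℝ) (y : Q) : Av T (fun y => f y + g y) y = Av T f y + Av T g y := by
  unfold Av; rw [Finset.sum_add_distrib, add_div]

/-- General contraction in one variable. -/
theorem Gap.sq_le {T : Finset Q} (h : Gap T) (f : Q → ℝ) :
    ∑ y, (Av T f y) ^ 2 ≤ (1 / 16) * ∑ y, (f y) ^ 2 + (15 / 16) * ((∑ y, f y) ^ 2 / (Fintype.card Q : ℝ)) := by
  have hn : (0 : ℝ) < Fintype.card Q := by exact_mod_cast Fintype.card_pos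
  set m := (∑ y, f y) / (Fintype.card Q : ℝ) with hm
  have hs : ∑ y, f y = Fintype.card Q * m := by rw [hm]; field_simp
  have hf : ∑ y, (f y + -m) = 0 := by
    rw [Finset.sum_add_distrib, hs]; simp
  have h1 := h.2 (fun y => f y + -m) hf
  have h2 : ∀ y, Av T (fun y => f y + -m) y = Av T f y + -m := by
    intro y; rw [Av_add, Av_const h.1]
  simp only [h2] at h1
  have e1 : ∑ y, (Av T f y + -m) ^ 2 = ∑ y, (Av T f y) ^ 2 - Fintype.card Q * m ^ 2 := by
    have : ∀ y, (Av T f y + -m) ^ 2 = (Av T f y) ^ 2 - 2 * m * Av T f y + m ^ 2 := fun y => by ring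
    rw [Finset.sum_congr rfl (fun y _ => this y), Finset.sum_add_distrib, Finset.sum_sub_distrib, ← Finset.mul_sum,
      sum_Av h.1, hs]
    simp; ring
  have e2 : ∑ y, (f y + -m) ^ 2 = ∑ y, (f y) ^ 2 - Fintype.card Q * m ^ 2 := by
    have : ∀ y, (f y + -m) ^ 2 = (f y) ^ 2 - 2 * m * f y + m ^ 2 := fun y => by ring
    rw [Finset.sum_congr rfl (fun y _ => this y), Finset.sum_add_distrib, Finset.sum_sub_distrib, ← Finset.mul_sum, hs]
    simp; ring
  rw [e1, e2] at h1
  have e3 : (∑ y, f y) ^ 2 / (Fintype.card Q : ℝ) = Fintype.card Q * m ^ 2 := by rw [hs]; field_simp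
  rw [e3]
  linarith

/-- The lazy walk in one variable. -/
noncomputable def Ax (T : Finset Q) : Module.End ℝ (Q → ℝ) where
  toFun f y := (f y + Av T f y) / 2
  map_add' f g := by
    ext y
    show ((f + g) y + Av T (fun y => f y + g y) y) / 2 = (f y + Av T f y) / 2 + (g y + Av T g y) / 2
    rw [Av_add]; simp; ring
  map_smul' c f := by
    ext y
    show ((c • f) y + Av T (c • f) y) / 2 = c • ((f y + Av T f y) / 2)
    have : Av T (c • f) y = c * Av T f y := by
      unfold Av; simp only [Pi.smul_apply, smul_eq_mul]; rw [← Finset.mul_sum]; ring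
    rw [this]; simp; ring

theorem Ax_apply (T : Finset Q) (f : Q → ℝ) (y : Q) : Ax T f y = (f y + Av T f y) / 2 := rfl

/-- The base walk on pairs. -/
noncomputable def Pb (T : Finset Q) : Module.End ℝ (Q → Q → ℝ) where
  toFun f y e := (Av T (fun y' => f y' e) y + Av T (fun e' => f y e') e) / 2
  map_add' f g := by
    ext y e
    show (Av T (fun y' => f y' e + g y' e) y + Av T (fun e' => f y e' + g y e') e) / 2 = _
    rw [Av_add, Av_add]
    show _ = (Av T (fun y' => f y' e) y + Av T (fun e' => f y e') e) / 2 + (Av T (fun y' => g y' e) y + Av T (fun e' => g y e') e) / 2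
    ring
  map_smul' c f := by
    ext y e
    show (Av T (fun y' => c * f y' e) y + Av T (fun e' => c * f y e') e) / 2
      = c * ((Av T (fun y' => f y' e) y + Av T (fun e' => f y e') e) / 2)
    unfold Av; rw [← Finset.mul_sum, ← Finset.mul_sum]; ring

theorem Pb_apply (T : Finset Q) (f : Q → Q → ℝ) (y e : Q) :
    Pb T f y e = (Av T (fun y' => f y' e) y + Av T (fun e' => f y e') e) / 2 := rfl

theorem sum_Pb {T : Finset Q} (hT : 0 < T.card) (f : Q → Q → ℝ) : ∑ y, ∑ e, Pb T f y e = ∑ y, ∑ e, f y e := by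
  simp only [Pb_apply]
  have e1 : ∑ y, ∑ e, Av T (fun y' => f y' e) y = ∑ y, ∑ e, f y e := by
    rw [Finset.sum_comm]
    rw [Finset.sum_congr rfl (fun e _ => sum_Av hT (fun y' => f y' e)), Finset.sum_comm]
  have e2 : ∑ y, ∑ e, Av T (fun e' => f y e') e = ∑ y, ∑ e, f y e :=
    Finset.sum_congr rfl (fun y _ => sum_Av hT (fun e' => f y e'))
  calc ∑ y, ∑ e, (Av T (fun y' => f y' e) y + Av T (fun e' => f y e') e) / 2
      = (∑ y, ∑ e, Av T (fun y' => f y' e) y + ∑ y, ∑ e, Av T (fun e' => f y e') e) / 2 := by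
        rw [← Finset.sum_add_distrib, Finset.sum_div]
        apply Finset.sum_congr rfl; intro y _
        rw [← Finset.sum_add_distrib, Finset.sum_div]
    _ = _ := by rw [e1, e2]; ring

/-- Contraction of the base walk on functions of mean zero. -/
theorem Gap.Pb_sq {T : Finset Q} (h : Gap T) (f : Q → Q → ℝ) (hf : ∑ y, ∑ e, f y e = 0) :
    ∑ y, ∑ e, (Pb T f y e) ^ 2 ≤ (9 / 16) * ∑ y, ∑ e, (f y e) ^ 2 := by
  have hn : (0 : ℝ) < Fintype.card Q := by exact_mod_cast Fintype.card_pos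
  set n : ℝ := (Fintype.card Q : ℝ) with hn'
  set S1 := ∑ y, (∑ e, f y e) ^ 2 with hS1
  set S2 := ∑ e, (∑ y, f y e) ^ 2 with hS2
  set S := ∑ y, ∑ e, (f y e) ^ 2 with hS
  have a1 : ∑ y, ∑ e, (Av T (fun y' => f y' e) y) ^ 2 ≤ (1 / 16) * S + (15 / 16) * (S2 / n) := by
    rw [Finset.sum_comm]
    refine (Finset.sum_le_sum (fun e _ => h.sq_le (fun y' => f y' e))).trans ?_
    rw [Finset.sum_add_distrib, ← Finset.mul_sum, ← Finset.mul_sum, ← Finset.sum_div, Finset.sum_comm]
  have a2 : ∑ y, ∑ e, (Av T (fun e' => f y e') e) ^ 2 ≤ (1 / 16) * S + (15 / 16) * (S1 / n) := by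
    refine (Finset.sum_le_sum (fun y _ => h.sq_le (fun e' => f y e'))).trans ?_
    rw [Finset.sum_add_distrib, ← Finset.mul_sum, ← Finset.mul_sum, ← Finset.sum_div]
  have a3 : ∑ y, ∑ e, (Pb T f y e) ^ 2 ≤ (∑ y, ∑ e, (Av T (fun y' => f y' e) y) ^ 2
      + ∑ y, ∑ e, (Av T (fun e' => f y e') e) ^ 2) / 2 := by
    rw [← Finset.sum_add_distrib, Finset.sum_div]
    apply Finset.sum_le_sum; intro y _
    rw [← Finset.sum_add_distrib, Finset.sum_div]
    apply Finset.sum_le_sum; intro e _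
    rw [Pb_apply]
    nlinarith [sq_nonneg (Av T (fun y' => f y' e) y - Av T (fun e' => f y e') e)]
  have a4 : S1 / n + S2 / n ≤ S := by
    have h0 : 0 ≤ ∑ y, ∑ e, (f y e - (∑ e', f y e') / n - (∑ y', f y' e) / n) ^ 2 :=
      Finset.sum_nonneg (fun y _ => Finset.sum_nonneg (fun e _ => sq_nonneg _))
    have e0 : ∀ y e, (f y e - (∑ e', f y e') / n - (∑ y', f y' e) / n) ^ 2
        = (f y e) ^ 2 + (∑ e', f y e') ^ 2 / n ^ 2 + (∑ y', f y' e) ^ 2 / n ^ 2
          - 2 / n * (f y e * (∑ e', f y e')) - 2 / n * (f y e * (∑ y', f y' e))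
          + 2 / n ^ 2 * ((∑ e', f y e') * (∑ y', f y' e)) := by
      intro y e; field_simp; ring
    simp only [e0, Finset.sum_add_distrib, Finset.sum_sub_distrib, ← Finset.mul_sum] at h0
    have e1 : ∑ y, ∑ _e : Q, (∑ e', f y e') ^ 2 / n ^ 2 = S1 / n := by
      simp only [Finset.sum_const, Finset.card_univ, nsmul_eq_mul]
      rw [hS1, Finset.sum_div]
      apply Finset.sum_congr rfl; intro y _
      rw [← hn']; field_simp
    have e2 : ∑ _y : Q, ∑ e, (∑ y', f y' e) ^ 2 / n ^ 2 = S2 / n := by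
      rw [Finset.sum_const, Finset.card_univ, nsmul_eq_mul, hS2, Finset.sum_div, Finset.mul_sum]
      apply Finset.sum_congr rfl; intro y _
      rw [← hn']; field_simp
    have e3 : ∑ y, ∑ e, f y e * (∑ e', f y e') = S1 := by
      rw [hS1]; apply Finset.sum_congr rfl; intro y _
      rw [← Finset.sum_mul]; ring
    rw [e1, e2] at h0
    have e5' : ∑ y, (∑ e', f y e') * ∑ e, ∑ y', f y' e = 0 := by
      have hc : ∑ e, ∑ y', f y' e = 0 := by rw [Finset.sum_comm]; exact hf
      rw [hc]; simp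
    have e6 : (∑ y, ∑ e, f y e * ∑ e', f y e') = S1 := e3
    have e7 : (∑ y, ∑ e, f y e * ∑ y', f y' e) = S2 := by
      rw [Finset.sum_comm, hS2]; apply Finset.sum_congr rfl; intro e _
      rw [← Finset.sum_mul]; ring
    rw [e6, e7, e5'] at h0
    have : 2 / n * S1 = 2 * (S1 / n) := by ring
    have : 2 / n * S2 = 2 * (S2 / n) := by ring
    linarith
  have hS0 : 0 ≤ S := Finset.sum_nonneg (fun y _ => Finset.sum_nonneg (fun e _ => sq_nonneg _))
  linarith

end Pool.Agent.H984
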