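import Pool.Agent.H984.Base

/-!
H984: powers of the base walk, the Green function, separated sites.
-/

set_option autoImplicit false

open Classical

namespace Pool.Agent.H984

variable {Q : Type} [Group Q] [Fintype Q]

/-- Positivity of an operator. -/
def Mono (L : Module.End ℝ (Q → Q → ℝ)) : Prop := ∀ f : Q → Q → ℝ, (∀ y e, 0 ≤ f y e) → ∀ y e, 0 ≤ L f y e

theorem Mono.one : Mono (1 : Module.End ℝ (Q → Q → ℝ)) := fun _ hf => hf

theorem Mono.mul {L L' : Module.End ℝ (Q → Q → ℝ)} (h : Mono L) (h' : Mono L') : Mono (L * L') :=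
  fun f hf => h _ (h' f hf)

theorem Mono.pow {L : Module.End ℝ (Q → Q → ℝ)} (h : Mono L) (t : ℕ) : Mono (L ^ t) := by
  induction t with
  | zero => rw [pow_zero]; exact Mono.one
  | succ t ih => rw [pow_succ]; exact ih.mul h

theorem Mono.sum {L : ℕ → Module.End ℝ (Q → Q → ℝ)} (h : ∀ t, Mono (L t)) (n : ℕ) :
    Mono (∑ t ∈ Finset.range n, L t) := by
  intro f hf y e
  rw [LinearMap.sum_apply]
  simp only [Finset.sum_apply]
  exact Finset.sum_nonneg (fun t _ => h t f hf y e)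

theorem Mono.le {L : Module.End ℝ (Q → Q → ℝ)} (h : Mono L) {f g : Q → Q → ℝ} (hfg : ∀ y e, f y e ≤ g y e) (y e : Q) :
    L f y e ≤ L g y e := by
  have := h (g - f) (fun y e => by simp only [Pi.sub_apply]; linarith [hfg y e]) y e
  rw [map_sub] at this
  simp only [Pi.sub_apply] at this
  linarith

theorem Mono.abs_le {L : Module.End ℝ (Q → Q → ℝ)} (h : Mono L) {f g : Q → Q → ℝ} (hfg : ∀ y e, |f y e| ≤ g y e)
    (y e : Q) : |L f y e| ≤ L g y e := by
  rw [_root_.abs_le]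
  constructor
  · have := h.le (f := -g) (g := f) (fun y e => by
      simp only [Pi.neg_apply]; exact (_root_.abs_le.mp (hfg y e)).1) y e
    rw [map_neg] at this
    exact this
  · exact h.le (fun y e => (_root_.abs_le.mp (hfg y e)).2) y e

theorem Av_nonneg {T : Finset Q} {f : Q → ℝ} (hf : ∀ y, 0 ≤ f y) (y : Q) : 0 ≤ Av T f y :=
  div_nonneg (Finset.sum_nonneg (fun _ _ => hf _)) (Nat.cast_nonneg _)

theorem Pb_mono (T : Finset Q) : Mono (Pb T) := by
  intro f hf y e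
  rw [Pb_apply]
  have h1 := Av_nonneg (T := T) (f := fun y' => f y' e) (fun y' => hf y' e) y
  have h2 := Av_nonneg (T := T) (f := fun e' => f y e') (fun e' => hf y e') e
  linarith

theorem Pb_const {T : Finset Q} (hT : 0 < T.card) (c : ℝ) (t : ℕ) :
    (Pb T ^ t) (fun _ _ => c) = fun _ _ => c := by
  induction t with
  | zero => simp
  | succ t ih =>
    rw [pow_succ, Module.End.mul_apply]
    have : Pb T (fun _ _ => c) = fun _ _ => c := by
      ext y e; rw [Pb_apply, Av_const hT, Av_const hT]; ring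
    rw [this, ih]

theorem sum_Pb_pow {T : Finset Q} (hT : 0 < T.card) (f : Q → Q → ℝ) (t : ℕ) :
    ∑ y, ∑ e, (Pb T ^ t) f y e = ∑ y, ∑ e, f y e := by
  induction t with
  | zero => simp
  | succ t ih => rw [pow_succ', Module.End.mul_apply, sum_Pb hT, ih]

theorem Gap.Pb_pow_sq {T : Finset Q} (h : Gap T) (f : Q → Q → ℝ) (hf : ∑ y, ∑ e, f y e = 0) (t : ℕ) :
    ∑ y, ∑ e, ((Pb T ^ t) f y e) ^ 2 ≤ (9 / 16) ^ t * ∑ y, ∑ e, (f y e) ^ 2 := by
  induction t with
  | zero => simp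
  | succ t ih =>
    rw [pow_succ' (Pb T), Module.End.mul_apply]
    refine (h.Pb_sq _ (by rw [sum_Pb_pow h.1, hf])).trans ?_
    rw [pow_succ]
    linarith

/-- Mixing of the base walk. -/
theorem Gap.Pb_mix {T : Finset Q} (h : Gap T) (f : Q → Q → ℝ) {B : ℝ} (hB0 : 0 ≤ B) (hB : ∀ y e, |f y e| ≤ B) (t : ℕ) (y e : Q) :
    |(Pb T ^ t) f y e - (∑ y, ∑ e, f y e) / (Fintype.card Q : ℝ) ^ 2| ≤ (3 / 4) ^ t * (Fintype.card Q * B) := by
  have hn : (0 : ℝ) < Fintype.card Q := by exact_mod_cast Fintype.card_pos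
  set n : ℝ := (Fintype.card Q : ℝ) with hn'
  set m := (∑ y, ∑ e, f y e) / n ^ 2 with hm
  have hs : ∑ y, ∑ e, f y e = n ^ 2 * m := by rw [hm]; field_simp
  obtain ⟨F0, hF0⟩ : ∃ F0 : Q → Q → ℝ, F0 = f - fun _ _ => m := ⟨_, rfl⟩
  have hF0' : ∀ y e, F0 y e = f y e - m := by intro y e; rw [hF0]; rfl
  have e1 : (Pb T ^ t) f y e - m = (Pb T ^ t) F0 y e := by
    rw [hF0, map_sub, Pb_const h.1]; rfl
  have e2 : ∑ y, ∑ e, F0 y e = 0 := by
    simp only [hF0', Finset.sum_sub_distrib, hs, Finset.sum_const, Finset.card_univ, nsmul_eq_mul]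
    rw [← hn']; ring
  have e3 : ∑ y, ∑ e, (F0 y e) ^ 2 ≤ n ^ 2 * B ^ 2 := by
    have h1 : ∑ y, ∑ e, (F0 y e) ^ 2 = ∑ y, ∑ e, (f y e) ^ 2 - n ^ 2 * m ^ 2 := by
      have h2 : ∀ y e, (F0 y e) ^ 2 = (f y e) ^ 2 - 2 * m * f y e + m ^ 2 := by
        intro y e; rw [hF0']; ring
      simp only [h2, Finset.sum_add_distrib, Finset.sum_sub_distrib, ← Finset.mul_sum, hs, Finset.sum_const,
        Finset.card_univ, nsmul_eq_mul]
      rw [← hn']; ring
    rw [h1]
    have h3 : ∑ y, ∑ e, (f y e) ^ 2 ≤ ∑ _y : Q, ∑ _e : Q, B ^ 2 := by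
      apply Finset.sum_le_sum; intro y _
      apply Finset.sum_le_sum; intro e _
      exact sq_le_sq' (by linarith [(_root_.abs_le.mp (hB y e)).1]) (_root_.abs_le.mp (hB y e)).2
    simp only [Finset.sum_const, Finset.card_univ, nsmul_eq_mul] at h3
    rw [← hn'] at h3
    have h4 : 0 ≤ n ^ 2 * m ^ 2 := by positivity
    nlinarith
  rw [e1]
  have e4 := h.Pb_pow_sq _ e2 t
  have e5 : ((Pb T ^ t) F0 y e) ^ 2 ≤ ∑ y, ∑ e, ((Pb T ^ t) F0 y e) ^ 2 := by
    refine le_trans ?_ (Finset.single_le_sum (f := fun y => ∑ e, ((Pb T ^ t) F0 y e) ^ 2)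
      (fun y _ => Finset.sum_nonneg (fun e _ => sq_nonneg _)) (Finset.mem_univ y))
    exact Finset.single_le_sum (f := fun e => ((Pb T ^ t) F0 y e) ^ 2)
      (fun e _ => sq_nonneg _) (Finset.mem_univ e)
  apply abs_le_of_sq_le_sq _ (by positivity)
  have e6 : ((3 / 4 : ℝ) ^ t * (n * B)) ^ 2 = (9 / 16) ^ t * (n ^ 2 * B ^ 2) := by
    rw [mul_pow, ← pow_mul, mul_comm t 2, pow_mul]; norm_num; ring
  rw [e6]
  refine e5.trans (e4.trans ?_)
  gcongr

/-! ### One variable -/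

theorem Pb_lift {T : Finset Q} (hT : 0 < T.card) (f : Q → ℝ) (t : ℕ) :
    (Pb T ^ t) (fun y _ => f y) = fun y _ => (Ax T ^ t) f y := by
  induction t with
  | zero => rfl
  | succ t ih =>
    rw [pow_succ', Module.End.mul_apply, ih]
    ext y e
    rw [Pb_apply, Av_const hT, pow_succ', Module.End.mul_apply, Ax_apply]
    ring

theorem Ax_nonneg {T : Finset Q} (hT : 0 < T.card) {f : Q → ℝ} (hf : ∀ y, 0 ≤ f y) (t : ℕ) (y : Q) :
    0 ≤ (Ax T ^ t) f y := by
  have := (Pb_mono T).pow t (fun y _ => f y) (fun y _ => hf y) y y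
  rw [Pb_lift hT] at this
  exact this

theorem sum_Ax_pow {T : Finset Q} (hT : 0 < T.card) (f : Q → ℝ) (t : ℕ) : ∑ y, (Ax T ^ t) f y = ∑ y, f y := by
  induction t with
  | zero => simp
  | succ t ih =>
    rw [pow_succ', Module.End.mul_apply]
    simp only [Ax_apply]
    rw [← Finset.sum_div, Finset.sum_add_distrib, sum_Av hT, ih]; ring

theorem Ax_const {T : Finset Q} (hT : 0 < T.card) (c : ℝ) (t : ℕ) : (Ax T ^ t) (fun _ => c) = fun _ => c := by
  induction t with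
  | zero => simp
  | succ t ih =>
    rw [pow_succ', Module.End.mul_apply, ih]; ext y; rw [Ax_apply, Av_const hT]; ring

theorem Gap.Ax_pow_sq {T : Finset Q} (h : Gap T) (f : Q → ℝ) (hf : ∑ y, f y = 0) (t : ℕ) :
    ∑ y, ((Ax T ^ t) f y) ^ 2 ≤ (9 / 16) ^ t * ∑ y, (f y) ^ 2 := by
  induction t with
  | zero => simp
  | succ t ih =>
    rw [pow_succ' (Ax T), Module.End.mul_apply]
    have h1 := h.2 ((Ax T ^ t) f) (by rw [sum_Ax_pow h.1, hf])
    have h2 : ∑ y, ((Ax T) ((Ax T ^ t) f) y) ^ 2 ≤ (∑ y, ((Ax T ^ t) f y) ^ 2 + ∑ y, (Av T ((Ax T ^ t) f) y) ^ 2) / 2 := by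
      rw [← Finset.sum_add_distrib, Finset.sum_div]
      apply Finset.sum_le_sum; intro y _
      rw [Ax_apply]
      nlinarith [sq_nonneg ((Ax T ^ t) f y - Av T ((Ax T ^ t) f) y)]
    have h3 : 0 ≤ ∑ y, ((Ax T ^ t) f y) ^ 2 := Finset.sum_nonneg (fun y _ => sq_nonneg _)
    rw [pow_succ]
    nlinarith

/-- The point mass. -/
noncomputable def del (x : Q) : Q → ℝ := fun y => if y = x then 1 else 0

theorem Gap.Ax_del {T : Finset Q} (h : Gap T) (x : Q) (t : ℕ) (y : Q) :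
    (Ax T ^ t) (del x) y ≤ 1 / (Fintype.card Q : ℝ) + (3 / 4) ^ t := by
  have hn : (1 : ℝ) ≤ Fintype.card Q := by exact_mod_cast Fintype.card_pos
  set n : ℝ := (Fintype.card Q : ℝ) with hn'
  have hn0 : 0 < n := by linarith
  obtain ⟨F0, hF0⟩ : ∃ F0 : Q → ℝ, F0 = del x - fun _ => 1 / n := ⟨_, rfl⟩
  have hF0' : ∀ y, F0 y = del x y - 1 / n := by intro y; rw [hF0]; rfl
  have e1 : (Ax T ^ t) (del x) y = 1 / n + (Ax T ^ t) F0 y := by
    rw [hF0, map_sub, Ax_const h.1]; simp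
  have e2 : ∑ y, F0 y = 0 := by
    simp only [hF0', Finset.sum_sub_distrib]
    unfold del
    simp only [Finset.sum_ite_eq', Finset.mem_univ, if_true, Finset.sum_const, Finset.card_univ, nsmul_eq_mul]
    rw [← hn']; field_simp; ring
  have e3 : ∑ y, (F0 y) ^ 2 ≤ 1 := by
    have h2 : ∀ y, (F0 y) ^ 2 = del x y - 2 / n * del x y + 1 / n ^ 2 := by
      intro y; rw [hF0']; unfold del; split_ifs <;> field_simp <;> ring
    simp only [h2, Finset.sum_add_distrib, Finset.sum_sub_distrib, ← Finset.mul_sum]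
    have : ∑ y, del x y = 1 := by unfold del; simp
    rw [this]
    simp only [Finset.sum_const, Finset.card_univ, nsmul_eq_mul]
    rw [← hn']
    have h3 : n * (1 / n ^ 2) = 1 / n := by field_simp
    rw [h3]
    have h4 : 0 < 1 / n := by positivity
    have h5 : 2 / n = 2 * (1 / n) := by ring
    rw [h5]; linarith
  have e4 := h.Ax_pow_sq _ e2 t
  have e5 : ((Ax T ^ t) F0 y) ^ 2 ≤ ∑ y, ((Ax T ^ t) F0 y) ^ 2 :=
    Finset.single_le_sum (f := fun y => ((Ax T ^ t) F0 y) ^ 2)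
      (fun e _ => sq_nonneg _) (Finset.mem_univ y)
  have e6 : |(Ax T ^ t) F0 y| ≤ (3 / 4) ^ t := by
    apply abs_le_of_sq_le_sq _ (by positivity)
    have e7 : ((3 / 4 : ℝ) ^ t) ^ 2 = (9 / 16) ^ t * 1 := by
      rw [← pow_mul, mul_comm t 2, pow_mul]; norm_num
    rw [e7]
    refine e5.trans (e4.trans ?_)
    gcongr
  have := (_root_.abs_le.mp e6).2
  rw [e1]; linarith

/-- The Green function up to time `τ`. -/
noncomputable def Gn (T : Finset Q) (τ : ℕ) (y x : Q) : ℝ := ∑ t ∈ Finset.range τ, (Ax T ^ t) (del x) y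

theorem del_nonneg (x y : Q) : 0 ≤ del x y := by unfold del; split_ifs <;> norm_num

theorem Gn_nonneg {T : Finset Q} (hT : 0 < T.card) (τ : ℕ) (y x : Q) : 0 ≤ Gn T τ y x :=
  Finset.sum_nonneg (fun t _ => Ax_nonneg hT (del_nonneg x) t y)

theorem Gn_self {T : Finset Q} (hT : 0 < T.card) {τ : ℕ} (hτ : 1 ≤ τ) (x : Q) : 1 ≤ Gn T τ x x := by
  unfold Gn
  have h1 := Finset.single_le_sum (f := fun t => (Ax T ^ t) (del x) x) (fun t _ => Ax_nonneg hT (del_nonneg x) t x)
    (Finset.mem_range.mpr (by omega : 0 < τ))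
  simp only [pow_zero] at h1
  have h2 : (1 : Module.End ℝ (Q → ℝ)) (del x) x = 1 := by show del x x = 1; unfold del; simp
  linarith

theorem Gap.Gn_le {T : Finset Q} (h : Gap T) (τ : ℕ) (y x : Q) : Gn T τ y x ≤ τ / (Fintype.card Q : ℝ) + 4 := by
  unfold Gn
  calc ∑ t ∈ Finset.range τ, (Ax T ^ t) (del x) y
      ≤ ∑ t ∈ Finset.range τ, (1 / (Fintype.card Q : ℝ) + (3 / 4) ^ t) := Finset.sum_le_sum (fun t _ => h.Ax_del x t y)
    _ = τ / (Fintype.card Q : ℝ) + ∑ t ∈ Finset.range τ, (3 / 4 : ℝ) ^ t := by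
        rw [Finset.sum_add_distrib, Finset.sum_const, Finset.card_range, nsmul_eq_mul]; ring
    _ ≤ _ := by
        have h1 := geom_sum_eq (by norm_num : (3 / 4 : ℝ) ≠ 1) τ
        rw [h1]
        have h2 : (0 : ℝ) < (3 / 4) ^ τ := by positivity
        have h3 : ((3 / 4 : ℝ) ^ τ - 1) / (3 / 4 - 1) = 4 - 4 * (3 / 4) ^ τ := by field_simp; ring
        rw [h3]; linarith

theorem sum_Gn_right {T : Finset Q} (hT : 0 < T.card) (τ : ℕ) (y : Q) : ∑ x, Gn T τ y x = τ := by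
  unfold Gn
  rw [Finset.sum_comm]
  have h1 : ∀ t ∈ Finset.range τ, ∑ x, (Ax T ^ t) (del x) y = 1 := by
    intro t _
    have : ∑ x, (Ax T ^ t) (del x) y = (Ax T ^ t) (∑ x, del x) y := by
      rw [map_sum]; simp only [Finset.sum_apply]
    rw [this]
    have e : (∑ x : Q, del x) = fun _ => (1 : ℝ) := by
      ext z; simp only [Finset.sum_apply]; unfold del; simp
    rw [e, Ax_const hT]
  rw [Finset.sum_congr rfl h1]; simp

theorem sum_Gn_left {T : Finset Q} (hT : 0 < T.card) (τ : ℕ) (x : Q) : ∑ y, Gn T τ y x = τ := by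
  unfold Gn
  rw [Finset.sum_comm]
  have h1 : ∀ t ∈ Finset.range τ, ∑ y, (Ax T ^ t) (del x) y = 1 := by
    intro t _
    rw [sum_Ax_pow hT]; unfold del; simp
  rw [Finset.sum_congr rfl h1]; simp

/-! ### Separated sites -/

/-- At most one site is seen from each place. -/
def Sep {ι : Type} (T : Finset Q) (τ : ℕ) (δ : ℝ) (site : ι → Q) : Prop :=
  ∀ y x x', δ < Gn T τ y (site x) → δ < Gn T τ y (site x') → x = x'

theorem card_big {α : Type} [Fintype α] (f : α → ℝ) (hf : ∀ a, 0 ≤ f a) {δ S : ℝ} (hδ : 0 < δ) (hS : ∑ a, f a = S) :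
    ((Finset.univ.filter (fun a => δ < f a)).card : ℝ) ≤ S / δ := by
  rw [le_div_iff₀ hδ, ← hS]
  calc ((Finset.univ.filter (fun a => δ < f a)).card : ℝ) * δ = ∑ a ∈ Finset.univ.filter (fun a => δ < f a), δ := by
        rw [Finset.sum_const, nsmul_eq_mul]
    _ ≤ ∑ a ∈ Finset.univ.filter (fun a => δ < f a), f a := Finset.sum_le_sum (fun a ha => (Finset.mem_filter.mp ha).2.le)
    _ ≤ ∑ a, f a := Finset.sum_le_sum_of_subset_of_nonneg (Finset.filter_subset _ _) (fun a _ _ => hf a)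

theorem greedy {α : Type} [Fintype α] (Bad : α → α → Prop) {D : ℝ} (hD : 0 ≤ D)
    (hsymm : ∀ a b, Bad a b → Bad b a)
    (hbad : ∀ a, ((Finset.univ.filter (fun b => Bad a b)).card : ℝ) ≤ D) (n : ℕ) (hn : (n : ℝ) * D < Fintype.card α) :
    ∃ f : Fin n → α, ∀ i j, i ≠ j → ¬ Bad (f i) (f j) := by
  induction n with
  | zero => exact ⟨fun i => i.elim0, fun i => i.elim0⟩
  | succ n ih =>
    push_cast at hn
    obtain ⟨f, hf⟩ := ih (by nlinarith)
    have : ∃ b, ∀ i, ¬ Bad (f i) b := by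
      by_contra hc
      push Not at hc
      have hsub : (Finset.univ : Finset α) ⊆ Finset.univ.biUnion (fun i : Fin n => Finset.univ.filter (fun b => Bad (f i) b)) := by
        intro b _
        obtain ⟨i, hi⟩ := hc b
        exact Finset.mem_biUnion.mpr ⟨i, Finset.mem_univ _, Finset.mem_filter.mpr ⟨Finset.mem_univ _, hi⟩⟩
      have h1 := Finset.card_le_card hsub
      have h2 := Finset.card_biUnion_le (s := Finset.univ) (t := fun i : Fin n => Finset.univ.filter (fun b => Bad (f i) b))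
      have h3 : ((Fintype.card α : ℕ) : ℝ) ≤ ∑ i : Fin n, ((Finset.univ.filter (fun b => Bad (f i) b)).card : ℝ) := by
        rw [← Finset.card_univ]; exact_mod_cast h1.trans h2
      have h4 : ∑ i : Fin n, ((Finset.univ.filter (fun b => Bad (f i) b)).card : ℝ) ≤ ∑ _i : Fin n, D :=
        Finset.sum_le_sum (fun i _ => hbad (f i))
      simp only [Finset.sum_const, Finset.card_univ, Fintype.card_fin, nsmul_eq_mul] at h4
      nlinarith
    obtain ⟨b, hb⟩ := this
    refine ⟨Fin.snoc f b, ?_⟩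
    intro i j hij
    induction i using Fin.lastCases with
    | last =>
      induction j using Fin.lastCases with
      | last => exact absurd rfl hij
      | cast j =>
        rw [Fin.snoc_last, Fin.snoc_castSucc]
        exact fun h => hb j (hsymm _ _ h)
    | cast i =>
      induction j using Fin.lastCases with
      | last =>
        rw [Fin.snoc_last, Fin.snoc_castSucc]
        exact hb i
      | cast j =>
        rw [Fin.snoc_castSucc, Fin.snoc_castSucc]
        exact hf i j (fun h => hij (by rw [h]))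

/-- Two sites seen from one place. -/
def BadP (T : Finset Q) (τ : ℕ) (δ : ℝ) (a b : Q) : Prop := ∃ y, δ < Gn T τ y a ∧ δ < Gn T τ y b

theorem BadP_card {T : Finset Q} (hT : 0 < T.card) {τ : ℕ} {δ : ℝ} (hδ : 0 < δ) (a : Q) :
    ((Finset.univ.filter (fun b => BadP T τ δ a b)).card : ℝ) ≤ (τ / δ) * (τ / δ) := by
  have hsub : (Finset.univ.filter (fun b => BadP T τ δ a b)) ⊆
      (Finset.univ.filter (fun y => δ < Gn T τ y a)).biUnion (fun y => Finset.univ.filter (fun b => δ < Gn T τ y b)) := by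
    intro b hb
    obtain ⟨y, hy1, hy2⟩ := (Finset.mem_filter.mp hb).2
    exact Finset.mem_biUnion.mpr ⟨y, Finset.mem_filter.mpr ⟨Finset.mem_univ _, hy1⟩,
      Finset.mem_filter.mpr ⟨Finset.mem_univ _, hy2⟩⟩
  have h3 := Finset.card_le_card hsub
  have h4 := Finset.card_biUnion_le (s := Finset.univ.filter (fun y => δ < Gn T τ y a))
    (t := fun y => Finset.univ.filter (fun b => δ < Gn T τ y b))
  have h5 := h3.trans h4
  have h6 : ((Finset.univ.filter (fun b => BadP T τ δ a b)).card : ℝ) ≤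
      ((∑ y ∈ Finset.univ.filter (fun y => δ < Gn T τ y a), (Finset.univ.filter (fun b => δ < Gn T τ y b)).card : ℕ) : ℝ) :=
    Nat.cast_le.mpr h5
  rw [Nat.cast_sum] at h6
  refine h6.trans ?_
  have h7 : ∀ y ∈ Finset.univ.filter (fun y => δ < Gn T τ y a),
      ((Finset.univ.filter (fun b => δ < Gn T τ y b)).card : ℝ) ≤ τ / δ :=
    fun y _ => card_big (fun b => Gn T τ y b) (fun b => Gn_nonneg hT τ y b) hδ (sum_Gn_right hT τ y)
  refine (Finset.sum_le_sum h7).trans ?_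
  rw [Finset.sum_const, nsmul_eq_mul]
  have h8 := card_big (fun y => Gn T τ y a) (fun y => Gn_nonneg hT τ y a) hδ (sum_Gn_left hT τ a)
  have h9 : 0 ≤ (τ : ℝ) / δ := by positivity
  exact mul_le_mul_of_nonneg_right h8 h9

/-- Existence of separated sites. -/
theorem exists_sep {ι : Type} [Fintype ι] {T : Finset Q} (hT : 0 < T.card) {τ : ℕ} (hτ : 1 ≤ τ) {δ : ℝ} (hδ : 0 < δ)
    (hδ1 : δ < 1) (hcard : (Fintype.card ι : ℝ) * ((τ / δ) * (τ / δ)) < Fintype.card Q) :
    ∃ site : ι → Q, Function.Injective site ∧ Sep T τ δ site := by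
  have hD : 0 ≤ ((τ : ℝ) / δ) * (τ / δ) := by positivity
  obtain ⟨f, hf⟩ := greedy (BadP T τ δ) hD (fun a b ⟨y, h1, h2⟩ => ⟨y, h2, h1⟩) (BadP_card hT hδ) (Fintype.card ι) hcard
  obtain ⟨eq⟩ : Nonempty (ι ≃ Fin (Fintype.card ι)) := ⟨Fintype.equivFin ι⟩
  have hsep : Sep T τ δ (fun x => f (eq x)) := by
    intro y x x' hx hx'
    by_contra hne
    exact hf (eq x) (eq x') (fun h => hne (eq.injective h)) ⟨y, hx, hx'⟩
  refine ⟨fun x => f (eq x), ?_, hsep⟩
  intro x x' hxx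
  have h3 := Gn_self hT hτ (f (eq x))
  have hxx' : f (eq x) = f (eq x') := hxx
  refine hsep (f (eq x)) x x' (lt_of_lt_of_le hδ1 h3) ?_
  show δ < Gn T τ (f (eq x)) (f (eq x'))
  rw [← hxx']; exact lt_of_lt_of_le hδ1 h3

end Pool.Agent.H984
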