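import Pool.Agent.H984.Stmt

/-!
H984: lazy walks, and the blow-up of a graph.
-/

set_option autoImplicit false

open Classical

namespace Pool.Agent.H984

variable {V : Type} [Fintype V]

theorem lazyWalk_nonneg (G : SimpleGraph V) (x y : V) : 0 ≤ lazyWalk G x y := by
  unfold lazyWalk
  rw [Matrix.of_apply]
  apply add_nonneg <;> split_ifs <;> positivity

theorem deg_sum (G : SimpleGraph V) (x : V) : ∑ y, (if G.Adj x y then (1 : ℝ) else 0) = G.degree x := by
  rw [Finset.sum_boole, ← SimpleGraph.card_neighborFinset_eq_degree]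
  congr 2
  ext y; simp

theorem lazyWalk_mulVec (G : SimpleGraph V) (F : V → ℝ) (x : V) :
    (lazyWalk G).mulVec F x = F x / 2 + (∑ y, if G.Adj x y then F y else 0) / (2 * (G.degree x : ℝ)) := by
  unfold Matrix.mulVec dotProduct lazyWalk
  simp only [Matrix.of_apply, add_mul, Finset.sum_add_distrib]
  congr 1
  · simp only [ite_mul, zero_mul]
    rw [Finset.sum_ite_eq, if_pos (Finset.mem_univ _)]; ring
  · rw [Finset.sum_div]
    apply Finset.sum_congr rfl; intro y _
    split_ifs <;> ring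

/-- Row sums. -/
theorem lazyWalk_one (G : SimpleGraph V) {x : V} (h : 0 < G.degree x) : (lazyWalk G).mulVec (fun _ => 1) x = 1 := by
  rw [lazyWalk_mulVec, deg_sum]
  have : (G.degree x : ℝ) ≠ 0 := by exact_mod_cast h.ne'
  field_simp; norm_num

/-- Iterates of the lazy walk on functions. -/
noncomputable def wpow (G : SimpleGraph V) (t : ℕ) (F : V → ℝ) (x : V) : ℝ := (lazyWalk G ^ t).mulVec F x

theorem wpow_eq (G : SimpleGraph V) (t : ℕ) (F : V → ℝ) (x : V) : wpow G t F x = ∑ y, (lazyWalk G ^ t) x y * F y := rfl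

theorem wpow_zero (G : SimpleGraph V) (F : V → ℝ) (x : V) : wpow G 0 F x = F x := by
  unfold wpow; rw [pow_zero, Matrix.one_mulVec]

theorem wpow_succ (G : SimpleGraph V) (t : ℕ) (F : V → ℝ) (x : V) :
    wpow G (t + 1) F x = wpow G t (fun y => (lazyWalk G).mulVec F y) x := by
  unfold wpow; rw [pow_succ, ← Matrix.mulVec_mulVec]

theorem lazyWalk_pow_nonneg (G : SimpleGraph V) (t : ℕ) (x y : V) : 0 ≤ (lazyWalk G ^ t) x y := by
  induction t generalizing x y with
  | zero => rw [pow_zero, Matrix.one_apply]; split_ifs <;> norm_num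
  | succ t ih =>
    rw [pow_succ, Matrix.mul_apply]
    exact Finset.sum_nonneg (fun z _ => mul_nonneg (ih x z) (lazyWalk_nonneg G z y))

theorem wpow_mono (G : SimpleGraph V) (t : ℕ) {F F' : V → ℝ} (h : ∀ x, F x ≤ F' x) (x : V) : wpow G t F x ≤ wpow G t F' x := by
  rw [wpow_eq, wpow_eq]
  exact Finset.sum_le_sum (fun y _ => mul_le_mul_of_nonneg_left (h y) (lazyWalk_pow_nonneg G t x y))

theorem wpow_nonneg (G : SimpleGraph V) (t : ℕ) {F : V → ℝ} (h : ∀ x, 0 ≤ F x) (x : V) : 0 ≤ wpow G t F x := by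
  rw [wpow_eq]
  exact Finset.sum_nonneg (fun y _ => mul_nonneg (lazyWalk_pow_nonneg G t x y) (h y))

theorem wpow_lin (G : SimpleGraph V) (t : ℕ) (F F' : V → ℝ) (a b : ℝ) (x : V) :
    wpow G t (fun y => a * F y + b * F' y) x = a * wpow G t F x + b * wpow G t F' x := by
  rw [wpow_eq, wpow_eq, wpow_eq, Finset.mul_sum, Finset.mul_sum, ← Finset.sum_add_distrib]
  apply Finset.sum_congr rfl; intro y _; ring

theorem wpow_one (G : SimpleGraph V) (hd : ∀ x, 0 < G.degree x) (t : ℕ) (x : V) : wpow G t (fun _ => 1) x = 1 := by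
  induction t generalizing x with
  | zero => rw [wpow_zero]
  | succ t ih =>
    rw [wpow_succ]
    have : (fun y => (lazyWalk G).mulVec (fun _ => 1) y) = fun _ => (1 : ℝ) := by
      ext y; exact lazyWalk_one G (hd y)
    rw [this, ih]

theorem statLaw_eq (G : SimpleGraph V) (x : V) : statLaw G x = (G.degree x : ℝ) / ∑ y, (G.degree y : ℝ) := by
  unfold statLaw
  have := SimpleGraph.sum_degrees_eq_twice_card_edges G
  have h2 : (∑ y, (G.degree y : ℝ)) = 2 * (G.edgeFinset.card : ℝ) := by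
    have h3 : ((∑ y, G.degree y : ℕ) : ℝ) = ((2 * G.edgeFinset.card : ℕ) : ℝ) := by
      rw [this]
    push_cast at h3
    exact h3
  rw [h2]

theorem mixed_le (G : SimpleGraph V) (hd : ∀ x, 0 < G.degree x) {t : ℕ} (hm : Mixed G t) {F : V → ℝ} (hF : ∀ x, 0 ≤ F x) (x : V) :
    wpow G t F x ≤ 5 / 4 * ∑ y, statLaw G y * F y := by
  rw [wpow_eq, Finset.mul_sum]
  apply Finset.sum_le_sum; intro y _
  have h1 := hm x y
  have hS : 0 < ∑ z, (G.degree z : ℝ) := by
    apply Finset.sum_pos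
    · intro z _; exact_mod_cast hd z
    · exact ⟨x, Finset.mem_univ _⟩
  have hpi : 0 < statLaw G y := by
    rw [statLaw_eq]; apply div_pos _ hS; exact_mod_cast hd y
  have h2 := (abs_le.mp h1).2
  have h3 : (lazyWalk G ^ t) x y / statLaw G y ≤ 5 / 4 := by linarith
  rw [div_le_iff₀ hpi] at h3
  calc (lazyWalk G ^ t) x y * F y ≤ (5 / 4 * statLaw G y) * F y := mul_le_mul_of_nonneg_right h3 (hF y)
    _ = _ := by ring

/-! ### The blow-up -/

/-- The blow-up of a graph: each vertex becomes `K1 * K` copies; edges in `allE` become complete bipartite, edges in `hiE`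
join copies with equal first coordinate, other edges join equal copies. -/
def blow (G : SimpleGraph V) (allE hiE : V → V → Prop) (ha : ∀ u v, allE u v → allE v u) (hh : ∀ u v, hiE u v → hiE v u)
    (K1 K : ℕ) : SimpleGraph (V × (Fin K1 × Fin K)) where
  Adj u v := G.Adj u.1 v.1 ∧ (allE u.1 v.1 ∨ (hiE u.1 v.1 ∧ u.2.1 = v.2.1) ∨ u.2 = v.2)
  symm := ⟨by
    rintro u v ⟨h1, h2⟩
    refine ⟨h1.symm, ?_⟩
    rcases h2 with h2 | ⟨h2, h3⟩ | h2
    · exact Or.inl (ha _ _ h2)
    · exact Or.inr (Or.inl ⟨hh _ _ h2, h3.symm⟩)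
    · exact Or.inr (Or.inr h2.symm)⟩
  loopless := ⟨fun u h => G.loopless.irrefl u.1 h.1⟩

/-- The weight of an edge in the blow-up. -/
noncomputable def bw (allE hiE : V → V → Prop) (K1 K : ℕ) (u v : V) : ℝ :=
  if allE u v then (K1 : ℝ) * K else if hiE u v then (K : ℝ) else 1

theorem blow_sum (G : SimpleGraph V) (allE hiE : V → V → Prop) (ha : ∀ u v, allE u v → allE v u)
    (hh : ∀ u v, hiE u v → hiE v u) (K1 K : ℕ) (F : V → ℝ) (u : V × (Fin K1 × Fin K)) :
    (∑ v, if (blow G allE hiE ha hh K1 K).Adj u v then F v.1 else 0)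
      = ∑ v : V, if G.Adj u.1 v then bw allE hiE K1 K u.1 v * F v else 0 := by
  rw [Fintype.sum_prod_type]
  apply Finset.sum_congr rfl; intro v _
  have e1 : ∀ j : Fin K1 × Fin K, (if (blow G allE hiE ha hh K1 K).Adj u (v, j) then F (v, j).1 else 0)
      = (if G.Adj u.1 v then F v else 0) * (if (allE u.1 v ∨ (hiE u.1 v ∧ u.2.1 = j.1) ∨ u.2 = j) then (1 : ℝ) else 0) := by
    intro j
    by_cases h1 : G.Adj u.1 v
    · by_cases h2 : (allE u.1 v ∨ (hiE u.1 v ∧ u.2.1 = j.1) ∨ u.2 = j)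
      · rw [if_pos (show (blow G allE hiE ha hh K1 K).Adj u (v, j) from ⟨h1, h2⟩), if_pos h1, if_pos h2, mul_one]
      · rw [if_neg (fun h : (blow G allE hiE ha hh K1 K).Adj u (v, j) => h2 h.2), if_neg h2, mul_zero]
    · rw [if_neg (fun h : (blow G allE hiE ha hh K1 K).Adj u (v, j) => h1 h.1), if_neg h1, zero_mul]
  rw [Finset.sum_congr rfl (fun j _ => e1 j), ← Finset.mul_sum]
  have e2 : ∑ j : Fin K1 × Fin K, (if (allE u.1 v ∨ (hiE u.1 v ∧ u.2.1 = j.1) ∨ u.2 = j) then (1 : ℝ) else 0)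
      = bw allE hiE K1 K u.1 v := by
    unfold bw
    by_cases h1 : allE u.1 v
    · simp [h1]
    · by_cases h2 : hiE u.1 v
      · rw [if_neg h1, if_pos h2]
        have e3 : ∀ j : Fin K1 × Fin K, (if (allE u.1 v ∨ (hiE u.1 v ∧ u.2.1 = j.1) ∨ u.2 = j) then (1 : ℝ) else 0)
            = (if u.2.1 = j.1 then (1 : ℝ) else 0) := by
          intro j
          by_cases h3 : u.2.1 = j.1
          · rw [if_pos (Or.inr (Or.inl ⟨h2, h3⟩)), if_pos h3]
          · rw [if_neg h3, if_neg]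
            rintro (h4 | ⟨_, h4⟩ | h4)
            · exact h1 h4
            · exact h3 h4
            · exact h3 (by rw [h4])
        rw [Finset.sum_congr rfl (fun j _ => e3 j), Fintype.sum_prod_type]
        have e4 : ∀ a : Fin K1, (∑ b : Fin K, if u.2.1 = (a, b).1 then (1 : ℝ) else 0) = if u.2.1 = a then (K : ℝ) else 0 := by
          intro a
          by_cases h : u.2.1 = a
          · simp [h]
          · simp [h]
        rw [Finset.sum_congr rfl (fun a _ => e4 a), Finset.sum_ite_eq, if_pos (Finset.mem_univ _)]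
      · rw [if_neg h1, if_neg h2]
        have e3 : ∀ j : Fin K1 × Fin K, (if (allE u.1 v ∨ (hiE u.1 v ∧ u.2.1 = j.1) ∨ u.2 = j) then (1 : ℝ) else 0)
            = (if u.2 = j then (1 : ℝ) else 0) := by
          intro j
          by_cases h3 : u.2 = j
          · rw [if_pos (Or.inr (Or.inr h3)), if_pos h3]
          · rw [if_neg h3, if_neg]
            rintro (h4 | ⟨h4, _⟩ | h4)
            · exact h1 h4
            · exact h2 h4
            · exact h3 h4
        rw [Finset.sum_congr rfl (fun j _ => e3 j), Finset.sum_ite_eq, if_pos (Finset.mem_univ _)]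
  rw [e2]
  split_ifs <;> ring

theorem blow_deg (G : SimpleGraph V) (allE hiE : V → V → Prop) (ha : ∀ u v, allE u v → allE v u)
    (hh : ∀ u v, hiE u v → hiE v u) (K1 K : ℕ) (u : V × (Fin K1 × Fin K)) :
    ((blow G allE hiE ha hh K1 K).degree u : ℝ) = ∑ v : V, if G.Adj u.1 v then bw allE hiE K1 K u.1 v else 0 := by
  rw [← deg_sum, blow_sum G allE hiE ha hh K1 K (fun _ => 1) u]
  apply Finset.sum_congr rfl; intro v _; rw [mul_one]

/-- The projected lazy walk. -/
theorem blow_step (G : SimpleGraph V) (allE hiE : V → V → Prop) (ha : ∀ u v, allE u v → allE v u)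
    (hh : ∀ u v, hiE u v → hiE v u) (K1 K : ℕ) (F : V → ℝ) (u : V × (Fin K1 × Fin K))
    (hd : 0 < ∑ v : V, if G.Adj u.1 v then bw allE hiE K1 K u.1 v else 0) :
    (lazyWalk (blow G allE hiE ha hh K1 K)).mulVec (fun v => F v.1) u
      = F u.1 + (∑ v : V, if G.Adj u.1 v then bw allE hiE K1 K u.1 v * (F v - F u.1) else 0)
        / (2 * ∑ v : V, if G.Adj u.1 v then bw allE hiE K1 K u.1 v else 0) := by
  rw [lazyWalk_mulVec, blow_sum, blow_deg]
  set W := ∑ v : V, if G.Adj u.1 v then bw allE hiE K1 K u.1 v else 0 with hW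
  have e1 : (∑ v : V, if G.Adj u.1 v then bw allE hiE K1 K u.1 v * (F v - F u.1) else 0)
      = (∑ v : V, if G.Adj u.1 v then bw allE hiE K1 K u.1 v * F v else 0) - W * F u.1 := by
    rw [hW, Finset.sum_mul, ← Finset.sum_sub_distrib]
    apply Finset.sum_congr rfl; intro v _; split_ifs <;> ring
  rw [e1]
  field_simp
  ring

/-! ### Quasi-isometry -/

theorem walk_lift (G : SimpleGraph V) (allE hiE : V → V → Prop) (ha : ∀ u v, allE u v → allE v u)
    (hh : ∀ u v, hiE u v → hiE v u) (K1 K : ℕ) (i : Fin K1 × Fin K) {u v : V} (w : G.Walk u v) :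
    ∃ w' : (blow G allE hiE ha hh K1 K).Walk (u, i) (v, i), w'.length = w.length := by
  induction w with
  | nil => exact ⟨SimpleGraph.Walk.nil, rfl⟩
  | cons h _ ih =>
    obtain ⟨w', hw'⟩ := ih
    refine ⟨SimpleGraph.Walk.cons (show (blow G allE hiE ha hh K1 K).Adj (_, i) (_, i) from ⟨h, Or.inr (Or.inr rfl)⟩) w', ?_⟩
    simp [hw']

theorem walk_proj (G : SimpleGraph V) (allE hiE : V → V → Prop) (ha : ∀ u v, allE u v → allE v u)
    (hh : ∀ u v, hiE u v → hiE v u) (K1 K : ℕ) {u v : V × (Fin K1 × Fin K)} (w : (blow G allE hiE ha hh K1 K).Walk u v) :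
    ∃ w' : G.Walk u.1 v.1, w'.length = w.length := by
  induction w with
  | nil => exact ⟨SimpleGraph.Walk.nil, rfl⟩
  | cons h _ ih =>
    obtain ⟨w', hw'⟩ := ih
    refine ⟨SimpleGraph.Walk.cons h.1 w', ?_⟩
    simp [hw']

theorem blow_dist (G : SimpleGraph V) (hG : G.Connected) (allE hiE : V → V → Prop) (ha : ∀ u v, allE u v → allE v u)
    (hh : ∀ u v, hiE u v → hiE v u) (K1 K : ℕ) (i : Fin K1 × Fin K) (u v : V) :
    (blow G allE hiE ha hh K1 K).dist (u, i) (v, i) = G.dist u v := by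
  obtain ⟨w, hw⟩ := hG.exists_walk_length_eq_dist u v
  obtain ⟨w', hw'⟩ := walk_lift G allE hiE ha hh K1 K i w
  apply le_antisymm
  · rw [← hw, ← hw']; exact SimpleGraph.dist_le w'
  · have hr : (blow G allE hiE ha hh K1 K).Reachable (u, i) (v, i) := ⟨w'⟩
    obtain ⟨p, hp⟩ := hr.exists_walk_length_eq_dist
    obtain ⟨p', hp'⟩ := walk_proj G allE hiE ha hh K1 K p
    rw [← hp, ← hp']; exact SimpleGraph.dist_le p'

theorem blow_connected (G : SimpleGraph V) (hG : G.Connected) (allE hiE : V → V → Prop) (ha : ∀ u v, allE u v → allE v u)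
    (hh : ∀ u v, hiE u v → hiE v u) (K1 K : ℕ) (hne : Nonempty (Fin K1 × Fin K))
    (hall : ∀ u : V, ∃ v, G.Adj u v ∧ allE u v) : (blow G allE hiE ha hh K1 K).Connected := by
  have hV := hG.nonempty
  obtain ⟨i0⟩ := hne
  have h1 : ∀ u : V × (Fin K1 × Fin K), (blow G allE hiE ha hh K1 K).Reachable u (hV.some, i0) := by
    rintro ⟨u, i⟩
    obtain ⟨v, hv1, hv2⟩ := hall u
    have hadj : (blow G allE hiE ha hh K1 K).Adj (u, i) (v, i0) := ⟨hv1, Or.inl hv2⟩
    obtain ⟨w, _⟩ := hG.exists_walk_length_eq_dist v hV.some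
    obtain ⟨w', _⟩ := walk_lift G allE hiE ha hh K1 K i0 w
    exact hadj.reachable.trans ⟨w'⟩
  have : Nonempty (V × (Fin K1 × Fin K)) := ⟨(hV.some, i0)⟩
  exact ⟨fun u v => (h1 u).trans (h1 v).symm⟩

/-- The embedding into the blow-up is a `(1,1)`-quasi-isometry. -/
theorem blow_qi (G : SimpleGraph V) (hG : G.Connected) (allE hiE : V → V → Prop) (ha : ∀ u v, allE u v → allE v u)
    (hh : ∀ u v, hiE u v → hiE v u) (K1 K : ℕ) (i : Fin K1 × Fin K)
    (hall : ∀ u : V, ∃ v, G.Adj u v ∧ allE u v) :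
    IsQI 1 1 G (blow G allE hiE ha hh K1 K) (fun v => (v, i)) := by
  refine ⟨?_, ?_⟩
  · intro x y
    rw [blow_dist G hG]
    constructor <;> simp
  · rintro ⟨u, j⟩
    obtain ⟨v, hv1, hv2⟩ := hall u
    have hadj : (blow G allE hiE ha hh K1 K).Adj (u, j) (v, i) := ⟨hv1, Or.inl hv2⟩
    refine ⟨v, ?_⟩
    have := SimpleGraph.dist_le (SimpleGraph.Walk.cons hadj SimpleGraph.Walk.nil)
    simp at this
    exact_mod_cast this

end Pool.Agent.H984
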