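import Pool.Agent.H984.Rat5
import Pool.Agent.H984.Base2

/-!
H984: the corrector for the walker, and the pointwise drift of the corrected potential.
-/

set_option autoImplicit false

open Classical

namespace Pool.Agent.H984

variable {Q : Type} [Group Q] [Fintype Q]

/-- Hypotheses on the lamp group. -/
structure LampOK (T : Finset Q) (lev : Q → ℕ) (L : ℕ) (d dp : ℝ) : Prop where
  gap : Gap T
  one : (1 : Q) ∉ T
  inv : ∀ t ∈ T, t⁻¹ ∈ T
  card : (T.card : ℝ) = d
  lev1 : lev 1 = 0
  step : ∀ h, ∀ t ∈ T, lev (h * t) ≤ lev h + 1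
  top : ∀ h, lev h ≤ L + 1
  down_le : ∀ h, (T.filter (fun t => lev (h * t) + 1 = lev h)).card ≤ 1
  down_ge : ∀ h, 1 ≤ lev h → lev h ≤ L → 1 ≤ (T.filter (fun t => lev (h * t) + 1 = lev h)).card
  up_ge : ∀ h, lev h ≤ L → dp ≤ 97 / 100 * ((T.filter (fun t => lev (h * t) = lev h + 1)).card : ℝ)

theorem LampOK.step' {T : Finset Q} {lev : Q → ℕ} {L : ℕ} {d dp : ℝ} (h : LampOK T lev L d dp) (q : Q) {t : Q}
    (ht : t ∈ T) : lev q ≤ lev (q * t) + 1 := by
  have := h.step (q * t) t⁻¹ (h.inv t ht)
  rwa [mul_inv_cancel_right] at this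

variable {ι : Type} [Fintype ι]

/-- Number of steps up. -/
noncomputable def Uc (T : Finset Q) (lev : Q → ℕ) (c : ι → Q) (x : ι) : ℝ :=
  ((T.filter (fun t => lev (c x * t) = lev (c x) + 1)).card : ℝ)

/-- Number of steps down. -/
noncomputable def Dc (T : Finset Q) (lev : Q → ℕ) (c : ι → Q) (x : ι) : ℝ :=
  ((T.filter (fun t => lev (c x * t) + 1 = lev (c x))).card : ℝ)

/-- The level vector. -/
def nc (lev : Q → ℕ) (c : ι → Q) : ι → ℕ := fun x => lev (c x)

omit [Fintype ι] in
theorem UD_c {T : Finset Q} {lev : Q → ℕ} {P : RP ι Q} (h : LampOK T lev P.L P.d P.dp) (hdp : 0 < P.dp) (c : ι → Q) :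
    P.UD (nc lev c) (Uc T lev c) (Dc T lev c) where
  lvl x := h.top _
  U0 x := Nat.cast_nonneg _
  UD x := by
    rw [← h.card]
    unfold Uc Dc
    have : Disjoint (T.filter (fun t => lev (c x * t) = lev (c x) + 1)) (T.filter (fun t => lev (c x * t) + 1 = lev (c x))) := by
      rw [Finset.disjoint_left]; intro t h1 h2
      have := (Finset.mem_filter.mp h1).2; have := (Finset.mem_filter.mp h2).2; omega
    have h2 := Finset.card_union_of_disjoint this
    have h3 := Finset.card_le_card (Finset.union_subset (Finset.filter_subset (fun t => lev (c x * t) = lev (c x) + 1) T)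
      (Finset.filter_subset (fun t => lev (c x * t) + 1 = lev (c x)) T))
    rw [h2] at h3
    exact_mod_cast h3
  D0 x := Nat.cast_nonneg _
  D1 x := by unfold Dc; exact_mod_cast h.down_le _
  Utop x hx := by
    unfold Uc
    rw [Nat.cast_eq_zero, Finset.card_eq_zero, Finset.filter_eq_empty_iff]
    intro t _ h2
    have := h.top (c x * t)
    unfold nc at hx; omega
  Uge x hx := h.up_ge _ hx
  Dbot x hx := by
    unfold Dc
    rw [Nat.cast_eq_zero, Finset.card_eq_zero, Finset.filter_eq_empty_iff]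
    intro t _ h2
    unfold nc at hx; omega
  Deq x h1 h2 := by
    unfold Dc
    have := h.down_le (c x)
    have := h.down_ge (c x) h1 h2
    have h3 : (T.filter (fun t => lev (c x * t) + 1 = lev (c x))).card = 1 := by omega
    rw [h3]; simp

/-- Weight of a lamp edge at a site. -/
noncomputable def lw (P : RP ι Q) (lev : Q → ℕ) (c : ι → Q) (x : ι) (t e : Q) : ℝ :=
  if lev (c x * t) = lev (c x) then 1
  else P.wt (Function.update (nc lev c) x (max (lev (c x)) (lev (c x * t)))) e (P.gp x) (P.bt x)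

omit [Fintype Q] [Fintype ι] in
theorem nc_update (lev : Q → ℕ) (c : ι → Q) (x : ι) (q : Q) :
    nc lev (Function.update c x q) = Function.update (nc lev c) x (lev q) := by
  ext y
  unfold nc
  by_cases h : y = x
  · subst h; simp
  · simp [h]

omit [Fintype Q] [Fintype ι] in
theorem nc_up {lev : Q → ℕ} {c : ι → Q} {x : ι} {q : Q} (h : lev q = lev (c x) + 1) :
    nc lev (Function.update c x q) = up (nc lev c) x := by
  rw [nc_update, h]; rfl

omit [Fintype Q] [Fintype ι] in
theorem nc_dn {lev : Q → ℕ} {c : ι → Q} {x : ι} {q : Q} (h : lev q + 1 = lev (c x)) :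
    nc lev (Function.update c x q) = dn (nc lev c) x := by
  rw [nc_update]; unfold dn; congr 1; unfold nc; omega

omit [Fintype Q] [Fintype ι] in
theorem nc_same {lev : Q → ℕ} {c : ι → Q} {x : ι} {q : Q} (h : lev q = lev (c x)) :
    nc lev (Function.update c x q) = nc lev c := by
  rw [nc_update, h]; exact Function.update_eq_self x (nc lev c)

omit [Fintype Q] [Fintype ι] in
theorem nc_cases {T : Finset Q} {lev : Q → ℕ} {L : ℕ} {d dp : ℝ} (h1 : ∀ h, ∀ t ∈ T, lev (h * t) ≤ lev h + 1)
    (h2 : ∀ h, ∀ t ∈ T, lev h ≤ lev (h * t) + 1) (c : ι → Q) (x : ι) {t : Q} (ht : t ∈ T) :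
    nc lev (Function.update c x (c x * t)) = nc lev c ∨ Nb (nc lev c) (nc lev (Function.update c x (c x * t))) x := by
  have a1 := h1 (c x) t ht
  have a2 := h2 (c x) t ht
  rcases Nat.lt_trichotomy (lev (c x * t)) (lev (c x)) with hlt | heq | hgt
  · right; rw [nc_dn (by omega)]; exact nb_dn (by unfold nc; omega)
  · left; exact nc_same heq
  · right; rw [nc_up (by omega)]; exact nb_up _ _

/-- The drift of the potential through lamp moves. -/
theorem lamp_drift {T : Finset Q} {lev : Q → ℕ} {P : RP ι Q} (h : LampOK T lev P.L P.d P.dp) (c : ι → Q) (s : ℕ)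
    (x : ι) (e : Q) :
    ∑ t ∈ T, lw P lev c x t e * (P.V (nc lev (Function.update c x (c x * t))) s - P.V (nc lev c) s)
      = P.hs (Uc T lev c) (Dc T lev c) (nc lev c) s x e := by
  unfold RP.hs Uc Dc
  have key : ∀ t ∈ T, lw P lev c x t e * (P.V (nc lev (Function.update c x (c x * t))) s - P.V (nc lev c) s)
      = (if lev (c x * t) = lev (c x) + 1 then (1 : ℝ) else 0) *
          (P.wt (up (nc lev c) x) e (P.gp x) (P.bt x) * (P.V (up (nc lev c) x) s - P.V (nc lev c) s))
        + (if lev (c x * t) + 1 = lev (c x) then (1 : ℝ) else 0) *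
          (P.wt (nc lev c) e (P.gp x) (P.bt x) * (P.V (dn (nc lev c) x) s - P.V (nc lev c) s)) := by
    intro t ht
    have a1 := h.step (c x) t ht
    have a2 := h.step' (c x) ht
    unfold lw
    rcases Nat.lt_trichotomy (lev (c x * t)) (lev (c x)) with hlt | heq | hgt
    · rw [if_neg (by omega), if_neg (by omega), if_pos (by omega), nc_dn (by omega), max_eq_left (by omega)]
      have : Function.update (nc lev c) x (lev (c x)) = nc lev c := Function.update_eq_self x (nc lev c)
      rw [this]; ring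
    · rw [nc_same heq, if_neg (by omega : ¬ lev (c x * t) = lev (c x) + 1),
        if_neg (by omega : ¬ lev (c x * t) + 1 = lev (c x))]; ring
    · rw [if_neg (by omega), if_pos (by omega), if_neg (by omega), nc_up (by omega), max_eq_right (by omega)]
      have : Function.update (nc lev c) x (lev (c x * t)) = up (nc lev c) x := by
        unfold up; congr 1; unfold nc; omega
      rw [this]; ring
  rw [Finset.sum_congr rfl key, Finset.sum_add_distrib, ← Finset.sum_mul, ← Finset.sum_mul, Finset.sum_boole,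
    Finset.sum_boole]
  ring

theorem lw_nonneg {lev : Q → ℕ} {P : RP ι Q} (hK : 1 ≤ P.K) (c : ι → Q) (x : ι) (t e : Q) : 0 ≤ lw P lev c x t e := by
  unfold lw; split_ifs
  · norm_num
  · have := P.wt_ge hK (Function.update (nc lev c) x (max (lev (c x)) (lev (c x * t)))) e (P.gp x) (P.bt x); linarith

theorem lw_le {lev : Q → ℕ} {P : RP ι Q} (hK : 1 ≤ P.K) (c : ι → Q) (x : ι) (t e : Q) : lw P lev c x t e ≤ P.K := by
  unfold lw; split_ifs
  · exact hK
  · exact P.wt_le hK _ _ _ _

/-- The function to be corrected. -/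
noncomputable def uf (P : RP ι Q) (T : Finset Q) (lev : Q → ℕ) (site : ι → Q) (ep lam : ℝ) (s : ℕ) (c : ι → Q) : Q → Q → ℝ :=
  fun y e => ∑ x, if site x = y then (P.hs (Uc T lev c) (Dc T lev c) (nc lev c) s x e + lam * P.w ep (nc lev c) s x) else 0

/-- The majorant on the base. -/
noncomputable def wf (P : RP ι Q) (lev : Q → ℕ) (site : ι → Q) (ep : ℝ) (s : ℕ) (c : ι → Q) : Q → Q → ℝ :=
  fun y _ => ∑ x, if site x = y then P.w ep (nc lev c) s x else 0

/-- The Green operator. -/
noncomputable def Gr (T : Finset Q) (τ : ℕ) : Module.End ℝ (Q → Q → ℝ) := ∑ t ∈ Finset.range τ, (Pb T) ^ t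

/-- The corrected potential. -/
noncomputable def Fc (P : RP ι Q) (T : Finset Q) (lev : Q → ℕ) (site : ι → Q) (ep lam kap : ℝ) (τ s : ℕ) (c : ι → Q) : Q → Q → ℝ :=
  (fun _ _ => P.V (nc lev c) s) + kap • (Gr T τ (uf P T lev site ep lam s c))

theorem Gr_mono (T : Finset Q) (τ : ℕ) : Mono (Gr T τ) := Mono.sum (fun t => (Pb_mono T).pow t) τ

theorem Pb_Gr (T : Finset Q) (τ : ℕ) (u : Q → Q → ℝ) : Pb T (Gr T τ u) - Gr T τ u = (Pb T ^ τ) u - u := by
  have h := mul_geom_sum (Pb T) τ
  have h2 := congrArg (fun (L : Module.End ℝ (Q → Q → ℝ)) => L u) h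
  simp only [Module.End.mul_apply, LinearMap.sub_apply, Module.End.one_apply] at h2
  exact h2

theorem Gr_wf {T : Finset Q} (hT : 0 < T.card) (P : RP ι Q) (lev : Q → ℕ) (site : ι → Q) (ep : ℝ) (τ s : ℕ) (c : ι → Q) (y e : Q) :
    Gr T τ (wf P lev site ep s c) y e = ∑ x, P.w ep (nc lev c) s x * Gn T τ y (site x) := by
  have e1 : wf P lev site ep s c = ∑ x, P.w ep (nc lev c) s x • (fun y (_ : Q) => del (site x) y) := by
    ext y e
    simp only [Finset.sum_apply, Pi.smul_apply, smul_eq_mul]
    unfold wf del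
    apply Finset.sum_congr rfl
    intro x _
    by_cases h : site x = y
    · simp [h]
    · rw [if_neg h, if_neg (fun h' => h h'.symm)]; ring
  rw [e1, map_sum]
  simp only [Finset.sum_apply, map_smul, Pi.smul_apply, smul_eq_mul]
  apply Finset.sum_congr rfl
  intro x _
  congr 1
  unfold Gr Gn
  rw [LinearMap.sum_apply]
  simp only [Finset.sum_apply]
  apply Finset.sum_congr rfl
  intro t _
  rw [Pb_lift hT]

/-- All hypotheses for the corrector. -/
structure CorrOK (P : RP ι Q) (T : Finset Q) (lev : Q → ℕ) (site : ι → Q) (M : ℕ) (R : ℝ) (L' : ℕ) (ep lam K1 kap δ eta : ℝ)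
    (τ : ℕ) : Prop where
  ok : P.OK M R L'
  small : P.Small M R L' ep
  lamp : LampOK T lev P.L P.d P.dp
  sep : Sep T τ δ site
  tau1 : 1 ≤ τ
  del0 : 0 < δ
  del1 : δ < 1
  tauQ : (τ : ℝ) ≤ Fintype.card Q
  del : δ * Fintype.card ι * (3 * P.d) * P.m 0 ≤ ep
  hlam : lam = 1 / (100 * P.d)
  hK1 : K1 = 20000 * P.d
  hkap : kap = 1 / (2 * P.d * (P.K * K1))
  hR8 : 8 ≤ R
  eta : 4 / P.A + M * P.d * (12 / R + 32 / L') + 2 * M * ep + (3 / 4) ^ τ * (Fintype.card Q) ^ 2 * Fintype.card ι * (6 * P.d) ≤ eta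

section main

variable {P : RP ι Q} {T : Finset Q} {lev : Q → ℕ} {site : ι → Q} {M : ℕ} {R : ℝ} {L' : ℕ} {ep lam K1 kap δ eta : ℝ} {τ : ℕ}

theorem CorrOK.lam0 (h : CorrOK P T lev site M R L' ep lam K1 kap δ eta τ) : 0 < lam := by
  rw [h.hlam]; have := h.ok.d0; positivity

theorem CorrOK.lam1 (h : CorrOK P T lev site M R L' ep lam K1 kap δ eta τ) : lam ≤ 1 / 100 := by
  rw [h.hlam]
  have := h.ok.hd
  apply one_div_le_one_div_of_le (by norm_num); linarith

theorem CorrOK.kap0 (h : CorrOK P T lev site M R L' ep lam K1 kap δ eta τ) : 0 < kap := by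
  rw [h.hkap, h.hK1]; have := h.ok.d0; have := h.ok.K0; positivity

theorem CorrOK.kapK (h : CorrOK P T lev site M R L' ep lam K1 kap δ eta τ) : kap * (P.d * P.K) = 1 / (40000 * P.d) := by
  rw [h.hkap, h.hK1]; have := h.ok.d0; have := h.ok.K0; field_simp; ring

theorem uf_abs (h : CorrOK P T lev site M R L' ep lam K1 kap δ eta τ) {s : ℕ} (hs : s < M) (c : ι → Q) (y e : Q) :
    |uf P T lev site ep lam s c y e| ≤ ((1 + lam) • wf P lev site ep s c) y e := by
  unfold uf
  simp only [Pi.smul_apply, smul_eq_mul]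
  unfold wf
  rw [Finset.mul_sum]
  refine (Finset.abs_sum_le_sum_abs _ _).trans (Finset.sum_le_sum (fun x _ => ?_))
  split_ifs with hx
  · have h1 := RP.hs_le h.ok h.small (UD_c h.lamp h.ok.dp0 c) hs x e
    have h2 := RP.w_nonneg h.ok h.small.ep0 (nc lev c) hs x
    have h3 := h.lam0
    refine (abs_add_le _ _).trans ?_
    rw [abs_of_nonneg (mul_nonneg h3.le h2)]
    linarith
  · simp

theorem Gr_uf (h : CorrOK P T lev site M R L' ep lam K1 kap δ eta τ) {s : ℕ} (hs : s < M) (c : ι → Q) (y e : Q) :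
    |Gr T τ (uf P T lev site ep lam s c) y e| ≤ (1 + lam) * ∑ x, P.w ep (nc lev c) s x * Gn T τ y (site x) := by
  have h1 := (Gr_mono T τ).abs_le (fun y e => uf_abs h hs c y e) y e
  rw [map_smul] at h1
  simp only [Pi.smul_apply, smul_eq_mul] at h1
  rw [Gr_wf h.lamp.gap.1] at h1
  exact h1

/-- Green sums seen from a site. -/
theorem green_site (h : CorrOK P T lev site M R L' ep lam K1 kap δ eta τ) {s : ℕ} (hs : s < M) (c : ι → Q) (x0 : ι) :
    ∑ x, P.w ep (nc lev c) s x * Gn T τ (site x0) (site x) ≤ 6 * P.w ep (nc lev c) s x0 := by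
  have hT := h.lamp.gap.1
  have hg := P.g_pos h.ok.hA (n := nc lev c) s
  have hK := h.ok.K0
  have hKg : 0 < P.K * P.g (nc lev c) s := by positivity
  have hd := h.ok.d0
  have hm0 : 0 < P.m 0 := h.ok.m0 (by omega)
  have hw0 := fun x => RP.w_nonneg h.ok h.small.ep0 (nc lev c) hs x
  have h1 : ∀ x, P.w ep (nc lev c) s x * Gn T τ (site x0) (site x)
      ≤ (if x = x0 then 5 * P.w ep (nc lev c) s x0 else 0) + δ * (3 * P.d * (P.K * P.g (nc lev c) s)) := by
    intro x
    have hpos : 0 ≤ δ * (3 * P.d * (P.K * P.g (nc lev c) s)) := by have := h.del0; positivity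
    by_cases hx : x = x0
    · subst hx
      rw [if_pos rfl]
      have h2 := h.lamp.gap.Gn_le τ (site x) (site x)
      have h3 : (τ : ℝ) / Fintype.card Q ≤ 1 := by
        rw [div_le_one (by exact_mod_cast Fintype.card_pos)]; exact h.tauQ
      have h4 : Gn T τ (site x) (site x) ≤ 5 := by linarith
      have := hw0 x
      nlinarith
    · rw [if_neg hx, zero_add]
      have h2 : Gn T τ (site x0) (site x) ≤ δ := by
        by_contra hc
        push Not at hc
        exact hx (h.sep (site x0) x x0 hc (lt_of_lt_of_le h.del1 (Gn_self hT h.tau1 _)))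
      have h3 := RP.w_le h.ok h.small (nc lev c) hs x
      have h4 := Gn_nonneg hT τ (site x0) (site x)
      have h5 := hw0 x
      calc P.w ep (nc lev c) s x * Gn T τ (site x0) (site x) ≤ (3 * P.d * (P.K * P.g (nc lev c) s)) * δ := by
            apply mul_le_mul h3 h2 h4; positivity
        _ = _ := by ring
  refine (Finset.sum_le_sum (fun x _ => h1 x)).trans ?_
  rw [Finset.sum_add_distrib, Finset.sum_ite_eq', if_pos (Finset.mem_univ _), Finset.sum_const, Finset.card_univ, nsmul_eq_mul]
  have h5 := RP.w_ge h.ok h.small (nc lev c) hs x0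
  have h6 := h.del
  have h7 : (Fintype.card ι : ℝ) * (δ * (3 * P.d * (P.K * P.g (nc lev c) s))) ≤ (ep / P.m 0) * (P.K * P.g (nc lev c) s) := by
    rw [div_mul_eq_mul_div, le_div_iff₀ hm0]
    calc (Fintype.card ι : ℝ) * (δ * (3 * P.d * (P.K * P.g (nc lev c) s))) * P.m 0
        = (δ * Fintype.card ι * (3 * P.d) * P.m 0) * (P.K * P.g (nc lev c) s) := by ring
      _ ≤ _ := mul_le_mul_of_nonneg_right h6 hKg.le
  linarith

/-- Green sums seen from anywhere. -/
theorem green_any (h : CorrOK P T lev site M R L' ep lam K1 kap δ eta τ) {s : ℕ} (hs : s < M) (c : ι → Q) (y : Q) :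
    ∑ x, P.w ep (nc lev c) s x * Gn T τ y (site x) ≤ 16 * P.d * (P.K * P.g (nc lev c) s) := by
  have hT := h.lamp.gap.1
  have hg := P.g_pos h.ok.hA (n := nc lev c) s
  have hK := h.ok.K0
  have hKg : 0 < P.K * P.g (nc lev c) s := by positivity
  have hd := h.ok.d0
  have hd1 := h.ok.hd
  have hm0 : 1 ≤ P.m 0 := h.ok.mpos 0 (by omega)
  have hw0 := fun x => RP.w_nonneg h.ok h.small.ep0 (nc lev c) hs x
  have h6 := h.del
  have h7 : (Fintype.card ι : ℝ) * (δ * (3 * P.d * (P.K * P.g (nc lev c) s))) ≤ ep * (P.K * P.g (nc lev c) s) := by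
    have h8 : δ * Fintype.card ι * (3 * P.d) ≤ ep := by
      have : 0 ≤ δ * Fintype.card ι * (3 * P.d) := by have := h.del0; positivity
      nlinarith
    have := mul_le_mul_of_nonneg_right h8 hKg.le
    linarith
  have hep1 := h.small.ep1
  have h9 : ep * (P.K * P.g (nc lev c) s) ≤ P.d * (P.K * P.g (nc lev c) s) := by
    apply mul_le_mul_of_nonneg_right _ hKg.le; linarith
  have small : ∀ x, ¬ δ < Gn T τ y (site x) → P.w ep (nc lev c) s x * Gn T τ y (site x)
      ≤ δ * (3 * P.d * (P.K * P.g (nc lev c) s)) := by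
    intro x hc
    push Not at hc
    have h3 := RP.w_le h.ok h.small (nc lev c) hs x
    have h4 := Gn_nonneg hT τ y (site x)
    calc P.w ep (nc lev c) s x * Gn T τ y (site x) ≤ (3 * P.d * (P.K * P.g (nc lev c) s)) * δ := by
          apply mul_le_mul h3 hc h4; positivity
      _ = _ := by ring
  by_cases hex : ∃ x0, δ < Gn T τ y (site x0)
  · obtain ⟨x0, hx0⟩ := hex
    have h1 : ∀ x, P.w ep (nc lev c) s x * Gn T τ y (site x)
        ≤ (if x = x0 then 15 * P.d * (P.K * P.g (nc lev c) s) else 0) + δ * (3 * P.d * (P.K * P.g (nc lev c) s)) := by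
      intro x
      have hpos : 0 ≤ δ * (3 * P.d * (P.K * P.g (nc lev c) s)) := by have := h.del0; positivity
      by_cases hx : x = x0
      · subst hx
        rw [if_pos rfl]
        have h2 := h.lamp.gap.Gn_le τ y (site x)
        have h3 : (τ : ℝ) / Fintype.card Q ≤ 1 := by
          rw [div_le_one (by exact_mod_cast Fintype.card_pos)]; exact h.tauQ
        have h4 : Gn T τ y (site x) ≤ 5 := by linarith
        have h5 := RP.w_le h.ok h.small (nc lev c) hs x
        have h6 := Gn_nonneg hT τ y (site x)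
        have : P.w ep (nc lev c) s x * Gn T τ y (site x) ≤ (3 * P.d * (P.K * P.g (nc lev c) s)) * 5 := by
          apply mul_le_mul h5 h4 h6; positivity
        linarith
      · rw [if_neg hx, zero_add]
        exact small x (fun hc => hx (h.sep y x x0 hc hx0))
    refine (Finset.sum_le_sum (fun x _ => h1 x)).trans ?_
    rw [Finset.sum_add_distrib, Finset.sum_ite_eq', if_pos (Finset.mem_univ _), Finset.sum_const, Finset.card_univ, nsmul_eq_mul]
    linarith
  · push Not at hex
    refine (Finset.sum_le_sum (fun x _ => small x (not_lt.mpr (hex x)))).trans ?_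
    rw [Finset.sum_const, Finset.card_univ, nsmul_eq_mul]
    have : 0 ≤ P.d * (P.K * P.g (nc lev c) s) := by positivity
    linarith

/-- Size of the corrected potential. -/
theorem Fc_bounds (h : CorrOK P T lev site M R L' ep lam K1 kap δ eta τ) {s : ℕ} (hs : s < M) (c : ι → Q) (y e : Q) :
    P.g (nc lev c) s / 2 ≤ Fc P T lev site ep lam kap τ s c y e ∧
      Fc P T lev site ep lam kap τ s c y e ≤ 2 * P.g (nc lev c) s := by
  have h1 := Gr_uf h hs c y e
  have h2 := green_any h hs c y
  have h3 := h.lam0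
  have h4 := h.lam1
  have h5 := h.kap0
  have h6 := h.kapK
  have hd := h.ok.d0
  have hd1 := h.ok.hd
  have hg := P.g_pos h.ok.hA (n := nc lev c) s
  have h7 : |kap * Gr T τ (uf P T lev site ep lam s c) y e| ≤ P.g (nc lev c) s / 4 := by
    rw [abs_mul, abs_of_pos h5]
    calc kap * |Gr T τ (uf P T lev site ep lam s c) y e|
        ≤ kap * ((1 + lam) * (16 * P.d * (P.K * P.g (nc lev c) s))) := by
          apply mul_le_mul_of_nonneg_left _ h5.le
          refine h1.trans ?_
          apply mul_le_mul_of_nonneg_left h2; linarith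
      _ = (kap * (P.d * P.K)) * ((1 + lam) * 16 * P.g (nc lev c) s) := by ring
      _ = (1 / (40000 * P.d)) * ((1 + lam) * 16 * P.g (nc lev c) s) := by rw [h6]
      _ ≤ (1 / 1000) * (2 * 16 * P.g (nc lev c) s) := by
          apply mul_le_mul
          · apply one_div_le_one_div_of_le (by norm_num); linarith
          · gcongr; linarith
          · positivity
          · norm_num
      _ ≤ _ := by linarith
  have h8 := RP.V_ge h.ok (nc lev c) hs
  have h9 := RP.V_le h.ok (nc lev c) hs
  have h10 : 2 / R ≤ 1 / 4 := by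
    have := h.hR8
    rw [div_le_div_iff₀ (by linarith) (by norm_num)]; linarith
  have h11 : P.g (nc lev c) s * (1 + 2 / R) ≤ P.g (nc lev c) s * (5 / 4) := by
    apply mul_le_mul_of_nonneg_left _ hg.le; linarith
  have e1 : Fc P T lev site ep lam kap τ s c y e = P.V (nc lev c) s + kap * Gr T τ (uf P T lev site ep lam s c) y e := rfl
  rw [e1]
  have := _root_.abs_le.mp h7
  constructor <;> linarith [this.1, this.2]

/-- Averaged value of the function to be corrected. -/
theorem uf_sum (h : CorrOK P T lev site M R L' ep lam K1 kap δ eta τ) {s : ℕ} (c : ι → Q) :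
    ∑ y, ∑ e, uf P T lev site ep lam s c y e
      = Fintype.card Q * (∑ x, P.H (Uc T lev c) (Dc T lev c) (nc lev c) s x + lam * ∑ x, P.w ep (nc lev c) s x) := by
  have hn : (Fintype.card Q : ℝ) ≠ 0 := by exact_mod_cast Fintype.card_ne_zero
  unfold uf
  have e1 : ∑ y : Q, ∑ e : Q, ∑ x, (if site x = y then (P.hs (Uc T lev c) (Dc T lev c) (nc lev c) s x e + lam * P.w ep (nc lev c) s x) else 0)
      = ∑ x, ∑ e : Q, (P.hs (Uc T lev c) (Dc T lev c) (nc lev c) s x e + lam * P.w ep (nc lev c) s x) := by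
    rw [Finset.sum_comm]
    rw [Finset.sum_comm (s := (Finset.univ : Finset ι))]
    apply Finset.sum_congr rfl; intro e _
    rw [Finset.sum_comm]
    apply Finset.sum_congr rfl; intro x _
    rw [Finset.sum_ite_eq, if_pos (Finset.mem_univ _)]
  rw [e1, mul_add, Finset.mul_sum, Finset.mul_sum, Finset.mul_sum, ← Finset.sum_add_distrib]
  apply Finset.sum_congr rfl; intro x _
  rw [Finset.sum_add_distrib, ← RP.hs_avg, Finset.sum_const, Finset.card_univ, nsmul_eq_mul]
  field_simp

omit [Fintype ι] [Group Q] [Fintype Q] in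
theorem bracket {G r0 rp ms d A lam : ℝ} (hG0 : 0 ≤ G) (hr0 : 0 ≤ r0) (hrp : 0 ≤ rp)
    (h7 : r0 ≤ ms * (2 / A)) (hrho : r0 + rp ≤ 2 * ms) (hd : 10000 ≤ d) (hms : 0 < ms) (hlamd : lam * (4 * d) = 1 / 25) :
    (1 - G) * (r0 - rp / 4) + G * d * (r0 + rp) + lam * (4 * d * (r0 + rp)) ≤ ms * (4 / A + 4 * d * G) := by
  have hd0 : 0 < d := by linarith
  have e2 : lam * (4 * d * (r0 + rp)) = (1 / 25) * (r0 + rp) := by rw [← hlamd]; ring
  rw [e2]
  have h8 : G * d * (r0 + rp) ≤ G * d * (2 * ms) := mul_le_mul_of_nonneg_left hrho (by positivity)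
  have h9 : (1 - G) * (r0 - rp / 4) ≤ r0 - rp / 4 + G * (rp / 4) := by
    have : 0 ≤ G * r0 := mul_nonneg hG0 hr0
    linarith
  have h10 : G * (rp / 4) ≤ G * d * ms := by
    have h11 : rp / 4 ≤ d * ms := by
      have h12 : rp ≤ 2 * ms := by linarith
      have h13 : ms ≤ d * ms := by nlinarith
      linarith
    calc G * (rp / 4) ≤ G * (d * ms) := mul_le_mul_of_nonneg_left h11 hG0
      _ = _ := by ring
  have h12 : ms * (4 / A) = 2 * (ms * (2 / A)) := by ring
  have h13 : 0 ≤ G * d * ms := by positivity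
  have e3 : ms * (4 / A + 4 * d * G) = 2 * (ms * (2 / A)) + 4 * (G * d * ms) := by ring
  rw [e3]
  linarith

omit [Fintype ι] [Group Q] [Fintype Q] in
theorem h4lem {Kg G r0 rp rho ms d A lam X H W ep M : ℝ} (hKg : 0 < Kg) (hms : 0 < ms) (hrs : rho = r0 + rp)
    (hlam : 0 < lam) (hlam1 : lam ≤ 1 / 100) (hep : 0 < ep) (hM : 0 ≤ M)
    (h2 : H ≤ Kg * ((1 - G) * (r0 - rp / 4) + G * d * rho + M * d * ms * X))
    (h3 : W ≤ Kg * (2 * M * ep * ms + 4 * d * rho))
    (h6 : (1 - G) * (r0 - rp / 4) + G * d * (r0 + rp) + lam * (4 * d * (r0 + rp)) ≤ ms * (4 / A + 4 * d * G)) :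
    H + lam * W ≤ Kg * (ms * (4 / A + 4 * d * G + M * d * X + 2 * M * ep)) := by
  have h5 := mul_le_mul_of_nonneg_left h3 hlam.le
  have h14 : lam * (2 * M * ep) ≤ 2 * M * ep := by
    have : 0 ≤ 2 * M * ep := by positivity
    nlinarith
  subst hrs
  have h15 := mul_le_mul_of_nonneg_left h6 hKg.le
  have h16 := mul_le_mul_of_nonneg_left (mul_le_mul_of_nonneg_left h14 hms.le) hKg.le
  linarith

/-- The main drift bound. -/
theorem Pb_uf (h : CorrOK P T lev site M R L' ep lam K1 kap δ eta τ) {s : ℕ} (hs : s < M) (c : ι → Q) (y e : Q) :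
    (Pb T ^ τ) (uf P T lev site ep lam s c) y e
      ≤ P.K * P.g (nc lev c) s / Fintype.card Q * (P.m s * (4 * P.d * P.Gf (nc lev c) s + eta)) := by
  have hn : (0 : ℝ) < Fintype.card Q := by exact_mod_cast Fintype.card_pos
  set n : ℝ := (Fintype.card Q : ℝ) with hn'
  set g := P.g (nc lev c) s with hgdef
  have hg : 0 < g := P.g_pos h.ok.hA s
  have hK := h.ok.K0
  have hd := h.ok.d0
  have hd1 := h.ok.hd
  have hlam := h.lam0
  have hlam1 := h.lam1
  have hms := h.ok.m0 hs
  have hms1 := h.ok.mpos s hs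
  have hep := h.small.ep0
  -- sup bound
  have hB : ∀ y e, |uf P T lev site ep lam s c y e| ≤ Fintype.card ι * (6 * P.d * (P.K * g)) := by
    intro y e
    refine (uf_abs h hs c y e).trans ?_
    simp only [Pi.smul_apply, smul_eq_mul]
    unfold wf
    have h1 : ∑ x, (if site x = y then P.w ep (nc lev c) s x else 0) ≤ ∑ _x : ι, 3 * P.d * (P.K * g) := by
      apply Finset.sum_le_sum; intro x _
      split_ifs
      · exact RP.w_le h.ok h.small (nc lev c) hs x
      · positivity
    rw [Finset.sum_const, Finset.card_univ, nsmul_eq_mul] at h1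
    have h2 : 0 ≤ ∑ x, (if site x = y then P.w ep (nc lev c) s x else 0) := by
      apply Finset.sum_nonneg; intro x _
      split_ifs
      · exact RP.w_nonneg h.ok hep (nc lev c) hs x
      · exact le_rfl
    calc (1 + lam) * ∑ x, (if site x = y then P.w ep (nc lev c) s x else 0)
        ≤ 2 * (Fintype.card ι * (3 * P.d * (P.K * g))) := by
          apply mul_le_mul _ h1 h2 (by norm_num); linarith
      _ = _ := by ring
  have hB0 : 0 ≤ Fintype.card ι * (6 * P.d * (P.K * g)) := by positivity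
  have h1 := (_root_.abs_le.mp (h.lamp.gap.Pb_mix (uf P T lev site ep lam s c) hB0 hB τ y e)).2
  rw [uf_sum h c] at h1
  -- averaged inequality
  have h2 := RP.drift h.ok (UD_c h.lamp h.ok.dp0 c) hs
  have h3 := RP.w_sum h.ok hep (nc lev c) hs
  have hr0 := RP.rho0_nonneg h.ok (nc lev c) s
  have hrp := RP.rhop_nonneg h.ok (nc lev c) s
  have hrs := P.rho_split (nc lev c) s
  have hr0' := RP.rho0_le h.ok (nc lev c) hs
  have hrho := RP.rho_le h.ok (nc lev c) hs
  have hG0 := P.Gf_nonneg (nc lev c) s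
  have hG1 : P.Gf (nc lev c) s ≤ 1 := by
    have := P.sum_nu (nc lev c) s
    have h5 : 0 ≤ ∑ i ∈ Finset.range s, P.nu (nc lev c) s i := Finset.sum_nonneg (fun i _ => P.nu_nonneg _ s i)
    linarith
  set G := P.Gf (nc lev c) s with hGdef
  set r0 := P.rho0 (nc lev c) s with hr0def
  set rp := P.rhop (nc lev c) s with hrpdef
  have hKg : 0 < P.K * g := by positivity
  have hlamd : lam * (4 * P.d) = 1 / 25 := by rw [h.hlam]; field_simp; norm_num
  have h7 : r0 ≤ P.m s * (2 / P.A) := by
    have : P.m s * (2 / P.A) = 2 * P.m s / P.A := by ring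
    rw [this]; exact hr0'
  have h4 : ∑ x, P.H (Uc T lev c) (Dc T lev c) (nc lev c) s x + lam * ∑ x, P.w ep (nc lev c) s x
      ≤ P.K * g * (P.m s * (4 / P.A + 4 * P.d * G + M * P.d * (12 / R + 32 / L') + 2 * M * ep)) :=
    h4lem hKg hms hrs hlam hlam1 hep (Nat.cast_nonneg M) h2 h3
      (bracket hG0 hr0 hrp h7 (by rw [← hrs]; exact hrho) hd1 hms hlamd)
  have h15 := h.eta
  have h16 : n * (∑ x, P.H (Uc T lev c) (Dc T lev c) (nc lev c) s x + lam * ∑ x, P.w ep (nc lev c) s x) / n ^ 2
      = (∑ x, P.H (Uc T lev c) (Dc T lev c) (nc lev c) s x + lam * ∑ x, P.w ep (nc lev c) s x) / n := by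
    field_simp
  rw [← hn'] at h1
  rw [h16] at h1
  have h17 : (3 / 4) ^ τ * (n * (Fintype.card ι * (6 * P.d * (P.K * g))))
      ≤ P.K * g / n * (P.m s * ((3 / 4) ^ τ * n ^ 2 * Fintype.card ι * (6 * P.d))) := by
    have e4 : P.K * g / n * (P.m s * ((3 / 4) ^ τ * n ^ 2 * Fintype.card ι * (6 * P.d)))
        = P.m s * ((3 / 4) ^ τ * (n * (Fintype.card ι * (6 * P.d * (P.K * g))))) := by field_simp
    rw [e4]
    have : 0 ≤ (3 / 4 : ℝ) ^ τ * (n * (Fintype.card ι * (6 * P.d * (P.K * g)))) := by positivity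
    nlinarith
  calc (Pb T ^ τ) (uf P T lev site ep lam s c) y e
      ≤ (∑ x, P.H (Uc T lev c) (Dc T lev c) (nc lev c) s x + lam * ∑ x, P.w ep (nc lev c) s x) / n
        + (3 / 4) ^ τ * (n * (Fintype.card ι * (6 * P.d * (P.K * g)))) := by linarith
    _ ≤ (P.K * g * (P.m s * (4 / P.A + 4 * P.d * G + M * P.d * (12 / R + 32 / L') + 2 * M * ep))) / n
        + P.K * g / n * (P.m s * ((3 / 4) ^ τ * n ^ 2 * Fintype.card ι * (6 * P.d))) := by
        gcongr
    _ = P.K * g / n * (P.m s * (4 * P.d * G + (4 / P.A + M * P.d * (12 / R + 32 / L') + 2 * M * ep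
          + (3 / 4) ^ τ * n ^ 2 * Fintype.card ι * (6 * P.d)))) := by ring
    _ ≤ _ := by gcongr

/-- At a site. -/
theorem LF_site (h : CorrOK P T lev site M R L' ep lam K1 kap δ eta τ) {s : ℕ} (hs : s < M) (hinj : Function.Injective site)
    (c : ι → Q) (x : ι) (e : Q) :
    Pb T (Fc P T lev site ep lam kap τ s c) (site x) e - Fc P T lev site ep lam kap τ s c (site x) e
      + kap * ∑ t ∈ T, lw P lev c x t e * (Fc P T lev site ep lam kap τ s (Function.update c x (c x * t)) (site x) e
        - Fc P T lev site ep lam kap τ s c (site x) e)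
      ≤ kap * (Pb T ^ τ) (uf P T lev site ep lam s c) (site x) e := by
  have hT := h.lamp.gap.1
  have hkap := h.kap0
  have hlam := h.lam0
  have hlam1 := h.lam1
  have hd := h.ok.d0
  have hd1 := h.ok.hd
  have hK := h.ok.K0
  set u := uf P T lev site ep lam s c with hu
  have e1 : Pb T (Fc P T lev site ep lam kap τ s c) (site x) e - Fc P T lev site ep lam kap τ s c (site x) e
      = kap * ((Pb T ^ τ) u (site x) e - u (site x) e) := by
    unfold Fc
    rw [map_add, map_smul]
    have h1 : Pb T (fun _ _ => P.V (nc lev c) s) = fun _ _ => P.V (nc lev c) s := by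
      have := Pb_const hT (P.V (nc lev c) s) 1; rwa [pow_one] at this
    rw [h1]
    have h2 := congrFun (congrFun (Pb_Gr T τ u) (site x)) e
    simp only [Pi.sub_apply] at h2
    simp only [Pi.add_apply, Pi.smul_apply, smul_eq_mul]
    rw [← h2]; ring
  have e2 : u (site x) e = P.hs (Uc T lev c) (Dc T lev c) (nc lev c) s x e + lam * P.w ep (nc lev c) s x := by
    rw [hu]; unfold uf
    rw [Finset.sum_eq_single_of_mem x (Finset.mem_univ x)]
    · rw [if_pos rfl]
    · intro y _ hy; rw [if_neg (fun h => hy (hinj h))]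
  have e3 : ∑ t ∈ T, lw P lev c x t e * (Fc P T lev site ep lam kap τ s (Function.update c x (c x * t)) (site x) e
        - Fc P T lev site ep lam kap τ s c (site x) e)
      = P.hs (Uc T lev c) (Dc T lev c) (nc lev c) s x e
        + kap * ∑ t ∈ T, lw P lev c x t e * (Gr T τ (uf P T lev site ep lam s (Function.update c x (c x * t))) (site x) e
          - Gr T τ u (site x) e) := by
    rw [← lamp_drift h.lamp c s x e, Finset.mul_sum, ← Finset.sum_add_distrib]
    apply Finset.sum_congr rfl; intro t _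
    unfold Fc
    simp only [Pi.add_apply, Pi.smul_apply, smul_eq_mul]
    ring
  have hw := RP.w_nonneg h.ok h.small.ep0 (nc lev c) hs x
  have h4 : ∑ t ∈ T, lw P lev c x t e * (Gr T τ (uf P T lev site ep lam s (Function.update c x (c x * t))) (site x) e
          - Gr T τ u (site x) e) ≤ P.d * P.K * (2 * 54 * P.w ep (nc lev c) s x) := by
    have h5 : ∀ t ∈ T, lw P lev c x t e * (Gr T τ (uf P T lev site ep lam s (Function.update c x (c x * t))) (site x) e
          - Gr T τ u (site x) e) ≤ P.K * (2 * 54 * P.w ep (nc lev c) s x) := by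
      intro t ht
      have a1 := Gr_uf h hs (Function.update c x (c x * t)) (site x) e
      have a2 := Gr_uf h hs c (site x) e
      have a3 := green_site h hs (Function.update c x (c x * t)) x
      have a4 := green_site h hs c x
      have a5 : P.w ep (nc lev (Function.update c x (c x * t))) s x ≤ 8 * P.w ep (nc lev c) s x := by
        rcases nc_cases (L := P.L) (d := P.d) (dp := P.dp) (fun h' t' ht' => h.lamp.step h' t' ht')
          (fun h' t' ht' => h.lamp.step' h' ht') c x ht with h6 | h6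
        · rw [h6]; linarith
        · exact RP.w_nb h.ok h.small h6 (h.lamp.top _) hs x
      have a6 : Gr T τ (uf P T lev site ep lam s (Function.update c x (c x * t))) (site x) e - Gr T τ u (site x) e
          ≤ 2 * 54 * P.w ep (nc lev c) s x := by
        have b1 := (_root_.abs_le.mp a1).2
        have b2 := (_root_.abs_le.mp a2).1
        have b3 : (1 + lam) * ∑ x', P.w ep (nc lev (Function.update c x (c x * t))) s x' * Gn T τ (site x) (site x')
            ≤ 2 * (48 * P.w ep (nc lev c) s x) := by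
          apply mul_le_mul (by linarith) (by linarith) _ (by norm_num)
          exact Finset.sum_nonneg (fun x' _ => mul_nonneg (RP.w_nonneg h.ok h.small.ep0 _ hs x') (Gn_nonneg hT _ _ _))
        have b4 : (1 + lam) * ∑ x', P.w ep (nc lev c) s x' * Gn T τ (site x) (site x')
            ≤ 2 * (6 * P.w ep (nc lev c) s x) := by
          apply mul_le_mul (by linarith) (by linarith) _ (by norm_num)
          exact Finset.sum_nonneg (fun x' _ => mul_nonneg (RP.w_nonneg h.ok h.small.ep0 _ hs x') (Gn_nonneg hT _ _ _))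
        linarith
      have a7 := lw_nonneg (lev := lev) h.ok.K1 c x t e
      have a8 := lw_le (lev := lev) h.ok.K1 c x t e
      calc _ ≤ lw P lev c x t e * (2 * 54 * P.w ep (nc lev c) s x) := mul_le_mul_of_nonneg_left a6 a7
        _ ≤ _ := mul_le_mul_of_nonneg_right a8 (by positivity)
    refine (Finset.sum_le_sum h5).trans ?_
    rw [Finset.sum_const, nsmul_eq_mul, h.lamp.card]; linarith
  rw [e1, e2, e3]
  have h6 := h.kapK
  have h7 : kap * (P.d * P.K * (2 * 54 * P.w ep (nc lev c) s x)) ≤ lam * P.w ep (nc lev c) s x := by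
    have : kap * (P.d * P.K * (2 * 54 * P.w ep (nc lev c) s x)) = (kap * (P.d * P.K)) * 108 * P.w ep (nc lev c) s x := by ring
    rw [this, h6, h.hlam]
    apply mul_le_mul_of_nonneg_right _ hw
    rw [div_mul_eq_mul_div, div_le_div_iff₀ (by positivity) (by positivity)]
    nlinarith
  have h8 := mul_le_mul_of_nonneg_left (mul_le_mul_of_nonneg_left h4 hkap.le) hkap.le
  have h9 := mul_le_mul_of_nonneg_left h7 hkap.le
  have e4 : kap * ((Pb T ^ τ) u (site x) e - (P.hs (Uc T lev c) (Dc T lev c) (nc lev c) s x e + lam * P.w ep (nc lev c) s x))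
      + kap * (P.hs (Uc T lev c) (Dc T lev c) (nc lev c) s x e
        + kap * ∑ t ∈ T, lw P lev c x t e * (Gr T τ (uf P T lev site ep lam s (Function.update c x (c x * t))) (site x) e
          - Gr T τ u (site x) e))
      = kap * (Pb T ^ τ) u (site x) e - kap * (lam * P.w ep (nc lev c) s x)
        + kap * (kap * ∑ t ∈ T, lw P lev c x t e * (Gr T τ (uf P T lev site ep lam s (Function.update c x (c x * t))) (site x) e
          - Gr T τ u (site x) e)) := by ring
  rw [e4]
  linarith

/-- Away from the sites. -/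
theorem LF_off (h : CorrOK P T lev site M R L' ep lam K1 kap δ eta τ) {s : ℕ}
    (c : ι → Q) (y e : Q) (hy : ∀ x, site x ≠ y) :
    Pb T (Fc P T lev site ep lam kap τ s c) y e - Fc P T lev site ep lam kap τ s c y e
      = kap * (Pb T ^ τ) (uf P T lev site ep lam s c) y e := by
  have hT := h.lamp.gap.1
  set u := uf P T lev site ep lam s c with hu
  have e2 : u y e = 0 := by
    rw [hu]; unfold uf
    apply Finset.sum_eq_zero; intro x _; rw [if_neg (hy x)]
  have e1 : Pb T (Fc P T lev site ep lam kap τ s c) y e - Fc P T lev site ep lam kap τ s c y e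
      = kap * ((Pb T ^ τ) u y e - u y e) := by
    unfold Fc
    rw [map_add, map_smul]
    have h1 : Pb T (fun _ _ => P.V (nc lev c) s) = fun _ _ => P.V (nc lev c) s := by
      have := Pb_const hT (P.V (nc lev c) s) 1; rwa [pow_one] at this
    rw [h1]
    have h2 := congrFun (congrFun (Pb_Gr T τ u) y) e
    simp only [Pi.sub_apply] at h2
    simp only [Pi.add_apply, Pi.smul_apply, smul_eq_mul]
    rw [← h2]; ring
  rw [e1, e2, sub_zero]

end main

end Pool.Agent.H984
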