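import Pool.Agent.H984.Blow

/-!
H984: the lazy walk on a finite connected graph converges, so the uniform mixing time is attained.
-/

set_option autoImplicit false

open Classical

namespace Pool.Agent.H984

variable {V : Type} [Fintype V]

theorem lazyWalk_self_pos (G : SimpleGraph V) (x : V) : 0 < lazyWalk G x x := by
  unfold lazyWalk
  rw [Matrix.of_apply, if_pos rfl]
  have : 0 ≤ (if G.Adj x x then 1 / (2 * (G.degree x : ℝ)) else 0) := by split_ifs <;> positivity
  linarith

theorem lazyWalk_adj_pos (G : SimpleGraph V) {x y : V} (h : G.Adj x y) : 0 < lazyWalk G x y := by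
  unfold lazyWalk
  rw [Matrix.of_apply, if_pos h]
  have h1 : 0 < G.degree x := (G.degree_pos_iff_exists_adj x).mpr ⟨y, h⟩
  have h2 : (0 : ℝ) < G.degree x := by exact_mod_cast h1
  have : (0 : ℝ) ≤ (if x = y then 1 / 2 else 0) := by split_ifs <;> norm_num
  have h3 : 0 < 1 / (2 * (G.degree x : ℝ)) := by positivity
  linarith

theorem pow_succ_pos (G : SimpleGraph V) {x z y : V} {n : ℕ} (h : 0 < lazyWalk G x z) (h2 : 0 < (lazyWalk G ^ n) z y) :
    0 < (lazyWalk G ^ (n + 1)) x y := by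
  rw [pow_succ', Matrix.mul_apply]
  have h3 := Finset.single_le_sum (f := fun z => lazyWalk G x z * (lazyWalk G ^ n) z y)
    (fun z _ => mul_nonneg (lazyWalk_nonneg G x z) (lazyWalk_pow_nonneg G n z y)) (Finset.mem_univ z)
  exact lt_of_lt_of_le (mul_pos h h2) h3

theorem walk_pos (G : SimpleGraph V) {x y : V} (w : G.Walk x y) : 0 < (lazyWalk G ^ w.length) x y := by
  induction w with
  | nil => simp
  | cons h w ih => rw [SimpleGraph.Walk.length_cons]; exact pow_succ_pos G (lazyWalk_adj_pos G h) ih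

theorem pow_pos_of_le (G : SimpleGraph V) {x y : V} {n m : ℕ} (hnm : n ≤ m) (h : 0 < (lazyWalk G ^ n) x y) :
    0 < (lazyWalk G ^ m) x y := by
  induction m, hnm using Nat.le_induction with
  | base => exact h
  | succ m _ ih => exact pow_succ_pos G (lazyWalk_self_pos G x) ih

theorem exists_all_pos (G : SimpleGraph V) (hG : G.Connected) : ∃ N, ∀ x y, 0 < (lazyWalk G ^ N) x y := by
  refine ⟨∑ x, ∑ y, G.dist x y, fun x y => ?_⟩
  obtain ⟨w, hw⟩ := hG.exists_walk_length_eq_dist x y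
  refine pow_pos_of_le G ?_ (walk_pos G w)
  rw [hw]
  exact (Finset.single_le_sum (f := fun y => G.dist x y) (fun y _ => Nat.zero_le _) (Finset.mem_univ y)).trans
    (Finset.single_le_sum (f := fun x => ∑ y, G.dist x y) (fun x _ => Nat.zero_le _) (Finset.mem_univ x))

theorem wpow_add (G : SimpleGraph V) (s t : ℕ) (F : V → ℝ) (x : V) : wpow G (s + t) F x = wpow G s (wpow G t F) x := by
  unfold wpow
  rw [pow_add, ← Matrix.mulVec_mulVec]

theorem stat_step (G : SimpleGraph V) (hd : ∀ x, 0 < G.degree x) (F : V → ℝ) :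
    ∑ x, (G.degree x : ℝ) * (lazyWalk G).mulVec F x = ∑ x, (G.degree x : ℝ) * F x := by
  have h1 : ∀ x, (G.degree x : ℝ) * (lazyWalk G).mulVec F x
      = (G.degree x : ℝ) * F x / 2 + (∑ y, if G.Adj x y then F y else 0) / 2 := by
    intro x
    rw [lazyWalk_mulVec]
    have : (G.degree x : ℝ) ≠ 0 := by exact_mod_cast (hd x).ne'
    field_simp
  rw [Finset.sum_congr rfl (fun x _ => h1 x), Finset.sum_add_distrib, ← Finset.sum_div, ← Finset.sum_div, Finset.sum_comm]
  have h2 : ∀ y, (∑ x, if G.Adj x y then F y else 0) = (G.degree y : ℝ) * F y := by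
    intro y
    rw [← deg_sum, Finset.sum_mul]
    apply Finset.sum_congr rfl; intro x _
    by_cases h : G.Adj x y
    · rw [if_pos h, if_pos h.symm, one_mul]
    · rw [if_neg h, if_neg (fun h' => h h'.symm), zero_mul]
  rw [Finset.sum_congr rfl (fun y _ => h2 y)]
  ring

theorem stat_pow (G : SimpleGraph V) (hd : ∀ x, 0 < G.degree x) (t : ℕ) (F : V → ℝ) :
    ∑ x, (G.degree x : ℝ) * wpow G t F x = ∑ x, (G.degree x : ℝ) * F x := by
  induction t generalizing F with
  | zero => simp only [wpow_zero]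
  | succ t ih =>
    simp only [wpow_succ]
    rw [ih, stat_step G hd]

/-- Contraction of the oscillation. -/
theorem osc_step (G : SimpleGraph V) (hd : ∀ x, 0 < G.degree x) {N : ℕ} {δ : ℝ} (z0 : V) (hδ : ∀ x, δ ≤ (lazyWalk G ^ N) x z0)
    {F : V → ℝ} {a b : ℝ} (hF : ∀ x, a ≤ F x ∧ F x ≤ b) (x : V) :
    δ * F z0 + (1 - δ) * a ≤ wpow G N F x ∧ wpow G N F x ≤ δ * F z0 + (1 - δ) * b := by
  have h1 : wpow G N F x = δ * F z0 + ∑ z, ((lazyWalk G ^ N) x z - if z = z0 then δ else 0) * F z := by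
    rw [wpow_eq]
    simp only [sub_mul, ite_mul, zero_mul, Finset.sum_sub_distrib, Finset.sum_ite_eq', Finset.mem_univ, if_true]
    ring
  have h2 : ∑ z, ((lazyWalk G ^ N) x z - if z = z0 then δ else 0) = 1 - δ := by
    rw [Finset.sum_sub_distrib]
    have := wpow_one G hd N x
    rw [wpow_eq] at this
    simp only [mul_one] at this
    rw [this]; simp
  have h3 : ∀ z, 0 ≤ (lazyWalk G ^ N) x z - if z = z0 then δ else 0 := by
    intro z
    by_cases hz : z = z0
    · subst hz; rw [if_pos rfl]; have := hδ x; linarith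
    · rw [if_neg hz]; have := lazyWalk_pow_nonneg G N x z; linarith
  rw [h1, ← h2, Finset.sum_mul, Finset.sum_mul]
  constructor
  · have := Finset.sum_le_sum (fun z (_ : z ∈ Finset.univ) => mul_le_mul_of_nonneg_left (hF z).1 (h3 z))
    linarith
  · have := Finset.sum_le_sum (fun z (_ : z ∈ Finset.univ) => mul_le_mul_of_nonneg_left (hF z).2 (h3 z))
    linarith

theorem osc_pow (G : SimpleGraph V) (hd : ∀ x, 0 < G.degree x) {N : ℕ} {δ : ℝ} (z0 : V) (hδ : ∀ x, δ ≤ (lazyWalk G ^ N) x z0)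
    {F : V → ℝ} (hF : ∀ x, 0 ≤ F x ∧ F x ≤ 1) (n : ℕ) :
    ∃ a b : ℝ, b - a = (1 - δ) ^ n ∧ ∀ x, a ≤ wpow G (N * n) F x ∧ wpow G (N * n) F x ≤ b := by
  induction n with
  | zero => exact ⟨0, 1, by simp, fun x => by rw [mul_zero, wpow_zero]; exact hF x⟩
  | succ n ih =>
    obtain ⟨a, b, h1, h2⟩ := ih
    refine ⟨δ * wpow G (N * n) F z0 + (1 - δ) * a, δ * wpow G (N * n) F z0 + (1 - δ) * b, ?_, fun x => ?_⟩
    · rw [pow_succ, ← h1]; ring
    · have h3 : N * (n + 1) = N + N * n := by ring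
      rw [h3, wpow_add]
      exact osc_step G hd z0 hδ h2 x

/-- The uniform mixing condition is eventually met. -/
theorem exists_mixed (G : SimpleGraph V) (hG : G.Connected) (hd : ∀ x, 0 < G.degree x) : ∃ t, Mixed G t := by
  obtain ⟨z0⟩ := hG.nonempty
  obtain ⟨N, hN⟩ := exists_all_pos G hG
  obtain ⟨x0, _, hx0⟩ := Finset.exists_min_image Finset.univ (fun x => (lazyWalk G ^ N) x z0) ⟨z0, Finset.mem_univ _⟩
  set δ := (lazyWalk G ^ N) x0 z0 with hδ
  have hδ0 : 0 < δ := hN x0 z0
  have hδ1 : ∀ x, δ ≤ (lazyWalk G ^ N) x z0 := fun x => hx0 x (Finset.mem_univ x)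
  have hle1 : δ ≤ 1 := by
    have h1 := wpow_one G hd N x0
    rw [wpow_eq] at h1
    simp only [mul_one] at h1
    rw [← h1]
    exact Finset.single_le_sum (f := fun y => (lazyWalk G ^ N) x0 y) (fun y _ => lazyWalk_pow_nonneg G N x0 y) (Finset.mem_univ z0)
  have hS : 0 < ∑ z, (G.degree z : ℝ) := by
    apply Finset.sum_pos
    · intro z _; exact_mod_cast hd z
    · exact ⟨z0, Finset.mem_univ _⟩
  have hpi : ∀ y, 0 < statLaw G y := by
    intro y
    rw [statLaw_eq]; apply div_pos _ hS; exact_mod_cast hd y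
  obtain ⟨y0, _, hy0⟩ := Finset.exists_min_image Finset.univ (fun x => statLaw G x) ⟨z0, Finset.mem_univ _⟩
  obtain ⟨n, hn⟩ := exists_pow_lt_of_lt_one (show 0 < statLaw G y0 / 4 by have := hpi y0; positivity) (show 1 - δ < 1 by linarith)
  refine ⟨N * n, fun x y => ?_⟩
  obtain ⟨a, b, hab, h⟩ := osc_pow G hd z0 hδ1 (F := fun u => if u = y then (1 : ℝ) else 0)
    (fun u => by by_cases hu : u = y <;> simp [hu]) n
  have hker : ∀ a, (lazyWalk G ^ (N * n)) a y = wpow G (N * n) (fun u => if u = y then 1 else 0) a := by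
    intro a; rw [wpow_eq]; simp
  have hst := stat_pow G hd (N * n) (fun u => if u = y then (1 : ℝ) else 0)
  simp only [mul_ite, mul_one, mul_zero, Finset.sum_ite_eq', Finset.mem_univ, if_true] at hst
  have ha : a ≤ statLaw G y := by
    rw [statLaw_eq, le_div_iff₀ hS, ← hst, Finset.mul_sum]
    apply Finset.sum_le_sum; intro z _
    rw [mul_comm]
    exact mul_le_mul_of_nonneg_left (h z).1 (Nat.cast_nonneg _)
  have hb : statLaw G y ≤ b := by
    rw [statLaw_eq, div_le_iff₀ hS, ← hst, Finset.mul_sum]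
    apply Finset.sum_le_sum; intro z _
    rw [mul_comm b]
    exact mul_le_mul_of_nonneg_left (h z).2 (Nat.cast_nonneg _)
  have hk := h x
  rw [← hker] at hk
  have h5 : (1 - δ) ^ n ≤ statLaw G y / 4 := by
    have := hy0 y (Finset.mem_univ y)
    have h6 : statLaw G y0 ≤ statLaw G y := this
    linarith
  have h7 : (lazyWalk G ^ (N * n)) x y / statLaw G y - 1 = ((lazyWalk G ^ (N * n)) x y - statLaw G y) / statLaw G y := by
    have := (hpi y).ne'
    field_simp
  rw [h7, abs_div, abs_of_pos (hpi y), div_le_iff₀ (hpi y), abs_le]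
  constructor <;> linarith

/-- A lower bound for the uniform mixing time. -/
theorem lt_tInf (G : SimpleGraph V) (hG : G.Connected) (hd : ∀ x, 0 < G.degree x) {n : ℕ} (h : ∀ t ≤ n, ¬ Mixed G t) :
    n < tInf G := by
  unfold tInf
  have h1 : sInf {t : ℕ | Mixed G t} ∈ {t : ℕ | Mixed G t} := Nat.sInf_mem (exists_mixed G hG hd)
  by_contra hc
  exact h _ (not_lt.mp hc) h1

theorem tInf_le (G : SimpleGraph V) {n : ℕ} (h : Mixed G n) : tInf G ≤ n := Nat.sInf_le h

end Pool.Agent.H984
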