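import Pool.Agent.H984.Lamp

/-!
H984: the uniform mixing time of the lamplighter graph is at most a constant times `|Q| log |Q|`.
-/

set_option autoImplicit false

open Classical

namespace Pool.Agent.H984

variable {Q : Type} [Group Q] [Fintype Q]
variable {T : Finset Q} {h1 : (1 : Q) ∉ T} {hinv : ∀ t ∈ T, t⁻¹ ∈ T}

/-- Summing over a re-randomized lamp. -/
theorem sum_update (G : (Q → Q) → ℝ) (y : Q) : ∑ f : Q → Q, ∑ q : Q, G (Function.update f y q) = Fintype.card Q * ∑ f, G f := by
  rw [← Finset.sum_product', Finset.mul_sum]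
  have e1 : ∑ f : Q → Q, (Fintype.card Q : ℝ) * G f = ∑ p ∈ (Finset.univ : Finset (Q → Q)) ×ˢ (Finset.univ : Finset Q), G p.1 := by
    rw [Finset.sum_product]
    apply Finset.sum_congr rfl; intro f _
    simp only [Finset.sum_const, Finset.card_univ, nsmul_eq_mul]
  rw [e1]
  apply Finset.sum_bij' (i := fun p _ => (Function.update p.1 y p.2, p.1 y)) (j := fun p _ => (Function.update p.1 y p.2, p.1 y))
  · intro p _; simp
  · intro p _; simp
  · rintro ⟨f, q⟩ _; simp
  · rintro ⟨f, q⟩ _; simp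
  · rintro ⟨f, q⟩ _; simp

/-- Average over lamp moves at the walker. -/
noncomputable def Al (T : Finset Q) (F : LV Q → ℝ) (u : LV Q) : ℝ := (∑ t ∈ T, F (mv u.1 u.2.1 t, u.2.1, u.2.2)) / (T.card : ℝ)

/-- The walk operator. -/
theorem PU_eq (hT : 0 < T.card) (F : LV Q → ℝ) (f : Q → Q) (y e : Q) :
    (lazyWalk (lampG T h1 hinv)).mulVec F (f, y, e)
      = F (f, y, e) / 2 + Pb T (fun y e => F (f, y, e)) y e / 3 + Al T F (f, y, e) / 6 := by
  rw [lazyWalk_mulVec, lamp_sum, lamp_deg, Pb_apply]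
  unfold Al Av
  have : (T.card : ℝ) ≠ 0 := by exact_mod_cast hT.ne'
  field_simp
  ring

/-- The sector of the lamp set `S`. -/
structure HS (S : Finset Q) (F : LV Q → ℝ) : Prop where
  zero : ∀ x ∈ S, ∀ f y e, ∑ q, F (Function.update f x q, y, e) = 0
  const : ∀ x, x ∉ S → ∀ f q y e, F (Function.update f x q, y, e) = F (f, y, e)

omit [Fintype Q] in
theorem mv_update_same (f : Q → Q) (x q t : Q) : mv (Function.update f x q) x t = Function.update f x (q * t) := by
  unfold mv; simp

omit [Fintype Q] in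
theorem mv_update_ne (f : Q → Q) {x y : Q} (h : y ≠ x) (q t : Q) :
    mv (Function.update f x q) y t = Function.update (mv f y t) x q := by
  unfold mv
  rw [Function.update_of_ne h, Function.update_comm h.symm]

theorem HS.step {S : Finset Q} {F : LV Q → ℝ} (hT : 0 < T.card) (h : HS S F) :
    HS S (fun u => (lazyWalk (lampG T h1 hinv)).mulVec F u) := by
  constructor
  · intro x hx f y e
    simp only [PU_eq hT]
    rw [Finset.sum_add_distrib, Finset.sum_add_distrib, ← Finset.sum_div, ← Finset.sum_div, ← Finset.sum_div]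
    have e1 : ∑ q, F (Function.update f x q, y, e) = 0 := h.zero x hx f y e
    have e2 : ∑ q, Pb T (fun y e => F (Function.update f x q, y, e)) y e = 0 := by
      simp only [Pb_apply]
      unfold Av
      rw [← Finset.sum_div, Finset.sum_add_distrib, ← Finset.sum_div, ← Finset.sum_div, Finset.sum_comm, Finset.sum_comm (s := Finset.univ) (t := T)]
      rw [Finset.sum_eq_zero (fun t _ => h.zero x hx f (y * t) e), Finset.sum_eq_zero (fun t _ => h.zero x hx f y (e * t))]
      simp
    have e3 : ∑ q, Al T F (Function.update f x q, y, e) = 0 := by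
      unfold Al
      simp only
      rw [← Finset.sum_div, Finset.sum_comm]
      have : ∀ t ∈ T, ∑ q, F (mv (Function.update f x q) y t, y, e) = 0 := by
        intro t _
        by_cases hxy : y = x
        · subst hxy
          simp only [mv_update_same]
          exact (Equiv.sum_comp (Equiv.mulRight t) (fun q => F (Function.update f y q, y, e))).trans (h.zero y hx f y e)
        · simp only [mv_update_ne f hxy]
          exact h.zero x hx _ y e
      rw [Finset.sum_eq_zero this, zero_div]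
    rw [e1, e2, e3]; simp
  · intro x hx f q y e
    simp only [PU_eq hT]
    have e2 : Pb T (fun y e => F (Function.update f x q, y, e)) y e = Pb T (fun y e => F (f, y, e)) y e := by
      have : (fun y e => F (Function.update f x q, y, e)) = (fun y e => F (f, y, e)) := by
        funext y e; exact h.const x hx f q y e
      rw [this]
    have e3 : Al T F (Function.update f x q, y, e) = Al T F (f, y, e) := by
      unfold Al
      congr 1
      apply Finset.sum_congr rfl; intro t _
      simp only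
      by_cases hxy : y = x
      · subst hxy
        rw [mv_update_same]
        have : mv f y t = Function.update f y (f y * t) := rfl
        rw [this, h.const y hx, h.const y hx]
      · rw [mv_update_ne f hxy]
        exact h.const x hx _ q y e
    rw [e2, e3, h.const x hx f q y e]

/-- Squared norm. -/
noncomputable def nsq (F : LV Q → ℝ) : ℝ := ∑ f, ∑ y, ∑ e, (F (f, y, e)) ^ 2

theorem nsq_nonneg (F : LV Q → ℝ) : 0 ≤ nsq F :=
  Finset.sum_nonneg (fun _ _ => Finset.sum_nonneg (fun _ _ => Finset.sum_nonneg (fun _ _ => sq_nonneg _)))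

/-- Contraction of the base part, with deficit. -/
theorem Pb_deficit (hg : Gap T) (b : Q → Q → ℝ) :
    ∑ y, ∑ e, (Pb T b y e) ^ 2 ≤ ∑ y, ∑ e, (b y e) ^ 2
      - 7 / 16 * ∑ y, ∑ e, (b y e - (∑ y, ∑ e, b y e) / (Fintype.card Q : ℝ) ^ 2) ^ 2 := by
  have hn : (0 : ℝ) < Fintype.card Q := by exact_mod_cast Fintype.card_pos
  set n : ℝ := (Fintype.card Q : ℝ) with hn'
  set m := (∑ y, ∑ e, b y e) / n ^ 2 with hm
  have hs : ∑ y, ∑ e, b y e = n ^ 2 * m := by rw [hm]; field_simp
  obtain ⟨b0, hb0⟩ : ∃ b0 : Q → Q → ℝ, b0 = b - fun _ _ => m := ⟨_, rfl⟩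
  have hb0' : ∀ y e, b0 y e = b y e - m := by intro y e; rw [hb0]; rfl
  have e0 : ∑ y, ∑ e, b0 y e = 0 := by
    simp only [hb0', Finset.sum_sub_distrib, hs, Finset.sum_const, Finset.card_univ, nsmul_eq_mul]
    rw [← hn']; ring
  have h2 := hg.Pb_sq b0 e0
  have e1 : ∀ y e, Pb T b y e = Pb T b0 y e + m := by
    intro y e
    have : b = b0 + fun _ _ => m := by rw [hb0]; simp
    conv_lhs => rw [this]
    have hc := Pb_const hg.1 m 1
    rw [pow_one] at hc
    rw [map_add, hc]; rfl
  have expand : ∀ c : Q → Q → ℝ, ∑ y, ∑ e, c y e = 0 → ∑ y, ∑ e, (c y e + m) ^ 2 = ∑ y, ∑ e, (c y e) ^ 2 + n ^ 2 * m ^ 2 := by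
    intro c hc
    have h3 : ∀ y e, (c y e + m) ^ 2 = (c y e) ^ 2 + 2 * m * c y e + m ^ 2 := by intro y e; ring
    simp only [h3, Finset.sum_add_distrib, ← Finset.mul_sum, hc, Finset.sum_const, Finset.card_univ, nsmul_eq_mul]
    rw [← hn']; ring
  have e2 : ∑ y, ∑ e, (Pb T b y e) ^ 2 = ∑ y, ∑ e, (Pb T b0 y e) ^ 2 + n ^ 2 * m ^ 2 := by
    simp only [e1]
    exact expand _ (by rw [sum_Pb hg.1, e0])
  have e3 : ∑ y, ∑ e, (b y e) ^ 2 = ∑ y, ∑ e, (b0 y e) ^ 2 + n ^ 2 * m ^ 2 := by
    rw [← expand b0 e0]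
    simp only [hb0', sub_add_cancel]
  have e4 : ∑ y, ∑ e, (b y e - m) ^ 2 = ∑ y, ∑ e, (b0 y e) ^ 2 := by simp only [hb0']
  rw [e2, e3, e4]
  linarith

/-- Contraction of the lamp part, with deficit. -/
theorem Al_deficit (hg : Gap T) {S : Finset Q} {F : LV Q → ℝ} (h : HS S F) :
    nsq (Al T F) ≤ nsq F - 15 / 16 * ∑ f, ∑ y, ∑ e, (if y ∈ S then (F (f, y, e)) ^ 2 else 0) := by
  have hn : (0 : ℝ) < Fintype.card Q := by exact_mod_cast Fintype.card_pos
  -- per (y, e)
  have key : ∀ y e, ∑ f, (Al T F (f, y, e)) ^ 2 ≤ ∑ f, (F (f, y, e)) ^ 2 - 15 / 16 * ∑ f, (if y ∈ S then (F (f, y, e)) ^ 2 else 0) := by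
    intro y e
    have s1 := sum_update (fun f => (Al T F (f, y, e)) ^ 2) y
    have s2 := sum_update (fun f => (F (f, y, e)) ^ 2) y
    have hAl : ∀ f q, Al T F (Function.update f y q, y, e) = Av T (fun q => F (Function.update f y q, y, e)) q := by
      intro f q
      unfold Al Av
      simp only [mv_update_same]
    by_cases hy : y ∈ S
    · simp only [hy, if_true]
      have h3 : ∀ f, ∑ q, (Al T F (Function.update f y q, y, e)) ^ 2 ≤ 1 / 16 * ∑ q, (F (Function.update f y q, y, e)) ^ 2 := by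
        intro f
        simp only [hAl]
        exact hg.2 _ (h.zero y hy f y e)
      have h4 := Finset.sum_le_sum (fun f (_ : f ∈ Finset.univ) => h3 f)
      rw [s1, ← Finset.mul_sum, s2] at h4
      have h5 : Fintype.card Q * ∑ f, (Al T F (f, y, e)) ^ 2 ≤ Fintype.card Q * (1 / 16 * ∑ f, (F (f, y, e)) ^ 2) := by linarith
      have h6 := le_of_mul_le_mul_left h5 hn
      linarith
    · simp only [hy, if_false, Finset.sum_const_zero, mul_zero, sub_zero]
      have h3 : ∀ f, Al T F (f, y, e) = F (f, y, e) := by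
        intro f
        unfold Al
        have : ∀ t ∈ T, F (mv f y t, y, e) = F (f, y, e) := fun t _ => h.const y hy f _ y e
        simp only
        rw [Finset.sum_congr rfl this, Finset.sum_const, nsmul_eq_mul]
        have : (T.card : ℝ) ≠ 0 := by exact_mod_cast hg.1.ne'
        field_simp
      simp only [h3]; exact le_rfl
  have hswap : ∀ G : LV Q → ℝ, ∑ f, ∑ y, ∑ e, G (f, y, e) = ∑ y, ∑ e, ∑ f, G (f, y, e) := by
    intro G
    rw [Finset.sum_comm]
    apply Finset.sum_congr rfl; intro y _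
    rw [Finset.sum_comm]
  unfold nsq
  rw [hswap (fun u => (Al T F u) ^ 2), hswap (fun u => (F u) ^ 2), hswap (fun u => if u.2.1 ∈ S then (F u) ^ 2 else 0),
    Finset.mul_sum, ← Finset.sum_sub_distrib]
  apply Finset.sum_le_sum; intro y _
  rw [Finset.mul_sum, ← Finset.sum_sub_distrib]
  exact Finset.sum_le_sum (fun e _ => key y e)

/-- Convexity. -/
theorem PU_sq (hT : 0 < T.card) (F : LV Q → ℝ) :
    nsq (fun u => (lazyWalk (lampG T h1 hinv)).mulVec F u)
      ≤ 1 / 2 * nsq F + 1 / 3 * ∑ f, ∑ y, ∑ e, (Pb T (fun y e => F (f, y, e)) y e) ^ 2 + 1 / 6 * nsq (Al T F) := by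
  unfold nsq
  simp only [Finset.mul_sum, ← Finset.sum_add_distrib]
  apply Finset.sum_le_sum; intro f _
  apply Finset.sum_le_sum; intro y _
  apply Finset.sum_le_sum; intro e _
  rw [PU_eq hT]
  set a := F (f, y, e)
  set b := Pb T (fun y e => F (f, y, e)) y e
  set c := Al T F (f, y, e)
  nlinarith [sq_nonneg (a - b), sq_nonneg (a - c), sq_nonneg (b - c)]

/-- One step in a nonempty sector. -/
theorem HS.contract (hg : Gap T) {S : Finset Q} {F : LV Q → ℝ} (h : HS S F) (hS : 0 < S.card) :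
    nsq (fun u => (lazyWalk (lampG T h1 hinv)).mulVec F u) ≤ (1 - S.card / (36 * Fintype.card Q)) * nsq F := by
  have hn : (0 : ℝ) < Fintype.card Q := by exact_mod_cast Fintype.card_pos
  set n : ℝ := (Fintype.card Q : ℝ) with hn'
  have hSr : (0 : ℝ) < S.card := by exact_mod_cast hS
  have hSn : (S.card : ℝ) ≤ n := by
    rw [hn']; exact_mod_cast Finset.card_le_univ S
  set m : (Q → Q) → ℝ := fun f => (∑ y, ∑ e, F (f, y, e)) / n ^ 2 with hm
  set X := ∑ f, ∑ y, ∑ e, (F (f, y, e) - m f) ^ 2 with hX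
  set Y := ∑ f, ∑ y, ∑ e, (if y ∈ S then (F (f, y, e)) ^ 2 else 0) with hY
  have h2 : ∑ f, ∑ y, ∑ e, (Pb T (fun y e => F (f, y, e)) y e) ^ 2 ≤ nsq F - 7 / 16 * X := by
    unfold nsq
    rw [hX, Finset.mul_sum, ← Finset.sum_sub_distrib]
    exact Finset.sum_le_sum (fun f _ => Pb_deficit hg (fun y e => F (f, y, e)))
  have h3 := Al_deficit hg h
  have h4 := PU_sq (h1 := h1) (hinv := hinv) hg.1 F
  have hX0 : 0 ≤ X := Finset.sum_nonneg (fun _ _ => Finset.sum_nonneg (fun _ _ => Finset.sum_nonneg (fun _ _ => sq_nonneg _)))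
  have hY0 : 0 ≤ Y := Finset.sum_nonneg (fun _ _ => Finset.sum_nonneg (fun _ _ => Finset.sum_nonneg (fun _ _ => by
    split_ifs
    · exact sq_nonneg _
    · exact le_rfl)))
  -- lower bound for X + Y
  have h5 : S.card * nsq F ≤ 3 * n * (X + Y) := by
    have h6 : ∀ f, S.card * ∑ y, ∑ e, (F (f, y, e)) ^ 2 ≤ 3 * n * (∑ y, ∑ e, (F (f, y, e) - m f) ^ 2 + ∑ y, ∑ e, (if y ∈ S then (F (f, y, e)) ^ 2 else 0)) := by
      intro f
      set x := ∑ y, ∑ e, (F (f, y, e) - m f) ^ 2 with hx
      set z := ∑ y, ∑ e, (if y ∈ S then (F (f, y, e)) ^ 2 else 0) with hz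
      have hx0 : 0 ≤ x := Finset.sum_nonneg (fun _ _ => Finset.sum_nonneg (fun _ _ => sq_nonneg _))
      have a1 : ∑ y, ∑ e, (F (f, y, e)) ^ 2 = x + n ^ 2 * (m f) ^ 2 := by
        have hs : ∑ y, ∑ e, F (f, y, e) = n ^ 2 * m f := by rw [hm]; field_simp
        have h7 : ∀ y e, (F (f, y, e) - m f) ^ 2 = (F (f, y, e)) ^ 2 - 2 * m f * F (f, y, e) + (m f) ^ 2 := by intro y e; ring
        rw [hx]
        simp only [h7, Finset.sum_add_distrib, Finset.sum_sub_distrib, ← Finset.mul_sum, hs, Finset.sum_const, Finset.card_univ, nsmul_eq_mul]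
        rw [← hn']; ring
      have a2 : S.card * n * (m f) ^ 2 ≤ 2 * z + 2 * x := by
        have h8 : ∑ y, ∑ _e : Q, (if y ∈ S then (m f) ^ 2 else 0) = S.card * n * (m f) ^ 2 := by
          simp only [Finset.sum_const, Finset.card_univ, nsmul_eq_mul]
          rw [← Finset.mul_sum, ← Finset.sum_filter, Finset.sum_const, nsmul_eq_mul]
          have : Finset.univ.filter (fun y => y ∈ S) = S := by ext; simp
          rw [this, ← hn']; ring
        rw [← h8, hz, hx, Finset.mul_sum, Finset.mul_sum, ← Finset.sum_add_distrib]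
        apply Finset.sum_le_sum; intro y _
        rw [Finset.mul_sum, Finset.mul_sum, ← Finset.sum_add_distrib]
        apply Finset.sum_le_sum; intro e _
        split_ifs
        · nlinarith [sq_nonneg (F (f, y, e) + (F (f, y, e) - m f))]
        · nlinarith [sq_nonneg (F (f, y, e) - m f)]
      rw [a1]
      have a3 : (S.card : ℝ) * x ≤ n * x := mul_le_mul_of_nonneg_right hSn hx0
      have a4 : n * (S.card * n * (m f) ^ 2) ≤ n * (2 * z + 2 * x) := mul_le_mul_of_nonneg_left a2 hn.le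
      have hz0 : 0 ≤ z := Finset.sum_nonneg (fun _ _ => Finset.sum_nonneg (fun _ _ => by
        split_ifs
        · exact sq_nonneg _
        · exact le_rfl))
      have a5 : 0 ≤ n * z := by positivity
      linarith
    have h7 := Finset.sum_le_sum (fun f (_ : f ∈ Finset.univ) => h6 f)
    rw [← Finset.mul_sum, ← Finset.mul_sum, Finset.sum_add_distrib] at h7
    exact h7
  have h6 : S.card / (36 * n) * nsq F ≤ 1 / 12 * (X + Y) := by
    rw [div_mul_eq_mul_div, div_le_iff₀ (by positivity)]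
    linarith
  have hN := nsq_nonneg F
  rw [sub_mul, one_mul]
  linarith

/-- One step in the empty sector. -/
theorem HS.contract0 (hg : Gap T) {F : LV Q → ℝ} (h : HS ∅ F) (h0 : ∀ f, ∑ y, ∑ e, F (f, y, e) = 0) :
    nsq (fun u => (lazyWalk (lampG T h1 hinv)).mulVec F u) ≤ (1 - 1 / 36) * nsq F := by
  have h2 : ∑ f, ∑ y, ∑ e, (Pb T (fun y e => F (f, y, e)) y e) ^ 2 ≤ 9 / 16 * nsq F := by
    unfold nsq
    rw [Finset.mul_sum]
    exact Finset.sum_le_sum (fun f _ => hg.Pb_sq (fun y e => F (f, y, e)) (h0 f))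
  have h3 := Al_deficit hg h
  have h4 := PU_sq (h1 := h1) (hinv := hinv) hg.1 F
  have hY0 : 0 ≤ ∑ f, ∑ y, ∑ e, (if y ∈ (∅ : Finset Q) then (F (f, y, e)) ^ 2 else 0) :=
    Finset.sum_nonneg (fun _ _ => Finset.sum_nonneg (fun _ _ => Finset.sum_nonneg (fun _ _ => by
      split_ifs
      · exact sq_nonneg _
      · exact le_rfl)))
  have hN := nsq_nonneg F
  linarith

theorem HS.zero_step (hg : Gap T) {F : LV Q → ℝ} (h : HS ∅ F) (h0 : ∀ f, ∑ y, ∑ e, F (f, y, e) = 0) (f : Q → Q) :
    ∑ y, ∑ e, (lazyWalk (lampG T h1 hinv)).mulVec F (f, y, e) = 0 := by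
  simp only [PU_eq hg.1]
  have hAl : ∀ y e, Al T F (f, y, e) = F (f, y, e) := by
    intro y e
    unfold Al
    have : ∀ t ∈ T, F (mv f y t, y, e) = F (f, y, e) := fun t _ => h.const y (by simp) f _ y e
    simp only
    rw [Finset.sum_congr rfl this, Finset.sum_const, nsmul_eq_mul]
    have : (T.card : ℝ) ≠ 0 := by exact_mod_cast hg.1.ne'
    field_simp
  simp only [hAl, Finset.sum_add_distrib, ← Finset.sum_div, h0 f]
  rw [sum_Pb hg.1 (fun y e => F (f, y, e)), h0 f]; simp

theorem HS.pow (hg : Gap T) {S : Finset Q} (hS : 0 < S.card) (t : ℕ) {F : LV Q → ℝ} (h : HS S F) :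
    nsq (fun u => wpow (lampG T h1 hinv) t F u) ≤ (1 - S.card / (36 * Fintype.card Q)) ^ t * nsq F := by
  have hn : (0 : ℝ) < Fintype.card Q := by exact_mod_cast Fintype.card_pos
  have hSn : (S.card : ℝ) ≤ Fintype.card Q := by exact_mod_cast Finset.card_le_univ S
  have h36 : (S.card : ℝ) / (36 * Fintype.card Q) ≤ 1 := by
    rw [div_le_one (by positivity)]; linarith
  induction t generalizing F with
  | zero => simp only [wpow_zero, pow_zero, one_mul]; exact le_rfl
  | succ t ih =>
    simp only [wpow_succ]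
    refine (ih (h.step hg.1)).trans ?_
    rw [pow_succ, mul_assoc]
    apply mul_le_mul_of_nonneg_left (h.contract hg hS)
    apply pow_nonneg; linarith

theorem HS.pow0 (hg : Gap T) (t : ℕ) {F : LV Q → ℝ} (h : HS ∅ F) (h0 : ∀ f, ∑ y, ∑ e, F (f, y, e) = 0) :
    nsq (fun u => wpow (lampG T h1 hinv) t F u) ≤ (1 - 1 / 36) ^ t * nsq F := by
  induction t generalizing F with
  | zero => simp only [wpow_zero, pow_zero, one_mul]; exact le_rfl
  | succ t ih =>
    simp only [wpow_succ]
    refine (ih (h.step hg.1) (fun f => h.zero_step hg h0 f)).trans ?_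
    rw [pow_succ, mul_assoc]
    apply mul_le_mul_of_nonneg_left (h.contract0 hg h0)
    apply pow_nonneg; norm_num

end Pool.Agent.H984
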