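import Pool.Agent.H984.Rec
import Pool.Agent.H984.Upper
import Pool.Agent.H984.Erg

/-!
H984: the second graph is far from mixed.
-/

set_option autoImplicit false

open Classical

namespace Pool.Agent.H984

variable {Q : Type} [Group Q] [Fintype Q]
variable {T : Finset Q} {h1 : (1 : Q) ∉ T} {hinv : ∀ t ∈ T, t⁻¹ ∈ T}
variable {ι : Type} [Fintype ι]

/-- Counting configurations with the lamp at `z` low. -/
theorem count_lamp (lev : Q → ℕ) (L : ℕ) (z : Q) :
    (Fintype.card Q : ℝ) * ∑ f : Q → Q, (if lev (f z) ≤ L then (1 : ℝ) else 0)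
      = (Fintype.card (Q → Q) : ℝ) * ((Finset.univ.filter (fun q => lev q ≤ L)).card : ℝ) := by
  rw [← sum_update (fun f => if lev (f z) ≤ L then (1 : ℝ) else 0) z]
  simp only [Function.update_self]
  rw [Finset.sum_const, Finset.card_univ, nsmul_eq_mul, Finset.sum_boole]

theorem sum_fst {α β : Type} [Fintype α] [Fintype β] (f : α → ℝ) :
    ∑ p : α × β, f p.1 = (Fintype.card β : ℝ) * ∑ a, f a := by
  rw [Fintype.sum_prod_type, Finset.mul_sum]
  apply Finset.sum_congr rfl; intro a _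
  simp only [Finset.sum_const, Finset.card_univ, nsmul_eq_mul]

section main

variable {P : RP ι Q} {lev : Q → ℕ} {site : ι → Q} {M : ℕ} {R : ℝ} {L' : ℕ} {ep lam kap δ eta : ℝ} {τ K1 K : ℕ}

theorem deg_bounds (hK1 : 1 ≤ K1) (hK : 1 ≤ K) (v : LV Q × (Fin K1 × Fin K)) :
    (K1 : ℝ) * K * (2 * T.card) ≤ ((Gp2 T h1 hinv P lev site K1 K).degree v : ℝ) ∧
      ((Gp2 T h1 hinv P lev site K1 K).degree v : ℝ) ≤ (K1 : ℝ) * K * (3 * T.card) := by
  unfold Gp2
  rw [blow_deg]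
  exact ⟨wdeg_ge v.1, wdeg_le hK1 hK v.1⟩

theorem deg_pos' (hT : 0 < T.card) (hK1 : 1 ≤ K1) (hK : 1 ≤ K) (v : LV Q × (Fin K1 × Fin K)) :
    0 < (Gp2 T h1 hinv P lev site K1 K).degree v := by
  have h2 := (deg_bounds (T := T) (h1 := h1) (hinv := hinv) (P := P) (lev := lev) (site := site) hK1 hK v).1
  have h3 : (0 : ℝ) < (K1 : ℝ) * K * (2 * T.card) := by positivity
  have h4 := lt_of_lt_of_le h3 h2
  exact_mod_cast h4

theorem stat_small (hT : 0 < T.card) (hK1 : 1 ≤ K1) (hK : 1 ≤ K) (z : Q) (L : ℕ)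
    (hball : 4 * (Finset.univ.filter (fun q => lev q ≤ L)).card ≤ Fintype.card Q) :
    ∑ y, statLaw (Gp2 T h1 hinv P lev site K1 K) y * (if lev (y.1.1 z) ≤ L then (1 : ℝ) else 0) ≤ 3 / 8 := by
  have hn : (0 : ℝ) < Fintype.card Q := by exact_mod_cast Fintype.card_pos
  have hN0 : (0 : ℝ) < (K1 : ℝ) * K := by positivity
  have hT0 : (0 : ℝ) < T.card := by exact_mod_cast hT
  obtain ⟨N, hN⟩ : ∃ N : ℝ, N = (K1 : ℝ) * K * T.card := ⟨_, rfl⟩
  have hNpos : 0 < N := by rw [hN]; positivity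
  have hdb : ∀ v : LV Q × (Fin K1 × Fin K), 2 * N ≤ ((Gp2 T h1 hinv P lev site K1 K).degree v : ℝ) ∧
      ((Gp2 T h1 hinv P lev site K1 K).degree v : ℝ) ≤ 3 * N := by
    intro v
    have := deg_bounds (T := T) (h1 := h1) (hinv := hinv) (P := P) (lev := lev) (site := site) hK1 hK v
    rw [hN]
    constructor <;> linarith [this.1, this.2]
  obtain ⟨F, hF⟩ : ∃ F : LV Q × (Fin K1 × Fin K) → ℝ, F = fun y => if lev (y.1.1 z) ≤ L then (1 : ℝ) else 0 := ⟨_, rfl⟩
  have hF0 : ∀ y, 0 ≤ F y := by intro y; rw [hF]; simp only; split_ifs <;> norm_num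
  obtain ⟨NV, hNV⟩ : ∃ NV : ℝ, NV = (Fintype.card (LV Q × (Fin K1 × Fin K)) : ℝ) := ⟨_, rfl⟩
  have hcardV : NV = (Fintype.card (Q → Q) : ℝ) * (Fintype.card Q : ℝ) ^ 2 * (K1 * K) := by
    rw [hNV]
    rw [Fintype.card_prod, Fintype.card_prod, Fintype.card_prod, Fintype.card_prod, Fintype.card_fin, Fintype.card_fin]
    push_cast; ring
  have hQQ : (0 : ℝ) < Fintype.card (Q → Q) := by exact_mod_cast Fintype.card_pos
  have hV0 : 0 < NV := by
    rw [hcardV]; positivity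
  have hsumF : 4 * ∑ y, F y ≤ NV := by
    have e1 : ∑ y, F y = (∑ f : Q → Q, if lev (f z) ≤ L then (1 : ℝ) else 0) * (Fintype.card Q : ℝ) ^ 2 * (K1 * K) := by
      rw [hF, sum_fst (fun u : LV Q => if lev (u.1 z) ≤ L then (1 : ℝ) else 0),
        sum_fst (fun f : Q → Q => if lev (f z) ≤ L then (1 : ℝ) else 0)]
      simp only [Fintype.card_prod, Fintype.card_fin]
      push_cast; ring
    have e2 := count_lamp lev L z
    have e3 : (4 : ℝ) * ((Finset.univ.filter (fun q => lev q ≤ L)).card : ℝ) ≤ Fintype.card Q := by exact_mod_cast hball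
    have e4 : (Fintype.card Q : ℝ) * (4 * ∑ f : Q → Q, (if lev (f z) ≤ L then (1 : ℝ) else 0))
        ≤ (Fintype.card Q : ℝ) * Fintype.card (Q → Q) := by
      calc _ = 4 * ((Fintype.card Q : ℝ) * ∑ f : Q → Q, (if lev (f z) ≤ L then (1 : ℝ) else 0)) := by ring
        _ = (Fintype.card (Q → Q) : ℝ) * (4 * ((Finset.univ.filter (fun q => lev q ≤ L)).card : ℝ)) := by rw [e2]; ring
        _ ≤ (Fintype.card (Q → Q) : ℝ) * Fintype.card Q := mul_le_mul_of_nonneg_left e3 hQQ.le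
        _ = _ := by ring
    have e5 := le_of_mul_le_mul_left e4 hn
    rw [e1, hcardV]
    calc _ = (4 * ∑ f : Q → Q, (if lev (f z) ≤ L then (1 : ℝ) else 0)) * ((Fintype.card Q : ℝ) ^ 2 * (K1 * K)) := by ring
      _ ≤ (Fintype.card (Q → Q) : ℝ) * ((Fintype.card Q : ℝ) ^ 2 * (K1 * K)) := mul_le_mul_of_nonneg_right e5 (by positivity)
      _ = _ := by ring
  have hSum : 2 * N * NV ≤ ∑ y, ((Gp2 T h1 hinv P lev site K1 K).degree y : ℝ) := by
    have := Finset.sum_le_sum (fun y (_ : y ∈ (Finset.univ : Finset (LV Q × (Fin K1 × Fin K)))) => (hdb y).1)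
    rw [Finset.sum_const, Finset.card_univ, nsmul_eq_mul, ← hNV] at this
    linarith
  have hSum0 : 0 < ∑ y, ((Gp2 T h1 hinv P lev site K1 K).degree y : ℝ) := lt_of_lt_of_le (by positivity) hSum
  have e6 : ∀ y, statLaw (Gp2 T h1 hinv P lev site K1 K) y * (if lev (y.1.1 z) ≤ L then (1 : ℝ) else 0)
      = ((Gp2 T h1 hinv P lev site K1 K).degree y : ℝ) * F y / ∑ y, ((Gp2 T h1 hinv P lev site K1 K).degree y : ℝ) := by
    intro y; rw [statLaw_eq, hF]; ring
  rw [Finset.sum_congr rfl (fun y _ => e6 y), ← Finset.sum_div, div_le_iff₀ hSum0]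
  have e7 : ∑ y, ((Gp2 T h1 hinv P lev site K1 K).degree y : ℝ) * F y ≤ 3 * N * ∑ y, F y := by
    rw [Finset.mul_sum]
    exact Finset.sum_le_sum (fun y _ => mul_le_mul_of_nonneg_right (hdb y).2 (hF0 y))
  have e8 : 3 * N * ∑ y, F y ≤ 3 * N * (NV / 4) := mul_le_mul_of_nonneg_left (by linarith) (by positivity)
  linarith

/-- The second graph is not mixed. -/
theorem not_mixed (h : CorrOK P T lev site M R L' ep lam K1 kap δ eta τ) (hr : RecOK P M R L' eta) (hinj : Function.Injective site)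
    (hK : P.K = (K : ℝ)) (hK1' : 1 ≤ K1) (hK' : 1 ≤ K) {t : ℕ} (ht : t ≤ M * (Fintype.card Q * L'))
    (hm : P.m (M - 1) = 1) (x0 : ι) (hx0 : P.gp x0 = M - 1)
    (hball : 4 * (Finset.univ.filter (fun q => lev q ≤ P.L)).card ≤ Fintype.card Q) :
    ¬ Mixed (Gp2 T h1 hinv P lev site K1 K) t := by
  intro hmix
  have hT : 0 < T.card := h.lamp.gap.1
  have hdeg := fun v => deg_pos' (T := T) (h1 := h1) (hinv := hinv) (P := P) (lev := lev) (site := site) hT hK1' hK' v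
  have i : Fin K1 × Fin K := (⟨0, hK1'⟩, ⟨0, hK'⟩)
  have h2 := stay (h1 := h1) (hinv := hinv) h hr hinj hK i ht hdeg hm x0 hx0
  have h3 := mixed_le (Gp2 T h1 hinv P lev site K1 K) hdeg hmix
    (F := fun v => if lev (v.1.1 (site x0)) ≤ P.L then (1 : ℝ) else 0) (fun v => by split_ifs <;> norm_num) (start Q i)
  have h4 := stat_small (T := T) (h1 := h1) (hinv := hinv) (P := P) (lev := lev) (site := site) hT hK1' hK' (site x0) P.L hball
  linarith

end main

end Pool.Agent.H984
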