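import Pool.Agent.H984.Fin1

/-!
H984: the concrete ratchet, and the second graph built from it.
-/

set_option autoImplicit false

open Classical

namespace Pool.Agent.H984

/-- The index set of the relevant lamps. -/
abbrev Ix (M R : ℕ) : Type := Σ s : Fin M, Bool × Fin (R ^ (M - 1 - (s : ℕ)))

/-- The concrete ratchet. -/
noncomputable def mkP (Q : Type) [Fintype Q] (M R d L' : ℕ) (A dp : ℝ) : RP (Ix M R) Q where
  gp x := x.1
  bt x := x.2.1
  m j := (R : ℝ) ^ (M - 1 - j)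
  tau j := R ^ (M - 1 - j) * L'
  th j e := (Fintype.equivFin Q e : ℕ) % (R ^ (M - 1 - j) * L')
  K := 1000 * d
  d := d
  dp := dp
  A := A
  L := 100 * L'

theorem count_mod {n T : ℕ} (v : ℕ) (hT : 0 < T) (hTn : T ≤ n) :
    ∑ i ∈ Finset.range n, (if i % T = v then (1 : ℝ) else 0) ≤ 2 / T * n := by
  rw [Finset.sum_boole]
  have hsub : (Finset.range n).filter (fun i => i % T = v) ⊆ (Finset.range (n / T + 1)).image (fun q => q * T + v) := by
    intro i hi
    obtain ⟨h1, h2⟩ := Finset.mem_filter.mp hi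
    refine Finset.mem_image.mpr ⟨i / T, Finset.mem_range.mpr ?_, ?_⟩
    · have := Nat.div_le_div_right (c := T) (Finset.mem_range.mp h1).le
      omega
    · have := Nat.div_add_mod i T
      rw [← h2, mul_comm]; exact this
  have h3 := (Finset.card_le_card hsub).trans Finset.card_image_le
  rw [Finset.card_range] at h3
  have h4 : (((Finset.range n).filter (fun i => i % T = v)).card : ℝ) ≤ ((n / T : ℕ) : ℝ) + 1 := by exact_mod_cast h3
  have hT0 : (0 : ℝ) < T := by exact_mod_cast hT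
  have h5 : ((n / T : ℕ) : ℝ) ≤ (n : ℝ) / T := Nat.cast_div_le
  have h6 : (1 : ℝ) ≤ (n : ℝ) / T := by
    rw [le_div_iff₀ hT0, one_mul]; exact_mod_cast hTn
  have h7 : 2 / (T : ℝ) * n = (n : ℝ) / T + (n : ℝ) / T := by ring
  rw [h7]
  linarith

variable {Q : Type} [Group Q] [Fintype Q]

/-- Numeric hypotheses. -/
structure Num (M R d L' τ n : ℕ) (A dp ep δ : ℝ) : Prop where
  hM : 1 ≤ M
  hR : 2000 ≤ R
  hd : 10000 ≤ d
  dp1 : 4 / 5 * (d : ℝ) ≤ dp
  dp2 : dp ≤ d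
  A1 : 1 ≤ A
  L1 : 20 ≤ L'
  mn : ∀ j < M, R ^ (M - 1 - j) * L' ≤ n
  ep0 : 0 < ep
  ep1 : ep ≤ 1
  e1 : (d : ℝ) * (4 / R) + 1 / 2 ^ (50 * L') ≤ ep
  e2 : 2 * (d : ℝ) * (8 / L' + 1 / R) ≤ ep
  e3 : 2 * (d : ℝ) * (1 / 2 ^ (50 * L')) ≤ ep
  e4 : (d : ℝ) * (16 / L') ≤ ep
  tau1 : 1 ≤ τ
  tauQ : τ ≤ n
  del0 : 0 < δ
  del1 : δ < 1
  del : δ * Fintype.card (Ix M R) * (3 * d) * (R : ℝ) ^ (M - 1) ≤ ep
  sepc : (Fintype.card (Ix M R) : ℝ) * ((τ / δ) * (τ / δ)) < n
  eta : 4 / A + M * d * (12 / R + 32 / L') + 2 * M * ep + (3 / 4) ^ τ * (n : ℝ) ^ 2 * Fintype.card (Ix M R) * (6 * d) ≤ 1 / M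
  AL : A ≤ 2 ^ (100 * L' + 1)
  big : ∀ s < M, 2 * Real.exp (2 * (R : ℝ) ^ (M - 1 - s) * Real.log A) + M * ((R : ℝ) ^ (M - 1 - s) * L')
    ≤ Real.exp ((R : ℝ) ^ (M - 1 - s) * L' / 200)

variable {M R d L' τ : ℕ} {A dp ep δ : ℝ}

theorem mkP_card {j : ℕ} (hj : j < M) (b : Bool) :
    (∑ x : Ix M R, if ((x.1 : ℕ) = j ∧ x.2.1 = b) then (1 : ℝ) else 0) = (R : ℝ) ^ (M - 1 - j) := by
  rw [Fintype.sum_sigma]
  have h1 : ∀ s : Fin M, (∑ y : Bool × Fin (R ^ (M - 1 - (s : ℕ))), if ((s : ℕ) = j ∧ y.1 = b) then (1 : ℝ) else 0)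
      = if s = (⟨j, hj⟩ : Fin M) then (R : ℝ) ^ (M - 1 - j) else 0 := by
    intro s
    rw [Fintype.sum_prod_type]
    by_cases hs : s = (⟨j, hj⟩ : Fin M)
    · subst hs
      cases b <;> simp
    · have : ¬ ((s : ℕ) = j) := fun h => hs (Fin.ext h)
      simp [hs, this]
  rw [Finset.sum_congr rfl (fun s _ => h1 s), Finset.sum_ite_eq', if_pos (Finset.mem_univ _)]

theorem Num.ok (h : Num M R d L' τ (Fintype.card Q) A dp ep δ) : (mkP Q M R d L' A dp).OK M R L' := by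
  have hR1 : (1 : ℝ) ≤ R := by have := h.hR; exact_mod_cast (by omega : 1 ≤ R)
  have hRn : 0 < R := by have := h.hR; omega
  have hL := h.L1
  refine
    { hA := h.A1
      hL := rfl
      hL1 := by omega
      gpM := fun x => x.1.2
      mpos := fun j _ => one_le_pow₀ hR1
      mR := ?_
      hR := hR1
      card := fun j hj b => ?_
      tau := fun j _ => ?_
      th_lt := fun j _ e => Nat.mod_lt _ (by positivity)
      th_cnt := fun j hj v => ?_
      hd := by show (10000 : ℝ) ≤ (d : ℝ); exact_mod_cast h.hd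
      hK := rfl
      hdp := h.dp1
      hdp' := h.dp2 }
  · intro j s hjs hs
    show (R : ℝ) * (R : ℝ) ^ (M - 1 - s) ≤ (R : ℝ) ^ (M - 1 - j)
    rw [← pow_succ']
    exact pow_le_pow_right₀ hR1 (by omega)
  · exact mkP_card hj b
  · show ((R ^ (M - 1 - j) * L' : ℕ) : ℝ) = (R : ℝ) ^ (M - 1 - j) * L'
    push_cast; ring
  · have h2 := count_mod v (by positivity : 0 < R ^ (M - 1 - j) * L') (h.mn j hj)
    have h3 : ∑ e : Q, (if (mkP Q M R d L' A dp).th j e = v then (1 : ℝ) else 0)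
        = ∑ i ∈ Finset.range (Fintype.card Q), (if i % (R ^ (M - 1 - j) * L') = v then (1 : ℝ) else 0) := by
      rw [Finset.sum_range]
      exact Equiv.sum_comp (Fintype.equivFin Q) (fun i : Fin (Fintype.card Q) => if (i : ℕ) % (R ^ (M - 1 - j) * L') = v then (1 : ℝ) else 0)
    rw [h3]
    exact h2

theorem Num.small (h : Num M R d L' τ (Fintype.card Q) A dp ep δ) : (mkP Q M R d L' A dp).Small M R L' ep := by
  have h50 : (100 * L') / 2 = 50 * L' := by omega
  refine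
    { ep0 := h.ep0
      ep1 := h.ep1
      e1 := ?_
      e2 := h.e2
      e3 := ?_
      e4 := h.e4 }
  · show (d : ℝ) * (4 / R) + 1 / 2 ^ ((100 * L') / 2) ≤ ep
    rw [h50]; exact h.e1
  · show 2 * (d : ℝ) * (1 / 2 ^ ((100 * L') / 2)) ≤ ep
    rw [h50]; exact h.e3

/-- The main estimate for the concrete ratchet. -/
theorem Num.main (h : Num M R d L' τ (Fintype.card Q) A dp ep δ) {T : Finset Q} {lev : Q → ℕ}
    (hlamp : LampOK T lev (100 * L') d dp)
    (hball : 4 * (Finset.univ.filter (fun q => lev q ≤ 100 * L')).card ≤ Fintype.card Q) :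
    ∃ site : Ix M R → Q, ∀ t ≤ M * (Fintype.card Q * L'),
      ¬ Mixed (Gp2 T hlamp.one hlamp.inv (mkP Q M R d L' A dp) lev site (20000 * d) (1000 * d)) t := by
  have hM := h.hM
  have hd := h.hd
  have hR := h.hR
  obtain ⟨site, hinj, hsep⟩ := exists_sep (ι := Ix M R) hlamp.gap.1 h.tau1 h.del0 h.del1 h.sepc
  refine ⟨site, fun t ht => ?_⟩
  have hM0 : (0 : ℝ) < M := by exact_mod_cast hM
  have hcorr : CorrOK (mkP Q M R d L' A dp) T lev site M R L' ep (1 / (100 * (d : ℝ))) ((20000 * d : ℕ) : ℝ)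
      (1 / (2 * (d : ℝ) * (1000 * (d : ℝ) * ((20000 * d : ℕ) : ℝ)))) δ (1 / M) τ :=
    { ok := h.ok
      small := h.small
      lamp := hlamp
      sep := hsep
      tau1 := h.tau1
      del0 := h.del0
      del1 := h.del1
      tauQ := by exact_mod_cast h.tauQ
      del := h.del
      hlam := rfl
      hK1 := by show ((20000 * d : ℕ) : ℝ) = 20000 * (d : ℝ); push_cast; ring
      hkap := rfl
      hR8 := by exact_mod_cast (by omega : 8 ≤ R)
      eta := h.eta }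
  have hrec : RecOK (mkP Q M R d L' A dp) M R L' (1 / M) :=
    { M1 := hM
      R2 := by exact_mod_cast hR
      AL := h.AL
      eta0 := by positivity
      etaM := by rw [one_div, inv_mul_cancel₀ hM0.ne']
      L20 := h.L1
      big := by
        intro s hs
        have h2 := h.big s hs
        show 2 * Real.exp (2 * (R : ℝ) ^ (M - 1 - s) * Real.log A) + M * ((R ^ (M - 1 - s) * L' : ℕ) : ℝ)
          ≤ Real.exp (((R ^ (M - 1 - s) * L' : ℕ) : ℝ) / 200)
        push_cast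
        exact h2 }
  have hRpos : 0 < R ^ (M - 1 - (M - 1)) := by positivity
  refine not_mixed hcorr hrec hinj (by show 1000 * (d : ℝ) = ((1000 * d : ℕ) : ℝ); push_cast; ring) (by omega) (by omega) ht
    ?_ (⟨⟨M - 1, by omega⟩, (true, ⟨0, hRpos⟩)⟩ : Ix M R) rfl hball
  show (R : ℝ) ^ (M - 1 - (M - 1)) = 1
  rw [Nat.sub_self, pow_zero]

end Pool.Agent.H984
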