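import Pool.Agent.H984.Fin2

/-!
H984: the parameters exist.
-/

set_option autoImplicit false

open Classical Filter

namespace Pool.Agent.H984

theorem ev_pow {r : ℝ} (hr : 1 < r) (C : ℝ) : ∀ᶠ l : ℕ in atTop, C * (l : ℝ) ^ 2 < r ^ l := by
  have h1 := tendsto_pow_const_div_const_pow_of_one_lt 2 hr
  have h2 : (0 : ℝ) < 1 / (|C| + 1) := by positivity
  have h3 := h1.eventually (gt_mem_nhds h2)
  filter_upwards [h3] with l hl
  have hrl : 0 < r ^ l := by positivity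
  rw [div_lt_div_iff₀ hrl (by positivity)] at hl
  have h4 : C * (l : ℝ) ^ 2 ≤ (|C| + 1) * (l : ℝ) ^ 2 := by
    apply mul_le_mul_of_nonneg_right _ (by positivity)
    have := le_abs_self C; linarith
  linarith

theorem ev_big {m a M : ℝ} (hm : 1 ≤ m) (hM : 0 ≤ M) :
    ∀ᶠ l : ℕ in atTop, 2 * Real.exp (2 * m * Real.log a) + M * (m * l) ≤ Real.exp (m * l / 200) := by
  have hr : 1 < Real.exp (m / 200) := Real.one_lt_exp_iff.mpr (by positivity)
  filter_upwards [ev_pow hr (2 * Real.exp (2 * m * Real.log a) + M * m), eventually_ge_atTop 1] with l hl h1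
  have e1 : Real.exp (m * l / 200) = Real.exp (m / 200) ^ l := by
    rw [← Real.exp_nat_mul]; congr 1; ring
  rw [e1]
  refine le_trans ?_ hl.le
  have h2 : (1 : ℝ) ≤ l := by exact_mod_cast h1
  have h3 : (1 : ℝ) ≤ (l : ℝ) ^ 2 := one_le_pow₀ h2
  have h4 : (l : ℝ) ≤ (l : ℝ) ^ 2 := by nlinarith
  have h5 := Real.exp_pos (2 * m * Real.log a)
  have h6 : 2 * Real.exp (2 * m * Real.log a) * 1 ≤ 2 * Real.exp (2 * m * Real.log a) * (l : ℝ) ^ 2 :=
    mul_le_mul_of_nonneg_left h3 (by positivity)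
  have h7 : (M * m) * (l : ℝ) ≤ (M * m) * (l : ℝ) ^ 2 := mul_le_mul_of_nonneg_left h4 (by positivity)
  linarith

theorem three_quarters (j : ℕ) : (3 / 4 : ℝ) ^ (3 * j) ≤ 1 / 2 ^ j := by
  rw [pow_mul, one_div, ← inv_pow]
  exact pow_le_pow_left₀ (by norm_num) (by norm_num) _

/-- The parameters exist. -/
theorem num_exists {p M : ℕ} (hp : 101 ≤ p) (hM : 1 ≤ M) (k0 : ℕ) :
    ∃ (R L' τ : ℕ) (A ep δ : ℝ), k0 ≤ L' ∧ ∀ n : ℕ, 2 ^ L' ≤ n → n ≤ p ^ (1200 * L') →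
      Num M R (p ^ 2 - 1) L' τ n A (97 / 100 * ((p : ℝ) ^ 2 - p)) ep δ := by
  obtain ⟨d, hd⟩ : ∃ d : ℕ, d = p ^ 2 - 1 := ⟨_, rfl⟩
  have hp2 : 1 ≤ p ^ 2 := Nat.one_le_pow _ _ (by omega)
  have hp3 : 101 * 101 ≤ p ^ 2 := by rw [pow_two]; exact Nat.mul_le_mul hp hp
  have hdN : 10000 ≤ d := by omega
  have hdr : (d : ℝ) = (p : ℝ) ^ 2 - 1 := by
    rw [hd, Nat.cast_sub hp2]; push_cast; ring
  rw [← hd]
  have hpr : (101 : ℝ) ≤ p := by exact_mod_cast hp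
  have hMr : (1 : ℝ) ≤ M := by exact_mod_cast hM
  have hM0 : (0 : ℝ) < M := by linarith
  have hdR : (10000 : ℝ) ≤ d := by exact_mod_cast hdN
  have hd0 : (0 : ℝ) < d := by linarith
  obtain ⟨R, hR⟩ : ∃ R : ℕ, R = 2000 + 100 * M ^ 2 * d := ⟨_, rfl⟩
  have hRr : (R : ℝ) = 2000 + 100 * (M : ℝ) ^ 2 * d := by rw [hR]; push_cast; ring
  have hR0 : (0 : ℝ) < R := by rw [hRr]; positivity
  have hR1 : (1 : ℝ) ≤ R := by rw [hRr]; nlinarith [sq_nonneg (M : ℝ), mul_nonneg (sq_nonneg (M : ℝ)) hd0.le]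
  obtain ⟨c, hc⟩ : ∃ c : ℕ, c = Fintype.card (Ix M R) := ⟨_, rfl⟩
  obtain ⟨ep, hep⟩ : ∃ ep : ℝ, ep = 1 / (8 * (M : ℝ) ^ 2) := ⟨_, rfl⟩
  have hep0 : 0 < ep := by rw [hep]; positivity
  have hM2 : (1 : ℝ) ≤ (M : ℝ) ^ 2 := one_le_pow₀ hMr
  have hep8 : ep ≤ 1 / 8 := by
    rw [hep]; apply one_div_le_one_div_of_le (by norm_num); linarith
  obtain ⟨W, hW⟩ : ∃ W : ℝ, W = ((c : ℝ) + 1) * (3 * d + 1) * (R : ℝ) ^ (M - 1) := ⟨_, rfl⟩
  have hRp : (1 : ℝ) ≤ (R : ℝ) ^ (M - 1) := one_le_pow₀ hR1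
  have hc0 : (0 : ℝ) ≤ c := Nat.cast_nonneg _
  have hW1 : 1 ≤ W := by
    rw [hW]
    have h1 : (1 : ℝ) ≤ ((c : ℝ) + 1) * (3 * d + 1) := by nlinarith
    nlinarith
  obtain ⟨δ, hδ⟩ : ∃ δ : ℝ, δ = ep / W := ⟨_, rfl⟩
  have hδ0 : 0 < δ := by rw [hδ]; positivity
  have hδ1 : δ < 1 := by
    rw [hδ, div_lt_one (by linarith)]; linarith
  have hbig : ∀ᶠ l : ℕ in atTop, ∀ s ∈ Finset.range M, 2 * Real.exp (2 * (R : ℝ) ^ (M - 1 - s) * Real.log (16 * M)) + M * ((R : ℝ) ^ (M - 1 - s) * l)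
      ≤ Real.exp ((R : ℝ) ^ (M - 1 - s) * l / 200) := by
    rw [Filter.eventually_all_finset]
    intro s _
    exact ev_big (one_le_pow₀ hR1) hM0.le
  obtain ⟨l, hl0, hl1, hl2, hl3, hl4, hl5, hl6, hl7, hl8⟩ := ((eventually_ge_atTop k0).and ((eventually_ge_atTop 20).and
    ((eventually_ge_atTop ⌈256 * (M : ℝ) ^ 2 * d⌉₊).and ((ev_pow one_lt_two (16 * (M : ℝ) ^ 2 * d)).and
    ((ev_pow one_lt_two ((R : ℝ) ^ (M - 1))).and ((ev_pow one_lt_two (3 * (2400 * p + 1))).and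
    ((ev_pow one_lt_two (c * (3 * (2400 * p + 1) / δ) ^ 2)).and ((ev_pow one_lt_two (24 * M * c * d)).and
    hbig)))))))).exists
  have hl2' : 256 * (M : ℝ) ^ 2 * d ≤ l := by
    have := Nat.ceil_le.mp hl2; exact this
  have hlr : (1 : ℝ) ≤ l := by exact_mod_cast (by omega : 1 ≤ l)
  have hl0' : (0 : ℝ) < l := by linarith
  have hlsq : (1 : ℝ) ≤ (l : ℝ) ^ 2 := one_le_pow₀ hlr
  have hlsq' : (l : ℝ) ≤ (l : ℝ) ^ 2 := by nlinarith
  have h2l : (0 : ℝ) < 2 ^ l := by positivity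
  have h250 : (2 : ℝ) ^ l ≤ 2 ^ (50 * l) := pow_le_pow_right₀ (by norm_num) (by omega)
  have h2100 : (2 : ℝ) ^ l ≤ 2 ^ (100 * l + 1) := pow_le_pow_right₀ (by norm_num) (by omega)
  -- consequences
  have k3 : 16 * (M : ℝ) ^ 2 * d ≤ 2 ^ l := by
    have : 16 * (M : ℝ) ^ 2 * d * 1 ≤ 16 * (M : ℝ) ^ 2 * d * (l : ℝ) ^ 2 := mul_le_mul_of_nonneg_left hlsq (by positivity)
    linarith
  have k8 : 24 * (M : ℝ) * c * d ≤ 2 ^ l := by
    have : 24 * (M : ℝ) * c * d * 1 ≤ 24 * M * c * d * (l : ℝ) ^ 2 := mul_le_mul_of_nonneg_left hlsq (by positivity)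
    linarith
  have kR : (100 : ℝ) * (M : ℝ) ^ 2 * d ≤ R := by rw [hRr]; linarith
  have kdR : (d : ℝ) / R ≤ 1 / (100 * (M : ℝ) ^ 2) := by
    rw [div_le_div_iff₀ hR0 (by positivity)]; linarith
  have kdl : (d : ℝ) / l ≤ 1 / (256 * (M : ℝ) ^ 2) := by
    rw [div_le_div_iff₀ hl0' (by positivity)]; linarith
  have kd2 : (d : ℝ) / 2 ^ (50 * l) ≤ 1 / (16 * (M : ℝ) ^ 2) := by
    rw [div_le_div_iff₀ (by positivity) (by positivity)]; linarith
  have k12 : (1 : ℝ) / 2 ^ (50 * l) ≤ 1 / (16 * (M : ℝ) ^ 2) := by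
    refine le_trans ?_ kd2
    apply div_le_div_of_nonneg_right _ (by positivity)
    linarith
  obtain ⟨u, hu⟩ : ∃ u : ℝ, u = 1 / (M : ℝ) ^ 2 := ⟨_, rfl⟩
  have hu0 : 0 < u := by rw [hu]; positivity
  have u100 : 1 / (100 * (M : ℝ) ^ 2) = u / 100 := by rw [hu]; field_simp
  have u256 : 1 / (256 * (M : ℝ) ^ 2) = u / 256 := by rw [hu]; field_simp
  have u16 : 1 / (16 * (M : ℝ) ^ 2) = u / 16 := by rw [hu]; field_simp
  have u8 : ep = u / 8 := by rw [hep, hu]; field_simp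
  rw [u100] at kdR
  rw [u256] at kdl
  rw [u16] at kd2 k12
  refine ⟨R, l, 3 * ((2400 * p + 1) * l), 16 * M, ep, δ, hl0, fun n hn1 hn2 => ?_⟩
  have hn1r : (2 : ℝ) ^ l ≤ n := by exact_mod_cast hn1
  refine
    { hM := hM
      hR := by rw [hR]; omega
      hd := hdN
      dp1 := by rw [hdr]; nlinarith
      dp2 := by rw [hdr]; nlinarith
      A1 := by linarith
      L1 := hl1
      mn := fun j hj => ?_
      ep0 := hep0
      ep1 := by linarith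
      e1 := ?_
      e2 := ?_
      e3 := ?_
      e4 := ?_
      tau1 := ?_
      tauQ := ?_
      del0 := hδ0
      del1 := hδ1
      del := ?_
      sepc := ?_
      eta := ?_
      AL := ?_
      big := ?_ }
  · have h1 : (R : ℝ) ^ (M - 1 - j) * l ≤ n := by
      calc (R : ℝ) ^ (M - 1 - j) * l ≤ (R : ℝ) ^ (M - 1) * (l : ℝ) ^ 2 := by
            apply mul_le_mul (pow_le_pow_right₀ hR1 (by omega)) hlsq' hl0'.le (by positivity)
        _ ≤ 2 ^ l := hl4.le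
        _ ≤ n := hn1r
    exact_mod_cast h1
  · have : (d : ℝ) * (4 / R) = 4 * (d / R) := by ring
    rw [this, u8]; linarith
  · have : 2 * (d : ℝ) * (8 / l + 1 / R) = 16 * (d / l) + 2 * (d / R) := by ring
    rw [this, u8]; linarith
  · have : 2 * (d : ℝ) * (1 / 2 ^ (50 * l)) = 2 * (d / 2 ^ (50 * l)) := by ring
    rw [this, u8]; linarith
  · have : (d : ℝ) * (16 / l) = 16 * (d / l) := by ring
    rw [this, u8]; linarith
  · have : 1 ≤ (2400 * p + 1) * l := Nat.mul_pos (by omega) (by omega)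
    omega
  · have h1 : ((3 * ((2400 * p + 1) * l) : ℕ) : ℝ) ≤ n := by
      push_cast
      have h2 : 3 * ((2400 * (p : ℝ) + 1) * l) ≤ 3 * (2400 * p + 1) * (l : ℝ) ^ 2 := by
        have : 3 * (2400 * (p : ℝ) + 1) * l ≤ 3 * (2400 * p + 1) * (l : ℝ) ^ 2 :=
          mul_le_mul_of_nonneg_left hlsq' (by positivity)
        linarith
      linarith
    exact_mod_cast h1
  · rw [← hc, hδ]
    have h1 : ep / W * c * (3 * d) * (R : ℝ) ^ (M - 1) = ep * ((c * (3 * d) * (R : ℝ) ^ (M - 1)) / W) := by ring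
    rw [h1]
    have h2 : (c * (3 * d) * (R : ℝ) ^ (M - 1)) / W ≤ 1 := by
      rw [div_le_one (by linarith), hW]
      apply mul_le_mul_of_nonneg_right _ (by positivity)
      apply mul_le_mul (by linarith) (by linarith) (by positivity) (by positivity)
    calc ep * ((c * (3 * d) * (R : ℝ) ^ (M - 1)) / W) ≤ ep * 1 := mul_le_mul_of_nonneg_left h2 hep0.le
      _ = ep := mul_one _
  · rw [← hc]
    push_cast
    have h1 : (c : ℝ) * (3 * ((2400 * (p : ℝ) + 1) * l) / δ * (3 * ((2400 * (p : ℝ) + 1) * l) / δ))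
        = c * (3 * (2400 * p + 1) / δ) ^ 2 * (l : ℝ) ^ 2 := by ring
    rw [h1]; linarith
  · rw [← hc]
    have h1 : (4 : ℝ) / (16 * M) = 1 / M * (1 / 4) := by field_simp; norm_num
    have h2 : (M : ℝ) * d * (12 / R + 32 / l) ≤ 1 / M * (49 / 200) := by
      have e1 : (M : ℝ) * d * (12 / R + 32 / l) = M * (12 * (d / R) + 32 * (d / l)) := by ring
      rw [e1]
      have e2 : (M : ℝ) * (12 * (d / R) + 32 * (d / l)) ≤ M * (12 * (u / 100) + 32 * (u / 256)) := by gcongr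
      refine e2.trans (le_of_eq ?_)
      rw [hu]; field_simp; norm_num
    have h3 : 2 * (M : ℝ) * ep = 1 / M * (1 / 4) := by rw [hep]; field_simp; norm_num
    have h4 : (3 / 4 : ℝ) ^ (3 * ((2400 * p + 1) * l)) * (n : ℝ) ^ 2 * c * (6 * d) ≤ 1 / M * (1 / 4) := by
      have f1 := three_quarters ((2400 * p + 1) * l)
      have f2 : (n : ℝ) ≤ 2 ^ (1200 * p * l) := by
        have g1 : (n : ℝ) ≤ (p : ℝ) ^ (1200 * l) := by exact_mod_cast hn2
        have g2 : (p : ℝ) ≤ 2 ^ p := by exact_mod_cast Nat.lt_two_pow_self.le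
        calc (n : ℝ) ≤ (p : ℝ) ^ (1200 * l) := g1
          _ ≤ (2 ^ p) ^ (1200 * l) := by gcongr
          _ = 2 ^ (1200 * p * l) := by rw [← pow_mul]; congr 1; ring
      have f3 : (n : ℝ) ^ 2 ≤ 2 ^ (2400 * p * l) := by
        calc (n : ℝ) ^ 2 ≤ (2 ^ (1200 * p * l)) ^ 2 := by gcongr
          _ = 2 ^ (2400 * p * l) := by rw [← pow_mul]; congr 1; ring
      have f4 : (3 / 4 : ℝ) ^ (3 * ((2400 * p + 1) * l)) * (n : ℝ) ^ 2 ≤ 1 / 2 ^ l := by
        calc _ ≤ 1 / 2 ^ ((2400 * p + 1) * l) * (2 : ℝ) ^ (2400 * p * l) := by gcongr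
          _ = 1 / 2 ^ l := by
            have : (2400 * p + 1) * l = 2400 * p * l + l := by ring
            rw [this, pow_add]; field_simp
      calc (3 / 4 : ℝ) ^ (3 * ((2400 * p + 1) * l)) * (n : ℝ) ^ 2 * c * (6 * d) ≤ 1 / 2 ^ l * c * (6 * d) := by gcongr
        _ = (6 * c * d) / 2 ^ l := by ring
        _ ≤ 1 / (4 * M) := by
            rw [div_le_div_iff₀ h2l (by positivity)]; linarith
        _ = 1 / M * (1 / 4) := by field_simp
    have h5 : 0 < 1 / (M : ℝ) := by positivity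
    rw [h1, h3]
    linarith
  · have : 16 * (M : ℝ) ≤ 2 ^ l := by
      refine le_trans ?_ k3
      have g1 : (M : ℝ) ≤ (M : ℝ) ^ 2 := by nlinarith
      have g2 : (M : ℝ) ^ 2 * 1 ≤ (M : ℝ) ^ 2 * d := mul_le_mul_of_nonneg_left (by linarith) (by positivity)
      linarith
    linarith
  · intro s hs
    exact hl8 s (Finset.mem_range.mpr hs)

end Pool.Agent.H984
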