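import Pool.Agent.H984.Tree3

/-!
H984: the spectral gap of the generators, and the lamp group.
-/

set_option autoImplicit false

open Polynomial Matrix
open Pool.Agent.Y171.CE

namespace Pool.Agent.H984

open Classical in
/-- A gap implies generation. -/
theorem Gap.gen {Q : Type} [Group Q] [Fintype Q] {T : Finset Q} (h : Gap T) : Subgroup.closure (T : Set Q) = ⊤ := by
  have hn : (Fintype.card Q : ℝ) ≠ 0 := by exact_mod_cast Fintype.card_ne_zero
  set H := Subgroup.closure (T : Set Q) with hH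
  obtain ⟨c, hc⟩ : ∃ c : ℝ, c = (∑ y : Q, if y ∈ H then (1 : ℝ) else 0) / Fintype.card Q := ⟨_, rfl⟩
  obtain ⟨f, hf⟩ : ∃ f : Q → ℝ, f = fun y => (if y ∈ H then (1 : ℝ) else 0) - c := ⟨_, rfl⟩
  have hfy : ∀ y, f y = (if y ∈ H then (1 : ℝ) else 0) - c := fun y => by rw [hf]
  have h0 : ∑ y, f y = 0 := by
    simp only [hfy, Finset.sum_sub_distrib, Finset.sum_const, Finset.card_univ, nsmul_eq_mul]
    rw [hc]; field_simp; ring
  have hAv : ∀ y, Av T f y = f y := by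
    intro y
    unfold Av
    have : ∀ t ∈ T, f (y * t) = f y := by
      intro t ht
      have ht' : t ∈ H := Subgroup.subset_closure ht
      rw [hfy, hfy]
      have : (y * t ∈ H) ↔ (y ∈ H) := Subgroup.mul_mem_cancel_right H ht'
      simp only [this]
    rw [Finset.sum_congr rfl this, Finset.sum_const, nsmul_eq_mul]
    have : (T.card : ℝ) ≠ 0 := by exact_mod_cast h.1.ne'
    field_simp
  have h1 := h.2 f h0
  simp only [hAv] at h1
  have h2 : ∑ y, (f y) ^ 2 = 0 := by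
    have : 0 ≤ ∑ y, (f y) ^ 2 := Finset.sum_nonneg (fun _ _ => sq_nonneg _)
    linarith
  have h3 : ∀ y, f y = 0 := by
    intro y
    have := (Finset.sum_eq_zero_iff_of_nonneg (fun y _ => sq_nonneg (f y))).mp h2 y (Finset.mem_univ y)
    exact pow_eq_zero_iff (by norm_num) |>.mp this
  have hc1 : c = 1 := by
    have := h3 1
    rw [hfy, if_pos H.one_mem] at this
    linarith
  rw [Subgroup.eq_top_iff']
  intro y
  by_contra hy
  have := h3 y
  rw [hfy, if_neg hy, hc1] at this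
  norm_num at this

variable {p : ℕ} [Fact p.Prime]
variable {F : Type} [Field F] [Fintype F] [DecidableEq F] [Algebra (ZMod p) F]

theorem gapq : S_GAPQ := by
  have hNil : S_NIL := Pool.Agent.Y495.CE.nil
  have hDg : S_DG := Pool.Agent.Y495.CE.dgs
  have hCsl : S_CSL := Pool.Agent.Y495.CE.csl
  have hDrift : S_DRIFT := Pool.Agent.Y344.CE.Drift.drift
  have hPtw : S_PTW := Pool.Agent.Y310.CE.ptw hNil hDg hDrift
  have hNdiv : S_NDIV := Pool.Agent.Y50.CE.ndiv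
  have hCnt : S_CNT := Pool.Agent.Y542.CE.cnt hNdiv
  have hRetp : S_RETP := Pool.Agent.Y629.CE.retp hDg hPtw hCnt
  have hRetq : S_RETQ := Pool.Agent.Y629.CE.retq hRetp
  have hMass : S_MASS := Pool.Agent.Y467.CE.mass
  have hMuq : S_MUQ := Pool.Agent.Y467.CE.muq
  have hSym : S_SYM := Pool.Agent.Y467.CE.sym hNil hMass
  have hSpec : S_SPEC := Pool.Agent.Y249.CE.spec
  have hDimq : S_DIMQ := Pool.Agent.Y286.CE.dimq
  exact Pool.Agent.Y784.CE.gapq hNil hSym hMuq hRetq hCsl hSpec hDimq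

open Classical in
theorem sum_NilT_split {x : F} (hx0 : x ≠ 0) (f : SL2 F → ℝ) (y : SL2 F) :
    ∑ N : NilT p, f (y * st x N) = f y + ∑ t ∈ TT p x, f (y * t) := by
  unfold TT
  rw [Finset.sum_image (fun _ _ _ _ h => st_inj hx0 h), ← Finset.add_sum_erase _ _ (Finset.mem_univ (n0 : NilT p)),
    Finset.filter_ne', st_n0, mul_one]

theorem T_muQ (x : F) (f : SL2 F → ℝ) (y : SL2 F) :
    Pool.Agent.Y171.CE.T (muQ (p := p) x) (fun y => (f y : ℂ)) y = (((1 / (p : ℝ) ^ 2) * ∑ N : NilT p, f (y * st x N) : ℝ) : ℂ) := by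
  unfold Pool.Agent.Y171.CE.T muQ
  have h1 : ∀ s : SL2 F, ((∑ N : NilT p, if st x N = s then 1 / (p : ℝ) ^ 2 else 0 : ℝ) : ℂ) * (f (y * s) : ℂ)
      = ((∑ N : NilT p, if st x N = s then 1 / (p : ℝ) ^ 2 * f (y * s) else 0 : ℝ) : ℂ) := by
    intro s
    rw [← Complex.ofReal_mul, Finset.sum_mul]
    congr 1
    apply Finset.sum_congr rfl; intro N _
    split_ifs <;> simp
  rw [Finset.sum_congr rfl (fun s _ => h1 s), ← Complex.ofReal_sum, Finset.sum_comm, Finset.mul_sum]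
  congr 1
  apply Finset.sum_congr rfl; intro N _
  rw [Finset.sum_ite_eq, if_pos (Finset.mem_univ _)]

theorem sq_real (f : SL2 F → ℝ) : Pool.Agent.Y171.CE.sq (fun y => (f y : ℂ)) = ∑ y, (f y) ^ 2 := by
  unfold Pool.Agent.Y171.CE.sq
  apply Finset.sum_congr rfl; intro y _
  rw [Complex.norm_real, Real.norm_eq_abs, sq_abs]

theorem gap_TT {x : F} (hx0 : x ≠ 0) (hp : 2 ^ 1000 ≤ p)
    (hgap : ∀ f : SL2 F → ℂ, ∑ M, f M = 0 → Pool.Agent.Y171.CE.sq (Pool.Agent.Y171.CE.T (muQ (p := p) x) f) ≤ (1 / 2) ^ 600 * Pool.Agent.Y171.CE.sq f) :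
    Gap (TT p x) := by
  have hp32 : 2 ^ 5 ≤ p := le_trans (Nat.pow_le_pow_right (by norm_num) (by norm_num)) hp
  clear hp
  have hcard : ((TT p x).card : ℝ) = (p : ℝ) ^ 2 - 1 := by
    rw [card_TT hx0, Nat.cast_sub]
    · push_cast; ring
    · exact Nat.one_le_pow _ _ (by omega)
  have hbig : (32 : ℝ) ≤ p := by exact_mod_cast hp32
  have hd : (0 : ℝ) < (p : ℝ) ^ 2 - 1 := by nlinarith
  refine ⟨?_, ?_⟩
  · have : (0 : ℝ) < (TT p x).card := by rw [hcard]; exact hd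
    exact_mod_cast this
  · intro f hf
    have hfc : ∑ M, (fun y => (f y : ℂ)) M = 0 := by
      simp only
      rw [← Complex.ofReal_sum, hf]; simp
    have h1 := hgap (fun y => (f y : ℂ)) hfc
    rw [sq_real] at h1
    obtain ⟨g, hg⟩ : ∃ g : SL2 F → ℝ, g = fun y => (1 / (p : ℝ) ^ 2) * ∑ N : NilT p, f (y * st x N) := ⟨_, rfl⟩
    have h2 : Pool.Agent.Y171.CE.T (muQ (p := p) x) (fun y => (f y : ℂ)) = fun y => (g y : ℂ) := by
      ext y; rw [T_muQ, hg]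
    rw [h2, sq_real] at h1
    have hp0 : (0 : ℝ) < (p : ℝ) ^ 2 := by positivity
    have h3 : ∀ y, Av (TT p x) f y = ((p : ℝ) ^ 2 * g y - f y) / ((p : ℝ) ^ 2 - 1) := by
      intro y
      unfold Av
      rw [hcard, hg]
      simp only
      rw [sum_NilT_split hx0]
      congr 1
      field_simp; ring
    have h4 : ∀ y, (Av (TT p x) f y) ^ 2 ≤ (2 * (p : ℝ) ^ 4 * (g y) ^ 2 + 2 * (f y) ^ 2) / ((p : ℝ) ^ 2 - 1) ^ 2 := by
      intro y
      rw [h3, div_pow]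
      apply div_le_div_of_nonneg_right _ (by positivity)
      nlinarith [sq_nonneg ((p : ℝ) ^ 2 * g y + f y)]
    refine (Finset.sum_le_sum (fun y _ => h4 y)).trans ?_
    rw [← Finset.sum_div, Finset.sum_add_distrib, ← Finset.mul_sum, ← Finset.mul_sum]
    have hS : 0 ≤ ∑ y, (f y) ^ 2 := Finset.sum_nonneg (fun _ _ => sq_nonneg _)
    rw [div_le_iff₀ (by positivity)]
    have h5 : (p : ℝ) ^ 4 / 2 ≤ ((p : ℝ) ^ 2 - 1) ^ 2 := by
      have h51 : (4 : ℝ) ≤ (p : ℝ) ^ 2 := by nlinarith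
      have h52 : (p : ℝ) ^ 4 = (p : ℝ) ^ 2 * (p : ℝ) ^ 2 := by ring
      rw [h52]; nlinarith
    have h6 : (1 / 2 : ℝ) ^ 600 ≤ 1 / 128 := by
      calc (1 / 2 : ℝ) ^ 600 ≤ (1 / 2) ^ 7 := pow_le_pow_of_le_one (by norm_num) (by norm_num) (by norm_num)
        _ = 1 / 128 := by norm_num
    have h7 : ∑ y, (g y) ^ 2 ≤ 1 / 128 * ∑ y, (f y) ^ 2 := h1.trans (mul_le_mul_of_nonneg_right h6 hS)
    have hp4 : (0 : ℝ) ≤ (p : ℝ) ^ 4 := by positivity
    have h8 : 2 * (p : ℝ) ^ 4 * ∑ y, (g y) ^ 2 ≤ (p : ℝ) ^ 4 / 64 * ∑ y, (f y) ^ 2 := by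
      calc 2 * (p : ℝ) ^ 4 * ∑ y, (g y) ^ 2 ≤ 2 * (p : ℝ) ^ 4 * (1 / 128 * ∑ y, (f y) ^ 2) := by gcongr
        _ = _ := by ring
    have h9 : (2 : ℝ) ≤ (p : ℝ) ^ 4 / 64 := by
      have : (32 : ℝ) ^ 4 ≤ (p : ℝ) ^ 4 := by gcongr
      linarith
    have h10 : 2 * ∑ y, (f y) ^ 2 ≤ (p : ℝ) ^ 4 / 64 * ∑ y, (f y) ^ 2 := mul_le_mul_of_nonneg_right h9 hS
    have h11 : (1 / 16 : ℝ) * ((p : ℝ) ^ 4 / 2) * ∑ y, (f y) ^ 2 ≤ 1 / 16 * ((p : ℝ) ^ 2 - 1) ^ 2 * ∑ y, (f y) ^ 2 := by gcongr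
    linarith

open Classical in
/-- The lamp group. -/
theorem lamp_SL2 {k : ℕ} {x : F} (hx : Good p k F x) {L : ℕ} (hL : 2 * L + 2 < k) (hp : 2 ^ 1000 ≤ p)
    (hgap : ∀ f : SL2 F → ℂ, ∑ M, f M = 0 → Pool.Agent.Y171.CE.sq (Pool.Agent.Y171.CE.T (muQ (p := p) x) f) ≤ (1 / 2) ^ 600 * Pool.Agent.Y171.CE.sq f) :
    LampOK (TT p x) (lv2 p x L) L ((p : ℝ) ^ 2 - 1) (97 / 100 * ((p : ℝ) ^ 2 - p)) := by
  have hx0 : x ≠ 0 := Good.x_ne hx (by omega)
  have hp1 : 1 ≤ p := le_trans Nat.one_le_two_pow hp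
  refine
    { gap := gap_TT hx0 hp hgap
      one := TT_one hx0
      inv := fun t ht => TT_inv ht
      card := ?_
      lev1 := lv2_one x L
      step := ?_
      top := lv2_top x L
      down_le := fun h => ?_
      down_ge := fun h h0 hl => ?_
      up_ge := fun h hl => ?_ }
  · rw [card_TT hx0, Nat.cast_sub (Nat.one_le_pow _ _ hp1)]; push_cast; ring
  · intro h t ht
    obtain ⟨N, _, rfl⟩ := mem_TT.mp ht
    exact lv2_step x L h N
  · convert TT_down_le hx hL h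
  · convert TT_down_ge h0 hl
  · apply mul_le_mul_of_nonneg_left _ (by norm_num)
    have h1 := TT_up_ge hx hL hx0 hl
    have h2 : ((p ^ 2 - p : ℕ) : ℝ) = (p : ℝ) ^ 2 - p := by
      rw [Nat.cast_sub (Nat.le_self_pow (by norm_num) p)]; push_cast; ring
    rw [← h2]
    exact_mod_cast h1

end Pool.Agent.H984
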