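import Pool.Agent.H984.Upper

/-!
H984: mixing of the lamplighter graph.
-/

set_option autoImplicit false

open Classical

namespace Pool.Agent.H984

variable {Q : Type} [Group Q] [Fintype Q]
variable {T : Finset Q} {h1 : (1 : Q) ∉ T} {hinv : ∀ t ∈ T, t⁻¹ ∈ T}

/-- The factor of one lamp. -/
noncomputable def wS (S : Finset Q) (g : Q → Q) (z q : Q) : ℝ :=
  if z ∈ S then ((if q = g z then 1 else 0) - 1 / (Fintype.card Q : ℝ)) else 1 / (Fintype.card Q : ℝ)

/-- The component of a point mass in the sector of `S`. -/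
noncomputable def DS (S : Finset Q) (v : LV Q) (u : LV Q) : ℝ :=
  (if u.2.1 = v.2.1 then 1 else 0) * (if u.2.2 = v.2.2 then 1 else 0) * ∏ z, wS S v.1 z (u.1 z)

theorem prod_wS_update (S : Finset Q) (g f : Q → Q) (x q : Q) :
    ∏ z, wS S g z (Function.update f x q z) = wS S g x q * ∏ z ∈ Finset.univ.erase x, wS S g z (f z) := by
  rw [← Finset.mul_prod_erase Finset.univ _ (Finset.mem_univ x)]
  rw [Function.update_self]
  congr 1
  apply Finset.prod_congr rfl; intro z hz
  rw [Function.update_of_ne (Finset.ne_of_mem_erase hz)]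

theorem DS_HS (S : Finset Q) (v : LV Q) : HS S (DS S v) := by
  have hn : (Fintype.card Q : ℝ) ≠ 0 := by exact_mod_cast Fintype.card_ne_zero
  constructor
  · intro x hx f y e
    have e0 : ∀ q, DS S v (Function.update f x q, y, e) = ((if y = v.2.1 then 1 else 0) * (if e = v.2.2 then 1 else 0)
        * ∏ z ∈ Finset.univ.erase x, wS S v.1 z (f z)) * wS S v.1 x q := by
      intro q; unfold DS; simp only; rw [prod_wS_update]; ring
    simp only [e0]
    rw [← Finset.mul_sum]
    have : ∑ q, wS S v.1 x q = 0 := by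
      unfold wS
      simp only [hx, if_true]
      rw [Finset.sum_sub_distrib, Finset.sum_ite_eq', if_pos (Finset.mem_univ _), Finset.sum_const, Finset.card_univ, nsmul_eq_mul]
      field_simp; ring
    rw [this]; ring
  · intro x hx f q y e
    unfold DS
    congr 1
    have h2 := prod_wS_update S v.1 f x q
    have h3 := prod_wS_update S v.1 f x (f x)
    rw [Function.update_eq_self] at h3
    simp only
    rw [h2, h3]
    congr 1
    unfold wS; simp [hx]

theorem sum_DS (v u : LV Q) : ∑ S : Finset Q, DS S v u = if u = v then 1 else 0 := by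
  unfold DS
  rw [← Finset.mul_sum]
  have h2 : ∑ S : Finset Q, ∏ z, wS S v.1 z (u.1 z) = ∏ z, (((if u.1 z = v.1 z then (1 : ℝ) else 0) - 1 / (Fintype.card Q : ℝ)) + 1 / (Fintype.card Q : ℝ)) := by
    rw [Finset.prod_add]
    rw [Finset.powerset_univ]
    apply Finset.sum_congr rfl; intro S _
    unfold wS
    rw [Finset.prod_ite]
    congr 1
    · apply Finset.prod_congr _ (fun _ _ => rfl)
      ext; simp
    · apply Finset.prod_congr _ (fun _ _ => rfl)
      ext; simp
  rw [h2]
  simp only [sub_add_cancel]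
  obtain ⟨f, y, e⟩ := u
  obtain ⟨g, y', e'⟩ := v
  simp only [Prod.mk.injEq]
  by_cases hy : y = y'
  · by_cases he : e = e'
    · simp only [hy, he, if_true, and_self, and_true, one_mul]
      by_cases hf : f = g
      · simp [hf]
      · rw [if_neg hf]
        obtain ⟨z, hz⟩ := Function.ne_iff.mp hf
        exact Finset.prod_eq_zero (Finset.mem_univ z) (by rw [if_neg hz])
    · simp [he]
  · simp [hy]

theorem nsq_DS (S : Finset Q) (v : LV Q) :
    (Fintype.card Q : ℝ) ^ (Fintype.card Q) * nsq (DS S v) ≤ (Fintype.card Q : ℝ) ^ S.card := by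
  have hn : (0 : ℝ) < Fintype.card Q := by exact_mod_cast Fintype.card_pos
  set n : ℝ := (Fintype.card Q : ℝ) with hn'
  have h2 : nsq (DS S v) = ∑ f : Q → Q, ∏ z, (wS S v.1 z (f z)) ^ 2 := by
    unfold nsq DS
    apply Finset.sum_congr rfl; intro f _
    have h3 : ∀ y e : Q, ((if y = v.2.1 then (1 : ℝ) else 0) * (if e = v.2.2 then 1 else 0) * ∏ z, wS S v.1 z (f z)) ^ 2
        = (if y = v.2.1 then (1 : ℝ) else 0) * ((if e = v.2.2 then 1 else 0) * ∏ z, (wS S v.1 z (f z)) ^ 2) := by
      intro y e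
      rw [Finset.prod_pow]
      split_ifs <;> ring
    simp only [h3]
    have h4 : ∀ y : Q, ∑ e : Q, (if y = v.2.1 then (1 : ℝ) else 0) * ((if e = v.2.2 then 1 else 0) * ∏ z, (wS S v.1 z (f z)) ^ 2)
        = (if y = v.2.1 then (1 : ℝ) else 0) * ∏ z, (wS S v.1 z (f z)) ^ 2 := by
      intro y
      rw [← Finset.mul_sum, ← Finset.sum_mul, Finset.sum_ite_eq', if_pos (Finset.mem_univ _), one_mul]
    rw [Finset.sum_congr rfl (fun y _ => h4 y), ← Finset.sum_mul, Finset.sum_ite_eq', if_pos (Finset.mem_univ _), one_mul]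
  have h3 : ∑ f : Q → Q, ∏ z, (wS S v.1 z (f z)) ^ 2 = ∏ z, ∑ q, (wS S v.1 z q) ^ 2 := by
    rw [Finset.prod_univ_sum, Fintype.piFinset_univ]
  have h4 : ∀ z, n * ∑ q, (wS S v.1 z q) ^ 2 ≤ if z ∈ S then n else 1 := by
    intro z
    unfold wS
    by_cases hz : z ∈ S
    · simp only [hz, if_true]
      have h5 : ∀ q, ((if q = v.1 z then (1 : ℝ) else 0) - 1 / n) ^ 2 = (if q = v.1 z then (1 : ℝ) else 0) * (1 - 2 / n) + 1 / n ^ 2 := by
        intro q; split_ifs <;> ring
      rw [← hn', Finset.sum_congr rfl (fun q _ => h5 q), Finset.sum_add_distrib, ← Finset.sum_mul, Finset.sum_ite_eq',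
        if_pos (Finset.mem_univ _), Finset.sum_const, Finset.card_univ, nsmul_eq_mul, ← hn']
      have h6 : n * (1 * (1 - 2 / n) + n * (1 / n ^ 2)) = n - 1 := by field_simp; ring
      rw [h6]; linarith
    · simp only [hz, if_false]
      rw [Finset.sum_const, Finset.card_univ, nsmul_eq_mul, ← hn']
      apply le_of_eq; field_simp
  rw [h2, h3]
  have h5 : n ^ (Fintype.card Q) = ∏ _z : Q, n := by rw [Finset.prod_const, Finset.card_univ]
  rw [h5, ← Finset.prod_mul_distrib]
  have h6 : n ^ S.card = ∏ z, (if z ∈ S then n else 1) := by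
    rw [Finset.prod_ite]; simp
  rw [h6]
  apply Finset.prod_le_prod
  · intro z _
    exact mul_nonneg hn.le (Finset.sum_nonneg (fun _ _ => sq_nonneg _))
  · intro z _; exact h4 z

theorem card_LV : (Fintype.card (LV Q) : ℝ) = (Fintype.card Q : ℝ) ^ (Fintype.card Q) * (Fintype.card Q : ℝ) ^ 2 := by
  rw [Fintype.card_prod, Fintype.card_prod, Fintype.card_fun]
  push_cast; ring

/-- Sum of squares of a sum. -/
theorem titu {α : Type} [Fintype α] {κ : Type} (s : Finset κ) (a : κ → α → ℝ) (b : κ → ℝ) (N : ℝ) (hN : 0 ≤ N)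
    (hb : ∀ i ∈ s, 0 < b i) (h : ∀ i ∈ s, N * ∑ u, (a i u) ^ 2 ≤ (b i) ^ 2) :
    N * ∑ u, (∑ i ∈ s, a i u) ^ 2 ≤ (∑ i ∈ s, b i) ^ 2 := by
  have hB : 0 ≤ ∑ i ∈ s, b i := Finset.sum_nonneg (fun i hi => (hb i hi).le)
  have h2 : ∀ u, (∑ i ∈ s, a i u) ^ 2 ≤ (∑ i ∈ s, b i) * ∑ i ∈ s, (a i u) ^ 2 / b i := by
    intro u
    apply Finset.sum_sq_le_sum_mul_sum_of_sq_le_mul
    · intro i hi; exact (hb i hi).le
    · intro i hi; exact div_nonneg (sq_nonneg _) (hb i hi).le
    · intro i hi
      have := (hb i hi).ne'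
      apply le_of_eq; field_simp
  calc N * ∑ u, (∑ i ∈ s, a i u) ^ 2 ≤ N * ∑ u, (∑ i ∈ s, b i) * ∑ i ∈ s, (a i u) ^ 2 / b i := by
        apply mul_le_mul_of_nonneg_left _ hN
        exact Finset.sum_le_sum (fun u _ => h2 u)
    _ = (∑ i ∈ s, b i) * ∑ i ∈ s, (N * ∑ u, (a i u) ^ 2) / b i := by
        rw [← Finset.mul_sum, Finset.sum_comm]
        simp only [← Finset.sum_div]
        rw [mul_left_comm, Finset.mul_sum]
        congr 1
        apply Finset.sum_congr rfl; intro i _; ring
    _ ≤ (∑ i ∈ s, b i) * ∑ i ∈ s, b i := by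
        apply mul_le_mul_of_nonneg_left _ hB
        apply Finset.sum_le_sum; intro i hi
        rw [div_le_iff₀ (hb i hi)]
        have := h i hi
        rw [sq] at this; exact this
    _ = _ := by ring

theorem wpow_sum {V : Type} [Fintype V] (G : SimpleGraph V) {κ : Type} (s : Finset κ) (t : ℕ) (F : κ → V → ℝ) (x : V) :
    wpow G t (fun y => ∑ i ∈ s, F i y) x = ∑ i ∈ s, wpow G t (F i) x := by
  simp only [wpow_eq, Finset.mul_sum]
  exact Finset.sum_comm

theorem nsq_eq (F : LV Q → ℝ) : nsq F = ∑ u, (F u) ^ 2 := by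
  unfold nsq
  rw [Fintype.sum_prod_type]
  apply Finset.sum_congr rfl; intro f _
  rw [Fintype.sum_prod_type]

/-- The `L²` distance to equilibrium. -/
theorem l2_small (hg : Gap T) (hn6 : 6 ≤ Fintype.card Q) {t : ℕ}
    (ht : 288 * (Fintype.card Q : ℝ) * Real.log (Fintype.card Q) ≤ t) (v : LV Q) :
    (Fintype.card (LV Q) : ℝ) * ∑ u, (wpow (lampG T h1 hinv) t (fun u => if u = v then 1 else 0) u - 1 / (Fintype.card (LV Q) : ℝ)) ^ 2 ≤ 1 / 4 := by
  have hn : (6 : ℝ) ≤ Fintype.card Q := by exact_mod_cast hn6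
  set n : ℝ := (Fintype.card Q : ℝ) with hn'
  have hn0 : 0 < n := by linarith
  set N : ℝ := (Fintype.card (LV Q) : ℝ) with hN'
  have hN : N = n ^ (Fintype.card Q) * n ^ 2 := card_LV
  have hN0 : 0 < N := by rw [hN]; positivity
  have hN1 : 1 ≤ N := by
    rw [hN]
    have a1 : (1 : ℝ) ≤ n ^ (Fintype.card Q) := one_le_pow₀ (by linarith)
    have a2 : (1 : ℝ) ≤ n ^ 2 := one_le_pow₀ (by linarith)
    nlinarith
  have hlog : 0 ≤ Real.log n := Real.log_nonneg (by linarith)
  -- decay factor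
  have decay : ∀ x : ℝ, 0 ≤ x → x ≤ 1 → ∀ k : ℕ, 8 * k * Real.log n ≤ x * t → (1 - x) ^ t ≤ (1 / n ^ 8) ^ k := by
    intro x hx hx1 k hk
    have h2 : (1 - x) ^ t ≤ Real.exp (-(x * t)) := by
      have : Real.exp (-(x * t)) = Real.exp (-x) ^ t := by rw [← Real.exp_nat_mul]; congr 1; ring
      rw [this]
      apply pow_le_pow_left₀ (by linarith)
      have := Real.add_one_le_exp (-x); linarith
    refine h2.trans ?_
    have h3 : (1 / n ^ 8) ^ k = Real.exp (-(8 * k * Real.log n)) := by
      rw [Real.exp_neg]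
      have : Real.exp (8 * k * Real.log n) = n ^ (8 * k) := by
        have h4 : (8 : ℝ) * k * Real.log n = ((8 * k : ℕ) : ℝ) * Real.log n := by push_cast; ring
        rw [h4, Real.exp_nat_mul, Real.exp_log hn0]
      rw [this, one_div, inv_pow, ← pow_mul]
    rw [h3]
    exact Real.exp_le_exp.mpr (by linarith)
  set F0 : LV Q → ℝ := fun u => DS ∅ v u - 1 / N with hF0
  have hF0HS : HS ∅ F0 := by
    constructor
    · intro x hx; simp at hx
    · intro x hx f q y e
      rw [hF0]
      simp only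
      rw [(DS_HS ∅ v).const x hx]
  have hprod : ∀ f : Q → Q, ∏ z, wS ∅ v.1 z (f z) = 1 / n ^ (Fintype.card Q) := by
    intro f
    unfold wS
    simp only [Finset.notMem_empty, if_false]
    rw [Finset.prod_const, Finset.card_univ, ← hn', one_div, inv_pow, one_div]
  have hF00 : ∀ f, ∑ y, ∑ e, F0 (f, y, e) = 0 := by
    intro f
    rw [hF0]
    simp only [Finset.sum_sub_distrib, Finset.sum_const, Finset.card_univ, nsmul_eq_mul]
    unfold DS
    simp only [hprod]
    have h4 : ∀ y : Q, ∑ e : Q, (if y = v.2.1 then (1 : ℝ) else 0) * (if e = v.2.2 then 1 else 0) * (1 / n ^ (Fintype.card Q))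
        = (if y = v.2.1 then (1 : ℝ) else 0) * (1 / n ^ (Fintype.card Q)) := by
      intro y
      rw [← Finset.sum_mul, ← Finset.mul_sum, Finset.sum_ite_eq', if_pos (Finset.mem_univ _), mul_one]
    rw [Finset.sum_congr rfl (fun y _ => h4 y), ← Finset.sum_mul, Finset.sum_ite_eq', if_pos (Finset.mem_univ _), ← hn', hN]
    field_simp; ring
  set a : Finset Q → LV Q → ℝ := fun S u => if S = ∅ then wpow (lampG T h1 hinv) t F0 u else wpow (lampG T h1 hinv) t (DS S v) u with ha
  set b : Finset Q → ℝ := fun S => if S = ∅ then 1 / n else n * (1 / n ^ 3) ^ S.card with hb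
  have hb0 : ∀ S ∈ (Finset.univ : Finset (Finset Q)), 0 < b S := by
    intro S _; rw [hb]; simp only; split_ifs <;> positivity
  have hab : ∀ S ∈ (Finset.univ : Finset (Finset Q)), N * ∑ u, (a S u) ^ 2 ≤ (b S) ^ 2 := by
    intro S _
    rw [ha, hb]
    simp only
    by_cases hS : S = ∅
    · simp only [hS, if_true]
      rw [← nsq_eq (fun u => wpow (lampG T h1 hinv) t F0 u)]
      have h2 := hF0HS.pow0 (h1 := h1) (hinv := hinv) hg t hF00
      have h3 : (1 - 1 / 36 : ℝ) ^ t ≤ (1 / n ^ 8) ^ 1 := by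
        apply decay (1 / 36) (by norm_num) (by norm_num) 1
        have : (1 : ℝ) ≤ n := by linarith
        have h5 : 8 * 36 * Real.log n ≤ 288 * n * Real.log n := by nlinarith
        push_cast; linarith
      rw [pow_one] at h3
      have h4 : N * nsq F0 ≤ 4 * n ^ 2 := by
        have h5 : nsq F0 ≤ 2 * nsq (DS ∅ v) + 2 / N := by
          rw [nsq_eq, nsq_eq]
          have h6 : ∀ u, (F0 u) ^ 2 ≤ 2 * (DS ∅ v u) ^ 2 + 2 / N ^ 2 := by
            intro u; rw [hF0]; simp only
            have : (2 : ℝ) / N ^ 2 = 2 * (1 / N) ^ 2 := by ring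
            rw [this]
            nlinarith [sq_nonneg (DS ∅ v u + 1 / N)]
          refine (Finset.sum_le_sum (fun u _ => h6 u)).trans ?_
          rw [Finset.sum_add_distrib, ← Finset.mul_sum, Finset.sum_const, Finset.card_univ, nsmul_eq_mul, ← hN']
          apply le_of_eq; congr 1; field_simp
        have h7 := nsq_DS ∅ v
        simp only [Finset.card_empty, pow_zero] at h7
        have h8 : N * nsq (DS ∅ v) ≤ n ^ 2 := by
          rw [hN]
          calc n ^ (Fintype.card Q) * n ^ 2 * nsq (DS ∅ v) = n ^ 2 * (n ^ (Fintype.card Q) * nsq (DS ∅ v)) := by ring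
            _ ≤ n ^ 2 * 1 := by gcongr
            _ = _ := mul_one _
        have h9 : (1 : ℝ) ≤ n ^ 2 := one_le_pow₀ (by linarith)
        calc N * nsq F0 ≤ N * (2 * nsq (DS ∅ v) + 2 / N) := mul_le_mul_of_nonneg_left h5 hN0.le
          _ = 2 * (N * nsq (DS ∅ v)) + 2 := by field_simp
          _ ≤ _ := by linarith
      calc N * nsq (fun u => wpow (lampG T h1 hinv) t F0 u) ≤ N * ((1 - 1 / 36) ^ t * nsq F0) := mul_le_mul_of_nonneg_left h2 hN0.le
        _ = (1 - 1 / 36) ^ t * (N * nsq F0) := by ring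
        _ ≤ (1 / n ^ 8) * (4 * n ^ 2) := by
            apply mul_le_mul h3 h4 _ (by positivity)
            exact mul_nonneg hN0.le (nsq_nonneg _)
        _ ≤ (1 / n) ^ 2 := by
            rw [div_mul_eq_mul_div, one_mul, div_pow, one_pow, div_le_div_iff₀ (by positivity) (by positivity)]
            have h10 : (4 : ℝ) ≤ n ^ 4 := by
              calc (4 : ℝ) ≤ 6 ^ 4 := by norm_num
                _ ≤ n ^ 4 := by gcongr
            calc 4 * n ^ 2 * n ^ 2 = 4 * n ^ 4 := by ring
              _ ≤ n ^ 4 * n ^ 4 := by gcongr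
              _ = 1 * n ^ 8 := by ring
    · simp only [hS, if_false]
      have hSc : 0 < S.card := Finset.card_pos.mpr (Finset.nonempty_iff_ne_empty.mpr hS)
      rw [← nsq_eq (fun u => wpow (lampG T h1 hinv) t (DS S v) u)]
      have h2 := (DS_HS S v).pow (h1 := h1) (hinv := hinv) hg hSc t
      have hSn : (S.card : ℝ) ≤ n := by rw [hn']; exact_mod_cast Finset.card_le_univ S
      have h3 : (1 - (S.card : ℝ) / (36 * n)) ^ t ≤ (1 / n ^ 8) ^ S.card := by
        apply decay _ (by positivity) _ S.card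
        · rw [div_mul_eq_mul_div, le_div_iff₀ (by positivity)]
          have : (S.card : ℝ) * (288 * n * Real.log n) ≤ S.card * t := mul_le_mul_of_nonneg_left ht (Nat.cast_nonneg _)
          linarith
        · rw [div_le_one (by positivity)]; linarith
      have h4 : N * nsq (DS S v) ≤ n ^ 2 * n ^ S.card := by
        rw [hN]
        calc n ^ (Fintype.card Q) * n ^ 2 * nsq (DS S v) = n ^ 2 * (n ^ (Fintype.card Q) * nsq (DS S v)) := by ring
          _ ≤ _ := mul_le_mul_of_nonneg_left (nsq_DS S v) (by positivity)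
      calc N * nsq (fun u => wpow (lampG T h1 hinv) t (DS S v) u)
          ≤ N * ((1 - (S.card : ℝ) / (36 * n)) ^ t * nsq (DS S v)) := mul_le_mul_of_nonneg_left h2 hN0.le
        _ = (1 - (S.card : ℝ) / (36 * n)) ^ t * (N * nsq (DS S v)) := by ring
        _ ≤ (1 / n ^ 8) ^ S.card * (n ^ 2 * n ^ S.card) := by
            apply mul_le_mul h3 h4 _ (by positivity)
            exact mul_nonneg hN0.le (nsq_nonneg _)
        _ = n ^ 2 * (1 / n ^ 7) ^ S.card := by
            have : (1 / n ^ 8) ^ S.card * n ^ S.card = (1 / n ^ 7) ^ S.card := by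
              rw [← mul_pow]; congr 1; field_simp
            calc _ = n ^ 2 * ((1 / n ^ 8) ^ S.card * n ^ S.card) := by ring
              _ = _ := by rw [this]
        _ ≤ n ^ 2 * (1 / n ^ 6) ^ S.card := by
            gcongr
            · linarith
            · norm_num
        _ = (n * (1 / n ^ 3) ^ S.card) ^ 2 := by
            rw [mul_pow, ← pow_mul, mul_comm S.card 2, pow_mul]
            congr 2
            field_simp
  have h5 := titu Finset.univ a b N hN0.le hb0 hab
  have h6 : ∑ S, b S ≤ 1 / 2 := by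
    have h7 : ∑ S : Finset Q, (n * (1 / n ^ 3) ^ S.card) = n * (1 + 1 / n ^ 3) ^ (Fintype.card Q) := by
      rw [← Finset.mul_sum]
      congr 1
      have := Finset.prod_add (fun _ : Q => 1 / n ^ 3) (fun _ => (1 : ℝ)) Finset.univ
      simp only [Finset.prod_const, one_pow, mul_one, Finset.card_univ, Finset.powerset_univ] at this
      rw [← this, add_comm]
    have h8 : ∑ S, b S = ∑ S : Finset Q, (n * (1 / n ^ 3) ^ S.card) + (1 / n - n) := by
      rw [hb, ← Finset.add_sum_erase _ _ (Finset.mem_univ (∅ : Finset Q)),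
        ← Finset.add_sum_erase _ (fun S : Finset Q => n * (1 / n ^ 3) ^ S.card) (Finset.mem_univ (∅ : Finset Q))]
      simp only [if_true, Finset.card_empty, pow_zero, mul_one]
      have h9 : ∑ S ∈ Finset.univ.erase (∅ : Finset Q), (if S = ∅ then 1 / n else n * (1 / n ^ 3) ^ S.card)
          = ∑ S ∈ Finset.univ.erase (∅ : Finset Q), n * (1 / n ^ 3) ^ S.card := by
        apply Finset.sum_congr rfl; intro S hS
        rw [if_neg (Finset.ne_of_mem_erase hS)]
      rw [h9]; ring
    rw [h8, h7]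
    have h9 : (1 + 1 / n ^ 3) ^ (Fintype.card Q) ≤ Real.exp (1 / n ^ 2) := by
      have : Real.exp (1 / n ^ 2) = Real.exp (1 / n ^ 3) ^ (Fintype.card Q) := by
        rw [← Real.exp_nat_mul]; congr 1; rw [← hn']; field_simp
      rw [this]
      apply pow_le_pow_left₀ (by positivity)
      have := Real.add_one_le_exp (1 / n ^ 3); linarith
    have h10 : Real.exp (1 / n ^ 2) ≤ 1 + 2 * (1 / n ^ 2) := by
      have hx : 1 / n ^ 2 ≤ 1 / 36 := by
        apply one_div_le_one_div_of_le (by norm_num); nlinarith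
      have hx0 : 0 < 1 / n ^ 2 := by positivity
      set x := 1 / n ^ 2
      have h11 := Real.add_one_le_exp (-x)
      rw [Real.exp_neg] at h11
      have h12 : 0 < 1 - x := by linarith
      have h13 : Real.exp x ≤ 1 / (1 - x) := by
        rw [le_div_iff₀ h12]
        have h14 : (1 - x) ≤ (Real.exp x)⁻¹ := by linarith
        calc Real.exp x * (1 - x) ≤ Real.exp x * (Real.exp x)⁻¹ := by gcongr
          _ = 1 := mul_inv_cancel₀ (Real.exp_pos x).ne'
      refine h13.trans ?_
      rw [div_le_iff₀ h12]; nlinarith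
    have h11 : n * (1 + 1 / n ^ 3) ^ (Fintype.card Q) ≤ n * (1 + 2 * (1 / n ^ 2)) := by
      apply mul_le_mul_of_nonneg_left (h9.trans h10) hn0.le
    have h12 : n * (1 + 2 * (1 / n ^ 2)) = n + 2 / n := by field_simp
    have h13 : 1 / n ≤ 1 / 6 := one_div_le_one_div_of_le (by norm_num) hn
    have h14 : 2 / n = 2 * (1 / n) := by ring
    linarith
  have h7 : ∀ u, ∑ S, a S u = wpow (lampG T h1 hinv) t (fun u => if u = v then 1 else 0) u - 1 / N := by
    intro u
    have hdeg : ∀ x, 0 < (lampG T h1 hinv).degree x := by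
      intro x
      have h8 := lamp_deg (h1 := h1) (hinv := hinv) x
      have h9 : (0 : ℝ) < (lampG T h1 hinv).degree x := by
        rw [h8]; have := hg.1; positivity
      exact_mod_cast h9
    have h8 : (fun u : LV Q => if u = v then (1 : ℝ) else 0) = fun u => ∑ S : Finset Q, DS S v u := by
      ext u; rw [sum_DS]
    rw [h8, wpow_sum]
    rw [← Finset.add_sum_erase _ _ (Finset.mem_univ (∅ : Finset Q)),
        ← Finset.add_sum_erase _ (fun S : Finset Q => wpow (lampG T h1 hinv) t (DS S v) u) (Finset.mem_univ (∅ : Finset Q))]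
    have h9 : ∑ S ∈ Finset.univ.erase (∅ : Finset Q), a S u = ∑ S ∈ Finset.univ.erase (∅ : Finset Q), wpow (lampG T h1 hinv) t (DS S v) u := by
      apply Finset.sum_congr rfl; intro S hS
      rw [ha]; simp only; rw [if_neg (Finset.ne_of_mem_erase hS)]
    rw [h9]
    have h10 : a ∅ u = wpow (lampG T h1 hinv) t (DS ∅ v) u - 1 / N := by
      rw [ha]; simp only [if_true]
      have h11 : F0 = fun u => 1 * DS ∅ v u + (-(1 / N)) * 1 := by ext u; rw [hF0]; ring
      rw [h11, wpow_lin _ t (DS ∅ v) (fun _ => 1), wpow_one _ hdeg]; ring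
    rw [h10]; ring
  simp only [h7] at h5
  refine h5.trans ?_
  have h8 : 0 ≤ ∑ S, b S := Finset.sum_nonneg (fun S hS => (hb0 S hS).le)
  nlinarith

/-- From `L²` to uniform mixing on a regular graph. -/
theorem mixed_of_l2 {V : Type} [Fintype V] (G : SimpleGraph V) {D : ℝ} (hD : 0 < D) (hreg : ∀ x, (G.degree x : ℝ) = D) {t : ℕ}
    (hl : ∀ v, (Fintype.card V : ℝ) * ∑ u, (wpow G t (fun u => if u = v then 1 else 0) u - 1 / (Fintype.card V : ℝ)) ^ 2 ≤ 1 / 4) :
    Mixed G (2 * t) := by
  intro x y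
  obtain ⟨N, hN'⟩ : ∃ N : ℝ, N = (Fintype.card V : ℝ) := ⟨_, rfl⟩
  have : Nonempty V := ⟨x⟩
  have hN0 : 0 < N := by rw [hN']; exact_mod_cast Fintype.card_pos
  have hdeg : ∀ x, 0 < G.degree x := by
    intro x
    have h9 : (0 : ℝ) < G.degree x := by rw [hreg]; exact hD
    exact_mod_cast h9
  have hpi : statLaw G y = 1 / N := by
    rw [statLaw_eq]
    simp only [hreg, Finset.sum_const, Finset.card_univ, nsmul_eq_mul]
    rw [← hN']; field_simp
  have hsymm1 : (lazyWalk G).transpose = lazyWalk G := by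
    ext a b
    rw [Matrix.transpose_apply]
    unfold lazyWalk
    rw [Matrix.of_apply, Matrix.of_apply, hreg, hreg]
    congr 1
    · by_cases h : a = b
      · rw [if_pos h, if_pos h.symm]
      · rw [if_neg h, if_neg (fun h' => h h'.symm)]
    · by_cases h : G.Adj a b
      · rw [if_pos h, if_pos h.symm]
      · rw [if_neg h, if_neg (fun h' => h h'.symm)]
  have hsymm : ∀ a b, (lazyWalk G ^ t) a b = (lazyWalk G ^ t) b a := by
    intro a b
    have h2 : (lazyWalk G ^ t).transpose = lazyWalk G ^ t := by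
      rw [Matrix.transpose_pow, hsymm1]
    calc (lazyWalk G ^ t) a b = (lazyWalk G ^ t).transpose b a := rfl
      _ = _ := by rw [h2]
  have hker : ∀ a b, (lazyWalk G ^ t) a b = wpow G t (fun u => if u = b then 1 else 0) a := by
    intro a b
    rw [wpow_eq]; simp
  have hrow : ∀ a, ∑ b, (lazyWalk G ^ t) a b = 1 := by
    intro a
    have h2 := wpow_one G hdeg t a
    rw [wpow_eq] at h2
    simpa using h2
  obtain ⟨p, hp⟩ : ∃ p : V → V → ℝ, p = fun v u => (lazyWalk G ^ t) u v - 1 / N := ⟨_, rfl⟩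
  have hl2 : ∀ v, N * ∑ u, (p v u) ^ 2 ≤ 1 / 4 := by
    intro v
    have h2 := hl v
    simp only [← hker, ← hN'] at h2
    rw [hp]; exact h2
  have hprod : (lazyWalk G ^ (2 * t)) x y - 1 / N = ∑ z, p x z * p y z := by
    rw [two_mul, pow_add, Matrix.mul_apply, hp]
    simp only
    have h2 : ∀ z, ((lazyWalk G ^ t) z x - 1 / N) * ((lazyWalk G ^ t) z y - 1 / N)
        = (lazyWalk G ^ t) x z * (lazyWalk G ^ t) z y
          - 1 / N * (lazyWalk G ^ t) x z - 1 / N * (lazyWalk G ^ t) y z + 1 / N ^ 2 := by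
      intro z
      rw [hsymm z x, hsymm y z]; ring
    rw [Finset.sum_congr rfl (fun z _ => h2 z), Finset.sum_add_distrib, Finset.sum_sub_distrib, Finset.sum_sub_distrib,
      ← Finset.mul_sum, ← Finset.mul_sum, hrow, hrow, Finset.sum_const, Finset.card_univ, nsmul_eq_mul, ← hN']
    field_simp; ring
  have h3 : (lazyWalk G ^ (2 * t)) x y / statLaw G y - 1 = N * ∑ z, p x z * p y z := by
    rw [hpi, ← hprod]; field_simp
  rw [h3, abs_mul, abs_of_pos hN0]
  have h4 : |∑ z, p x z * p y z| ≤ (∑ z, (p x z) ^ 2 + ∑ z, (p y z) ^ 2) / 2 := by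
    rw [← Finset.sum_add_distrib, Finset.sum_div]
    refine (Finset.abs_sum_le_sum_abs _ _).trans (Finset.sum_le_sum (fun z _ => ?_))
    rw [abs_le]
    constructor <;> nlinarith [sq_nonneg (p x z - p y z), sq_nonneg (p x z + p y z)]
  calc N * |∑ z, p x z * p y z| ≤ N * ((∑ z, (p x z) ^ 2 + ∑ z, (p y z) ^ 2) / 2) := mul_le_mul_of_nonneg_left h4 hN0.le
    _ = (N * ∑ z, (p x z) ^ 2 + N * ∑ z, (p y z) ^ 2) / 2 := by ring
    _ ≤ 1 / 4 := by linarith [hl2 x, hl2 y]

/-- The mixing bound for the lamplighter graph. -/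
theorem lamp_mixed (hg : Gap T) (hn6 : 6 ≤ Fintype.card Q) {t : ℕ}
    (ht : 288 * (Fintype.card Q : ℝ) * Real.log (Fintype.card Q) ≤ t) : Mixed (lampG T h1 hinv) (2 * t) := by
  have hd : (0 : ℝ) < 3 * T.card := by have := hg.1; positivity
  refine mixed_of_l2 (lampG T h1 hinv) hd (fun x => lamp_deg x) (fun v => ?_)
  have h2 := l2_small (h1 := h1) (hinv := hinv) hg hn6 ht v
  convert h2 using 6
  funext u
  by_cases h : u = v
  · rw [if_pos h, if_pos h]
  · rw [if_neg h, if_neg h]

end Pool.Agent.H984
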