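import Pool.Agent.H984.Fin3
import Pool.Agent.H984.Upper2
import Pool.Agent.H984.GapC

/-!
H984: the counterexample graphs.
-/

set_option autoImplicit false

open Classical
open Pool.Agent.Y171.CE

namespace Pool.Agent.H984

/-- The combination of the two estimates for one lamp group. -/
theorem pair {Q : Type} [Group Q] [Fintype Q] {M R d L' τ : ℕ} {A dp ep δ : ℝ}
    (h : Num M R d L' τ (Fintype.card Q) A dp ep δ) {T : Finset Q} {lev : Q → ℕ}
    (hlamp : LampOK T lev (100 * L') d dp)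
    (hball : 4 * (Finset.univ.filter (fun q => lev q ≤ 100 * L')).card ≤ Fintype.card Q)
    (hn6 : 6 ≤ Fintype.card Q) {c : ℝ} (hlog : Real.log (Fintype.card Q) ≤ c * L') :
    ∃ (V V' : Type) (_ : Fintype V) (_ : Fintype V') (G : SimpleGraph V) (G' : SimpleGraph V') (f : V → V'),
      G.Connected ∧ G'.Connected ∧ VertexTransitive G ∧ (∀ x, G.degree x = 3 * d) ∧
      (∀ x, G'.degree x ≤ 60000000 * d ^ 3) ∧ IsQI 1 1 G G' f ∧
      Mixed G (tInf G) ∧ Mixed G' (tInf G') ∧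
      (tInf G : ℝ) ≤ (576 * c + 2) * (Fintype.card Q * L') ∧ M * (Fintype.card Q * L') < tInf G' := by
  obtain ⟨site, hsite⟩ := h.main hlamp hball
  have hd : T.card = d := by have := hlamp.card; exact_mod_cast this
  have hd0 := h.hd
  have hTpos : 0 < T.card := hlamp.gap.1
  obtain ⟨t0, ht0⟩ := Finset.card_pos.mp hTpos
  have hG : (lampG T hlamp.one hlamp.inv).Connected := lamp_connected hlamp.gap.gen
  have hall : ∀ u : LV Q, ∃ v, (lampG T hlamp.one hlamp.inv).Adj u v ∧ allE site u v :=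
    fun u => ⟨(u.1, u.2.1 * t0, u.2.2), Or.inl ⟨t0, ht0, rfl⟩, Or.inl rfl⟩
  have i : Fin (20000 * d) × Fin (1000 * d) := (⟨0, by omega⟩, ⟨0, by omega⟩)
  have hdegG : ∀ x, (lampG T hlamp.one hlamp.inv).degree x = 3 * d := by
    intro x
    have h2 := lamp_deg (h1 := hlamp.one) (hinv := hlamp.inv) x
    rw [hd] at h2
    exact_mod_cast h2
  have hG' : (Gp2 T hlamp.one hlamp.inv (mkP Q M R d L' A dp) lev site (20000 * d) (1000 * d)).Connected :=
    blow_connected _ hG _ _ _ _ _ _ ⟨i⟩ hall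
  have hdegpos : ∀ v, 0 < (Gp2 T hlamp.one hlamp.inv (mkP Q M R d L' A dp) lev site (20000 * d) (1000 * d)).degree v :=
    fun v => deg_pos' hTpos (by omega) (by omega) v
  have hL := h.L1
  have hLr : (1 : ℝ) ≤ L' := by exact_mod_cast (by omega : 1 ≤ L')
  have hnr : (6 : ℝ) ≤ Fintype.card Q := by exact_mod_cast hn6
  refine ⟨LV Q, LV Q × (Fin (20000 * d) × Fin (1000 * d)), inferInstance, inferInstance, lampG T hlamp.one hlamp.inv,
    Gp2 T hlamp.one hlamp.inv (mkP Q M R d L' A dp) lev site (20000 * d) (1000 * d), fun v => (v, i),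
    hG, hG', lamp_transitive, hdegG, ?_, blow_qi _ hG _ _ _ _ _ _ i hall, ?_, ?_, ?_, ?_⟩
  · intro x
    have h2 := (deg_bounds (T := T) (h1 := hlamp.one) (hinv := hlamp.inv) (P := mkP Q M R d L' A dp) (lev := lev) (site := site)
      (K1 := 20000 * d) (K := 1000 * d) (by omega) (by omega) x).2
    rw [hd] at h2
    have h3 : ((Gp2 T hlamp.one hlamp.inv (mkP Q M R d L' A dp) lev site (20000 * d) (1000 * d)).degree x : ℝ)
        ≤ ((60000000 * d ^ 3 : ℕ) : ℝ) := by
      refine h2.trans (le_of_eq ?_)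
      push_cast; ring
    exact_mod_cast h3
  · exact Nat.sInf_mem (exists_mixed _ hG (fun x => by rw [hdegG]; omega))
  · exact Nat.sInf_mem (exists_mixed _ hG' hdegpos)
  · have h4 : Mixed (lampG T hlamp.one hlamp.inv) (2 * ⌈288 * (Fintype.card Q : ℝ) * Real.log (Fintype.card Q)⌉₊) :=
      lamp_mixed hlamp.gap hn6 (Nat.le_ceil _)
    have h5 := tInf_le _ h4
    have h6 : (tInf (lampG T hlamp.one hlamp.inv) : ℝ) ≤ 2 * (⌈288 * (Fintype.card Q : ℝ) * Real.log (Fintype.card Q)⌉₊ : ℝ) := by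
      exact_mod_cast h5
    have hlog0 : 0 ≤ Real.log (Fintype.card Q) := Real.log_nonneg (by linarith)
    have h7 : (⌈288 * (Fintype.card Q : ℝ) * Real.log (Fintype.card Q)⌉₊ : ℝ) ≤ 288 * (Fintype.card Q : ℝ) * Real.log (Fintype.card Q) + 1 :=
      (Nat.ceil_lt_add_one (by positivity)).le
    have h8 : 288 * (Fintype.card Q : ℝ) * Real.log (Fintype.card Q) ≤ 288 * (Fintype.card Q : ℝ) * (c * L') :=
      mul_le_mul_of_nonneg_left hlog (by positivity)
    have h9 : (1 : ℝ) ≤ Fintype.card Q * L' := by nlinarith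
    calc (tInf (lampG T hlamp.one hlamp.inv) : ℝ) ≤ 2 * (288 * (Fintype.card Q : ℝ) * (c * L') + 1) := by linarith
      _ = 576 * c * (Fintype.card Q * L') + 2 * 1 := by ring
      _ ≤ 576 * c * (Fintype.card Q * L') + 2 * (Fintype.card Q * L') := by linarith
      _ = _ := by ring
  · exact lt_tInf _ hG' hdegpos hsite

/-- The main theorem. -/
theorem main : ∃ d D : ℕ, ∀ C : ℝ, ∃ (V V' : Type) (_ : Fintype V) (_ : Fintype V') (G : SimpleGraph V) (G' : SimpleGraph V')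
    (f : V → V'), G.Connected ∧ G'.Connected ∧ VertexTransitive G ∧ (∀ x, G.degree x = d) ∧ (∀ x, G'.degree x ≤ D) ∧
      IsQI 1 1 G G' f ∧ Mixed G (tInf G) ∧ Mixed G' (tInf G') ∧ C * tInf G < tInf G' := by
  obtain ⟨p, hp, hprime⟩ := Nat.exists_infinite_primes (2 ^ 1000)
  have : Fact p.Prime := ⟨hprime⟩
  have hp101 : 101 ≤ p := by
    have h2 : 2 ^ 7 ≤ 2 ^ 1000 := Nat.pow_le_pow_right (by norm_num) (by norm_num)
    have h3 := h2.trans hp
    omega
  have hp2 : 1 ≤ p ^ 2 := Nat.one_le_pow _ _ (by omega)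
  refine ⟨3 * (p ^ 2 - 1), 60000000 * (p ^ 2 - 1) ^ 3, fun C => ?_⟩
  obtain ⟨k0, hk0⟩ := gapq p hp
  obtain ⟨lp, hlp⟩ : ∃ lp : ℝ, lp = Real.log p := ⟨_, rfl⟩
  have hlp0 : 0 ≤ lp := by rw [hlp]; apply Real.log_nonneg; exact_mod_cast (by omega : 1 ≤ p)
  obtain ⟨M, hM⟩ := exists_nat_gt (max (C * (576 * (1200 * lp) + 2)) 1)
  have hM1 : 1 ≤ M := by
    have : (1 : ℝ) < M := lt_of_le_of_lt (le_max_right _ _) hM
    exact_mod_cast this.le
  obtain ⟨R, L', τ, A, ep, δ, hk, hnum⟩ := num_exists hp101 hM1 (max k0 20)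
  have hL20 : 20 ≤ L' := le_trans (le_max_right _ _) hk
  have hkk : k0 ≤ 400 * L' := by
    have := le_trans (le_max_left k0 20) hk
    omega
  obtain ⟨F, _, _, _, _, x, hx⟩ := Pool.Agent.Y495.CE.ex p (400 * L') (by omega)
  have hgap := hk0 (400 * L') hkk ⟨200 * L', by ring⟩ F x hx
  obtain ⟨hc1, hc2, _⟩ := Pool.Agent.Y495.CE.csl F
  have hcF : Fintype.card F ^ 3 = p ^ (1200 * L') := by
    rw [hx.card, ← pow_mul]; congr 1; ring
  rw [hcF] at hc1 hc2
  have hn1 : 2 ^ L' ≤ Fintype.card (SL2 F) := by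
    have h2 : 2 * 2 ^ L' ≤ p ^ (1200 * L') := by
      calc 2 * 2 ^ L' = 2 ^ (L' + 1) := by ring
        _ ≤ 2 ^ (1200 * L') := Nat.pow_le_pow_right (by norm_num) (by omega)
        _ ≤ p ^ (1200 * L') := Nat.pow_le_pow_left (by omega) _
    omega
  have hn6 : 6 ≤ Fintype.card (SL2 F) := by
    have h2 : 2 ^ 20 ≤ 2 ^ L' := Nat.pow_le_pow_right (by norm_num) hL20
    omega
  have hN := hnum (Fintype.card (SL2 F)) hn1 hc2
  have hlamp := lamp_SL2 (L := 100 * L') hx (by omega) hp hgap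
  have hdcast : (p : ℝ) ^ 2 - 1 = ((p ^ 2 - 1 : ℕ) : ℝ) := by rw [Nat.cast_sub hp2]; push_cast; ring
  rw [hdcast] at hlamp
  have hball : 4 * (Finset.univ.filter (fun q => lv2 p x (100 * L') q ≤ 100 * L')).card ≤ Fintype.card (SL2 F) := by
    have h2 := ball_card (p := p) (x := x) (L := 100 * L')
    have h3 : (p ^ 2) ^ (100 * L') = p ^ (200 * L') := by rw [← pow_mul]; congr 1; ring
    rw [h3] at h2
    have h4 : 8 * p ^ (200 * L') ≤ p ^ (1200 * L') := by
      have h5 : p ^ (1200 * L') = p ^ (1000 * L') * p ^ (200 * L') := by rw [← pow_add]; congr 1; ring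
      rw [h5]
      apply Nat.mul_le_mul_right
      calc 8 ≤ p := by omega
        _ = p ^ 1 := (pow_one p).symm
        _ ≤ p ^ (1000 * L') := Nat.pow_le_pow_right (by omega) (by omega)
    omega
  have hlog : Real.log (Fintype.card (SL2 F)) ≤ (1200 * lp) * L' := by
    have h2 : ((Fintype.card (SL2 F) : ℕ) : ℝ) ≤ (p : ℝ) ^ (1200 * L') := by exact_mod_cast hc2
    have h3 := Real.log_le_log (by exact_mod_cast (by omega : 0 < Fintype.card (SL2 F))) h2
    rw [Real.log_pow] at h3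
    rw [hlp]
    push_cast at h3
    linarith
  obtain ⟨V, V', iV, iV', G, G', f, g1, g2, g3, g4, g5, g6, g7, g8, g9, g10⟩ := pair hN hlamp hball hn6 hlog
  refine ⟨V, V', iV, iV', G, G', f, g1, g2, g3, g4, g5, g6, g7, g8, ?_⟩
  have hnL : (0 : ℝ) < Fintype.card (SL2 F) * L' := by
    have : (0 : ℝ) < Fintype.card (SL2 F) := by exact_mod_cast (by omega : 0 < Fintype.card (SL2 F))
    have h2 : (0 : ℝ) < L' := by exact_mod_cast (by omega : 0 < L')
    positivity
  have g10' : (M : ℝ) * (Fintype.card (SL2 F) * L') < tInf G' := by exact_mod_cast g10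
  refine lt_of_le_of_lt ?_ g10'
  rcases le_or_gt C 0 with hC | hC
  · have h2 : C * (tInf G : ℝ) ≤ 0 := mul_nonpos_of_nonpos_of_nonneg hC (Nat.cast_nonneg _)
    have h3 : 0 ≤ (M : ℝ) * (Fintype.card (SL2 F) * L') := by positivity
    linarith
  · have h2 : C * (tInf G : ℝ) ≤ C * ((576 * (1200 * lp) + 2) * (Fintype.card (SL2 F) * L')) := mul_le_mul_of_nonneg_left g9 hC.le
    have h3 : C * (576 * (1200 * lp) + 2) ≤ M := le_trans (le_max_left _ _) hM.le
    have h4 := mul_le_mul_of_nonneg_right h3 hnL.le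
    linarith

end Pool.Agent.H984
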