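import Pool.Agent.H984.Corr
import Pool.Agent.H984.Blow

/-!
H984: the lamplighter graph, its weighted blow-up, and the one-step inequality for the corrected potential.
-/

set_option autoImplicit false

open Classical

namespace Pool.Agent.H984

variable {Q : Type} [Group Q] [Fintype Q]

/-- Lamp configurations, position, dither. -/
abbrev LV (Q : Type) : Type := (Q → Q) × Q × Q

/-- Move the lamp at `y`. -/
noncomputable def mv (f : Q → Q) (y t : Q) : Q → Q := Function.update f y (f y * t)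

omit [Fintype Q] in
theorem mv_mv (f : Q → Q) (y t : Q) : mv (mv f y t) y t⁻¹ = f := by
  unfold mv
  rw [Function.update_idem]
  simp

omit [Fintype Q] in
theorem mv_ne (f : Q → Q) (y : Q) {t : Q} (ht : t ≠ 1) : mv f y t ≠ f := by
  intro h
  have := congrFun h y
  unfold mv at this
  simp at this
  exact ht this

/-- The lamplighter graph over `Q` with lamps in `Q` and a dither in `Q`. -/
def lampG (T : Finset Q) (h1 : (1 : Q) ∉ T) (hinv : ∀ t ∈ T, t⁻¹ ∈ T) : SimpleGraph (LV Q) where
  Adj u v := (∃ t ∈ T, v = (u.1, u.2.1 * t, u.2.2)) ∨ (∃ t ∈ T, v = (u.1, u.2.1, u.2.2 * t))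
    ∨ (∃ t ∈ T, v = (mv u.1 u.2.1 t, u.2.1, u.2.2))
  symm := ⟨by
    rintro ⟨f, y, e⟩ v (⟨t, ht, rfl⟩ | ⟨t, ht, rfl⟩ | ⟨t, ht, rfl⟩)
    · exact Or.inl ⟨t⁻¹, hinv t ht, by simp⟩
    · exact Or.inr (Or.inl ⟨t⁻¹, hinv t ht, by simp⟩)
    · exact Or.inr (Or.inr ⟨t⁻¹, hinv t ht, by simp only; rw [mv_mv]⟩)⟩
  loopless := ⟨by
    rintro ⟨f, y, e⟩ (⟨t, ht, h⟩ | ⟨t, ht, h⟩ | ⟨t, ht, h⟩)
    · have h2 : t = 1 := by simpa using h
      exact h1 (h2 ▸ ht)
    · have h2 : t = 1 := by simpa using h
      exact h1 (h2 ▸ ht)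
    · have h2 : f = mv f y t := by simpa using h
      exact mv_ne f y (fun h3 => h1 (h3 ▸ ht)) h2.symm⟩

variable {T : Finset Q} {h1 : (1 : Q) ∉ T} {hinv : ∀ t ∈ T, t⁻¹ ∈ T}

/-- Sums over neighbours. -/
theorem lamp_sum (F : LV Q → ℝ) (u : LV Q) :
    (∑ v, if (lampG T h1 hinv).Adj u v then F v else 0)
      = ∑ t ∈ T, F (u.1, u.2.1 * t, u.2.2) + ∑ t ∈ T, F (u.1, u.2.1, u.2.2 * t)
        + ∑ t ∈ T, F (mv u.1 u.2.1 t, u.2.1, u.2.2) := by
  obtain ⟨f, y, e⟩ := u
  simp only
  have hne : ∀ t ∈ T, t ≠ 1 := fun t ht h => h1 (h ▸ ht)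
  rw [← Finset.sum_filter]
  have hset : Finset.univ.filter (fun v => (lampG T h1 hinv).Adj (f, y, e) v)
      = (T.image (fun t => ((f, y * t, e) : LV Q)) ∪ T.image (fun t => ((f, y, e * t) : LV Q)))
        ∪ T.image (fun t => ((mv f y t, y, e) : LV Q)) := by
    ext v
    simp only [Finset.mem_filter, Finset.mem_univ, true_and, Finset.mem_union, Finset.mem_image]
    constructor
    · rintro (⟨t, ht, rfl⟩ | ⟨t, ht, rfl⟩ | ⟨t, ht, rfl⟩)
      · exact Or.inl (Or.inl ⟨t, ht, rfl⟩)
      · exact Or.inl (Or.inr ⟨t, ht, rfl⟩)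
      · exact Or.inr ⟨t, ht, rfl⟩
    · rintro ((⟨t, ht, rfl⟩ | ⟨t, ht, rfl⟩) | ⟨t, ht, rfl⟩)
      · exact Or.inl ⟨t, ht, rfl⟩
      · exact Or.inr (Or.inl ⟨t, ht, rfl⟩)
      · exact Or.inr (Or.inr ⟨t, ht, rfl⟩)
  rw [hset, Finset.sum_union, Finset.sum_union, Finset.sum_image, Finset.sum_image, Finset.sum_image]
  · intro t _ t' _ h
    have h2 : mv f y t = mv f y t' := by simpa using h
    have := congrFun h2 y
    unfold mv at this
    simpa using this
  · intro t _ t' _ h; simpa using h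
  · intro t _ t' _ h; simpa using h
  · rw [Finset.disjoint_left]
    intro v hv hv'
    obtain ⟨t, ht, rfl⟩ := Finset.mem_image.mp hv
    obtain ⟨t', ht', h⟩ := Finset.mem_image.mp hv'
    have h2 : t = 1 := by
      have := congrArg (fun v : LV Q => v.2.1) h
      simpa using this.symm
    exact hne t ht h2
  · rw [Finset.disjoint_left]
    intro v hv hv'
    obtain ⟨t', ht', h⟩ := Finset.mem_image.mp hv'
    rcases Finset.mem_union.mp hv with hv | hv
    · obtain ⟨t, ht, rfl⟩ := Finset.mem_image.mp hv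
      have := congrArg (fun v : LV Q => v.2.1) h
      exact hne t ht (by simpa using this.symm)
    · obtain ⟨t, ht, rfl⟩ := Finset.mem_image.mp hv
      have := congrArg (fun v : LV Q => v.2.2) h
      exact hne t ht (by simpa using this.symm)

theorem lamp_deg (u : LV Q) : ((lampG T h1 hinv).degree u : ℝ) = 3 * T.card := by
  rw [← deg_sum, lamp_sum]
  simp; ring

/-- Vertex-transitivity. -/
theorem lamp_transitive : VertexTransitive (lampG T h1 hinv) := by
  rintro ⟨f0, x0, e0⟩ ⟨f1, x1, e1⟩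
  set a := x1 * x0⁻¹ with ha
  set b := e1 * e0⁻¹ with hb
  -- lamp multipliers
  let c : Q → Q := fun z => f1 z * (f0 (a⁻¹ * z))⁻¹
  let F : LV Q ≃ LV Q :=
    { toFun := fun u => (fun z => c z * u.1 (a⁻¹ * z), a * u.2.1, b * u.2.2)
      invFun := fun u => (fun z => (c (a * z))⁻¹ * u.1 (a * z), a⁻¹ * u.2.1, b⁻¹ * u.2.2)
      left_inv := by
        rintro ⟨f, y, e⟩
        simp
      right_inv := by
        rintro ⟨f, y, e⟩
        simp }
  have hF : ∀ u v, (lampG T h1 hinv).Adj u v → (lampG T h1 hinv).Adj (F u) (F v) := by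
    rintro ⟨f, y, e⟩ v (⟨t, ht, rfl⟩ | ⟨t, ht, rfl⟩ | ⟨t, ht, rfl⟩)
    · exact Or.inl ⟨t, ht, by simp [F, mul_assoc]⟩
    · exact Or.inr (Or.inl ⟨t, ht, by simp [F, mul_assoc]⟩)
    · refine Or.inr (Or.inr ⟨t, ht, ?_⟩)
      show ((fun z => c z * (mv f y t) (a⁻¹ * z), a * y, b * e) : LV Q) = (mv (fun z => c z * f (a⁻¹ * z)) (a * y) t, a * y, b * e)
      congr 1
      ext z
      unfold mv
      by_cases hz : z = a * y
      · subst hz; simp [mul_assoc]
      · have : a⁻¹ * z ≠ y := fun h => hz (by rw [← h]; simp)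
        rw [Function.update_of_ne this, Function.update_of_ne hz]
  have hF' : ∀ u v, (lampG T h1 hinv).Adj u v → (lampG T h1 hinv).Adj (F.symm u) (F.symm v) := by
    rintro ⟨f, y, e⟩ v (⟨t, ht, rfl⟩ | ⟨t, ht, rfl⟩ | ⟨t, ht, rfl⟩)
    · exact Or.inl ⟨t, ht, by simp [F, mul_assoc]⟩
    · exact Or.inr (Or.inl ⟨t, ht, by simp [F, mul_assoc]⟩)
    · refine Or.inr (Or.inr ⟨t, ht, ?_⟩)
      show ((fun z => (c (a * z))⁻¹ * (mv f y t) (a * z), a⁻¹ * y, b⁻¹ * e) : LV Q)
        = (mv (fun z => (c (a * z))⁻¹ * f (a * z)) (a⁻¹ * y) t, a⁻¹ * y, b⁻¹ * e)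
      congr 1
      ext z
      unfold mv
      by_cases hz : z = a⁻¹ * y
      · subst hz; simp [mul_assoc]
      · have : a * z ≠ y := fun h => hz (by rw [← h]; simp)
        rw [Function.update_of_ne this, Function.update_of_ne hz]
  refine ⟨⟨F, ?_⟩, ?_⟩
  · intro u v
    constructor
    · intro h
      have := hF' _ _ h
      rwa [F.symm_apply_apply, F.symm_apply_apply] at this
    · exact hF u v
  · show ((fun z => c z * f0 (a⁻¹ * z), a * x0, b * e0) : LV Q) = (f1, x1, e1)
    simp [c, ha, hb]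

/-- Connectedness. -/
theorem lamp_connected (hgen : Subgroup.closure (T : Set Q) = ⊤) : (lampG T h1 hinv).Connected := by
  -- reachability by generators
  have gen : ∀ (R : Q → Prop), R 1 → (∀ q, ∀ t ∈ T, R q → R (q * t)) → ∀ q, R q := by
    intro R hR1 hRt q
    have hq : q ∈ Subgroup.closure (T : Set Q) := by rw [hgen]; exact Subgroup.mem_top q
    have key : ∀ q ∈ Subgroup.closure (T : Set Q), ∀ p, R p → R (p * q) := by
      intro q hq
      induction hq using Subgroup.closure_induction with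
      | mem x hx => exact fun p hp => hRt p x hx hp
      | one => intro p hp; rwa [mul_one]
      | mul x y _ _ hx hy => intro p hp; rw [← mul_assoc]; exact hy _ (hx _ hp)
      | inv x _ hx =>
        -- finite group: the inverse is a power
        intro p hp
        have hpow : ∀ n : ℕ, ∀ p, R p → R (p * x ^ n) := by
          intro n; induction n with
          | zero => intro p hp; simpa using hp
          | succ n ih => intro p hp; rw [pow_succ, ← mul_assoc]; exact hx _ (ih p hp)
        have : x⁻¹ = x ^ (orderOf x - 1) := by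
          have h2 := pow_orderOf_eq_one x
          have h3 := orderOf_pos x
          apply inv_eq_of_mul_eq_one_left
          rw [← pow_succ, Nat.sub_add_cancel h3, h2]
        rw [this]; exact hpow _ _ hp
    simpa using key q hq 1 hR1
  have r1 : ∀ (f : Q → Q) (e y y' : Q), (lampG T h1 hinv).Reachable (f, y, e) (f, y', e) := by
    intro f e y y'
    have := gen (fun q => (lampG T h1 hinv).Reachable (f, y, e) (f, y * q, e)) (by rw [mul_one])
      (fun q t ht h => h.trans (SimpleGraph.Adj.reachable (Or.inl ⟨t, ht, by simp only; rw [mul_assoc]⟩))) (y⁻¹ * y')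
    simpa using this
  have r2 : ∀ (f : Q → Q) (y e e' : Q), (lampG T h1 hinv).Reachable (f, y, e) (f, y, e') := by
    intro f y e e'
    have := gen (fun q => (lampG T h1 hinv).Reachable (f, y, e) (f, y, e * q)) (by rw [mul_one])
      (fun q t ht h => h.trans (SimpleGraph.Adj.reachable (Or.inr (Or.inl ⟨t, ht, by simp only; rw [mul_assoc]⟩)))) (e⁻¹ * e')
    simpa using this
  have r3 : ∀ (f : Q → Q) (y e q : Q), (lampG T h1 hinv).Reachable (f, y, e) (Function.update f y q, y, e) := by
    intro f y e q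
    have := gen (fun q => (lampG T h1 hinv).Reachable (f, y, e) (Function.update f y (f y * q), y, e))
      (by rw [mul_one, Function.update_eq_self])
      (fun q t ht h => h.trans (SimpleGraph.Adj.reachable (Or.inr (Or.inr ⟨t, ht, by
        simp only; unfold mv; rw [Function.update_idem]; simp [mul_assoc]⟩)))) ((f y)⁻¹ * q)
    simpa using this
  -- change lamps one by one
  have r4 : ∀ (f g : Q → Q) (y e : Q) (S : Finset Q), (lampG T h1 hinv).Reachable (f, y, e)
      ((fun z => if z ∈ S then g z else f z), y, e) := by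
    intro f g y e S
    induction S using Finset.induction_on with
    | empty => simp
    | insert a S ha ih =>
      have h2 := r1 (fun z => if z ∈ S then g z else f z) e y a
      have h3 := r3 (fun z => if z ∈ S then g z else f z) a e (g a)
      have h4 : Function.update (fun z => if z ∈ S then g z else f z) a (g a) = fun z => if z ∈ insert a S then g z else f z := by
        ext z
        by_cases hz : z = a
        · subst hz; simp
        · rw [Function.update_of_ne hz]; simp [hz]
      rw [h4] at h3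
      have h5 := r1 (fun z => if z ∈ insert a S then g z else f z) e a y
      exact ((ih.trans h2).trans h3).trans h5
  have : Nonempty (LV Q) := ⟨(fun _ => 1, 1, 1)⟩
  refine ⟨?_⟩
  rintro ⟨f, y, e⟩ ⟨g, y', e'⟩
  have a1 := r4 f g y e Finset.univ
  have a2 : (fun z => if z ∈ (Finset.univ : Finset Q) then g z else f z) = g := by ext z; simp
  rw [a2] at a1
  exact (a1.trans (r1 g e y y')).trans (r2 g y' e e')

/-! ### Types of edges -/

variable {ι : Type} [Fintype ι]

/-- The relevant lamps. -/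
def cfg (site : ι → Q) (f : Q → Q) : ι → Q := fun x => f (site x)

omit [Fintype Q] [Fintype ι] in
theorem cfg_mv_site {site : ι → Q} (hinj : Function.Injective site) (f : Q → Q) (x : ι) (t : Q) :
    cfg site (mv f (site x) t) = Function.update (cfg site f) x (cfg site f x * t) := by
  ext z
  unfold cfg mv
  by_cases hz : z = x
  · subst hz; simp
  · rw [Function.update_of_ne (fun h => hz (hinj h)), Function.update_of_ne hz]

omit [Fintype Q] [Fintype ι] in
theorem cfg_mv_off {site : ι → Q} (f : Q → Q) {y : Q} (hy : ∀ x, site x ≠ y) (t : Q) :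
    cfg site (mv f y t) = cfg site f := by
  ext z
  unfold cfg mv
  rw [Function.update_of_ne (hy z)]

/-- Base edges and edges at irrelevant lamps. -/
def allE (site : ι → Q) (u v : LV Q) : Prop := u.1 = v.1 ∨ ∀ x, site x ≠ u.2.1 ∧ site x ≠ v.2.1

/-- The high edges of the ratchet. -/
def RP.hiP (P : RP ι Q) (n : ι → ℕ) (e : Q) (s : ℕ) (b : Bool) : Prop :=
  (P.own n e s ∧ P.par n s b = 0) ∨ (¬ P.own n e s ∧ ∃ j < s, P.ctl n e j ∧ P.par n j false = 0 ∧ P.par n j true = 0)

theorem RP.wt_hiP (P : RP ι Q) (n : ι → ℕ) (e : Q) (s : ℕ) (b : Bool) : P.wt n e s b = if P.hiP n e s b then P.K else 1 := by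
  unfold RP.wt RP.kk
  by_cases h : P.own n e s
  · rw [if_pos h]
    by_cases h2 : P.par n s b = 0
    · rw [if_pos h2, if_pos (show P.hiP n e s b from Or.inl ⟨h, h2⟩)]
    · rw [if_neg h2, if_neg (show ¬ P.hiP n e s b from by
        rintro (⟨_, h3⟩ | ⟨h3, _⟩)
        · exact h2 h3
        · exact h3 h)]
  · rw [if_neg h]
    by_cases h2 : ∃ j < s, P.ctl n e j ∧ P.par n j false = 0 ∧ P.par n j true = 0
    · rw [if_pos h2, if_pos (show P.hiP n e s b from Or.inr ⟨h, h2⟩)]
    · rw [if_neg h2, if_neg (show ¬ P.hiP n e s b from by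
        rintro (⟨h3, _⟩ | ⟨_, h3⟩)
        · exact h h3
        · exact h2 h3)]

/-- High lamp edges. -/
def hiE (P : RP ι Q) (lev : Q → ℕ) (site : ι → Q) (u v : LV Q) : Prop :=
  ∃ x, site x = u.2.1 ∧ site x = v.2.1 ∧ u.2.2 = v.2.2 ∧ lev (u.1 (site x)) ≠ lev (v.1 (site x)) ∧
    P.hiP (fun z => max (lev (u.1 (site z))) (lev (v.1 (site z)))) u.2.2 (P.gp x) (P.bt x)

omit [Fintype Q] [Group Q] [Fintype ι] in
theorem allE_symm (site : ι → Q) (u v : LV Q) (h : allE site u v) : allE site v u :=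
  h.elim (fun h => Or.inl h.symm) (fun h => Or.inr (fun x => ⟨(h x).2, (h x).1⟩))

theorem hiE_symm (P : RP ι Q) (lev : Q → ℕ) (site : ι → Q) (u v : LV Q) (h : hiE P lev site u v) : hiE P lev site v u := by
  obtain ⟨x, h1, h2, h3, h4, h5⟩ := h
  refine ⟨x, h2, h1, h3.symm, h4.symm, ?_⟩
  rw [← h3]
  have : (fun z => max (lev (v.1 (site z))) (lev (u.1 (site z)))) = fun z => max (lev (u.1 (site z))) (lev (v.1 (site z))) := by
    ext z; rw [max_comm]
  rw [this]; exact h5

/-- Weight of lamp edges at sites. -/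
theorem bw_site {P : RP ι Q} {lev : Q → ℕ} {site : ι → Q} (hinj : Function.Injective site) {K1 K : ℕ} (hK : P.K = K)
    (f : Q → Q) (x : ι) (e : Q) {t : Q} (ht : t ≠ 1) :
    bw (allE site) (hiE P lev site) K1 K (f, site x, e) (mv f (site x) t, site x, e) = lw P lev (cfg site f) x t e := by
  unfold bw lw
  have ha : ¬ allE site (f, site x, e) (mv f (site x) t, site x, e) := by
    rintro (h | h)
    · exact mv_ne f (site x) ht h.symm
    · exact (h x).1 rfl
  rw [if_neg ha]
  have hmv : mv f (site x) t (site x) = f (site x) * t := by unfold mv; simp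
  have hvec : (fun z => max (lev (f (site z))) (lev (mv f (site x) t (site z))))
      = Function.update (nc lev (cfg site f)) x (max (lev (cfg site f x)) (lev (cfg site f x * t))) := by
    ext z
    by_cases hz : z = x
    · subst hz; rw [hmv]; simp [cfg]
    · have : mv f (site x) t (site z) = f (site z) := by
        unfold mv; rw [Function.update_of_ne (fun h => hz (hinj h))]
      rw [this, Function.update_of_ne hz, max_self]; rfl
  have hiff : hiE P lev site (f, site x, e) (mv f (site x) t, site x, e) ↔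
      (lev (cfg site f x * t) ≠ lev (cfg site f x) ∧
        P.hiP (Function.update (nc lev (cfg site f)) x (max (lev (cfg site f x)) (lev (cfg site f x * t)))) e (P.gp x) (P.bt x)) := by
    constructor
    · rintro ⟨z, h1, _, _, h4, h5⟩
      have hz : z = x := hinj h1
      subst hz
      simp only at h4 h5
      rw [hmv] at h4
      rw [hvec] at h5
      exact ⟨fun h => h4 h.symm, h5⟩
    · rintro ⟨h4, h5⟩
      refine ⟨x, rfl, rfl, rfl, ?_, ?_⟩
      · simp only; rw [hmv]; exact fun h => h4 h.symm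
      · simp only; rw [hvec]; exact h5
  by_cases hl : lev (cfg site f x * t) = lev (cfg site f x)
  · rw [if_neg (fun h => (hiff.mp h).1 hl), if_pos hl]
  · rw [if_neg hl, RP.wt_hiP]
    by_cases hh : P.hiP (Function.update (nc lev (cfg site f)) x (max (lev (cfg site f x)) (lev (cfg site f x * t)))) e (P.gp x) (P.bt x)
    · rw [if_pos (hiff.mpr ⟨hl, hh⟩), if_pos hh, hK]
    · rw [if_neg (fun h => hh (hiff.mp h).2), if_neg hh]

theorem bw_off {P : RP ι Q} {lev : Q → ℕ} {site : ι → Q} {K1 K : ℕ} (f f' : Q → Q) {y : Q} (hy : ∀ x, site x ≠ y) (e : Q) :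
    bw (allE site) (hiE P lev site) K1 K (f, y, e) (f', y, e) = (K1 : ℝ) * K := by
  unfold bw
  rw [if_pos (show allE site (f, y, e) (f', y, e) from Or.inr (fun x => ⟨hy x, hy x⟩))]

theorem bw_base {P : RP ι Q} {lev : Q → ℕ} {site : ι → Q} {K1 K : ℕ} (f : Q → Q) (y y' e e' : Q) :
    bw (allE site) (hiE P lev site) K1 K (f, y, e) (f, y', e') = (K1 : ℝ) * K := by
  unfold bw
  rw [if_pos (show allE site (f, y, e) (f, y', e') from Or.inl rfl)]

theorem bw_pos {P : RP ι Q} {lev : Q → ℕ} {site : ι → Q} {K1 K : ℕ} (u v : LV Q) :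
    0 ≤ bw (allE site) (hiE P lev site) K1 K u v := by
  unfold bw; split_ifs <;> positivity

theorem bw_le {P : RP ι Q} {lev : Q → ℕ} {site : ι → Q} {K1 K : ℕ} (hK1 : 1 ≤ K1) (hK : 1 ≤ K) (u v : LV Q) :
    bw (allE site) (hiE P lev site) K1 K u v ≤ (K1 : ℝ) * K := by
  have h1 : (1 : ℝ) ≤ K1 := by exact_mod_cast hK1
  have h2 : (1 : ℝ) ≤ K := by exact_mod_cast hK
  unfold bw; split_ifs <;> nlinarith

/-- The second graph. -/
def Gp2 (T : Finset Q) (h1 : (1 : Q) ∉ T) (hinv : ∀ t ∈ T, t⁻¹ ∈ T) (P : RP ι Q) (lev : Q → ℕ) (site : ι → Q) (K1 K : ℕ) :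
    SimpleGraph (LV Q × (Fin K1 × Fin K)) :=
  blow (lampG T h1 hinv) (allE site) (hiE P lev site) (allE_symm site) (hiE_symm P lev site) K1 K

/-- Weighted sums over neighbours. -/
theorem wsum {P : RP ι Q} {lev : Q → ℕ} {site : ι → Q} {K1 K : ℕ} (F : LV Q → ℝ) (f : Q → Q) (y e : Q) :
    (∑ v, if (lampG T h1 hinv).Adj (f, y, e) v then bw (allE site) (hiE P lev site) K1 K (f, y, e) v * F v else 0)
      = (K1 : ℝ) * K * (∑ t ∈ T, F (f, y * t, e) + ∑ t ∈ T, F (f, y, e * t))
        + ∑ t ∈ T, bw (allE site) (hiE P lev site) K1 K (f, y, e) (mv f y t, y, e) * F (mv f y t, y, e) := by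
  rw [lamp_sum (fun v => bw (allE site) (hiE P lev site) K1 K (f, y, e) v * F v)]
  simp only [bw_base]
  rw [← Finset.mul_sum, ← Finset.mul_sum]; ring

theorem wdeg {P : RP ι Q} {lev : Q → ℕ} {site : ι → Q} {K1 K : ℕ} (u : LV Q) :
    (∑ v, if (lampG T h1 hinv).Adj u v then bw (allE site) (hiE P lev site) K1 K u v else 0)
      = (K1 : ℝ) * K * (2 * T.card) + ∑ t ∈ T, bw (allE site) (hiE P lev site) K1 K u (mv u.1 u.2.1 t, u.2.1, u.2.2) := by
  obtain ⟨f, y, e⟩ := u
  have := wsum (T := T) (h1 := h1) (hinv := hinv) (P := P) (lev := lev) (site := site) (K1 := K1) (K := K) (fun _ => 1) f y e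
  simp only [mul_one, Finset.sum_const, nsmul_eq_mul] at this
  rw [this]; ring

theorem wdeg_ge {P : RP ι Q} {lev : Q → ℕ} {site : ι → Q} {K1 K : ℕ} (u : LV Q) :
    (K1 : ℝ) * K * (2 * T.card) ≤ (∑ v, if (lampG T h1 hinv).Adj u v then bw (allE site) (hiE P lev site) K1 K u v else 0) := by
  rw [wdeg]
  have : 0 ≤ ∑ t ∈ T, bw (allE site) (hiE P lev site) K1 K u (mv u.1 u.2.1 t, u.2.1, u.2.2) :=
    Finset.sum_nonneg (fun t _ => bw_pos _ _)
  linarith

theorem wdeg_le {P : RP ι Q} {lev : Q → ℕ} {site : ι → Q} {K1 K : ℕ} (hK1 : 1 ≤ K1) (hK : 1 ≤ K) (u : LV Q) :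
    (∑ v, if (lampG T h1 hinv).Adj u v then bw (allE site) (hiE P lev site) K1 K u v else 0) ≤ (K1 : ℝ) * K * (3 * T.card) := by
  rw [wdeg]
  have : ∑ t ∈ T, bw (allE site) (hiE P lev site) K1 K u (mv u.1 u.2.1 t, u.2.1, u.2.2) ≤ ∑ _t ∈ T, (K1 : ℝ) * K :=
    Finset.sum_le_sum (fun t _ => bw_le hK1 hK _ _)
  rw [Finset.sum_const, nsmul_eq_mul] at this
  linarith

/-- The corrected potential on the graph. -/
noncomputable def Phi (P : RP ι Q) (T : Finset Q) (lev : Q → ℕ) (site : ι → Q) (ep lam kap : ℝ) (τ s : ℕ) (u : LV Q) : ℝ :=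
  Fc P T lev site ep lam kap τ s (cfg site u.1) u.2.1 u.2.2

/-- One step of the walk on the second graph. -/
theorem step {P : RP ι Q} {lev : Q → ℕ} {site : ι → Q} {M : ℕ} {R : ℝ} {L' : ℕ} {ep lam kap δ eta : ℝ} {τ : ℕ} {K1 K : ℕ}
    (h : CorrOK P T lev site M R L' ep lam K1 kap δ eta τ) (heta : 0 ≤ eta) (hinj : Function.Injective site) (hK : P.K = K)
    {s : ℕ} (hs : s < M) (u : LV Q × (Fin K1 × Fin K)) :
    (lazyWalk (Gp2 T h1 hinv P lev site K1 K)).mulVec (fun v => Phi P T lev site ep lam kap τ s v.1) u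
      ≤ Phi P T lev site ep lam kap τ s u.1 * (1 + kap * P.K / Fintype.card Q * (P.m s * (4 * P.d * P.Gf (nc lev (cfg site u.1.1)) s + eta))) := by
  have hn : (0 : ℝ) < Fintype.card Q := by exact_mod_cast Fintype.card_pos
  have hK0 := h.ok.K0
  have hd0 := h.ok.d0
  have hK1pos : (0 : ℝ) < K1 := by rw [h.hK1]; positivity
  have hcard := h.lamp.card
  have hN : 0 < (K1 : ℝ) * K * (2 * T.card) := by rw [hcard, ← hK]; positivity
  have hW := wdeg_ge (T := T) (h1 := h1) (hinv := hinv) (P := P) (lev := lev) (site := site) (K1 := K1) (K := K) u.1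
  unfold Gp2
  rw [blow_step _ _ _ _ _ _ _ _ _ (lt_of_lt_of_le hN hW)]
  set W := ∑ v, if (lampG T h1 hinv).Adj u.1 v then bw (allE site) (hiE P lev site) K1 K u.1 v else 0 with hWdef
  obtain ⟨⟨f, y, e⟩, i⟩ := u
  simp only at *
  set c := cfg site f with hc
  set F := Fc P T lev site ep lam kap τ s with hF
  have e1 : (∑ v, if (lampG T h1 hinv).Adj (f, y, e) v then bw (allE site) (hiE P lev site) K1 K (f, y, e) v
        * (Phi P T lev site ep lam kap τ s v - Phi P T lev site ep lam kap τ s (f, y, e)) else 0)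
      ≤ (Pb T ^ τ) (uf P T lev site ep lam s c) y e := by
    rw [wsum (fun v => Phi P T lev site ep lam kap τ s v - Phi P T lev site ep lam kap τ s (f, y, e))]
    have e2 : ∑ t ∈ T, (Phi P T lev site ep lam kap τ s (f, y * t, e) - Phi P T lev site ep lam kap τ s (f, y, e))
        + ∑ t ∈ T, (Phi P T lev site ep lam kap τ s (f, y, e * t) - Phi P T lev site ep lam kap τ s (f, y, e))
        = 2 * T.card * (Pb T (F c) y e - F c y e) := by
      rw [Pb_apply]
      unfold Av Phi
      rw [Finset.sum_sub_distrib, Finset.sum_sub_distrib, Finset.sum_const, nsmul_eq_mul]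
      have : (T.card : ℝ) ≠ 0 := by rw [hcard]; exact hd0.ne'
      simp only [← hc, ← hF]
      field_simp
      ring
    rw [e2]
    have hkap : kap * ((K1 : ℝ) * K * (2 * T.card)) = 1 := by
      rw [h.hkap, hcard, ← hK]; field_simp
    have hkap0 := h.kap0
    by_cases hy : ∃ x, site x = y
    · obtain ⟨x, rfl⟩ := hy
      have e3 : ∑ t ∈ T, bw (allE site) (hiE P lev site) K1 K (f, site x, e) (mv f (site x) t, site x, e)
            * (Phi P T lev site ep lam kap τ s (mv f (site x) t, site x, e) - Phi P T lev site ep lam kap τ s (f, site x, e))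
          = ∑ t ∈ T, lw P lev c x t e * (F (Function.update c x (c x * t)) (site x) e - F c (site x) e) := by
        apply Finset.sum_congr rfl; intro t ht
        rw [bw_site hinj hK f x e (fun h' => h1 (h' ▸ ht))]
        unfold Phi
        simp only
        rw [cfg_mv_site hinj]
      rw [e3]
      have h3 := LF_site h hs hinj c x e
      rw [← hF] at h3
      have h4 := mul_le_mul_of_nonneg_left h3 hN.le
      set X := ∑ t ∈ T, lw P lev c x t e * (F (Function.update c x (c x * t)) (site x) e - F c (site x) e)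
      set Y := (Pb T ^ τ) (uf P T lev site ep lam s c) (site x) e
      have e4 : (K1 : ℝ) * K * (2 * T.card) * (Pb T (F c) (site x) e - F c (site x) e + kap * X)
          = (K1 : ℝ) * K * (2 * T.card * (Pb T (F c) (site x) e - F c (site x) e)) + (kap * ((K1 : ℝ) * K * (2 * T.card))) * X := by ring
      have e5 : (K1 : ℝ) * K * (2 * T.card) * (kap * Y) = (kap * ((K1 : ℝ) * K * (2 * T.card))) * Y := by ring
      rw [e4, e5, hkap, one_mul, one_mul] at h4
      exact h4
    · push Not at hy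
      have e3 : ∑ t ∈ T, bw (allE site) (hiE P lev site) K1 K (f, y, e) (mv f y t, y, e)
            * (Phi P T lev site ep lam kap τ s (mv f y t, y, e) - Phi P T lev site ep lam kap τ s (f, y, e)) = 0 := by
        apply Finset.sum_eq_zero; intro t _
        unfold Phi
        simp only
        rw [cfg_mv_off f hy, sub_self, mul_zero]
      rw [e3, add_zero]
      have h3 := LF_off h (s := s) c y e hy
      rw [← hF] at h3
      rw [h3]
      have e5 : (K1 : ℝ) * K * (2 * T.card * (kap * (Pb T ^ τ) (uf P T lev site ep lam s c) y e))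
          = (kap * ((K1 : ℝ) * K * (2 * T.card))) * (Pb T ^ τ) (uf P T lev site ep lam s c) y e := by ring
      rw [e5, hkap, one_mul]
  have h5 := Pb_uf h hs c y e
  obtain ⟨h6, h7⟩ := Fc_bounds h hs c y e
  rw [← hF] at h6 h7
  set g := P.g (nc lev c) s with hg
  have hg0 : 0 < g := P.g_pos h.ok.hA s
  have hG0 := P.Gf_nonneg (nc lev c) s
  have hms := h.ok.m0 hs
  set Bq := P.m s * (4 * P.d * P.Gf (nc lev c) s + eta) with hBq
  have hBq0 : 0 ≤ Bq := by positivity
  have h8 : 0 ≤ P.K * g / Fintype.card Q * Bq := by positivity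
  have h9 : (∑ v, if (lampG T h1 hinv).Adj (f, y, e) v then bw (allE site) (hiE P lev site) K1 K (f, y, e) v
        * (Phi P T lev site ep lam kap τ s v - Phi P T lev site ep lam kap τ s (f, y, e)) else 0) / (2 * W)
      ≤ (P.K * g / Fintype.card Q * Bq) / (2 * ((K1 : ℝ) * K * (2 * T.card))) := by
    have hW0 : 0 < W := lt_of_lt_of_le hN hW
    calc _ ≤ (P.K * g / Fintype.card Q * Bq) / (2 * W) := by
          apply div_le_div_of_nonneg_right (e1.trans h5); positivity
      _ ≤ _ := by
          apply div_le_div_of_nonneg_left h8 (by positivity)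
          linarith
  have h10 : (P.K * g / Fintype.card Q * Bq) / (2 * ((K1 : ℝ) * K * (2 * T.card))) = kap * P.K / Fintype.card Q * Bq * (g / 2) := by
    rw [h.hkap, hcard, ← hK]; field_simp
  have h11 : kap * P.K / Fintype.card Q * Bq * (g / 2) ≤ kap * P.K / Fintype.card Q * Bq * F c y e := by
    apply mul_le_mul_of_nonneg_left h6
    have := h.kap0; positivity
  have e6 : Phi P T lev site ep lam kap τ s (f, y, e) = F c y e := rfl
  rw [e6] at h9 ⊢
  rw [h10] at h9
  linarith

end Pool.Agent.H984
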