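import Mathlib

/-!
H984: the one-lamp potential `phi` with tent-shaped increments.
-/

set_option autoImplicit false

namespace Pool.Agent.H984

/-- The increments: `2 ^ min l (L - l)` up to `L`, and then zero. -/
noncomputable def Dl (L l : ℕ) : ℝ := if l ≤ L then 2 ^ (min l (L - l)) else 0

/-- The potential of a lamp of level `l`. -/
noncomputable def phi (A : ℝ) (L : ℕ) : ℕ → ℝ
  | 0 => A
  | l + 1 => phi A L l + Dl L l

/-- The relative increment. -/
noncomputable def rr (A : ℝ) (L l : ℕ) : ℝ := Dl L l / phi A L l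

theorem Dl_nonneg (L l : ℕ) : 0 ≤ Dl L l := by
  unfold Dl; split_ifs <;> positivity

theorem Dl_pos {L l : ℕ} (h : l ≤ L) : 0 < Dl L l := by
  unfold Dl; rw [if_pos h]; positivity

theorem Dl_succ_le (L l : ℕ) : Dl L (l + 1) ≤ 2 * Dl L l := by
  unfold Dl
  by_cases h : l + 1 ≤ L
  · rw [if_pos h, if_pos (by omega)]
    calc (2 : ℝ) ^ (min (l + 1) (L - (l + 1))) ≤ 2 ^ (min l (L - l) + 1) := by
          apply pow_le_pow_right₀ (by norm_num); omega
      _ = 2 * 2 ^ (min l (L - l)) := by ring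
  · rw [if_neg h]; split_ifs <;> positivity

theorem Dl_le_succ {L l : ℕ} (h : l + 1 ≤ L) : Dl L l ≤ 2 * Dl L (l + 1) := by
  unfold Dl
  rw [if_pos h, if_pos (by omega)]
  calc (2 : ℝ) ^ (min l (L - l)) ≤ 2 ^ (min (l + 1) (L - (l + 1)) + 1) := by
        apply pow_le_pow_right₀ (by norm_num); omega
    _ = 2 * 2 ^ (min (l + 1) (L - (l + 1))) := by ring

theorem phi_succ (A : ℝ) (L l : ℕ) : phi A L (l + 1) = phi A L l + Dl L l := rfl

theorem phi_mono {A : ℝ} {L : ℕ} {l l' : ℕ} (h : l ≤ l') : phi A L l ≤ phi A L l' := by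
  induction h with
  | refl => exact le_rfl
  | step _ ih => rw [phi_succ]; have := Dl_nonneg L; exact le_trans ih (by linarith [this ‹_›])

theorem phi_ge {A : ℝ} {L : ℕ} (l : ℕ) : A ≤ phi A L l := phi_mono (Nat.zero_le l)

theorem phi_pos {A : ℝ} (hA : 1 ≤ A) {L : ℕ} (l : ℕ) : 0 < phi A L l := by
  have := phi_ge (A := A) (L := L) l; linarith

theorem Dl_le_phi {A : ℝ} (hA : 1 ≤ A) {L : ℕ} (l : ℕ) : Dl L l ≤ phi A L l := by
  induction l with
  | zero => unfold Dl phi; simp; exact hA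
  | succ l ih => rw [phi_succ]; have := Dl_succ_le L l; linarith

theorem rr_nonneg {A : ℝ} (hA : 1 ≤ A) {L : ℕ} (l : ℕ) : 0 ≤ rr A L l :=
  div_nonneg (Dl_nonneg L l) (phi_pos hA l).le

theorem rr_le_one {A : ℝ} (hA : 1 ≤ A) {L : ℕ} (l : ℕ) : rr A L l ≤ 1 := by
  unfold rr; rw [div_le_one (phi_pos hA l)]; exact Dl_le_phi hA l

theorem rr_mul {A : ℝ} (hA : 1 ≤ A) {L : ℕ} (l : ℕ) : rr A L l * phi A L l = Dl L l := by
  unfold rr; exact div_mul_cancel₀ _ (phi_pos hA l).ne'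

theorem phi_succ' {A : ℝ} (hA : 1 ≤ A) {L : ℕ} (l : ℕ) : phi A L (l + 1) = phi A L l * (1 + rr A L l) := by
  rw [phi_succ, ← rr_mul hA l]; ring

theorem rr_top {A : ℝ} {L l : ℕ} (h : L < l) : rr A L l = 0 := by
  unfold rr Dl; rw [if_neg (by omega)]; simp

theorem phi_succ_le {A : ℝ} (hA : 1 ≤ A) {L : ℕ} (l : ℕ) : phi A L (l + 1) ≤ 2 * phi A L l := by
  rw [phi_succ]; have := Dl_le_phi hA (L := L) l; linarith

/-- Going down at an inner level costs at least `r / 2`. -/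
theorem phi_down {A : ℝ} (hA : 1 ≤ A) {L l : ℕ} (h : l + 1 ≤ L) :
    phi A L l ≤ phi A L (l + 1) * (1 - rr A L (l + 1) / 2) := by
  have h1 := rr_mul hA (L := L) (l + 1)
  have h2 := Dl_succ_le L l
  have h3 := phi_succ A L l
  nlinarith

/-- Going down at an inner level costs at most `2 r`. -/
theorem phi_down' {A : ℝ} (hA : 1 ≤ A) {L l : ℕ} (h : l + 1 ≤ L) :
    phi A L (l + 1) * (1 - 2 * rr A L (l + 1)) ≤ phi A L l := by
  have h1 := rr_mul hA (L := L) (l + 1)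
  have h2 := Dl_le_succ h
  have h3 := phi_succ A L l
  nlinarith

theorem rr_succ_le {A : ℝ} (hA : 1 ≤ A) {L : ℕ} (l : ℕ) : rr A L (l + 1) ≤ 2 * rr A L l := by
  unfold rr
  have h0 := phi_pos hA (L := L) l
  have h1 := phi_pos hA (L := L) (l + 1)
  have h2 : phi A L l ≤ phi A L (l + 1) := phi_mono (Nat.le_succ l)
  calc Dl L (l + 1) / phi A L (l + 1) ≤ (2 * Dl L l) / phi A L (l + 1) := by
        gcongr; exact Dl_succ_le L l
    _ ≤ (2 * Dl L l) / phi A L l := by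
        apply div_le_div_of_nonneg_left _ h0 h2
        have := Dl_nonneg L l; linarith
    _ = 2 * (Dl L l / phi A L l) := by ring

theorem rr_le_succ {A : ℝ} (hA : 1 ≤ A) {L : ℕ} {l : ℕ} (h : l + 1 ≤ L) : rr A L l ≤ 4 * rr A L (l + 1) := by
  unfold rr
  have h0 := phi_pos hA (L := L) l
  have h1 := phi_pos hA (L := L) (l + 1)
  have h2 := phi_succ_le hA (L := L) l
  have h3 := Dl_le_succ h
  have h4 := Dl_nonneg L l
  have h5 := Dl_nonneg L (l + 1)
  rw [div_le_iff₀ h0]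
  have : 4 * (Dl L (l + 1) / phi A L (l + 1)) * phi A L l = (2 * Dl L (l + 1)) * ((2 * phi A L l) / phi A L (l + 1)) := by ring
  rw [this]
  have h6 : 1 ≤ (2 * phi A L l) / phi A L (l + 1) := by rw [le_div_iff₀ h1]; linarith
  nlinarith

theorem rr_zero {A : ℝ} {L : ℕ} : rr A L 0 = 1 / A := by
  unfold rr Dl phi; simp

theorem phi_half {A : ℝ} (hA : 1 ≤ A) {L : ℕ} (l : ℕ) (h : 2 * l ≤ L + 1) : (2 : ℝ) ^ l ≤ phi A L l := by
  induction l with
  | zero => unfold phi; simpa using hA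
  | succ l ih =>
    rw [phi_succ]
    have h1 : Dl L l = 2 ^ l := by
      unfold Dl; rw [if_pos (by omega)]; congr 1; omega
    rw [h1, pow_succ]; have := ih (by omega); linarith

theorem phi_cube {A : ℝ} (hA : 1 ≤ A) {L : ℕ} (hL : 5 ≤ L) {l : ℕ} (h : l ≤ L + 1) : (2 : ℝ) ^ l ≤ phi A L l ^ 3 := by
  by_cases h2 : 2 * l ≤ L + 1
  · have h3 := phi_half hA l h2
    have h4 : (1 : ℝ) ≤ 2 ^ l := one_le_pow₀ (by norm_num)
    calc (2 : ℝ) ^ l = 2 ^ l * 1 * 1 := by ring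
      _ ≤ 2 ^ l * 2 ^ l * 2 ^ l := by gcongr
      _ = (2 ^ l) ^ 3 := by ring
      _ ≤ _ := by gcongr
  · have h3 := phi_half hA (L := L) (L / 2) (by omega)
    have h4 : phi A L (L / 2) ≤ phi A L l := phi_mono (by omega)
    calc (2 : ℝ) ^ l ≤ 2 ^ ((L / 2) * 3) := by apply pow_le_pow_right₀ (by norm_num); omega
      _ = (2 ^ (L / 2)) ^ 3 := by rw [pow_mul]
      _ ≤ _ := by gcongr; linarith

theorem phi_le {A : ℝ} {L : ℕ} (l : ℕ) : phi A L l ≤ A + 2 ^ l := by
  induction l with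
  | zero => unfold phi; simp
  | succ l ih =>
    rw [phi_succ]
    have h1 : Dl L l ≤ 2 ^ l := by
      unfold Dl; split_ifs
      · apply pow_le_pow_right₀ (by norm_num); omega
      · positivity
    rw [pow_succ]; linarith

/-- The top increments are negligible. -/
theorem rr_L {A : ℝ} (hA : 1 ≤ A) {L : ℕ} : rr A L L ≤ 1 / 2 ^ (L / 2) := by
  unfold rr Dl
  rw [if_pos le_rfl]
  have h3 := phi_half hA (L := L) (L / 2) (by omega)
  have h4 : phi A L (L / 2) ≤ phi A L L := phi_mono (by omega)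
  simp only [Nat.sub_self, Nat.min_zero, pow_zero]
  exact one_div_le_one_div_of_le (by positivity) (by linarith)

theorem phi_top_down {A : ℝ} (hA : 1 ≤ A) {L : ℕ} :
    phi A L (L + 1) * (1 - 1 / 2 ^ (L / 2)) ≤ phi A L L := by
  have h1 : phi A L (L + 1) = phi A L L + 1 := by
    rw [phi_succ]; unfold Dl; rw [if_pos le_rfl]; simp
  have h3 := phi_half hA (L := L) (L / 2) (by omega)
  have h4 : phi A L (L / 2) ≤ phi A L (L + 1) := phi_mono (by omega)
  have h5 : 1 ≤ phi A L (L + 1) * (1 / 2 ^ (L / 2)) := by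
    rw [mul_one_div, le_div_iff₀ (by positivity)]; linarith
  nlinarith

end Pool.Agent.H984
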