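import Pool.Agent.H984.PcHit

/-!
H984: lower bound for hitting probabilities from second moments.
-/

set_option autoImplicit false

open Classical

namespace Pool.Agent.H984

namespace PC

variable {V : Type} [Fintype V]

/-- The average. -/
noncomputable def av (F : V → ℝ) : ℝ := (∑ x, F x) / (Fintype.card V : ℝ)

theorem av_add (F G : V → ℝ) : av (fun x => F x + G x) = av F + av G := by
  unfold av; rw [Finset.sum_add_distrib, add_div]

theorem av_mono {F G : V → ℝ} (h : ∀ x, F x ≤ G x) : av F ≤ av G := by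
  unfold av
  exact div_le_div_of_nonneg_right (Finset.sum_le_sum (fun x _ => h x)) (Nat.cast_nonneg _)

theorem av_nonneg {F : V → ℝ} (h : ∀ x, 0 ≤ F x) : 0 ≤ av F :=
  div_nonneg (Finset.sum_nonneg (fun x _ => h x)) (Nat.cast_nonneg _)

/-- The indicator. -/
noncomputable def ind (S : V → Prop) : V → ℝ := fun x => if S x then 1 else 0

variable {K : Module.End ℝ (V → ℝ)} {S : V → Prop}

theorem VJ_succ (B : Module.End ℝ (V → ℝ)) (J : ℕ) : VJ B S (J + 1) = ind S + B (VJ B S J) := by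
  ext x
  conv_lhs => unfold VJ
  rfl

theorem VJ_eq (B : Module.End ℝ (V → ℝ)) (J : ℕ) : VJ B S J = ∑ i ∈ Finset.range (J + 1), (B ^ i) (ind S) := by
  induction J with
  | zero => simp; rfl
  | succ J ih =>
    rw [VJ_succ, ih, Finset.sum_range_succ' _ (J + 1), map_sum, pow_zero, Module.End.one_apply, add_comm]
    congr 1
    apply Finset.sum_congr rfl; intro i _
    rw [pow_succ', Module.End.mul_apply]

/-- Data for the second moment method. -/
structure SM (K : Module.End ℝ (V → ℝ)) (S : V → Prop) (T0 s : ℕ) (z r η : ℝ) : Prop where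
  mk' : MK K
  inv : ∀ F : V → ℝ, av (K F) = av F
  zz : av (ind S) = z
  r0 : 0 < r
  r1 : r ≤ 1 / 20
  η0 : 0 ≤ η
  η1 : η ≤ 1 / 10
  lo : ∀ F : V → ℝ, (∀ x, 0 ≤ F x) → ∀ x, (1 - η) * av F ≤ (K ^ T0) F x
  hi : ∀ F : V → ℝ, (∀ x, 0 ≤ F x) → ∀ x, (K ^ T0) F x ≤ (1 + η) * av F
  dec : ∀ i : ℕ, ∑ x, (((K ^ s) ^ i) (fun x => ind S x - z) x) ^ 2 ≤ r ^ (2 * i) * ∑ x, (ind S x - z) ^ 2

variable {T0 s : ℕ} {z r η : ℝ}

theorem av_pow_inv (h : ∀ F : V → ℝ, av (K F) = av F) (t : ℕ) (F : V → ℝ) : av ((K ^ t) F) = av F := by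
  induction t generalizing F with
  | zero => simp
  | succ t ih => rw [pow_succ, Module.End.mul_apply, ih, h]

theorem SM.zpos (h : SM K S T0 s z r η) : 0 ≤ z := by
  rw [← h.zz]; apply av_nonneg; intro x; unfold ind; split_ifs <;> norm_num

theorem SM.avV (h : SM K S T0 s z r η) (J : ℕ) : av (VJ (K ^ s) S J) = (J + 1) * z := by
  induction J with
  | zero =>
    have : VJ (K ^ s) S 0 = ind S := by ext x; rfl
    rw [this, h.zz]; simp
  | succ J ih =>
    rw [VJ_succ]
    have e1 : av (ind S + (K ^ s) (VJ (K ^ s) S J)) = av (ind S) + av ((K ^ s) (VJ (K ^ s) S J)) := av_add _ _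
    rw [e1, h.zz, av_pow_inv h.inv, ih]
    push_cast; ring

theorem SM.corr [Nonempty V] (h : SM K S T0 s z r η) (i : ℕ) :
    av (fun x => ind S x * ((K ^ s) ^ i) (ind S) x) ≤ z ^ 2 + r ^ i * z := by
  have hN : (0 : ℝ) < Fintype.card V := by exact_mod_cast Fintype.card_pos
  have hz := h.zpos
  have hr := h.r0
  have hz1 : z ≤ 1 := by
    rw [← h.zz]
    have : av (ind S) ≤ av (fun _ : V => (1 : ℝ)) := av_mono (fun x => by unfold ind; split_ifs <;> norm_num)
    refine this.trans (le_of_eq ?_)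
    unfold av
    rw [Finset.sum_const, Finset.card_univ, nsmul_eq_mul, mul_one, div_self hN.ne']
  obtain ⟨g, hg⟩ : ∃ g : V → ℝ, g = fun x => ind S x - z := ⟨_, rfl⟩
  have hMK := (h.mk'.pow s).pow i
  have e1 : ((K ^ s) ^ i) (ind S) = fun x => z + ((K ^ s) ^ i) g x := by
    have e2 : ind S = (fun _ => z) + g := by ext x; rw [hg]; simp
    conv_lhs => rw [e2]
    rw [map_add, hMK.one]
    rfl
  have hS : ∑ x, ind S x = Fintype.card V * z := by
    rw [← h.zz]; unfold av; field_simp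
  have hsq : ∀ x, (ind S x) ^ 2 = ind S x := by intro x; unfold ind; split_ifs <;> norm_num
  have hg2 : ∑ x, (g x) ^ 2 ≤ Fintype.card V * z := by
    rw [hg]
    have e3 : ∀ x, (ind S x - z) ^ 2 = ind S x - 2 * z * ind S x + z ^ 2 := by
      intro x; have := hsq x; nlinarith
    simp only [e3, Finset.sum_add_distrib, Finset.sum_sub_distrib, ← Finset.mul_sum, hS, Finset.sum_const, Finset.card_univ,
      nsmul_eq_mul]
    nlinarith [mul_nonneg hN.le (sq_nonneg z)]
  have hdec := h.dec i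
  rw [← hg] at hdec
  have hdec2 : ∑ x, (((K ^ s) ^ i) g x) ^ 2 ≤ r ^ (2 * i) * (Fintype.card V * z) := by
    refine hdec.trans ?_
    have e4 : ∑ x, (ind S x - z) ^ 2 = ∑ x, (g x) ^ 2 := by rw [hg]
    rw [e4]
    exact mul_le_mul_of_nonneg_left hg2 (by positivity)
  -- Cauchy-Schwarz
  have hri : 0 < r ^ i := pow_pos hr i
  have h5 : ∀ x, ind S x * ((K ^ s) ^ i) g x ≤ (r ^ i * ind S x + (((K ^ s) ^ i) g x) ^ 2 / r ^ i) / 2 := by
    intro x
    obtain ⟨a, ha⟩ : ∃ a, a = ind S x := ⟨_, rfl⟩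
    obtain ⟨b, hb⟩ : ∃ b, b = ((K ^ s) ^ i) g x := ⟨_, rfl⟩
    rw [← ha, ← hb]
    have ha2 : a ^ 2 = a := by rw [ha]; exact hsq x
    have h6 : 0 ≤ (r ^ i * a - b) ^ 2 / r ^ i := by positivity
    have h7 : (r ^ i * a - b) ^ 2 / r ^ i = r ^ i * a ^ 2 - 2 * (a * b) + b ^ 2 / r ^ i := by field_simp; ring
    rw [h7, ha2] at h6
    linarith
  have h6 : ∑ x, ind S x * ((K ^ s) ^ i) g x ≤ r ^ i * (Fintype.card V * z) := by
    refine (Finset.sum_le_sum (fun x _ => h5 x)).trans ?_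
    rw [← Finset.sum_div, Finset.sum_add_distrib, ← Finset.mul_sum, ← Finset.sum_div, hS]
    have h7 : (∑ x, (((K ^ s) ^ i) g x) ^ 2) / r ^ i ≤ r ^ i * (Fintype.card V * z) := by
      rw [div_le_iff₀ hri]
      refine hdec2.trans (le_of_eq ?_)
      rw [two_mul, pow_add]; ring
    linarith
  unfold av
  rw [div_le_iff₀ hN, e1]
  simp only [mul_add, Finset.sum_add_distrib]
  rw [← Finset.sum_mul, hS]
  nlinarith

theorem SM.avW [Nonempty V] (h : SM K S T0 s z r η) (J : ℕ) : av (WJ (K ^ s) S J) ≤ J * (J * z ^ 2 + 2 * r * z) := by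
  have hz := h.zpos
  have hr := h.r0
  have hr1 := h.r1
  -- the pair term
  have pair : ∀ J, av (fun x => ind S x * (K ^ s) (VJ (K ^ s) S J) x) ≤ (J + 1) * z ^ 2 + 2 * r * z := by
    intro J
    have e1 : (fun x => ind S x * (K ^ s) (VJ (K ^ s) S J) x) = fun x => ∑ i ∈ Finset.range (J + 1), ind S x * ((K ^ s) ^ (i + 1)) (ind S) x := by
      ext x
      rw [VJ_eq, map_sum, Finset.sum_apply, Finset.mul_sum]
      apply Finset.sum_congr rfl; intro i _
      rw [pow_succ' (K ^ s) i, Module.End.mul_apply]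
    rw [e1]
    have e2 : av (fun x => ∑ i ∈ Finset.range (J + 1), ind S x * ((K ^ s) ^ (i + 1)) (ind S) x)
        = ∑ i ∈ Finset.range (J + 1), av (fun x => ind S x * ((K ^ s) ^ (i + 1)) (ind S) x) := by
      unfold av
      rw [Finset.sum_comm, Finset.sum_div]
    rw [e2]
    refine (Finset.sum_le_sum (fun i _ => h.corr (i + 1))).trans ?_
    rw [Finset.sum_add_distrib, Finset.sum_const, Finset.card_range, nsmul_eq_mul, ← Finset.sum_mul]
    push_cast
    have e3 : ∑ i ∈ Finset.range (J + 1), r ^ (i + 1) ≤ 2 * r := by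
      have e4 : ∑ i ∈ Finset.range (J + 1), r ^ (i + 1) = r * ∑ i ∈ Finset.range (J + 1), r ^ i := by
        rw [Finset.mul_sum]; apply Finset.sum_congr rfl; intro i _; rw [pow_succ']
      have e5 : ∑ i ∈ Finset.range (J + 1), r ^ i ≤ 2 := by
        have e6 := geom_sum_eq (by linarith : r ≠ 1) (J + 1)
        rw [e6, div_le_iff_of_neg (by linarith)]
        have : 0 ≤ r ^ (J + 1) := by positivity
        linarith
      rw [e4]; nlinarith
    have := mul_le_mul_of_nonneg_right e3 hz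
    linarith
  induction J with
  | zero =>
    have : WJ (K ^ s) S 0 = fun _ => 0 := rfl
    rw [this]; unfold av; simp
  | succ J ih =>
    have e1 : WJ (K ^ s) S (J + 1) = fun x => ind S x * (K ^ s) (VJ (K ^ s) S J) x + (K ^ s) (WJ (K ^ s) S J) x := by
      ext x
      conv_lhs => unfold WJ
      unfold ind
      split_ifs <;> simp
    rw [e1, av_add, av_pow_inv h.inv]
    have h2 := pair J
    push_cast
    have h3 : (J : ℝ) * (J * z ^ 2) ≤ J * ((J + 1) * z ^ 2) := by
      apply mul_le_mul_of_nonneg_left _ (Nat.cast_nonneg _)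
      apply mul_le_mul_of_nonneg_right _ (sq_nonneg _); linarith
    linarith

/-- The lower bound. -/
theorem SM.hit [Nonempty V] (h : SM K S T0 s z r η) (J : ℕ) (hJ : J * z ≤ 1 / 4) (x : V) :
    (J + 1) * z / 2 ≤ hit K S (T0 + J * s) x := by
  have hz := h.zpos
  have hr := h.r0
  have hr1 := h.r1
  have hB := h.mk'.pow s
  refine le_trans ?_ (bonf0 h.mk' T0 s J x)
  have h1 := h.lo (VJ (K ^ s) S J) (VJ_nonneg hB J) x
  have h2 := h.hi (WJ (K ^ s) S J) (WJ_nonneg hB J) x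
  rw [h.avV] at h1
  have h3 := h.avW J
  have hη0 := h.η0
  have hη1 := h.η1
  have hJ0 : (0 : ℝ) ≤ J := Nat.cast_nonneg _
  have hX : 0 ≤ ((J : ℝ) + 1) * z := by positivity
  have h4 : (1 + η) * av (WJ (K ^ s) S J) ≤ (11 / 10) * (J * (J * z ^ 2 + 2 * r * z)) := by
    have hW0 : 0 ≤ av (WJ (K ^ s) S J) := av_nonneg (WJ_nonneg hB J)
    apply mul_le_mul (by linarith) h3 hW0 (by norm_num)
  have h5 : (J : ℝ) * (J * z ^ 2 + 2 * r * z) ≤ ((J + 1) * z) * (1 / 4 + 1 / 10) := by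
    have e1 : (J : ℝ) * (J * z ^ 2 + 2 * r * z) = (J * z) * (J * z + 2 * r) := by ring
    rw [e1]
    apply mul_le_mul _ (by linarith) (by positivity) hX
    linarith
  have h6 : (9 / 10) * ((J + 1) * z) ≤ (1 - η) * ((J + 1) * z) := by
    apply mul_le_mul_of_nonneg_right _ hX; linarith
  linarith

end PC

end Pool.Agent.H984
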