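import Pool.Agent.H984.PcMix
import Pool.Agent.H984.Fin3

/-!
H984: the clock function and the choice of the clock site.
-/

set_option autoImplicit false

open Classical

namespace Pool.Agent.H984

namespace PC

variable {Q : Type} [Group Q] [Fintype Q]

/-- Neighbourhoods of `Z`. -/
noncomputable def Bk (T Z : Finset Q) : ℕ → Finset Q
  | 0 => Z
  | k + 1 => Bk T Z k ∪ T.biUnion (fun t => (Bk T Z k).image (fun q => q * t))

theorem Bk_mono (T Z : Finset Q) {j k : ℕ} (h : j ≤ k) : Bk T Z j ⊆ Bk T Z k := by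
  induction k, h using Nat.le_induction with
  | base => exact Finset.Subset.refl _
  | succ k _ ih => exact ih.trans Finset.subset_union_left

theorem Bk_step (T Z : Finset Q) (k : ℕ) {q t : Q} (hq : q ∈ Bk T Z k) (ht : t ∈ T) : q * t ∈ Bk T Z (k + 1) := by
  unfold Bk
  exact Finset.mem_union_right _ (Finset.mem_biUnion.mpr ⟨t, ht, Finset.mem_image.mpr ⟨q, hq, rfl⟩⟩)

theorem Bk_card (T Z : Finset Q) (k : ℕ) : (Bk T Z k).card ≤ Z.card * (T.card + 1) ^ k := by
  induction k with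
  | zero => simp [Bk]
  | succ k ih =>
    have h1 : (Bk T Z (k + 1)).card ≤ (Bk T Z k).card + T.card * (Bk T Z k).card := by
      conv_lhs => unfold Bk
      refine (Finset.card_union_le _ _).trans (Nat.add_le_add_left ?_ _)
      refine Finset.card_biUnion_le.trans ?_
      refine (Finset.sum_le_sum (fun t _ => Finset.card_image_le)).trans ?_
      rw [Finset.sum_const, smul_eq_mul]
    calc _ ≤ _ := h1
      _ = (Bk T Z k).card * (T.card + 1) := by ring
      _ ≤ (Z.card * (T.card + 1) ^ k) * (T.card + 1) := Nat.mul_le_mul_right _ ih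
      _ = _ := by rw [pow_succ]; ring

/-- The truncated distance to `Z`. -/
noncomputable def dZ (T Z : Finset Q) (kc : ℕ) (q : Q) : ℕ := ∑ k ∈ Finset.range kc, if q ∈ Bk T Z k then 0 else 1

theorem dZ_le (T Z : Finset Q) (kc : ℕ) (q : Q) : dZ T Z kc q ≤ kc := by
  unfold dZ
  calc ∑ k ∈ Finset.range kc, (if q ∈ Bk T Z k then 0 else 1) ≤ ∑ _k ∈ Finset.range kc, 1 :=
        Finset.sum_le_sum (fun k _ => by split_ifs <;> omega)
    _ = kc := by simp

theorem dZ_lip (T Z : Finset Q) (kc : ℕ) (q : Q) {t : Q} (ht : t ∈ T) : dZ T Z kc (q * t) ≤ dZ T Z kc q + 1 := by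
  cases kc with
  | zero => unfold dZ; simp
  | succ kc =>
    unfold dZ
    rw [Finset.sum_range_succ' _ kc, Finset.sum_range_succ]
    have h1 : ∑ k ∈ Finset.range kc, (if q * t ∈ Bk T Z (k + 1) then 0 else 1) ≤ ∑ k ∈ Finset.range kc, (if q ∈ Bk T Z k then 0 else 1) := by
      apply Finset.sum_le_sum; intro k _
      by_cases hq : q ∈ Bk T Z k
      · rw [if_pos (Bk_step T Z k hq ht)]; omega
      · rw [if_neg hq]; split_ifs <;> omega
    have h2 : (if q * t ∈ Bk T Z 0 then 0 else 1) ≤ 1 := by split_ifs <;> omega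
    have h3 : 0 ≤ (if q ∈ Bk T Z kc then 0 else 1) := Nat.zero_le _
    omega

theorem dZ_zero (T Z : Finset Q) {kc : ℕ} (hkc : 1 ≤ kc) (q : Q) : dZ T Z kc q = 0 ↔ q ∈ Z := by
  unfold dZ
  rw [Finset.sum_eq_zero_iff]
  constructor
  · intro h
    have h2 := h 0 (Finset.mem_range.mpr (by omega))
    by_contra hq
    have : q ∉ Bk T Z 0 := hq
    rw [if_neg this] at h2
    omega
  · intro hq k _
    rw [if_pos (Bk_mono T Z (Nat.zero_le k) hq)]

/-- If the truncated distance is below `kc`, the point lies in the neighbourhood. -/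
theorem dZ_mem (T Z : Finset Q) (kc : ℕ) (q : Q) (h : dZ T Z kc q < kc) : q ∈ Bk T Z (dZ T Z kc q) := by
  by_contra hq
  set j := dZ T Z kc q with hj
  have h1 : ∑ k ∈ Finset.range kc, (if k ≤ j then 1 else 0) ≤ dZ T Z kc q := by
    unfold dZ
    apply Finset.sum_le_sum; intro k _
    by_cases hk : k ≤ j
    · rw [if_pos hk, if_neg (fun h' => hq (Bk_mono T Z hk h'))]
    · rw [if_neg hk]; exact Nat.zero_le _
  have h2 : j + 1 ≤ ∑ k ∈ Finset.range kc, (if k ≤ j then 1 else 0) := by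
    have h3 : Finset.range (j + 1) ⊆ Finset.range kc := Finset.range_subset_range.mpr (by omega)
    calc j + 1 = ∑ k ∈ Finset.range (j + 1), 1 := by simp
      _ = ∑ k ∈ Finset.range (j + 1), (if k ≤ j then 1 else 0) := by
          apply Finset.sum_congr rfl; intro k hk
          rw [if_pos (by have := Finset.mem_range.mp hk; omega)]
      _ ≤ _ := Finset.sum_le_sum_of_subset h3
  omega

theorem sum_clock (T Z : Finset Q) (kc kp : ℕ) (hkp : 2 * (T.card + 1) ≤ 2 ^ kp) :
    ∑ q, (1 : ℝ) / 2 ^ (kp * dZ T Z kc q) ≤ 2 * Z.card + Fintype.card Q * (1 / 2 ^ (kp * kc)) := by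
  have h1 : ∀ q, (1 : ℝ) / 2 ^ (kp * dZ T Z kc q) ≤ ∑ k ∈ Finset.range kc, (if q ∈ Bk T Z k then (1 : ℝ) / 2 ^ (kp * k) else 0) + 1 / 2 ^ (kp * kc) := by
    intro q
    have hle := dZ_le T Z kc q
    have hnn : ∀ k, (0 : ℝ) ≤ (if q ∈ Bk T Z k then (1 : ℝ) / 2 ^ (kp * k) else 0) := fun k => by split_ifs <;> positivity
    rcases Nat.lt_or_ge (dZ T Z kc q) kc with hlt | hge
    · have h2 := dZ_mem T Z kc q hlt
      have h3 := Finset.single_le_sum (f := fun k => (if q ∈ Bk T Z k then (1 : ℝ) / 2 ^ (kp * k) else 0)) (fun k _ => hnn k)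
        (Finset.mem_range.mpr hlt)
      simp only [if_pos h2] at h3
      have : (0 : ℝ) ≤ 1 / 2 ^ (kp * kc) := by positivity
      linarith
    · have h2 : dZ T Z kc q = kc := by omega
      rw [h2]
      have := Finset.sum_nonneg (fun k (_ : k ∈ Finset.range kc) => hnn k)
      linarith
  refine (Finset.sum_le_sum (fun q _ => h1 q)).trans ?_
  rw [Finset.sum_add_distrib, Finset.sum_const, Finset.card_univ, nsmul_eq_mul]
  apply add_le_add _ le_rfl
  rw [Finset.sum_comm]
  have h2 : ∀ k ∈ Finset.range kc, ∑ q, (if q ∈ Bk T Z k then (1 : ℝ) / 2 ^ (kp * k) else 0) ≤ Z.card * (1 / 2) ^ k := by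
    intro k _
    have e1 : ∑ q, (if q ∈ Bk T Z k then (1 : ℝ) / 2 ^ (kp * k) else 0) = (Bk T Z k).card * (1 / 2 ^ (kp * k)) := by
      rw [← Finset.sum_filter, Finset.sum_const, nsmul_eq_mul]
      congr 2
      congr 1
      ext q; simp
    rw [e1]
    have h3 : ((Bk T Z k).card : ℝ) ≤ Z.card * ((T.card : ℝ) + 1) ^ k := by exact_mod_cast Bk_card T Z k
    have h4 : (2 * ((T.card : ℝ) + 1)) ^ k ≤ 2 ^ (kp * k) := by
      rw [pow_mul]
      apply pow_le_pow_left₀ (by positivity)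
      exact_mod_cast hkp
    rw [mul_pow] at h4
    rw [mul_one_div, div_le_iff₀ (by positivity)]
    calc ((Bk T Z k).card : ℝ) ≤ Z.card * ((T.card : ℝ) + 1) ^ k := h3
      _ = Z.card * (1 / 2) ^ k * (2 ^ k * ((T.card : ℝ) + 1) ^ k) := by
          have : (1 / 2 : ℝ) ^ k * 2 ^ k = 1 := by rw [← mul_pow]; norm_num
          calc (Z.card : ℝ) * ((T.card : ℝ) + 1) ^ k = Z.card * ((T.card : ℝ) + 1) ^ k * 1 := by ring
            _ = Z.card * ((T.card : ℝ) + 1) ^ k * ((1 / 2 : ℝ) ^ k * 2 ^ k) := by rw [this]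
            _ = _ := by ring
      _ ≤ _ := mul_le_mul_of_nonneg_left h4 (by positivity)
  refine (Finset.sum_le_sum h2).trans ?_
  rw [← Finset.mul_sum]
  have h3 : ∑ k ∈ Finset.range kc, (1 / 2 : ℝ) ^ k ≤ 2 := by
    rw [geom_sum_eq (by norm_num)]
    have : (0 : ℝ) ≤ (1 / 2) ^ kc := by positivity
    rw [div_le_iff_of_neg (by norm_num)]; linarith
  have : (0 : ℝ) ≤ Z.card := Nat.cast_nonneg _
  nlinarith

/-- A neighbour of a site is not a site. -/
theorem site_nbr {ι : Type} {T : Finset Q} (hT : 0 < T.card) (h1 : (1 : Q) ∉ T) {τ : ℕ} (hτ : 2 ≤ τ) {δ : ℝ}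
    (hδ : δ < 1 / (2 * T.card)) {site : ι → Q} (hsep : Sep T τ δ site) (x0 : ι) {t0 : Q} (ht0 : t0 ∈ T) (x : ι) :
    site x ≠ site x0 * t0 := by
  intro hx
  have hTr : (1 : ℝ) ≤ T.card := by exact_mod_cast hT
  have hδ1 : δ < 1 := by
    refine lt_of_lt_of_le hδ ?_
    rw [div_le_one (by positivity)]; linarith
  have hself := Gn_self hT (by omega : 1 ≤ τ) (site x0)
  have hnb : 1 / (2 * (T.card : ℝ)) ≤ Gn T τ (site x0) (site x) := by
    unfold Gn
    have h2 := Finset.single_le_sum (f := fun t => (Ax T ^ t) (del (site x)) (site x0)) (fun t _ => Ax_nonneg hT (del_nonneg (site x)) t (site x0))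
      (Finset.mem_range.mpr (by omega : 1 < τ))
    simp only [pow_one] at h2
    refine le_trans ?_ h2
    rw [Ax_apply]
    unfold Av
    have h3 : (1 : ℝ) ≤ ∑ t ∈ T, del (site x) (site x0 * t) := by
      have h4 := Finset.single_le_sum (f := fun t => del (site x) (site x0 * t)) (fun t _ => del_nonneg _ _) ht0
      refine le_trans (le_of_eq ?_) h4
      unfold del; rw [if_pos hx.symm]
    have h5 : 0 ≤ del (site x) (site x0) := del_nonneg _ _
    have h6 : 1 / (2 * (T.card : ℝ)) = (0 + 1 / T.card) / 2 := by field_simp; norm_num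
    rw [h6]
    apply div_le_div_of_nonneg_right _ (by norm_num)
    apply add_le_add h5
    exact div_le_div_of_nonneg_right h3 (by positivity)
  have hxx := hsep (site x0) x x0 (lt_of_lt_of_le hδ hnb) (lt_of_lt_of_le hδ1 hself)
  rw [hxx] at hx
  have : t0 = 1 := by
    have h2 : site x0 * 1 = site x0 * t0 := by rw [mul_one]; exact hx
    exact (mul_left_cancel h2).symm
  exact h1 (this ▸ ht0)

end PC

end Pool.Agent.H984
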