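import Pool.Agent.H984.PcRel

/-!
H984: convergence to equilibrium, so that the total variation mixing times are attained.
-/

set_option autoImplicit false

open Classical

namespace Pool.Agent.H984

namespace PC

variable {V : Type} [Fintype V] {G : SimpleGraph V} {c : V → V → ℝ} {C : ℝ}

theorem walk_self_pos (h : CC G c C) (x : V) : 0 < walk G c x x := by
  unfold walk
  rw [Matrix.of_apply, if_pos rfl, h.deg]
  have hC := h.C0
  have : 0 ≤ (if G.Adj x x then c x x / (2 * C) else 0) := by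
    split_ifs with ha
    · have := h.pos x x ha; positivity
    · exact le_rfl
  linarith

theorem walk_adj_pos (h : CC G c C) (hp : ∀ x y, G.Adj x y → 0 < c x y) {x y : V} (ha : G.Adj x y) : 0 < walk G c x y := by
  unfold walk
  rw [Matrix.of_apply, if_pos ha, h.deg]
  have hC := h.C0
  have h1 := hp x y ha
  have : (0 : ℝ) ≤ (if x = y then 1 / 2 else 0) := by split_ifs <;> norm_num
  have h3 : 0 < c x y / (2 * C) := by positivity
  linarith

theorem pow_succ_pos (h : CC G c C) {x z y : V} {n : ℕ} (h1 : 0 < walk G c x z) (h2 : 0 < (walk G c ^ n) z y) :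
    0 < (walk G c ^ (n + 1)) x y := by
  rw [pow_succ', Matrix.mul_apply]
  have h3 := Finset.single_le_sum (f := fun z => walk G c x z * (walk G c ^ n) z y)
    (fun z _ => mul_nonneg (h.walk_nonneg x z) (h.pow_nonneg n z y)) (Finset.mem_univ z)
  exact lt_of_lt_of_le (mul_pos h1 h2) h3

theorem walk_pos (h : CC G c C) (hp : ∀ x y, G.Adj x y → 0 < c x y) {x y : V} (w : G.Walk x y) :
    0 < (walk G c ^ w.length) x y := by
  induction w with
  | nil => simp
  | cons ha w ih => rw [SimpleGraph.Walk.length_cons]; exact pow_succ_pos h (walk_adj_pos h hp ha) ih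

theorem pow_pos_of_le (h : CC G c C) {x y : V} {n m : ℕ} (hnm : n ≤ m) (h1 : 0 < (walk G c ^ n) x y) :
    0 < (walk G c ^ m) x y := by
  induction m, hnm using Nat.le_induction with
  | base => exact h1
  | succ m _ ih => exact pow_succ_pos h (walk_self_pos h x) ih

theorem exists_all_pos (h : CC G c C) (hp : ∀ x y, G.Adj x y → 0 < c x y) (hG : G.Connected) :
    ∃ N, ∀ x y, 0 < (walk G c ^ N) x y := by
  refine ⟨∑ x, ∑ y, G.dist x y, fun x y => ?_⟩
  obtain ⟨w, hw⟩ := hG.exists_walk_length_eq_dist x y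
  refine pow_pos_of_le h ?_ (walk_pos h hp w)
  rw [hw]
  exact (Finset.single_le_sum (f := fun y => G.dist x y) (fun y _ => Nat.zero_le _) (Finset.mem_univ y)).trans
    (Finset.single_le_sum (f := fun x => ∑ y, G.dist x y) (fun x _ => Nat.zero_le _) (Finset.mem_univ x))

theorem sum_pw (h : CC G c C) (t : ℕ) (F : V → ℝ) : ∑ x, (pw G c t).mulVec F x = ∑ x, F x := by
  induction t with
  | zero => rw [pw_zero]
  | succ t ih => rw [pw_succ', h.sum_mulVec, ih]

/-- Contraction of the oscillation. -/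
theorem osc_step (h : CC G c C) {N : ℕ} {δ : ℝ} (z0 : V) (hδ : ∀ x, δ ≤ (walk G c ^ N) x z0)
    {F : V → ℝ} {a b : ℝ} (hF : ∀ x, a ≤ F x ∧ F x ≤ b) (x : V) :
    δ * F z0 + (1 - δ) * a ≤ (pw G c N).mulVec F x ∧ (pw G c N).mulVec F x ≤ δ * F z0 + (1 - δ) * b := by
  have h1 : (pw G c N).mulVec F x = δ * F z0 + ∑ z, ((walk G c ^ N) x z - if z = z0 then δ else 0) * F z := by
    unfold pw Matrix.mulVec dotProduct
    simp only [sub_mul, ite_mul, zero_mul, Finset.sum_sub_distrib, Finset.sum_ite_eq', Finset.mem_univ, if_true]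
    ring
  have h2 : ∑ z, ((walk G c ^ N) x z - if z = z0 then δ else 0) = 1 - δ := by
    rw [Finset.sum_sub_distrib, h.row]; simp
  have h3 : ∀ z, 0 ≤ (walk G c ^ N) x z - if z = z0 then δ else 0 := by
    intro z
    by_cases hz : z = z0
    · subst hz; rw [if_pos rfl]; have := hδ x; linarith
    · rw [if_neg hz]; have := h.pow_nonneg N x z; linarith
  rw [h1, ← h2, Finset.sum_mul, Finset.sum_mul]
  constructor
  · have := Finset.sum_le_sum (fun z (_ : z ∈ Finset.univ) => mul_le_mul_of_nonneg_left (hF z).1 (h3 z))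
    linarith
  · have := Finset.sum_le_sum (fun z (_ : z ∈ Finset.univ) => mul_le_mul_of_nonneg_left (hF z).2 (h3 z))
    linarith

theorem osc_pow (h : CC G c C) {N : ℕ} {δ : ℝ} (z0 : V) (hδ : ∀ x, δ ≤ (walk G c ^ N) x z0)
    {F : V → ℝ} (hF : ∀ x, 0 ≤ F x ∧ F x ≤ 1) (n : ℕ) :
    ∃ a b : ℝ, b - a = (1 - δ) ^ n ∧ ∀ x, a ≤ (pw G c (N * n)).mulVec F x ∧ (pw G c (N * n)).mulVec F x ≤ b := by
  induction n with
  | zero => exact ⟨0, 1, by simp, fun x => by rw [mul_zero, pw_zero]; exact hF x⟩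
  | succ n ih =>
    obtain ⟨a, b, h1, h2⟩ := ih
    refine ⟨δ * (pw G c (N * n)).mulVec F z0 + (1 - δ) * a, δ * (pw G c (N * n)).mulVec F z0 + (1 - δ) * b, ?_, fun x => ?_⟩
    · rw [pow_succ, ← h1]; ring
    · have h3 : N * (n + 1) = N + N * n := by ring
      rw [h3, pw_add]
      exact osc_step h z0 hδ h2 x

/-- The mixing condition is eventually met. -/
theorem exists_mixed (h : CC G c C) (hp : ∀ x y, G.Adj x y → 0 < c x y) (hG : G.Connected) {ε : ℝ} (hε : 0 < ε) :
    ∃ t, MixedBy G c ε t := by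
  obtain ⟨z0⟩ := hG.nonempty
  have : Nonempty V := ⟨z0⟩
  have hV : (0 : ℝ) < Fintype.card V := by exact_mod_cast Fintype.card_pos
  obtain ⟨N, hN⟩ := exists_all_pos h hp hG
  obtain ⟨x0, _, hx0⟩ := Finset.exists_min_image Finset.univ (fun x => (walk G c ^ N) x z0) ⟨z0, Finset.mem_univ _⟩
  obtain ⟨δ, hδ⟩ : ∃ δ, δ = (walk G c ^ N) x0 z0 := ⟨_, rfl⟩
  have hδ0 : 0 < δ := by rw [hδ]; exact hN x0 z0
  have hδ1 : ∀ x, δ ≤ (walk G c ^ N) x z0 := fun x => by rw [hδ]; exact hx0 x (Finset.mem_univ x)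
  have hle1 : δ ≤ 1 := by
    have h1 := h.row N x0
    rw [hδ, ← h1]
    exact Finset.single_le_sum (f := fun y => (walk G c ^ N) x0 y) (fun y _ => h.pow_nonneg N x0 y) (Finset.mem_univ z0)
  obtain ⟨n, hn⟩ := exists_pow_lt_of_lt_one (show 0 < ε / Fintype.card V by positivity) (show 1 - δ < 1 by linarith)
  refine ⟨N * n, ?_⟩
  apply h.mixed
  intro x y
  obtain ⟨a, b, hab, h2⟩ := osc_pow h z0 hδ1 (F := fun u => if u = y then (1 : ℝ) else 0)
    (fun u => by by_cases hu : u = y <;> simp [hu]) n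
  have hst := sum_pw h (N * n) (fun u => if u = y then (1 : ℝ) else 0)
  simp only [Finset.sum_ite_eq', Finset.mem_univ, if_true] at hst
  have ha : (Fintype.card V : ℝ) * a ≤ 1 := by
    rw [← hst]
    have := Finset.sum_le_sum (fun z (_ : z ∈ (Finset.univ : Finset V)) => (h2 z).1)
    rw [Finset.sum_const, Finset.card_univ, nsmul_eq_mul] at this
    exact this
  have hb : 1 ≤ (Fintype.card V : ℝ) * b := by
    rw [← hst]
    have := Finset.sum_le_sum (fun z (_ : z ∈ (Finset.univ : Finset V)) => (h2 z).2)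
    rw [Finset.sum_const, Finset.card_univ, nsmul_eq_mul] at this
    exact this
  rw [pw_ker]
  have hk := h2 x
  have h5 : (Fintype.card V : ℝ) * (1 - δ) ^ n ≤ ε := by
    rw [lt_div_iff₀ hV] at hn; linarith
  have k1 := mul_le_mul_of_nonneg_left hk.1 hV.le
  have k2 := mul_le_mul_of_nonneg_left hk.2 hV.le
  have k3 : (Fintype.card V : ℝ) * (b - a) ≤ ε := by rw [hab]; exact h5
  rw [abs_le]
  constructor <;> linarith

theorem lt_tmix (h : CC G c C) (hp : ∀ x y, G.Adj x y → 0 < c x y) (hG : G.Connected) {ε : ℝ} (hε : 0 < ε) {n : ℕ}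
    (hn : ∀ t ≤ n, ¬ MixedBy G c ε t) : n < tmix G c ε := by
  unfold tmix
  have h1 : sInf {t : ℕ | MixedBy G c ε t} ∈ {t : ℕ | MixedBy G c ε t} := Nat.sInf_mem (exists_mixed h hp hG hε)
  by_contra hc
  exact hn _ (not_lt.mp hc) h1

theorem tmix_le {ε : ℝ} {n : ℕ} (h : MixedBy G c ε n) : tmix G c ε ≤ n := Nat.sInf_le h

theorem tmix_mem (h : CC G c C) (hp : ∀ x y, G.Adj x y → 0 < c x y) (hG : G.Connected) {ε : ℝ} (hε : 0 < ε) :
    MixedBy G c ε (tmix G c ε) := by
  unfold tmix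
  exact Nat.sInf_mem (exists_mixed h hp hG hε)

theorem MixedBy.mono {ε ε' : ℝ} (h : ε ≤ ε') {t : ℕ} (hm : MixedBy G c ε t) : MixedBy G c ε' t := fun x => (hm x).trans h

theorem tmix_anti (h : CC G c C) (hp : ∀ x y, G.Adj x y → 0 < c x y) (hG : G.Connected) {ε ε' : ℝ} (hε : 0 < ε) (hle : ε ≤ ε') :
    tmix G c ε' ≤ tmix G c ε := tmix_le ((tmix_mem h hp hG hε).mono hle)

end PC

end Pool.Agent.H984
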