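import Pool.Agent.H984.PcOut
import Pool.Agent.H984.PcBon
import Pool.Agent.H984.PcErg

/-!
H984: the neutral walk on lamp configurations, and functions of the clock and the position.
-/

set_option autoImplicit false

open Classical

namespace Pool.Agent.H984

namespace PC

variable {Q : Type} [Group Q] [Fintype Q] {ι : Type} [Fintype ι]
variable {D : PD Q ι} {T : Finset Q}

/-- The neutral operator. -/
noncomputable def PD.KN (D : PD Q ι) (T : Finset Q) : Module.End ℝ (LV Q → ℝ) := OpL T D.W0 (D.CC0 T) (fun u _ => D.wy u.2.1)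

/-- The perturbed operator. -/
noncomputable def PD.KP (D : PD Q ι) (T : Finset Q) : Module.End ℝ (LV Q → ℝ) := OpL T D.W0 (D.CC0 T) D.wP

theorem KN_E0 (h : D.OK T) : D.KN T = E0 T (mkR T D.W0 (D.CC0 T) D.wy) := by
  apply LinearMap.ext; intro F; ext u
  exact Op_E0 (D.CC0_pos h) h.card F u

theorem KN_rates (h : D.OK T) (h8 : 8 ≤ T.card) : (mkR T D.W0 (D.CC0 T) D.wy).OK (1 / (2 * D.CC0 T)) := by
  have hC := D.CC0_pos h
  have hT : (8 : ℝ) ≤ T.card := by exact_mod_cast h8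
  have hW := h.W1
  have hK := h.K1
  unfold mkR
  refine ⟨by positivity, ?_, fun y => ?_, fun y => ?_, fun y => ?_⟩
  · show 7 * (1 / (2 * D.CC0 T)) ≤ D.W0 * T.card / D.CC0 T
    have : 7 * (1 / (2 * D.CC0 T)) = (7 / 2) / D.CC0 T := by field_simp
    rw [this]
    apply div_le_div_of_nonneg_right _ hC.le
    nlinarith
  · show 4 * (1 / (2 * D.CC0 T)) ≤ T.card * D.wy y / (2 * D.CC0 T)
    rw [mul_one_div]
    apply div_le_div_of_nonneg_right _ (by positivity)
    have := D.wy_ge h y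
    nlinarith
  · show 1 / (2 * D.CC0 T) ≤ (D.CC0 T - 2 * T.card * D.W0 - T.card * D.wy y) / (2 * D.CC0 T)
    apply div_le_div_of_nonneg_right _ (by positivity)
    unfold PD.CC0
    have := D.wy_le h y
    nlinarith
  · show D.W0 * (T.card : ℝ) / D.CC0 T + T.card * D.wy y / (2 * D.CC0 T)
      + (D.CC0 T - 2 * T.card * D.W0 - T.card * D.wy y) / (2 * D.CC0 T) ≤ 1 / 2
    apply le_of_eq
    field_simp
    ring

section chain

variable {h1 : (1 : Q) ∉ T} {hinv : ∀ t ∈ T, t⁻¹ ∈ T}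

/-- The neutral walk on functions which do not depend on the bit. -/
theorem pwN_fst (h : D.OK T) (t : ℕ) (F : LV Q → ℝ) (u : LV Q) (b : Bool) :
    (pw (lampB T h1 hinv) (cB T h1 hinv D.cwN (D.CC0 T)) t).mulVec (fun p => F p.1) (u, b) = (D.KN T ^ t) F u := by
  have h2 := pow_parts (h1 := h1) (hinv := hinv) (D.CW_N h) h.card t F (fun _ => 0) u b
  have e1 : (fun p : LV Q × Bool => F p.1 + sg p.2 * (fun _ : LV Q => (0 : ℝ)) p.1) = fun p => F p.1 := by
    ext p; simp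
  rw [e1] at h2
  rw [h2, ← KN_E0 h]
  have e2 : (E1 T (mkR T D.W0 (D.CC0 T) D.wy) ^ t) (fun _ => (0 : ℝ)) = fun _ => 0 := by
    have : (fun _ : LV Q => (0 : ℝ)) = 0 := rfl
    rw [this, map_zero]
  rw [e2]; simp

theorem sum_fstB (F : LV Q → ℝ) : ∑ p : LV Q × Bool, F p.1 = 2 * ∑ u, F u := by
  rw [Fintype.sum_prod_type, Finset.mul_sum]
  apply Finset.sum_congr rfl; intro u _
  simp

theorem KN_inv (h : D.OK T) (F : LV Q → ℝ) : av (D.KN T F) = av F := by
  have h2 := sum_pw ((D.CW_N h).CC (h1 := h.one) (hinv := h.inv) h.card) 1 (fun p => F p.1)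
  have h3 : ∑ p : LV Q × Bool, (pw (lampB T h.one h.inv) (cB T h.one h.inv D.cwN (D.CC0 T)) 1).mulVec (fun p => F p.1) p
      = ∑ p : LV Q × Bool, (D.KN T F) p.1 := by
    apply Finset.sum_congr rfl; intro p _
    obtain ⟨u, b⟩ := p
    rw [pwN_fst h, pow_one]
  rw [h3, sum_fstB, sum_fstB] at h2
  unfold av
  have : ∑ u, (D.KN T F) u = ∑ u, F u := by linarith
  rw [this]

/-- Uniform mixing of the neutral walk. -/
theorem KN_unif (h : D.OK T) (hg : Gap T) (h8 : 8 ≤ T.card) (hn6 : 6 ≤ Fintype.card Q) {t : ℕ}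
    (ht : 16 * D.CC0 T * ((Fintype.card Q : ℝ) * Real.log (Fintype.card Q)) ≤ t) (x y : LV Q × Bool) :
    |(Fintype.card (LV Q × Bool) : ℝ) * pw (lampB T h1 hinv) (cB T h1 hinv D.cwN (D.CC0 T)) (2 * t) x y - 1|
      ≤ 10 / (Fintype.card Q : ℝ) ^ 2 := by
  refine unif_rates (D.CW_N h) hg (KN_rates h h8) hn6 ?_ x y
  refine le_trans (le_of_eq ?_) ht
  have hC := D.CC0_pos h
  field_simp
  ring

/-- Consequence for nonnegative functions on the full space. -/
theorem pwN_lo (h : D.OK T) {t : ℕ} {η : ℝ}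
    (hu : ∀ x y, |(Fintype.card (LV Q × Bool) : ℝ) * pw (lampB T h1 hinv) (cB T h1 hinv D.cwN (D.CC0 T)) t x y - 1| ≤ η)
    {F : LV Q × Bool → ℝ} (hF : ∀ x, 0 ≤ F x) (x : LV Q × Bool) :
    (1 - η) * av F ≤ (pw (lampB T h1 hinv) (cB T h1 hinv D.cwN (D.CC0 T)) t).mulVec F x
      ∧ (pw (lampB T h1 hinv) (cB T h1 hinv D.cwN (D.CC0 T)) t).mulVec F x ≤ (1 + η) * av F := by
  have : Nonempty (LV Q × Bool) := ⟨x⟩
  have hV : (0 : ℝ) < Fintype.card (LV Q × Bool) := by exact_mod_cast Fintype.card_pos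
  unfold Matrix.mulVec dotProduct av
  constructor
  · rw [mul_div_assoc', div_le_iff₀ hV, Finset.mul_sum, Finset.sum_mul]
    apply Finset.sum_le_sum; intro y _
    have h2 := (abs_le.mp (hu x y)).1
    have h3 := mul_le_mul_of_nonneg_right (by linarith : 1 - η ≤ (Fintype.card (LV Q × Bool) : ℝ) * pw (lampB T h1 hinv) (cB T h1 hinv D.cwN (D.CC0 T)) t x y) (hF y)
    linarith
  · rw [mul_div_assoc', le_div_iff₀ hV, Finset.mul_sum, Finset.sum_mul]
    apply Finset.sum_le_sum; intro y _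
    have h2 := (abs_le.mp (hu x y)).2
    have h3 := mul_le_mul_of_nonneg_right (by linarith : (Fintype.card (LV Q × Bool) : ℝ) * pw (lampB T h1 hinv) (cB T h1 hinv D.cwN (D.CC0 T)) t x y ≤ 1 + η) (hF y)
    linarith

theorem av_fst (F : LV Q → ℝ) : av (fun p : LV Q × Bool => F p.1) = av F := by
  unfold av
  rw [sum_fstB, Fintype.card_prod, Fintype.card_bool]
  push_cast
  rw [mul_comm (2 : ℝ), mul_div_mul_right _ _ (by norm_num)]

theorem KN_lohi (h : D.OK T) (hg : Gap T) (h8 : 8 ≤ T.card) (hn6 : 6 ≤ Fintype.card Q) {t : ℕ}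
    (ht : 16 * D.CC0 T * ((Fintype.card Q : ℝ) * Real.log (Fintype.card Q)) ≤ t) {F : LV Q → ℝ} (hF : ∀ x, 0 ≤ F x) (u : LV Q) :
    (1 - 10 / (Fintype.card Q : ℝ) ^ 2) * av F ≤ (D.KN T ^ (2 * t)) F u ∧ (D.KN T ^ (2 * t)) F u ≤ (1 + 10 / (Fintype.card Q : ℝ) ^ 2) * av F := by
  have h2 := pwN_lo (h1 := h.one) (hinv := h.inv) h (KN_unif h hg h8 hn6 ht) (F := fun p => F p.1) (fun p => hF p.1) (u, true)
  rw [pwN_fst h, av_fst] at h2
  exact h2

end chain

theorem sum_nsq (F : LV Q → ℝ) : ∑ u, (F u) ^ 2 = nsq F := by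
  unfold nsq
  rw [Fintype.sum_prod_type]
  apply Finset.sum_congr rfl; intro f _
  rw [Fintype.sum_prod_type]

theorem exp7 : Real.exp (-7) ≤ 1 / 400 := by
  rw [Real.exp_neg, ← one_div]
  apply one_div_le_one_div_of_le (by norm_num)
  have h1 : Real.exp 7 = Real.exp 1 ^ 7 := by rw [← Real.exp_nat_mul]; norm_num
  rw [h1]
  have h2 : (2.7 : ℝ) ≤ Real.exp 1 := by have := Real.exp_one_gt_d9; linarith
  calc (400 : ℝ) ≤ 2.7 ^ 7 := by norm_num
    _ ≤ _ := by gcongr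

theorem pow_dec {c : ℝ} (hc0 : 0 ≤ c) (hc1 : c ≤ 1) {s : ℕ} (hs : 7 ≤ c * s) (i : ℕ) : (1 - c) ^ (s * i) ≤ (1 / 20) ^ (2 * i) := by
  rw [pow_mul, pow_mul]
  apply pow_le_pow_left₀ (by apply pow_nonneg; linarith)
  calc (1 - c) ^ s ≤ Real.exp (-c) ^ s := by
        apply pow_le_pow_left₀ (by linarith)
        have := Real.add_one_le_exp (-c); linarith
    _ = Real.exp (-(c * s)) := by rw [← Real.exp_nat_mul]; congr 1; ring
    _ ≤ Real.exp (-7) := Real.exp_le_exp.mpr (by linarith)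
    _ ≤ 1 / 400 := exp7
    _ = (1 / 20) ^ 2 := by norm_num

theorem sum_LV_f (χ : Q → ℝ) (x : Q) :
    (Fintype.card Q : ℝ) * ∑ u : LV Q, χ (u.1 x) = (Fintype.card (LV Q) : ℝ) * ∑ q, χ q := by
  have e1 : ∑ u : LV Q, χ (u.1 x) = (Fintype.card Q : ℝ) ^ 2 * ∑ f : Q → Q, χ (f x) := by
    rw [Fintype.sum_prod_type, Finset.mul_sum]
    apply Finset.sum_congr rfl; intro f _
    simp only [Finset.sum_const, Finset.card_univ, Fintype.card_prod, nsmul_eq_mul]
    push_cast; ring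
  have e2 : (Fintype.card Q : ℝ) * ∑ f : Q → Q, χ (f x) = (Fintype.card (Q → Q) : ℝ) * ∑ q, χ q := by
    rw [← sum_update (fun f => χ (f x)) x]
    simp only [Function.update_self]
    rw [Finset.sum_const, Finset.card_univ, nsmul_eq_mul]
  have e3 : (Fintype.card (LV Q) : ℝ) = (Fintype.card (Q → Q) : ℝ) * (Fintype.card Q : ℝ) ^ 2 := by
    rw [Fintype.card_prod, Fintype.card_prod]; push_cast; ring
  rw [e1, e3]
  calc (Fintype.card Q : ℝ) * ((Fintype.card Q : ℝ) ^ 2 * ∑ f : Q → Q, χ (f x))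
      = (Fintype.card Q : ℝ) ^ 2 * ((Fintype.card Q : ℝ) * ∑ f : Q → Q, χ (f x)) := by ring
    _ = _ := by rw [e2]; ring

theorem sum_LV_y (χ : Q → ℝ) : (Fintype.card Q : ℝ) * ∑ u : LV Q, χ u.2.1 = (Fintype.card (LV Q) : ℝ) * ∑ q, χ q := by
  have e1 : ∑ u : LV Q, χ u.2.1 = (Fintype.card (Q → Q) : ℝ) * ((Fintype.card Q : ℝ) * ∑ q, χ q) := by
    rw [Fintype.sum_prod_type]
    have : ∀ f : Q → Q, ∑ p : Q × Q, χ p.1 = (Fintype.card Q : ℝ) * ∑ q, χ q := by
      intro f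
      rw [Fintype.sum_prod_type, Finset.mul_sum]
      apply Finset.sum_congr rfl; intro y _
      simp only [Finset.sum_const, Finset.card_univ, nsmul_eq_mul]
    rw [Finset.sum_congr rfl (fun f _ => this f), Finset.sum_const, Finset.card_univ, nsmul_eq_mul]
  have e3 : (Fintype.card (LV Q) : ℝ) = (Fintype.card (Q → Q) : ℝ) * (Fintype.card Q : ℝ) ^ 2 := by
    rw [Fintype.card_prod, Fintype.card_prod]; push_cast; ring
  rw [e1, e3]; ring

theorem CC0_ge1 (h : D.OK T) : 1 ≤ D.CC0 T := by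
  unfold PD.CC0
  have := h.W1; have := h.K1
  have : 0 ≤ 2 * (T.card : ℝ) * D.W0 := by positivity
  have : 0 ≤ (T.card : ℝ) * D.P.K := by positivity
  linarith

/-- The second moment data for the clock. -/
theorem SM_E (h : D.OK T) (hg : Gap T) (h8 : 8 ≤ T.card) (hn10 : 10 ≤ Fintype.card Q) {t s : ℕ}
    (ht : 16 * D.CC0 T * ((Fintype.card Q : ℝ) * Real.log (Fintype.card Q)) ≤ t) (hs : 14 * D.CC0 T * Fintype.card Q ≤ s) (Z : Finset Q) :
    SM (D.KN T) (fun u => u.1 D.xE ∈ Z) (2 * t) s (Z.card / Fintype.card Q) (1 / 20) (10 / (Fintype.card Q : ℝ) ^ 2) := by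
  have hn : (10 : ℝ) ≤ Fintype.card Q := by exact_mod_cast hn10
  have hn0 : (0 : ℝ) < Fintype.card Q := by linarith
  have hC := D.CC0_pos h
  have hC1 := CC0_ge1 h
  have hr := KN_rates h h8
  have : Nonempty (LV Q) := ⟨(fun _ => 1, 1, 1)⟩
  have hV : (0 : ℝ) < Fintype.card (LV Q) := by exact_mod_cast Fintype.card_pos
  obtain ⟨χ, hχ⟩ : ∃ χ : Q → ℝ, χ = fun q => if q ∈ Z then (1 : ℝ) else 0 := ⟨_, rfl⟩
  have hsum : ∑ q, χ q = Z.card := by rw [hχ]; simp
  have hind : ∀ u : LV Q, ind (fun u : LV Q => u.1 D.xE ∈ Z) u = χ (u.1 D.xE) := by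
    intro u; unfold ind; rw [hχ]
    by_cases hq : u.1 D.xE ∈ Z
    · simp only [if_pos hq]
    · simp only [if_neg hq]
  have hzc : av (ind (fun u : LV Q => u.1 D.xE ∈ Z)) = Z.card / Fintype.card Q := by
    unfold av
    rw [Finset.sum_congr rfl (fun u _ => hind u)]
    have h2 := sum_LV_f χ D.xE
    rw [hsum] at h2
    rw [div_eq_div_iff hV.ne' hn0.ne']
    linarith
  refine ⟨(D.AW_N h).MK h.card, KN_inv h, hzc, by norm_num, by norm_num, by positivity, ?_, ?_, ?_, ?_⟩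
  · rw [div_le_div_iff₀ (by positivity) (by norm_num)]; nlinarith
  · intro F hF x; exact (KN_lohi h hg h8 (by omega) ht hF x).1
  · intro F hF x; exact (KN_lohi h hg h8 (by omega) ht hF x).2
  · intro i
    obtain ⟨g, hgd⟩ : ∃ g : LV Q → ℝ, g = fun u => ind (fun u : LV Q => u.1 D.xE ∈ Z) u - Z.card / Fintype.card Q := ⟨_, rfl⟩
    have hgv : ∀ u, g u = χ (u.1 D.xE) - Z.card / Fintype.card Q := by intro u; rw [hgd]; simp only; rw [hind]
    have hHS : HS {D.xE} g := by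
      constructor
      · intro x hx f y e
        rw [Finset.mem_singleton] at hx
        subst hx
        simp only [hgv, Function.update_self]
        rw [Finset.sum_sub_distrib, Finset.sum_const, Finset.card_univ, nsmul_eq_mul, hsum]
        field_simp; ring
      · intro x hx f q y e
        rw [Finset.mem_singleton] at hx
        simp only [hgv]
        rw [Function.update_of_ne (Ne.symm hx)]
    rw [KN_E0 h, ← pow_mul, ← hgd]
    have e1 : ∑ x, (ind (fun u : LV Q => u.1 D.xE ∈ Z) x - Z.card / Fintype.card Q) ^ 2 = nsq g := by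
      rw [← sum_nsq, hgd]
    rw [e1, sum_nsq]
    have h2 := HS_pow hg hr (S := {D.xE}) (by simp) (s * i) hHS
    refine h2.trans ?_
    apply mul_le_mul_of_nonneg_right _ (nsq_nonneg _)
    rw [Finset.card_singleton]
    have hCn : 0 < 1 / (2 * D.CC0 T) * ((1 : ℕ) : ℝ) / Fintype.card Q := by push_cast; positivity
    refine pow_dec hCn.le ?_ ?_ i
    · push_cast
      rw [mul_one, div_div, div_le_one (by positivity)]
      nlinarith
    · push_cast
      have e1 : 1 / (2 * D.CC0 T) * 1 / (Fintype.card Q : ℝ) * s = s / (2 * D.CC0 T * Fintype.card Q) := by field_simp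
      rw [e1, le_div_iff₀ (by positivity)]
      linarith

/-- The second moment data for the position. -/
theorem SM_y (h : D.OK T) (hg : Gap T) (h8 : 8 ≤ T.card) (hn10 : 10 ≤ Fintype.card Q) {t s : ℕ}
    (ht : 16 * D.CC0 T * ((Fintype.card Q : ℝ) * Real.log (Fintype.card Q)) ≤ t) (hs : 14 * D.CC0 T ≤ s) (x0 : Q) :
    SM (D.KN T) (fun u => u.2.1 = x0) (2 * t) s (1 / Fintype.card Q) (1 / 20) (10 / (Fintype.card Q : ℝ) ^ 2) := by
  have hn : (10 : ℝ) ≤ Fintype.card Q := by exact_mod_cast hn10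
  have hn0 : (0 : ℝ) < Fintype.card Q := by linarith
  have hC := D.CC0_pos h
  have hC1 := CC0_ge1 h
  have hr := KN_rates h h8
  have : Nonempty (LV Q) := ⟨(fun _ => 1, 1, 1)⟩
  have hV : (0 : ℝ) < Fintype.card (LV Q) := by exact_mod_cast Fintype.card_pos
  obtain ⟨χ, hχ⟩ : ∃ χ : Q → ℝ, χ = fun q => if q = x0 then (1 : ℝ) else 0 := ⟨_, rfl⟩
  have hsum : ∑ q, χ q = 1 := by rw [hχ]; simp
  have hind : ∀ u : LV Q, ind (fun u : LV Q => u.2.1 = x0) u = χ u.2.1 := by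
    intro u; unfold ind; rw [hχ]
  have hzc : av (ind (fun u : LV Q => u.2.1 = x0)) = 1 / Fintype.card Q := by
    unfold av
    rw [Finset.sum_congr rfl (fun u _ => hind u)]
    have h2 := sum_LV_y χ
    rw [hsum] at h2
    rw [div_eq_div_iff hV.ne' hn0.ne']
    linarith
  refine ⟨(D.AW_N h).MK h.card, KN_inv h, hzc, by norm_num, by norm_num, by positivity, ?_, ?_, ?_, ?_⟩
  · rw [div_le_div_iff₀ (by positivity) (by norm_num)]; nlinarith
  · intro F hF x; exact (KN_lohi h hg h8 (by omega) ht hF x).1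
  · intro F hF x; exact (KN_lohi h hg h8 (by omega) ht hF x).2
  · intro i
    obtain ⟨g, hgd⟩ : ∃ g : LV Q → ℝ, g = fun u => ind (fun u : LV Q => u.2.1 = x0) u - 1 / Fintype.card Q := ⟨_, rfl⟩
    have hgv : ∀ u, g u = χ u.2.1 - 1 / Fintype.card Q := by intro u; rw [hgd]; simp only; rw [hind]
    have hHS : HS ∅ g := by
      constructor
      · intro x hx; simp at hx
      · intro x hx f q y e; simp only [hgv]
    have h0 : ∀ f : Q → Q, ∑ y, ∑ e, g (f, y, e) = 0 := by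
      intro f
      simp only [hgv, Finset.sum_const, Finset.card_univ, nsmul_eq_mul, ← Finset.mul_sum, Finset.sum_sub_distrib, hsum]
      field_simp; ring
    rw [KN_E0 h, ← pow_mul, ← hgd]
    have e1 : ∑ x, (ind (fun u : LV Q => u.2.1 = x0) x - 1 / Fintype.card Q) ^ 2 = nsq g := by
      rw [← sum_nsq, hgd]
    rw [e1, sum_nsq]
    have h2 := HS_pow0 hg hr (s * i) hHS h0
    refine h2.trans ?_
    apply mul_le_mul_of_nonneg_right _ (nsq_nonneg _)
    refine pow_dec (by positivity) ?_ ?_ i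
    · rw [div_le_one (by positivity)]
      linarith
    · rw [one_div_mul_eq_div, le_div_iff₀ (by positivity)]
      linarith

/-! ### Functions of the clock and the position -/

/-- Functions of the clock and the position. -/
def EY (x : Q) (F : LV Q → ℝ) : Prop := ∀ u v : LV Q, u.1 x = v.1 x → u.2.1 = v.2.1 → F u = F v

theorem mv_at (f : Q → Q) (y t x : Q) : mv f y t x = if x = y then f x * t else f x := by
  unfold mv
  by_cases h : x = y
  · subst h; simp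
  · rw [Function.update_of_ne h, if_neg h]

theorem EY_KN (F : LV Q → ℝ) (hF : EY D.xE F) : EY D.xE (D.KN T F) := by
  intro u v h1 h2
  obtain ⟨f, y, e⟩ := u
  obtain ⟨f', y', e'⟩ := v
  simp only at h1 h2
  subst h2
  show Op T D.W0 (D.CC0 T) (fun u _ => D.wy u.2.1) F (f, y, e) = Op T D.W0 (D.CC0 T) (fun u _ => D.wy u.2.1) F (f', y, e')
  unfold Op
  simp only
  rw [Pb_apply, Pb_apply]
  unfold Av
  have a1 : F (f, y, e) = F (f', y, e') := hF _ _ h1 rfl
  have a2 : ∀ t, F (f, y * t, e) = F (f', y * t, e') := fun t => hF _ _ h1 rfl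
  have a3 : ∀ t, F (f, y, e * t) = F (f', y, e' * t) := fun t => hF _ _ h1 rfl
  have a4 : ∀ t, F (mv f y t, y, e) = F (mv f' y t, y, e') := fun t => hF _ _ (by
    simp only; rw [mv_at, mv_at, h1]) rfl
  simp only [a1, a2, a3, a4]

theorem KP_EY (F : LV Q → ℝ) (hF : EY D.xE F) : D.KP T F = D.KN T F := by
  ext u
  obtain ⟨f, y, e⟩ := u
  show Op T D.W0 (D.CC0 T) D.wP F (f, y, e) = Op T D.W0 (D.CC0 T) (fun u _ => D.wy u.2.1) F (f, y, e)
  unfold Op
  simp only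
  congr 3
  apply Finset.sum_congr rfl; intro t _
  by_cases hy : y = D.xE
  · subst hy
    have e1 : D.wP (f, D.xE, e) t = D.wy D.xE := by
      unfold PD.wP
      rw [D.wL_E]
      have : D.wy D.xE = 1 := by unfold PD.wy; simp
      simp only [this]
      split_ifs <;> rfl
    rw [e1]
  · have e1 : F (mv f y t, y, e) = F (f, y, e) := hF _ _ (by
      simp only; rw [mv_at, if_neg (fun h' : D.xE = y => hy h'.symm)]) rfl
    rw [e1]; simp

theorem hit_EY {S : LV Q → Prop} (hS : ∀ u v : LV Q, u.1 D.xE = v.1 D.xE → u.2.1 = v.2.1 → (S u ↔ S v)) (t : ℕ) :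
    hit (D.KP T) S t = hit (D.KN T) S t ∧ EY D.xE (hit (D.KN T) S t) := by
  induction t with
  | zero =>
    refine ⟨rfl, ?_⟩
    intro u v h1 h2
    rw [hit_zero, hit_zero]
    have := hS u v h1 h2
    by_cases hu : S u
    · rw [if_pos hu, if_pos (this.mp hu)]
    · rw [if_neg hu, if_neg (fun h' => hu (this.mpr h'))]
  | succ t ih =>
    obtain ⟨ih1, ih2⟩ := ih
    constructor
    · ext u
      rw [hit_succ, hit_succ, ih1, KP_EY _ ih2]
    · intro u v h1 h2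
      rw [hit_succ, hit_succ]
      have := hS u v h1 h2
      by_cases hu : S u
      · rw [if_pos hu, if_pos (this.mp hu)]
      · rw [if_neg hu, if_neg (fun h' => hu (this.mpr h'))]
        exact EY_KN _ ih2 u v h1 h2

/-! ### Local comparison -/

theorem Op_congr {W0 C : ℝ} {w : LV Q → Q → ℝ} {F G : LV Q → ℝ} {u : LV Q} (h1 : ∀ y e, F (u.1, y, e) = G (u.1, y, e))
    (h2 : ∀ t ∈ T, F (mv u.1 u.2.1 t, u.2.1, u.2.2) = G (mv u.1 u.2.1 t, u.2.1, u.2.2)) :
    Op T W0 C w F u = Op T W0 C w G u := by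
  unfold Op
  have e0 : F u = G u := h1 u.2.1 u.2.2
  have e1 : (fun y e => F (u.1, y, e)) = fun y e => G (u.1, y, e) := by ext y e; exact h1 y e
  rw [e1, e0]
  congr 3
  apply Finset.sum_congr rfl; intro t ht
  rw [h2 t ht]

/-- Convex form of the operator. -/
theorem Op_form {W0 C : ℝ} {w : LV Q → Q → ℝ} (hC : 0 < C) (hT : 0 < T.card) (F : LV Q → ℝ) (u : LV Q) :
    Op T W0 C w F u = (1 - (2 * T.card * W0 + ∑ t ∈ T, w u t) / (2 * C)) * F u
      + (W0 * (∑ t ∈ T, F (u.1, u.2.1 * t, u.2.2) + ∑ t ∈ T, F (u.1, u.2.1, u.2.2 * t))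
        + ∑ t ∈ T, w u t * F (mv u.1 u.2.1 t, u.2.1, u.2.2)) / (2 * C) := by
  have hTr : (0 : ℝ) < T.card := by exact_mod_cast hT
  unfold Op
  rw [Pb_apply]
  unfold Av
  simp only [mul_sub, Finset.sum_sub_distrib, ← Finset.sum_mul]
  field_simp
  ring

theorem Op_lb1 {W0 C : ℝ} {w : LV Q → Q → ℝ} (h : AW T W0 C w) (hT : 0 < T.card) {F : LV Q → ℝ} (hF : ∀ u, 0 ≤ F u) (u : LV Q)
    {t : Q} (ht : t ∈ T) : W0 / (2 * C) * F (u.1, u.2.1 * t, u.2.2) ≤ Op T W0 C w F u := by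
  have hC := h.C0
  rw [Op_form hC hT]
  have h2 : 0 ≤ 1 - (2 * T.card * W0 + ∑ t ∈ T, w u t) / (2 * C) := by
    have := h.tot u
    rw [sub_nonneg, div_le_one (by positivity)]; linarith
  have h3 : F (u.1, u.2.1 * t, u.2.2) ≤ ∑ t ∈ T, F (u.1, u.2.1 * t, u.2.2) :=
    Finset.single_le_sum (f := fun t => F (u.1, u.2.1 * t, u.2.2)) (fun t _ => hF _) ht
  have h4 : 0 ≤ ∑ t ∈ T, F (u.1, u.2.1, u.2.2 * t) := Finset.sum_nonneg (fun t _ => hF _)
  have h5 : 0 ≤ ∑ t ∈ T, w u t * F (mv u.1 u.2.1 t, u.2.1, u.2.2) := Finset.sum_nonneg (fun t ht => mul_nonneg (h.w0 u t ht) (hF _))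
  have h6 := h.W00
  have h7 := mul_nonneg h2 (hF u)
  have h8 : W0 / (2 * C) * F (u.1, u.2.1 * t, u.2.2) = (W0 * F (u.1, u.2.1 * t, u.2.2)) / (2 * C) := by ring
  rw [h8]
  have h9 : (W0 * F (u.1, u.2.1 * t, u.2.2)) / (2 * C) ≤ (W0 * (∑ t ∈ T, F (u.1, u.2.1 * t, u.2.2) + ∑ t ∈ T, F (u.1, u.2.1, u.2.2 * t))
        + ∑ t ∈ T, w u t * F (mv u.1 u.2.1 t, u.2.1, u.2.2)) / (2 * C) := by
    apply div_le_div_of_nonneg_right _ (by positivity)
    have := mul_le_mul_of_nonneg_left h3 h6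
    have := mul_nonneg h6 h4
    linarith
  linarith

theorem Op_lb2 {W0 C : ℝ} {w : LV Q → Q → ℝ} (h : AW T W0 C w) (hT : 0 < T.card) {F : LV Q → ℝ} (hF : ∀ u, 0 ≤ F u) (u : LV Q)
    {t : Q} (ht : t ∈ T) : w u t / (2 * C) * F (mv u.1 u.2.1 t, u.2.1, u.2.2) ≤ Op T W0 C w F u := by
  have hC := h.C0
  rw [Op_form hC hT]
  have h2 : 0 ≤ 1 - (2 * T.card * W0 + ∑ t ∈ T, w u t) / (2 * C) := by
    have := h.tot u
    rw [sub_nonneg, div_le_one (by positivity)]; linarith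
  have h3 : w u t * F (mv u.1 u.2.1 t, u.2.1, u.2.2) ≤ ∑ t ∈ T, w u t * F (mv u.1 u.2.1 t, u.2.1, u.2.2) :=
    Finset.single_le_sum (f := fun t => w u t * F (mv u.1 u.2.1 t, u.2.1, u.2.2)) (fun t ht => mul_nonneg (h.w0 u t ht) (hF _)) ht
  have h4 : 0 ≤ ∑ t ∈ T, F (u.1, u.2.1, u.2.2 * t) := Finset.sum_nonneg (fun t _ => hF _)
  have h5 : 0 ≤ ∑ t ∈ T, F (u.1, u.2.1 * t, u.2.2) := Finset.sum_nonneg (fun t _ => hF _)
  have h6 := h.W00
  have h7 := mul_nonneg h2 (hF u)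
  have h8 : w u t / (2 * C) * F (mv u.1 u.2.1 t, u.2.1, u.2.2) = (w u t * F (mv u.1 u.2.1 t, u.2.1, u.2.2)) / (2 * C) := by ring
  rw [h8]
  have h9 : (w u t * F (mv u.1 u.2.1 t, u.2.1, u.2.2)) / (2 * C) ≤ (W0 * (∑ t ∈ T, F (u.1, u.2.1 * t, u.2.2) + ∑ t ∈ T, F (u.1, u.2.1, u.2.2 * t))
        + ∑ t ∈ T, w u t * F (mv u.1 u.2.1 t, u.2.1, u.2.2)) / (2 * C) := by
    apply div_le_div_of_nonneg_right _ (by positivity)
    have := mul_nonneg h6 (add_nonneg h5 h4)
    linarith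
  linarith

end PC

end Pool.Agent.H984
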