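import Pool.Agent.H984.Fin3

/-!
H984: the parameters of the ratchet exist, with uniform choices for all large `L'`.
-/

set_option autoImplicit false

open Classical Filter

namespace Pool.Agent.H984

namespace PC

/-- The parameters exist. -/
theorem num_exists2 {p M : ℕ} (hp : 101 ≤ p) (hM : 1 ≤ M) :
    ∃ (R : ℕ) (ep δ : ℝ), ∀ᶠ l : ℕ in atTop, ∃ τ : ℕ, 2 ≤ τ ∧ ∀ n : ℕ, 2 ^ l ≤ n → n ≤ p ^ (1200 * l) →
      Num M R (p ^ 2 - 1) l τ n (16 * M) (97 / 100 * ((p : ℝ) ^ 2 - p)) ep δ ∧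
      M * ((p ^ 2 - 1 : ℕ) : ℝ) * (12 / R + 32 / l) + 2 * M * ep
        + (3 / 4) ^ τ * (n : ℝ) ^ 2 * Fintype.card (Ix M R) * (6 * ((p ^ 2 - 1 : ℕ) : ℝ)) ≤ 1 / (2 * (16 * M)) := by
  obtain ⟨d, hd⟩ : ∃ d : ℕ, d = p ^ 2 - 1 := ⟨_, rfl⟩
  have hp2 : 1 ≤ p ^ 2 := Nat.one_le_pow _ _ (by omega)
  have hp3 : 101 * 101 ≤ p ^ 2 := by rw [pow_two]; exact Nat.mul_le_mul hp hp
  have hdN : 10000 ≤ d := by omega
  have hdr : (d : ℝ) = (p : ℝ) ^ 2 - 1 := by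
    rw [hd, Nat.cast_sub hp2]; push_cast; ring
  rw [← hd]
  have hpr : (101 : ℝ) ≤ p := by exact_mod_cast hp
  have hMr : (1 : ℝ) ≤ M := by exact_mod_cast hM
  have hM0 : (0 : ℝ) < M := by linarith
  have hdR : (10000 : ℝ) ≤ d := by exact_mod_cast hdN
  have hd0 : (0 : ℝ) < d := by linarith
  obtain ⟨R, hR⟩ : ∃ R : ℕ, R = 2000 + 12800 * M ^ 2 * d := ⟨_, rfl⟩
  have hRr : (R : ℝ) = 2000 + 12800 * (M : ℝ) ^ 2 * d := by rw [hR]; push_cast; ring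
  have hR0 : (0 : ℝ) < R := by rw [hRr]; positivity
  have hR1 : (1 : ℝ) ≤ R := by rw [hRr]; nlinarith [sq_nonneg (M : ℝ), mul_nonneg (sq_nonneg (M : ℝ)) hd0.le]
  obtain ⟨c, hc⟩ : ∃ c : ℕ, c = Fintype.card (Ix M R) := ⟨_, rfl⟩
  obtain ⟨ep, hep⟩ : ∃ ep : ℝ, ep = 1 / (256 * (M : ℝ) ^ 2) := ⟨_, rfl⟩
  have hep0 : 0 < ep := by rw [hep]; positivity
  have hM2 : (1 : ℝ) ≤ (M : ℝ) ^ 2 := one_le_pow₀ hMr
  have hep8 : ep ≤ 1 / 8 := by
    rw [hep]; apply one_div_le_one_div_of_le (by norm_num); linarith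
  obtain ⟨W, hW⟩ : ∃ W : ℝ, W = ((c : ℝ) + 1) * (3 * d + 1) * (R : ℝ) ^ (M - 1) := ⟨_, rfl⟩
  have hRp : (1 : ℝ) ≤ (R : ℝ) ^ (M - 1) := one_le_pow₀ hR1
  have hc0 : (0 : ℝ) ≤ c := Nat.cast_nonneg _
  have hW1 : 1 ≤ W := by
    rw [hW]
    have h1 : (1 : ℝ) ≤ ((c : ℝ) + 1) * (3 * d + 1) := by nlinarith
    nlinarith
  obtain ⟨δ, hδ⟩ : ∃ δ : ℝ, δ = ep / W := ⟨_, rfl⟩
  have hδ0 : 0 < δ := by rw [hδ]; positivity
  have hδ1 : δ < 1 := by
    rw [hδ, div_lt_one (by linarith)]; linarith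
  have hbig : ∀ᶠ l : ℕ in atTop, ∀ s ∈ Finset.range M, 2 * Real.exp (2 * (R : ℝ) ^ (M - 1 - s) * Real.log (16 * M)) + M * ((R : ℝ) ^ (M - 1 - s) * l)
      ≤ Real.exp ((R : ℝ) ^ (M - 1 - s) * l / 200) := by
    rw [Filter.eventually_all_finset]
    intro s _
    exact ev_big (one_le_pow₀ hR1) hM0.le
  refine ⟨R, ep, δ, ?_⟩
  filter_upwards [eventually_ge_atTop 20, eventually_ge_atTop ⌈25600 * (M : ℝ) ^ 2 * d⌉₊, ev_pow one_lt_two (1000 * (M : ℝ) ^ 2 * d),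
    ev_pow one_lt_two ((R : ℝ) ^ (M - 1)), ev_pow one_lt_two (3 * (2400 * p + 1)),
    ev_pow one_lt_two (c * (3 * (2400 * p + 1) / δ) ^ 2), ev_pow one_lt_two (600 * M * c * d), hbig]
    with l hl1 hl2 hl3 hl4 hl5 hl6 hl7 hl8
  have hl2' : 25600 * (M : ℝ) ^ 2 * d ≤ l := by
    have := Nat.ceil_le.mp hl2; exact this
  have hlr : (1 : ℝ) ≤ l := by exact_mod_cast (by omega : 1 ≤ l)
  have hl0' : (0 : ℝ) < l := by linarith
  have hlsq : (1 : ℝ) ≤ (l : ℝ) ^ 2 := one_le_pow₀ hlr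
  have hlsq' : (l : ℝ) ≤ (l : ℝ) ^ 2 := by nlinarith
  have h2l : (0 : ℝ) < 2 ^ l := by positivity
  have h250 : (2 : ℝ) ^ l ≤ 2 ^ (50 * l) := pow_le_pow_right₀ (by norm_num) (by omega)
  have h2100 : (2 : ℝ) ^ l ≤ 2 ^ (100 * l + 1) := pow_le_pow_right₀ (by norm_num) (by omega)
  -- consequences
  have k3 : 1000 * (M : ℝ) ^ 2 * d ≤ 2 ^ l := by
    have : 1000 * (M : ℝ) ^ 2 * d * 1 ≤ 1000 * (M : ℝ) ^ 2 * d * (l : ℝ) ^ 2 := mul_le_mul_of_nonneg_left hlsq (by positivity)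
    linarith
  have k8 : 600 * (M : ℝ) * c * d ≤ 2 ^ l := by
    have : 600 * (M : ℝ) * c * d * 1 ≤ 600 * M * c * d * (l : ℝ) ^ 2 := mul_le_mul_of_nonneg_left hlsq (by positivity)
    linarith
  have kR : (12800 : ℝ) * (M : ℝ) ^ 2 * d ≤ R := by rw [hRr]; linarith
  have kdR : (d : ℝ) / R ≤ 1 / (12800 * (M : ℝ) ^ 2) := by
    rw [div_le_div_iff₀ hR0 (by positivity)]; linarith
  have kdl : (d : ℝ) / l ≤ 1 / (25600 * (M : ℝ) ^ 2) := by
    rw [div_le_div_iff₀ hl0' (by positivity)]; linarith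
  have kd2 : (d : ℝ) / 2 ^ (50 * l) ≤ 1 / (1000 * (M : ℝ) ^ 2) := by
    rw [div_le_div_iff₀ (by positivity) (by positivity)]; linarith
  have k12 : (1 : ℝ) / 2 ^ (50 * l) ≤ 1 / (1000 * (M : ℝ) ^ 2) := by
    refine le_trans ?_ kd2
    apply div_le_div_of_nonneg_right _ (by positivity)
    linarith
  obtain ⟨u, hu⟩ : ∃ u : ℝ, u = 1 / (M : ℝ) ^ 2 := ⟨_, rfl⟩
  have hu0 : 0 < u := by rw [hu]; positivity
  have u100 : 1 / (12800 * (M : ℝ) ^ 2) = u / 12800 := by rw [hu]; field_simp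
  have u256 : 1 / (25600 * (M : ℝ) ^ 2) = u / 25600 := by rw [hu]; field_simp
  have u16 : 1 / (1000 * (M : ℝ) ^ 2) = u / 1000 := by rw [hu]; field_simp
  have u8 : ep = u / 256 := by rw [hep, hu]; field_simp
  rw [u100] at kdR
  rw [u256] at kdl
  rw [u16] at kd2 k12
  refine ⟨3 * ((2400 * p + 1) * l), ?_, fun n hn1 hn2 => ?_⟩
  · have : 1 ≤ (2400 * p + 1) * l := Nat.mul_pos (by omega) (by omega)
    omega
  have hn1r : (2 : ℝ) ^ l ≤ n := by exact_mod_cast hn1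
  -- the error terms
  have h2 : (M : ℝ) * d * (12 / R + 32 / l) ≤ 1 / M * (1 / 400) := by
    have e1 : (M : ℝ) * d * (12 / R + 32 / l) = M * (12 * (d / R) + 32 * (d / l)) := by ring
    rw [e1]
    have e2 : (M : ℝ) * (12 * (d / R) + 32 * (d / l)) ≤ M * (12 * (u / 12800) + 32 * (u / 25600)) := by gcongr
    refine e2.trans ?_
    have e3 : (M : ℝ) * (12 * (u / 12800) + 32 * (u / 25600)) = 1 / M * (12 / 12800 + 32 / 25600) := by
      rw [hu]; field_simp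
    rw [e3]
    apply mul_le_mul_of_nonneg_left _ (by positivity)
    norm_num
  have h3 : 2 * (M : ℝ) * ep = 1 / M * (1 / 128) := by rw [hep]; field_simp; norm_num
  have h4 : (3 / 4 : ℝ) ^ (3 * ((2400 * p + 1) * l)) * (n : ℝ) ^ 2 * c * (6 * d) ≤ 1 / M * (1 / 100) := by
    have f1 := three_quarters ((2400 * p + 1) * l)
    have f2 : (n : ℝ) ≤ 2 ^ (1200 * p * l) := by
      have g1 : (n : ℝ) ≤ (p : ℝ) ^ (1200 * l) := by exact_mod_cast hn2
      have g2 : (p : ℝ) ≤ 2 ^ p := by exact_mod_cast Nat.lt_two_pow_self.le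
      calc (n : ℝ) ≤ (p : ℝ) ^ (1200 * l) := g1
        _ ≤ (2 ^ p) ^ (1200 * l) := by gcongr
        _ = 2 ^ (1200 * p * l) := by rw [← pow_mul]; congr 1; ring
    have f3 : (n : ℝ) ^ 2 ≤ 2 ^ (2400 * p * l) := by
      calc (n : ℝ) ^ 2 ≤ (2 ^ (1200 * p * l)) ^ 2 := by gcongr
        _ = 2 ^ (2400 * p * l) := by rw [← pow_mul]; congr 1; ring
    have f4 : (3 / 4 : ℝ) ^ (3 * ((2400 * p + 1) * l)) * (n : ℝ) ^ 2 ≤ 1 / 2 ^ l := by
      calc _ ≤ 1 / 2 ^ ((2400 * p + 1) * l) * (2 : ℝ) ^ (2400 * p * l) := by gcongr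
        _ = 1 / 2 ^ l := by
          have : (2400 * p + 1) * l = 2400 * p * l + l := by ring
          rw [this, pow_add]; field_simp
    calc (3 / 4 : ℝ) ^ (3 * ((2400 * p + 1) * l)) * (n : ℝ) ^ 2 * c * (6 * d) ≤ 1 / 2 ^ l * c * (6 * d) := by gcongr
      _ = (6 * c * d) / 2 ^ l := by ring
      _ ≤ 1 / (100 * M) := by
          rw [div_le_div_iff₀ h2l (by positivity)]; linarith
      _ = 1 / M * (1 / 100) := by field_simp
  have h5 : 0 < 1 / (M : ℝ) := by positivity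
  have herr : M * (d : ℝ) * (12 / R + 32 / l) + 2 * M * ep
        + (3 / 4) ^ (3 * ((2400 * p + 1) * l)) * (n : ℝ) ^ 2 * Fintype.card (Ix M R) * (6 * d) ≤ 1 / (2 * (16 * M)) := by
    rw [← hc, h3]
    have h6 : 1 / (2 * (16 * (M : ℝ))) = 1 / M * (1 / 32) := by field_simp; norm_num
    rw [h6]
    have h7 : 1 / (M : ℝ) * (1 / 400) + 1 / M * (1 / 128) + 1 / M * (1 / 100) ≤ 1 / M * (1 / 32) := by
      have : 1 / (M : ℝ) * (1 / 400) + 1 / M * (1 / 128) + 1 / M * (1 / 100) = 1 / M * (1 / 400 + 1 / 128 + 1 / 100) := by ring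
      rw [this]
      apply mul_le_mul_of_nonneg_left _ h5.le
      norm_num
    linarith
  refine ⟨?_, herr⟩
  refine
    { hM := hM
      hR := by rw [hR]; omega
      hd := hdN
      dp1 := by rw [hdr]; nlinarith
      dp2 := by rw [hdr]; nlinarith
      A1 := by linarith
      L1 := hl1
      mn := fun j hj => ?_
      ep0 := hep0
      ep1 := by linarith
      e1 := ?_
      e2 := ?_
      e3 := ?_
      e4 := ?_
      tau1 := ?_
      tauQ := ?_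
      del0 := hδ0
      del1 := hδ1
      del := ?_
      sepc := ?_
      eta := ?_
      AL := ?_
      big := ?_ }
  · have h1 : (R : ℝ) ^ (M - 1 - j) * l ≤ n := by
      calc (R : ℝ) ^ (M - 1 - j) * l ≤ (R : ℝ) ^ (M - 1) * (l : ℝ) ^ 2 := by
            apply mul_le_mul (pow_le_pow_right₀ hR1 (by omega)) hlsq' hl0'.le (by positivity)
        _ ≤ 2 ^ l := hl4.le
        _ ≤ n := hn1r
    exact_mod_cast h1
  · have : (d : ℝ) * (4 / R) = 4 * (d / R) := by ring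
    rw [this, u8]; linarith
  · have : 2 * (d : ℝ) * (8 / l + 1 / R) = 16 * (d / l) + 2 * (d / R) := by ring
    rw [this, u8]; linarith
  · have : 2 * (d : ℝ) * (1 / 2 ^ (50 * l)) = 2 * (d / 2 ^ (50 * l)) := by ring
    rw [this, u8]; linarith
  · have : (d : ℝ) * (16 / l) = 16 * (d / l) := by ring
    rw [this, u8]; linarith
  · have : 1 ≤ (2400 * p + 1) * l := Nat.mul_pos (by omega) (by omega)
    omega
  · have h1 : ((3 * ((2400 * p + 1) * l) : ℕ) : ℝ) ≤ n := by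
      push_cast
      have h2 : 3 * ((2400 * (p : ℝ) + 1) * l) ≤ 3 * (2400 * p + 1) * (l : ℝ) ^ 2 := by
        have : 3 * (2400 * (p : ℝ) + 1) * l ≤ 3 * (2400 * p + 1) * (l : ℝ) ^ 2 :=
          mul_le_mul_of_nonneg_left hlsq' (by positivity)
        linarith
      linarith
    exact_mod_cast h1
  · rw [← hc, hδ]
    have h1 : ep / W * c * (3 * d) * (R : ℝ) ^ (M - 1) = ep * ((c * (3 * d) * (R : ℝ) ^ (M - 1)) / W) := by ring
    rw [h1]
    have h2 : (c * (3 * d) * (R : ℝ) ^ (M - 1)) / W ≤ 1 := by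
      rw [div_le_one (by linarith), hW]
      apply mul_le_mul_of_nonneg_right _ (by positivity)
      apply mul_le_mul (by linarith) (by linarith) (by positivity) (by positivity)
    calc ep * ((c * (3 * d) * (R : ℝ) ^ (M - 1)) / W) ≤ ep * 1 := mul_le_mul_of_nonneg_left h2 hep0.le
      _ = ep := mul_one _
  · rw [← hc]
    push_cast
    have h1 : (c : ℝ) * (3 * ((2400 * (p : ℝ) + 1) * l) / δ * (3 * ((2400 * (p : ℝ) + 1) * l) / δ))
        = c * (3 * (2400 * p + 1) / δ) ^ 2 * (l : ℝ) ^ 2 := by ring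
    rw [h1]; linarith
  · rw [← hc]
    rw [← hc] at herr
    have h1 : (4 : ℝ) / (16 * M) = 1 / M * (1 / 4) := by field_simp; norm_num
    have h6 : 1 / (2 * (16 * (M : ℝ))) = 1 / M * (1 / 32) := by field_simp; norm_num
    rw [h6] at herr
    rw [h1]
    linarith
  · have : 16 * (M : ℝ) ≤ 2 ^ l := by
      refine le_trans ?_ k3
      have g1 : (M : ℝ) ≤ (M : ℝ) ^ 2 := by nlinarith
      have g2 : (M : ℝ) ^ 2 * 1 ≤ (M : ℝ) ^ 2 * d := mul_le_mul_of_nonneg_left (by linarith) (by positivity)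
      linarith
    linarith
  · intro s hs
    exact hl8 s (Finset.mem_range.mpr hs)

end PC

end Pool.Agent.H984
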