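import Pool.Agent.H984.PcClk
import Pool.Agent.H984.PcNum

/-!
H984: the concrete perturbation and its mixing times.
-/

set_option autoImplicit false

open Classical

namespace Pool.Agent.H984

namespace PC

variable {Q : Type} [Group Q] [Fintype Q]

/-- The main index. -/
def ixT {M R : ℕ} (hM : 1 ≤ M) (hR : 0 < R) (b : Bool) : Ix M R := ⟨⟨M - 1, by omega⟩, (b, ⟨0, Nat.pow_pos hR⟩)⟩

/-- The concrete data. -/
noncomputable def mkD (M R d L' : ℕ) (A dp : ℝ) (lev : Q → ℕ) (site : Ix M R → Q) (x0 x1 : Ix M R) (t0 : Q) (T Z : Finset Q)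
    (kp kc : ℕ) : PD Q (Ix M R) where
  P := mkP Q M R d L' A dp
  lev := lev
  site := site
  x0 := x0
  x1 := x1
  xE := site x0 * t0
  fE q := kp * dZ T Z kc q
  W0 := 20000 * d * (1000 * d)

theorem last_mkP {M R d L' : ℕ} {A dp : ℝ} (hM : 1 ≤ M) (hR : 0 < R) (hA : 16 ≤ A) :
    Last (mkP Q M R d L' A dp) M (ixT hM hR true) (ixT hM hR false) where
  g0 := rfl
  g1 := rfl
  pair := by
    rintro ⟨⟨s, hsM⟩, b, i⟩ hx
    have hs : s = M - 1 := hx
    subst hs
    have hi : i = (⟨0, Nat.pow_pos hR⟩ : Fin (R ^ (M - 1 - (M - 1)))) := by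
      apply Fin.ext
      have h1 := i.2
      simp only [Nat.sub_self, pow_zero] at h1
      show (i : ℕ) = 0
      omega
    cases b
    · right; unfold ixT; rw [hi]
    · left; unfold ixT; rw [hi]
  ne := by
    intro h
    unfold ixT at h
    simp at h
  m1 := by
    show (R : ℝ) ^ (M - 1 - (M - 1)) = 1
    rw [Nat.sub_self, pow_zero]
  A16 := hA

/-- The total conductance as a function of the degree. -/
noncomputable def Cd (d : ℕ) : ℝ := 2 * d * (20000 * d * (1000 * d)) + d * (1000 * d) + 1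

/-- The Green bound. -/
noncomputable def XM (M R d : ℕ) (ep : ℝ) : ℝ :=
  (4 * (R : ℝ) ^ (M - 1) * Cd d / (1 / (100 * d) * ep * (1000 * d)))
    * (2 * (16 * M) ^ 2 + M * (1000 * d / (2 * Cd d) * (3 * (16 * M) + (4 * d + 2))))

/-- Factor in front of the clock term. -/
noncomputable def al1 (d kp : ℕ) : ℝ := d * (1000 * d) / (2 * Cd d) * (2 ^ (kp + 1) * (1 + 2 * Cd d / (20000 * d * (1000 * d))))

noncomputable def al2 (d : ℕ) : ℝ := d * (1000 * d) / (2 * Cd d)

theorem Cd_pos (d : ℕ) : 0 < Cd d := by unfold Cd; positivity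

theorem Cd_ge1 (d : ℕ) : 1 ≤ Cd d := by
  unfold Cd
  have : (0 : ℝ) ≤ 2 * d * (20000 * d * (1000 * d)) + d * (1000 * d) := by positivity
  linarith

/-- Conditions on `L'`. -/
structure NumE (M R d L' kp : ℕ) (ep ζ c : ℝ) : Prop where
  ep0 : 0 < ep
  kp1 : 2 * (d + 1) ≤ 2 ^ kp
  kp2 : 2 ^ kp ≤ 4 * (d + 1)
  kpL : kp ≤ L'
  ζ0 : 0 < ζ
  ζ1 : ζ ≤ 1 / 64
  ζ2 : 64 * al1 d kp * ζ * XM M R d ep ≤ 1
  n2 : 16 * (al1 d kp + al2 d) * XM M R d ep * L' ^ 2 ≤ 2 ^ L'
  n3 : L' ≤ ζ * 2 ^ L'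
  c0 : 0 ≤ c
  n4 : 8 * (32 * Cd d * c * L' + 4) ≤ 2 ^ L'

theorem core {M R d L' τ kp : ℕ} {dp ep δ ζ c : ℝ} (hnum : Num M R d L' τ (Fintype.card Q) (16 * M) dp ep δ)
    (hM2 : 2 ≤ M) (hτ : 2 ≤ τ)
    (herr : M * (d : ℝ) * (12 / R + 32 / L') + 2 * M * ep
        + (3 / 4) ^ τ * (Fintype.card Q : ℝ) ^ 2 * Fintype.card (Ix M R) * (6 * (d : ℝ)) ≤ 1 / (2 * (16 * M)))
    (hE : NumE M R d L' kp ep ζ c) {T : Finset Q} {lev : Q → ℕ} (hlamp : LampOK T lev (100 * L') d dp)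
    (hball : 4 * (Finset.univ.filter (fun q => lev q ≤ 100 * L')).card ≤ Fintype.card Q)
    (hn1 : 2 ^ L' ≤ Fintype.card Q) (hlog : Real.log (Fintype.card Q) ≤ c * L') :
    ∃ w : LV Q × Bool → LV Q × Bool → ℝ, (∀ x y, w x y = w y x) ∧
      (∀ x y, 1 ≤ w x y ∧ w x y ≤ 20000 * d * (1000 * d) + d * (1000 * d) + 1) ∧
      CC (lampB T hlamp.one hlamp.inv) w (Cd d) ∧
      (∀ t < (M - 1) * (Fintype.card Q * L'), ∀ ε : ℝ, ε < 1 / 2 → ¬ MixedBy (lampB T hlamp.one hlamp.inv) w ε t) ∧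
      ∃ t : ℕ, (t : ℝ) ≤ (96 * Cd d * c + 28 * Cd d + 30) * (Fintype.card Q * L') ∧
        MixedBy (lampB T hlamp.one hlamp.inv) w (1 - (1 / 8 * (1 / (2 * Cd d)) ^ 5) * (ζ / 2) / 2) t := by
  have hM := hnum.hM
  have hd := hnum.hd
  have hR := hnum.hR
  have hR0 : 0 < R := by omega
  have hMr : (1 : ℝ) ≤ M := by exact_mod_cast hM
  have hM0 : (0 : ℝ) < M := by linarith
  have hdr : (10000 : ℝ) ≤ d := by exact_mod_cast hd
  have hd0 : (0 : ℝ) < d := by linarith
  have hT := hlamp.gap.1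
  have hcard : T.card = d := by have := hlamp.card; exact_mod_cast this
  have hL1 := hnum.L1
  have hLr : (20 : ℝ) ≤ L' := by exact_mod_cast hL1
  have hL0 : (0 : ℝ) < L' := by linarith
  obtain ⟨n, hn⟩ : ∃ n : ℝ, n = (Fintype.card Q : ℝ) := ⟨_, rfl⟩
  have hnge : (2 : ℝ) ^ L' ≤ n := by rw [hn]; exact_mod_cast hn1
  have h2L : (0 : ℝ) < 2 ^ L' := by positivity
  have hn0 : 0 < n := by linarith
  have hn10 : 10 ≤ Fintype.card Q := by
    have h1 : 2 ^ 20 ≤ 2 ^ L' := Nat.pow_le_pow_right (by norm_num) hL1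
    omega
  obtain ⟨site, hinj, hsep⟩ := exists_sep (ι := Ix M R) hlamp.gap.1 hnum.tau1 hnum.del0 hnum.del1 hnum.sepc
  obtain ⟨t0, ht0⟩ := Finset.card_pos.mp hT
  -- the clock
  obtain ⟨z0, hz0⟩ : ∃ z0 : ℕ, z0 = ⌈ζ * n / L'⌉₊ := ⟨_, rfl⟩
  have hζn : 1 ≤ ζ * n / L' := by
    rw [le_div_iff₀ hL0, one_mul]
    refine hE.n3.trans ?_
    exact mul_le_mul_of_nonneg_left hnge hE.ζ0.le
  have hz0l : ζ * n / L' ≤ z0 := by rw [hz0]; exact Nat.le_ceil _
  have hz0u : (z0 : ℝ) ≤ 2 * (ζ * n / L') := by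
    rw [hz0]
    have := (Nat.ceil_lt_add_one (by positivity : 0 ≤ ζ * n / L')).le
    linarith
  have hz0n : (z0 : ℝ) ≤ n / 32 := by
    refine hz0u.trans ?_
    have h1 : ζ * n / L' ≤ ζ * n := div_le_self (by have := hE.ζ0; positivity) (by linarith)
    have h2 : ζ * n ≤ 1 / 64 * n := mul_le_mul_of_nonneg_right hE.ζ1 hn0.le
    linarith
  obtain ⟨Z, hZ⟩ : ∃ Z : Finset Q, Z.card = z0 := by
    have h1 : z0 ≤ (Finset.univ : Finset Q).card := by
      rw [Finset.card_univ]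
      have : (z0 : ℝ) ≤ n := by linarith
      rw [hn] at this
      exact_mod_cast this
    obtain ⟨Z, _, hZ⟩ := Finset.exists_subset_card_eq h1
    exact ⟨Z, hZ⟩
  obtain ⟨kc, hkc⟩ : ∃ kc : ℕ, kc = 50 * L' / kp := ⟨_, rfl⟩
  have hkp0 : 1 ≤ kp := by
    by_contra hc
    have : kp = 0 := by omega
    have h1 := hE.kp1
    rw [this] at h1
    simp at h1
    omega
  have hkc1 : kp * kc ≤ 50 * L' := by rw [hkc]; exact Nat.mul_div_le _ _
  have hkc2 : 50 * L' < kp * kc + kp := by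
    rw [hkc]
    have := Nat.lt_mul_div_succ (50 * L') (by omega : 0 < kp)
    rw [mul_add, mul_one] at this
    exact this
  have hkc0 : 1 ≤ kc := by
    rw [hkc, Nat.one_le_div_iff (by omega)]
    have := hE.kpL
    omega
  -- the data
  obtain ⟨D, hDdef⟩ : ∃ D : PD Q (Ix M R), D = mkD M R d L' (16 * M) dp lev site (ixT hM hR0 true) (ixT hM hR0 false) t0 T Z kp kc := ⟨_, rfl⟩
  have hDP : D.P = mkP Q M R d L' (16 * M) dp := by rw [hDdef]; rfl
  have hDlev : D.lev = lev := by rw [hDdef]; rfl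
  have hDsite : D.site = site := by rw [hDdef]; rfl
  have hDx0 : D.x0 = ixT hM hR0 true := by rw [hDdef]; rfl
  have hDx1 : D.x1 = ixT hM hR0 false := by rw [hDdef]; rfl
  have hDxE : D.xE = site (ixT hM hR0 true) * t0 := by rw [hDdef]; rfl
  have hDfE : D.fE = fun q => kp * dZ T Z kc q := by rw [hDdef]; rfl
  have hDW0 : D.W0 = 20000 * d * (1000 * d) := by rw [hDdef]; rfl
  have hDK : D.P.K = 1000 * d := by rw [hDP]; rfl
  have hDd : D.P.d = d := by rw [hDP]; rfl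
  have hDL : D.P.L = 100 * L' := by rw [hDP]; rfl
  have hDA : D.P.A = 16 * M := by rw [hDP]; rfl
  have hDm : ∀ j, D.P.m j = (R : ℝ) ^ (M - 1 - j) := by intro j; rw [hDP]; rfl
  have hcorr0 : CorrOK (mkP Q M R d L' (16 * M) dp) T lev site M R L' ep (1 / (100 * (d : ℝ))) ((20000 * d : ℕ) : ℝ)
      (1 / (2 * (d : ℝ) * (1000 * (d : ℝ) * ((20000 * d : ℕ) : ℝ)))) δ (1 / M) τ :=
    { ok := hnum.ok
      small := hnum.small
      lamp := hlamp
      sep := hsep
      tau1 := hnum.tau1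
      del0 := hnum.del0
      del1 := hnum.del1
      tauQ := by exact_mod_cast hnum.tauQ
      del := hnum.del
      hlam := rfl
      hK1 := by show ((20000 * d : ℕ) : ℝ) = 20000 * (d : ℝ); push_cast; ring
      hkap := rfl
      hR8 := by exact_mod_cast (by omega : 8 ≤ R)
      eta := hnum.eta }
  have hcorr : CorrOK D.P T D.lev D.site M R L' ep (1 / (100 * (d : ℝ))) ((20000 * d : ℕ) : ℝ)
      (1 / (2 * (d : ℝ) * (1000 * (d : ℝ) * ((20000 * d : ℕ) : ℝ)))) δ (1 / M) τ := by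
    rw [hDP, hDlev, hDsite]; exact hcorr0
  have hrec : RecOK D.P M R L' (1 / M) := by
    rw [hDP]
    exact
    { M1 := hM
      R2 := by exact_mod_cast hR
      AL := hnum.AL
      eta0 := by positivity
      etaM := by rw [one_div, inv_mul_cancel₀ hM0.ne']
      L20 := hnum.L1
      big := by
        intro s hs
        have h2 := hnum.big s hs
        show 2 * Real.exp (2 * (R : ℝ) ^ (M - 1 - s) * Real.log (16 * M)) + M * ((R ^ (M - 1 - s) * L' : ℕ) : ℝ)
          ≤ Real.exp (((R ^ (M - 1 - s) * L' : ℕ) : ℝ) / 200)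
        push_cast
        exact h2 }
  have hlast : Last D.P M D.x0 D.x1 := by
    rw [hDP, hDx0, hDx1]
    exact last_mkP hM hR0 (by linarith)
  -- the separation constant
  have hcι : (1 : ℝ) ≤ Fintype.card (Ix M R) := by
    have : Nonempty (Ix M R) := ⟨ixT hM hR0 true⟩
    exact_mod_cast Fintype.card_pos
  have hδ : δ < 1 / (2 * (T.card : ℝ)) := by
    rw [hcard, lt_div_iff₀ (by positivity)]
    have h1 := hnum.del
    have h2 := hnum.ep1
    have h3 := hnum.del0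
    have hRp : (1 : ℝ) ≤ (R : ℝ) ^ (M - 1) := one_le_pow₀ (by exact_mod_cast (by omega : 1 ≤ R))
    have h4 : δ * 1 * (3 * d) * 1 ≤ δ * Fintype.card (Ix M R) * (3 * d) * (R : ℝ) ^ (M - 1) := by gcongr
    have h5 : δ * (2 * d) < δ * 1 * (3 * d) * 1 := by
      have := mul_pos hnum.del0 hd0
      linarith only [this]
    linarith
  have hOK : D.OK T :=
    { one := hlamp.one
      inv := hlamp.inv
      card := hT
      K1 := by rw [hDK]; linarith
      W1 := by
        rw [hDW0]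
        exact one_le_mul_of_one_le_of_one_le (by linarith only [hdr]) (by linarith only [hdr])
      inj := by rw [hDsite]; exact hinj
      xE := by
        intro x
        rw [hDsite, hDxE]
        exact site_nbr hT hlamp.one hτ hδ hsep _ ht0 x }
  have hOKE : D.OKE T kp t0 :=
    { ok := hOK
      t0mem := ht0
      adj := by rw [hDsite, hDx0, hDxE]
      ne := hlast.ne
      lev1 := by rw [hDlev]; exact hlamp.lev1
      step := by rw [hDlev]; exact hlamp.step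
      fE := by
        intro q
        rw [hDfE, hDL]
        have := dZ_le T Z kc q
        have h2 : kp * dZ T Z kc q ≤ kp * kc := Nat.mul_le_mul_left _ this
        show 2 * (kp * dZ T Z kc q) ≤ 100 * L'
        omega
      lip := by
        intro q t ht
        rw [hDfE]
        have h1 := dZ_lip T Z kc (q * t) (hlamp.inv t ht)
        rw [mul_inv_cancel_right] at h1
        show kp * dZ T Z kc q ≤ kp * dZ T Z kc (q * t) + kp
        calc kp * dZ T Z kc q ≤ kp * (dZ T Z kc (q * t) + 1) := Nat.mul_le_mul_left _ h1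
          _ = _ := by ring }
  have hmix : (3 / 4 : ℝ) ^ τ * (Fintype.card Q : ℝ) ^ 2 ≤ 1 / 20 := by
    have h1 : (3 / 4 : ℝ) ^ τ * (Fintype.card Q : ℝ) ^ 2 * Fintype.card (Ix M R) * (6 * (d : ℝ)) ≤ 1 / (2 * (16 * M)) := by
      have h2 : 0 ≤ M * (d : ℝ) * (12 / R + 32 / L') := by positivity
      have h3 : 0 ≤ 2 * M * ep := by have := hE.ep0; positivity
      linarith
    have h2 : (3 / 4 : ℝ) ^ τ * (Fintype.card Q : ℝ) ^ 2 * 1 * 1 ≤ (3 / 4 : ℝ) ^ τ * (Fintype.card Q : ℝ) ^ 2 * Fintype.card (Ix M R) * (6 * (d : ℝ)) := by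
      gcongr
      linarith
    have h3 : 1 / (2 * (16 * (M : ℝ))) ≤ 1 / 20 := by
      apply one_div_le_one_div_of_le (by norm_num); linarith
    linarith
  have hOKN : D.OKN T kp t0 d dp (100 * L') τ :=
    { ok := hOKE
      lamp := by rw [hDlev]; exact hlamp
      hL := hDL
      hd := hdr
      hdp := hnum.dp1
      K := hDK
      W0 := hDW0
      kp4 := by exact_mod_cast hE.kp2
      tauQ := by exact_mod_cast hnum.tauQ
      mix := hmix }
  have hCC0 : D.CC0 T = Cd d := by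
    unfold PD.CC0 Cd; rw [hcard, hDW0, hDK]
  have hCpos := Cd_pos d
  have hC1 := Cd_ge1 d
  have hW : D.W0 = ((20000 * d : ℕ) : ℝ) * D.P.K := by rw [hDW0, hDK]; push_cast; ring
  have hep := hE.ep0
  -- Green bound
  have hXM0 : 0 ≤ XM M R d ep := by unfold XM; positivity
  have hN : (M - 1) * (Fintype.card Q * L') - 1 + 1 = (M - 1) * (Fintype.card Q * L') := by
    have h1 : 0 < (M - 1) * (Fintype.card Q * L') := Nat.mul_pos (by omega) (Nat.mul_pos (by omega) (by omega))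
    omega
  have hgreen := D.green (u0 := (fun _ => 1, 1, 1)) hcorr hrec hOK hW (fun _ => rfl) hM2 hlast (by rw [hDd, hDA]; exact herr)
    ((M - 1) * (Fintype.card Q * L')) le_rfl
  have hX : ∑ r ∈ Finset.range ((M - 1) * (Fintype.card Q * L') - 1 + 1), (KO T D.W0 (D.CC0 T) D.wL D.B ^ r) (kl D.B (D.vis M)) (fun _ => 1, 1, 1)
      ≤ XM M R d ep * L' := by
    rw [hN]
    rw [hCC0, hDK, hDA, hDd, hDm 0] at hgreen
    obtain ⟨S, hS⟩ : ∃ S, S = ∑ r ∈ Finset.range ((M - 1) * (Fintype.card Q * L')), (KO T D.W0 (D.CC0 T) D.wL D.B ^ r) (kl D.B (D.vis M)) (fun _ => 1, 1, 1) := ⟨_, rfl⟩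
    rw [← hS]
    have hS' : S = ∑ r ∈ Finset.range ((M - 1) * (Fintype.card Q * L')), (KO T D.W0 (Cd d) D.wL D.B ^ r) (kl D.B (D.vis M)) (fun _ => 1, 1, 1) := by
      rw [hS, hCC0]
    rw [← hS'] at hgreen
    obtain ⟨cst, hcst⟩ : ∃ cst : ℝ, cst = 1 / (100 * (d : ℝ)) * ep * (1000 * d) / (4 * (R : ℝ) ^ (M - 1 - 0) * Cd d) := ⟨_, rfl⟩
    have hRpos : (0 : ℝ) < (R : ℝ) := by exact_mod_cast hR0
    have hcst0 : 0 < cst := by rw [hcst]; positivity
    rw [← hcst] at hgreen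
    have h1 : S ≤ (1 / cst) * (2 * (16 * M) ^ 2 + ((M - 1) * (Fintype.card Q * L') : ℕ) * (1000 * d / (2 * Fintype.card Q * Cd d) * (3 * (16 * M) + (4 * d + 2)))) := by
      rw [one_div_mul_eq_div, le_div_iff₀ hcst0]; linarith
    refine h1.trans ?_
    have h2 : (((M - 1) * (Fintype.card Q * L') : ℕ) : ℝ) * (1000 * d / (2 * Fintype.card Q * Cd d) * (3 * (16 * M) + (4 * d + 2)))
        ≤ (M * (1000 * d / (2 * Cd d) * (3 * (16 * M) + (4 * d + 2)))) * L' := by
      rw [← hn]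
      push_cast
      rw [← hn]
      have h3 : ((M - 1 : ℕ) : ℝ) ≤ M := by exact_mod_cast Nat.sub_le M 1
      have e1 : ((M - 1 : ℕ) : ℝ) * (n * L') * (1000 * d / (2 * n * Cd d) * (3 * (16 * M) + (4 * d + 2)))
          = ((M - 1 : ℕ) : ℝ) * (1000 * d / (2 * Cd d) * (3 * (16 * M) + (4 * d + 2))) * L' := by field_simp
      rw [e1]
      gcongr
    have h3 : 2 * (16 * (M : ℝ)) ^ 2 ≤ 2 * (16 * M) ^ 2 * L' := by
      have : (0 : ℝ) ≤ 2 * (16 * M) ^ 2 := by positivity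
      exact le_mul_of_one_le_right this (by linarith only [hLr])
    calc (1 / cst) * (2 * (16 * M) ^ 2 + ((M - 1) * (Fintype.card Q * L') : ℕ) * (1000 * d / (2 * Fintype.card Q * Cd d) * (3 * (16 * M) + (4 * d + 2))))
        ≤ (1 / cst) * (2 * (16 * M) ^ 2 * L' + (M * (1000 * d / (2 * Cd d) * (3 * (16 * M) + (4 * d + 2)))) * L') := by
          apply mul_le_mul_of_nonneg_left _ (by positivity)
          linarith
      _ = XM M R d ep * L' := by
          unfold XM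
          rw [hcst, Nat.sub_zero, one_div_div]
          ring
  -- clock sums
  have hfE0 : ∀ q, D.fE q = 0 ↔ q ∈ Z := by
    intro q
    rw [hDfE]
    show kp * dZ T Z kc q = 0 ↔ q ∈ Z
    rw [← dZ_zero T Z hkc0 q]
    constructor
    · intro h; rcases Nat.mul_eq_zero.mp h with h | h
      · omega
      · exact h
    · intro h; rw [h, mul_zero]
  have hZ16 : 16 * ((Finset.univ.filter (fun q => D.fE q = 0)).card : ℝ) ≤ Fintype.card Q := by
    have e1 : Finset.univ.filter (fun q => D.fE q = 0) = Z := by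
      ext q; simp [hfE0]
    rw [e1, hZ, ← hn]; linarith
  have hZ1 : ∑ q, 1 / (2 : ℝ) ^ (D.fE q) ≤ 2 * Z.card + Fintype.card Q * (1 / 2 ^ (kp * kc)) := by
    rw [hDfE]
    exact sum_clock T Z kc kp (by rw [hcard]; exact hE.kp1)
  have hkk : (1 : ℝ) / 2 ^ (kp * kc) ≤ 1 / 2 ^ L' := by
    apply one_div_le_one_div_of_le (by positivity)
    apply pow_le_pow_right₀ (by norm_num)
    have := hE.kpL
    omega
  have hkL : (1 : ℝ) / 2 ^ (100 * L' / 2) ≤ 1 / 2 ^ L' := by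
    apply one_div_le_one_div_of_le (by positivity)
    apply pow_le_pow_right₀ (by norm_num)
    omega
  have hal1 : 0 ≤ al1 d kp := by unfold al1; positivity
  have hal2 : 0 ≤ al2 d := by unfold al2; positivity
  have hfin : (T.card * D.P.K / (2 * D.CC0 T)) * (2 ^ (kp + 1) * (1 + 2 * D.CC0 T / D.W0) * ((∑ q, 1 / (2 : ℝ) ^ (D.fE q)) * (XM M R d ep * L'))
        + 1 / 2 ^ (D.P.L / 2) * (Fintype.card Q * (XM M R d ep * L'))) ≤ Fintype.card Q / 8 := by
    rw [hCC0, hDK, hDW0, hDL, hcard]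
    have e1 : (d * (1000 * (d : ℝ)) / (2 * Cd d)) * (2 ^ (kp + 1) * (1 + 2 * Cd d / (20000 * d * (1000 * d))) * ((∑ q, 1 / (2 : ℝ) ^ (D.fE q)) * (XM M R d ep * L'))
        + 1 / 2 ^ (100 * L' / 2) * (Fintype.card Q * (XM M R d ep * L')))
        = al1 d kp * (∑ q, 1 / (2 : ℝ) ^ (D.fE q)) * (XM M R d ep * L') + al2 d * (1 / 2 ^ (100 * L' / 2)) * (Fintype.card Q * (XM M R d ep * L')) := by
      unfold al1 al2; ring
    rw [e1, ← hn]
    rw [hZ, ← hn] at hZ1
    have h1 : ∑ q, 1 / (2 : ℝ) ^ (D.fE q) ≤ 4 * (ζ * n / L') + n * (1 / 2 ^ L') := by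
      have := mul_le_mul_of_nonneg_left hkk hn0.le
      linarith
    have h2 : al1 d kp * (∑ q, 1 / (2 : ℝ) ^ (D.fE q)) * (XM M R d ep * L') ≤ al1 d kp * (4 * (ζ * n / L') + n * (1 / 2 ^ L')) * (XM M R d ep * L') := by
      apply mul_le_mul_of_nonneg_right _ (by positivity)
      exact mul_le_mul_of_nonneg_left h1 hal1
    have h3 : al2 d * (1 / 2 ^ (100 * L' / 2)) * (n * (XM M R d ep * L')) ≤ al2 d * (1 / 2 ^ L') * (n * (XM M R d ep * L')) := by
      apply mul_le_mul_of_nonneg_right _ (by positivity)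
      exact mul_le_mul_of_nonneg_left hkL hal2
    have e2 : al1 d kp * (4 * (ζ * n / L') + n * (1 / 2 ^ L')) * (XM M R d ep * L') + al2 d * (1 / 2 ^ L') * (n * (XM M R d ep * L'))
        = n * ((64 * al1 d kp * ζ * XM M R d ep) / 16 + (16 * (al1 d kp + al2 d) * XM M R d ep * L') / 2 ^ L' / 16) := by
      field_simp
      ring
    have h4 : (16 * (al1 d kp + al2 d) * XM M R d ep * L') / 2 ^ L' ≤ 1 := by
      rw [div_le_one h2L]
      refine le_trans ?_ hE.n2
      apply mul_le_mul_of_nonneg_left _ (by positivity)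
      rw [sq]
      exact le_mul_of_one_le_left hL0.le (by linarith only [hLr])
    have h5 := hE.ζ2
    have h6 : n * ((64 * al1 d kp * ζ * XM M R d ep) / 16 + (16 * (al1 d kp + al2 d) * XM M R d ep * L') / 2 ^ L' / 16) ≤ n * (1 / 8) := by
      apply mul_le_mul_of_nonneg_left _ hn0.le
      linarith
    linarith
  obtain ⟨q, hq⟩ := exists_start (M := M) hOKE (by rw [hDA]; linarith) hlast _ hX hZ16 hfin
  -- the hitting bound
  obtain ⟨t, ht⟩ : ∃ t : ℕ, t = ⌈16 * Cd d * (n * Real.log n)⌉₊ := ⟨_, rfl⟩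
  obtain ⟨s, hs⟩ : ∃ s : ℕ, s = ⌈14 * Cd d * n⌉₊ := ⟨_, rfl⟩
  obtain ⟨s', hs'⟩ : ∃ s' : ℕ, s' = ⌈14 * Cd d⌉₊ := ⟨_, rfl⟩
  obtain ⟨J', hJ'⟩ : ∃ J' : ℕ, J' = Fintype.card Q / 4 := ⟨_, rfl⟩
  have hlog0 : 0 ≤ Real.log n := Real.log_nonneg (by
    have : (1 : ℝ) ≤ 2 ^ L' := one_le_pow₀ (by norm_num)
    linarith)
  have hlogn : Real.log n ≤ c * L' := by rw [hn]; exact hlog
  have ht1 : 16 * D.CC0 T * ((Fintype.card Q : ℝ) * Real.log (Fintype.card Q)) ≤ t := by
    rw [hCC0, ← hn, ht]; exact Nat.le_ceil _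
  have htu : (t : ℝ) ≤ 16 * Cd d * c * (n * L') + 1 := by
    rw [ht]
    refine (Nat.ceil_lt_add_one (by positivity)).le.trans ?_
    have : n * Real.log n ≤ n * (c * L') := mul_le_mul_of_nonneg_left hlogn hn0.le
    have := mul_le_mul_of_nonneg_left this (by positivity : 0 ≤ 16 * Cd d)
    linarith
  have hs1 : 14 * D.CC0 T * Fintype.card Q ≤ s := by rw [hCC0, ← hn, hs]; exact Nat.le_ceil _
  have hsu : (s : ℝ) ≤ 14 * Cd d * n + 1 := by rw [hs]; exact (Nat.ceil_lt_add_one (by positivity)).le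
  have hs'1 : 14 * D.CC0 T ≤ s' := by rw [hCC0, hs']; exact Nat.le_ceil _
  have hs'u : (s' : ℝ) ≤ 14 * Cd d + 1 := by rw [hs']; exact (Nat.ceil_lt_add_one (by positivity)).le
  have hJ'u : (J' : ℝ) ≤ n / 4 := by
    rw [hJ', hn]; exact Nat.cast_div_le
  have hJ'l : n / 4 ≤ (J' : ℝ) + 1 := by
    have h1 : Fintype.card Q ≤ 4 * (J' + 1) := by rw [hJ']; omega
    have h2 : (Fintype.card Q : ℝ) ≤ 4 * ((J' : ℝ) + 1) := by exact_mod_cast h1
    rw [hn]; linarith
  have hzn : (Z.card : ℝ) / Fintype.card Q = z0 / n := by rw [hZ, hn]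
  have hJz : (L' : ℝ) * (Z.card / Fintype.card Q) ≤ 1 / 4 := by
    rw [hzn]
    have h1 : (z0 : ℝ) / n ≤ 2 * (ζ / L') := by
      rw [div_le_iff₀ hn0]
      refine hz0u.trans (le_of_eq ?_)
      ring
    calc (L' : ℝ) * (z0 / n) ≤ L' * (2 * (ζ / L')) := mul_le_mul_of_nonneg_left h1 hL0.le
      _ = 2 * ζ := by field_simp
      _ ≤ 1 / 4 := by have := hE.ζ1; linarith
  have hJzl : ζ ≤ ((L' : ℝ) + 1) * (Z.card / Fintype.card Q) := by
    rw [hzn]
    have h1 : ζ / L' ≤ (z0 : ℝ) / n := by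
      rw [le_div_iff₀ hn0]
      refine le_trans (le_of_eq ?_) hz0l
      ring
    have h2 : 0 ≤ (z0 : ℝ) / n := by positivity
    calc ζ = L' * (ζ / L') := by field_simp
      _ ≤ L' * (z0 / n) := mul_le_mul_of_nonneg_left h1 hL0.le
      _ ≤ _ := by linarith
  have hhit : ∀ u, (1 / 8 * (1 / (2 * Cd d)) ^ 5) * (ζ / 2) ≤ hit (D.KP T) D.Good ((2 * t + L' * s) + ((2 * t + J' * s') + 5)) u := by
    intro u
    have h1 := hit_Good hOKN (by omega) hn10 ht1 hs1 hs'1 Z (fun q hq => (hfE0 q).mpr hq) hJz (J' := J') (by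
      rw [← hn, mul_one_div, div_le_iff₀ hn0]; linarith) (by
      rw [← hn, mul_one_div, le_div_iff₀ hn0]; linarith) u
    rw [hCC0] at h1
    refine le_trans ?_ h1
    apply mul_le_mul_of_nonneg_left _ (by positivity)
    linarith
  have ht2 : ((2 * t : ℕ) : ℝ) * (1 / (Fintype.card Q * 2 ^ (100 * L' / 2))) ≤ 1 / 8 := by
    rw [← hn]
    have h1 : (2 : ℝ) ^ L' ≤ 2 ^ (100 * L' / 2) := pow_le_pow_right₀ (by norm_num) (by omega)
    rw [mul_one_div, div_le_iff₀ (by positivity)]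
    push_cast
    have h2 := hE.n4
    have h3 : 2 * (t : ℝ) ≤ (32 * Cd d * c * L' + 4) * n := by
      have hn1' : (1 : ℝ) ≤ n := by
        have : (1 : ℝ) ≤ 2 ^ L' := one_le_pow₀ (by norm_num)
        linarith
      have : 2 * (t : ℝ) ≤ 32 * Cd d * c * (n * L') + 2 := by linarith
      have e : (32 * Cd d * c * L' + 4) * n = 32 * Cd d * c * (n * L') + 4 * n := by ring
      rw [e]; linarith
    have h4 : (32 * Cd d * c * L' + 4) ≤ 1 / 8 * 2 ^ (100 * L' / 2) := by linarith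
    have h5 := mul_le_mul_of_nonneg_right h4 hn0.le
    linarith
  refine ⟨cB T hlamp.one hlamp.inv D.cwP (D.CC0 T), (D.CW_P hOK).CC hT |>.symm, ?_, ?_, ?_, ?_⟩
  · intro x y
    have h1 := D.cB_bounds hOK (h1 := hlamp.one) (hinv := hlamp.inv) x y
    rw [hDW0, hDK, hcard] at h1
    exact h1
  · have h1 := (D.CW_P hOK).CC (h1 := hlamp.one) (hinv := hlamp.inv) hT
    rw [hCC0] at h1 ⊢
    exact h1
  · intro t ht ε hε
    refine lower_P hOK hq ?_ (fun f hf => (A'_B hOKE f hf).1) (by omega) hε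
    rw [hDL, hDlev]
    refine le_trans (Nat.mul_le_mul_left _ (Finset.card_le_card ?_)) hball
    intro q hq
    simp only [Finset.mem_filter, Finset.mem_univ, true_and] at hq ⊢
    omega
  · refine ⟨((2 * t + L' * s) + ((2 * t + J' * s') + 5)) + 2 * t, ?_, ?_⟩
    · push_cast
      rw [← hn]
      have hn1' : (1 : ℝ) ≤ n := by
        have : (1 : ℝ) ≤ 2 ^ L' := one_le_pow₀ (by norm_num)
        linarith
      have hnL : (1 : ℝ) ≤ n * L' := one_le_mul_of_one_le_of_one_le hn1' (by linarith only [hLr])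
      have g1 : (L' : ℝ) * s ≤ 14 * Cd d * (n * L') + n * L' := by
        have : (L' : ℝ) * s ≤ L' * (14 * Cd d * n + 1) := mul_le_mul_of_nonneg_left hsu hL0.le
        have h3 : (L' : ℝ) ≤ n * L' := le_mul_of_one_le_left hL0.le hn1'
        linarith
      have g2 : (J' : ℝ) * s' ≤ 14 * Cd d * (n * L') + n * L' := by
        have h3 : (J' : ℝ) * s' ≤ n * (14 * Cd d + 1) := by
          apply mul_le_mul (by linarith) hs'u (Nat.cast_nonneg _) hn0.le
        have h4 : n ≤ n * L' := le_mul_of_one_le_right hn0.le (by linarith only [hLr])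
        have h5 : n * (14 * Cd d + 1) ≤ (n * L') * (14 * Cd d + 1) := mul_le_mul_of_nonneg_right h4 (by positivity)
        linarith
      have e : (96 * Cd d * c + 28 * Cd d + 30) * (n * L') = 96 * Cd d * c * (n * L') + 28 * Cd d * (n * L') + 30 * (n * L') := by ring
      rw [e]
      linarith
    · exact upper_P (h1 := hlamp.one) (hinv := hlamp.inv) hOKN hn10 ht1 ht2 hhit

end PC

end Pool.Agent.H984
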