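import Pool.Agent.H984.PcFin1
import Pool.Agent.H984.Fin4

/-!
H984: the groups and the numbers exist.
-/

set_option autoImplicit false

open Classical Filter
open Pool.Agent.Y171.CE

namespace Pool.Agent.H984

namespace PC

/-- The groups. -/
theorem grp {p : ℕ} (hp : 2 ^ 1000 ≤ p) (hprime : p.Prime) : ∃ L0 : ℕ, ∀ L' : ℕ, L0 ≤ L' →
    ∃ (Q : Type) (_ : Group Q) (_ : Fintype Q) (T : Finset Q) (lev : Q → ℕ),
      LampOK T lev (100 * L') ((p ^ 2 - 1 : ℕ) : ℝ) (97 / 100 * ((p : ℝ) ^ 2 - p)) ∧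
      4 * (Finset.univ.filter (fun q => lev q ≤ 100 * L')).card ≤ Fintype.card Q ∧
      2 ^ L' ≤ Fintype.card Q ∧ Fintype.card Q ≤ p ^ (1200 * L') ∧
      Real.log (Fintype.card Q) ≤ (1200 * Real.log p) * L' := by
  have : Fact p.Prime := ⟨hprime⟩
  have hp101 : 101 ≤ p := by
    have h2 : 2 ^ 7 ≤ 2 ^ 1000 := Nat.pow_le_pow_right (by norm_num) (by norm_num)
    have h3 := h2.trans hp
    omega
  have hp2 : 1 ≤ p ^ 2 := Nat.one_le_pow _ _ (by omega)
  obtain ⟨k0, hk0⟩ := gapq p hp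
  obtain ⟨lp, hlp⟩ : ∃ lp : ℝ, lp = Real.log p := ⟨_, rfl⟩
  refine ⟨max k0 20, fun L' hk => ?_⟩
  have hL20 : 20 ≤ L' := le_trans (le_max_right _ _) hk
  have hkk : k0 ≤ 400 * L' := by
    have := le_trans (le_max_left k0 20) hk
    omega
  obtain ⟨F, _, _, _, _, x, hx⟩ := Pool.Agent.Y495.CE.ex p (400 * L') (by omega)
  have hgap := hk0 (400 * L') hkk ⟨200 * L', by ring⟩ F x hx
  obtain ⟨hc1, hc2, _⟩ := Pool.Agent.Y495.CE.csl F
  have hcF : Fintype.card F ^ 3 = p ^ (1200 * L') := by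
    rw [hx.card, ← pow_mul]; congr 1; ring
  rw [hcF] at hc1 hc2
  have hn1 : 2 ^ L' ≤ Fintype.card (SL2 F) := by
    have h2 : 2 * 2 ^ L' ≤ p ^ (1200 * L') := by
      calc 2 * 2 ^ L' = 2 ^ (L' + 1) := by ring
        _ ≤ 2 ^ (1200 * L') := Nat.pow_le_pow_right (by norm_num) (by omega)
        _ ≤ p ^ (1200 * L') := Nat.pow_le_pow_left (by omega) _
    omega
  have hn6 : 6 ≤ Fintype.card (SL2 F) := by
    have h2 : 2 ^ 20 ≤ 2 ^ L' := Nat.pow_le_pow_right (by norm_num) hL20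
    omega
  have hlamp := lamp_SL2 (L := 100 * L') hx (by omega) hp hgap
  have hdcast : (p : ℝ) ^ 2 - 1 = ((p ^ 2 - 1 : ℕ) : ℝ) := by rw [Nat.cast_sub hp2]; push_cast; ring
  rw [hdcast] at hlamp
  have hball : 4 * (Finset.univ.filter (fun q => lv2 p x (100 * L') q ≤ 100 * L')).card ≤ Fintype.card (SL2 F) := by
    have h2 := ball_card (p := p) (x := x) (L := 100 * L')
    have h3 : (p ^ 2) ^ (100 * L') = p ^ (200 * L') := by rw [← pow_mul]; congr 1; ring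
    rw [h3] at h2
    have h4 : 8 * p ^ (200 * L') ≤ p ^ (1200 * L') := by
      have h5 : p ^ (1200 * L') = p ^ (1000 * L') * p ^ (200 * L') := by rw [← pow_add]; congr 1; ring
      rw [h5]
      apply Nat.mul_le_mul_right
      calc 8 ≤ p := by omega
        _ = p ^ 1 := (pow_one p).symm
        _ ≤ p ^ (1000 * L') := Nat.pow_le_pow_right (by omega) (by omega)
    omega
  have hlog : Real.log (Fintype.card (SL2 F)) ≤ (1200 * Real.log p) * L' := by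
    have h2 : ((Fintype.card (SL2 F) : ℕ) : ℝ) ≤ (p : ℝ) ^ (1200 * L') := by exact_mod_cast hc2
    have h3 := Real.log_le_log (by exact_mod_cast (by omega : 0 < Fintype.card (SL2 F))) h2
    rw [Real.log_pow] at h3
    push_cast at h3
    linarith
  exact ⟨SL2 F, inferInstance, inferInstance, _, _, hlamp, hball, hn1, hc2, hlog⟩

/-- The numbers. -/
theorem numE_exists {M R d : ℕ} {ep c : ℝ} (hep : 0 < ep) (hc : 0 ≤ c) (hM : 1 ≤ M) :
    ∃ (kp : ℕ) (ζ : ℝ), 0 < ζ ∧ ζ ≤ 1 / 64 ∧ ∀ᶠ L' : ℕ in atTop, NumE M R d L' kp ep ζ c := by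
  obtain ⟨kp, hkp⟩ : ∃ kp : ℕ, kp = Nat.clog 2 (2 * (d + 1)) := ⟨_, rfl⟩
  have hkp1 : 2 * (d + 1) ≤ 2 ^ kp := by rw [hkp]; exact Nat.le_pow_clog (by norm_num) _
  have hkp2 : 2 ^ kp ≤ 4 * (d + 1) := by
    have h1 : 2 ^ (kp - 1) < 2 * (d + 1) := by
      rw [hkp]; exact Nat.pow_pred_clog_lt_self (b := 2) (x := 2 * (d + 1)) (by norm_num) (by omega)
    have h2 : 1 ≤ kp := by
      by_contra hcc
      have : kp = 0 := by omega
      rw [this] at hkp1
      simp at hkp1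
      omega
    have h3 : 2 ^ kp = 2 * 2 ^ (kp - 1) := by
      conv_lhs => rw [show kp = (kp - 1) + 1 by omega]
      rw [pow_succ]; ring
    omega
  have hC := Cd_pos d
  have hM0 : (0 : ℝ) < M := by exact_mod_cast hM
  have hX : 0 ≤ XM M R d ep := by unfold XM; positivity
  have hal1 : 0 ≤ al1 d kp := by unfold al1; positivity
  obtain ⟨ζ, hζ⟩ : ∃ ζ : ℝ, ζ = 1 / (64 * (al1 d kp * XM M R d ep + 1)) := ⟨_, rfl⟩
  have hζ0 : 0 < ζ := by rw [hζ]; positivity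
  have hζ1 : ζ ≤ 1 / 64 := by
    rw [hζ]; apply one_div_le_one_div_of_le (by norm_num)
    nlinarith [mul_nonneg hal1 hX]
  refine ⟨kp, ζ, hζ0, hζ1, ?_⟩
  filter_upwards [eventually_ge_atTop kp, eventually_ge_atTop 1, ev_pow one_lt_two (16 * (al1 d kp + al2 d) * XM M R d ep),
    ev_pow one_lt_two (1 / ζ), ev_pow one_lt_two (8 * (32 * Cd d * c + 4))] with l h1 h2 h3 h4 h5
  have hl1 : (1 : ℝ) ≤ l := by exact_mod_cast h2
  have hl2 : (l : ℝ) ≤ (l : ℝ) ^ 2 := by nlinarith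
  have hl3 : (1 : ℝ) ≤ (l : ℝ) ^ 2 := by nlinarith
  refine ⟨hep, hkp1, hkp2, h1, hζ0, hζ1, ?_, h3.le, ?_, hc, ?_⟩
  · rw [hζ]
    have hpos : 0 ≤ al1 d kp * XM M R d ep := mul_nonneg hal1 hX
    have e : 64 * al1 d kp * (1 / (64 * (al1 d kp * XM M R d ep + 1))) * XM M R d ep
        = (al1 d kp * XM M R d ep) / (al1 d kp * XM M R d ep + 1) := by
      field_simp
    rw [e, div_le_one (by linarith)]
    linarith
  · have h6 : 1 / ζ * (l : ℝ) ≤ 1 / ζ * (l : ℝ) ^ 2 := mul_le_mul_of_nonneg_left hl2 (by positivity)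
    have h7 : 1 / ζ * (l : ℝ) ≤ 2 ^ l := by linarith
    have h8 := mul_le_mul_of_nonneg_left h7 hζ0.le
    have e : ζ * (1 / ζ * (l : ℝ)) = l := by field_simp
    rw [e] at h8
    exact h8
  · have h6 : 8 * (32 * Cd d * c * l + 4) ≤ 8 * (32 * Cd d * c + 4) * (l : ℝ) ^ 2 := by
      have g1 : 32 * Cd d * c * (l : ℝ) ≤ 32 * Cd d * c * (l : ℝ) ^ 2 := mul_le_mul_of_nonneg_left hl2 (by positivity)
      nlinarith
    linarith

end PC

end Pool.Agent.H984
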