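import Pool.Agent.H984.PcFin2

/-!
H984: the mixing times of the lamp graph and of the perturbed lamp graph.
-/

set_option autoImplicit false

open Classical Filter

namespace Pool.Agent.H984

namespace PC

/-- All estimates for one graph. -/
structure Gd (D : ℕ) (K C1 : ℝ) (M L' : ℕ) (β : ℝ) (V : Type) [Fintype V] (G : SimpleGraph V) (w : V → V → ℝ) (a : ℝ) : Prop where
  conn : G.Connected
  tr : VertexTransitive G
  deg : ∀ x, G.degree x = D
  sym : ∀ x y, w x y = w y x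
  bd : ∀ x y, 1 ≤ w x y ∧ w x y ≤ K
  a0 : 0 < a
  big : L' ≤ Fintype.card V
  cc : ∃ C, CC G w C
  att : ∀ ε : ℝ, 0 < ε → MixedBy G (fun _ _ => 1) ε (tmix G (fun _ _ => 1) ε) ∧ MixedBy G w ε (tmix G w ε)
  rel0 : 0 ≤ trel G (fun _ _ => 1)
  rel : trel G (fun _ _ => 1) * L' ≤ C1 * a
  up : ∀ ε : ℝ, 10 / 2 ^ L' ≤ ε → (tmix G (fun _ _ => 1) ε : ℝ) ≤ C1 * a
  lo : ∀ ε : ℝ, 10 / 2 ^ L' ≤ ε → ε < 1 → a ≤ C1 * (tmix G (fun _ _ => 1) (1 - ε) : ℝ)
  plo : ∀ ε : ℝ, 0 < ε → ε < 1 / 2 → ((M : ℝ) - 1) * a ≤ (tmix G w ε : ℝ)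
  pup : (tmix G w (1 - β) : ℝ) ≤ C1 * a

/-- The constant. -/
noncomputable def C1d (d : ℕ) (c : ℝ) : ℝ :=
  4 * (3 * d + 1) + (32 * (3 * d + 1) * c + 2) + Real.log (3 * d + 2) / Real.log 2 + (96 * Cd d * c + 28 * Cd d + 30)

section one

variable {Q : Type} [Group Q] [Fintype Q]
variable {T : Finset Q} {h1 : (1 : Q) ∉ T} {hinv : ∀ t ∈ T, t⁻¹ ∈ T}

theorem card_LV : (Fintype.card (LV Q × Bool) : ℝ) = (Fintype.card Q : ℝ) ^ (Fintype.card Q) * (Fintype.card Q : ℝ) ^ 2 * 2 := by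
  rw [Fintype.card_prod, Fintype.card_bool, Fintype.card_prod, Fintype.card_prod, Fintype.card_fun]
  push_cast; ring

theorem CC_one (hT : 0 < T.card) : CC (lampB T h1 hinv) (fun _ _ => 1) (3 * T.card + 1) := by
  have h := (CW_one (T := T)).CC (h1 := h1) (hinv := hinv) hT
  rwa [cB_one] at h

/-- Upper bound of the mixing time of simple random walk. -/
theorem one_up (hg : Gap T) (hT : 8 ≤ T.card) (hn6 : 6 ≤ Fintype.card Q) {t : ℕ}
    (ht : 16 * (3 * T.card + 1) * ((Fintype.card Q : ℝ) * Real.log (Fintype.card Q)) ≤ t) {ε : ℝ}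
    (hε : 10 / (Fintype.card Q : ℝ) ^ 2 ≤ ε) : MixedBy (lampB T h1 hinv) (fun _ _ => 1) ε (2 * t) := by
  have h3 := unif_rates (h1 := h1) (hinv := hinv) CW_one hg (rates_one hT) hn6 (t := t) (by
    refine le_trans (le_of_eq ?_) ht
    rw [div_div_eq_mul_div, div_one]; ring)
  rw [cB_one] at h3
  exact ((CC_one hg.1).mixed h3).mono hε

/-- Lower bound of the mixing time of simple random walk. -/
theorem one_lo (hT : 0 < T.card) {t : ℕ} {ε : ℝ} (hε : 1 / (Fintype.card Q : ℝ) ^ 2 ≤ ε)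
    (hm : MixedBy (lampB T h1 hinv) (fun _ _ => 1) (1 - ε) t) :
    (Fintype.card Q : ℝ) * Real.log (Fintype.card Q) ≤ t * Real.log (3 * T.card + 2) := by
  obtain ⟨n, hn⟩ : ∃ n : ℝ, n = (Fintype.card Q : ℝ) := ⟨_, rfl⟩
  have hn1 : (1 : ℝ) ≤ n := by rw [hn]; exact_mod_cast Fintype.card_pos
  have hn0 : 0 < n := by linarith
  have hcount := (CC_one (h1 := h1) (hinv := hinv) hT).count (D := 3 * T.card + 1) (fun x => lampB_degree x) hm
    ((fun _ => 1, 1, 1), true)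
  rw [card_LV, ← hn] at hcount
  rw [← hn] at hε ⊢
  have h2 : n ^ (Fintype.card Q) ≤ ε * (n ^ (Fintype.card Q) * n ^ 2 * 2) := by
    have h3 : 1 / n ^ 2 * (n ^ (Fintype.card Q) * n ^ 2 * 2) ≤ ε * (n ^ (Fintype.card Q) * n ^ 2 * 2) :=
      mul_le_mul_of_nonneg_right hε (by positivity)
    have e : 1 / n ^ 2 * (n ^ (Fintype.card Q) * n ^ 2 * 2) = 2 * n ^ (Fintype.card Q) := by field_simp
    rw [e] at h3
    have : 0 < n ^ (Fintype.card Q) := by positivity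
    linarith
  have h4 : n ^ (Fintype.card Q) ≤ (3 * (T.card : ℝ) + 2) ^ t := by
    refine h2.trans (hcount.trans (le_of_eq ?_))
    congr 1; push_cast; ring
  have h5 := Real.log_le_log (by positivity) h4
  rw [Real.log_pow, Real.log_pow] at h5
  rw [← hn] at h5
  exact h5

end one

/-- All estimates hold. -/
theorem gd_of {Q : Type} [Group Q] [Fintype Q] {M R d L' τ kp : ℕ} {dp ep δ ζ c : ℝ}
    (hnum : Num M R d L' τ (Fintype.card Q) (16 * M) dp ep δ)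
    (hM2 : 2 ≤ M) (hτ : 2 ≤ τ)
    (herr : M * (d : ℝ) * (12 / R + 32 / L') + 2 * M * ep
        + (3 / 4) ^ τ * (Fintype.card Q : ℝ) ^ 2 * Fintype.card (Ix M R) * (6 * (d : ℝ)) ≤ 1 / (2 * (16 * M)))
    (hE : NumE M R d L' kp ep ζ c) {T : Finset Q} {lev : Q → ℕ} (hlamp : LampOK T lev (100 * L') d dp)
    (hball : 4 * (Finset.univ.filter (fun q => lev q ≤ 100 * L')).card ≤ Fintype.card Q)
    (hn1 : 2 ^ L' ≤ Fintype.card Q) (hlog : Real.log (Fintype.card Q) ≤ c * L') :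
    ∃ (V : Type) (_ : Fintype V) (G : SimpleGraph V) (w : V → V → ℝ) (a : ℝ),
      Gd (3 * d + 1) (20000 * d * (1000 * d) + d * (1000 * d) + 1) (C1d d c) M L'
        ((1 / 8 * (1 / (2 * Cd d)) ^ 5) * (ζ / 2) / 2) V G w a := by
  obtain ⟨w, hw1, hw2, hw3, hw4, t0, ht0, hw5⟩ := core hnum hM2 hτ herr hE hlamp hball hn1 hlog
  have hcard : T.card = d := by have := hlamp.card; exact_mod_cast this
  have hd := hnum.hd
  have hL1 := hnum.L1
  have hT8 : 8 ≤ T.card := by omega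
  have hT0 : 0 < T.card := by omega
  have hc0 := hE.c0
  have hCd := Cd_pos d
  have hlog2 : 0 < Real.log 2 := Real.log_pos (by norm_num)
  have hlogd : 0 ≤ Real.log (3 * (d : ℝ) + 2) := Real.log_nonneg (by
    have : (0 : ℝ) ≤ d := Nat.cast_nonneg _
    linarith)
  have hn6 : 6 ≤ Fintype.card Q := by
    have h2 : 2 ^ 20 ≤ 2 ^ L' := Nat.pow_le_pow_right (by norm_num) hL1
    omega
  have hconn : (lampB T hlamp.one hlamp.inv).Connected := lampB_connected hlamp.gap.gen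
  have hpos : ∀ x y, (lampB T hlamp.one hlamp.inv).Adj x y → (0 : ℝ) < w x y := fun x y _ => by
    have := (hw2 x y).1; linarith
  have hCC1 : CC (lampB T hlamp.one hlamp.inv) (fun _ _ => 1) (3 * T.card + 1) := CC_one hT0
  have hpos1 : ∀ x y, (lampB T hlamp.one hlamp.inv).Adj x y → (0 : ℝ) < (fun _ _ => 1 : LV Q × Bool → LV Q × Bool → ℝ) x y := fun x y _ => by
    norm_num
  obtain ⟨n, hn⟩ : ∃ n : ℝ, n = (Fintype.card Q : ℝ) := ⟨_, rfl⟩
  have hnge : (2 : ℝ) ^ L' ≤ n := by rw [hn]; exact_mod_cast hn1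
  have h2L : (1 : ℝ) ≤ 2 ^ L' := one_le_pow₀ (by norm_num)
  have hn0 : 1 ≤ n := by linarith
  have hnn : n ≤ n ^ 2 := by nlinarith
  have hLr : (20 : ℝ) ≤ L' := by exact_mod_cast hL1
  have ha : (1 : ℝ) ≤ n * L' := by nlinarith
  have hεn : ∀ ε : ℝ, 10 / 2 ^ L' ≤ ε → 10 / (Fintype.card Q : ℝ) ^ 2 ≤ ε := by
    intro ε hε
    refine le_trans ?_ hε
    rw [← hn]
    apply div_le_div_of_nonneg_left (by norm_num) (by positivity)
    linarith
  obtain ⟨A1, hA1⟩ : ∃ A1 : ℝ, A1 = 4 * (3 * (d : ℝ) + 1) := ⟨_, rfl⟩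
  obtain ⟨A2, hA2⟩ : ∃ A2 : ℝ, A2 = 32 * (3 * (d : ℝ) + 1) * c + 2 := ⟨_, rfl⟩
  obtain ⟨A3, hA3⟩ : ∃ A3 : ℝ, A3 = Real.log (3 * d + 2) / Real.log 2 := ⟨_, rfl⟩
  obtain ⟨A4, hA4⟩ : ∃ A4 : ℝ, A4 = 96 * Cd d * c + 28 * Cd d + 30 := ⟨_, rfl⟩
  have hA10 : 0 ≤ A1 := by rw [hA1]; positivity
  have hA20 : 0 ≤ A2 := by rw [hA2]; positivity
  have hA30 : 0 ≤ A3 := by rw [hA3]; positivity
  have hA40 : 0 ≤ A4 := by rw [hA4]; positivity
  have hC1 : C1d d c = A1 + A2 + A3 + A4 := by rw [hA1, hA2, hA3, hA4]; rfl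
  rw [hC1]
  refine ⟨LV Q × Bool, inferInstance, lampB T hlamp.one hlamp.inv, w, n * L', ?_⟩
  have hn0' : 0 < n := by linarith
  refine
    { conn := hconn
      tr := lampB_transitive
      deg := fun x => by rw [lampB_degree, hcard]
      sym := hw1
      bd := hw2
      a0 := by linarith
      big := ?_
      cc := ⟨_, hw3⟩
      att := fun ε hε => ⟨tmix_mem hCC1 hpos1 hconn hε, tmix_mem hw3 hpos hconn hε⟩
      rel0 := ?_
      rel := ?_
      up := ?_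
      lo := ?_
      plo := ?_
      pup := ?_ }
  · have e : Fintype.card (LV Q × Bool) = Fintype.card Q ^ Fintype.card Q * (Fintype.card Q * Fintype.card Q) * 2 := by
      rw [Fintype.card_prod, Fintype.card_bool, Fintype.card_prod, Fintype.card_prod, Fintype.card_fun]
    rw [e]
    have f1 : 1 ≤ Fintype.card Q ^ Fintype.card Q := Nat.one_le_pow _ _ (by omega)
    have f2 : L' < 2 ^ L' := Nat.lt_two_pow_self
    have f3 : Fintype.card Q ≤ Fintype.card Q * Fintype.card Q := Nat.le_mul_of_pos_right _ (by omega)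
    have f4 : 1 * (Fintype.card Q * Fintype.card Q) ≤ Fintype.card Q ^ Fintype.card Q * (Fintype.card Q * Fintype.card Q) :=
      Nat.mul_le_mul_right _ f1
    omega
  · have h := (trel_bound (h1 := hlamp.one) (hinv := hlamp.inv) CW_one hlamp.gap (rates_one hT8)).1
    rwa [cB_one] at h
  · have h := (trel_bound (h1 := hlamp.one) (hinv := hlamp.inv) CW_one hlamp.gap (rates_one hT8)).2
    rw [cB_one, ← hn, hcard] at h
    have h2 := mul_le_mul_of_nonneg_right h (Nat.cast_nonneg (α := ℝ) L')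
    refine h2.trans ?_
    have e : 2 / (1 / (2 * (3 * (d : ℝ) + 1))) * n * L' = A1 * (n * L') := by
      rw [hA1, div_div_eq_mul_div, div_one]; ring
    rw [e]
    apply mul_le_mul_of_nonneg_right _ (by linarith)
    linarith
  · intro ε hε
    obtain ⟨t, ht⟩ : ∃ t : ℕ, t = ⌈16 * (3 * (d : ℝ) + 1) * (n * Real.log n)⌉₊ := ⟨_, rfl⟩
    have hlog0 : 0 ≤ Real.log n := Real.log_nonneg hn0
    have hlogn : Real.log n ≤ c * L' := by rw [hn]; exact hlog
    have h3 : MixedBy (lampB T hlamp.one hlamp.inv) (fun _ _ => 1) ε (2 * t) :=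
      one_up hlamp.gap hT8 hn6 (by rw [hcard, ← hn, ht]; exact Nat.le_ceil _) (hεn ε hε)
    have h4 := tmix_le h3
    have h5 : (tmix (lampB T hlamp.one hlamp.inv) (fun _ _ => 1) ε : ℝ) ≤ 2 * t := by exact_mod_cast h4
    have h6 : (t : ℝ) ≤ 16 * (3 * (d : ℝ) + 1) * (n * Real.log n) + 1 := by
      rw [ht]; exact (Nat.ceil_lt_add_one (by positivity)).le
    have h7 : 16 * (3 * (d : ℝ) + 1) * (n * Real.log n) ≤ 16 * (3 * (d : ℝ) + 1) * (n * (c * L')) := by gcongr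
    have h8 : 2 * (16 * (3 * (d : ℝ) + 1) * (n * (c * L')) + 1) ≤ A2 * (n * L') := by
      have e : A2 * (n * L') = 2 * (16 * (3 * (d : ℝ) + 1) * (n * (c * L'))) + 2 * (n * L') := by rw [hA2]; ring
      rw [e]; linarith
    have h9 : A2 * (n * L') ≤ (A1 + A2 + A3 + A4) * (n * L') := by
      apply mul_le_mul_of_nonneg_right _ (by linarith)
      linarith
    linarith
  · intro ε hε hε1
    have hm := tmix_mem hCC1 hpos1 hconn (ε := 1 - ε) (by linarith)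
    have h3 := one_lo hT0 (ε := ε) (by
      refine le_trans ?_ (hεn ε hε)
      apply div_le_div_of_nonneg_right (by norm_num) (by positivity)) hm
    rw [← hn, hcard] at h3
    have h4 : (L' : ℝ) * Real.log 2 ≤ Real.log n := by
      rw [← Real.log_pow]; exact Real.log_le_log (by positivity) hnge
    have h5 : n * (L' * Real.log 2) ≤ n * Real.log n := mul_le_mul_of_nonneg_left h4 hn0'.le
    have h6 : n * L' ≤ A3 * (tmix (lampB T hlamp.one hlamp.inv) (fun _ _ => 1) (1 - ε) : ℝ) := by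
      rw [hA3, div_mul_eq_mul_div, le_div_iff₀ hlog2]; linarith
    refine h6.trans ?_
    apply mul_le_mul_of_nonneg_right _ (Nat.cast_nonneg _)
    linarith
  · intro ε hε0 hε
    have hpos0 : 0 < (M - 1) * (Fintype.card Q * L') := Nat.mul_pos (by omega) (Nat.mul_pos (by omega) (by omega))
    have h3 : (M - 1) * (Fintype.card Q * L') - 1 < tmix (lampB T hlamp.one hlamp.inv) w ε :=
      lt_tmix hw3 hpos hconn hε0 (fun t ht => hw4 t (by omega) ε hε)
    have h4 : (M - 1) * (Fintype.card Q * L') ≤ tmix (lampB T hlamp.one hlamp.inv) w ε := by omega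
    have h5 : (((M - 1) * (Fintype.card Q * L') : ℕ) : ℝ) ≤ (tmix (lampB T hlamp.one hlamp.inv) w ε : ℝ) := by exact_mod_cast h4
    rw [hn]
    refine le_trans (le_of_eq ?_) h5
    push_cast [Nat.cast_sub (by omega : 1 ≤ M)]
    ring
  · have h3 := tmix_le hw5
    have h4 : (tmix (lampB T hlamp.one hlamp.inv) w (1 - (1 / 8 * (1 / (2 * Cd d)) ^ 5) * (ζ / 2) / 2) : ℝ) ≤ t0 := by exact_mod_cast h3
    refine h4.trans (ht0.trans ?_)
    rw [← hn, ← hA4]
    apply mul_le_mul_of_nonneg_right _ (by linarith)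
    linarith

/-- The family of graphs. -/
theorem family : ∃ (D : ℕ) (K C1 : ℝ), 0 < C1 ∧ ∀ M : ℕ, 2 ≤ M → ∃ β : ℝ, 0 < β ∧ β < 1 ∧ ∀ i : ℕ, ∃ L' : ℕ, i ≤ L' ∧
    ∃ (V : Type) (_ : Fintype V) (G : SimpleGraph V) (w : V → V → ℝ) (a : ℝ), Gd D K C1 M L' β V G w a := by
  obtain ⟨p, hp, hprime⟩ := Nat.exists_infinite_primes (2 ^ 1000)
  have hp101 : 101 ≤ p := by
    have h2 : 2 ^ 7 ≤ 2 ^ 1000 := Nat.pow_le_pow_right (by norm_num) (by norm_num)
    have h3 := h2.trans hp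
    omega
  have hp2 : 1 ≤ p ^ 2 := Nat.one_le_pow _ _ (by omega)
  obtain ⟨d, hd⟩ : ∃ d : ℕ, d = p ^ 2 - 1 := ⟨_, rfl⟩
  obtain ⟨c, hc⟩ : ∃ c : ℝ, c = 1200 * Real.log p := ⟨_, rfl⟩
  have hc0 : 0 ≤ c := by
    rw [hc]
    have : 0 ≤ Real.log p := Real.log_nonneg (by exact_mod_cast (by omega : 1 ≤ p))
    positivity
  have hCd := Cd_pos d
  have hlog2 : 0 < Real.log 2 := Real.log_pos (by norm_num)
  have hlogd : 0 ≤ Real.log (3 * (d : ℝ) + 2) := Real.log_nonneg (by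
    have : (0 : ℝ) ≤ d := Nat.cast_nonneg _
    linarith)
  refine ⟨3 * d + 1, 20000 * d * (1000 * d) + d * (1000 * d) + 1, C1d d c, ?_, fun M hM => ?_⟩
  · unfold C1d
    have : 0 ≤ Real.log (3 * (d : ℝ) + 2) / Real.log 2 := by positivity
    have h2 : 0 ≤ 96 * Cd d * c + 28 * Cd d + 30 := by positivity
    have h3 : 0 ≤ 32 * (3 * (d : ℝ) + 1) * c + 2 := by positivity
    have h4 : 0 < 4 * (3 * (d : ℝ) + 1) := by positivity
    linarith
  obtain ⟨L0, hgrp⟩ := grp hp hprime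
  obtain ⟨R, ep, δ, hnum⟩ := num_exists2 hp101 (by omega : 1 ≤ M)
  have hep : 0 < ep := by
    obtain ⟨l, hl1, hl2⟩ := (hnum.and (eventually_ge_atTop 1)).exists
    obtain ⟨τ, hτ, hl⟩ := hl1
    have h3 : 2 ^ l ≤ p ^ (1200 * l) := by
      calc 2 ^ l ≤ 2 ^ (1200 * l) := Nat.pow_le_pow_right (by norm_num) (by omega)
        _ ≤ p ^ (1200 * l) := Nat.pow_le_pow_left (by omega) _
    exact (hl _ le_rfl h3).1.ep0
  obtain ⟨kp, ζ, hζ0, hζ1, hE⟩ := numE_exists (M := M) (R := R) (d := d) hep hc0 (by omega)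
  refine ⟨(1 / 8 * (1 / (2 * Cd d)) ^ 5) * (ζ / 2) / 2, by positivity, ?_, fun i => ?_⟩
  · have hC1 := Cd_ge1 d
    have h1 : (1 / (2 * Cd d)) ≤ 1 := by rw [div_le_one (by positivity)]; linarith
    have h2 : (1 / (2 * Cd d)) ^ 5 ≤ 1 := pow_le_one₀ (by positivity) h1
    have h3 : (1 / 8 * (1 / (2 * Cd d)) ^ 5) * (ζ / 2) ≤ (1 / 8 * 1) * (ζ / 2) := by gcongr
    linarith
  obtain ⟨l, hl1, hl2, hl3, hl4⟩ := (hnum.and (hE.and ((eventually_ge_atTop i).and (eventually_ge_atTop L0)))).exists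
  obtain ⟨τ, hτ, hl⟩ := hl1
  obtain ⟨Q, iG, iF, T, lev, hlamp, hball, hn1, hn2, hlog⟩ := hgrp l hl4
  obtain ⟨hN, herr⟩ := hl _ hn1 hn2
  rw [← hd] at hN herr hlamp
  exact ⟨l, hl3, gd_of hN hM hτ herr hl2 hlamp hball hn1 (by rw [hc]; exact hlog)⟩

end PC

end Pool.Agent.H984
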