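import Pool.Agent.H984.PcFin3

/-!
H984: the sequence of graphs.
-/

set_option autoImplicit false

open Classical Filter

namespace Pool.Agent.H984

namespace PC

/-- Pre-cutoff is not robust. -/
theorem main2 : ∃ (S : GSeq) (D : ℕ),
    (∀ n, (S.G n).Connected ∧ VertexTransitive (S.G n) ∧ ∀ x, (S.G n).degree x = D) ∧
    Tendsto (fun n => Fintype.card (S.V n)) atTop atTop ∧
    ProductCondition S S.one ∧ PreCutoff S S.one ∧
    ∃ w : S.Wt, BoundedPerturbation S w ∧ ¬ PreCutoff S w ∧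
      ∀ n (ε : ℝ), 0 < ε → MixedBy (S.G n) (S.one n) ε (tmix (S.G n) (S.one n) ε) ∧
        MixedBy (S.G n) (w n) ε (tmix (S.G n) (w n) ε) := by
  obtain ⟨D, K, C1, hC1, hfam⟩ := family
  have hfam' : ∀ m : ℕ, ∃ β : ℝ, 0 < β ∧ β < 1 ∧ ∀ i : ℕ, ∃ L' : ℕ, i ≤ L' ∧
      ∃ (V : Type) (_ : Fintype V) (G : SimpleGraph V) (w : V → V → ℝ) (a : ℝ), Gd D K C1 (m + 2) L' β V G w a :=
    fun m => hfam (m + 2) (by omega)
  choose β hβ0 hβ1 hβ using hfam'
  have hi : ∀ i : ℕ, ∃ L' : ℕ, i ≤ L' ∧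
      ∃ (V : Type) (_ : Fintype V) (G : SimpleGraph V) (w : V → V → ℝ) (a : ℝ),
        Gd D K C1 ((Nat.unpair i).1 + 2) L' (β (Nat.unpair i).1) V G w a := fun i => hβ (Nat.unpair i).1 i
  choose L hL V iV G w a hg using hi
  have h10 : ∀ ε : ℝ, 0 < ε → ∀ᶠ i in atTop, 10 / (2 : ℝ) ^ L i ≤ ε := by
    intro ε hε
    filter_upwards [eventually_ge_atTop ⌈10 / ε⌉₊] with i hi
    have h1 : 10 / ε ≤ i := Nat.ceil_le.mp hi
    have h2 : (i : ℝ) ≤ L i := by exact_mod_cast hL i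
    have h3 : ((L i : ℕ) : ℝ) ≤ 2 ^ L i := by exact_mod_cast Nat.lt_two_pow_self.le
    rw [div_le_iff₀ hε] at h1
    rw [div_le_iff₀ (by positivity)]
    nlinarith
  refine ⟨⟨V, iV, G⟩, D, fun n => ⟨(hg n).conn, (hg n).tr, (hg n).deg⟩, ?_, ?_, ?_, w, ⟨fun n => (hg n).sym, K, fun n x y _ => (hg n).bd x y⟩, ?_,
    fun n ε hε => (hg n).att ε hε⟩
  · exact tendsto_atTop_mono (fun n => (hL n).trans (hg n).big) tendsto_id
  · -- product condition
    show Tendsto (fun n => trel (G n) (fun _ _ => 1) / (tmix (G n) (fun _ _ => 1) (1 / 4) : ℝ)) atTop (nhds 0)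
    refine squeeze_zero' (Eventually.of_forall fun n => ?_) ?_ (tendsto_const_div_atTop_nhds_zero_nat (C1 ^ 2))
    · exact div_nonneg (hg n).rel0 (Nat.cast_nonneg _)
    · filter_upwards [h10 (3 / 4) (by norm_num), eventually_ge_atTop 1] with n hn hn1
      have h1 := (hg n).rel
      have h2 := (hg n).lo (3 / 4) hn (by norm_num)
      have e : (1 : ℝ) - 3 / 4 = 1 / 4 := by norm_num
      rw [e] at h2
      have h3 : (n : ℝ) ≤ L n := by exact_mod_cast hL n
      have h4 : (1 : ℝ) ≤ n := by exact_mod_cast hn1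
      have ha := (hg n).a0
      have h5 : 0 < (tmix (G n) (fun _ _ => 1) (1 / 4) : ℝ) := by
        by_contra hc
        have : (tmix (G n) (fun _ _ => 1) (1 / 4) : ℝ) ≤ 0 := not_lt.mp hc
        have := mul_nonpos_of_nonneg_of_nonpos hC1.le this
        linarith
      rw [div_le_div_iff₀ h5 (by linarith)]
      have h6 : trel (G n) (fun _ _ => 1) * n ≤ trel (G n) (fun _ _ => 1) * L n := mul_le_mul_of_nonneg_left h3 (hg n).rel0
      have h7 : C1 * a n ≤ C1 * (C1 * (tmix (G n) (fun _ _ => 1) (1 / 4) : ℝ)) := mul_le_mul_of_nonneg_left h2 hC1.le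
      calc _ ≤ _ := h6
        _ ≤ _ := h1
        _ ≤ _ := h7
        _ = _ := by ring
  · -- pre-cutoff
    refine lt_of_le_of_lt (iSup₂_le fun ε hε => ?_) (ENNReal.ofReal_lt_top : ENNReal.ofReal (C1 * C1) < ⊤)
    refine limsup_le_of_le (h := ?_)
    filter_upwards [h10 ε hε.1] with n hn
    show (tmix (G n) (fun _ _ => 1) ε : ENNReal) / (tmix (G n) (fun _ _ => 1) (1 - ε) : ENNReal) ≤ ENNReal.ofReal (C1 * C1)
    apply ENNReal.div_le_of_le_mul
    rw [← ENNReal.ofReal_natCast, ← ENNReal.ofReal_natCast, ← ENNReal.ofReal_mul (by positivity)]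
    apply ENNReal.ofReal_le_ofReal
    have h1 := (hg n).up ε hn
    have h2 := (hg n).lo ε hn (by have := hε.2; linarith)
    have h3 := mul_le_mul_of_nonneg_left h2 hC1.le
    linarith
  · -- failure for the perturbation
    intro h
    unfold PreCutoff at h
    obtain ⟨B, hB⟩ : ∃ B, B = (⨆ ε ∈ Set.Ioo (0 : ℝ) (1 / 2),
      limsup (fun n => (tmix (G n) (w n) ε : ENNReal) / (tmix (G n) (w n) (1 - ε) : ENNReal)) atTop) := ⟨_, rfl⟩
    have hBt : B < ⊤ := by rw [hB]; exact h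
    obtain ⟨m, hm⟩ := exists_nat_gt (C1 * B.toReal)
    obtain ⟨ε, hε⟩ : ∃ ε : ℝ, ε = min (β m) (1 / 4) := ⟨_, rfl⟩
    have hε0 : 0 < ε := by rw [hε]; exact lt_min (hβ0 m) (by norm_num)
    have hε1 : ε < 1 / 2 := by rw [hε]; exact lt_of_le_of_lt (min_le_right _ _) (by norm_num)
    have hεβ : ε ≤ β m := by rw [hε]; exact min_le_left _ _
    have h1 : limsup (fun n => (tmix (G n) (w n) ε : ENNReal) / (tmix (G n) (w n) (1 - ε) : ENNReal)) atTop ≤ B := by
      rw [hB]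
      exact le_iSup₂ (f := fun (ε : ℝ) (_ : ε ∈ Set.Ioo (0 : ℝ) (1 / 2)) =>
        limsup (fun n => (tmix (G n) (w n) ε : ENNReal) / (tmix (G n) (w n) (1 - ε) : ENNReal)) atTop) ε ⟨hε0, hε1⟩
    have h2 : ENNReal.ofReal ((m + 1 : ℝ) / C1)
        ≤ limsup (fun n => (tmix (G n) (w n) ε : ENNReal) / (tmix (G n) (w n) (1 - ε) : ENNReal)) atTop := by
      refine le_limsup_of_frequently_le ?_ (by isBoundedDefault)
      rw [frequently_atTop]
      intro N
      refine ⟨Nat.pair m N, Nat.right_le_pair m N, ?_⟩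
      obtain ⟨i, hi⟩ : ∃ i, i = Nat.pair m N := ⟨_, rfl⟩
      have him : (Nat.unpair i).1 = m := by rw [hi, Nat.unpair_pair]
      rw [← hi]
      have h3 := (hg i).plo ε hε0 hε1
      have h4 := (hg i).pup
      have ha := (hg i).a0
      rw [him] at h3 h4
      have hpos : ∀ x y, (G i).Adj x y → (0 : ℝ) < w i x y := fun x y _ => by
        have := ((hg i).bd x y).1; linarith
      obtain ⟨C, hcc⟩ := (hg i).cc
      have h6 : tmix (G i) (w i) (1 - ε) ≤ tmix (G i) (w i) (1 - β m) :=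
        tmix_anti hcc hpos (hg i).conn (by have := hβ1 m; linarith) (by linarith)
      have h7 : (tmix (G i) (w i) (1 - ε) : ℝ) ≤ C1 * a i := by
        have : (tmix (G i) (w i) (1 - ε) : ℝ) ≤ (tmix (G i) (w i) (1 - β m) : ℝ) := by exact_mod_cast h6
        linarith
      have h8 : ((m : ℝ) + 1) * a i ≤ (tmix (G i) (w i) ε : ℝ) := by
        refine le_trans (le_of_eq ?_) h3
        push_cast; ring
      have e : ((m : ℝ) + 1) / C1 = (((m : ℝ) + 1) * a i) / (C1 * a i) := by field_simp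
      rw [e, ENNReal.ofReal_div_of_pos (by positivity)]
      apply ENNReal.div_le_div
      · rw [← ENNReal.ofReal_natCast]; exact ENNReal.ofReal_le_ofReal h8
      · rw [← ENNReal.ofReal_natCast]; exact ENNReal.ofReal_le_ofReal h7
    have h5 := h2.trans h1
    rw [← ENNReal.ofReal_toReal hBt.ne, ENNReal.ofReal_le_ofReal_iff ENNReal.toReal_nonneg, div_le_iff₀ hC1] at h5
    linarith

end PC

end Pool.Agent.H984
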