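import Pool.Agent.H984.PcSec

/-!
H984: the `L²` bounds for general rates.
-/

set_option autoImplicit false

open Classical

namespace Pool.Agent.H984

namespace PC

variable {Q : Type} [Group Q] [Fintype Q]

theorem E0_const {T : Finset Q} (hT : 0 < T.card) (r : Rates Q) (k : ℝ) : E0 T r (fun _ => k) = fun _ => k := by
  ext ⟨f, y, e⟩
  rw [E0_apply]
  have h1 : Pb T (fun _ _ => k) y e = k := by
    have h := Pb_const hT k 1
    rw [pow_one] at h
    have h2 := congrFun (congrFun h y) e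
    exact h2
  have h2 : Al T (fun _ => k) (f, y, e) = k := by
    unfold Al
    rw [Finset.sum_const, nsmul_eq_mul]
    have : (T.card : ℝ) ≠ 0 := by exact_mod_cast hT.ne'
    field_simp
  rw [h1, h2]; ring

theorem E0_pow_const {T : Finset Q} (hT : 0 < T.card) (r : Rates Q) (k : ℝ) (t : ℕ) : (E0 T r ^ t) (fun _ => k) = fun _ => k := by
  induction t with
  | zero => simp
  | succ t ih => rw [pow_succ, Module.End.mul_apply, E0_const hT, ih]

/-- The point mass. -/
noncomputable def dl (v : LV Q) : LV Q → ℝ := fun u => if u = v then 1 else 0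

/-- The `L²` distance to equilibrium of the even part. -/
theorem l2_E0 {T : Finset Q} (hg : Gap T) {r : Rates Q} {c : ℝ} (hr : r.OK c) (hn6 : 6 ≤ Fintype.card Q) {t : ℕ}
    (ht : 8 / c * ((Fintype.card Q : ℝ) * Real.log (Fintype.card Q)) ≤ t) (v : LV Q) :
    (Fintype.card (LV Q) : ℝ) * ∑ u, ((E0 T r ^ t) (dl v) u - 1 / (Fintype.card (LV Q) : ℝ)) ^ 2 ≤ 9 / (Fintype.card Q : ℝ) ^ 2 := by
  have hn : (6 : ℝ) ≤ Fintype.card Q := by exact_mod_cast hn6
  set n : ℝ := (Fintype.card Q : ℝ) with hn'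
  have hn0 : 0 < n := by linarith
  have hc := hr.c0
  have hc1 : c ≤ 1 := by
    have := hr.ha; have := hr.tot 1; have := hr.hb 1; have := hr.hg 1; linarith
  set N : ℝ := (Fintype.card (LV Q) : ℝ) with hN'
  have hN : N = n ^ (Fintype.card Q) * n ^ 2 := card_LV
  have hN0 : 0 < N := by rw [hN]; positivity
  have hN1 : 1 ≤ N := by
    rw [hN]
    have a1 : (1 : ℝ) ≤ n ^ (Fintype.card Q) := one_le_pow₀ (by linarith)
    have a2 : (1 : ℝ) ≤ n ^ 2 := one_le_pow₀ (by linarith)
    nlinarith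
  have hlog : 0 ≤ Real.log n := Real.log_nonneg (by linarith)
  -- decay factor
  have decay : ∀ x : ℝ, 0 ≤ x → x ≤ 1 → ∀ k : ℕ, 8 * k * Real.log n ≤ x * t → (1 - x) ^ t ≤ (1 / n ^ 8) ^ k := by
    intro x hx hx1 k hk
    have h2 : (1 - x) ^ t ≤ Real.exp (-(x * t)) := by
      have : Real.exp (-(x * t)) = Real.exp (-x) ^ t := by rw [← Real.exp_nat_mul]; congr 1; ring
      rw [this]
      apply pow_le_pow_left₀ (by linarith)
      have := Real.add_one_le_exp (-x); linarith
    refine h2.trans ?_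
    have h3 : (1 / n ^ 8) ^ k = Real.exp (-(8 * k * Real.log n)) := by
      rw [Real.exp_neg]
      have : Real.exp (8 * k * Real.log n) = n ^ (8 * k) := by
        have h4 : (8 : ℝ) * k * Real.log n = ((8 * k : ℕ) : ℝ) * Real.log n := by push_cast; ring
        rw [h4, Real.exp_nat_mul, Real.exp_log hn0]
      rw [this, one_div, inv_pow, ← pow_mul]
    rw [h3]
    exact Real.exp_le_exp.mpr (by linarith)
  have htc : 8 * (n * Real.log n) ≤ c * t := by
    have := mul_le_mul_of_nonneg_left ht hc.le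
    have e : c * (8 / c * (n * Real.log n)) = 8 * (n * Real.log n) := by field_simp
    linarith
  set F0 : LV Q → ℝ := fun u => DS ∅ v u - 1 / N with hF0
  have hF0HS : HS ∅ F0 := by
    constructor
    · intro x hx; simp at hx
    · intro x hx f q y e
      rw [hF0]
      simp only
      rw [(DS_HS ∅ v).const x hx]
  have hprod : ∀ f : Q → Q, ∏ z, wS ∅ v.1 z (f z) = 1 / n ^ (Fintype.card Q) := by
    intro f
    unfold wS
    simp only [Finset.notMem_empty, if_false]
    rw [Finset.prod_const, Finset.card_univ, ← hn', one_div, inv_pow, one_div]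
  have hF00 : ∀ f, ∑ y, ∑ e, F0 (f, y, e) = 0 := by
    intro f
    rw [hF0]
    simp only [Finset.sum_sub_distrib, Finset.sum_const, Finset.card_univ, nsmul_eq_mul]
    unfold DS
    simp only [hprod]
    have h4 : ∀ y : Q, ∑ e : Q, (if y = v.2.1 then (1 : ℝ) else 0) * (if e = v.2.2 then 1 else 0) * (1 / n ^ (Fintype.card Q))
        = (if y = v.2.1 then (1 : ℝ) else 0) * (1 / n ^ (Fintype.card Q)) := by
      intro y
      rw [← Finset.sum_mul, ← Finset.mul_sum, Finset.sum_ite_eq', if_pos (Finset.mem_univ _), mul_one]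
    rw [Finset.sum_congr rfl (fun y _ => h4 y), ← Finset.sum_mul, Finset.sum_ite_eq', if_pos (Finset.mem_univ _), ← hn', hN]
    field_simp; ring
  set a : Finset Q → LV Q → ℝ := fun S u => if S = ∅ then (E0 T r ^ t) F0 u else (E0 T r ^ t) (DS S v) u with ha
  set b : Finset Q → ℝ := fun S => if S = ∅ then 1 / n else n * (1 / n ^ 3) ^ S.card with hb
  have hb0 : ∀ S ∈ (Finset.univ : Finset (Finset Q)), 0 < b S := by
    intro S _; rw [hb]; simp only; split_ifs <;> positivity
  have hab : ∀ S ∈ (Finset.univ : Finset (Finset Q)), N * ∑ u, (a S u) ^ 2 ≤ (b S) ^ 2 := by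
    intro S _
    rw [ha, hb]
    simp only
    by_cases hS : S = ∅
    · simp only [hS, if_true]
      rw [← nsq_eq (fun u => (E0 T r ^ t) F0 u)]
      have h2 := HS_pow0 hg hr t hF0HS hF00
      have h3 : (1 - c) ^ t ≤ (1 / n ^ 8) ^ 1 := by
        apply decay c hc.le hc1 1
        have : (1 : ℝ) ≤ n := by linarith
        have h5 : 8 * Real.log n ≤ 8 * (n * Real.log n) := by nlinarith
        push_cast; linarith
      rw [pow_one] at h3
      have h4 : N * nsq F0 ≤ 4 * n ^ 2 := by
        have h5 : nsq F0 ≤ 2 * nsq (DS ∅ v) + 2 / N := by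
          rw [nsq_eq, nsq_eq]
          have h6 : ∀ u, (F0 u) ^ 2 ≤ 2 * (DS ∅ v u) ^ 2 + 2 / N ^ 2 := by
            intro u; rw [hF0]; simp only
            have : (2 : ℝ) / N ^ 2 = 2 * (1 / N) ^ 2 := by ring
            rw [this]
            nlinarith [sq_nonneg (DS ∅ v u + 1 / N)]
          refine (Finset.sum_le_sum (fun u _ => h6 u)).trans ?_
          rw [Finset.sum_add_distrib, ← Finset.mul_sum, Finset.sum_const, Finset.card_univ, nsmul_eq_mul, ← hN']
          apply le_of_eq; congr 1; field_simp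
        have h7 := nsq_DS ∅ v
        simp only [Finset.card_empty, pow_zero] at h7
        have h8 : N * nsq (DS ∅ v) ≤ n ^ 2 := by
          rw [hN]
          calc n ^ (Fintype.card Q) * n ^ 2 * nsq (DS ∅ v) = n ^ 2 * (n ^ (Fintype.card Q) * nsq (DS ∅ v)) := by ring
            _ ≤ n ^ 2 * 1 := by gcongr
            _ = _ := mul_one _
        have h9 : (1 : ℝ) ≤ n ^ 2 := one_le_pow₀ (by linarith)
        calc N * nsq F0 ≤ N * (2 * nsq (DS ∅ v) + 2 / N) := mul_le_mul_of_nonneg_left h5 hN0.le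
          _ = 2 * (N * nsq (DS ∅ v)) + 2 := by field_simp
          _ ≤ _ := by linarith
      calc N * nsq (fun u => (E0 T r ^ t) F0 u) ≤ N * ((1 - c) ^ t * nsq F0) := mul_le_mul_of_nonneg_left h2 hN0.le
        _ = (1 - c) ^ t * (N * nsq F0) := by ring
        _ ≤ (1 / n ^ 8) * (4 * n ^ 2) := by
            apply mul_le_mul h3 h4 _ (by positivity)
            exact mul_nonneg hN0.le (nsq_nonneg _)
        _ ≤ (1 / n) ^ 2 := by
            rw [div_mul_eq_mul_div, one_mul, div_pow, one_pow, div_le_div_iff₀ (by positivity) (by positivity)]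
            have h10 : (4 : ℝ) ≤ n ^ 4 := by
              calc (4 : ℝ) ≤ 6 ^ 4 := by norm_num
                _ ≤ n ^ 4 := by gcongr
            calc 4 * n ^ 2 * n ^ 2 = 4 * n ^ 4 := by ring
              _ ≤ n ^ 4 * n ^ 4 := by gcongr
              _ = 1 * n ^ 8 := by ring
    · simp only [hS, if_false]
      have hSc : 0 < S.card := Finset.card_pos.mpr (Finset.nonempty_iff_ne_empty.mpr hS)
      rw [← nsq_eq (fun u => (E0 T r ^ t) (DS S v) u)]
      have h2 := HS_pow hg hr hSc t (DS_HS S v)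
      have hSn : (S.card : ℝ) ≤ n := by rw [hn']; exact_mod_cast Finset.card_le_univ S
      have h3 : (1 - c * (S.card : ℝ) / n) ^ t ≤ (1 / n ^ 8) ^ S.card := by
        apply decay _ (by positivity) _ S.card
        · rw [div_mul_eq_mul_div, le_div_iff₀ (by positivity)]
          have : (S.card : ℝ) * (8 * (n * Real.log n)) ≤ S.card * (c * t) := mul_le_mul_of_nonneg_left htc (Nat.cast_nonneg _)
          linarith
        · rw [div_le_one (by positivity)]
          have : (0 : ℝ) ≤ S.card := Nat.cast_nonneg _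
          nlinarith
      have h4 : N * nsq (DS S v) ≤ n ^ 2 * n ^ S.card := by
        rw [hN]
        calc n ^ (Fintype.card Q) * n ^ 2 * nsq (DS S v) = n ^ 2 * (n ^ (Fintype.card Q) * nsq (DS S v)) := by ring
          _ ≤ _ := mul_le_mul_of_nonneg_left (nsq_DS S v) (by positivity)
      calc N * nsq (fun u => (E0 T r ^ t) (DS S v) u)
          ≤ N * ((1 - c * (S.card : ℝ) / n) ^ t * nsq (DS S v)) := mul_le_mul_of_nonneg_left h2 hN0.le
        _ = (1 - c * (S.card : ℝ) / n) ^ t * (N * nsq (DS S v)) := by ring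
        _ ≤ (1 / n ^ 8) ^ S.card * (n ^ 2 * n ^ S.card) := by
            apply mul_le_mul h3 h4 _ (by positivity)
            exact mul_nonneg hN0.le (nsq_nonneg _)
        _ = n ^ 2 * (1 / n ^ 7) ^ S.card := by
            have : (1 / n ^ 8) ^ S.card * n ^ S.card = (1 / n ^ 7) ^ S.card := by
              rw [← mul_pow]; congr 1; field_simp
            calc _ = n ^ 2 * ((1 / n ^ 8) ^ S.card * n ^ S.card) := by ring
              _ = _ := by rw [this]
        _ ≤ n ^ 2 * (1 / n ^ 6) ^ S.card := by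
            gcongr
            · linarith
            · norm_num
        _ = (n * (1 / n ^ 3) ^ S.card) ^ 2 := by
            rw [mul_pow, ← pow_mul, mul_comm S.card 2, pow_mul]
            congr 2
            field_simp
  have h5 := titu Finset.univ a b N hN0.le hb0 hab
  have h6 : ∑ S, b S ≤ 3 / n := by
    have h7 : ∑ S : Finset Q, (n * (1 / n ^ 3) ^ S.card) = n * (1 + 1 / n ^ 3) ^ (Fintype.card Q) := by
      rw [← Finset.mul_sum]
      congr 1
      have := Finset.prod_add (fun _ : Q => 1 / n ^ 3) (fun _ => (1 : ℝ)) Finset.univ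
      simp only [Finset.prod_const, one_pow, mul_one, Finset.card_univ, Finset.powerset_univ] at this
      rw [← this, add_comm]
    have h8 : ∑ S, b S = ∑ S : Finset Q, (n * (1 / n ^ 3) ^ S.card) + (1 / n - n) := by
      rw [hb, ← Finset.add_sum_erase _ _ (Finset.mem_univ (∅ : Finset Q)),
        ← Finset.add_sum_erase _ (fun S : Finset Q => n * (1 / n ^ 3) ^ S.card) (Finset.mem_univ (∅ : Finset Q))]
      simp only [if_true, Finset.card_empty, pow_zero, mul_one]
      have h9 : ∑ S ∈ Finset.univ.erase (∅ : Finset Q), (if S = ∅ then 1 / n else n * (1 / n ^ 3) ^ S.card)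
          = ∑ S ∈ Finset.univ.erase (∅ : Finset Q), n * (1 / n ^ 3) ^ S.card := by
        apply Finset.sum_congr rfl; intro S hS
        rw [if_neg (Finset.ne_of_mem_erase hS)]
      rw [h9]; ring
    rw [h8, h7]
    have h9 : (1 + 1 / n ^ 3) ^ (Fintype.card Q) ≤ Real.exp (1 / n ^ 2) := by
      have : Real.exp (1 / n ^ 2) = Real.exp (1 / n ^ 3) ^ (Fintype.card Q) := by
        rw [← Real.exp_nat_mul]; congr 1; rw [← hn']; field_simp
      rw [this]
      apply pow_le_pow_left₀ (by positivity)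
      have := Real.add_one_le_exp (1 / n ^ 3); linarith
    have h10 : Real.exp (1 / n ^ 2) ≤ 1 + 2 * (1 / n ^ 2) := by
      have hx : 1 / n ^ 2 ≤ 1 / 36 := by
        apply one_div_le_one_div_of_le (by norm_num); nlinarith
      have hx0 : 0 < 1 / n ^ 2 := by positivity
      set x := 1 / n ^ 2
      have h11 := Real.add_one_le_exp (-x)
      rw [Real.exp_neg] at h11
      have h12 : 0 < 1 - x := by linarith
      have h13 : Real.exp x ≤ 1 / (1 - x) := by
        rw [le_div_iff₀ h12]
        have h14 : (1 - x) ≤ (Real.exp x)⁻¹ := by linarith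
        calc Real.exp x * (1 - x) ≤ Real.exp x * (Real.exp x)⁻¹ := by gcongr
          _ = 1 := mul_inv_cancel₀ (Real.exp_pos x).ne'
      refine h13.trans ?_
      rw [div_le_iff₀ h12]; nlinarith
    have h11 : n * (1 + 1 / n ^ 3) ^ (Fintype.card Q) ≤ n * (1 + 2 * (1 / n ^ 2)) := by
      apply mul_le_mul_of_nonneg_left (h9.trans h10) hn0.le
    have h12 : n * (1 + 2 * (1 / n ^ 2)) = n + 2 / n := by field_simp
    have h14 : 3 / n = 2 / n + 1 / n := by ring
    linarith
  have h7 : ∀ u, ∑ S, a S u = (E0 T r ^ t) (dl v) u - 1 / N := by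
    intro u
    have h8 : (dl v : LV Q → ℝ) = ∑ S : Finset Q, DS S v := by
      ext u; rw [Finset.sum_apply, sum_DS]; rfl
    rw [h8, map_sum, Finset.sum_apply]
    rw [← Finset.add_sum_erase _ _ (Finset.mem_univ (∅ : Finset Q)),
        ← Finset.add_sum_erase _ (fun S : Finset Q => (E0 T r ^ t) (DS S v) u) (Finset.mem_univ (∅ : Finset Q))]
    have h9 : ∑ S ∈ Finset.univ.erase (∅ : Finset Q), a S u = ∑ S ∈ Finset.univ.erase (∅ : Finset Q), (E0 T r ^ t) (DS S v) u := by
      apply Finset.sum_congr rfl; intro S hS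
      rw [ha]; simp only; rw [if_neg (Finset.ne_of_mem_erase hS)]
    rw [h9]
    have h10 : a ∅ u = (E0 T r ^ t) (DS ∅ v) u - 1 / N := by
      rw [ha]; simp only [if_true]
      have h11 : F0 = DS ∅ v - fun _ => 1 / N := by ext u; rw [hF0]; rfl
      rw [h11, map_sub, E0_pow_const hg.1]; rfl
    rw [h10]; ring
  simp only [h7] at h5
  refine h5.trans ?_
  have h8 : 0 ≤ ∑ S, b S := Finset.sum_nonneg (fun S hS => (hb0 S hS).le)
  calc (∑ S, b S) ^ 2 ≤ (3 / n) ^ 2 := pow_le_pow_left₀ h8 h6 2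
    _ = 9 / n ^ 2 := by rw [div_pow]; norm_num

theorem nsq_dl (v : LV Q) : nsq (dl v) = 1 := by
  rw [nsq_eq]
  unfold dl
  simp

/-- The `L²` norm of the odd part. -/
theorem l2_E1 {T : Finset Q} (hg : Gap T) {r : Rates Q} {c : ℝ} (hr : r.OK c) (hn6 : 6 ≤ Fintype.card Q) {t : ℕ}
    (ht : 8 / c * ((Fintype.card Q : ℝ) * Real.log (Fintype.card Q)) ≤ t) (v : LV Q) :
    (Fintype.card (LV Q) : ℝ) * ∑ u, ((E1 T r ^ t) (dl v) u) ^ 2 ≤ 1 / (Fintype.card Q : ℝ) ^ 2 := by
  have hn : (6 : ℝ) ≤ Fintype.card Q := by exact_mod_cast hn6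
  obtain ⟨n, hn'⟩ : ∃ n : ℝ, n = (Fintype.card Q : ℝ) := ⟨_, rfl⟩
  have hcardLV : (Fintype.card (LV Q) : ℝ) = n ^ (Fintype.card Q) * n ^ 2 := by rw [hn']; exact card_LV
  rw [hcardLV]
  rw [← hn'] at hn ht ⊢
  have hn0 : 0 < n := by linarith
  have hc := hr.c0
  have hc1 : 2 * c ≤ 1 := by
    have := hr.ha; have := hr.tot 1; have := hr.hb 1; have := hr.hg 1; linarith
  have hlog : 0 ≤ Real.log n := Real.log_nonneg (by linarith)
  have htc : 8 * (n * Real.log n) ≤ c * t := by
    have := mul_le_mul_of_nonneg_left ht hc.le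
    have e : c * (8 / c * (n * Real.log n)) = 8 * (n * Real.log n) := by field_simp
    linarith
  have h1 := E1_pow hg hr t (dl v)
  rw [nsq_dl, mul_one, nsq_eq] at h1
  have h2 : (1 - 2 * c) ^ t ≤ Real.exp (-(16 * (n * Real.log n))) := by
    have e1 : Real.exp (-(2 * c * t)) = Real.exp (-(2 * c)) ^ t := by rw [← Real.exp_nat_mul]; congr 1; ring
    calc (1 - 2 * c) ^ t ≤ Real.exp (-(2 * c)) ^ t := by
          apply pow_le_pow_left₀ (by linarith)
          have := Real.add_one_le_exp (-(2 * c)); linarith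
      _ = Real.exp (-(2 * c * t)) := e1.symm
      _ ≤ _ := Real.exp_le_exp.mpr (by linarith)
  have h3 : Real.exp (-(16 * (n * Real.log n))) = 1 / (n ^ (Fintype.card Q)) ^ 16 := by
    rw [Real.exp_neg, one_div]
    congr 1
    have : (16 : ℝ) * (n * Real.log n) = ((16 * Fintype.card Q : ℕ) : ℝ) * Real.log n := by
      push_cast; rw [← hn']; ring
    rw [this, Real.exp_nat_mul, Real.exp_log hn0, ← pow_mul, mul_comm]
  have h4 : n ^ 2 ≤ n ^ (Fintype.card Q) := pow_le_pow_right₀ (by linarith) (by omega)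
  have h5 : 1 ≤ n ^ (Fintype.card Q) := one_le_pow₀ (by linarith)
  obtain ⟨X, hX⟩ : ∃ X, X = n ^ (Fintype.card Q) := ⟨_, rfl⟩
  rw [← hX] at h3 h4 h5 ⊢
  have hX0 : 0 < X := by linarith
  have h6 : ∑ u, ((E1 T r ^ t) (dl v) u) ^ 2 ≤ 1 / X ^ 16 := by
    refine h1.trans (h2.trans ?_)
    rw [h3]
  calc X * n ^ 2 * ∑ u, ((E1 T r ^ t) (dl v) u) ^ 2 ≤ X * X * (1 / X ^ 16) := by
        apply mul_le_mul _ h6 (Finset.sum_nonneg (fun _ _ => sq_nonneg _)) (by positivity)
        gcongr
    _ = 1 / X ^ 14 := by field_simp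
    _ ≤ 1 / n ^ 2 := by
        apply one_div_le_one_div_of_le (by positivity)
        calc n ^ 2 ≤ X := h4
          _ = X ^ 1 := (pow_one X).symm
          _ ≤ X ^ 14 := pow_le_pow_right₀ h5 (by norm_num)

end PC

end Pool.Agent.H984
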