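import Pool.Agent.H984.PcStmt
import Pool.Agent.H984.PcL2

/-!
H984: weighted walks with constant total conductance on the lamplighter graph times an edge.
-/

set_option autoImplicit false

open Classical

namespace Pool.Agent.H984

namespace PC

section general

variable {V : Type} [Fintype V]

theorem walk_mulVec (G : SimpleGraph V) (c : V → V → ℝ) (F : V → ℝ) (x : V) :
    (walk G c).mulVec F x = F x / 2 + (∑ y, if G.Adj x y then c x y * F y else 0) / (2 * wdeg G c x) := by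
  unfold Matrix.mulVec dotProduct walk
  simp only [Matrix.of_apply, add_mul, Finset.sum_add_distrib]
  congr 1
  · simp only [ite_mul, zero_mul]
    rw [Finset.sum_ite_eq, if_pos (Finset.mem_univ _)]; ring
  · rw [Finset.sum_div]
    apply Finset.sum_congr rfl; intro y _
    split_ifs <;> ring

/-- Powers of the transition matrix. -/
noncomputable def pw (G : SimpleGraph V) (c : V → V → ℝ) (t : ℕ) : Matrix V V ℝ := walk G c ^ t

theorem pw_zero (G : SimpleGraph V) (c : V → V → ℝ) (F : V → ℝ) : (pw G c 0).mulVec F = F := by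
  unfold pw; rw [pow_zero, Matrix.one_mulVec]

theorem pw_succ (G : SimpleGraph V) (c : V → V → ℝ) (t : ℕ) (F : V → ℝ) :
    (pw G c (t + 1)).mulVec F = (pw G c t).mulVec ((walk G c).mulVec F) := by
  unfold pw; rw [pow_succ, ← Matrix.mulVec_mulVec]

theorem pw_succ' (G : SimpleGraph V) (c : V → V → ℝ) (t : ℕ) (F : V → ℝ) :
    (pw G c (t + 1)).mulVec F = (walk G c).mulVec ((pw G c t).mulVec F) := by
  unfold pw; rw [pow_succ', ← Matrix.mulVec_mulVec]

theorem pw_add (G : SimpleGraph V) (c : V → V → ℝ) (s t : ℕ) (F : V → ℝ) :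
    (pw G c (s + t)).mulVec F = (pw G c s).mulVec ((pw G c t).mulVec F) := by
  unfold pw; rw [pow_add, ← Matrix.mulVec_mulVec]

theorem pw_ker (G : SimpleGraph V) (c : V → V → ℝ) (t : ℕ) (x v : V) :
    pw G c t x v = (pw G c t).mulVec (fun p => if p = v then (1 : ℝ) else 0) x := by
  unfold Matrix.mulVec dotProduct; simp

/-- Constant total conductance. -/
structure CC (G : SimpleGraph V) (c : V → V → ℝ) (C : ℝ) : Prop where
  C0 : 0 < C
  pos : ∀ x y, G.Adj x y → 0 ≤ c x y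
  symm : ∀ x y, c x y = c y x
  deg : ∀ x, wdeg G c x = C

variable {G : SimpleGraph V} {c : V → V → ℝ} {C : ℝ}

theorem CC.walk_nonneg (h : CC G c C) (x y : V) : 0 ≤ walk G c x y := by
  unfold walk
  rw [Matrix.of_apply, h.deg]
  have hC := h.C0
  apply add_nonneg
  · split_ifs <;> norm_num
  · split_ifs with ha
    · have := h.pos x y ha
      positivity
    · exact le_rfl

theorem CC.transpose (h : CC G c C) : (walk G c).transpose = walk G c := by
  ext a b
  rw [Matrix.transpose_apply]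
  unfold walk
  rw [Matrix.of_apply, Matrix.of_apply, h.deg, h.deg, h.symm b a]
  congr 1
  · by_cases hab : a = b
    · rw [if_pos hab, if_pos hab.symm]
    · rw [if_neg hab, if_neg (fun h' => hab h'.symm)]
  · by_cases hab : G.Adj a b
    · rw [if_pos hab, if_pos hab.symm]
    · rw [if_neg hab, if_neg (fun h' => hab h'.symm)]

theorem CC.pow_symm (h : CC G c C) (t : ℕ) (a b : V) : (walk G c ^ t) a b = (walk G c ^ t) b a := by
  have h2 : (walk G c ^ t).transpose = walk G c ^ t := by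
    rw [Matrix.transpose_pow, h.transpose]
  calc (walk G c ^ t) a b = (walk G c ^ t).transpose b a := rfl
    _ = _ := by rw [h2]

theorem CC.one (h : CC G c C) (x : V) : (walk G c).mulVec (fun _ => 1) x = 1 := by
  rw [walk_mulVec]
  have : (∑ y, if G.Adj x y then c x y * 1 else 0) = wdeg G c x := by
    unfold wdeg; apply Finset.sum_congr rfl; intro y _; rw [mul_one]
  rw [this, h.deg]
  have := h.C0
  field_simp; norm_num

theorem CC.pow_nonneg (h : CC G c C) (t : ℕ) (x y : V) : 0 ≤ (walk G c ^ t) x y := by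
  induction t generalizing x y with
  | zero => rw [pow_zero, Matrix.one_apply]; split_ifs <;> norm_num
  | succ t ih =>
    rw [pow_succ, Matrix.mul_apply]
    exact Finset.sum_nonneg (fun z _ => mul_nonneg (ih x z) (h.walk_nonneg z y))

theorem CC.row (h : CC G c C) (t : ℕ) (x : V) : ∑ y, (walk G c ^ t) x y = 1 := by
  induction t generalizing x with
  | zero => simp [Matrix.one_apply]
  | succ t ih =>
    have h2 : ∀ y, (walk G c ^ (t + 1)) x y = ∑ z, (walk G c ^ t) x z * walk G c z y := by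
      intro y; rw [pow_succ, Matrix.mul_apply]
    simp only [h2]
    rw [Finset.sum_comm]
    have h3 : ∀ z, ∑ y, (walk G c ^ t) x z * walk G c z y = (walk G c ^ t) x z := by
      intro z
      rw [← Finset.mul_sum]
      have := h.one z
      unfold Matrix.mulVec dotProduct at this
      simp only [mul_one] at this
      rw [this, mul_one]
    simp only [h3]
    exact ih x

theorem CC.stat_eq (h : CC G c C) (x : V) : stat G c x = 1 / (Fintype.card V : ℝ) := by
  unfold stat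
  simp only [h.deg, Finset.sum_const, Finset.card_univ, nsmul_eq_mul]
  have := h.C0
  have : Nonempty V := ⟨x⟩
  have h2 : (Fintype.card V : ℝ) ≠ 0 := by exact_mod_cast Fintype.card_ne_zero
  field_simp

/-- From `L²` to uniform mixing. -/
theorem CC.unif (h : CC G c C) {t : ℕ} {eta : ℝ}
    (hl : ∀ v, (Fintype.card V : ℝ) * ∑ u, (pw G c t u v - 1 / (Fintype.card V : ℝ)) ^ 2 ≤ eta) (x y : V) :
    |(Fintype.card V : ℝ) * pw G c (2 * t) x y - 1| ≤ eta := by
  unfold pw at hl ⊢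
  obtain ⟨N, hN'⟩ : ∃ N : ℝ, N = (Fintype.card V : ℝ) := ⟨_, rfl⟩
  have : Nonempty V := ⟨x⟩
  have hN0 : 0 < N := by rw [hN']; exact_mod_cast Fintype.card_pos
  rw [← hN']
  obtain ⟨p, hp⟩ : ∃ p : V → V → ℝ, p = fun v u => (walk G c ^ t) u v - 1 / N := ⟨_, rfl⟩
  have hl2 : ∀ v, N * ∑ u, (p v u) ^ 2 ≤ eta := by
    intro v
    have h2 := hl v
    rw [← hN'] at h2
    rw [hp]; exact h2
  have hprod : (walk G c ^ (2 * t)) x y - 1 / N = ∑ z, p x z * p y z := by
    rw [two_mul, pow_add, Matrix.mul_apply, hp]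
    simp only
    have h2 : ∀ z, ((walk G c ^ t) z x - 1 / N) * ((walk G c ^ t) z y - 1 / N)
        = (walk G c ^ t) x z * (walk G c ^ t) z y
          - 1 / N * (walk G c ^ t) x z - 1 / N * (walk G c ^ t) y z + 1 / N ^ 2 := by
      intro z
      rw [h.pow_symm t z x, h.pow_symm t y z]; ring
    rw [Finset.sum_congr rfl (fun z _ => h2 z), Finset.sum_add_distrib, Finset.sum_sub_distrib, Finset.sum_sub_distrib,
      ← Finset.mul_sum, ← Finset.mul_sum, h.row, h.row, Finset.sum_const, Finset.card_univ, nsmul_eq_mul, ← hN']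
    field_simp; ring
  have h3 : N * (walk G c ^ (2 * t)) x y - 1 = N * ∑ z, p x z * p y z := by
    rw [← hprod]; field_simp
  rw [h3, abs_mul, abs_of_pos hN0]
  have h4 : |∑ z, p x z * p y z| ≤ (∑ z, (p x z) ^ 2 + ∑ z, (p y z) ^ 2) / 2 := by
    rw [← Finset.sum_add_distrib, Finset.sum_div]
    refine (Finset.abs_sum_le_sum_abs _ _).trans (Finset.sum_le_sum (fun z _ => ?_))
    rw [abs_le]
    constructor <;> nlinarith [sq_nonneg (p x z - p y z), sq_nonneg (p x z + p y z)]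
  calc N * |∑ z, p x z * p y z| ≤ N * ((∑ z, (p x z) ^ 2 + ∑ z, (p y z) ^ 2) / 2) := mul_le_mul_of_nonneg_left h4 hN0.le
    _ = (N * ∑ z, (p x z) ^ 2 + N * ∑ z, (p y z) ^ 2) / 2 := by ring
    _ ≤ eta := by linarith [hl2 x, hl2 y]

end general

variable {Q : Type} [Group Q] [Fintype Q]
variable {T : Finset Q} {h1 : (1 : Q) ∉ T} {hinv : ∀ t ∈ T, t⁻¹ ∈ T}

/-- The lamplighter graph times an edge. -/
def lampB (T : Finset Q) (h1 : (1 : Q) ∉ T) (hinv : ∀ t ∈ T, t⁻¹ ∈ T) : SimpleGraph (LV Q × Bool) where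
  Adj p q := ((lampG T h1 hinv).Adj p.1 q.1 ∧ p.2 = q.2) ∨ (p.1 = q.1 ∧ p.2 ≠ q.2)
  symm := ⟨by
    rintro p q (⟨h1, h2⟩ | ⟨h1, h2⟩)
    · exact Or.inl ⟨h1.symm, h2.symm⟩
    · exact Or.inr ⟨h1.symm, h2.symm⟩⟩
  loopless := ⟨by
    rintro p (⟨h1, _⟩ | ⟨_, h2⟩)
    · exact (lampG T _ hinv).loopless.irrefl p.1 h1
    · exact h2 rfl⟩

theorem lampB_sum (F : LV Q × Bool → ℝ) (u : LV Q) (b : Bool) :
    (∑ q, if (lampB T h1 hinv).Adj (u, b) q then F q else 0)
      = (∑ v, if (lampG T h1 hinv).Adj u v then F (v, b) else 0) + F (u, !b) := by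
  rw [Fintype.sum_prod_type]
  have h2 : ∀ v : LV Q, (∑ b' : Bool, if (lampB T h1 hinv).Adj (u, b) (v, b') then F (v, b') else 0)
      = (if (lampG T h1 hinv).Adj u v then F (v, b) else 0) + (if v = u then F (u, !b) else 0) := by
    intro v
    have e1 : (lampB T h1 hinv).Adj (u, b) (v, b) ↔ (lampG T h1 hinv).Adj u v := by
      constructor
      · rintro (⟨h, _⟩ | ⟨_, h⟩)
        · exact h
        · exact absurd rfl h
      · intro h; exact Or.inl ⟨h, rfl⟩
    have e2 : (lampB T h1 hinv).Adj (u, b) (v, !b) ↔ v = u := by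
      constructor
      · rintro (⟨_, h⟩ | ⟨h, _⟩)
        · exact absurd h (by cases b <;> simp)
        · exact h.symm
      · intro h; exact Or.inr ⟨h.symm, by cases b <;> simp⟩
    have e3 : (∑ b' : Bool, if (lampB T h1 hinv).Adj (u, b) (v, b') then F (v, b') else 0)
        = (if (lampB T h1 hinv).Adj (u, b) (v, b) then F (v, b) else 0) + (if (lampB T h1 hinv).Adj (u, b) (v, !b) then F (v, !b) else 0) := by
      cases b <;> simp [Fintype.sum_bool, add_comm]
    rw [e3]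
    simp only [e1, e2]
    by_cases hv : v = u
    · subst hv; simp
    · simp [hv]
  rw [Finset.sum_congr rfl (fun v _ => h2 v), Finset.sum_add_distrib, Finset.sum_ite_eq' , if_pos (Finset.mem_univ _)]

/-- The total conductance without the extra edge. -/
noncomputable def wsumG (T : Finset Q) (h1 : (1 : Q) ∉ T) (hinv : ∀ t ∈ T, t⁻¹ ∈ T) (cw : LV Q → LV Q → ℝ) (u : LV Q) : ℝ :=
  ∑ v, if (lampG T h1 hinv).Adj u v then cw u v else 0

/-- Weights completed by the extra edge to total conductance `C`. -/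
noncomputable def cB (T : Finset Q) (h1 : (1 : Q) ∉ T) (hinv : ∀ t ∈ T, t⁻¹ ∈ T) (cw : LV Q → LV Q → ℝ) (C : ℝ)
    (p q : LV Q × Bool) : ℝ :=
  if p.2 = q.2 then cw p.1 q.1 else if p.1 = q.1 then C - wsumG T h1 hinv cw p.1 else 1

/-- Compatibility of weights with a lamp weight function. -/
structure CW (T : Finset Q) (cw : LV Q → LV Q → ℝ) (W0 C : ℝ) (w : LV Q → Q → ℝ) : Prop where
  C0 : 0 < C
  symm : ∀ u v, cw u v = cw v u
  pos : ∀ f y e, ∀ t ∈ T, cw (f, y, e) (f, y * t, e) = W0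
  dit : ∀ f y e, ∀ t ∈ T, cw (f, y, e) (f, y, e * t) = W0
  lam : ∀ f y e, ∀ t ∈ T, cw (f, y, e) (mv f y t, y, e) = w (f, y, e) t
  W00 : 0 ≤ W0
  w0 : ∀ u, ∀ t ∈ T, 0 ≤ w u t
  tot : ∀ u, 2 * T.card * W0 + ∑ t ∈ T, w u t ≤ C

/-- The operator on functions which do not depend on the bit. -/
noncomputable def Op (T : Finset Q) (W0 C : ℝ) (w : LV Q → Q → ℝ) (F : LV Q → ℝ) (u : LV Q) : ℝ :=
  F u + (W0 * (2 * T.card) * (Pb T (fun y e => F (u.1, y, e)) u.2.1 u.2.2 - F u)
    + ∑ t ∈ T, w u t * (F (mv u.1 u.2.1 t, u.2.1, u.2.2) - F u)) / (2 * C)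

section cw

variable {cw : LV Q → LV Q → ℝ} {W0 C : ℝ} {w : LV Q → Q → ℝ}

theorem CW.wsum (h : CW T cw W0 C w) (F : LV Q → ℝ) (u : LV Q) :
    (∑ v, if (lampG T h1 hinv).Adj u v then cw u v * F v else 0)
      = W0 * (∑ t ∈ T, F (u.1, u.2.1 * t, u.2.2) + ∑ t ∈ T, F (u.1, u.2.1, u.2.2 * t))
        + ∑ t ∈ T, w u t * F (mv u.1 u.2.1 t, u.2.1, u.2.2) := by
  obtain ⟨f, y, e⟩ := u
  rw [lamp_sum (fun v => cw (f, y, e) v * F v)]
  simp only
  have a1 : ∑ t ∈ T, cw (f, y, e) (f, y * t, e) * F (f, y * t, e) = W0 * ∑ t ∈ T, F (f, y * t, e) := by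
    rw [Finset.mul_sum]; apply Finset.sum_congr rfl; intro t ht; rw [h.pos f y e t ht]
  have a2 : ∑ t ∈ T, cw (f, y, e) (f, y, e * t) * F (f, y, e * t) = W0 * ∑ t ∈ T, F (f, y, e * t) := by
    rw [Finset.mul_sum]; apply Finset.sum_congr rfl; intro t ht; rw [h.dit f y e t ht]
  have a3 : ∑ t ∈ T, cw (f, y, e) (mv f y t, y, e) * F (mv f y t, y, e) = ∑ t ∈ T, w (f, y, e) t * F (mv f y t, y, e) := by
    apply Finset.sum_congr rfl; intro t ht; rw [h.lam f y e t ht]
  rw [a1, a2, a3]; ring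

theorem CW.wsumG_eq (h : CW T cw W0 C w) (u : LV Q) :
    wsumG T h1 hinv cw u = 2 * T.card * W0 + ∑ t ∈ T, w u t := by
  have := h.wsum (h1 := h1) (hinv := hinv) (fun _ => 1) u
  simp only [mul_one, Finset.sum_const, nsmul_eq_mul] at this
  unfold wsumG
  rw [this]; ring

theorem CW.CC (h : CW T cw W0 C w) (hT : 0 < T.card) : CC (lampB T h1 hinv) (cB T h1 hinv cw C) C where
  C0 := h.C0
  pos := by
    rintro ⟨u, b⟩ ⟨v, b'⟩ (⟨ha, hb⟩ | ⟨ha, hb⟩)
    · unfold cB
      simp only at ha hb ⊢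
      rw [if_pos hb]
      obtain ⟨f, y, e⟩ := u
      rcases ha with ⟨t, ht, rfl⟩ | ⟨t, ht, rfl⟩ | ⟨t, ht, rfl⟩
      · rw [h.pos f y e t ht]; exact h.W00
      · rw [h.dit f y e t ht]; exact h.W00
      · rw [h.lam f y e t ht]; exact h.w0 _ t ht
    · unfold cB
      simp only at ha hb ⊢
      rw [if_neg hb, if_pos ha, h.wsumG_eq]
      have := h.tot u; linarith
  symm := by
    rintro ⟨u, b⟩ ⟨v, b'⟩
    unfold cB
    simp only
    by_cases hb : b = b'
    · rw [if_pos hb, if_pos hb.symm, h.symm]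
    · rw [if_neg hb, if_neg (fun h' : b' = b => hb h'.symm)]
      by_cases hu : u = v
      · subst hu; rfl
      · rw [if_neg hu, if_neg (fun h' : v = u => hu h'.symm)]
  deg := by
    rintro ⟨u, b⟩
    unfold wdeg
    rw [lampB_sum (fun q => cB T h1 hinv cw C (u, b) q)]
    have e1 : ∀ v, cB T h1 hinv cw C (u, b) (v, b) = cw u v := by intro v; unfold cB; simp
    have e2 : cB T h1 hinv cw C (u, b) (u, !b) = C - wsumG T h1 hinv cw u := by
      unfold cB; simp
    simp only [e1, e2]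
    unfold wsumG; ring

theorem CW.mulVec (h : CW T cw W0 C w) (hT : 0 < T.card) (F : LV Q × Bool → ℝ) (u : LV Q) (b : Bool) :
    (walk (lampB T h1 hinv) (cB T h1 hinv cw C)).mulVec F (u, b)
      = Op T W0 C w (fun v => F (v, b)) u + (C - 2 * T.card * W0 - ∑ t ∈ T, w u t) / (2 * C) * (F (u, !b) - F (u, b)) := by
  rw [walk_mulVec, (h.CC (h1 := h1) (hinv := hinv) hT).deg, lampB_sum (fun q => cB T h1 hinv cw C (u, b) q * F q)]
  have e1 : ∀ v, cB T h1 hinv cw C (u, b) (v, b) = cw u v := by intro v; unfold cB; simp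
  have e2 : cB T h1 hinv cw C (u, b) (u, !b) = C - wsumG T h1 hinv cw u := by
    unfold cB; simp
  simp only [e1, e2]
  rw [h.wsum (fun v => F (v, b)), h.wsumG_eq]
  unfold Op
  rw [Pb_apply]
  unfold Av
  have hC := h.C0
  have hT0 : (T.card : ℝ) ≠ 0 := by exact_mod_cast hT.ne'
  simp only [mul_sub, Finset.sum_sub_distrib, ← Finset.sum_mul]
  field_simp
  ring

theorem Op_one (W0 C : ℝ) (w : LV Q → Q → ℝ) (hT : 0 < T.card) (k : ℝ) (u : LV Q) : Op T W0 C w (fun _ => k) u = k := by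
  unfold Op
  have h1 : Pb T (fun _ _ => k) u.2.1 u.2.2 = k := by
    have h := Pb_const hT k 1
    rw [pow_one] at h
    exact congrFun (congrFun h u.2.1) u.2.2
  rw [h1]; simp

/-- Positivity of the operator. -/
theorem Op_mono {W0 C : ℝ} {w : LV Q → Q → ℝ} (hC : 0 < C) (hW : 0 ≤ W0) (hw : ∀ u, ∀ t ∈ T, 0 ≤ w u t)
    (htot : ∀ u, 2 * T.card * W0 + ∑ t ∈ T, w u t ≤ C) {F G : LV Q → ℝ} (h : ∀ u, F u ≤ G u) (u : LV Q) :
    Op T W0 C w F u ≤ Op T W0 C w G u := by
  have key : ∀ F : LV Q → ℝ, Op T W0 C w F u = (1 - (2 * T.card * W0 + ∑ t ∈ T, w u t) / (2 * C)) * F u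
      + (W0 * (2 * T.card) * Pb T (fun y e => F (u.1, y, e)) u.2.1 u.2.2 + ∑ t ∈ T, w u t * F (mv u.1 u.2.1 t, u.2.1, u.2.2)) / (2 * C) := by
    intro F
    unfold Op
    simp only [mul_sub, Finset.sum_sub_distrib, ← Finset.sum_mul]
    field_simp
    ring
  rw [key F, key G]
  have a1 : (2 * T.card * W0 + ∑ t ∈ T, w u t) / (2 * C) ≤ 1 := by
    rw [div_le_one (by positivity)]; have := htot u; linarith
  apply add_le_add
  · exact mul_le_mul_of_nonneg_left (h u) (by linarith)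
  · apply div_le_div_of_nonneg_right _ (by positivity)
    apply add_le_add
    · apply mul_le_mul_of_nonneg_left _ (by positivity)
      exact (Pb_mono T).le (fun y e => h (u.1, y, e)) _ _
    · apply Finset.sum_le_sum; intro t ht
      exact mul_le_mul_of_nonneg_left (h _) (hw u t ht)

theorem Op_add (W0 C : ℝ) (w : LV Q → Q → ℝ) (F G : LV Q → ℝ) (u : LV Q) :
    Op T W0 C w (fun v => F v + G v) u = Op T W0 C w F u + Op T W0 C w G u := by
  unfold Op
  have e1 : Pb T (fun y e => F (u.1, y, e) + G (u.1, y, e)) u.2.1 u.2.2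
      = Pb T (fun y e => F (u.1, y, e)) u.2.1 u.2.2 + Pb T (fun y e => G (u.1, y, e)) u.2.1 u.2.2 := by
    have := map_add (Pb T) (fun y e => F (u.1, y, e)) (fun y e => G (u.1, y, e))
    exact congrFun (congrFun this u.2.1) u.2.2
  rw [e1]
  have e2 : ∑ t ∈ T, w u t * (F (mv u.1 u.2.1 t, u.2.1, u.2.2) + G (mv u.1 u.2.1 t, u.2.1, u.2.2) - (F u + G u))
      = ∑ t ∈ T, w u t * (F (mv u.1 u.2.1 t, u.2.1, u.2.2) - F u) + ∑ t ∈ T, w u t * (G (mv u.1 u.2.1 t, u.2.1, u.2.2) - G u) := by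
    rw [← Finset.sum_add_distrib]; apply Finset.sum_congr rfl; intro t _; ring
  rw [e2]; ring

theorem Op_smul (W0 C : ℝ) (w : LV Q → Q → ℝ) (k : ℝ) (F : LV Q → ℝ) (u : LV Q) :
    Op T W0 C w (fun v => k * F v) u = k * Op T W0 C w F u := by
  unfold Op
  have e1 : Pb T (fun y e => k * F (u.1, y, e)) u.2.1 u.2.2 = k * Pb T (fun y e => F (u.1, y, e)) u.2.1 u.2.2 := by
    have := map_smul (Pb T) k (fun y e => F (u.1, y, e))
    exact congrFun (congrFun this u.2.1) u.2.2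
  rw [e1]
  have e2 : ∑ t ∈ T, w u t * (k * F (mv u.1 u.2.1 t, u.2.1, u.2.2) - k * F u)
      = k * ∑ t ∈ T, w u t * (F (mv u.1 u.2.1 t, u.2.1, u.2.2) - F u) := by
    rw [Finset.mul_sum]; apply Finset.sum_congr rfl; intro t _; ring
  rw [e2]; ring

end cw

/-! ### Rates -/

/-- The rates of a walk whose lamp weights depend on the position only. -/
noncomputable def mkR (T : Finset Q) (W0 C : ℝ) (wy : Q → ℝ) : Rates Q where
  a := W0 * T.card / C
  b y := T.card * wy y / (2 * C)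
  g y := (C - 2 * T.card * W0 - T.card * wy y) / (2 * C)

theorem Op_E0 {W0 C : ℝ} {wy : Q → ℝ} (hC : 0 < C) (hT : 0 < T.card) (F : LV Q → ℝ) (u : LV Q) :
    Op T W0 C (fun u _ => wy u.2.1) F u = E0 T (mkR T W0 C wy) F u := by
  obtain ⟨f, y, e⟩ := u
  rw [E0_apply]
  unfold Op mkR Al
  simp only
  rw [← Finset.mul_sum, Finset.sum_sub_distrib, Finset.sum_const, nsmul_eq_mul]
  have : (T.card : ℝ) ≠ 0 := by exact_mod_cast hT.ne'
  field_simp
  ring

/-- The sign of a bit. -/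
def sg (b : Bool) : ℝ := if b then 1 else -1

/-- Powers of the walk in terms of the even and odd parts. -/
theorem pow_parts {cw : LV Q → LV Q → ℝ} {W0 C : ℝ} {wy : Q → ℝ} (h : CW T cw W0 C (fun u _ => wy u.2.1)) (hT : 0 < T.card)
    (t : ℕ) (Fe Fo : LV Q → ℝ) (u : LV Q) (b : Bool) :
    (pw (lampB T h1 hinv) (cB T h1 hinv cw C) t).mulVec (fun p => Fe p.1 + sg p.2 * Fo p.1) (u, b)
      = (E0 T (mkR T W0 C wy) ^ t) Fe u + sg b * (E1 T (mkR T W0 C wy) ^ t) Fo u := by
  induction t generalizing Fe Fo u b with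
  | zero => rw [pw_zero]; simp
  | succ t ih =>
    have hC := h.C0
    have e1 : (walk (lampB T h1 hinv) (cB T h1 hinv cw C)).mulVec (fun p => Fe p.1 + sg p.2 * Fo p.1)
        = fun p => E0 T (mkR T W0 C wy) Fe p.1 + sg p.2 * E1 T (mkR T W0 C wy) Fo p.1 := by
      ext ⟨v, b'⟩
      rw [h.mulVec hT]
      simp only
      have e2 : Op T W0 C (fun u _ => wy u.2.1) (fun v => Fe v + sg b' * Fo v) v
          = Op T W0 C (fun u _ => wy u.2.1) Fe v + sg b' * Op T W0 C (fun u _ => wy u.2.1) Fo v := by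
        rw [Op_add W0 C _ Fe (fun v => sg b' * Fo v), Op_smul]
      rw [e2, Op_E0 hC hT, Op_E0 hC hT, E1_apply]
      have e3 : sg (!b') = - sg b' := by cases b' <;> simp [sg]
      rw [e3]
      unfold mkR
      simp only [Finset.sum_const, nsmul_eq_mul]
      ring
    rw [pw_succ, e1, ih]
    rw [pow_succ, Module.End.mul_apply, pow_succ, Module.End.mul_apply]

/-- Uniform mixing with general rates. -/
theorem unif_rates {cw : LV Q → LV Q → ℝ} {W0 C : ℝ} {wy : Q → ℝ} (h : CW T cw W0 C (fun u _ => wy u.2.1)) (hg : Gap T)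
    {c : ℝ} (hr : (mkR T W0 C wy).OK c) (hn6 : 6 ≤ Fintype.card Q) {t : ℕ}
    (ht : 8 / c * ((Fintype.card Q : ℝ) * Real.log (Fintype.card Q)) ≤ t) (x y : LV Q × Bool) :
    |(Fintype.card (LV Q × Bool) : ℝ) * pw (lampB T h1 hinv) (cB T h1 hinv cw C) (2 * t) x y - 1|
      ≤ 10 / (Fintype.card Q : ℝ) ^ 2 := by
  have hT := hg.1
  refine (h.CC hT).unif (fun v => ?_) x y
  obtain ⟨v, b0⟩ := v
  obtain ⟨N, hN⟩ : ∃ N : ℝ, N = (Fintype.card (LV Q) : ℝ) := ⟨_, rfl⟩
  have : Nonempty (LV Q) := ⟨v⟩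
  have hN0 : 0 < N := by rw [hN]; exact_mod_cast Fintype.card_pos
  have hW : (Fintype.card (LV Q × Bool) : ℝ) = 2 * N := by
    rw [Fintype.card_prod, Fintype.card_bool, hN]; push_cast; ring
  have hker : ∀ u b, pw (lampB T h1 hinv) (cB T h1 hinv cw C) t (u, b) (v, b0)
      = ((E0 T (mkR T W0 C wy) ^ t) (dl v) u + sg b * sg b0 * (E1 T (mkR T W0 C wy) ^ t) (dl v) u) / 2 := by
    intro u b
    have e1 : (fun p : LV Q × Bool => if p = (v, b0) then (1 : ℝ) else 0)
        = fun p => ((1 / 2 : ℝ) • dl v) p.1 + sg p.2 * ((sg b0 / 2) • dl v) p.1 := by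
      ext ⟨u', b'⟩
      unfold dl
      simp only [Pi.smul_apply, smul_eq_mul, Prod.mk.injEq]
      by_cases hu : u' = v
      · simp only [hu, if_true, true_and, mul_one]
        cases b' <;> cases b0 <;> simp [sg] <;> norm_num
      · simp [hu]
    rw [pw_ker]
    have e2 : (fun p : LV Q × Bool => @ite ℝ (p = (v, b0)) (propDecidable _) (1 : ℝ) 0) = fun p => if p = (v, b0) then (1 : ℝ) else 0 := by
      ext p; congr
    rw [e2, e1, pow_parts h hT, map_smul, map_smul]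
    simp only [Pi.smul_apply, smul_eq_mul]; ring
  have e3 : ∑ p : LV Q × Bool, (pw (lampB T h1 hinv) (cB T h1 hinv cw C) t p (v, b0) - 1 / (2 * N)) ^ 2
      = (∑ u, ((E0 T (mkR T W0 C wy) ^ t) (dl v) u - 1 / N) ^ 2 + ∑ u, ((E1 T (mkR T W0 C wy) ^ t) (dl v) u) ^ 2) / 2 := by
    rw [Fintype.sum_prod_type, ← Finset.sum_add_distrib, Finset.sum_div]
    apply Finset.sum_congr rfl; intro u _
    rw [Fintype.sum_bool, hker, hker]
    have s1 : sg true = 1 := by simp [sg]
    have s2 : sg false = -1 := by simp [sg]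
    have s3 : sg b0 ^ 2 = 1 := by cases b0 <;> simp [sg]
    rw [s1, s2]
    obtain ⟨p, hp⟩ : ∃ p, p = (E0 T (mkR T W0 C wy) ^ t) (dl v) u := ⟨_, rfl⟩
    obtain ⟨q, hq⟩ : ∃ q, q = (E1 T (mkR T W0 C wy) ^ t) (dl v) u := ⟨_, rfl⟩
    rw [← hp, ← hq]
    have e4 : 1 / (2 * N) = (1 / N) / 2 := by field_simp
    rw [e4]
    linear_combination (q ^ 2 / 2) * s3
  rw [hW, e3]
  have h2 := l2_E0 hg hr hn6 ht v
  have h3 := l2_E1 hg hr hn6 ht v
  rw [← hN] at h2 h3
  have e5 : (10 : ℝ) / (Fintype.card Q : ℝ) ^ 2 = 9 / (Fintype.card Q : ℝ) ^ 2 + 1 / (Fintype.card Q : ℝ) ^ 2 := by ring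
  rw [e5]
  linarith

end PC

end Pool.Agent.H984
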