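import Mathlib

/-!
H984: hitting probabilities of a Markov operator on a finite set.
-/

set_option autoImplicit false

open Classical

namespace Pool.Agent.H984

namespace PC

variable {V : Type}

/-- A Markov operator. -/
structure MK (K : Module.End ℝ (V → ℝ)) : Prop where
  mono : ∀ F G : V → ℝ, (∀ x, F x ≤ G x) → ∀ x, K F x ≤ K G x
  one : ∀ k : ℝ, K (fun _ => k) = fun _ => k

/-- The probability to hit `S` up to time `t`. -/
noncomputable def hit (K : Module.End ℝ (V → ℝ)) (S : V → Prop) : ℕ → V → ℝ
  | 0 => fun x => if S x then 1 else 0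
  | t + 1 => fun x => if S x then 1 else K (hit K S t) x

section

variable {K : Module.End ℝ (V → ℝ)} {S S' : V → Prop}

theorem MK.nonneg (h : MK K) {F : V → ℝ} (hF : ∀ x, 0 ≤ F x) (x : V) : 0 ≤ K F x := by
  have h2 := h.mono (fun _ => 0) F hF x
  rwa [h.one 0] at h2

theorem MK.le_one (h : MK K) {F : V → ℝ} (hF : ∀ x, F x ≤ 1) (x : V) : K F x ≤ 1 := by
  have h2 := h.mono F (fun _ => 1) hF x
  rwa [h.one 1] at h2

theorem MK.pow (h : MK K) (t : ℕ) : MK (K ^ t) := by
  induction t with
  | zero => exact ⟨fun F G hFG x => by simpa using hFG x, fun k => by simp⟩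
  | succ t ih =>
    refine ⟨fun F G hFG x => ?_, fun k => ?_⟩
    · rw [pow_succ, Module.End.mul_apply, Module.End.mul_apply]
      exact ih.mono _ _ (h.mono F G hFG) x
    · rw [pow_succ, Module.End.mul_apply, h.one, ih.one]

theorem hit_zero (x : V) : hit K S 0 x = if S x then 1 else 0 := rfl

theorem hit_succ (t : ℕ) (x : V) : hit K S (t + 1) x = if S x then 1 else K (hit K S t) x := rfl

theorem hit_on (t : ℕ) {x : V} (hx : S x) : hit K S t x = 1 := by
  cases t with
  | zero => rw [hit_zero, if_pos hx]
  | succ t => rw [hit_succ, if_pos hx]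

theorem hit_nonneg (h : MK K) (t : ℕ) (x : V) : 0 ≤ hit K S t x := by
  induction t generalizing x with
  | zero => rw [hit_zero]; split_ifs <;> norm_num
  | succ t ih => rw [hit_succ]; split_ifs
                 · norm_num
                 · exact h.nonneg ih x

theorem hit_le_one (h : MK K) (t : ℕ) (x : V) : hit K S t x ≤ 1 := by
  induction t generalizing x with
  | zero => rw [hit_zero]; split_ifs <;> norm_num
  | succ t ih => rw [hit_succ]; split_ifs
                 · exact le_rfl
                 · exact h.le_one ih x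

/-- One more step at the start. -/
theorem hit_step (h : MK K) (t : ℕ) (x : V) : K (hit K S t) x ≤ hit K S (t + 1) x := by
  rw [hit_succ]; split_ifs
  · exact h.le_one (hit_le_one h t) x
  · exact le_rfl

theorem hit_steps (h : MK K) (s t : ℕ) (x : V) : (K ^ s) (hit K S t) x ≤ hit K S (s + t) x := by
  induction s generalizing x with
  | zero => simp
  | succ s ih =>
    rw [pow_succ', Module.End.mul_apply]
    have e1 : s + 1 + t = (s + t) + 1 := by ring
    rw [e1]
    exact (h.mono _ _ ih x).trans (hit_step h _ x)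

theorem hit_mono_succ (h : MK K) (t : ℕ) (x : V) : hit K S t x ≤ hit K S (t + 1) x := by
  induction t generalizing x with
  | zero =>
    rw [hit_zero, hit_succ]
    split_ifs
    · exact le_rfl
    · exact h.nonneg (hit_nonneg h 0) x
  | succ t ih =>
    rw [hit_succ, hit_succ (t + 1)]
    split_ifs
    · exact le_rfl
    · exact h.mono _ _ ih x

theorem hit_mono (h : MK K) {s t : ℕ} (hst : s ≤ t) (x : V) : hit K S s x ≤ hit K S t x := by
  induction t, hst using Nat.le_induction with
  | base => exact le_rfl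
  | succ t _ ih => exact ih.trans (hit_mono_succ h t x)

/-- Composition of hitting bounds. -/
theorem hit_comp (h : MK K) {β : ℝ} (b : ℕ) (hb : ∀ x, S x → β ≤ hit K S' b x) (hβ0 : 0 ≤ β) (a : ℕ) (x : V) :
    β * hit K S a x ≤ hit K S' (a + b) x := by
  induction a generalizing x with
  | zero =>
    rw [hit_zero, zero_add]
    split_ifs with hx
    · rw [mul_one]; exact hb x hx
    · rw [mul_zero]; exact hit_nonneg h b x
  | succ a ih =>
    rw [hit_succ]
    split_ifs with hx
    · rw [mul_one]
      exact (hb x hx).trans (hit_mono h (by omega) x)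
    · have e1 : a + 1 + b = (a + b) + 1 := by ring
      rw [e1]
      refine le_trans ?_ (hit_step h _ x)
      have e2 : β * K (hit K S a) x = K (β • hit K S a) x := by rw [map_smul]; rfl
      rw [e2]
      exact h.mono _ _ ih x

/-- Expected number of visits at times `0, s, ..., J s`. -/
noncomputable def VJ (B : Module.End ℝ (V → ℝ)) (S : V → Prop) : ℕ → V → ℝ
  | 0 => fun x => if S x then 1 else 0
  | J + 1 => fun x => (if S x then 1 else 0) + B (VJ B S J) x

/-- Expected number of pairs of visits. -/
noncomputable def WJ (B : Module.End ℝ (V → ℝ)) (S : V → Prop) : ℕ → V → ℝ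
  | 0 => fun _ => 0
  | J + 1 => fun x => (if S x then B (VJ B S J) x else 0) + B (WJ B S J) x

theorem VJ_nonneg {B : Module.End ℝ (V → ℝ)} (h : MK B) (J : ℕ) (x : V) : 0 ≤ VJ B S J x := by
  induction J generalizing x with
  | zero => unfold VJ; split_ifs <;> norm_num
  | succ J ih =>
    unfold VJ
    have := h.nonneg ih x
    split_ifs <;> linarith

theorem WJ_nonneg {B : Module.End ℝ (V → ℝ)} (h : MK B) (J : ℕ) (x : V) : 0 ≤ WJ B S J x := by
  induction J generalizing x with
  | zero => unfold WJ; exact le_rfl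
  | succ J ih =>
    unfold WJ
    have h1 := h.nonneg ih x
    have h2 := h.nonneg (VJ_nonneg (S := S) h J) x
    split_ifs <;> linarith

/-- The Bonferroni bound. -/
theorem bonf (h : MK K) (s : ℕ) (J : ℕ) (x : V) : VJ (K ^ s) S J x - WJ (K ^ s) S J x ≤ hit K S (J * s) x := by
  have hB := h.pow s
  induction J generalizing x with
  | zero =>
    rw [zero_mul]
    unfold VJ WJ
    rw [sub_zero, hit_zero]
  | succ J ih =>
    have e1 : (J + 1) * s = s + J * s := by ring
    by_cases hx : S x
    · rw [hit_on _ hx]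
      have e2 : VJ (K ^ s) S (J + 1) x = 1 + (K ^ s) (VJ (K ^ s) S J) x := by
        conv_lhs => unfold VJ
        rw [if_pos hx]
      have e3 : WJ (K ^ s) S (J + 1) x = (K ^ s) (VJ (K ^ s) S J) x + (K ^ s) (WJ (K ^ s) S J) x := by
        conv_lhs => unfold WJ
        rw [if_pos hx]
      rw [e2, e3]
      have := hB.nonneg (WJ_nonneg (S := S) hB J) x
      linarith
    · have e2 : VJ (K ^ s) S (J + 1) x = (K ^ s) (VJ (K ^ s) S J) x := by
        conv_lhs => unfold VJ
        rw [if_neg hx, zero_add]
      have e3 : WJ (K ^ s) S (J + 1) x = (K ^ s) (WJ (K ^ s) S J) x := by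
        conv_lhs => unfold WJ
        rw [if_neg hx, zero_add]
      rw [e1, e2, e3]
      refine le_trans ?_ (hit_steps h s (J * s) x)
      have h4 : (K ^ s) (VJ (K ^ s) S J) x - (K ^ s) (WJ (K ^ s) S J) x = (K ^ s) (VJ (K ^ s) S J - WJ (K ^ s) S J) x := by
        rw [map_sub]; rfl
      rw [h4]
      exact hB.mono _ _ ih x

/-- The Bonferroni bound after a warm-up. -/
theorem bonf0 (h : MK K) (T0 s J : ℕ) (x : V) :
    (K ^ T0) (VJ (K ^ s) S J) x - (K ^ T0) (WJ (K ^ s) S J) x ≤ hit K S (T0 + J * s) x := by
  refine le_trans ?_ (hit_steps h T0 (J * s) x)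
  have h4 : (K ^ T0) (VJ (K ^ s) S J) x - (K ^ T0) (WJ (K ^ s) S J) x = (K ^ T0) (VJ (K ^ s) S J - WJ (K ^ s) S J) x := by
    rw [map_sub]; rfl
  rw [h4]
  exact (h.pow T0).mono _ _ (bonf h s J) x

end

end PC

end Pool.Agent.H984
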