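import Pool.Agent.H984.PcPot

/-!
H984: the perturbed walk stays in the locked lower half for a long time.
-/

set_option autoImplicit false

open Classical

namespace Pool.Agent.H984

namespace PC

variable {Q : Type} [Group Q] [Fintype Q] {ι : Type} [Fintype ι]

/-- Hypotheses on the clock lamp. -/
structure PD.OKE (D : PD Q ι) (T : Finset Q) (kp : ℕ) (t0 : Q) : Prop where
  ok : D.OK T
  t0mem : t0 ∈ T
  adj : D.site D.x0 * t0 = D.xE
  ne : D.x0 ≠ D.x1
  lev1 : D.lev 1 = 0
  step : ∀ h, ∀ t ∈ T, D.lev (h * t) ≤ D.lev h + 1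
  fE : ∀ q, 2 * D.fE q ≤ D.P.L
  lip : ∀ q, ∀ t ∈ T, D.fE q ≤ D.fE (q * t) + kp

/-- Locked, with the partner lamp in the lower half. -/
def PD.A' (D : PD Q ι) (f : Q → Q) : Prop := D.lock f ∧ 2 * D.lev (f (D.site D.x1)) ≤ D.P.L

section shift

variable {D : PD Q ι} {T : Finset Q}

/-- Left shift of the clock lamp. -/
noncomputable def shf (x : Q) (a : Q) (f : Q → Q) : Q → Q := Function.update f x (a * f x)

/-- The shift of functions. -/
noncomputable def sh (x a : Q) : Module.End ℝ (LV Q → ℝ) where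
  toFun F u := F (shf x a u.1, u.2.1, u.2.2)
  map_add' F G := rfl
  map_smul' k F := rfl

theorem sh_apply (x a : Q) (F : LV Q → ℝ) (u : LV Q) : sh x a F u = F (shf x a u.1, u.2.1, u.2.2) := rfl

theorem shf_ne {x a z : Q} (h : z ≠ x) (f : Q → Q) : shf x a f z = f z := by
  unfold shf; rw [Function.update_of_ne h]

theorem shf_mv (x a : Q) (f : Q → Q) (y t : Q) : shf x a (mv f y t) = mv (shf x a f) y t := by
  ext z
  unfold shf mv
  by_cases hy : y = x
  · subst hy
    by_cases hz : z = y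
    · subst hz; simp [mul_assoc]
    · simp [Function.update_of_ne hz]
  · by_cases hz : z = y
    · subst hz
      rw [Function.update_of_ne hy]
      simp [Function.update_of_ne hy]
    · by_cases hz2 : z = x
      · subst hz2
        simp [Function.update_of_ne hz]
      · simp [Function.update_of_ne hz, Function.update_of_ne hz2]

theorem cfg_shf (h : D.OK T) (a : Q) (f : Q → Q) : cfg D.site (shf D.xE a f) = cfg D.site f := by
  ext x; unfold cfg; exact shf_ne (h.xE x) f

theorem wL_shf (h : D.OK T) (a : Q) (f : Q → Q) (y e t : Q) : D.wL (shf D.xE a f, y, e) t = D.wL (f, y, e) t := by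
  unfold PD.wL
  simp only
  rw [cfg_shf h]

theorem Op_sh (h : D.OK T) (a : Q) (W0 C : ℝ) (F : LV Q → ℝ) (u : LV Q) :
    Op T W0 C D.wL (sh D.xE a F) u = Op T W0 C D.wL F (shf D.xE a u.1, u.2.1, u.2.2) := by
  obtain ⟨f, y, e⟩ := u
  unfold Op
  simp only [sh_apply]
  congr 3
  apply Finset.sum_congr rfl; intro t _
  rw [wL_shf h, shf_mv]

theorem kl_sh {A : (Q → Q) → Prop} {x a : Q} (hA : ∀ f, A (shf x a f) ↔ A f) (F : LV Q → ℝ) :
    kl A (sh x a F) = sh x a (kl A F) := by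
  ext u
  rw [kl_apply, sh_apply, sh_apply, kl_apply]
  simp only [hA]

theorem KO_sh (h : D.OK T) {A : (Q → Q) → Prop} {a : Q} (hA : ∀ f, A (shf D.xE a f) ↔ A f) (W0 C : ℝ) (F : LV Q → ℝ) :
    KO T W0 C D.wL A (sh D.xE a F) = sh D.xE a (KO T W0 C D.wL A F) := by
  ext u
  rw [sh_apply, KO_apply, KO_apply, kl_sh hA, Op_sh h]
  simp only [hA]

theorem KO_sh_pow (h : D.OK T) {A : (Q → Q) → Prop} {a : Q} (hA : ∀ f, A (shf D.xE a f) ↔ A f) (W0 C : ℝ) (r : ℕ)
    (F : LV Q → ℝ) : (KO T W0 C D.wL A ^ r) (sh D.xE a F) = sh D.xE a ((KO T W0 C D.wL A ^ r) F) := by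
  induction r with
  | zero => simp
  | succ r ih => rw [pow_succ', Module.End.mul_apply, ih, KO_sh h hA]; rfl

theorem B_shf (h : D.OK T) (a : Q) (f : Q → Q) : D.B (shf D.xE a f) ↔ D.B f := by
  unfold PD.B
  rw [shf_ne (h.xE _), shf_ne (h.xE _)]

end shift

section low

variable {D : PD Q ι} {T : Finset Q} {kp : ℕ} {t0 : Q} {M : ℕ}

theorem A'_B (h : D.OKE T kp t0) (f : Q → Q) (hA : D.A' f) : D.B f := by
  refine ⟨?_, hA.2⟩
  have h1 := hA.1
  have h2 := h.fE (f D.xE)
  unfold PD.lock at h1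
  omega

/-- Weighted visits of the main site. -/
noncomputable def PD.G0 (D : PD Q ι) (M : ℕ) (u : LV Q) : ℝ :=
  if D.site D.x0 = u.2.1 then D.gl M u.1 * (1 / 2 ^ (D.fE (u.1 D.xE))) else 0

/-- Weighted visits of the partner site. -/
noncomputable def PD.G1 (D : PD Q ι) (M : ℕ) (u : LV Q) : ℝ := if D.site D.x1 = u.2.1 then D.gl M u.1 else 0

/-- Unweighted visits of the main site. -/
noncomputable def PD.H0 (D : PD Q ι) (M : ℕ) (u : LV Q) : ℝ := if D.site D.x0 = u.2.1 then D.gl M u.1 else 0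

/-- Weighted visits of the clock. -/
noncomputable def PD.GE (D : PD Q ι) (M : ℕ) (u : LV Q) : ℝ :=
  if D.xE = u.2.1 then D.gl M u.1 * (1 / 2 ^ (D.fE (u.1 D.xE))) else 0

theorem gl_pos (hA : 1 ≤ D.P.A) (f : Q → Q) : 0 < D.gl M f := D.P.g_pos hA _

theorem G0_nonneg (hA : 1 ≤ D.P.A) (u : LV Q) : 0 ≤ D.G0 M u := by
  unfold PD.G0; have := gl_pos (M := M) hA u.1 (D := D); split_ifs <;> positivity

theorem GE_nonneg (hA : 1 ≤ D.P.A) (u : LV Q) : 0 ≤ D.GE M u := by
  unfold PD.GE; have := gl_pos (M := M) hA u.1 (D := D); split_ifs <;> positivity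

theorem G1_nonneg (hA : 1 ≤ D.P.A) (u : LV Q) : 0 ≤ D.G1 M u := by
  unfold PD.G1; have := gl_pos (M := M) hA u.1 (D := D); split_ifs <;> positivity

/-- From the clock to the main site. -/
theorem GE_le (h : D.OKE T kp t0) (hA : 1 ≤ D.P.A) (u : LV Q) :
    kl D.B (D.GE M) u ≤ (2 * D.CC0 T / D.W0) * KO T D.W0 (D.CC0 T) D.wL D.B (D.G0 M) u := by
  have hC := D.CC0_pos h.ok
  have hW : 0 < D.W0 := by have := h.ok.W1; linarith
  have hAW := D.AW_L h.ok
  have hT := h.ok.card
  have hTr : (0 : ℝ) < T.card := by exact_mod_cast hT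
  rw [kl_apply, KO_apply]
  by_cases hB : D.B u.1
  · rw [if_pos hB, if_pos hB]
    obtain ⟨f, y, e⟩ := u
    simp only at hB
    by_cases hy : D.xE = y
    · subst hy
      -- the value at the neighbouring place
      obtain ⟨g, hg⟩ : ∃ g : ℝ, g = D.gl M f * (1 / 2 ^ (D.fE (f D.xE))) := ⟨_, rfl⟩
      have hg0 : 0 ≤ g := by have := gl_pos (M := M) hA f (D := D); rw [hg]; positivity
      have e1 : D.GE M (f, D.xE, e) = g := by unfold PD.GE; simp [hg]
      rw [e1]
      have hF0 : ∀ v, 0 ≤ kl D.B (D.G0 M) v := kl_nonneg (G0_nonneg hA)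
      have e2 : D.xE * t0⁻¹ = D.site D.x0 := by rw [← h.adj]; group
      have e3 : kl D.B (D.G0 M) (f, D.xE * t0⁻¹, e) = g := by
        rw [kl_apply, if_pos hB, e2]
        unfold PD.G0; simp [hg]
      -- lower bound of Op
      have key : g * (D.W0 / (2 * D.CC0 T)) ≤ Op T D.W0 (D.CC0 T) D.wL (kl D.B (D.G0 M)) (f, D.xE, e) := by
        have h1 : Op T D.W0 (D.CC0 T) D.wL (kl D.B (D.G0 M)) (f, D.xE, e)
            = (1 - (2 * T.card * D.W0 + ∑ t ∈ T, D.wL (f, D.xE, e) t) / (2 * D.CC0 T)) * kl D.B (D.G0 M) (f, D.xE, e)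
              + (D.W0 * (∑ t ∈ T, kl D.B (D.G0 M) (f, D.xE * t, e) + ∑ t ∈ T, kl D.B (D.G0 M) (f, D.xE, e * t))
                + ∑ t ∈ T, D.wL (f, D.xE, e) t * kl D.B (D.G0 M) (mv f D.xE t, D.xE, e)) / (2 * D.CC0 T) := by
          unfold Op
          rw [Pb_apply]
          unfold Av
          simp only [mul_sub, Finset.sum_sub_distrib, ← Finset.sum_mul]
          field_simp
          ring
        rw [h1]
        have h2 : 0 ≤ (1 - (2 * T.card * D.W0 + ∑ t ∈ T, D.wL (f, D.xE, e) t) / (2 * D.CC0 T)) := by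
          have := hAW.tot (f, D.xE, e)
          rw [sub_nonneg, div_le_one (by positivity)]; linarith
        have h3 : g ≤ ∑ t ∈ T, kl D.B (D.G0 M) (f, D.xE * t, e) := by
          rw [← e3]
          exact Finset.single_le_sum (f := fun t => kl D.B (D.G0 M) (f, D.xE * t, e)) (fun t _ => hF0 _) (h.ok.inv t0 h.t0mem)
        have h4 : 0 ≤ ∑ t ∈ T, kl D.B (D.G0 M) (f, D.xE, e * t) := Finset.sum_nonneg (fun t _ => hF0 _)
        have h5 : 0 ≤ ∑ t ∈ T, D.wL (f, D.xE, e) t * kl D.B (D.G0 M) (mv f D.xE t, D.xE, e) :=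
          Finset.sum_nonneg (fun t ht => mul_nonneg (hAW.w0 _ t ht) (hF0 _))
        have h6 : g * (D.W0 / (2 * D.CC0 T)) = (D.W0 * g) / (2 * D.CC0 T) := by ring
        rw [h6]
        have h7 : 0 ≤ (1 - (2 * T.card * D.W0 + ∑ t ∈ T, D.wL (f, D.xE, e) t) / (2 * D.CC0 T)) * kl D.B (D.G0 M) (f, D.xE, e) :=
          mul_nonneg h2 (hF0 _)
        have h8 : (D.W0 * g) / (2 * D.CC0 T) ≤ (D.W0 * (∑ t ∈ T, kl D.B (D.G0 M) (f, D.xE * t, e) + ∑ t ∈ T, kl D.B (D.G0 M) (f, D.xE, e * t))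
                + ∑ t ∈ T, D.wL (f, D.xE, e) t * kl D.B (D.G0 M) (mv f D.xE t, D.xE, e)) / (2 * D.CC0 T) := by
          apply div_le_div_of_nonneg_right _ (by positivity)
          have := mul_le_mul_of_nonneg_left h3 hW.le
          have := mul_nonneg hW.le h4
          linarith
        linarith
      calc g = (2 * D.CC0 T / D.W0) * (g * (D.W0 / (2 * D.CC0 T))) := by field_simp
        _ ≤ _ := mul_le_mul_of_nonneg_left key (by positivity)
    · have e1 : D.GE M (f, y, e) = 0 := by unfold PD.GE; rw [if_neg hy]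
      rw [e1]
      have := hAW.nonneg hT (kl_nonneg (A := D.B) (G0_nonneg (M := M) hA)) (f, y, e)
      positivity
  · rw [if_neg hB, if_neg hB, mul_zero]

/-- The indicator of the good set. -/
noncomputable def PD.iA (D : PD Q ι) : LV Q → ℝ := kl D.A' (fun _ => 1)

/-- The flux out of the good set. -/
theorem flux (h : D.OKE T kp t0) (hA : 1 ≤ D.P.A) (hl : Last D.P M D.x0 D.x1) (u : LV Q) :
    D.iA u - KO T D.W0 (D.CC0 T) D.wP D.A' D.iA u
      ≤ (T.card * D.P.K / (2 * D.CC0 T)) * kl D.B (fun u => 2 ^ (kp + 1) * (D.G0 M u + D.GE M u)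
          + 1 / 2 ^ (D.P.L / 2) * D.G1 M u) u := by
  have hC := D.CC0_pos h.ok
  have hK := h.ok.K1
  unfold PD.iA
  rw [KO_apply]
  rw [kl_apply D.A' (fun _ => (1 : ℝ)) u]
  have hpos : 0 ≤ (T.card * D.P.K / (2 * D.CC0 T)) * kl D.B (fun u => 2 ^ (kp + 1) * (D.G0 M u + D.GE M u)
          + 1 / 2 ^ (D.P.L / 2) * D.G1 M u) u := by
    apply mul_nonneg (by positivity)
    apply kl_nonneg
    intro v
    have := G0_nonneg (M := M) hA v
    have := GE_nonneg (M := M) hA v
    have := G1_nonneg (M := M) hA v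
    positivity
  by_cases hAu : D.A' u.1
  · rw [if_pos hAu, if_pos hAu]
    have hB := A'_B h u.1 hAu
    rw [kl_apply D.B, if_pos hB]
    obtain ⟨f, y, e⟩ := u
    simp only at hAu hB ⊢
    have e0 : kl D.A' (kl D.A' (fun _ => (1 : ℝ))) = kl D.A' (fun _ => (1 : ℝ)) := by
      ext v; simp only [kl_apply]; split_ifs <;> rfl
    rw [e0]
    -- the loss
    have e1 : 1 - Op T D.W0 (D.CC0 T) D.wP (kl D.A' (fun _ => (1 : ℝ))) (f, y, e)
        = (∑ t ∈ T, D.wP (f, y, e) t * (if D.A' (mv f y t) then 0 else 1)) / (2 * D.CC0 T) := by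
      unfold Op
      simp only
      have h1 : (fun y e => kl D.A' (fun _ => (1 : ℝ)) (f, y, e)) = fun (_ _ : Q) => (1 : ℝ) := by
        ext y e; rw [kl_apply, if_pos hAu]
      have h2 : Pb T (fun (_ _ : Q) => (1 : ℝ)) y e = 1 := by
        have h := Pb_const h.ok.card (1 : ℝ) 1
        rw [pow_one] at h
        exact congrFun (congrFun h y) e
      rw [h1, h2]
      simp only [kl_apply]
      rw [if_pos hAu, sub_self, mul_zero, zero_add]
      have h3 : ∀ t ∈ T, D.wP (f, y, e) t * ((if D.A' (mv f y t) then (1 : ℝ) else 0) - 1)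
          = - (D.wP (f, y, e) t * (if D.A' (mv f y t) then 0 else 1)) := by
        intro t _; split_ifs <;> ring
      rw [Finset.sum_congr rfl h3, Finset.sum_neg_distrib]; ring
    rw [e1]
    have hX : ∀ t ∈ T, D.wP (f, y, e) t * (if D.A' (mv f y t) then (0 : ℝ) else 1)
        ≤ D.P.K * (2 ^ (kp + 1) * (D.G0 M (f, y, e) + D.GE M (f, y, e)) + 1 / 2 ^ (D.P.L / 2) * D.G1 M (f, y, e)) := by
      intro t ht
      have hw := D.wP_le h.ok (f, y, e) t
      have hw0 := D.wP_ge h.ok (f, y, e) t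
      have p0 := G0_nonneg (M := M) hA (f, y, e) (D := D)
      have p1 := G1_nonneg (M := M) hA (f, y, e) (D := D)
      have p2 := GE_nonneg (M := M) hA (f, y, e) (D := D)
      have hX0 : 0 ≤ 2 ^ (kp + 1) * (D.G0 M (f, y, e) + D.GE M (f, y, e)) + 1 / 2 ^ (D.P.L / 2) * D.G1 M (f, y, e) := by
        positivity
      by_cases hAt : D.A' (mv f y t)
      · rw [if_pos hAt, mul_zero]; positivity
      · rw [if_neg hAt, mul_one]
        have hgl : D.gl M f = phi D.P.A D.P.L (D.lev (f (D.site D.x0))) * phi D.P.A D.P.L (D.lev (f (D.site D.x1))) := by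
          unfold PD.gl; rw [hl.g]; rfl
        have g0 := phi_half hA (L := D.P.L) (D.lev (f (D.site D.x0))) (by have := hB.1; omega)
        have g1 := phi_half hA (L := D.P.L) (D.lev (f (D.site D.x1))) (by have := hB.2; omega)
        have one0 : (1 : ℝ) ≤ 2 ^ (D.lev (f (D.site D.x0))) := one_le_pow₀ (by norm_num)
        have one1 : (1 : ℝ) ≤ 2 ^ (D.lev (f (D.site D.x1))) := one_le_pow₀ (by norm_num)
        have hgl0 : (2 : ℝ) ^ (D.lev (f (D.site D.x0))) ≤ D.gl M f := by rw [hgl]; nlinarith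
        have hgl1 : (2 : ℝ) ^ (D.lev (f (D.site D.x1))) ≤ D.gl M f := by rw [hgl]; nlinarith
        have hone : 1 ≤ 2 ^ (kp + 1) * (D.G0 M (f, y, e) + D.GE M (f, y, e)) + 1 / 2 ^ (D.P.L / 2) * D.G1 M (f, y, e) := by
          have hlock := hAu.1
          unfold PD.lock at hlock
          have hs01 : D.site D.x0 ≠ D.site D.x1 := fun h' => h.ne (h.ok.inj h')
          have two1 : (1 : ℝ) ≤ 2 ^ kp := one_le_pow₀ (by norm_num)
          by_cases y0 : D.site D.x0 = y
          · subst y0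
            have e2 : D.G0 M (f, D.site D.x0, e) = D.gl M f * (1 / 2 ^ (D.fE (f D.xE))) := by unfold PD.G0; simp
            have m1 : mv f (D.site D.x0) t (D.site D.x1) = f (D.site D.x1) := by
              unfold mv; rw [Function.update_of_ne hs01.symm]
            have m2 : mv f (D.site D.x0) t (D.site D.x0) = f (D.site D.x0) * t := by unfold mv; simp
            have m3 : mv f (D.site D.x0) t D.xE = f D.xE := by
              unfold mv; rw [Function.update_of_ne (h.ok.xE _).symm]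
            have hx : D.fE (f D.xE) ≤ D.lev (f (D.site D.x0)) + 1 := by
              by_contra hc
              push Not at hc
              apply hAt
              refine ⟨?_, by rw [m1]; exact hAu.2⟩
              unfold PD.lock
              rw [m2, m3]
              have := h.step (f (D.site D.x0)) t ht
              omega
            have hpw : (2 : ℝ) ^ (D.fE (f D.xE)) ≤ 2 * D.gl M f := by
              calc (2 : ℝ) ^ (D.fE (f D.xE)) ≤ 2 ^ (D.lev (f (D.site D.x0)) + 1) := pow_le_pow_right₀ (by norm_num) hx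
                _ = 2 * 2 ^ (D.lev (f (D.site D.x0))) := by ring
                _ ≤ _ := by linarith
            have h5 : 1 ≤ 2 * (D.gl M f * (1 / 2 ^ (D.fE (f D.xE)))) := by
              have h6 : (0 : ℝ) < 2 ^ (D.fE (f D.xE)) := by positivity
              rw [mul_one_div, mul_div_assoc', le_div_iff₀ h6]; linarith
            have h7 : 2 * D.G0 M (f, D.site D.x0, e) ≤ 2 ^ (kp + 1) * (D.G0 M (f, D.site D.x0, e) + D.GE M (f, D.site D.x0, e)) := by
              have : (2 : ℝ) ^ (kp + 1) = 2 * 2 ^ kp := by ring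
              rw [this]
              nlinarith [mul_nonneg (by linarith : (0 : ℝ) ≤ 2 ^ kp - 1) p0, mul_nonneg (by positivity : (0 : ℝ) ≤ 2 ^ kp) p2]
            have h8 : 0 ≤ 1 / 2 ^ (D.P.L / 2) * D.G1 M (f, D.site D.x0, e) := by positivity
            rw [← e2] at h5
            linarith
          · by_cases yE : D.xE = y
            · subst yE
              have e2 : D.GE M (f, D.xE, e) = D.gl M f * (1 / 2 ^ (D.fE (f D.xE))) := by unfold PD.GE; simp
              have m1 : mv f D.xE t (D.site D.x1) = f (D.site D.x1) := by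
                unfold mv; rw [Function.update_of_ne (h.ok.xE _)]
              have m2 : mv f D.xE t (D.site D.x0) = f (D.site D.x0) := by
                unfold mv; rw [Function.update_of_ne (h.ok.xE _)]
              have m3 : mv f D.xE t D.xE = f D.xE * t := by unfold mv; simp
              have hx : D.fE (f D.xE) ≤ D.lev (f (D.site D.x0)) + kp := by
                by_contra hc
                push Not at hc
                apply hAt
                refine ⟨?_, by rw [m1]; exact hAu.2⟩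
                unfold PD.lock
                rw [m2, m3]
                have := h.lip (f D.xE) t ht
                omega
              have hpw : (2 : ℝ) ^ (D.fE (f D.xE)) ≤ 2 ^ kp * D.gl M f := by
                calc (2 : ℝ) ^ (D.fE (f D.xE)) ≤ 2 ^ (D.lev (f (D.site D.x0)) + kp) := pow_le_pow_right₀ (by norm_num) hx
                  _ = 2 ^ kp * 2 ^ (D.lev (f (D.site D.x0))) := by rw [pow_add]; ring
                  _ ≤ _ := mul_le_mul_of_nonneg_left hgl0 (by positivity)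
              have h5 : 1 ≤ 2 ^ kp * (D.gl M f * (1 / 2 ^ (D.fE (f D.xE)))) := by
                have h6 : (0 : ℝ) < 2 ^ (D.fE (f D.xE)) := by positivity
                rw [mul_one_div, mul_div_assoc', le_div_iff₀ h6]; linarith
              have h7 : 2 ^ kp * D.GE M (f, D.xE, e) ≤ 2 ^ (kp + 1) * (D.G0 M (f, D.xE, e) + D.GE M (f, D.xE, e)) := by
                have : (2 : ℝ) ^ (kp + 1) = 2 * 2 ^ kp := by ring
                rw [this]
                nlinarith [mul_nonneg (by positivity : (0 : ℝ) ≤ 2 ^ kp) p0, mul_nonneg (by positivity : (0 : ℝ) ≤ 2 ^ kp) p2]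
              have h8 : 0 ≤ 1 / 2 ^ (D.P.L / 2) * D.G1 M (f, D.xE, e) := by positivity
              rw [← e2] at h5
              linarith
            · by_cases y1 : D.site D.x1 = y
              · subst y1
                have e2 : D.G1 M (f, D.site D.x1, e) = D.gl M f := by unfold PD.G1; simp
                have m1 : mv f (D.site D.x1) t (D.site D.x1) = f (D.site D.x1) * t := by unfold mv; simp
                have m2 : mv f (D.site D.x1) t (D.site D.x0) = f (D.site D.x0) := by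
                  unfold mv; rw [Function.update_of_ne hs01]
                have m3 : mv f (D.site D.x1) t D.xE = f D.xE := by
                  unfold mv; rw [Function.update_of_ne (h.ok.xE _).symm]
                have hx : D.P.L / 2 ≤ D.lev (f (D.site D.x1)) := by
                  by_contra hc
                  push Not at hc
                  apply hAt
                  refine ⟨?_, ?_⟩
                  · unfold PD.lock
                    rw [m2, m3]; exact hlock
                  · rw [m1]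
                    have := h.step (f (D.site D.x1)) t ht
                    omega
                have hpw : (2 : ℝ) ^ (D.P.L / 2) ≤ D.gl M f := by
                  calc (2 : ℝ) ^ (D.P.L / 2) ≤ 2 ^ (D.lev (f (D.site D.x1))) := pow_le_pow_right₀ (by norm_num) hx
                    _ ≤ _ := hgl1
                have h5 : 1 ≤ 1 / 2 ^ (D.P.L / 2) * D.gl M f := by
                  have h6 : (0 : ℝ) < 2 ^ (D.P.L / 2) := by positivity
                  rw [one_div, ← div_eq_inv_mul, le_div_iff₀ h6]; linarith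
                have h7 : 0 ≤ 2 ^ (kp + 1) * (D.G0 M (f, D.site D.x1, e) + D.GE M (f, D.site D.x1, e)) := by positivity
                rw [e2]
                linarith
              · -- no change at all
                exfalso
                apply hAt
                have m1 : mv f y t (D.site D.x1) = f (D.site D.x1) := by
                  unfold mv; rw [Function.update_of_ne y1]
                have m2 : mv f y t (D.site D.x0) = f (D.site D.x0) := by
                  unfold mv; rw [Function.update_of_ne y0]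
                have m3 : mv f y t D.xE = f D.xE := by
                  unfold mv; rw [Function.update_of_ne yE]
                refine ⟨?_, by rw [m1]; exact hAu.2⟩
                unfold PD.lock
                rw [m2, m3]; exact hlock
        calc D.wP (f, y, e) t ≤ D.P.K := hw
          _ = D.P.K * 1 := by ring
          _ ≤ _ := mul_le_mul_of_nonneg_left hone (by linarith)
    have h2 := Finset.sum_le_sum hX
    rw [Finset.sum_const, nsmul_eq_mul] at h2
    have h3 := div_le_div_of_nonneg_right h2 (by positivity : 0 ≤ 2 * D.CC0 T)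
    refine h3.trans (le_of_eq ?_)
    ring
  · rw [if_neg hAu, if_neg hAu, sub_self]
    exact hpos

/-- The killed perturbed operator is below the killed ratchet operator. -/
theorem KO_cmp (h : D.OKE T kp t0) (r : ℕ) {F : LV Q → ℝ} (hF : ∀ u, 0 ≤ F u) (u : LV Q) :
    (KO T D.W0 (D.CC0 T) D.wP D.A' ^ r) F u ≤ (KO T D.W0 (D.CC0 T) D.wL D.B ^ r) F u := by
  have hP := D.AW_P h.ok
  have hL := D.AW_L h.ok
  induction r generalizing u with
  | zero => simp
  | succ r ih =>
    rw [pow_succ', pow_succ', Module.End.mul_apply, Module.End.mul_apply]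
    refine (hP.KO_mono (fun v => ih v) u).trans ?_
    refine kill_compare hL h.ok.card (fun f hf => A'_B h f hf) ?_ ?_ (hL.KO_pow_nonneg h.ok.card r hF) u
    · intro v t ht h1 h2
      unfold PD.wP; rw [if_pos ⟨h1.1, h2.1⟩]
    · intro v t ht h1 h2
      unfold PD.wP
      split_ifs
      · exact le_rfl
      · exact D.wL_le h.ok v t

/-- The survival probability. -/
theorem surv (h : D.OKE T kp t0) (N : ℕ) (u : LV Q) :
    (KO T D.W0 (D.CC0 T) D.wP D.A' ^ N) D.iA u
      = D.iA u - ∑ r ∈ Finset.range N, (KO T D.W0 (D.CC0 T) D.wP D.A' ^ r) (D.iA - KO T D.W0 (D.CC0 T) D.wP D.A' D.iA) u := by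
  induction N with
  | zero => simp
  | succ N ih =>
    rw [Finset.sum_range_succ, pow_succ, Module.End.mul_apply, map_sub, Pi.sub_apply]
    linarith

/-- The starting vertex with the clock at `q`. -/
noncomputable def PD.st (D : PD Q ι) (q : Q) : LV Q := (shf D.xE q (fun _ => 1), 1, 1)

theorem st_sh (D : PD Q ι) (F : LV Q → ℝ) (q : Q) : F (D.st q) = sh D.xE q F (fun _ => 1, 1, 1) := rfl

/-- Averaging over the clock. -/
theorem avg (h : D.OKE T kp t0) (hA : 1 ≤ D.P.A) (N : ℕ) :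
    ∑ q, ∑ r ∈ Finset.range N, (KO T D.W0 (D.CC0 T) D.wL D.B ^ r) (kl D.B (D.G0 M)) (D.st q)
      = (∑ q, 1 / (2 : ℝ) ^ (D.fE q)) * ∑ r ∈ Finset.range N, (KO T D.W0 (D.CC0 T) D.wL D.B ^ r) (kl D.B (D.H0 M)) (fun _ => 1, 1, 1) := by
  rw [Finset.sum_comm, Finset.mul_sum]
  apply Finset.sum_congr rfl; intro r _
  have e1 : ∀ q, (KO T D.W0 (D.CC0 T) D.wL D.B ^ r) (kl D.B (D.G0 M)) (D.st q)
      = (KO T D.W0 (D.CC0 T) D.wL D.B ^ r) (kl D.B (sh D.xE q (D.G0 M))) (fun _ => 1, 1, 1) := by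
    intro q
    rw [st_sh D ((KO T D.W0 (D.CC0 T) D.wL D.B ^ r) (kl D.B (D.G0 M))) q, ← KO_sh_pow h.ok (B_shf h.ok q), kl_sh (B_shf h.ok q)]
  rw [Finset.sum_congr rfl (fun q _ => e1 q)]
  have e2 : ∑ q, (KO T D.W0 (D.CC0 T) D.wL D.B ^ r) (kl D.B (sh D.xE q (D.G0 M))) (fun _ => 1, 1, 1)
      = (KO T D.W0 (D.CC0 T) D.wL D.B ^ r) (kl D.B (∑ q, sh D.xE q (D.G0 M))) (fun _ => 1, 1, 1) := by
    rw [map_sum, map_sum, Finset.sum_apply]
  rw [e2]
  have e3 : (∑ q, sh D.xE q (D.G0 M)) = (∑ q, 1 / (2 : ℝ) ^ (D.fE q)) • D.H0 M := by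
    ext u
    rw [Finset.sum_apply, Pi.smul_apply, smul_eq_mul]
    simp only [sh_apply]
    unfold PD.G0 PD.H0
    by_cases hy : D.site D.x0 = u.2.1
    · simp only [if_pos hy]
      have e4 : ∀ q, D.gl M (shf D.xE q u.1) = D.gl M u.1 := by
        intro q; unfold PD.gl; rw [cfg_shf h.ok]
      simp only [e4]
      rw [← Finset.mul_sum]
      have e5 : ∀ q, shf D.xE q u.1 D.xE = q * u.1 D.xE := by intro q; unfold shf; simp
      simp only [e5]
      have e6 : ∑ q, (1 : ℝ) / 2 ^ (D.fE (q * u.1 D.xE)) = ∑ q, 1 / (2 : ℝ) ^ (D.fE q) :=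
        Equiv.sum_comp (Equiv.mulRight (u.1 D.xE)) (fun q => (1 : ℝ) / 2 ^ (D.fE q))
      rw [e6]; ring
    · simp only [if_neg hy]
      simp
  rw [e3, map_smul, map_smul, Pi.smul_apply, smul_eq_mul]

theorem avg1 (h : D.OKE T kp t0) (N : ℕ) (q : Q) :
    ∑ r ∈ Finset.range N, (KO T D.W0 (D.CC0 T) D.wL D.B ^ r) (kl D.B (D.G1 M)) (D.st q)
      = ∑ r ∈ Finset.range N, (KO T D.W0 (D.CC0 T) D.wL D.B ^ r) (kl D.B (D.G1 M)) (fun _ => 1, 1, 1) := by
  apply Finset.sum_congr rfl; intro r _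
  have e1 : sh D.xE q (D.G1 M) = D.G1 M := by
    ext u
    rw [sh_apply]
    unfold PD.G1
    have e4 : D.gl M (shf D.xE q u.1) = D.gl M u.1 := by unfold PD.gl; rw [cfg_shf h.ok]
    simp only [e4]
  rw [st_sh D ((KO T D.W0 (D.CC0 T) D.wL D.B ^ r) (kl D.B (D.G1 M))) q, ← KO_sh_pow h.ok (B_shf h.ok q), ← kl_sh (B_shf h.ok q), e1]

/-- Total loss from one start. -/
theorem loss (h : D.OKE T kp t0) (hA : 1 ≤ D.P.A) (hl : Last D.P M D.x0 D.x1) (N : ℕ) (u : LV Q) :
    D.iA u - (KO T D.W0 (D.CC0 T) D.wP D.A' ^ N) D.iA u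
      ≤ (T.card * D.P.K / (2 * D.CC0 T)) * (2 ^ (kp + 1) * (1 + 2 * D.CC0 T / D.W0)
          * ∑ r ∈ Finset.range (N + 1), (KO T D.W0 (D.CC0 T) D.wL D.B ^ r) (kl D.B (D.G0 M)) u
        + 1 / 2 ^ (D.P.L / 2) * ∑ r ∈ Finset.range (N + 1), (KO T D.W0 (D.CC0 T) D.wL D.B ^ r) (kl D.B (D.G1 M)) u) := by
  have hC := D.CC0_pos h.ok
  have hK := h.ok.K1
  have hW : 0 < D.W0 := by have := h.ok.W1; linarith
  have hP := D.AW_P h.ok
  have hL := D.AW_L h.ok
  have hT := h.ok.card
  set KB := KO T D.W0 (D.CC0 T) D.wL D.B with hKB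
  rw [surv h N u]
  set X0 := ∑ r ∈ Finset.range (N + 1), (KB ^ r) (kl D.B (D.G0 M)) u with hX0
  set X1 := ∑ r ∈ Finset.range (N + 1), (KB ^ r) (kl D.B (D.G1 M)) u with hX1
  set cst := T.card * D.P.K / (2 * D.CC0 T) with hcst
  have hcst0 : 0 ≤ cst := by rw [hcst]; positivity
  have hphi0 : ∀ v, 0 ≤ (D.iA - KO T D.W0 (D.CC0 T) D.wP D.A' D.iA) v := by
    intro v
    rw [Pi.sub_apply, sub_nonneg, KO_apply]
    unfold PD.iA
    rw [kl_apply D.A' (fun _ => (1 : ℝ)) v]
    split_ifs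
    · refine (hP.mono (G := fun _ => (1 : ℝ)) (fun w => ?_) v).trans ?_
      · rw [kl_apply, kl_apply]; split_ifs <;> norm_num
      · rw [Op_one _ _ _ hT]
    · exact le_rfl
  -- each term
  have e1 : ∀ v, (D.iA - KO T D.W0 (D.CC0 T) D.wP D.A' D.iA) v
      ≤ ((cst * 2 ^ (kp + 1)) • kl D.B (D.G0 M) + (cst * 2 ^ (kp + 1) * (2 * D.CC0 T / D.W0)) • KB (kl D.B (D.G0 M))
        + (cst * (1 / 2 ^ (D.P.L / 2))) • kl D.B (D.G1 M)) v := by
    intro v
    have h1 := flux h hA hl v
    have h2 := GE_le (M := M) h hA v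
    rw [← hKB] at h2
    have h3 : KB (D.G0 M) = KB (kl D.B (D.G0 M)) := by
      ext w
      rw [hKB, KO_apply, KO_apply]
      have : kl D.B (kl D.B (D.G0 M)) = kl D.B (D.G0 M) := by
        ext z; simp only [kl_apply]; split_ifs <;> rfl
      rw [this]
    rw [h3] at h2
    simp only [Pi.add_apply, Pi.smul_apply, smul_eq_mul]
    have h4 : kl D.B (fun u => 2 ^ (kp + 1) * (D.G0 M u + D.GE M u) + 1 / 2 ^ (D.P.L / 2) * D.G1 M u) v
        = 2 ^ (kp + 1) * (kl D.B (D.G0 M) v + kl D.B (D.GE M) v) + 1 / 2 ^ (D.P.L / 2) * kl D.B (D.G1 M) v := by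
      simp only [kl_apply]; split_ifs <;> ring
    rw [h4, ← hcst] at h1
    have h5 := mul_le_mul_of_nonneg_left h2 (by positivity : 0 ≤ cst * 2 ^ (kp + 1))
    have h6 : (D.iA - KO T D.W0 (D.CC0 T) D.wP D.A' D.iA) v = D.iA v - KO T D.W0 (D.CC0 T) D.wP D.A' D.iA v := rfl
    rw [h6]
    linarith
  have e2 : ∑ r ∈ Finset.range N, (KO T D.W0 (D.CC0 T) D.wP D.A' ^ r) (D.iA - KO T D.W0 (D.CC0 T) D.wP D.A' D.iA) u
      ≤ ∑ r ∈ Finset.range N, ((cst * 2 ^ (kp + 1)) * (KB ^ r) (kl D.B (D.G0 M)) u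
        + (cst * 2 ^ (kp + 1) * (2 * D.CC0 T / D.W0)) * (KB ^ (r + 1)) (kl D.B (D.G0 M)) u
        + (cst * (1 / 2 ^ (D.P.L / 2))) * (KB ^ r) (kl D.B (D.G1 M)) u) := by
    apply Finset.sum_le_sum; intro r _
    refine (KO_cmp h r hphi0 u).trans ?_
    refine (hL.KO_pow_mono r e1 u).trans ?_
    rw [← hKB, map_add, map_add, map_smul, map_smul, map_smul, pow_succ KB r, Module.End.mul_apply]
    simp only [Pi.add_apply, Pi.smul_apply, smul_eq_mul]
    exact le_rfl
  rw [Finset.sum_add_distrib, Finset.sum_add_distrib, ← Finset.mul_sum, ← Finset.mul_sum, ← Finset.mul_sum] at e2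
  have n0 : ∀ r, 0 ≤ (KB ^ r) (kl D.B (D.G0 M)) u := fun r => hL.KO_pow_nonneg hT r (kl_nonneg (G0_nonneg hA)) u
  have n1 : ∀ r, 0 ≤ (KB ^ r) (kl D.B (D.G1 M)) u := fun r => hL.KO_pow_nonneg hT r (kl_nonneg (G1_nonneg hA)) u
  have s1 : ∑ r ∈ Finset.range N, (KB ^ r) (kl D.B (D.G0 M)) u ≤ X0 := by
    rw [hX0, Finset.sum_range_succ]; linarith [n0 N]
  have s2 : ∑ r ∈ Finset.range N, (KB ^ (r + 1)) (kl D.B (D.G0 M)) u ≤ X0 := by
    rw [hX0, Finset.sum_range_succ']; linarith [n0 0]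
  have s3 : ∑ r ∈ Finset.range N, (KB ^ r) (kl D.B (D.G1 M)) u ≤ X1 := by
    rw [hX1, Finset.sum_range_succ]; linarith [n1 N]
  have t1 := mul_le_mul_of_nonneg_left s1 (by positivity : 0 ≤ cst * 2 ^ (kp + 1))
  have t2 := mul_le_mul_of_nonneg_left s2 (by positivity : 0 ≤ cst * 2 ^ (kp + 1) * (2 * D.CC0 T / D.W0))
  have t3 := mul_le_mul_of_nonneg_left s3 (by positivity : 0 ≤ cst * (1 / 2 ^ (D.P.L / 2)))
  have e3 : cst * (2 ^ (kp + 1) * (1 + 2 * D.CC0 T / D.W0) * X0 + 1 / 2 ^ (D.P.L / 2) * X1)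
      = cst * 2 ^ (kp + 1) * X0 + cst * 2 ^ (kp + 1) * (2 * D.CC0 T / D.W0) * X0 + cst * (1 / 2 ^ (D.P.L / 2)) * X1 := by ring
  rw [e3]
  linarith

/-- Some clock position gives a long stay. -/
theorem exists_start (h : D.OKE T kp t0) (hA : 1 ≤ D.P.A) (hl : Last D.P M D.x0 D.x1) (N : ℕ) {X : ℝ}
    (hX : ∑ r ∈ Finset.range (N + 1), (KO T D.W0 (D.CC0 T) D.wL D.B ^ r) (kl D.B (D.vis M)) (fun _ => 1, 1, 1) ≤ X)
    (hZ : 16 * ((Finset.univ.filter (fun q => D.fE q = 0)).card : ℝ) ≤ Fintype.card Q)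
    (hfin : (T.card * D.P.K / (2 * D.CC0 T)) * (2 ^ (kp + 1) * (1 + 2 * D.CC0 T / D.W0) * ((∑ q, 1 / (2 : ℝ) ^ (D.fE q)) * X)
        + 1 / 2 ^ (D.P.L / 2) * (Fintype.card Q * X)) ≤ Fintype.card Q / 8) :
    ∃ q, 3 / 4 ≤ (KO T D.W0 (D.CC0 T) D.wP D.A' ^ N) D.iA (D.st q) := by
  have hC := D.CC0_pos h.ok
  have hK := h.ok.K1
  have hW : 0 < D.W0 := by have := h.ok.W1; linarith
  have hL := D.AW_L h.ok
  have hT := h.ok.card
  have hn : (0 : ℝ) < Fintype.card Q := by exact_mod_cast Fintype.card_pos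
  by_contra hc
  push Not at hc
  have h1 := Finset.sum_le_sum (fun q (_ : q ∈ (Finset.univ : Finset Q)) => loss h hA hl N (D.st q))
  rw [Finset.sum_sub_distrib, ← Finset.mul_sum, Finset.sum_add_distrib, ← Finset.mul_sum, ← Finset.mul_sum, avg h hA (N + 1)] at h1
  rw [Finset.sum_congr rfl (fun q _ => avg1 (M := M) h (N + 1) q), Finset.sum_const, Finset.card_univ, nsmul_eq_mul] at h1
  -- compare with the visits
  have v0 : ∀ u, kl D.B (D.H0 M) u ≤ kl D.B (D.vis M) u := by
    apply kl_mono; intro u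
    unfold PD.H0 PD.vis
    by_cases hy : D.site D.x0 = u.2.1
    · rw [if_pos hy, if_pos ⟨_, hy⟩]
    · rw [if_neg hy]; split_ifs
      · exact (gl_pos hA u.1).le
      · exact le_rfl
  have v1 : ∀ u, kl D.B (D.G1 M) u ≤ kl D.B (D.vis M) u := by
    apply kl_mono; intro u
    unfold PD.G1 PD.vis
    by_cases hy : D.site D.x1 = u.2.1
    · rw [if_pos hy, if_pos ⟨_, hy⟩]
    · rw [if_neg hy]; split_ifs
      · exact (gl_pos hA u.1).le
      · exact le_rfl
  have x0 : ∑ r ∈ Finset.range (N + 1), (KO T D.W0 (D.CC0 T) D.wL D.B ^ r) (kl D.B (D.H0 M)) (fun _ => 1, 1, 1) ≤ X :=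
    (Finset.sum_le_sum (fun r _ => hL.KO_pow_mono r v0 _)).trans hX
  have x1 : ∑ r ∈ Finset.range (N + 1), (KO T D.W0 (D.CC0 T) D.wL D.B ^ r) (kl D.B (D.G1 M)) (fun _ => 1, 1, 1) ≤ X :=
    (Finset.sum_le_sum (fun r _ => hL.KO_pow_mono r v1 _)).trans hX
  have hZ0 : 0 ≤ ∑ q, 1 / (2 : ℝ) ^ (D.fE q) := Finset.sum_nonneg (fun q _ => by positivity)
  have h2 : (T.card * D.P.K / (2 * D.CC0 T)) * (2 ^ (kp + 1) * (1 + 2 * D.CC0 T / D.W0) * ((∑ q, 1 / (2 : ℝ) ^ (D.fE q)) *
        ∑ r ∈ Finset.range (N + 1), (KO T D.W0 (D.CC0 T) D.wL D.B ^ r) (kl D.B (D.H0 M)) (fun _ => 1, 1, 1))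
        + 1 / 2 ^ (D.P.L / 2) * (Fintype.card Q * ∑ r ∈ Finset.range (N + 1), (KO T D.W0 (D.CC0 T) D.wL D.B ^ r) (kl D.B (D.G1 M)) (fun _ => 1, 1, 1)))
      ≤ Fintype.card Q / 8 := by
    refine le_trans ?_ hfin
    gcongr
  have h3 : (Fintype.card Q : ℝ) * (15 / 16) ≤ ∑ q, D.iA (D.st q) := by
    have e1 : ∀ q, 1 - (if D.fE q = 0 then (1 : ℝ) else 0) ≤ D.iA (D.st q) := by
      intro q
      unfold PD.iA
      rw [kl_apply]
      by_cases hq : D.fE q = 0
      · rw [if_pos hq]; split_ifs <;> norm_num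
      · have : D.A' (D.st q).1 := by
          unfold PD.A' PD.lock PD.st
          simp only
          rw [shf_ne (h.ok.xE _), shf_ne (h.ok.xE _), h.lev1]
          have e5 : shf D.xE q (fun _ => (1 : Q)) D.xE = q := by unfold shf; simp
          rw [e5]
          constructor
          · omega
          · omega
        rw [if_neg hq, if_pos this]; norm_num
    have e2 := Finset.sum_le_sum (fun q (_ : q ∈ (Finset.univ : Finset Q)) => e1 q)
    rw [Finset.sum_sub_distrib, Finset.sum_const, Finset.card_univ, nsmul_eq_mul, mul_one, Finset.sum_boole] at e2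
    linarith
  have h4 : ∑ q, (KO T D.W0 (D.CC0 T) D.wP D.A' ^ N) D.iA (D.st q) ≤ ∑ _q : Q, (3 / 4 : ℝ) :=
    Finset.sum_le_sum (fun q _ => (hc q).le)
  rw [Finset.sum_const, Finset.card_univ, nsmul_eq_mul] at h4
  linarith

end low

end PC

end Pool.Agent.H984
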