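import Pool.Agent.H984.PcEY

/-!
H984: the perturbed walk reaches a good neutral state with probability bounded below, and then mixes.
-/

set_option autoImplicit false

open Classical

namespace Pool.Agent.H984

namespace PC

variable {Q : Type} [Group Q] [Fintype Q] {ι : Type} [Fintype ι]
variable {D : PD Q ι} {T : Finset Q} {kp : ℕ} {t0 : Q} {d dp : ℝ} {L τ : ℕ}

theorem KP_MK (h : D.OK T) : MK (D.KP T) := (D.AW_P h).MK h.card
theorem KN_MK (h : D.OK T) : MK (D.KN T) := (D.AW_N h).MK h.card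

theorem hit_set_mono {V : Type} {K : Module.End ℝ (V → ℝ)} (h : MK K) {S S' : V → Prop} (hS : ∀ x, S x → S' x) (t : ℕ) (x : V) :
    hit K S t x ≤ hit K S' t x := by
  induction t generalizing x with
  | zero =>
    rw [hit_zero, hit_zero]
    by_cases hx : S x
    · rw [if_pos hx, if_pos (hS x hx)]
    · rw [if_neg hx]; split_ifs <;> norm_num
  | succ t ih =>
    rw [hit_succ (S := S')]
    split_ifs with hx'
    · exact hit_le_one h _ x
    · rw [hit_succ, if_neg (fun h' => hx' (hS x h'))]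
      exact h.mono _ _ ih x

/-- From a resting clock to the clock site. -/
theorem hit_cross (h : D.OK T) (Z : Finset Q) (t : ℕ) (u : LV Q) (hu : u.1 D.xE ∈ Z) :
    hit (D.KP T) (fun u => u.2.1 = D.xE) t u ≤ hit (D.KP T) (fun u => u.1 D.xE ∈ Z ∧ u.2.1 = D.xE) t u := by
  have hMK := KP_MK h
  induction t generalizing u with
  | zero =>
    rw [hit_zero, hit_zero]
    by_cases hy : u.2.1 = D.xE
    · rw [if_pos hy, if_pos ⟨hu, hy⟩]
    · rw [if_neg hy, if_neg (fun h' => hy h'.2)]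
  | succ t ih =>
    rw [hit_succ, hit_succ]
    by_cases hy : u.2.1 = D.xE
    · rw [if_pos hy, if_pos ⟨hu, hy⟩]
    · rw [if_neg hy, if_neg (fun h' => hy h'.2)]
      set F := hit (D.KP T) (fun u => u.2.1 = D.xE) t with hF
      set G := hit (D.KP T) (fun u => u.1 D.xE ∈ Z ∧ u.2.1 = D.xE) t with hG
      have e1 : D.KP T F u = D.KP T (fun v => if v.1 D.xE ∈ Z then F v else G v) u := by
        show Op T D.W0 (D.CC0 T) D.wP F u = Op T D.W0 (D.CC0 T) D.wP (fun v => if v.1 D.xE ∈ Z then F v else G v) u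
        refine Op_congr (fun y e => ?_) (fun s _ => ?_)
        · simp only; rw [if_pos hu]
        · have hm : mv u.1 u.2.1 s D.xE ∈ Z := by
            rw [mv_at, if_neg (fun h' : D.xE = u.2.1 => hy h'.symm)]; exact hu
          simp only [if_pos hm]
      rw [e1]
      refine hMK.mono _ _ (fun v => ?_) u
      by_cases hv : v.1 D.xE ∈ Z
      · rw [if_pos hv]; exact ih v hv
      · rw [if_neg hv]

/-- Good states. -/
def PD.Good (D : PD Q ι) (u : LV Q) : Prop := D.fE (u.1 D.xE) = 0 ∧ 4 ≤ D.lev (u.1 (D.site D.x0))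

/-- The clock rests, the walker is at the main site, whose lamp has level at least `j`. -/
def PD.Rj (D : PD Q ι) (Z : Finset Q) (j : ℕ) (u : LV Q) : Prop := u.1 D.xE ∈ Z ∧ u.2.1 = D.site D.x0 ∧ j ≤ D.lev (u.1 (D.site D.x0))

theorem hit_R0 (h : D.OKN T kp t0 d dp L τ) (Z : Finset Q) (u : LV Q) (hu : u.1 D.xE ∈ Z ∧ u.2.1 = D.xE) :
    1 / (2 * D.CC0 T) ≤ hit (D.KP T) (D.Rj Z 0) 1 u := by
  have ho := h.ok.ok
  have hC := D.CC0_pos ho
  have hW := ho.W1
  have hMK := KP_MK ho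
  refine le_trans ?_ (hit_step hMK 0 u)
  have h1 := Op_lb1 (D.AW_P ho) ho.card (hit_nonneg hMK (S := D.Rj Z 0) 0) u (ho.inv t0 h.ok.t0mem)
  have h2 : hit (D.KP T) (D.Rj Z 0) 0 (u.1, u.2.1 * t0⁻¹, u.2.2) = 1 := by
    apply hit_on
    refine ⟨hu.1, ?_, Nat.zero_le _⟩
    simp only
    rw [hu.2, ← h.ok.adj]; group
  rw [h2, mul_one] at h1
  refine le_trans ?_ h1
  exact div_le_div_of_nonneg_right hW (by positivity)

theorem hit_Rj (h : D.OKN T kp t0 d dp L τ) (hL : 4 ≤ L) (Z : Finset Q) {j : ℕ} (hj : j < 4) (u : LV Q) (hu : D.Rj Z j u) :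
    1 / (2 * D.CC0 T) ≤ hit (D.KP T) (D.Rj Z (j + 1)) 1 u := by
  have ho := h.ok.ok
  have hC := D.CC0_pos ho
  have hC1 := CC0_ge1 ho
  have hMK := KP_MK ho
  obtain ⟨hu1, hu2, hu3⟩ := hu
  by_cases hlev : j + 1 ≤ D.lev (u.1 (D.site D.x0))
  · rw [hit_on 1 (show D.Rj Z (j + 1) u from ⟨hu1, hu2, hlev⟩), div_le_one (by positivity)]
    linarith
  · have hle : D.lev (u.1 (D.site D.x0)) ≤ L := by omega
    -- an upward step exists
    have hup := h.lamp.up_ge _ hle
    have hdp0 : 0 < dp := by have := h.hd; have := h.hdp; linarith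
    have hpos : 0 < (T.filter (fun t => D.lev (u.1 (D.site D.x0) * t) = D.lev (u.1 (D.site D.x0)) + 1)).card := by
      by_contra hc
      push Not at hc
      have : (T.filter (fun t => D.lev (u.1 (D.site D.x0) * t) = D.lev (u.1 (D.site D.x0)) + 1)).card = 0 := by omega
      rw [this] at hup
      simp at hup
      linarith
    obtain ⟨t, ht⟩ := Finset.card_pos.mp hpos
    obtain ⟨htT, htl⟩ := Finset.mem_filter.mp ht
    refine le_trans ?_ (hit_step hMK 0 u)
    have h1 := Op_lb2 (D.AW_P ho) ho.card (hit_nonneg hMK (S := D.Rj Z (j + 1)) 0) u htT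
    have h2 : hit (D.KP T) (D.Rj Z (j + 1)) 0 (mv u.1 u.2.1 t, u.2.1, u.2.2) = 1 := by
      apply hit_on
      refine ⟨?_, hu2, ?_⟩
      · simp only
        rw [mv_at, if_neg (fun h' : D.xE = u.2.1 => ho.xE D.x0 (by rw [← hu2, ← h'])) ]
        exact hu1
      · simp only
        rw [mv_at, if_pos hu2.symm, htl]
        omega
    rw [h2, mul_one] at h1
    refine le_trans ?_ h1
    exact div_le_div_of_nonneg_right (D.wP_ge ho u t) (by positivity)

/-- From the resting clock to a good state in five steps. -/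
theorem hit_Good5 (h : D.OKN T kp t0 d dp L τ) (hL : 4 ≤ L) (Z : Finset Q) (hZ : ∀ q ∈ Z, D.fE q = 0) (u : LV Q)
    (hu : u.1 D.xE ∈ Z ∧ u.2.1 = D.xE) :
    (1 / (2 * D.CC0 T)) ^ 5 ≤ hit (D.KP T) D.Good 5 u := by
  have ho := h.ok.ok
  have hC := D.CC0_pos ho
  have hMK := KP_MK ho
  set p := 1 / (2 * D.CC0 T) with hp
  have hp0 : 0 ≤ p := by rw [hp]; positivity
  have step : ∀ j, j ≤ 4 → ∀ v, D.Rj Z (4 - j) v → p ^ j ≤ hit (D.KP T) (D.Rj Z 4) j v := by
    intro j
    induction j with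
    | zero => intro _ v hv; rw [hit_on 0 hv]; simp
    | succ j ih =>
      intro hj v hv
      have h1 := hit_comp hMK (S := D.Rj Z (4 - j)) (S' := D.Rj Z 4) (β := p ^ j) j (fun x hx => ih (by omega) x hx) (by positivity) 1 v
      have e1 : 4 - j = (4 - (j + 1)) + 1 := by omega
      have h2 := hit_Rj h hL Z (j := 4 - (j + 1)) (by omega) v hv
      rw [← e1] at h2
      have e2 : 1 + j = j + 1 := by ring
      rw [e2] at h1
      refine le_trans ?_ h1
      rw [pow_succ]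
      exact mul_le_mul_of_nonneg_left h2 (by positivity)
  have h1 := hit_comp hMK (S := D.Rj Z 0) (S' := D.Rj Z 4) (β := p ^ 4) 4 (fun x hx => step 4 le_rfl x hx) (by positivity) 1 u
  have h2 := hit_R0 h Z u hu
  have h3 : hit (D.KP T) (D.Rj Z 4) (1 + 4) u ≤ hit (D.KP T) D.Good 5 u :=
    hit_set_mono hMK (fun x hx => ⟨hZ _ hx.1, hx.2.2⟩) 5 u
  refine le_trans ?_ (h1.trans h3)
  rw [pow_succ]
  exact mul_le_mul_of_nonneg_left h2 (by positivity)

/-- The total hitting bound. -/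
theorem hit_Good (h : D.OKN T kp t0 d dp L τ) (hL : 4 ≤ L) (hn10 : 10 ≤ Fintype.card Q) {t s s' J J' : ℕ}
    (ht : 16 * D.CC0 T * ((Fintype.card Q : ℝ) * Real.log (Fintype.card Q)) ≤ t) (hs : 14 * D.CC0 T * Fintype.card Q ≤ s)
    (hs' : 14 * D.CC0 T ≤ s') (Z : Finset Q) (hZ : ∀ q ∈ Z, D.fE q = 0)
    (hJ : (J : ℝ) * (Z.card / Fintype.card Q) ≤ 1 / 4) (hJ' : (J' : ℝ) * (1 / Fintype.card Q) ≤ 1 / 4)
    (hJ'2 : 1 / 4 ≤ ((J' : ℝ) + 1) * (1 / Fintype.card Q)) (u : LV Q) :
    (1 / 8 * (1 / (2 * D.CC0 T)) ^ 5) * (((J : ℝ) + 1) * (Z.card / Fintype.card Q) / 2)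
      ≤ hit (D.KP T) D.Good ((2 * t + J * s) + ((2 * t + J' * s') + 5)) u := by
  have ho := h.ok.ok
  have hC := D.CC0_pos ho
  have hMK := KP_MK ho
  have hg := h.lamp.gap
  have h8 : 8 ≤ T.card := by
    have h1 := h.lamp.card
    have h2 := h.hd
    have : (8 : ℝ) ≤ T.card := by rw [h1]; linarith
    exact_mod_cast this
  have : Nonempty (LV Q) := ⟨(fun _ => 1, 1, 1)⟩
  -- the position
  have hy : ∀ v : LV Q, 1 / 8 ≤ hit (D.KP T) (fun u => u.2.1 = D.xE) (2 * t + J' * s') v := by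
    intro v
    have h1 := (SM_y ho hg h8 hn10 ht hs' D.xE).hit J' hJ' v
    have h2 := (hit_EY (D := D) (T := T) (S := fun u => u.2.1 = D.xE) (fun u v _ h2 => by rw [h2]) (2 * t + J' * s')).1
    rw [h2]
    linarith
  -- from the resting clock to good
  have hZgood : ∀ v : LV Q, v.1 D.xE ∈ Z → 1 / 8 * (1 / (2 * D.CC0 T)) ^ 5 ≤ hit (D.KP T) D.Good ((2 * t + J' * s') + 5) v := by
    intro v hv
    have h1 := hit_comp hMK (S := fun u => u.1 D.xE ∈ Z ∧ u.2.1 = D.xE) (S' := D.Good) (β := (1 / (2 * D.CC0 T)) ^ 5) 5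
      (fun x hx => hit_Good5 h hL Z hZ x hx) (by positivity) (2 * t + J' * s') v
    have h2 := hit_cross ho Z (2 * t + J' * s') v hv
    have h3 := hy v
    refine le_trans ?_ h1
    rw [mul_comm]
    exact mul_le_mul_of_nonneg_left (h3.trans h2) (by positivity)
  have h1 := hit_comp hMK (S := fun u => u.1 D.xE ∈ Z) (S' := D.Good) (β := 1 / 8 * (1 / (2 * D.CC0 T)) ^ 5) ((2 * t + J' * s') + 5)
    (fun x hx => hZgood x hx) (by positivity) (2 * t + J * s) u
  refine le_trans ?_ h1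
  apply mul_le_mul_of_nonneg_left _ (by positivity)
  have h2 := (SM_E ho hg h8 hn10 ht hs Z).hit J hJ u
  have h3 := (hit_EY (D := D) (T := T) (S := fun u => u.1 D.xE ∈ Z) (fun u v h1 _ => by rw [h1]) (2 * t + J * s)).1
  rw [h3]
  exact h2

/-! ### Transfer -/

section full

variable {h1 : (1 : Q) ∉ T} {hinv : ∀ t ∈ T, t⁻¹ ∈ T}

theorem walk_mono {V : Type} [Fintype V] {G : SimpleGraph V} {c : V → V → ℝ} {C : ℝ} (h : CC G c C) {F F' : V → ℝ}
    (hF : ∀ x, F x ≤ F' x) (x : V) : (walk G c).mulVec F x ≤ (walk G c).mulVec F' x := by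
  unfold Matrix.mulVec dotProduct
  exact Finset.sum_le_sum (fun y _ => mul_le_mul_of_nonneg_left (hF y) (h.walk_nonneg x y))

theorem walk_const {V : Type} [Fintype V] {G : SimpleGraph V} {c : V → V → ℝ} {C : ℝ} (h : CC G c C) (k : ℝ) (x : V) :
    (walk G c).mulVec (fun _ => k) x = k := by
  have h2 := h.one x
  unfold Matrix.mulVec dotProduct at h2 ⊢
  simp only [mul_one] at h2
  rw [← Finset.sum_mul, h2, one_mul]

theorem walk_add {V : Type} [Fintype V] {G : SimpleGraph V} {c : V → V → ℝ} (F F' : V → ℝ) (x : V) :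
    (walk G c).mulVec (fun y => F y + F' y) x = (walk G c).mulVec F x + (walk G c).mulVec F' x := by
  unfold Matrix.mulVec dotProduct
  rw [← Finset.sum_add_distrib]
  apply Finset.sum_congr rfl; intro y _; ring

theorem pw_bounds {V : Type} [Fintype V] {G : SimpleGraph V} {c : V → V → ℝ} {C : ℝ} (h : CC G c C) (t : ℕ) {F : V → ℝ}
    (hF : ∀ x, 0 ≤ F x ∧ F x ≤ 1) (x : V) : 0 ≤ (pw G c t).mulVec F x ∧ (pw G c t).mulVec F x ≤ 1 := by
  induction t generalizing x with
  | zero => rw [pw_zero]; exact hF x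
  | succ t ih =>
    rw [pw_succ']
    constructor
    · have h2 := walk_mono h (F := fun _ => 0) (fun y => (ih y).1) x
      rwa [walk_const h] at h2
    · have h2 := walk_mono h (F' := fun _ => 1) (fun y => (ih y).2) x
      rwa [walk_const h] at h2

/-- Total variation from test functions. -/
theorem CC.mixed_of {V : Type} [Fintype V] {G : SimpleGraph V} {c : V → V → ℝ} {C : ℝ} (h : CC G c C) {t : ℕ} {B : ℝ}
    (hB : ∀ F : V → ℝ, (∀ x, 0 ≤ F x ∧ F x ≤ 1) → ∀ x, av F - B ≤ (pw G c t).mulVec F x) : MixedBy G c B t := by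
  intro x
  have hst := h.sum_stat x
  refine tv_le (by rw [hst]; exact h.row t x) (fun A => ?_)
  have h2 := hB (fun y => if A y then 1 else 0) (fun y => by split_ifs <;> norm_num) x
  have e1 : ∑ y, (if A y then stat G c y - (walk G c ^ t) x y else 0)
      = av (fun y => if A y then (1 : ℝ) else 0) - (pw G c t).mulVec (fun y => if A y then 1 else 0) x := by
    unfold av Matrix.mulVec dotProduct pw
    rw [Finset.sum_div, ← Finset.sum_sub_distrib]
    apply Finset.sum_congr rfl; intro y _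
    rw [h.stat_eq]
    by_cases hA : A y
    · simp only [if_pos hA]; ring
    · simp only [if_neg hA]; ring
  rw [e1]
  linarith

theorem CC.mixed_ind {V : Type} [Fintype V] {G : SimpleGraph V} {c : V → V → ℝ} {C : ℝ} (h : CC G c C) {t : ℕ} {ε : ℝ}
    (hm : MixedBy G c ε t) (A : V → Prop) (x : V) : (pw G c t).mulVec (ind A) x - av (ind A) ≤ ε := by
  have hst := h.sum_stat x
  have h2 := tv_ge (p := fun y => (walk G c ^ t) x y) (q := stat G c) (by rw [hst]; exact h.row t x) (fun y => ¬ A y)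
  have e1 : ∑ y, (if ¬ A y then stat G c y - (walk G c ^ t) x y else 0) = (pw G c t).mulVec (ind A) x - av (ind A) := by
    have e2 : ∀ y, (if ¬ A y then stat G c y - (walk G c ^ t) x y else 0)
        = (stat G c y - (walk G c ^ t) x y) + ((walk G c ^ t) x y * ind A y - ind A y / Fintype.card V) := by
      intro y
      rw [h.stat_eq]
      unfold ind
      by_cases hA : A y
      · rw [if_neg (not_not.mpr hA), if_pos hA]; ring
      · rw [if_pos hA, if_neg hA]; ring
    rw [Finset.sum_congr rfl (fun y _ => e2 y), Finset.sum_add_distrib, Finset.sum_sub_distrib, Finset.sum_sub_distrib, hst, h.row,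
      sub_self, zero_add, ← Finset.sum_div]
    rfl
  refine le_trans (le_of_eq ?_) (h2.trans (hm x))
  rw [← e1]
  apply Finset.sum_congr rfl; intro y _
  by_cases hA : A y
  · rw [if_neg (not_not.mpr hA), if_neg (not_not.mpr hA)]
  · rw [if_pos hA, if_pos hA]

/-- The perturbed walk on functions which do not depend on the bit. -/
theorem walk_fst {cw : LV Q → LV Q → ℝ} {W0 C : ℝ} {w : LV Q → Q → ℝ} (h : CW T cw W0 C w) (hT : 0 < T.card) (F : LV Q → ℝ)
    (u : LV Q) (b : Bool) : (walk (lampB T h1 hinv) (cB T h1 hinv cw C)).mulVec (fun p => F p.1) (u, b) = Op T W0 C w F u := by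
  rw [h.mulVec hT]; simp

/-- Rows of unlocked states agree. -/
theorem row_unlocked (h : D.OK T) (F : LV Q × Bool → ℝ) (u : LV Q) (b : Bool) (hu : ¬ D.lock u.1) :
    (walk (lampB T h1 hinv) (cB T h1 hinv D.cwP (D.CC0 T))).mulVec F (u, b)
      = (walk (lampB T h1 hinv) (cB T h1 hinv D.cwN (D.CC0 T))).mulVec F (u, b) := by
  rw [(D.CW_P h).mulVec h.card, (D.CW_N h).mulVec h.card]
  have e1 : ∀ t, D.wP u t = D.wy u.2.1 := by
    intro t; unfold PD.wP; rw [if_neg (fun h' => hu h'.1)]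
  unfold Op
  simp only [e1]

/-- Comparison of the two walks. -/
theorem trans_PN (h : D.OK T) (t : ℕ) {F : LV Q × Bool → ℝ} (hF : ∀ x, 0 ≤ F x ∧ F x ≤ 1) (u : LV Q) (b : Bool) :
    (pw (lampB T h1 hinv) (cB T h1 hinv D.cwN (D.CC0 T)) t).mulVec F (u, b) - hit (D.KN T) (fun u => D.lock u.1) t u
      ≤ (pw (lampB T h1 hinv) (cB T h1 hinv D.cwP (D.CC0 T)) t).mulVec F (u, b) := by
  have hN := (D.CW_N h).CC (h1 := h1) (hinv := hinv) h.card
  have hP := (D.CW_P h).CC (h1 := h1) (hinv := hinv) h.card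
  have hMK := KN_MK h
  induction t generalizing u b with
  | zero =>
    rw [pw_zero, pw_zero]
    have := hit_nonneg hMK (S := fun u => D.lock u.1) 0 u
    linarith
  | succ t ih =>
    by_cases hu : D.lock u.1
    · rw [hit_on (S := fun u : LV Q => D.lock u.1) _ hu]
      have a1 := (pw_bounds hN (t + 1) hF (u, b)).2
      have a2 := (pw_bounds hP (t + 1) hF (u, b)).1
      linarith
    · rw [pw_succ', pw_succ', row_unlocked h _ u b hu, hit_succ, if_neg hu]
      have h2 := walk_mono hN (F := (pw (lampB T h1 hinv) (cB T h1 hinv D.cwN (D.CC0 T)) t).mulVec F)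
        (F' := fun p => (pw (lampB T h1 hinv) (cB T h1 hinv D.cwP (D.CC0 T)) t).mulVec F p + hit (D.KN T) (fun u => D.lock u.1) t p.1)
        (fun p => by have := ih p.1 p.2; linarith) (u, b)
      rw [walk_add, walk_fst (D.CW_N h) h.card] at h2
      have e1 : Op T D.W0 (D.CC0 T) (fun u _ => D.wy u.2.1) (hit (D.KN T) (fun u => D.lock u.1) t) u
          = D.KN T (hit (D.KN T) (fun u => D.lock u.1) t) u := rfl
      rw [e1] at h2
      linarith

theorem sum_pwP (h : D.OK T) (t : ℕ) (F : LV Q × Bool → ℝ) :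
    av ((pw (lampB T h1 hinv) (cB T h1 hinv D.cwP (D.CC0 T)) t).mulVec F) = av F := by
  unfold av
  rw [sum_pw ((D.CW_P h).CC h.card)]

/-- Mixing of the perturbed walk from a hitting bound. -/
theorem mix_P (h : D.OK T) {T0 : ℕ} (hgood : ∀ u, D.Good u → ∀ b, ∀ F : LV Q × Bool → ℝ, (∀ x, 0 ≤ F x ∧ F x ≤ 1) →
      av F - 1 / 2 ≤ (pw (lampB T h1 hinv) (cB T h1 hinv D.cwP (D.CC0 T)) T0).mulVec F (u, b))
    (s : ℕ) {F : LV Q × Bool → ℝ} (hF : ∀ x, 0 ≤ F x ∧ F x ≤ 1) (u : LV Q) (b : Bool) :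
    av F - (1 - 1 / 2 * hit (D.KP T) D.Good s u) ≤ (pw (lampB T h1 hinv) (cB T h1 hinv D.cwP (D.CC0 T)) (s + T0)).mulVec F (u, b) := by
  have hP := (D.CW_P h).CC (h1 := h1) (hinv := hinv) h.card
  have hMK := KP_MK h
  have hav : av F ≤ 1 := by
    have : Nonempty (LV Q × Bool) := ⟨(u, b)⟩
    have hV : (0 : ℝ) < Fintype.card (LV Q × Bool) := by exact_mod_cast Fintype.card_pos
    have h2 : av F ≤ av (fun _ : LV Q × Bool => (1 : ℝ)) := av_mono (fun x => (hF x).2)
    refine h2.trans (le_of_eq ?_)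
    unfold av
    rw [Finset.sum_const, Finset.card_univ, nsmul_eq_mul, mul_one, div_self hV.ne']
  induction s generalizing u b with
  | zero =>
    rw [hit_zero, zero_add]
    split_ifs with hu
    · have := hgood u hu b F hF; linarith
    · have := (pw_bounds hP T0 hF (u, b)).1; linarith
  | succ s ih =>
    by_cases hu : D.Good u
    · rw [hit_on _ hu]
      have e1 : s + 1 + T0 = T0 + (s + 1) := by ring
      rw [e1, pw_add]
      have h2 := hgood u hu b _ (fun x => pw_bounds hP (s + 1) hF x)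
      rw [sum_pwP h] at h2
      linarith
    · have e1 : s + 1 + T0 = (s + T0) + 1 := by ring
      rw [e1, pw_succ', hit_succ, if_neg hu]
      have h2 := walk_mono hP (F := fun p => (av F - 1) + (1 / 2) * hit (D.KP T) D.Good s p.1)
        (F' := (pw (lampB T h1 hinv) (cB T h1 hinv D.cwP (D.CC0 T)) (s + T0)).mulVec F)
        (fun p => by have := ih p.1 p.2; linarith) (u, b)
      rw [walk_fst (D.CW_P h) h.card (fun v => (av F - 1) + (1 / 2) * hit (D.KP T) D.Good s v),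
        Op_add _ _ _ (fun _ => av F - 1) (fun v => (1 / 2) * hit (D.KP T) D.Good s v), Op_one _ _ _ h.card,
        Op_smul] at h2
      have e2 : Op T D.W0 (D.CC0 T) D.wP (hit (D.KP T) D.Good s) u = D.KP T (hit (D.KP T) D.Good s) u := rfl
      rw [e2] at h2
      linarith

/-- The good states mix. -/
theorem good_mix (h : D.OKN T kp t0 d dp L τ) (hn10 : 10 ≤ Fintype.card Q) {t : ℕ}
    (ht : 16 * D.CC0 T * ((Fintype.card Q : ℝ) * Real.log (Fintype.card Q)) ≤ t)
    (ht2 : ((2 * t : ℕ) : ℝ) * (1 / (Fintype.card Q * 2 ^ (L / 2))) ≤ 1 / 8) (u : LV Q) (hu : D.Good u) (b : Bool)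
    (F : LV Q × Bool → ℝ) (hF : ∀ x, 0 ≤ F x ∧ F x ≤ 1) :
    av F - 1 / 2 ≤ (pw (lampB T h1 hinv) (cB T h1 hinv D.cwP (D.CC0 T)) (2 * t)).mulVec F (u, b) := by
  have ho := h.ok.ok
  have h8 : 8 ≤ T.card := by
    have h1 := h.lamp.card
    have h2 := h.hd
    have : (8 : ℝ) ≤ T.card := by rw [h1]; linarith
    exact_mod_cast this
  have hn : (10 : ℝ) ≤ Fintype.card Q := by exact_mod_cast hn10
  have a1 := trans_PN (h1 := h1) (hinv := hinv) ho (2 * t) hF u b
  have a2 := hit_lock h (kap := 1 / (2 * d * D.W0)) rfl (2 * t) u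
  have a3 := (FN_bounds h (kap := 1 / (2 * d * D.W0)) rfl u).2
  have a4 : D.ps (u.1 (D.site D.x0)) (u.1 D.xE) ≤ 1 / 16 := by
    unfold PD.ps
    rw [hu.1, pow_zero]
    apply one_div_le_one_div_of_le (by norm_num)
    calc (16 : ℝ) = 2 ^ 4 := by norm_num
      _ ≤ _ := pow_le_pow_right₀ (by norm_num) hu.2
  have a5 := (pwN_lo (h1 := h1) (hinv := hinv) ho (KN_unif ho h.lamp.gap h8 (by omega) ht) (fun x => (hF x).1) (u, b)).1
  have a6 : hit (D.KN T) (fun u => D.lock u.1) (2 * t) u ≤ 1 / 4 := by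
    have e : hit (D.KN T) (fun u => D.lock u.1) (2 * t) u ≤ D.FN T d (1 / (2 * d * D.W0)) τ u + ((2 * t : ℕ) : ℝ) * (1 / (Fintype.card Q * 2 ^ (L / 2))) := a2
    linarith
  have hav0 : 0 ≤ av F := av_nonneg (fun x => (hF x).1)
  have hav : av F ≤ 1 := by
    have : Nonempty (LV Q × Bool) := ⟨(u, b)⟩
    have hV : (0 : ℝ) < Fintype.card (LV Q × Bool) := by exact_mod_cast Fintype.card_pos
    have h2 : av F ≤ av (fun _ : LV Q × Bool => (1 : ℝ)) := av_mono (fun x => (hF x).2)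
    refine h2.trans (le_of_eq ?_)
    unfold av
    rw [Finset.sum_const, Finset.card_univ, nsmul_eq_mul, mul_one, div_self hV.ne']
  have a7 : 10 / (Fintype.card Q : ℝ) ^ 2 ≤ 1 / 10 := by
    rw [div_le_div_iff₀ (by positivity) (by norm_num)]; nlinarith
  have a8 : 10 / (Fintype.card Q : ℝ) ^ 2 * av F ≤ 1 / 10 * 1 := mul_le_mul a7 hav hav0 (by norm_num)
  linarith

/-- The upper bound for the perturbed walk. -/
theorem upper_P (h : D.OKN T kp t0 d dp L τ) (hn10 : 10 ≤ Fintype.card Q) {t s : ℕ} {β : ℝ}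
    (ht : 16 * D.CC0 T * ((Fintype.card Q : ℝ) * Real.log (Fintype.card Q)) ≤ t)
    (ht2 : ((2 * t : ℕ) : ℝ) * (1 / (Fintype.card Q * 2 ^ (L / 2))) ≤ 1 / 8)
    (hβ : ∀ u, β ≤ hit (D.KP T) D.Good s u) :
    MixedBy (lampB T h1 hinv) (cB T h1 hinv D.cwP (D.CC0 T)) (1 - β / 2) (s + 2 * t) := by
  apply ((D.CW_P h.ok.ok).CC h.ok.ok.card).mixed_of
  intro F hF x
  obtain ⟨u, b⟩ := x
  have h2 := mix_P (h1 := h1) (hinv := hinv) h.ok.ok (fun u hu b F hF => good_mix h hn10 ht ht2 u hu b F hF) s hF u b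
  have := hβ u
  linarith

/-- The lower bound for the perturbed walk. -/
theorem lower_P (h : D.OK T) {N : ℕ} {u : LV Q} (hu : 3 / 4 ≤ (KO T D.W0 (D.CC0 T) D.wP D.A' ^ N) D.iA u)
    (hball : 4 * (Finset.univ.filter (fun q => 2 * D.lev q ≤ D.P.L)).card ≤ Fintype.card Q) (hAB : ∀ f, D.A' f → 2 * D.lev (f (D.site D.x0)) ≤ D.P.L)
    {t : ℕ} (ht : t ≤ N) {ε : ℝ} (hε : ε < 1 / 2) : ¬ MixedBy (lampB T h1 hinv) (cB T h1 hinv D.cwP (D.CC0 T)) ε t := by
  have hP := (D.CW_P h).CC (h1 := h1) (hinv := hinv) h.card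
  have hAW := D.AW_P h
  have hT := h.card
  intro hmix
  -- survival is monotone
  have hmono : ∀ r, ∀ v, (KO T D.W0 (D.CC0 T) D.wP D.A' ^ (r + 1)) D.iA v ≤ (KO T D.W0 (D.CC0 T) D.wP D.A' ^ r) D.iA v := by
    intro r v
    rw [pow_succ, Module.End.mul_apply]
    apply hAW.KO_pow_mono r
    intro w
    rw [KO_apply]
    unfold PD.iA
    rw [kl_apply D.A' (fun _ => (1 : ℝ)) w]
    split_ifs
    · refine (hAW.mono (G := fun _ => (1 : ℝ)) (fun w => ?_) w).trans ?_
      · rw [kl_apply, kl_apply]; split_ifs <;> norm_num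
      · rw [Op_one _ _ _ hT]
    · exact le_rfl
  have hmono2 : (KO T D.W0 (D.CC0 T) D.wP D.A' ^ N) D.iA u ≤ (KO T D.W0 (D.CC0 T) D.wP D.A' ^ t) D.iA u := by
    induction N, ht using Nat.le_induction with
    | base => exact le_rfl
    | succ N _ ih =>
      have h3 := hmono N u
      exact h3.trans (ih (hu.trans h3))
  -- compare with the walk
  have hiA0 : ∀ v, 0 ≤ D.iA v := fun v => by unfold PD.iA; rw [kl_apply]; split_ifs <;> norm_num
  have hcmp : (KO T D.W0 (D.CC0 T) D.wP D.A' ^ t) D.iA u ≤ (D.KP T ^ t) (ind (fun v => 2 * D.lev (v.1 (D.site D.x0)) ≤ D.P.L)) u := by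
    refine (hAW.KO_pow_le hT t hiA0 u).trans ?_
    apply hAW.OpL_pow_mono t
    intro v
    unfold PD.iA ind
    rw [kl_apply]
    by_cases hv : D.A' v.1
    · rw [if_pos hv, if_pos (hAB _ hv)]
    · rw [if_neg hv]; split_ifs <;> norm_num
  have hpw : ∀ (F : LV Q → ℝ) (t : ℕ) (v : LV Q) (b : Bool), (pw (lampB T h1 hinv) (cB T h1 hinv D.cwP (D.CC0 T)) t).mulVec (fun p => F p.1) (v, b)
      = (D.KP T ^ t) F v := by
    intro F t
    induction t generalizing F with
    | zero => intro v b; rw [pw_zero]; simp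
    | succ t ih =>
      intro v b
      rw [pw_succ]
      have e1 : (walk (lampB T h1 hinv) (cB T h1 hinv D.cwP (D.CC0 T))).mulVec (fun p => F p.1) = fun p => (D.KP T F) p.1 := by
        ext ⟨w, b'⟩
        rw [walk_fst (D.CW_P h) h.card]; rfl
      rw [e1, ih (D.KP T F), pow_succ, Module.End.mul_apply]
  -- the stationary value
  obtain ⟨χ, hχ⟩ : ∃ χ : Q → ℝ, χ = fun q => if 2 * D.lev q ≤ D.P.L then (1 : ℝ) else 0 := ⟨_, rfl⟩
  have hind : ∀ v : LV Q, ind (fun v : LV Q => 2 * D.lev (v.1 (D.site D.x0)) ≤ D.P.L) v = χ (v.1 (D.site D.x0)) := by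
    intro v; unfold ind; rw [hχ]
    by_cases hq : 2 * D.lev (v.1 (D.site D.x0)) ≤ D.P.L
    · simp only [if_pos hq]
    · simp only [if_neg hq]
  have hn0 : (0 : ℝ) < Fintype.card Q := by exact_mod_cast Fintype.card_pos
  have : Nonempty (LV Q) := ⟨u⟩
  have hV : (0 : ℝ) < Fintype.card (LV Q) := by exact_mod_cast Fintype.card_pos
  have hstat : av (ind (fun v : LV Q => 2 * D.lev (v.1 (D.site D.x0)) ≤ D.P.L)) ≤ 1 / 4 := by
    unfold av
    rw [Finset.sum_congr rfl (fun u _ => hind u)]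
    have h2 := sum_LV_f χ (D.site D.x0)
    have h3 : ∑ q, χ q = ((Finset.univ.filter (fun q => 2 * D.lev q ≤ D.P.L)).card : ℝ) := by rw [hχ, Finset.sum_boole]
    have h4 : 4 * ∑ q, χ q ≤ Fintype.card Q := by rw [h3]; exact_mod_cast hball
    rw [div_le_div_iff₀ hV (by norm_num)]
    have h5 : (Fintype.card Q : ℝ) * (∑ u : LV Q, χ (u.1 (D.site D.x0)) * 4) ≤ Fintype.card Q * (1 * Fintype.card (LV Q)) := by
      rw [← Finset.sum_mul]
      nlinarith
    rw [← Finset.sum_mul] at h5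
    exact le_of_mul_le_mul_left h5 hn0
  -- conclusion
  have hm := hP.mixed_ind hmix (fun y => 2 * D.lev (y.1.1 (D.site D.x0)) ≤ D.P.L) (u, true)
  have e1 : ind (fun y : LV Q × Bool => 2 * D.lev (y.1.1 (D.site D.x0)) ≤ D.P.L)
      = fun p => (ind (fun v : LV Q => 2 * D.lev (v.1 (D.site D.x0)) ≤ D.P.L)) p.1 := rfl
  rw [e1, hpw, av_fst] at hm
  linarith

end full

end PC

end Pool.Agent.H984
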