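import Pool.Agent.H984.PcGr

/-!
H984: the perturbed weights, killed operators, and the comparison with the fully locked ratchet.
-/

set_option autoImplicit false

open Classical

namespace Pool.Agent.H984

namespace PC

variable {Q : Type} [Group Q] [Fintype Q] {ι : Type} [Fintype ι]

/-- The data of the perturbation. -/
structure PD (Q ι : Type) where
  P : RP ι Q
  lev : Q → ℕ
  site : ι → Q
  x0 : ι
  x1 : ι
  xE : Q
  fE : Q → ℕ
  W0 : ℝ

namespace PD

variable (D : PD Q ι)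

/-- The locked configurations. -/
def lock (f : Q → Q) : Prop := D.lev (f (D.site D.x0)) < D.fE (f D.xE)

/-- The lamp weights of the fully locked ratchet. -/
noncomputable def wL (u : LV Q) (t : Q) : ℝ :=
  if u.2.1 = D.xE then 1 else if h : ∃ x, D.site x = u.2.1 then lw D.P D.lev (cfg D.site u.1) h.choose t u.2.2 else D.P.K

/-- The neutral lamp weights. -/
noncomputable def wy (y : Q) : ℝ := if y = D.xE then 1 else D.P.K

/-- The lamp weights of the perturbation. -/
noncomputable def wP (u : LV Q) (t : Q) : ℝ :=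
  if D.lock u.1 ∧ D.lock (mv u.1 u.2.1 t) then D.wL u t else D.wy u.2.1

/-- Edge weights of the perturbation. -/
noncomputable def cwP (u v : LV Q) : ℝ :=
  if u.1 = v.1 then D.W0
  else if u.2.1 = D.xE ∨ v.2.1 = D.xE then 1
  else if (∃ x, D.site x = u.2.1) ∧ (∃ x, D.site x = v.2.1) ∧ D.lock u.1 ∧ D.lock v.1 ∧ ¬ hiE D.P D.lev D.site u v then 1
  else D.P.K

/-- Neutral edge weights. -/
noncomputable def cwN (u v : LV Q) : ℝ :=
  if u.1 = v.1 then D.W0
  else if u.2.1 = D.xE ∨ v.2.1 = D.xE then 1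
  else D.P.K

/-- The total conductance. -/
noncomputable def CC0 (T : Finset Q) : ℝ := 2 * T.card * D.W0 + T.card * D.P.K + 1

end PD

/-- Basic hypotheses on the data. -/
structure PD.OK (D : PD Q ι) (T : Finset Q) : Prop where
  one : (1 : Q) ∉ T
  inv : ∀ t ∈ T, t⁻¹ ∈ T
  card : 0 < T.card
  K1 : 1 ≤ D.P.K
  W1 : 1 ≤ D.W0
  inj : Function.Injective D.site
  xE : ∀ x, D.site x ≠ D.xE

variable {T : Finset Q} {D : PD Q ι}

theorem PD.wL_site (h : D.OK T) (f : Q → Q) (x : ι) (e t : Q) :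
    D.wL (f, D.site x, e) t = lw D.P D.lev (cfg D.site f) x t e := by
  unfold PD.wL
  have hex : ∃ x', D.site x' = D.site x := ⟨x, rfl⟩
  simp only
  rw [if_neg (h.xE x), dif_pos hex]
  have : hex.choose = x := h.inj hex.choose_spec
  rw [this]

theorem PD.wL_off (h : D.OK T) (f : Q → Q) {y : Q} (hy : ∀ x, D.site x ≠ y) (hE : y ≠ D.xE) (e t : Q) :
    D.wL (f, y, e) t = D.P.K := by
  unfold PD.wL
  simp only
  rw [if_neg hE, dif_neg (fun ⟨x, hx⟩ => hy x hx)]

theorem PD.wL_E (f : Q → Q) (e t : Q) : D.wL (f, D.xE, e) t = 1 := by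
  unfold PD.wL; simp

theorem PD.wL_ge (h : D.OK T) (u : LV Q) (t : Q) : 1 ≤ D.wL u t := by
  unfold PD.wL
  split_ifs
  · exact le_rfl
  · unfold lw
    split_ifs
    · exact le_rfl
    · exact D.P.wt_ge h.K1 _ _ _ _
  · exact h.K1

theorem PD.wL_le (h : D.OK T) (u : LV Q) (t : Q) : D.wL u t ≤ D.wy u.2.1 := by
  unfold PD.wL PD.wy
  split_ifs
  · exact le_rfl
  · exact lw_le h.K1 _ _ _ _
  · exact le_rfl

theorem PD.wy_ge (h : D.OK T) (y : Q) : 1 ≤ D.wy y := by
  unfold PD.wy; split_ifs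
  · exact le_rfl
  · exact h.K1

theorem PD.wy_le (h : D.OK T) (y : Q) : D.wy y ≤ D.P.K := by
  unfold PD.wy; split_ifs
  · exact h.K1
  · exact le_rfl

theorem PD.wP_ge (h : D.OK T) (u : LV Q) (t : Q) : 1 ≤ D.wP u t := by
  unfold PD.wP; split_ifs
  · exact D.wL_ge h u t
  · exact D.wy_ge h _

theorem PD.wP_le (h : D.OK T) (u : LV Q) (t : Q) : D.wP u t ≤ D.P.K := by
  unfold PD.wP; split_ifs
  · exact (D.wL_le h u t).trans (D.wy_le h _)
  · exact D.wy_le h _

theorem PD.wL_leK (h : D.OK T) (u : LV Q) (t : Q) : D.wL u t ≤ D.P.K := (D.wL_le h u t).trans (D.wy_le h _)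

theorem PD.tot_of (h : D.OK T) {w : LV Q → Q → ℝ} (hw : ∀ u t, w u t ≤ D.P.K) (u : LV Q) :
    2 * T.card * D.W0 + ∑ t ∈ T, w u t ≤ D.CC0 T := by
  have h2 : ∑ t ∈ T, w u t ≤ T.card * D.P.K := by
    calc ∑ t ∈ T, w u t ≤ ∑ _t ∈ T, D.P.K := Finset.sum_le_sum (fun t _ => hw u t)
      _ = _ := by rw [Finset.sum_const, nsmul_eq_mul]
  unfold PD.CC0; linarith

theorem PD.CC0_pos (h : D.OK T) : 0 < D.CC0 T := by
  have := h.K1; have := h.W1
  unfold PD.CC0; positivity

/-- The perturbed weights are compatible with `wP`. -/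
theorem PD.CW_P (h : D.OK T) : CW T D.cwP D.W0 (D.CC0 T) D.wP where
  C0 := D.CC0_pos h
  symm u v := by
    unfold PD.cwP
    by_cases h1 : u.1 = v.1
    · rw [if_pos h1, if_pos h1.symm]
    · rw [if_neg h1, if_neg (fun h' : v.1 = u.1 => h1 h'.symm)]
      have e1 : (u.2.1 = D.xE ∨ v.2.1 = D.xE) ↔ (v.2.1 = D.xE ∨ u.2.1 = D.xE) := or_comm
      have e2 : hiE D.P D.lev D.site u v ↔ hiE D.P D.lev D.site v u := ⟨hiE_symm _ _ _ _ _, hiE_symm _ _ _ _ _⟩
      have e3 : ((∃ x, D.site x = u.2.1) ∧ (∃ x, D.site x = v.2.1) ∧ D.lock u.1 ∧ D.lock v.1 ∧ ¬ hiE D.P D.lev D.site u v)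
          ↔ ((∃ x, D.site x = v.2.1) ∧ (∃ x, D.site x = u.2.1) ∧ D.lock v.1 ∧ D.lock u.1 ∧ ¬ hiE D.P D.lev D.site v u) := by
        rw [e2]; tauto
      simp only [e1, e3]
  pos f y e t ht := by unfold PD.cwP; simp
  dit f y e t ht := by unfold PD.cwP; simp
  lam f y e t ht := by
    have ht1 : t ≠ 1 := fun h' => h.one (h' ▸ ht)
    unfold PD.cwP PD.wP
    simp only
    rw [if_neg (fun h' => mv_ne f y ht1 h'.symm)]
    by_cases hE : y = D.xE
    · subst hE
      rw [if_pos (Or.inl rfl), D.wL_E]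
      unfold PD.wy; simp
    · rw [if_neg (by tauto)]
      by_cases hx : ∃ x, D.site x = y
      · obtain ⟨x, rfl⟩ := hx
        rw [D.wL_site h]
        have hb := bw_site (P := D.P) (lev := D.lev) (K1 := 1) (K := 1) h.inj
        have hlw : lw D.P D.lev (cfg D.site f) x t e
            = if hiE D.P D.lev D.site (f, D.site x, e) (mv f (D.site x) t, D.site x, e) then D.P.K else 1 := by
          unfold lw
          have hmv : mv f (D.site x) t (D.site x) = f (D.site x) * t := by unfold mv; simp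
          have hvec : (fun z => max (D.lev (f (D.site z))) (D.lev (mv f (D.site x) t (D.site z))))
              = Function.update (nc D.lev (cfg D.site f)) x (max (D.lev (cfg D.site f x)) (D.lev (cfg D.site f x * t))) := by
            ext z
            by_cases hz : z = x
            · subst hz; rw [hmv]; simp [cfg]
            · have : mv f (D.site x) t (D.site z) = f (D.site z) := by
                unfold mv; rw [Function.update_of_ne (fun h' => hz (h.inj h'))]
              rw [this, Function.update_of_ne hz, max_self]; rfl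
          have hiff : hiE D.P D.lev D.site (f, D.site x, e) (mv f (D.site x) t, D.site x, e) ↔
              (D.lev (cfg D.site f x * t) ≠ D.lev (cfg D.site f x) ∧
                D.P.hiP (Function.update (nc D.lev (cfg D.site f)) x (max (D.lev (cfg D.site f x)) (D.lev (cfg D.site f x * t)))) e (D.P.gp x) (D.P.bt x)) := by
            constructor
            · rintro ⟨z, h1, _, _, h4, h5⟩
              have hz : z = x := h.inj h1
              subst hz
              simp only at h4 h5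
              rw [hmv] at h4
              rw [hvec] at h5
              exact ⟨fun h => h4 h.symm, h5⟩
            · rintro ⟨h4, h5⟩
              refine ⟨x, rfl, rfl, rfl, ?_, ?_⟩
              · simp only; rw [hmv]; exact fun h => h4 h.symm
              · simp only; rw [hvec]; exact h5
          by_cases hl : D.lev (cfg D.site f x * t) = D.lev (cfg D.site f x)
          · rw [if_pos hl, if_neg (fun h => (hiff.mp h).1 hl)]
          · rw [if_neg hl, RP.wt_hiP]
            by_cases hh : D.P.hiP (Function.update (nc D.lev (cfg D.site f)) x (max (D.lev (cfg D.site f x)) (D.lev (cfg D.site f x * t)))) e (D.P.gp x) (D.P.bt x)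
            · rw [if_pos hh, if_pos (hiff.mpr ⟨hl, hh⟩)]
            · rw [if_neg hh, if_neg (fun h => hh (hiff.mp h).2)]
        rw [hlw]
        have hwy : D.wy (D.site x) = D.P.K := by unfold PD.wy; rw [if_neg (h.xE x)]
        by_cases hl : D.lock f ∧ D.lock (mv f (D.site x) t)
        · rw [if_pos hl]
          by_cases hh : hiE D.P D.lev D.site (f, D.site x, e) (mv f (D.site x) t, D.site x, e)
          · rw [if_pos hh, if_neg (by tauto)]
          · rw [if_neg hh, if_pos ⟨⟨x, rfl⟩, ⟨x, rfl⟩, hl.1, hl.2, hh⟩]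
        · rw [if_neg hl, if_neg (by tauto), hwy]
      · push Not at hx
        have hwy : D.wy y = D.P.K := by unfold PD.wy; rw [if_neg hE]
        rw [D.wL_off h f hx hE, hwy]
        rw [if_neg (fun h' => by obtain ⟨⟨x, hx'⟩, _⟩ := h'; exact hx x hx')]
        split_ifs <;> rfl
  W00 := by have := h.W1; linarith
  w0 u t _ := by have := D.wP_ge h u t; linarith
  tot u := D.tot_of h (D.wP_le h) u

theorem PD.CW_N (h : D.OK T) : CW T D.cwN D.W0 (D.CC0 T) (fun u _ => D.wy u.2.1) where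
  C0 := D.CC0_pos h
  symm u v := by
    unfold PD.cwN
    by_cases h1 : u.1 = v.1
    · rw [if_pos h1, if_pos h1.symm]
    · rw [if_neg h1, if_neg (fun h' : v.1 = u.1 => h1 h'.symm)]
      have e1 : (u.2.1 = D.xE ∨ v.2.1 = D.xE) ↔ (v.2.1 = D.xE ∨ u.2.1 = D.xE) := or_comm
      simp only [e1]
  pos f y e t ht := by unfold PD.cwN; simp
  dit f y e t ht := by unfold PD.cwN; simp
  lam f y e t ht := by
    have ht1 : t ≠ 1 := fun h' => h.one (h' ▸ ht)
    unfold PD.cwN PD.wy
    simp only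
    rw [if_neg (fun h' => mv_ne f y ht1 h'.symm)]
    by_cases hE : y = D.xE
    · rw [if_pos (Or.inl hE), if_pos hE]
    · rw [if_neg (by tauto), if_neg hE]
  W00 := by have := h.W1; linarith
  w0 u t _ := by have := D.wy_ge h u.2.1; linarith
  tot u := D.tot_of h (w := fun u _ => D.wy u.2.1) (fun u _ => D.wy_le h u.2.1) u

/-- Weights on the graph with the extra edge lie in `[1, max W0 (K d + 1)]`. -/
theorem PD.cwP_ge (h : D.OK T) (u v : LV Q) : 1 ≤ D.cwP u v := by
  unfold PD.cwP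
  have := h.W1; have := h.K1
  split_ifs <;> linarith

theorem PD.cwP_le (h : D.OK T) (u v : LV Q) : D.cwP u v ≤ max D.W0 D.P.K := by
  unfold PD.cwP
  have h2 := h.K1
  have h3 := le_max_left D.W0 D.P.K
  have h4 := le_max_right D.W0 D.P.K
  split_ifs <;> linarith

theorem PD.cB_bounds (h : D.OK T) {h1 : (1 : Q) ∉ T} {hinv : ∀ t ∈ T, t⁻¹ ∈ T} (p q : LV Q × Bool) :
    1 ≤ cB T h1 hinv D.cwP (D.CC0 T) p q ∧ cB T h1 hinv D.cwP (D.CC0 T) p q ≤ D.W0 + T.card * D.P.K + 1 := by
  have hK := h.K1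
  have hW := h.W1
  have hT : (1 : ℝ) ≤ T.card := by exact_mod_cast h.card
  have hTK : D.P.K ≤ T.card * D.P.K := by nlinarith
  unfold cB
  split_ifs
  · refine ⟨D.cwP_ge h _ _, (D.cwP_le h _ _).trans ?_⟩
    rcases max_cases D.W0 D.P.K with ⟨h2, _⟩ | ⟨h2, _⟩ <;> rw [h2] <;> linarith
  · rw [(D.CW_P h).wsumG_eq]
    have h2 := D.tot_of h (D.wP_le h) p.1
    have h3 : ∑ t ∈ T, D.wP p.1 t ≤ T.card * D.P.K := by
      calc ∑ t ∈ T, D.wP p.1 t ≤ ∑ _t ∈ T, D.P.K := Finset.sum_le_sum (fun t _ => D.wP_le h _ t)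
        _ = _ := by rw [Finset.sum_const, nsmul_eq_mul]
    have h4 : 0 ≤ ∑ t ∈ T, D.wP p.1 t := Finset.sum_nonneg (fun t _ => by have := D.wP_ge h p.1 t; linarith)
    unfold PD.CC0
    constructor <;> linarith
  · constructor <;> linarith

/-! ### Killed operators -/

/-- The operator as a linear map. -/
noncomputable def OpL (T : Finset Q) (W0 C : ℝ) (w : LV Q → Q → ℝ) : Module.End ℝ (LV Q → ℝ) where
  toFun F := Op T W0 C w F
  map_add' F G := by ext u; exact Op_add W0 C w F G u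
  map_smul' k F := by ext u; exact Op_smul W0 C w k F u

theorem OpL_apply (T : Finset Q) (W0 C : ℝ) (w : LV Q → Q → ℝ) (F : LV Q → ℝ) (u : LV Q) :
    OpL T W0 C w F u = Op T W0 C w F u := rfl

/-- Restriction to configurations in `A`. -/
noncomputable def kl (A : (Q → Q) → Prop) : Module.End ℝ (LV Q → ℝ) where
  toFun F u := if A u.1 then F u else 0
  map_add' F G := by ext u; simp only [Pi.add_apply]; split_ifs <;> simp
  map_smul' k F := by ext u; simp only [Pi.smul_apply, smul_eq_mul, RingHom.id_apply]; split_ifs <;> simp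

omit [Group Q] [Fintype Q] in
theorem kl_apply (A : (Q → Q) → Prop) (F : LV Q → ℝ) (u : LV Q) : kl A F u = if A u.1 then F u else 0 := rfl

/-- The killed operator. -/
noncomputable def KO (T : Finset Q) (W0 C : ℝ) (w : LV Q → Q → ℝ) (A : (Q → Q) → Prop) : Module.End ℝ (LV Q → ℝ) :=
  kl A * OpL T W0 C w * kl A

theorem KO_apply (T : Finset Q) (W0 C : ℝ) (w : LV Q → Q → ℝ) (A : (Q → Q) → Prop) (F : LV Q → ℝ) (u : LV Q) :
    KO T W0 C w A F u = if A u.1 then Op T W0 C w (kl A F) u else 0 := rfl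

/-- Admissible weights. -/
structure AW (T : Finset Q) (W0 C : ℝ) (w : LV Q → Q → ℝ) : Prop where
  C0 : 0 < C
  W00 : 0 ≤ W0
  w0 : ∀ u, ∀ t ∈ T, 0 ≤ w u t
  tot : ∀ u, 2 * T.card * W0 + ∑ t ∈ T, w u t ≤ C

section kill

variable {W0 C : ℝ} {w : LV Q → Q → ℝ} {A : (Q → Q) → Prop}

theorem AW.mono (h : AW T W0 C w) {F G : LV Q → ℝ} (hFG : ∀ u, F u ≤ G u) (u : LV Q) : Op T W0 C w F u ≤ Op T W0 C w G u :=
  Op_mono h.C0 h.W00 h.w0 h.tot hFG u

theorem AW.nonneg (h : AW T W0 C w) (hT : 0 < T.card) {F : LV Q → ℝ} (hF : ∀ u, 0 ≤ F u) (u : LV Q) : 0 ≤ Op T W0 C w F u := by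
  have h2 := h.mono (F := fun _ => 0) (G := F) hF u
  rwa [Op_one W0 C w hT] at h2

theorem kl_nonneg {F : LV Q → ℝ} (hF : ∀ u, 0 ≤ F u) (u : LV Q) : 0 ≤ kl A F u := by
  rw [kl_apply]; split_ifs
  · exact hF u
  · exact le_rfl

theorem kl_le {F : LV Q → ℝ} (hF : ∀ u, 0 ≤ F u) (u : LV Q) : kl A F u ≤ F u := by
  rw [kl_apply]; split_ifs
  · exact le_rfl
  · exact hF u

theorem kl_mono {F G : LV Q → ℝ} (hFG : ∀ u, F u ≤ G u) (u : LV Q) : kl A F u ≤ kl A G u := by
  rw [kl_apply, kl_apply]; split_ifs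
  · exact hFG u
  · exact le_rfl

theorem AW.KO_mono (h : AW T W0 C w) {F G : LV Q → ℝ} (hFG : ∀ u, F u ≤ G u) (u : LV Q) :
    KO T W0 C w A F u ≤ KO T W0 C w A G u := by
  rw [KO_apply, KO_apply]
  split_ifs
  · exact h.mono (kl_mono hFG) u
  · exact le_rfl

theorem AW.KO_nonneg (h : AW T W0 C w) (hT : 0 < T.card) {F : LV Q → ℝ} (hF : ∀ u, 0 ≤ F u) (u : LV Q) :
    0 ≤ KO T W0 C w A F u := by
  rw [KO_apply]
  split_ifs
  · exact h.nonneg hT (kl_nonneg hF) u
  · exact le_rfl

theorem AW.KO_le (h : AW T W0 C w) (hT : 0 < T.card) {F : LV Q → ℝ} (hF : ∀ u, 0 ≤ F u) (u : LV Q) :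
    KO T W0 C w A F u ≤ Op T W0 C w F u := by
  rw [KO_apply]
  split_ifs
  · exact h.mono (kl_le hF) u
  · exact h.nonneg hT hF u

theorem AW.OpL_pow_mono (h : AW T W0 C w) (t : ℕ) {F G : LV Q → ℝ} (hFG : ∀ u, F u ≤ G u) (u : LV Q) :
    (OpL T W0 C w ^ t) F u ≤ (OpL T W0 C w ^ t) G u := by
  induction t generalizing F G with
  | zero => simpa using hFG u
  | succ t ih =>
    rw [pow_succ, Module.End.mul_apply, Module.End.mul_apply]
    exact ih (fun v => h.mono hFG v)

theorem AW.OpL_pow_nonneg (h : AW T W0 C w) (hT : 0 < T.card) (t : ℕ) {F : LV Q → ℝ} (hF : ∀ u, 0 ≤ F u) (u : LV Q) :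
    0 ≤ (OpL T W0 C w ^ t) F u := by
  induction t generalizing F with
  | zero => simpa using hF u
  | succ t ih =>
    rw [pow_succ, Module.End.mul_apply]
    exact ih (fun v => h.nonneg hT hF v)

theorem OpL_pow_one (hT : 0 < T.card) (t : ℕ) (k : ℝ) (u : LV Q) : (OpL T W0 C w ^ t) (fun _ => k) u = k := by
  induction t with
  | zero => simp
  | succ t ih =>
    rw [pow_succ, Module.End.mul_apply]
    have : OpL T W0 C w (fun _ => k) = fun _ => k := by ext v; exact Op_one W0 C w hT k v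
    rw [this]; exact ih

theorem AW.KO_pow_mono (h : AW T W0 C w) (t : ℕ) {F G : LV Q → ℝ} (hFG : ∀ u, F u ≤ G u) (u : LV Q) :
    (KO T W0 C w A ^ t) F u ≤ (KO T W0 C w A ^ t) G u := by
  induction t generalizing F G with
  | zero => simpa using hFG u
  | succ t ih =>
    rw [pow_succ, Module.End.mul_apply, Module.End.mul_apply]
    exact ih (fun v => h.KO_mono hFG v)

theorem AW.KO_pow_nonneg (h : AW T W0 C w) (hT : 0 < T.card) (t : ℕ) {F : LV Q → ℝ} (hF : ∀ u, 0 ≤ F u) (u : LV Q) :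
    0 ≤ (KO T W0 C w A ^ t) F u := by
  induction t generalizing F with
  | zero => simpa using hF u
  | succ t ih =>
    rw [pow_succ, Module.End.mul_apply]
    exact ih (fun v => h.KO_nonneg hT hF v)

theorem AW.KO_pow_le (h : AW T W0 C w) (hT : 0 < T.card) (t : ℕ) {F : LV Q → ℝ} (hF : ∀ u, 0 ≤ F u) (u : LV Q) :
    (KO T W0 C w A ^ t) F u ≤ (OpL T W0 C w ^ t) F u := by
  induction t generalizing F with
  | zero => simp
  | succ t ih =>
    rw [pow_succ, pow_succ, Module.End.mul_apply, Module.End.mul_apply]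
    exact (ih (fun v => h.KO_nonneg hT hF v)).trans (h.OpL_pow_mono t (fun v => h.KO_le hT hF v) u)

end kill

/-- Comparison of killed operators. -/
theorem kill_compare {W0 C : ℝ} {w w' : LV Q → Q → ℝ} {A B : (Q → Q) → Prop} (h : AW T W0 C w) (hT : 0 < T.card) (hAB : ∀ f, A f → B f)
    (heq : ∀ u, ∀ t ∈ T, A u.1 → A (mv u.1 u.2.1 t) → w' u t = w u t)
    (hle : ∀ u, ∀ t ∈ T, A u.1 → ¬ A (mv u.1 u.2.1 t) → w u t ≤ w' u t) {F : LV Q → ℝ} (hF : ∀ u, 0 ≤ F u) (u : LV Q) :
    KO T W0 C w' A F u ≤ KO T W0 C w B F u := by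
  rw [KO_apply, KO_apply]
  by_cases hA : A u.1
  · have hB := hAB u.1 hA
    rw [if_pos hA, if_pos hB]
    unfold Op
    have e1 : (fun y e => kl A F (u.1, y, e)) = fun y e => F (u.1, y, e) := by
      ext y e; rw [kl_apply, if_pos hA]
    have e2 : (fun y e => kl B F (u.1, y, e)) = fun y e => F (u.1, y, e) := by
      ext y e; rw [kl_apply, if_pos hB]
    rw [e1, e2, kl_apply, kl_apply, if_pos hA, if_pos hB]
    have hC := h.C0
    apply add_le_add le_rfl
    apply div_le_div_of_nonneg_right _ (by positivity)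
    apply add_le_add le_rfl
    apply Finset.sum_le_sum; intro t ht
    by_cases hA' : A (mv u.1 u.2.1 t)
    · rw [heq u t ht hA hA', kl_apply, kl_apply, if_pos hA', if_pos (hAB _ hA')]
    · have h2 := hle u t ht hA hA'
      have h3 : kl A F (mv u.1 u.2.1 t, u.2.1, u.2.2) = 0 := by rw [kl_apply, if_neg hA']
      have h4 : 0 ≤ kl B F (mv u.1 u.2.1 t, u.2.1, u.2.2) := kl_nonneg hF _
      rw [h3]
      have h5 := h.w0 u t ht
      have h6 := hF u
      nlinarith
  · rw [if_neg hA]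
    split_ifs
    · exact h.nonneg hT (kl_nonneg hF) u
    · exact le_rfl

end PC

end Pool.Agent.H984
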