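import Pool.Agent.H984.PcLow
import Pool.Agent.H984.PcHit

/-!
H984: once unlocked with the clock at rest, the neutral walk stays unlocked for a long time.
-/

set_option autoImplicit false

open Classical

namespace Pool.Agent.H984

namespace PC

variable {Q : Type} [Group Q] [Fintype Q] {ι : Type} [Fintype ι]

theorem AW.MK {T : Finset Q} {W0 C : ℝ} {w : LV Q → Q → ℝ} (h : AW T W0 C w) (hT : 0 < T.card) : MK (OpL T W0 C w) where
  mono F G hFG u := h.mono hFG u
  one k := by ext u; rw [OpL_apply, Op_one _ _ _ hT]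

/-- Hypotheses for the neutral phase. -/
structure PD.OKN (D : PD Q ι) (T : Finset Q) (kp : ℕ) (t0 : Q) (d dp : ℝ) (L : ℕ) (τ : ℕ) : Prop where
  ok : D.OKE T kp t0
  lamp : LampOK T D.lev L d dp
  hL : D.P.L = L
  hd : 10000 ≤ d
  hdp : 4 / 5 * d ≤ dp
  K : D.P.K = 1000 * d
  W0 : D.W0 = 20000 * d * (1000 * d)
  kp4 : (2 : ℝ) ^ kp ≤ 4 * (d + 1)
  tauQ : (τ : ℝ) ≤ Fintype.card Q
  mix : (3 / 4 : ℝ) ^ τ * (Fintype.card Q) ^ 2 ≤ 1 / 20

/-- The potential for the neutral phase. -/
noncomputable def PD.ps (D : PD Q ι) (a b : Q) : ℝ := 2 ^ (D.fE b) / 2 ^ (D.lev a)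

noncomputable def PD.hD (D : PD Q ι) (T : Finset Q) (a b : Q) : ℝ := D.P.K * ∑ t ∈ T, (D.ps (a * t) b - D.ps a b)

noncomputable def PD.hE (D : PD Q ι) (T : Finset Q) (a b : Q) : ℝ := ∑ t ∈ T, (D.ps a (b * t) - D.ps a b)

noncomputable def PD.uN (D : PD Q ι) (T : Finset Q) (d : ℝ) (a b : Q) : Q → Q → ℝ := fun y _ =>
  (if D.site D.x0 = y then D.hD T a b + d * D.ps a b else 0) + (if D.xE = y then D.hE T a b + d * D.ps a b else 0)

noncomputable def PD.FN (D : PD Q ι) (T : Finset Q) (d kap : ℝ) (τ : ℕ) (u : LV Q) : ℝ :=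
  D.ps (u.1 (D.site D.x0)) (u.1 D.xE) + kap * Gr T τ (D.uN T d (u.1 (D.site D.x0)) (u.1 D.xE)) u.2.1 u.2.2

variable {D : PD Q ι} {T : Finset Q} {kp : ℕ} {t0 : Q} {d dp : ℝ} {L τ : ℕ}

theorem ps_pos (a b : Q) : 0 < D.ps a b := by unfold PD.ps; positivity

theorem ps_D (h : D.OKN T kp t0 d dp L τ) (a b : Q) {t : Q} (ht : t ∈ T) :
    D.ps (a * t) b ≤ 2 * D.ps a b := by
  unfold PD.ps
  have h1 := h.lamp.step' a ht
  rw [mul_div_assoc', div_le_div_iff₀ (by positivity) (by positivity)]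
  have h2 : (2 : ℝ) ^ (D.lev a) ≤ 2 ^ (D.lev (a * t) + 1) := pow_le_pow_right₀ (by norm_num) h1
  have h3 : (0 : ℝ) < 2 ^ (D.fE b) := by positivity
  calc (2 : ℝ) ^ (D.fE b) * 2 ^ (D.lev a) ≤ 2 ^ (D.fE b) * 2 ^ (D.lev (a * t) + 1) := mul_le_mul_of_nonneg_left h2 h3.le
    _ = _ := by ring

theorem ps_E (h : D.OKN T kp t0 d dp L τ) (a b : Q) {t : Q} (ht : t ∈ T) :
    D.ps a (b * t) ≤ 2 ^ kp * D.ps a b := by
  unfold PD.ps
  have h1 := h.ok.lip (b * t) t⁻¹ (h.lamp.inv t ht)
  rw [mul_inv_cancel_right] at h1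
  rw [mul_div_assoc']
  apply div_le_div_of_nonneg_right _ (by positivity)
  rw [← pow_add]
  exact pow_le_pow_right₀ (by norm_num) (by omega)

theorem abs_hD (h : D.OKN T kp t0 d dp L τ) (a b : Q) : |D.hD T a b| ≤ D.P.K * d * D.ps a b := by
  have hK : 0 ≤ D.P.K := by rw [h.K]; have := h.hd; positivity
  unfold PD.hD
  rw [abs_mul, abs_of_nonneg hK, mul_assoc]
  apply mul_le_mul_of_nonneg_left _ hK
  refine (Finset.abs_sum_le_sum_abs _ _).trans ?_
  have h2 : ∀ t ∈ T, |D.ps (a * t) b - D.ps a b| ≤ D.ps a b := by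
    intro t ht
    have h3 := ps_D h a b ht
    have h4 := ps_pos (D := D) (a * t) b
    rw [abs_le]; constructor <;> linarith
  refine (Finset.sum_le_sum h2).trans ?_
  rw [Finset.sum_const, nsmul_eq_mul, h.lamp.card]

theorem abs_hE (h : D.OKN T kp t0 d dp L τ) (a b : Q) : |D.hE T a b| ≤ d * (4 * (d + 1)) * D.ps a b := by
  unfold PD.hE
  refine (Finset.abs_sum_le_sum_abs _ _).trans ?_
  have hd := h.hd
  have h2 : ∀ t ∈ T, |D.ps a (b * t) - D.ps a b| ≤ 4 * (d + 1) * D.ps a b := by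
    intro t ht
    have h3 := ps_E h a b ht
    have h4 := ps_pos (D := D) a (b * t)
    have h5 := ps_pos (D := D) a b
    have h6 := mul_le_mul_of_nonneg_right h.kp4 h5.le
    rw [abs_le]; constructor <;> nlinarith
  refine (Finset.sum_le_sum h2).trans ?_
  rw [Finset.sum_const, nsmul_eq_mul, h.lamp.card]
  linarith

theorem uN_abs (h : D.OKN T kp t0 d dp L τ) (a b : Q) (y e : Q) :
    |D.uN T d a b y e| ≤ (((D.P.K + 1) * d * D.ps a b) • (fun y (_ : Q) => del (D.site D.x0) y + del D.xE y) : Q → Q → ℝ) y e := by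
  have hd := h.hd
  have h1 := abs_hD h a b
  have h2 := abs_hE h a b
  have hps := ps_pos (D := D) a b
  have hK : D.P.K = 1000 * d := h.K
  unfold PD.uN del
  simp only [Pi.smul_apply, smul_eq_mul]
  have h3 : |D.hD T a b + d * D.ps a b| ≤ (D.P.K + 1) * d * D.ps a b := by
    refine (abs_add_le _ _).trans ?_
    rw [abs_of_nonneg (by positivity : 0 ≤ d * D.ps a b)]
    linarith
  have h4 : |D.hE T a b + d * D.ps a b| ≤ (D.P.K + 1) * d * D.ps a b := by
    refine (abs_add_le _ _).trans ?_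
    rw [abs_of_nonneg (by positivity : 0 ≤ d * D.ps a b)]
    have h5 : d * (4 * (d + 1)) * D.ps a b ≤ D.P.K * d * D.ps a b := by
      apply mul_le_mul_of_nonneg_right _ hps.le
      rw [hK]; nlinarith
    linarith
  refine (abs_add_le _ _).trans ?_
  rw [mul_add]
  apply add_le_add
  · by_cases hy : D.site D.x0 = y
    · rw [if_pos hy, if_pos hy.symm, mul_one]; exact h3
    · rw [if_neg hy, if_neg (fun h' : y = D.site D.x0 => hy h'.symm), mul_zero, abs_zero]
  · by_cases hy : D.xE = y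
    · rw [if_pos hy, if_pos hy.symm, mul_one]; exact h4
    · rw [if_neg hy, if_neg (fun h' : y = D.xE => hy h'.symm), mul_zero, abs_zero]

theorem Gr_uN (h : D.OKN T kp t0 d dp L τ) (a b : Q) (y e : Q) :
    |Gr T τ (D.uN T d a b) y e| ≤ 11 * D.P.K * d * D.ps a b := by
  have hT := h.lamp.gap.1
  have hd := h.hd
  have hps := ps_pos (D := D) a b
  have hK : D.P.K = 1000 * d := h.K
  have h1 := (Gr_mono T τ).abs_le (fun y e => uN_abs h a b y e) y e
  rw [map_smul] at h1
  simp only [Pi.smul_apply, smul_eq_mul] at h1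
  have h2 : Gr T τ (fun y (_ : Q) => del (D.site D.x0) y + del D.xE y) y e = Gn T τ y (D.site D.x0) + Gn T τ y D.xE := by
    have e1 : (fun y (_ : Q) => del (D.site D.x0) y + del D.xE y) = (fun y (_ : Q) => del (D.site D.x0) y) + (fun y (_ : Q) => del D.xE y) := rfl
    rw [e1, map_add]
    simp only [Pi.add_apply]
    unfold Gr Gn
    rw [LinearMap.sum_apply, LinearMap.sum_apply]
    simp only [Finset.sum_apply]
    congr 1
    · apply Finset.sum_congr rfl; intro t _; rw [Pb_lift hT]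
    · apply Finset.sum_congr rfl; intro t _; rw [Pb_lift hT]
  rw [h2] at h1
  have h3 := h.lamp.gap.Gn_le τ y (D.site D.x0)
  have h4 := h.lamp.gap.Gn_le τ y D.xE
  have h5 : (τ : ℝ) / Fintype.card Q ≤ 1 := by
    rw [div_le_one (by exact_mod_cast Fintype.card_pos)]; exact h.tauQ
  have hc : 0 ≤ (D.P.K + 1) * d * D.ps a b := by rw [hK]; positivity
  refine h1.trans ?_
  calc (D.P.K + 1) * d * D.ps a b * (Gn T τ y (D.site D.x0) + Gn T τ y D.xE) ≤ (D.P.K + 1) * d * D.ps a b * 10 := by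
        apply mul_le_mul_of_nonneg_left _ hc; linarith
    _ ≤ 11 * D.P.K * d * D.ps a b := by
        have : (D.P.K + 1) * 10 ≤ 11 * D.P.K := by rw [hK]; linarith
        have h6 := mul_le_mul_of_nonneg_right this (by positivity : 0 ≤ d * D.ps a b)
        linarith

/-- The value of `kap`. -/
theorem kap_eq (h : D.OKN T kp t0 d dp L τ) {kap : ℝ} (hkap : kap = 1 / (2 * d * D.W0)) :
    0 < kap ∧ kap * (D.P.K * d) = 1 / (40000 * d) ∧ kap * (D.W0 * (2 * T.card)) = 1 := by
  have hd := h.hd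
  have hd0 : 0 < d := by linarith
  rw [hkap, h.W0, h.K, h.lamp.card]
  refine ⟨by positivity, ?_, ?_⟩
  · field_simp; norm_num
  · field_simp

theorem FN_bounds (h : D.OKN T kp t0 d dp L τ) {kap : ℝ} (hkap : kap = 1 / (2 * d * D.W0)) (u : LV Q) :
    D.ps (u.1 (D.site D.x0)) (u.1 D.xE) / 2 ≤ D.FN T d kap τ u ∧ D.FN T d kap τ u ≤ 2 * D.ps (u.1 (D.site D.x0)) (u.1 D.xE) := by
  obtain ⟨k0, k1, k2⟩ := kap_eq h hkap
  have hd := h.hd
  have hd0 : 0 < d := by linarith
  unfold PD.FN
  set a := u.1 (D.site D.x0)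
  set b := u.1 D.xE
  have hps := ps_pos (D := D) a b
  have h1 := Gr_uN h a b u.2.1 u.2.2
  have h2 : |kap * Gr T τ (D.uN T d a b) u.2.1 u.2.2| ≤ D.ps a b / 2 := by
    rw [abs_mul, abs_of_pos k0]
    calc kap * |Gr T τ (D.uN T d a b) u.2.1 u.2.2| ≤ kap * (11 * D.P.K * d * D.ps a b) := mul_le_mul_of_nonneg_left h1 k0.le
      _ = (kap * (D.P.K * d)) * (11 * D.ps a b) := by ring
      _ = 1 / (40000 * d) * (11 * D.ps a b) := by rw [k1]
      _ ≤ 1 / 22 * (11 * D.ps a b) := by
          apply mul_le_mul_of_nonneg_right _ (by positivity)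
          apply one_div_le_one_div_of_le (by norm_num); linarith
      _ = _ := by ring
  have := abs_le.mp h2
  constructor <;> linarith [this.1, this.2]

/-- The drift at the two places. -/
theorem h_sum (h : D.OKN T kp t0 d dp L τ) (a b : Q) :
    D.hD T a b + D.hE T a b + 2 * (d * D.ps a b) ≤ (if D.lev a ≤ L then - (200 * d ^ 2 * D.ps a b) else 40 * d ^ 2 * D.ps a b) := by
  have hd := h.hd
  have hd0 : 0 < d := by linarith
  have hdp := h.hdp
  have hps := ps_pos (D := D) a b
  have hK : D.P.K = 1000 * d := h.K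
  have hKpos : 0 ≤ D.P.K := by rw [hK]; positivity
  -- the clock
  have hE1 : D.hE T a b ≤ d * (4 * (d + 1)) * D.ps a b := (le_abs_self _).trans (abs_hE h a b)
  -- the lamp at the main site
  have hdown := h.lamp.down_le a
  have hdn : ((T.filter (fun t => D.lev (a * t) + 1 = D.lev a)).card : ℝ) ≤ 1 := by exact_mod_cast hdown
  have hterm : ∀ t ∈ T, D.ps (a * t) b - D.ps a b
      ≤ - (D.ps a b / 2) * (if D.lev (a * t) = D.lev a + 1 then (1 : ℝ) else 0)
        + D.ps a b * (if D.lev (a * t) + 1 = D.lev a then (1 : ℝ) else 0) := by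
    intro t ht
    have a1 := h.lamp.step a t ht
    have a2 := h.lamp.step' a ht
    rcases Nat.lt_trichotomy (D.lev (a * t)) (D.lev a) with hlt | heq | hgt
    · have e1 : D.lev a = D.lev (a * t) + 1 := by omega
      rw [if_neg (by omega), if_pos e1.symm]
      have := ps_D h a b ht
      linarith
    · rw [if_neg (by omega), if_neg (by omega)]
      have : D.ps (a * t) b = D.ps a b := by unfold PD.ps; rw [heq]
      rw [this]; linarith
    · have e1 : D.lev (a * t) = D.lev a + 1 := by omega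
      rw [if_pos e1, if_neg (by omega)]
      have : D.ps (a * t) b = D.ps a b / 2 := by
        unfold PD.ps; rw [e1, pow_succ]; field_simp
      rw [this]; linarith
  have hsum := Finset.sum_le_sum hterm
  rw [Finset.sum_add_distrib, ← Finset.mul_sum, ← Finset.mul_sum, Finset.sum_boole, Finset.sum_boole] at hsum
  have hD1 : D.hD T a b ≤ D.P.K * (- (D.ps a b / 2) * ((T.filter (fun t => D.lev (a * t) = D.lev a + 1)).card : ℝ) + D.ps a b) := by
    unfold PD.hD
    apply mul_le_mul_of_nonneg_left _ hKpos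
    refine hsum.trans ?_
    have := mul_le_mul_of_nonneg_left hdn hps.le
    linarith
  by_cases hl : D.lev a ≤ L
  · rw [if_pos hl]
    have hup := h.lamp.up_ge a hl
    have hup2 : 4 / 5 * d ≤ ((T.filter (fun t => D.lev (a * t) = D.lev a + 1)).card : ℝ) := by
      have : (0 : ℝ) ≤ ((T.filter (fun t => D.lev (a * t) = D.lev a + 1)).card : ℝ) := Nat.cast_nonneg _
      linarith
    have h3 : D.P.K * (- (D.ps a b / 2) * ((T.filter (fun t => D.lev (a * t) = D.lev a + 1)).card : ℝ) + D.ps a b)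
        ≤ D.P.K * (- (D.ps a b / 2) * (4 / 5 * d) + D.ps a b) := by
      apply mul_le_mul_of_nonneg_left _ hKpos
      have := mul_le_mul_of_nonneg_left hup2 (by positivity : 0 ≤ D.ps a b / 2)
      linarith
    have h4 : D.P.K * (- (D.ps a b / 2) * (4 / 5 * d) + D.ps a b) + d * (4 * (d + 1)) * D.ps a b + 2 * (d * D.ps a b)
        = (1000 * d * (1 - 2 / 5 * d) + d * (4 * (d + 1)) + 2 * d) * D.ps a b := by rw [hK]; ring
    have h5 : 1000 * d * (1 - 2 / 5 * d) + d * (4 * (d + 1)) + 2 * d ≤ - (200 * d ^ 2) := by nlinarith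
    have h6 := mul_le_mul_of_nonneg_right h5 hps.le
    linarith
  · rw [if_neg hl]
    have h0 : (0 : ℝ) ≤ ((T.filter (fun t => D.lev (a * t) = D.lev a + 1)).card : ℝ) := Nat.cast_nonneg _
    have h3 : D.P.K * (- (D.ps a b / 2) * ((T.filter (fun t => D.lev (a * t) = D.lev a + 1)).card : ℝ) + D.ps a b)
        ≤ D.P.K * D.ps a b := by
      apply mul_le_mul_of_nonneg_left _ hKpos
      have : 0 ≤ (D.ps a b / 2) * ((T.filter (fun t => D.lev (a * t) = D.lev a + 1)).card : ℝ) := by positivity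
      linarith
    have h4 : D.P.K * D.ps a b + d * (4 * (d + 1)) * D.ps a b + 2 * (d * D.ps a b)
        = (1000 * d + d * (4 * (d + 1)) + 2 * d) * D.ps a b := by rw [hK]; ring
    have h5 : 1000 * d + d * (4 * (d + 1)) + 2 * d ≤ 40 * d ^ 2 := by nlinarith
    have h6 := mul_le_mul_of_nonneg_right h5 hps.le
    linarith

theorem Pb_uN (h : D.OKN T kp t0 d dp L τ) (a b : Q) (y e : Q) :
    (Pb T ^ τ) (D.uN T d a b) y e ≤ 100 * d ^ 2 / Fintype.card Q * (1 / 2 ^ (L / 2)) := by
  have hn : (0 : ℝ) < Fintype.card Q := by exact_mod_cast Fintype.card_pos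
  obtain ⟨n, hn'⟩ : ∃ n : ℝ, n = (Fintype.card Q : ℝ) := ⟨_, rfl⟩
  have hd := h.hd
  have hd0 : 0 < d := by linarith
  have hps := ps_pos (D := D) a b
  have hK : D.P.K = 1000 * d := h.K
  have hB : ∀ y e, |D.uN T d a b y e| ≤ (D.P.K + 1) * d * D.ps a b * 2 := by
    intro y e
    refine (uN_abs h a b y e).trans ?_
    simp only [Pi.smul_apply, smul_eq_mul]
    apply mul_le_mul_of_nonneg_left _ (by rw [hK]; positivity)
    have h1 : del (D.site D.x0) y ≤ 1 := by unfold del; split_ifs <;> norm_num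
    have h2 : del D.xE y ≤ 1 := by unfold del; split_ifs <;> norm_num
    linarith
  have h1 := (abs_le.mp (h.lamp.gap.Pb_mix (D.uN T d a b) (by rw [hK]; positivity) hB τ y e)).2
  have h2 : ∑ y, ∑ e, D.uN T d a b y e = n * (D.hD T a b + D.hE T a b + 2 * (d * D.ps a b)) := by
    unfold PD.uN
    simp only [Finset.sum_const, Finset.card_univ, nsmul_eq_mul, ← Finset.mul_sum, Finset.sum_add_distrib, Finset.sum_ite_eq,
      Finset.mem_univ, if_true]
    rw [← hn']; ring
  rw [← hn'] at h1 hn ⊢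
  rw [h2] at h1
  have h3 : n * (D.hD T a b + D.hE T a b + 2 * (d * D.ps a b)) / n ^ 2 = (D.hD T a b + D.hE T a b + 2 * (d * D.ps a b)) / n := by
    field_simp
  rw [h3] at h1
  have h4 := h_sum h a b
  have hmix := h.mix
  rw [← hn'] at hmix
  have h5 : (3 / 4) ^ τ * (n * ((D.P.K + 1) * d * D.ps a b * 2)) ≤ 60 * d ^ 2 * D.ps a b * 2 / n := by
    rw [le_div_iff₀ hn]
    have e1 : (3 / 4) ^ τ * (n * ((D.P.K + 1) * d * D.ps a b * 2)) * n = ((3 / 4) ^ τ * n ^ 2) * ((D.P.K + 1) * d * D.ps a b * 2) := by ring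
    rw [e1]
    have e2 : (D.P.K + 1) * d * D.ps a b * 2 ≤ 1001 * d ^ 2 * D.ps a b * 2 := by
      rw [hK]
      have : (1000 * d + 1) * d ≤ 1001 * d ^ 2 := by nlinarith
      have := mul_le_mul_of_nonneg_right this hps.le
      linarith
    calc ((3 / 4) ^ τ * n ^ 2) * ((D.P.K + 1) * d * D.ps a b * 2) ≤ (1 / 20) * (1001 * d ^ 2 * D.ps a b * 2) := by
          apply mul_le_mul hmix e2 _ (by norm_num)
          rw [hK]; positivity
      _ ≤ _ := by
          have : 0 ≤ d ^ 2 * D.ps a b := by positivity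
          linarith
  by_cases hl : D.lev a ≤ L
  · rw [if_pos hl] at h4
    have h6 : (D.hD T a b + D.hE T a b + 2 * (d * D.ps a b)) / n ≤ - (200 * d ^ 2 * D.ps a b) / n := div_le_div_of_nonneg_right h4 hn.le
    have h8 : 0 ≤ 100 * d ^ 2 / n * (1 / 2 ^ (L / 2)) := by positivity
    have h9 : (Pb T ^ τ) (D.uN T d a b) y e ≤ (-(200 * d ^ 2 * D.ps a b) + 60 * d ^ 2 * D.ps a b * 2) / n := by
      rw [add_div]; linarith
    have h10 : (-(200 * d ^ 2 * D.ps a b) + 60 * d ^ 2 * D.ps a b * 2) / n ≤ 0 := by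
      apply div_nonpos_of_nonpos_of_nonneg _ hn.le
      have : 0 ≤ d ^ 2 * D.ps a b := by positivity
      linarith
    linarith
  · rw [if_neg hl] at h4
    have hlev : D.lev a = L + 1 := by have := h.lamp.top a; omega
    have h6 : (D.hD T a b + D.hE T a b + 2 * (d * D.ps a b)) / n ≤ (40 * d ^ 2 * D.ps a b) / n := div_le_div_of_nonneg_right h4 hn.le
    have h7 : D.ps a b ≤ 1 / 2 * (1 / 2 ^ (L / 2)) := by
      unfold PD.ps
      rw [hlev]
      have hf := h.ok.fE b
      rw [h.hL] at hf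
      have h8 : (2 : ℝ) ^ (D.fE b) * 2 ^ (L / 2) * 2 ≤ 2 ^ (L + 1) := by
        rw [← pow_add, ← pow_succ]
        exact pow_le_pow_right₀ (by norm_num) (by omega)
      have h9 : (0 : ℝ) < 2 ^ (L / 2) := by positivity
      rw [div_le_iff₀ (by positivity)]
      have h10 : 1 / 2 * (1 / 2 ^ (L / 2)) * (2 : ℝ) ^ (L + 1) = 2 ^ (L + 1) / (2 * 2 ^ (L / 2)) := by field_simp
      rw [h10, le_div_iff₀ (by positivity)]
      linarith
    have h9 : (Pb T ^ τ) (D.uN T d a b) y e ≤ (40 * d ^ 2 * D.ps a b + 60 * d ^ 2 * D.ps a b * 2) / n := by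
      rw [add_div]; linarith
    refine h9.trans ?_
    have h10 : 100 * d ^ 2 / n * (1 / 2 ^ (L / 2)) = (100 * d ^ 2 * (1 / 2 ^ (L / 2))) / n := by ring
    rw [h10]
    apply div_le_div_of_nonneg_right _ hn.le
    have h11 := mul_le_mul_of_nonneg_left h7 (by positivity : 0 ≤ 160 * d ^ 2)
    have h12 : (0 : ℝ) ≤ d ^ 2 * (1 / 2 ^ (L / 2)) := by positivity
    linarith

/-- One step of the neutral walk. -/
theorem FN_step (h : D.OKN T kp t0 d dp L τ) {kap : ℝ} (hkap : kap = 1 / (2 * d * D.W0)) (u : LV Q) :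
    Op T D.W0 (D.CC0 T) (fun u _ => D.wy u.2.1) (D.FN T d kap τ) u
      ≤ D.FN T d kap τ u + 1 / (Fintype.card Q * 2 ^ (L / 2)) := by
  obtain ⟨k0, k1, k2⟩ := kap_eq h hkap
  have hn : (0 : ℝ) < Fintype.card Q := by exact_mod_cast Fintype.card_pos
  have hT := h.lamp.gap.1
  have hd := h.hd
  have hd0 : 0 < d := by linarith
  have hK : D.P.K = 1000 * d := h.K
  have hC := D.CC0_pos h.ok.ok
  obtain ⟨f, y, e⟩ := u
  set a := f (D.site D.x0) with ha
  set b := f D.xE with hb
  have hps := ps_pos (D := D) a b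
  -- the inner bound
  have hin : D.W0 * (2 * T.card) * (Pb T (fun y e => D.FN T d kap τ (f, y, e)) y e - D.FN T d kap τ (f, y, e))
      + ∑ t ∈ T, D.wy y * (D.FN T d kap τ (mv f y t, y, e) - D.FN T d kap τ (f, y, e))
      ≤ (Pb T ^ τ) (D.uN T d a b) y e := by
    have e1 : Pb T (fun y e => D.FN T d kap τ (f, y, e)) y e - D.FN T d kap τ (f, y, e)
        = kap * ((Pb T ^ τ) (D.uN T d a b) y e - D.uN T d a b y e) := by
      have e2 : (fun y e => D.FN T d kap τ (f, y, e)) = (fun _ _ => D.ps a b) + kap • (Gr T τ (D.uN T d a b)) := rfl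
      rw [e2, map_add, map_smul]
      have h1 : Pb T (fun _ _ => D.ps a b) = fun _ _ => D.ps a b := by
        have := Pb_const hT (D.ps a b) 1; rwa [pow_one] at this
      rw [h1]
      have h2 := congrFun (congrFun (Pb_Gr T τ (D.uN T d a b)) y) e
      simp only [Pi.sub_apply] at h2
      have e3 : D.FN T d kap τ (f, y, e) = D.ps a b + kap * Gr T τ (D.uN T d a b) y e := rfl
      rw [e3]
      simp only [Pi.add_apply, Pi.smul_apply, smul_eq_mul]
      rw [← h2]; ring
    rw [e1]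
    have e2 : D.W0 * (2 * T.card) * (kap * ((Pb T ^ τ) (D.uN T d a b) y e - D.uN T d a b y e))
        = (kap * (D.W0 * (2 * T.card))) * ((Pb T ^ τ) (D.uN T d a b) y e - D.uN T d a b y e) := by ring
    rw [e2, k2, one_mul]
    -- suffices: lamp part ≤ uN
    suffices hs : ∑ t ∈ T, D.wy y * (D.FN T d kap τ (mv f y t, y, e) - D.FN T d kap τ (f, y, e)) ≤ D.uN T d a b y e by linarith
    have hxs : D.site D.x0 ≠ D.xE := h.ok.ok.xE D.x0
    by_cases y0 : D.site D.x0 = y
    · subst y0
      have hwy : D.wy (D.site D.x0) = D.P.K := by unfold PD.wy; rw [if_neg hxs]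
      have hu : D.uN T d a b (D.site D.x0) e = D.hD T a b + d * D.ps a b := by
        unfold PD.uN; rw [if_pos rfl, if_neg hxs.symm, add_zero]
      rw [hu]
      have e3 : ∀ t ∈ T, D.wy (D.site D.x0) * (D.FN T d kap τ (mv f (D.site D.x0) t, D.site D.x0, e) - D.FN T d kap τ (f, D.site D.x0, e))
          ≤ D.P.K * (D.ps (a * t) b - D.ps a b) + D.P.K * (kap * (33 * D.P.K * d * D.ps a b)) := by
        intro t ht
        have m2 : mv f (D.site D.x0) t (D.site D.x0) = a * t := by unfold mv; simp [ha]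
        have m3 : mv f (D.site D.x0) t D.xE = b := by unfold mv; rw [Function.update_of_ne hxs.symm]
        have e4 : D.FN T d kap τ (mv f (D.site D.x0) t, D.site D.x0, e) = D.ps (a * t) b + kap * Gr T τ (D.uN T d (a * t) b) (D.site D.x0) e := by
          unfold PD.FN; simp only; rw [m2, m3]
        have e5 : D.FN T d kap τ (f, D.site D.x0, e) = D.ps a b + kap * Gr T τ (D.uN T d a b) (D.site D.x0) e := rfl
        rw [e4, e5, hwy]
        have g1 := (abs_le.mp (Gr_uN h (a * t) b (D.site D.x0) e)).2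
        have g2 := (abs_le.mp (Gr_uN h a b (D.site D.x0) e)).1
        have g3 := ps_D h a b ht
        have g4 : 11 * D.P.K * d * D.ps (a * t) b ≤ 11 * D.P.K * d * (2 * D.ps a b) :=
          mul_le_mul_of_nonneg_left g3 (by rw [hK]; positivity)
        have g5 : Gr T τ (D.uN T d (a * t) b) (D.site D.x0) e - Gr T τ (D.uN T d a b) (D.site D.x0) e ≤ 33 * D.P.K * d * D.ps a b := by linarith
        have g6 := mul_le_mul_of_nonneg_left g5 k0.le
        have g7 := mul_le_mul_of_nonneg_left g6 (by rw [hK]; positivity : 0 ≤ D.P.K)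
        linarith
      refine (Finset.sum_le_sum e3).trans ?_
      rw [Finset.sum_add_distrib, ← Finset.mul_sum, Finset.sum_const, nsmul_eq_mul, h.lamp.card]
      have e6 : D.P.K * ∑ t ∈ T, (D.ps (a * t) b - D.ps a b) = D.hD T a b := rfl
      rw [e6]
      have e7 : d * (D.P.K * (kap * (33 * D.P.K * d * D.ps a b))) = (kap * (D.P.K * d)) * (33 * D.P.K * d * D.ps a b) := by ring
      rw [e7, k1, hK]
      have e8 : 1 / (40000 * d) * (33 * (1000 * d) * d * D.ps a b) = 33 / 40 * (d * D.ps a b) := by field_simp; norm_num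
      rw [e8]
      have : 0 ≤ d * D.ps a b := by positivity
      linarith
    · by_cases yE : D.xE = y
      · subst yE
        have hwy : D.wy D.xE = 1 := by unfold PD.wy; rw [if_pos rfl]
        have hu : D.uN T d a b D.xE e = D.hE T a b + d * D.ps a b := by
          unfold PD.uN; rw [if_neg hxs, if_pos rfl, zero_add]
        rw [hu]
        have e3 : ∀ t ∈ T, D.wy D.xE * (D.FN T d kap τ (mv f D.xE t, D.xE, e) - D.FN T d kap τ (f, D.xE, e))
            ≤ (D.ps a (b * t) - D.ps a b) + kap * (11 * D.P.K * d * ((4 * (d + 1) + 1) * D.ps a b)) := by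
          intro t ht
          have m2 : mv f D.xE t (D.site D.x0) = a := by unfold mv; rw [Function.update_of_ne hxs]
          have m3 : mv f D.xE t D.xE = b * t := by unfold mv; simp [hb]
          have e4 : D.FN T d kap τ (mv f D.xE t, D.xE, e) = D.ps a (b * t) + kap * Gr T τ (D.uN T d a (b * t)) D.xE e := by
            unfold PD.FN; simp only; rw [m2, m3]
          have e5 : D.FN T d kap τ (f, D.xE, e) = D.ps a b + kap * Gr T τ (D.uN T d a b) D.xE e := rfl
          rw [e4, e5, hwy, one_mul]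
          have g1 := (abs_le.mp (Gr_uN h a (b * t) D.xE e)).2
          have g2 := (abs_le.mp (Gr_uN h a b D.xE e)).1
          have g3 := ps_E h a b ht
          have g3' := mul_le_mul_of_nonneg_right h.kp4 hps.le
          have g4 : 11 * D.P.K * d * D.ps a (b * t) ≤ 11 * D.P.K * d * (4 * (d + 1) * D.ps a b) :=
            mul_le_mul_of_nonneg_left (g3.trans g3') (by rw [hK]; positivity)
          have g5 : Gr T τ (D.uN T d a (b * t)) D.xE e - Gr T τ (D.uN T d a b) D.xE e ≤ 11 * D.P.K * d * ((4 * (d + 1) + 1) * D.ps a b) := by linarith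
          have g6 := mul_le_mul_of_nonneg_left g5 k0.le
          linarith
        refine (Finset.sum_le_sum e3).trans ?_
        rw [Finset.sum_add_distrib, Finset.sum_const, nsmul_eq_mul, h.lamp.card]
        have e6 : ∑ t ∈ T, (D.ps a (b * t) - D.ps a b) = D.hE T a b := rfl
        rw [e6]
        have e7 : d * (kap * (11 * D.P.K * d * ((4 * (d + 1) + 1) * D.ps a b))) = (kap * (D.P.K * d)) * (11 * d * ((4 * (d + 1) + 1) * D.ps a b)) := by ring
        rw [e7, k1]
        have e8 : 1 / (40000 * d) * (11 * d * ((4 * (d + 1) + 1) * D.ps a b)) = 11 * (4 * d + 5) / 40000 * D.ps a b := by field_simp; ring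
        rw [e8]
        have e9 : 11 * (4 * d + 5) / 40000 ≤ d := by rw [div_le_iff₀ (by norm_num)]; linarith
        have := mul_le_mul_of_nonneg_right e9 hps.le
        linarith
      · have hu : D.uN T d a b y e = 0 := by
          unfold PD.uN; rw [if_neg y0, if_neg yE, add_zero]
        rw [hu]
        apply le_of_eq
        apply Finset.sum_eq_zero; intro t _
        have m2 : mv f y t (D.site D.x0) = f (D.site D.x0) := by unfold mv; rw [Function.update_of_ne y0]
        have m3 : mv f y t D.xE = f D.xE := by unfold mv; rw [Function.update_of_ne yE]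
        have e4 : D.FN T d kap τ (mv f y t, y, e) = D.FN T d kap τ (f, y, e) := by
          unfold PD.FN; simp only; rw [m2, m3]
        rw [e4, sub_self, mul_zero]
  unfold Op
  simp only
  apply add_le_add le_rfl
  rw [div_le_iff₀ (by positivity)]
  refine hin.trans ((Pb_uN h a b y e).trans ?_)
  have hCge : 100 * d ^ 2 ≤ 2 * D.CC0 T := by
    unfold PD.CC0
    rw [h.lamp.card, h.W0, hK]
    have h1 : 0 ≤ d ^ 3 := by positivity
    have h2 : 0 ≤ d ^ 2 := by positivity
    nlinarith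
  have h3 : 100 * d ^ 2 / Fintype.card Q * (1 / 2 ^ (L / 2)) = (100 * d ^ 2) * (1 / (Fintype.card Q * 2 ^ (L / 2))) := by
    field_simp
  rw [h3]
  have h4 : 0 ≤ 1 / ((Fintype.card Q : ℝ) * 2 ^ (L / 2)) := by positivity
  have := mul_le_mul_of_nonneg_right hCge h4
  linarith

/-- The neutral walk rarely becomes locked. -/
theorem hit_lock (h : D.OKN T kp t0 d dp L τ) {kap : ℝ} (hkap : kap = 1 / (2 * d * D.W0)) (t : ℕ) (u : LV Q) :
    hit (OpL T D.W0 (D.CC0 T) (fun u _ => D.wy u.2.1)) (fun u => D.lock u.1) t u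
      ≤ D.FN T d kap τ u + t * (1 / (Fintype.card Q * 2 ^ (L / 2))) := by
  have hAW := D.AW_N h.ok.ok
  have hT := h.lamp.gap.1
  have hF0 : ∀ u, 0 ≤ D.FN T d kap τ u := fun u => by
    have := (FN_bounds h hkap u).1
    have := ps_pos (D := D) (u.1 (D.site D.x0)) (u.1 D.xE)
    linarith
  have hF1 : ∀ u, D.lock u.1 → 1 ≤ D.FN T d kap τ u := by
    intro u hu
    have h1 := (FN_bounds h hkap u).1
    have h2 : 2 ≤ D.ps (u.1 (D.site D.x0)) (u.1 D.xE) := by
      unfold PD.ps
      rw [le_div_iff₀ (by positivity)]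
      unfold PD.lock at hu
      calc (2 : ℝ) * 2 ^ (D.lev (u.1 (D.site D.x0))) = 2 ^ (D.lev (u.1 (D.site D.x0)) + 1) := by ring
        _ ≤ _ := pow_le_pow_right₀ (by norm_num) hu
    linarith
  have hpos : 0 ≤ 1 / ((Fintype.card Q : ℝ) * 2 ^ (L / 2)) := by positivity
  induction t generalizing u with
  | zero =>
    rw [hit_zero]
    split_ifs with hu
    · have := hF1 u hu; simpa using this
    · have := hF0 u; simpa using this
  | succ t ih =>
    rw [hit_succ]
    split_ifs with hu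
    · have := hF1 u hu
      push_cast
      have : 0 ≤ ((t : ℝ) + 1) * (1 / ((Fintype.card Q : ℝ) * 2 ^ (L / 2))) := by positivity
      linarith
    · rw [OpL_apply]
      refine (hAW.mono ih u).trans ?_
      have e1 : Op T D.W0 (D.CC0 T) (fun u _ => D.wy u.2.1) (fun u => D.FN T d kap τ u + t * (1 / (Fintype.card Q * 2 ^ (L / 2)))) u
          = Op T D.W0 (D.CC0 T) (fun u _ => D.wy u.2.1) (D.FN T d kap τ) u + t * (1 / (Fintype.card Q * 2 ^ (L / 2))) := by
        rw [Op_add _ _ _ (D.FN T d kap τ) (fun _ => t * (1 / (Fintype.card Q * 2 ^ (L / 2)))), Op_one _ _ _ hT]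
      rw [e1]
      have h2 := FN_step h hkap u
      push_cast
      linarith

end PC

end Pool.Agent.H984
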