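import Pool.Agent.H984.PcRec

/-!
H984: the last group while both of its lamps are in the lower half: the killed Green function at the sites.
-/

set_option autoImplicit false

open Classical

namespace Pool.Agent.H984

namespace PC

variable {Q : Type} [Group Q] [Fintype Q] {ι : Type} [Fintype ι]

/-- The last group consists of two lamps. -/
structure Last (P : RP ι Q) (M : ℕ) (x0 x1 : ι) : Prop where
  g0 : P.gp x0 = M - 1
  g1 : P.gp x1 = M - 1
  pair : ∀ x, P.gp x = M - 1 → x = x0 ∨ x = x1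
  ne : x0 ≠ x1
  m1 : P.m (M - 1) = 1
  A16 : 16 ≤ P.A

section last

variable {P : RP ι Q} {M : ℕ} {x0 x1 : ι}

theorem Last.sum (h : Last P M x0 x1) (f : ι → ℝ) : (∑ x, if P.gp x = M - 1 then f x else 0) = f x0 + f x1 := by
  have h2 : ∀ x, (if P.gp x = M - 1 then f x else 0) = (if x = x0 then f x0 else 0) + (if x = x1 then f x1 else 0) := by
    intro x
    by_cases hx : P.gp x = M - 1
    · rw [if_pos hx]
      rcases h.pair x hx with rfl | rfl
      · rw [if_pos rfl, if_neg h.ne, add_zero]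
      · rw [if_pos rfl, if_neg h.ne.symm, zero_add]
    · rw [if_neg hx, if_neg (fun h' : x = x0 => hx (by rw [h']; exact h.g0)), if_neg (fun h' : x = x1 => hx (by rw [h']; exact h.g1)), add_zero]
  rw [Finset.sum_congr rfl (fun x _ => h2 x), Finset.sum_add_distrib, Finset.sum_ite_eq', Finset.sum_ite_eq',
    if_pos (Finset.mem_univ _), if_pos (Finset.mem_univ _)]

theorem Last.prod (h : Last P M x0 x1) (f : ι → ℝ) : (∏ x, if P.gp x = M - 1 then f x else 1) = f x0 * f x1 := by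
  have h2 : ∀ x, (if P.gp x = M - 1 then f x else 1) = (if x = x0 then f x0 else 1) * (if x = x1 then f x1 else 1) := by
    intro x
    by_cases hx : P.gp x = M - 1
    · rw [if_pos hx]
      rcases h.pair x hx with rfl | rfl
      · rw [if_pos rfl, if_neg h.ne, mul_one]
      · rw [if_pos rfl, if_neg h.ne.symm, one_mul]
    · rw [if_neg hx, if_neg (fun h' : x = x0 => hx (by rw [h']; exact h.g0)), if_neg (fun h' : x = x1 => hx (by rw [h']; exact h.g1)), mul_one]
  rw [Finset.prod_congr rfl (fun x _ => h2 x), Finset.prod_mul_distrib, Finset.prod_ite_eq', Finset.prod_ite_eq',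
    if_pos (Finset.mem_univ _), if_pos (Finset.mem_univ _)]

theorem Last.g (h : Last P M x0 x1) (n : ι → ℕ) : P.g n (M - 1) = phi P.A P.L (n x0) * phi P.A P.L (n x1) := by
  unfold RP.g
  exact h.prod (fun x => phi P.A P.L (n x))

theorem Last.rho0 (h : Last P M x0 x1) (n : ι → ℕ) :
    P.rho0 n (M - 1) = (if n x0 = 0 then rr P.A P.L (n x0) else 0) + (if n x1 = 0 then rr P.A P.L (n x1) else 0) := by
  unfold RP.rho0
  have h2 := h.sum (fun x => if n x = 0 then rr P.A P.L (n x) else 0)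
  simp only [← ite_and] at h2
  rw [← h2]

theorem Last.rhop (h : Last P M x0 x1) (n : ι → ℕ) :
    P.rhop n (M - 1) = (if 1 ≤ n x0 then rr P.A P.L (n x0) else 0) + (if 1 ≤ n x1 then rr P.A P.L (n x1) else 0) := by
  unfold RP.rhop
  have h2 := h.sum (fun x => if 1 ≤ n x then rr P.A P.L (n x) else 0)
  simp only [← ite_and] at h2
  rw [← h2]

end last

theorem phi_low {A : ℝ} {L l : ℕ} (h : 2 * l ≤ L) : phi A L l = A + 2 ^ l - 1 := by
  induction l with
  | zero => unfold phi; simp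
  | succ l ih =>
    rw [phi_succ, ih (by omega)]
    have h1 : Dl L l = 2 ^ l := by
      unfold Dl; rw [if_pos (by omega)]; congr 1; omega
    rw [h1, pow_succ]; ring

theorem Dl_low {L l : ℕ} (h : 2 * l ≤ L) : Dl L l = 2 ^ l := by
  unfold Dl; rw [if_pos (by omega)]; congr 1; omega

/-- The numerical inequality in the lower half. -/
theorem low_ineq {A a b err : ℝ} (hA : 16 ≤ A) (herr0 : 0 ≤ err) (herr : err ≤ 1 / (2 * A)) {l0 l1 : ℕ} (ha : a = 2 ^ l0) (hb : b = 2 ^ l1) :
    (26 / 25) * ((if l0 = 0 then a * (A + b - 1) else 0) + (if l1 = 0 then b * (A + a - 1) else 0))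
      - (21 / 100) * ((if 1 ≤ l0 then a * (A + b - 1) else 0) + (if 1 ≤ l1 then b * (A + a - 1) else 0))
      + err * ((A + a - 1) * (A + b - 1)) ≤ 3 * A := by
  have ha1 : 1 ≤ a := by rw [ha]; exact one_le_pow₀ (by norm_num)
  have hb1 : 1 ≤ b := by rw [hb]; exact one_le_pow₀ (by norm_num)
  have hA0 : 0 < A := by linarith
  have hEA : err * A ≤ 1 / 2 := by
    rw [le_div_iff₀ (by positivity)] at herr; linarith
  have hE32 : err ≤ 1 / 32 := herr.trans (by apply one_div_le_one_div_of_le (by norm_num); linarith)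
  have hbA : 16 * b ≤ b * A := by nlinarith
  have haA : 16 * a ≤ a * A := by nlinarith
  have hXb : 0 ≤ A + b - 1 := by linarith
  have hXa : 0 ≤ A + a - 1 := by linarith
  have k1 : err * A * (A + b - 1) ≤ 1 / 2 * (A + b - 1) := mul_le_mul_of_nonneg_right hEA hXb
  have k2 : err * A * (A + a - 1) ≤ 1 / 2 * (A + a - 1) := mul_le_mul_of_nonneg_right hEA hXa
  have k3 : err * ((a - 1) * (A + b - 1)) ≤ 1 / 32 * ((a - 1) * (A + b - 1)) :=
    mul_le_mul_of_nonneg_right hE32 (mul_nonneg (by linarith) hXb)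
  have e1 : err * ((A + a - 1) * (A + b - 1)) = err * A * (A + b - 1) + err * ((a - 1) * (A + b - 1)) := by ring
  rcases Nat.eq_zero_or_pos l0 with h0 | h0 <;> rcases Nat.eq_zero_or_pos l1 with h0' | h0'
  · have ea : a = 1 := by rw [ha, h0]; simp
    have eb : b = 1 := by rw [hb, h0']; simp
    rw [if_pos h0, if_pos h0', if_neg (by omega), if_neg (by omega), e1]
    have e2 : err * ((a - 1) * (A + b - 1)) = 0 := by rw [ea]; ring
    rw [e2]
    rw [eb] at k1
    rw [ea, eb]
    linarith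
  · have ea : a = 1 := by rw [ha, h0]; simp
    rw [if_pos h0, if_neg (by omega), if_neg (by omega), if_pos (by omega), e1]
    have e2 : err * ((a - 1) * (A + b - 1)) = 0 := by rw [ea]; ring
    rw [e2]
    rw [ea]
    linarith
  · have eb : b = 1 := by rw [hb, h0']; simp
    rw [if_neg (by omega), if_pos h0', if_pos (by omega), if_neg (by omega)]
    have e2 : err * ((A + a - 1) * (A + b - 1)) = err * A * (A + a - 1) := by rw [eb]; ring
    rw [e2]
    rw [eb]
    linarith
  · rw [if_neg (by omega), if_neg (by omega), if_pos (by omega), if_pos (by omega), e1]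
    have k4 : 0 ≤ (a - 1) * (A + b - 1) := mul_nonneg (by linarith) hXb
    have k5 : b * (A + a - 1) ≥ b * A := by nlinarith
    have k6 : a * (A + b - 1) ≥ (a - 1) * (A + b - 1) := by linarith
    linarith

section main

variable {P : RP ι Q} {T : Finset Q} {lev : Q → ℕ} {site : ι → Q} {M : ℕ} {R : ℝ} {L' : ℕ} {ep lam K1 kap δ eta : ℝ} {τ : ℕ}
variable {x0 x1 : ι}

/-- The drift in the lower half. -/
theorem Pb_uf_low (h : CorrOK P T lev site M R L' ep lam K1 kap δ eta τ) (hM : 1 ≤ M) (hl : Last P M x0 x1)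
    (herr : M * P.d * (12 / R + 32 / L') + 2 * M * ep + (3 / 4) ^ τ * (Fintype.card Q) ^ 2 * Fintype.card ι * (6 * P.d) ≤ 1 / (2 * P.A))
    (c : ι → Q) (hc0 : 2 * lev (c x0) ≤ P.L) (hc1 : 2 * lev (c x1) ≤ P.L) (y e : Q) :
    (Pb T ^ τ) (uf P T lev site ep lam (M - 1) c) y e
      ≤ P.K / Fintype.card Q * (3 * P.A + (2 * P.d + 1) * (P.g (nc lev c) (M - 1) * P.Gf (nc lev c) (M - 1))) := by
  have hs : M - 1 < M := by omega
  have hn : (0 : ℝ) < Fintype.card Q := by exact_mod_cast Fintype.card_pos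
  set n : ℝ := (Fintype.card Q : ℝ) with hn'
  set g := P.g (nc lev c) (M - 1) with hgdef
  have hg : 0 < g := P.g_pos h.ok.hA (M - 1)
  have hK := h.ok.K0
  have hd := h.ok.d0
  have hd1 := h.ok.hd
  have hlam := h.lam0
  have hlam1 := h.lam1
  have hms := h.ok.m0 hs
  have hep := h.small.ep0
  have hR0 := h.ok.R0
  have hL0 := h.ok.L0
  have hm1 := hl.m1
  -- sup bound
  have hB : ∀ y e, |uf P T lev site ep lam (M - 1) c y e| ≤ Fintype.card ι * (6 * P.d * (P.K * g)) := by
    intro y e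
    refine (uf_abs h hs c y e).trans ?_
    simp only [Pi.smul_apply, smul_eq_mul]
    unfold wf
    have h1 : ∑ x, (if site x = y then P.w ep (nc lev c) (M - 1) x else 0) ≤ ∑ _x : ι, 3 * P.d * (P.K * g) := by
      apply Finset.sum_le_sum; intro x _
      split_ifs
      · exact RP.w_le h.ok h.small (nc lev c) hs x
      · positivity
    rw [Finset.sum_const, Finset.card_univ, nsmul_eq_mul] at h1
    have h2 : 0 ≤ ∑ x, (if site x = y then P.w ep (nc lev c) (M - 1) x else 0) := by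
      apply Finset.sum_nonneg; intro x _
      split_ifs
      · exact RP.w_nonneg h.ok hep (nc lev c) hs x
      · exact le_rfl
    calc (1 + lam) * ∑ x, (if site x = y then P.w ep (nc lev c) (M - 1) x else 0)
        ≤ 2 * (Fintype.card ι * (3 * P.d * (P.K * g))) := by
          apply mul_le_mul _ h1 h2 (by norm_num); linarith
      _ = _ := by ring
  have hB0 : 0 ≤ Fintype.card ι * (6 * P.d * (P.K * g)) := by positivity
  have h1 := (_root_.abs_le.mp (h.lamp.gap.Pb_mix (uf P T lev site ep lam (M - 1) c) hB0 hB τ y e)).2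
  rw [uf_sum h c] at h1
  have h2 := RP.drift h.ok (UD_c h.lamp h.ok.dp0 c) hs
  have h3 := RP.w_sum h.ok hep (nc lev c) hs
  have hr0 := RP.rho0_nonneg h.ok (nc lev c) (M - 1)
  have hrp := RP.rhop_nonneg h.ok (nc lev c) (M - 1)
  have hrs := P.rho_split (nc lev c) (M - 1)
  have hrho := RP.rho_le h.ok (nc lev c) hs
  have hG0 := P.Gf_nonneg (nc lev c) (M - 1)
  have hG1 : P.Gf (nc lev c) (M - 1) ≤ 1 := RP.Gf_le_one _ _
  set G := P.Gf (nc lev c) (M - 1) with hGdef
  rw [hrs] at hrho h2 h3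
  rw [hm1] at hrho h2 h3
  -- values
  have hgv : g = (P.A + 2 ^ (lev (c x0)) - 1) * (P.A + 2 ^ (lev (c x1)) - 1) := by
    rw [hgdef, hl.g]
    show phi P.A P.L (lev (c x0)) * phi P.A P.L (lev (c x1)) = _
    rw [phi_low hc0, phi_low hc1]
  obtain ⟨a, ha⟩ : ∃ a : ℝ, a = 2 ^ (lev (c x0)) := ⟨_, rfl⟩
  obtain ⟨b, hb⟩ : ∃ b : ℝ, b = 2 ^ (lev (c x1)) := ⟨_, rfl⟩
  have ha1 : 1 ≤ a := by rw [ha]; exact one_le_pow₀ (by norm_num)
  have hb1 : 1 ≤ b := by rw [hb]; exact one_le_pow₀ (by norm_num)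
  have hA16 := hl.A16
  rw [← ha, ← hb] at hgv
  have hra : g * rr P.A P.L (nc lev c x0) = a * (P.A + b - 1) := by
    have h5 := rr_mul h.ok.hA (L := P.L) (lev (c x0))
    rw [phi_low hc0, Dl_low hc0, ← ha] at h5
    rw [hgv]
    show (P.A + a - 1) * (P.A + b - 1) * rr P.A P.L (lev (c x0)) = _
    calc (P.A + a - 1) * (P.A + b - 1) * rr P.A P.L (lev (c x0)) = (rr P.A P.L (lev (c x0)) * (P.A + a - 1)) * (P.A + b - 1) := by ring
      _ = _ := by rw [h5]
  have hrb : g * rr P.A P.L (nc lev c x1) = b * (P.A + a - 1) := by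
    have h5 := rr_mul h.ok.hA (L := P.L) (lev (c x1))
    rw [phi_low hc1, Dl_low hc1, ← hb] at h5
    rw [hgv]
    show (P.A + a - 1) * (P.A + b - 1) * rr P.A P.L (lev (c x1)) = _
    calc (P.A + a - 1) * (P.A + b - 1) * rr P.A P.L (lev (c x1)) = (rr P.A P.L (lev (c x1)) * (P.A + b - 1)) * (P.A + a - 1) := by ring
      _ = _ := by rw [h5]
  have hgr0 : g * P.rho0 (nc lev c) (M - 1) = (if lev (c x0) = 0 then a * (P.A + b - 1) else 0) + (if lev (c x1) = 0 then b * (P.A + a - 1) else 0) := by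
    rw [hl.rho0, mul_add, mul_ite, mul_ite, mul_zero, hra, hrb]; rfl
  have hgrp : g * P.rhop (nc lev c) (M - 1) = (if 1 ≤ lev (c x0) then a * (P.A + b - 1) else 0) + (if 1 ≤ lev (c x1) then b * (P.A + a - 1) else 0) := by
    rw [hl.rhop, mul_add, mul_ite, mul_ite, mul_zero, hra, hrb]; rfl
  obtain ⟨err, herr'⟩ : ∃ err : ℝ, err = M * P.d * (12 / R + 32 / L') + 2 * M * ep + (3 / 4) ^ τ * n ^ 2 * Fintype.card ι * (6 * P.d) := ⟨_, rfl⟩
  rw [← herr'] at herr
  have herr0 : 0 ≤ err := by rw [herr']; positivity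
  have key := low_ineq hA16 herr0 herr ha hb
  rw [← hgr0, ← hgrp, ← hgv] at key
  obtain ⟨r0, hr0'⟩ : ∃ r0, r0 = P.rho0 (nc lev c) (M - 1) := ⟨_, rfl⟩
  obtain ⟨rp, hrp'⟩ : ∃ rp, rp = P.rhop (nc lev c) (M - 1) := ⟨_, rfl⟩
  rw [← hr0', ← hrp'] at key hrho h2 h3
  rw [← hr0'] at hr0
  rw [← hrp'] at hrp
  have hlamd : lam * (4 * P.d) = 1 / 25 := by rw [h.hlam]; field_simp; norm_num
  have hKg : 0 < P.K * g := by positivity
  have h4 : ∑ x, P.H (Uc T lev c) (Dc T lev c) (nc lev c) (M - 1) x + lam * ∑ x, P.w ep (nc lev c) (M - 1) x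
      ≤ P.K * g * ((26 / 25) * r0 - (21 / 100) * rp + G * (2 * P.d + 1) + (M * P.d * (12 / R + 32 / L') + 2 * M * ep)) := by
    have h5 := mul_le_mul_of_nonneg_left h3 hlam.le
    have h14 : lam * (2 * M * ep) ≤ 2 * M * ep := by
      have : 0 ≤ 2 * M * ep := by positivity
      nlinarith
    have h6 : (1 - G) * (r0 - rp / 4) + G * P.d * (r0 + rp) ≤ r0 - rp / 4 + G * (2 * P.d + 1) := by
      have h7 : G * P.d * (r0 + rp) ≤ G * P.d * 2 := by
        apply mul_le_mul_of_nonneg_left _ (by positivity); linarith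
      have h8 : G * (rp / 4) ≤ G * 1 := by
        apply mul_le_mul_of_nonneg_left _ hG0; linarith
      have h9 : 0 ≤ G * r0 := by positivity
      nlinarith
    have h10 : lam * (4 * P.d * (r0 + rp)) = (1 / 25) * (r0 + rp) := by rw [← hlamd]; ring
    have h11 : (1 - G) * (r0 - rp / 4) + G * P.d * (r0 + rp) + M * P.d * 1 * (12 / R + 32 / L')
        + lam * (2 * M * ep * 1 + 4 * P.d * (r0 + rp))
        ≤ (26 / 25) * r0 - (21 / 100) * rp + G * (2 * P.d + 1) + (M * P.d * (12 / R + 32 / L') + 2 * M * ep) := by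
      have : lam * (2 * M * ep * 1 + 4 * P.d * (r0 + rp)) = lam * (2 * M * ep) + lam * (4 * P.d * (r0 + rp)) := by ring
      rw [this, h10]
      linarith
    have h12 := mul_le_mul_of_nonneg_left h11 hKg.le
    linarith
  have h16 : n * (∑ x, P.H (Uc T lev c) (Dc T lev c) (nc lev c) (M - 1) x + lam * ∑ x, P.w ep (nc lev c) (M - 1) x) / n ^ 2
      = (∑ x, P.H (Uc T lev c) (Dc T lev c) (nc lev c) (M - 1) x + lam * ∑ x, P.w ep (nc lev c) (M - 1) x) / n := by
    field_simp
  rw [← hn'] at h1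
  rw [h16] at h1
  calc (Pb T ^ τ) (uf P T lev site ep lam (M - 1) c) y e
      ≤ (∑ x, P.H (Uc T lev c) (Dc T lev c) (nc lev c) (M - 1) x + lam * ∑ x, P.w ep (nc lev c) (M - 1) x) / n
        + (3 / 4) ^ τ * (n * (Fintype.card ι * (6 * P.d * (P.K * g)))) := by linarith
    _ ≤ (P.K * g * ((26 / 25) * r0 - (21 / 100) * rp + G * (2 * P.d + 1) + (M * P.d * (12 / R + 32 / L') + 2 * M * ep))) / n
        + (3 / 4) ^ τ * (n * (Fintype.card ι * (6 * P.d * (P.K * g)))) := by
        gcongr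
    _ = P.K / n * ((26 / 25) * (g * r0) - (21 / 100) * (g * rp) + err * g + (2 * P.d + 1) * (g * G)) := by
        rw [herr']; field_simp; ring
    _ ≤ P.K / n * (3 * P.A + (2 * P.d + 1) * (g * G)) := by
        apply mul_le_mul_of_nonneg_left _ (by positivity)
        linarith

end main

/-- Both lamps of the last group are in the lower half. -/
def PD.B (D : PD Q ι) (f : Q → Q) : Prop := 2 * D.lev (f (D.site D.x0)) ≤ D.P.L ∧ 2 * D.lev (f (D.site D.x1)) ≤ D.P.L

section green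

variable {D : PD Q ι} {T : Finset Q} {M : ℕ} {R : ℝ} {L' : ℕ} {ep lam K1 kap δ eta : ℝ} {τ : ℕ}

/-- The potential of the last group. -/
noncomputable def PD.gl (D : PD Q ι) (M : ℕ) (f : Q → Q) : ℝ := D.P.g (nc D.lev (cfg D.site f)) (M - 1)

/-- The visits of the sites, weighted by the potential. -/
noncomputable def PD.vis (D : PD Q ι) (M : ℕ) (u : LV Q) : ℝ := if ∃ x, D.site x = u.2.1 then D.gl M u.1 else 0

theorem PD.vis_nonneg (h : CorrOK D.P T D.lev D.site M R L' ep lam K1 kap δ eta τ) (u : LV Q) : 0 ≤ D.vis M u := by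
  unfold PD.vis PD.gl
  split_ifs
  · exact (D.P.g_pos h.ok.hA _).le
  · exact le_rfl

theorem PD.green (h : CorrOK D.P T D.lev D.site M R L' ep lam K1 kap δ eta τ) (hr : RecOK D.P M R L' eta) (ho : D.OK T)
    (hW : D.W0 = K1 * D.P.K) {u0 : LV Q} (hu0 : ∀ x, u0.1 (D.site x) = 1) (hM2 : 2 ≤ M) (hl : Last D.P M D.x0 D.x1)
    (herr : M * D.P.d * (12 / R + 32 / L') + 2 * M * ep + (3 / 4) ^ τ * (Fintype.card Q) ^ 2 * Fintype.card ι * (6 * D.P.d)
      ≤ 1 / (2 * D.P.A)) (N : ℕ) (hN : N ≤ (M - 1) * (Fintype.card Q * L')) :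
    (lam * ep * D.P.K / (4 * D.P.m 0 * D.CC0 T)) * ∑ r ∈ Finset.range N, (KO T D.W0 (D.CC0 T) D.wL D.B ^ r) (kl D.B (D.vis M)) u0
      ≤ 2 * D.P.A ^ 2 + N * (D.P.K / (2 * Fintype.card Q * D.CC0 T) * (3 * D.P.A + (4 * D.P.d + 2))) := by
  have hs : M - 1 < M := by omega
  have hn : (0 : ℝ) < Fintype.card Q := by exact_mod_cast Fintype.card_pos
  have hC := D.CC0_pos ho
  have hK0 := h.ok.K0
  have hd0 := h.ok.d0
  have hlam := h.lam0
  have hep := h.small.ep0
  have hm0 : 0 < D.P.m 0 := h.ok.m0 (by omega)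
  have hA16 := hl.A16
  set cst := lam * ep * D.P.K / (4 * D.P.m 0 * D.CC0 T) with hcst
  have hcst0 : 0 ≤ cst := by rw [hcst]; positivity
  set Ph := D.Ph T ep lam kap τ (M - 1) with hPh
  set KB := KO T D.W0 (D.CC0 T) D.wL D.B with hKB
  obtain ⟨gG, hgG⟩ : ∃ gG : LV Q → ℝ, gG = fun u => D.P.g (nc D.lev (cfg D.site u.1)) (M - 1) * D.P.Gf (nc D.lev (cfg D.site u.1)) (M - 1) := ⟨_, rfl⟩
  have hgG0 : ∀ u, 0 ≤ gG u := by
    intro u; rw [hgG]
    exact mul_nonneg (D.P.g_pos h.ok.hA _).le (D.P.Gf_nonneg _ _)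
  set a1 := D.P.K / (2 * Fintype.card Q * D.CC0 T) with ha1
  have ha10 : 0 ≤ a1 := by rw [ha1]; positivity
  have hPh0 : ∀ u, 0 ≤ Ph u := fun u => (D.Ph_pos h hs u).le
  -- one step
  have step : ∀ u, KB Ph u ≤ (Ph + (a1 * (3 * D.P.A)) • (fun _ => (1 : ℝ)) + (a1 * (2 * D.P.d + 1)) • gG - cst • kl D.B (D.vis M) : LV Q → ℝ) u := by
    intro u
    simp only [Pi.sub_apply, Pi.add_apply, Pi.smul_apply, smul_eq_mul, mul_one]
    rw [hKB, KO_apply, kl_apply]
    by_cases hB : D.B u.1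
    · rw [if_pos hB, if_pos hB]
      have h1 := (D.AW_L ho).mono (F := kl D.B Ph) (G := Ph) (kl_le hPh0) u
      have h2 := D.step0 h ho hW hs u
      rw [← hPh] at h2
      have h3 := Pb_uf_low h (by omega) hl herr (cfg D.site u.1) hB.1 hB.2 u.2.1 u.2.2
      have h4 : cst * D.vis M u ≤ lam / 2 * D.ws ep (M - 1) u / (2 * D.CC0 T) := by
        by_cases hx : ∃ x, D.site x = u.2.1
        · obtain ⟨x, hx⟩ := hx
          have e1 : D.ws ep (M - 1) u = D.P.w ep (nc D.lev (cfg D.site u.1)) (M - 1) x := by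
            unfold PD.ws
            rw [Finset.sum_eq_single_of_mem x (Finset.mem_univ x)]
            · rw [if_pos hx]
            · intro z _ hz; rw [if_neg (fun h' => hz (ho.inj (h'.trans hx.symm)))]
          have e2 : D.vis M u = D.P.g (nc D.lev (cfg D.site u.1)) (M - 1) := by
            unfold PD.vis PD.gl; rw [if_pos ⟨x, hx⟩]
          rw [e1, e2]
          have h5 := RP.w_ge h.ok h.small (nc D.lev (cfg D.site u.1)) hs x
          have h6 : lam / 2 * (ep / D.P.m 0 * (D.P.K * D.P.g (nc D.lev (cfg D.site u.1)) (M - 1))) / (2 * D.CC0 T)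
              ≤ lam / 2 * D.P.w ep (nc D.lev (cfg D.site u.1)) (M - 1) x / (2 * D.CC0 T) := by
            gcongr
          refine le_trans (le_of_eq ?_) h6
          rw [hcst]; field_simp; ring
        · have e2 : D.vis M u = 0 := by unfold PD.vis; rw [if_neg hx]
          rw [e2, mul_zero]
          have := D.ws_nonneg h hs u
          positivity
      have h5 : (Pb T ^ τ) (uf D.P T D.lev D.site ep lam (M - 1) (cfg D.site u.1)) u.2.1 u.2.2 / (2 * D.CC0 T)
          ≤ a1 * (3 * D.P.A) + a1 * (2 * D.P.d + 1) * gG u := by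
        have h6 := div_le_div_of_nonneg_right h3 (by positivity : 0 ≤ 2 * D.CC0 T)
        refine h6.trans (le_of_eq ?_)
        rw [ha1, hgG]; field_simp
      rw [sub_div] at h2
      linarith
    · rw [if_neg hB, if_neg hB, mul_zero, sub_zero]
      have := hPh0 u
      have := hgG0 u
      have hA0 : 0 ≤ D.P.A := by linarith
      positivity
  -- iterate
  have hAW := D.AW_L ho
  have hgGs : ∀ r < N, (KB ^ r) gG u0 ≤ 2 := by
    intro r hr'
    refine (hAW.KO_pow_le ho.card r hgG0 u0).trans ?_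
    rw [hgG]
    exact D.gGf_bound h hr ho hW hu0 hM2 hl.m1 r (by omega)
  have h1s : ∀ r, (KB ^ r) (fun _ => (1 : ℝ)) u0 ≤ 1 := by
    intro r
    refine (hAW.KO_pow_le ho.card r (fun _ => zero_le_one) u0).trans ?_
    rw [OpL_pow_one ho.card]
  have iter : ∀ r ≤ N, (KB ^ r) Ph u0 + cst * ∑ i ∈ Finset.range r, (KB ^ i) (kl D.B (D.vis M)) u0
      ≤ Ph u0 + r * (a1 * (3 * D.P.A + (4 * D.P.d + 2))) := by
    intro r
    induction r with
    | zero => intro _; simp
    | succ r ih =>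
      intro hr'
      have ih' := ih (by omega)
      have h2 := hAW.KO_pow_mono (A := D.B) r step u0
      rw [← hKB] at h2
      rw [map_sub, map_add, map_add, map_smul, map_smul, map_smul] at h2
      simp only [Pi.sub_apply, Pi.add_apply, Pi.smul_apply, smul_eq_mul] at h2
      rw [pow_succ, Module.End.mul_apply, Finset.sum_range_succ]
      have h3 := hgGs r (by omega)
      have h4 := h1s r
      have h5 : a1 * (3 * D.P.A) * (KB ^ r) (fun _ => (1 : ℝ)) u0 ≤ a1 * (3 * D.P.A) * 1 := by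
        apply mul_le_mul_of_nonneg_left h4
        have hA0 : 0 ≤ D.P.A := by linarith
        positivity
      have h6 : a1 * (2 * D.P.d + 1) * (KB ^ r) gG u0 ≤ a1 * (2 * D.P.d + 1) * 2 :=
        mul_le_mul_of_nonneg_left h3 (by positivity)
      push_cast
      linarith
  have h7 := iter N le_rfl
  have h8 := hAW.KO_pow_nonneg (A := D.B) ho.card N hPh0 u0
  rw [← hKB] at h8
  have h9 : Ph u0 ≤ 2 * D.P.A ^ 2 := by
    have h2 := (D.Ph_bounds h hs u0).2
    rw [hl.g] at h2
    have h3 : ∀ x, nc D.lev (cfg D.site u0.1) x = 0 := by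
      intro x; unfold nc cfg; rw [hu0]; exact h.lamp.lev1
    rw [h3, h3] at h2
    have h4 : phi D.P.A D.P.L 0 = D.P.A := rfl
    rw [h4] at h2
    rw [hPh]
    linarith [h2]
  linarith

end green

end PC

end Pool.Agent.H984
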