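import Pool.Agent.H984.Lamp

/-!
H984: the recursion over the groups: the last group stays near the identity for a long time.
-/

set_option autoImplicit false

open Classical

namespace Pool.Agent.H984

theorem exp_three_fifths : Real.exp (3 / 5) ≤ 2 := by
  have h1 : Real.exp (3 / 5) ^ 5 = Real.exp 3 := by rw [← Real.exp_nat_mul]; norm_num
  have h2 : Real.exp 3 = Real.exp 1 ^ 3 := by rw [← Real.exp_nat_mul]; norm_num
  have h3 : Real.exp 1 < 2.7182818286 := Real.exp_one_lt_d9
  have h4 : Real.exp 1 ^ 3 ≤ 2 ^ 5 := by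
    calc Real.exp 1 ^ 3 ≤ 2.7182818286 ^ 3 := by gcongr
      _ ≤ 2 ^ 5 := by norm_num
  have h5 : Real.exp (3 / 5) ^ 5 ≤ 2 ^ 5 := by rw [h1, h2]; exact h4
  exact le_of_pow_le_pow_left₀ (by norm_num) (by norm_num) h5

/-- A linear recursion. -/
theorem lin_rec {z : ℕ → ℝ} {b c : ℝ} (hb : 0 ≤ b) (hc : 0 ≤ c) (h0 : 0 ≤ z 0) {n : ℕ}
    (h : ∀ t < n, z (t + 1) ≤ z t * (1 + b) + c) {t : ℕ} (ht : t ≤ n) : z t ≤ (z 0 + t * c) * (1 + b) ^ t := by
  induction t with
  | zero => simp
  | succ t ih =>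
    have h1 := h t (by omega)
    have h2 := ih (by omega)
    have h3 : (1 : ℝ) ≤ (1 + b) ^ (t + 1) := one_le_pow₀ (by linarith)
    calc z (t + 1) ≤ z t * (1 + b) + c := h1
      _ ≤ ((z 0 + t * c) * (1 + b) ^ t) * (1 + b) + c * (1 + b) ^ (t + 1) := by
          apply add_le_add
          · exact mul_le_mul_of_nonneg_right h2 (by linarith)
          · nlinarith
      _ = _ := by push_cast; ring

theorem geo_rec {z : ℕ → ℝ} {a : ℝ} (ha : 0 ≤ a) {t0 n : ℕ} (h : ∀ t, z (t + 1) ≤ z t * (1 + a)) {Z : ℝ}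
    (hz : z t0 ≤ Z) (hZ : 0 ≤ Z) {t : ℕ} (h1 : t0 ≤ t) (h2 : t ≤ t0 + n) : z t ≤ Z * (1 + a) ^ n := by
  have key : ∀ k, z (t0 + k) ≤ Z * (1 + a) ^ k := by
    intro k
    induction k with
    | zero => simpa using hz
    | succ k ih =>
      have h3 := h (t0 + k)
      rw [← add_assoc]
      calc z (t0 + k + 1) ≤ z (t0 + k) * (1 + a) := h3
        _ ≤ (Z * (1 + a) ^ k) * (1 + a) := mul_le_mul_of_nonneg_right ih (by linarith)
        _ = _ := by ring
  obtain ⟨k, rfl⟩ : ∃ k, t = t0 + k := ⟨t - t0, by omega⟩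
  refine (key k).trans ?_
  apply mul_le_mul_of_nonneg_left _ hZ
  exact pow_le_pow_right₀ (by linarith) (by omega)

theorem one_add_pow_le {b : ℝ} (hb : 0 ≤ b) (n : ℕ) : (1 + b) ^ n ≤ Real.exp (n * b) := by
  rw [Real.exp_nat_mul]
  apply pow_le_pow_left₀ (by linarith)
  have := Real.add_one_le_exp b; linarith

variable {ι E : Type} [Fintype ι] [Fintype E]

/-- Lower bound of `g` by the total level. -/
theorem RP.g_ge {P : RP ι E} (hA : 1 ≤ P.A) (hL : 5 ≤ P.L) {n : ι → ℕ} (hn : ∀ x, n x ≤ P.L + 1) (s : ℕ) :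
    Real.exp ((P.lv n s : ℝ) / 5) ≤ P.g n s := by
  have h1 : (2 : ℝ) ^ (P.lv n s) ≤ P.g n s ^ 3 := by
    unfold RP.lv RP.g
    rw [← Finset.prod_pow, ← Finset.prod_pow_eq_pow_sum]
    apply Finset.prod_le_prod
    · intro x _; positivity
    · intro x _
      split_ifs
      · exact phi_cube hA hL (hn x)
      · simp
  have h2 : Real.exp ((P.lv n s : ℝ) / 5) ^ 3 ≤ P.g n s ^ 3 := by
    refine le_trans ?_ h1
    have : Real.exp ((P.lv n s : ℝ) / 5) ^ 3 = Real.exp (3 / 5) ^ (P.lv n s) := by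
      rw [← Real.exp_nat_mul, ← Real.exp_nat_mul]; congr 1; push_cast; ring
    rw [this]
    exact pow_le_pow_left₀ (Real.exp_pos _).le exp_three_fifths _
  exact le_of_pow_le_pow_left₀ (by norm_num) (P.g_pos hA s).le h2

/-- Upper bound of `g`. -/
theorem RP.g_le {P : RP ι E} {M : ℕ} {R : ℝ} {L' : ℕ} (h : P.OK M R L') (hAL : P.A ≤ 2 ^ (P.L + 1)) {n : ι → ℕ}
    (hn : ∀ x, n x ≤ P.L + 1) {s : ℕ} (hs : s < M) : P.g n s ≤ Real.exp (2 * P.m s * (P.L + 2)) := by
  have hphi : ∀ x, phi P.A P.L (n x) ≤ Real.exp (P.L + 2) := by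
    intro x
    have h1 := phi_le (A := P.A) (L := P.L) (n x)
    have h2 : (2 : ℝ) ^ (n x) ≤ 2 ^ (P.L + 1) := pow_le_pow_right₀ (by norm_num) (hn x)
    have h3 : (2 : ℝ) ≤ Real.exp 1 := by have := Real.exp_one_gt_d9; linarith
    calc phi P.A P.L (n x) ≤ 2 ^ (P.L + 1) + 2 ^ (P.L + 1) := by linarith
      _ = 2 ^ (P.L + 2) := by ring
      _ ≤ Real.exp 1 ^ (P.L + 2) := by gcongr
      _ = Real.exp (P.L + 2) := by rw [← Real.exp_nat_mul]; congr 1; push_cast; ring
  have h4 : P.g n s ≤ ∏ x, (if P.gp x = s then Real.exp (P.L + 2) else 1) := by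
    unfold RP.g
    apply Finset.prod_le_prod
    · intro x _
      split_ifs
      · exact (phi_pos h.hA _).le
      · norm_num
    · intro x _
      split_ifs
      · exact hphi x
      · exact le_rfl
  refine h4.trans (le_of_eq ?_)
  have h5 : ∀ x, (if P.gp x = s then Real.exp ((P.L : ℝ) + 2) else 1) = Real.exp ((if P.gp x = s then (1 : ℝ) else 0) * (P.L + 2)) := by
    intro x; split_ifs <;> simp
  rw [Finset.prod_congr rfl (fun x _ => h5 x), ← Real.exp_sum, ← Finset.sum_mul, RP.card2 h hs]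

theorem RP.g_zero {P : RP ι E} {M : ℕ} {R : ℝ} {L' : ℕ} (h : P.OK M R L') {s : ℕ} (hs : s < M) :
    P.g (fun _ => 0) s = Real.exp (2 * P.m s * Real.log P.A) := by
  have hA : 0 < P.A := by have := h.hA; linarith
  unfold RP.g
  have h5 : ∀ x, (if P.gp x = s then phi P.A P.L 0 else 1) = Real.exp ((if P.gp x = s then (1 : ℝ) else 0) * Real.log P.A) := by
    intro x; split_ifs
    · rw [one_mul, Real.exp_log hA]; rfl
    · simp
  rw [Finset.prod_congr rfl (fun x _ => h5 x), ← Real.exp_sum, ← Finset.sum_mul, RP.card2 h hs]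

theorem RP.Gf_le_one {P : RP ι E} [Nonempty E] (n : ι → ℕ) (s : ℕ) : P.Gf n s ≤ 1 := by
  have := P.sum_nu n s
  have h5 : 0 ≤ ∑ i ∈ Finset.range s, P.nu n s i := Finset.sum_nonneg (fun i _ => P.nu_nonneg _ s i)
  linarith

theorem RP.own_of_Gf {P : RP ι E} {n : ι → ℕ} {s : ℕ} (h : P.Gf n s ≠ 0) (hs : 1 ≤ s) : P.tau (s - 1) ≤ P.lv n (s - 1) := by
  have : ∃ e : E, P.own n e s := by
    by_contra hc
    push Not at hc
    apply h
    unfold RP.Gf
    rw [Finset.sum_eq_zero, zero_div]
    intro e _; rw [if_neg (hc e)]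
  obtain ⟨e, he⟩ := this
  have := he (s - 1) (by omega)
  omega

variable {Q : Type} [Group Q] [Fintype Q]
variable {T : Finset Q} {h1 : (1 : Q) ∉ T} {hinv : ∀ t ∈ T, t⁻¹ ∈ T}

/-- Extra numeric hypotheses for the recursion. -/
structure RecOK (P : RP ι Q) (M : ℕ) (R : ℝ) (L' : ℕ) (eta : ℝ) : Prop where
  M1 : 1 ≤ M
  R2 : 2000 ≤ R
  AL : P.A ≤ 2 ^ (P.L + 1)
  eta0 : 0 ≤ eta
  etaM : eta * M ≤ 1
  L20 : 20 ≤ L'
  big : ∀ s < M, 2 * Real.exp (2 * P.m s * Real.log P.A) + M * P.tau s ≤ Real.exp (P.tau s / 200)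

section rec

variable {P : RP ι Q} {lev : Q → ℕ} {site : ι → Q} {M : ℕ} {R : ℝ} {L' : ℕ} {ep lam kap δ eta : ℝ} {τ : ℕ} {K1 K : ℕ}

/-- The expected corrected potential. -/
noncomputable def ys (T : Finset Q) (h1 : (1 : Q) ∉ T) (hinv : ∀ t ∈ T, t⁻¹ ∈ T) (P : RP ι Q) (lev : Q → ℕ) (site : ι → Q)
    (ep lam kap : ℝ) (τ K1 K : ℕ) (u0 : LV Q × (Fin K1 × Fin K)) (s t : ℕ) : ℝ :=
  wpow (Gp2 T h1 hinv P lev site K1 K) t (fun v => Phi P T lev site ep lam kap τ s v.1) u0

theorem ys_crude (h : CorrOK P T lev site M R L' ep lam K1 kap δ eta τ) (heta : 0 ≤ eta) (hinj : Function.Injective site)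
    (hK : P.K = K) {s : ℕ} (hs : s < M) (u0 : LV Q × (Fin K1 × Fin K)) (t : ℕ) :
    ys T h1 hinv P lev site ep lam kap τ K1 K u0 s (t + 1)
      ≤ ys T h1 hinv P lev site ep lam kap τ K1 K u0 s t * (1 + kap * P.K / Fintype.card Q * (P.m s * (4 * P.d + eta))) := by
  unfold ys
  rw [wpow_succ]
  have hal : 0 ≤ kap * P.K / Fintype.card Q := by have := h.kap0; have := h.ok.K0; positivity
  have hms := h.ok.m0 hs
  have hd := h.ok.d0
  refine (wpow_mono _ t (F' := fun v : LV Q × (Fin K1 × Fin K) =>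
    (1 + kap * P.K / Fintype.card Q * (P.m s * (4 * P.d + eta))) * Phi P T lev site ep lam kap τ s v.1 + 0 * 0) ?_ u0).trans ?_
  · intro v
    refine (step h heta hinj hK hs v).trans ?_
    rw [mul_comm, mul_zero, add_zero]
    have h2 := (Fc_bounds h hs (cfg site v.1.1) v.1.2.1 v.1.2.2).1
    have h3 := P.g_pos h.ok.hA (n := nc lev (cfg site v.1.1)) s
    have h4 : 0 ≤ Phi P T lev site ep lam kap τ s v.1 := by unfold Phi; linarith
    apply mul_le_mul_of_nonneg_right _ h4
    have h5 := RP.Gf_le_one (P := P) (nc lev (cfg site v.1.1)) s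
    have h6 : P.m s * (4 * P.d * P.Gf (nc lev (cfg site v.1.1)) s + eta) ≤ P.m s * (4 * P.d + eta) := by
      apply mul_le_mul_of_nonneg_left _ hms.le
      nlinarith
    have := mul_le_mul_of_nonneg_left h6 hal
    linarith
  · rw [wpow_lin _ t (fun v : LV Q × (Fin K1 × Fin K) => Phi P T lev site ep lam kap τ s v.1) (fun _ => 0)]
    apply le_of_eq; ring

theorem ys_fine (h : CorrOK P T lev site M R L' ep lam K1 kap δ eta τ) (hr : RecOK P M R L' eta) (hinj : Function.Injective site)
    (hK : P.K = K) {s : ℕ} (hs : s < M) (hs1 : 1 ≤ s) (u0 : LV Q × (Fin K1 × Fin K)) (t : ℕ) :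
    ys T h1 hinv P lev site ep lam kap τ K1 K u0 s (t + 1)
      ≤ ys T h1 hinv P lev site ep lam kap τ K1 K u0 s t * (1 + kap * P.K / Fintype.card Q * (P.m s * eta))
        + kap * P.K / Fintype.card Q * (P.m s * (4 * P.d))
          * (4 * Real.exp (2 * P.m s * (P.L + 2)) * Real.exp (- (P.tau (s - 1) / 5)))
          * ys T h1 hinv P lev site ep lam kap τ K1 K u0 (s - 1) t := by
  have hL5 : 5 ≤ P.L := by rw [h.ok.hL]; have := h.ok.hL1; omega
  unfold ys
  rw [wpow_succ]
  have hal : 0 ≤ kap * P.K / Fintype.card Q := by have := h.kap0; have := h.ok.K0; positivity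
  have hms := h.ok.m0 hs
  have hd := h.ok.d0
  set al := kap * P.K / Fintype.card Q with hal'
  set C := al * (P.m s * (4 * P.d)) * (4 * Real.exp (2 * P.m s * (P.L + 2)) * Real.exp (- (P.tau (s - 1) / 5))) with hC
  refine (wpow_mono _ t (F' := fun v : LV Q × (Fin K1 × Fin K) => (1 + al * (P.m s * eta)) * Phi P T lev site ep lam kap τ s v.1
    + C * Phi P T lev site ep lam kap τ (s - 1) v.1) ?_ u0).trans ?_
  · intro v
    refine (step h hr.eta0 hinj hK hs v).trans ?_
    obtain ⟨h2, h2'⟩ := Fc_bounds h hs (cfg site v.1.1) v.1.2.1 v.1.2.2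
    have h3 := (Fc_bounds h (by omega : s - 1 < M) (cfg site v.1.1) v.1.2.1 v.1.2.2).1
    set n := nc lev (cfg site v.1.1) with hn
    have hg := P.g_pos h.ok.hA (n := n) s
    have hg' := P.g_pos h.ok.hA (n := n) (s - 1)
    set X := Phi P T lev site ep lam kap τ s v.1 with hX
    set Y := Phi P T lev site ep lam kap τ (s - 1) v.1 with hY
    have hX1 : X ≤ 2 * P.g n s := h2'
    have hX0 : 0 ≤ X := by have : P.g n s / 2 ≤ X := h2; linarith
    have hY1 : P.g n (s - 1) / 2 ≤ Y := h3
    have hlv : ∀ x, n x ≤ P.L + 1 := fun x => h.lamp.top _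
    have key : X * P.Gf n s ≤ 4 * Real.exp (2 * P.m s * (P.L + 2)) * Real.exp (- (P.tau (s - 1) / 5)) * Y := by
      by_cases hG : P.Gf n s = 0
      · rw [hG, mul_zero]
        have : 0 ≤ Y := by linarith
        positivity
      · have h4 := RP.own_of_Gf hG hs1
        have h5 := RP.g_ge h.ok.hA hL5 hlv (s - 1)
        have h6 : Real.exp (P.tau (s - 1) / 5) ≤ Real.exp ((P.lv n (s - 1) : ℝ) / 5) := by
          apply Real.exp_le_exp.mpr
          have : (P.tau (s - 1) : ℝ) ≤ P.lv n (s - 1) := by exact_mod_cast h4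
          linarith
        have h7 := RP.g_le h.ok hr.AL hlv hs
        have h8 := RP.Gf_le_one (P := P) n s
        have h9 := P.Gf_nonneg n s
        have h10 : 1 ≤ Real.exp (- (P.tau (s - 1) / 5)) * (2 * Y) := by
          rw [Real.exp_neg]
          rw [← div_eq_inv_mul, le_div_iff₀ (Real.exp_pos _)]
          linarith
        calc X * P.Gf n s ≤ X * 1 := mul_le_mul_of_nonneg_left h8 hX0
          _ ≤ 2 * Real.exp (2 * P.m s * (P.L + 2)) := by linarith
          _ = 2 * Real.exp (2 * P.m s * (P.L + 2)) * 1 := by ring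
          _ ≤ 2 * Real.exp (2 * P.m s * (P.L + 2)) * (Real.exp (- (P.tau (s - 1) / 5)) * (2 * Y)) := by
              apply mul_le_mul_of_nonneg_left h10; positivity
          _ = _ := by ring
    have h11 := mul_le_mul_of_nonneg_left key (by positivity : 0 ≤ al * (P.m s * (4 * P.d)))
    calc X * (1 + al * (P.m s * (4 * P.d * P.Gf n s + eta)))
        = (1 + al * (P.m s * eta)) * X + al * (P.m s * (4 * P.d)) * (X * P.Gf n s) := by ring
      _ ≤ (1 + al * (P.m s * eta)) * X + al * (P.m s * (4 * P.d)) * (4 * Real.exp (2 * P.m s * (P.L + 2)) * Real.exp (- (P.tau (s - 1) / 5)) * Y) := by linarith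
      _ = _ := by rw [hC]; ring
  · rw [wpow_lin]
    apply le_of_eq; ring

theorem ys_nonneg (h : CorrOK P T lev site M R L' ep lam K1 kap δ eta τ) {s : ℕ} (hs : s < M)
    (u0 : LV Q × (Fin K1 × Fin K)) (t : ℕ) : 0 ≤ ys T h1 hinv P lev site ep lam kap τ K1 K u0 s t := by
  unfold ys
  apply wpow_nonneg
  intro v
  have h2 := (Fc_bounds h hs (cfg site v.1.1) v.1.2.1 v.1.2.2).1
  have h3 := P.g_pos h.ok.hA (n := nc lev (cfg site v.1.1)) s
  unfold Phi; linarith

/-- The starting vertex. -/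
def start (Q : Type) [Group Q] {K1 K : ℕ} (i : Fin K1 × Fin K) : LV Q × (Fin K1 × Fin K) := ((fun _ => 1, 1, 1), i)

theorem ys_zero (h : CorrOK P T lev site M R L' ep lam K1 kap δ eta τ) (i : Fin K1 × Fin K) {s : ℕ} (hs : s < M) :
    ys T h1 hinv P lev site ep lam kap τ K1 K (start Q i) s 0 ≤ 2 * Real.exp (2 * P.m s * Real.log P.A) := by
  unfold ys
  rw [wpow_zero, ← RP.g_zero h.ok hs]
  have h2 := (Fc_bounds h hs (cfg site (fun _ => 1)) 1 1).2
  have h3 : nc lev (cfg site (fun _ => (1 : Q))) = fun _ => 0 := by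
    ext x; exact h.lamp.lev1
  rw [h3] at h2
  exact h2

omit [Fintype ι] [Group Q] [Fintype Q] in
theorem numA {kk d eta tau : ℝ} (hkk : kk = 1 / (40000 * d * d)) (hd : 10000 ≤ d) (heta1 : eta ≤ 1) (htau : 0 ≤ tau) :
    kk * tau * (4 * d + eta) ≤ tau / 1000 := by
  have hd0 : 0 < d := by linarith
  rw [hkk]
  have : 1 / (40000 * d * d) * tau * (4 * d + eta) = tau * ((4 * d + eta) / (40000 * d * d)) := by ring
  rw [this, div_eq_mul_one_div tau 1000]
  apply mul_le_mul_of_nonneg_left _ htau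
  rw [div_le_div_iff₀ (by positivity) (by norm_num)]
  nlinarith

/-- The claim on all groups. -/
theorem ys_bound (h : CorrOK P T lev site M R L' ep lam K1 kap δ eta τ) (hr : RecOK P M R L' eta) (hinj : Function.Injective site)
    (hK : P.K = K) (i : Fin K1 × Fin K) (s : ℕ) (hs : s < M) (t : ℕ) (ht : t ≤ (s + 1) * (Fintype.card Q * L')) :
    ys T h1 hinv P lev site ep lam kap τ K1 K (start Q i) s t ≤ Real.exp (P.tau s / 100) := by
  have hn : (0 : ℝ) < Fintype.card Q := by exact_mod_cast Fintype.card_pos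
  have hkap0 := h.kap0
  have hK0 := h.ok.K0
  have hd0 := h.ok.d0
  have hd := h.ok.hd
  have hLpos := h.ok.L0
  have heta0 := hr.eta0
  obtain ⟨kk, hkk'⟩ : ∃ kk, kk = kap * P.K := ⟨_, rfl⟩
  have hkK : kk = 1 / (40000 * P.d * P.d) := by
    have := h.kapK
    have h2 : kk = kap * (P.d * P.K) / P.d := by rw [hkk']; field_simp
    rw [h2, this]; field_simp
  have hkk0 : 0 < kk := by rw [hkK]; positivity
  have heta1 : eta ≤ 1 := by
    have h2 : (1 : ℝ) ≤ M := by exact_mod_cast hr.M1
    have := hr.etaM; nlinarith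
  -- the growth over one stage
  have stage : ∀ s < M, ∀ t0 t : ℕ, ∀ Z : ℝ, 0 ≤ Z → ys T h1 hinv P lev site ep lam kap τ K1 K (start Q i) s t0 ≤ Z →
      t0 ≤ t → t ≤ t0 + Fintype.card Q * L' → ys T h1 hinv P lev site ep lam kap τ K1 K (start Q i) s t ≤ Z * Real.exp (P.tau s / 1000) := by
    intro s hs t0 t Z hZ hz h3 h4
    have hms := h.ok.m0 hs
    have ha : 0 ≤ kap * P.K / Fintype.card Q * (P.m s * (4 * P.d + eta)) := by positivity
    have h5 := geo_rec ha (fun t => ys_crude (h1 := h1) (hinv := hinv) h heta0 hinj hK hs (start Q i) t) hz hZ h3 h4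
    refine h5.trans (mul_le_mul_of_nonneg_left ((one_add_pow_le ha _).trans ?_) hZ)
    apply Real.exp_le_exp.mpr
    have e1 : ((Fintype.card Q * L' : ℕ) : ℝ) * (kap * P.K / Fintype.card Q * (P.m s * (4 * P.d + eta)))
        = kk * P.tau s * (4 * P.d + eta) := by
      rw [h.ok.tau s hs, hkk']; push_cast; field_simp
    rw [e1]
    exact numA hkK hd heta1 (Nat.cast_nonneg _)
  have fin : ∀ x : ℝ, 0 ≤ x → Real.exp (x / 200) * Real.exp (x / 1000) * Real.exp (x / 1000) ≤ Real.exp (x / 100) := by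
    intro x hx
    rw [← Real.exp_add, ← Real.exp_add]
    apply Real.exp_le_exp.mpr; linarith
  have fin1 : ∀ x : ℝ, 0 ≤ x → Real.exp (x / 200) * Real.exp (x / 1000) ≤ Real.exp (x / 100) := by
    intro x hx
    rw [← Real.exp_add]
    apply Real.exp_le_exp.mpr; linarith
  have init : ∀ s < M, ys T h1 hinv P lev site ep lam kap τ K1 K (start Q i) s 0 + M * P.tau s ≤ Real.exp (P.tau s / 200) := by
    intro s hs
    have h2 := ys_zero (h1 := h1) (hinv := hinv) h i hs
    have := hr.big s hs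
    linarith
  induction s generalizing t with
  | zero =>
    have h2 := init 0 hs
    have h3 : ys T h1 hinv P lev site ep lam kap τ K1 K (start Q i) 0 0 ≤ Real.exp (P.tau 0 / 200) := by
      have : (0 : ℝ) ≤ M * P.tau 0 := by positivity
      linarith
    refine (stage 0 hs 0 t _ (Real.exp_pos _).le h3 (Nat.zero_le _) (by simpa using ht)).trans ?_
    exact fin1 _ (Nat.cast_nonneg _)
  | succ s ih =>
    have hsM : s < M := by omega
    have hms := h.ok.m0 hs
    have hms' := h.ok.m0 hsM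
    obtain ⟨al, hal⟩ : ∃ al, al = kap * P.K / (Fintype.card Q : ℝ) := ⟨_, rfl⟩
    have hal0 : 0 ≤ al := by rw [hal]; positivity
    have hT1 : al * ((Fintype.card Q : ℝ) * L') = kk * L' := by rw [hal, hkk']; field_simp
    have htau := h.ok.tau (s + 1) hs
    have htau' := h.ok.tau s hsM
    have hRm := h.ok.mR s (s + 1) (by omega) hs
    have hR2 := hr.R2
    have htt : 2000 * (P.tau (s + 1) : ℝ) ≤ P.tau s := by
      rw [htau, htau']
      have : 2000 * P.m (s + 1) ≤ P.m s := by nlinarith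
      nlinarith
    -- the first part
    have part1 : ∀ t, t ≤ (s + 1) * (Fintype.card Q * L') →
        ys T h1 hinv P lev site ep lam kap τ K1 K (start Q i) (s + 1) t ≤ Real.exp (P.tau (s + 1) / 200) * Real.exp (P.tau (s + 1) / 1000) := by
      intro t ht
      have hb : 0 ≤ al * (P.m (s + 1) * eta) := by positivity
      have hc : 0 ≤ al * (P.m (s + 1) * (16 * P.d)) := by positivity
      have hrec : ∀ t < (s + 1) * (Fintype.card Q * L'),
          ys T h1 hinv P lev site ep lam kap τ K1 K (start Q i) (s + 1) (t + 1)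
            ≤ ys T h1 hinv P lev site ep lam kap τ K1 K (start Q i) (s + 1) t * (1 + al * (P.m (s + 1) * eta))
              + al * (P.m (s + 1) * (16 * P.d)) := by
        intro t ht
        have h2 := ys_fine (h1 := h1) (hinv := hinv) h hr hinj hK hs (by omega) (start Q i) t
        rw [← hal] at h2
        have h3 := ih hsM t (le_of_lt ht)
        simp only [Nat.add_sub_cancel] at h2
        refine h2.trans ?_
        apply add_le_add le_rfl
        have h4 : (4 * Real.exp (2 * P.m (s + 1) * (P.L + 2)) * Real.exp (- (P.tau s / 5)))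
            * ys T h1 hinv P lev site ep lam kap τ K1 K (start Q i) s t ≤ 4 := by
          calc _ ≤ (4 * Real.exp (2 * P.m (s + 1) * (P.L + 2)) * Real.exp (- (P.tau s / 5))) * Real.exp (P.tau s / 100) :=
                mul_le_mul_of_nonneg_left h3 (by positivity)
            _ = 4 * Real.exp (2 * P.m (s + 1) * (P.L + 2) + (- (P.tau s / 5)) + P.tau s / 100) := by
                rw [Real.exp_add, Real.exp_add]; ring
            _ ≤ 4 * 1 := by
                apply mul_le_mul_of_nonneg_left _ (by norm_num)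
                apply Real.exp_le_one_iff.mpr
                have h5 : 2 * P.m (s + 1) * (P.L + 2) ≤ 204 * P.tau (s + 1) := by
                  rw [htau, h.ok.hL]; push_cast
                  have : (1 : ℝ) ≤ L' := by exact_mod_cast h.ok.hL1
                  nlinarith
                linarith
            _ = 4 := by ring
        calc al * (P.m (s + 1) * (4 * P.d)) * (4 * Real.exp (2 * P.m (s + 1) * (P.L + 2)) * Real.exp (- (P.tau s / 5)))
              * ys T h1 hinv P lev site ep lam kap τ K1 K (start Q i) s t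
            = al * (P.m (s + 1) * (4 * P.d)) * ((4 * Real.exp (2 * P.m (s + 1) * (P.L + 2)) * Real.exp (- (P.tau s / 5)))
              * ys T h1 hinv P lev site ep lam kap τ K1 K (start Q i) s t) := by ring
          _ ≤ al * (P.m (s + 1) * (4 * P.d)) * 4 := mul_le_mul_of_nonneg_left h4 (by positivity)
          _ = _ := by ring
      have h2 := lin_rec hb hc (ys_nonneg (h1 := h1) (hinv := hinv) h hs (start Q i) 0) hrec ht
      refine h2.trans ?_
      have ht' : (t : ℝ) ≤ (s + 1) * ((Fintype.card Q : ℝ) * L') := by exact_mod_cast ht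
      have hsM' : ((s : ℝ) + 1) ≤ M := by exact_mod_cast hsM
      have halt : al * t ≤ M * (kk * L') := by
        calc al * t ≤ al * ((s + 1) * ((Fintype.card Q : ℝ) * L')) := mul_le_mul_of_nonneg_left ht' hal0
          _ = (s + 1) * (kk * L') := by rw [← hT1]; ring
          _ ≤ _ := mul_le_mul_of_nonneg_right hsM' (by positivity)
      have hkkd : kk * (16 * P.d) ≤ 1 := by
        rw [hkK, div_mul_eq_mul_div, div_le_one (by positivity)]; nlinarith
      have hkk1 : kk ≤ 1 / 1000 := by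
        rw [hkK]; apply one_div_le_one_div_of_le (by norm_num); nlinarith
      apply mul_le_mul
      · have h3 : (t : ℝ) * (al * (P.m (s + 1) * (16 * P.d))) ≤ M * P.tau (s + 1) := by
          calc (t : ℝ) * (al * (P.m (s + 1) * (16 * P.d))) = (al * t) * (P.m (s + 1) * (16 * P.d)) := by ring
            _ ≤ (M * (kk * L')) * (P.m (s + 1) * (16 * P.d)) := mul_le_mul_of_nonneg_right halt (by positivity)
            _ = M * P.tau (s + 1) * (kk * (16 * P.d)) := by rw [htau]; ring
            _ ≤ M * P.tau (s + 1) * 1 := mul_le_mul_of_nonneg_left hkkd (by positivity)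
            _ = _ := mul_one _
        have := init (s + 1) hs
        linarith
      · refine (one_add_pow_le hb _).trans (Real.exp_le_exp.mpr ?_)
        calc (t : ℝ) * (al * (P.m (s + 1) * eta)) = (al * t) * (P.m (s + 1) * eta) := by ring
          _ ≤ (M * (kk * L')) * (P.m (s + 1) * eta) := mul_le_mul_of_nonneg_right halt (by positivity)
          _ = kk * P.tau (s + 1) * (eta * M) := by rw [htau]; ring
          _ ≤ kk * P.tau (s + 1) * 1 := mul_le_mul_of_nonneg_left hr.etaM (by positivity)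
          _ ≤ 1 / 1000 * P.tau (s + 1) * 1 := by gcongr
          _ = _ := by ring
      · positivity
      · positivity
    by_cases hcase : t ≤ (s + 1) * (Fintype.card Q * L')
    · exact (part1 t hcase).trans (fin1 _ (Nat.cast_nonneg _))
    · push Not at hcase
      have h6 := part1 ((s + 1) * (Fintype.card Q * L')) le_rfl
      have h7 : t ≤ (s + 1) * (Fintype.card Q * L') + Fintype.card Q * L' := by
        calc t ≤ (s + 1 + 1) * (Fintype.card Q * L') := by exact_mod_cast ht
          _ = _ := by ring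
      refine (stage (s + 1) hs _ t _ (by positivity) h6 hcase.le h7).trans ?_
      exact fin _ (Nat.cast_nonneg _)

/-- The last group stays below its threshold with probability at least `3/4`. -/
theorem stay (h : CorrOK P T lev site M R L' ep lam K1 kap δ eta τ) (hr : RecOK P M R L' eta) (hinj : Function.Injective site)
    (hK : P.K = K) (i : Fin K1 × Fin K) {t : ℕ} (ht : t ≤ M * (Fintype.card Q * L'))
    (hdeg : ∀ v, 0 < (Gp2 T h1 hinv P lev site K1 K).degree v) (hm : P.m (M - 1) = 1) (x0 : ι) (hx0 : P.gp x0 = M - 1) :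
    3 / 4 ≤ wpow (Gp2 T h1 hinv P lev site K1 K) t (fun v => if lev (v.1.1 (site x0)) ≤ P.L then (1 : ℝ) else 0) (start Q i) := by
  have hM1 := hr.M1
  have hsM : M - 1 < M := by omega
  have h2 := ys_bound (h1 := h1) (hinv := hinv) h hr hinj hK i (M - 1) hsM t (by
    have : M - 1 + 1 = M := by omega
    rw [this]; exact ht)
  have hL5 : 5 ≤ P.L := by rw [h.ok.hL]; have := h.ok.hL1; omega
  have htau : (P.tau (M - 1) : ℝ) = L' := by rw [h.ok.tau _ hsM, hm, one_mul]
  have htauN : P.tau (M - 1) = L' := by exact_mod_cast htau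
  -- pointwise
  have key : ∀ v : LV Q × (Fin K1 × Fin K), 1 * (1 : ℝ) + (-(2 * Real.exp (- (P.tau (M - 1) / 5)))) * Phi P T lev site ep lam kap τ (M - 1) v.1
      ≤ (if lev (v.1.1 (site x0)) ≤ P.L then (1 : ℝ) else 0) := by
    intro v
    have h3 := (Fc_bounds h hsM (cfg site v.1.1) v.1.2.1 v.1.2.2).1
    have hg := P.g_pos h.ok.hA (n := nc lev (cfg site v.1.1)) (M - 1)
    have hPhi : P.g (nc lev (cfg site v.1.1)) (M - 1) / 2 ≤ Phi P T lev site ep lam kap τ (M - 1) v.1 := h3
    by_cases hl : lev (v.1.1 (site x0)) ≤ P.L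
    · rw [if_pos hl]
      have : 0 ≤ (2 * Real.exp (- (P.tau (M - 1) / 5))) * Phi P T lev site ep lam kap τ (M - 1) v.1 := by
        apply mul_nonneg (by positivity); linarith
      linarith
    · rw [if_neg hl]
      have h4 := RP.g_ge h.ok.hA hL5 (n := nc lev (cfg site v.1.1)) (fun x => h.lamp.top _) (M - 1)
      have h5 : P.tau (M - 1) ≤ P.lv (nc lev (cfg site v.1.1)) (M - 1) := by
        have h6 : nc lev (cfg site v.1.1) x0 ≤ P.lv (nc lev (cfg site v.1.1)) (M - 1) := by
          unfold RP.lv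
          have := Finset.single_le_sum (f := fun x => if P.gp x = M - 1 then nc lev (cfg site v.1.1) x else 0)
            (fun x _ => Nat.zero_le _) (Finset.mem_univ x0)
          simp only [hx0, if_true] at this
          exact this
        have h7 : nc lev (cfg site v.1.1) x0 = lev (v.1.1 (site x0)) := rfl
        have h8 := h.ok.hL
        rw [htauN]; omega
      have h6 : Real.exp (P.tau (M - 1) / 5) ≤ Real.exp ((P.lv (nc lev (cfg site v.1.1)) (M - 1) : ℝ) / 5) := by
        apply Real.exp_le_exp.mpr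
        have : (P.tau (M - 1) : ℝ) ≤ P.lv (nc lev (cfg site v.1.1)) (M - 1) := by exact_mod_cast h5
        linarith
      have h10 : 1 ≤ Real.exp (- (P.tau (M - 1) / 5)) * (2 * Phi P T lev site ep lam kap τ (M - 1) v.1) := by
        rw [Real.exp_neg]
        rw [← div_eq_inv_mul, le_div_iff₀ (Real.exp_pos _)]
        linarith
      linarith
  have h3 := wpow_mono (Gp2 T h1 hinv P lev site K1 K) t key (start Q i)
  rw [wpow_lin (Gp2 T h1 hinv P lev site K1 K) t (fun _ => (1 : ℝ)) (fun v : LV Q × (Fin K1 × Fin K) => Phi P T lev site ep lam kap τ (M - 1) v.1), wpow_one _ hdeg] at h3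
  refine le_trans ?_ h3
  have h4 : 2 * Real.exp (- (P.tau (M - 1) / 5)) * wpow (Gp2 T h1 hinv P lev site K1 K) t (fun v => Phi P T lev site ep lam kap τ (M - 1) v.1) (start Q i)
      ≤ 1 / 4 := by
    have h5 : wpow (Gp2 T h1 hinv P lev site K1 K) t (fun v => Phi P T lev site ep lam kap τ (M - 1) v.1) (start Q i)
        ≤ Real.exp (P.tau (M - 1) / 100) := h2
    calc _ ≤ 2 * Real.exp (- (P.tau (M - 1) / 5)) * Real.exp (P.tau (M - 1) / 100) :=
          mul_le_mul_of_nonneg_left h5 (by positivity)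
      _ = 2 * Real.exp (- (P.tau (M - 1) / 5) + P.tau (M - 1) / 100) := by rw [Real.exp_add]; ring
      _ ≤ 2 * Real.exp (-3) := by
          gcongr
          have : (20 : ℝ) ≤ P.tau (M - 1) := by rw [htau]; exact_mod_cast hr.L20
          linarith
      _ ≤ 1 / 4 := by
          rw [Real.exp_neg]
          have h6 : (8 : ℝ) ≤ Real.exp 3 := by
            have h7 : Real.exp 3 = Real.exp 1 ^ 3 := by rw [← Real.exp_nat_mul]; norm_num
            have h8 : (2 : ℝ) ≤ Real.exp 1 := by have := Real.exp_one_gt_d9; linarith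
            rw [h7]
            calc (8 : ℝ) = 2 ^ 3 := by norm_num
              _ ≤ _ := by gcongr
          rw [← div_eq_mul_inv, div_le_div_iff₀ (Real.exp_pos _) (by norm_num)]
          linarith
  linarith

end rec

end Pool.Agent.H984
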