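import Pool.Agent.H984.PcStep
import Pool.Agent.H984.Rec

/-!
H984: the recursion over the groups for the fully locked ratchet.
-/

set_option autoImplicit false

open Classical

namespace Pool.Agent.H984

namespace PC

variable {Q : Type} [Group Q] [Fintype Q] {ι : Type} [Fintype ι]
variable {D : PD Q ι} {T : Finset Q} {M : ℕ} {R : ℝ} {L' : ℕ} {ep lam K1 kap δ eta : ℝ} {τ : ℕ}

/-- The expected corrected potential. -/
noncomputable def PD.y (D : PD Q ι) (T : Finset Q) (ep lam kap : ℝ) (τ : ℕ) (u0 : LV Q) (s t : ℕ) : ℝ :=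
  (OpL T D.W0 (D.CC0 T) D.wL ^ t) (D.Ph T ep lam kap τ s) u0

theorem PD.y_crude (h : CorrOK D.P T D.lev D.site M R L' ep lam K1 kap δ eta τ) (heta : 0 ≤ eta) (ho : D.OK T)
    (hW : D.W0 = K1 * D.P.K) {s : ℕ} (hs : s < M) (u0 : LV Q) (t : ℕ) :
    D.y T ep lam kap τ u0 s (t + 1)
      ≤ D.y T ep lam kap τ u0 s t * (1 + kap * D.P.K / Fintype.card Q * (D.P.m s * (4 * D.P.d + eta))) := by
  unfold PD.y
  rw [pow_succ, Module.End.mul_apply]
  have hal : 0 ≤ kap * D.P.K / Fintype.card Q := by have := h.kap0; have := h.ok.K0; positivity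
  have hms := h.ok.m0 hs
  have hd := h.ok.d0
  refine ((D.AW_L ho).OpL_pow_mono t (G := (1 + kap * D.P.K / Fintype.card Q * (D.P.m s * (4 * D.P.d + eta)))
    • D.Ph T ep lam kap τ s) ?_ u0).trans ?_
  · intro v
    rw [OpL_apply]
    refine (D.step1 h heta ho hW hs v).trans ?_
    rw [Pi.smul_apply, smul_eq_mul, mul_comm]
    have h4 := (D.Ph_pos h hs v).le
    apply mul_le_mul_of_nonneg_right _ h4
    have h5 := RP.Gf_le_one (P := D.P) (nc D.lev (cfg D.site v.1)) s
    have h6 : D.P.m s * (4 * D.P.d * D.P.Gf (nc D.lev (cfg D.site v.1)) s + eta) ≤ D.P.m s * (4 * D.P.d + eta) := by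
      apply mul_le_mul_of_nonneg_left _ hms.le
      nlinarith
    have := mul_le_mul_of_nonneg_left h6 hal
    linarith
  · rw [map_smul, Pi.smul_apply, smul_eq_mul]
    apply le_of_eq; ring

/-- The key comparison of neighbouring groups. -/
theorem PD.key_gf (h : CorrOK D.P T D.lev D.site M R L' ep lam K1 kap δ eta τ) (hr : RecOK D.P M R L' eta)
    {s : ℕ} (hs : s < M) (hs1 : 1 ≤ s) (u : LV Q) :
    D.P.g (nc D.lev (cfg D.site u.1)) s * D.P.Gf (nc D.lev (cfg D.site u.1)) s
      ≤ 2 * Real.exp (2 * D.P.m s * (D.P.L + 2)) * Real.exp (- (D.P.tau (s - 1) / 5)) * D.Ph T ep lam kap τ (s - 1) u := by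
  have hL5 : 5 ≤ D.P.L := by rw [h.ok.hL]; have := h.ok.hL1; omega
  have h3 := (D.Ph_bounds h (by omega : s - 1 < M) u).1
  set n := nc D.lev (cfg D.site u.1) with hn
  have hg := D.P.g_pos h.ok.hA (n := n) s
  have hg' := D.P.g_pos h.ok.hA (n := n) (s - 1)
  set Y := D.Ph T ep lam kap τ (s - 1) u with hY
  have hlv : ∀ x, n x ≤ D.P.L + 1 := fun x => h.lamp.top _
  by_cases hG : D.P.Gf n s = 0
  · rw [hG, mul_zero]
    have : 0 ≤ Y := by linarith
    positivity
  · have h4 := RP.own_of_Gf hG hs1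
    have h5 := RP.g_ge h.ok.hA hL5 hlv (s - 1)
    have h6 : Real.exp (D.P.tau (s - 1) / 5) ≤ Real.exp ((D.P.lv n (s - 1) : ℝ) / 5) := by
      apply Real.exp_le_exp.mpr
      have : (D.P.tau (s - 1) : ℝ) ≤ D.P.lv n (s - 1) := by exact_mod_cast h4
      linarith
    have h7 := RP.g_le h.ok hr.AL hlv hs
    have h8 := RP.Gf_le_one (P := D.P) n s
    have h9 := D.P.Gf_nonneg n s
    have h10 : 1 ≤ Real.exp (- (D.P.tau (s - 1) / 5)) * (2 * Y) := by
      rw [Real.exp_neg]
      rw [← div_eq_inv_mul, le_div_iff₀ (Real.exp_pos _)]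
      linarith
    calc D.P.g n s * D.P.Gf n s ≤ D.P.g n s * 1 := mul_le_mul_of_nonneg_left h8 hg.le
      _ ≤ Real.exp (2 * D.P.m s * (D.P.L + 2)) := by linarith
      _ = Real.exp (2 * D.P.m s * (D.P.L + 2)) * 1 := by ring
      _ ≤ Real.exp (2 * D.P.m s * (D.P.L + 2)) * (Real.exp (- (D.P.tau (s - 1) / 5)) * (2 * Y)) := by
          apply mul_le_mul_of_nonneg_left h10; positivity
      _ = _ := by ring

theorem PD.y_fine (h : CorrOK D.P T D.lev D.site M R L' ep lam K1 kap δ eta τ) (hr : RecOK D.P M R L' eta) (ho : D.OK T)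
    (hW : D.W0 = K1 * D.P.K) {s : ℕ} (hs : s < M) (hs1 : 1 ≤ s) (u0 : LV Q) (t : ℕ) :
    D.y T ep lam kap τ u0 s (t + 1)
      ≤ D.y T ep lam kap τ u0 s t * (1 + kap * D.P.K / Fintype.card Q * (D.P.m s * eta))
        + kap * D.P.K / Fintype.card Q * (D.P.m s * (4 * D.P.d))
          * (4 * Real.exp (2 * D.P.m s * (D.P.L + 2)) * Real.exp (- (D.P.tau (s - 1) / 5)))
          * D.y T ep lam kap τ u0 (s - 1) t := by
  unfold PD.y
  rw [pow_succ, Module.End.mul_apply]
  have hal : 0 ≤ kap * D.P.K / Fintype.card Q := by have := h.kap0; have := h.ok.K0; positivity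
  have hms := h.ok.m0 hs
  have hd := h.ok.d0
  set al := kap * D.P.K / Fintype.card Q with hal'
  set C := al * (D.P.m s * (4 * D.P.d)) * (4 * Real.exp (2 * D.P.m s * (D.P.L + 2)) * Real.exp (- (D.P.tau (s - 1) / 5))) with hC
  refine ((D.AW_L ho).OpL_pow_mono t (G := (1 + al * (D.P.m s * eta)) • D.Ph T ep lam kap τ s
    + C • D.Ph T ep lam kap τ (s - 1)) ?_ u0).trans ?_
  · intro v
    rw [OpL_apply]
    refine (D.step1 h hr.eta0 ho hW hs v).trans ?_
    obtain ⟨h2, h2'⟩ := D.Ph_bounds h hs v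
    have key := D.key_gf (ep := ep) (lam := lam) (kap := kap) (τ := τ) h hr hs hs1 v
    simp only [Pi.add_apply, Pi.smul_apply, smul_eq_mul]
    set n := nc D.lev (cfg D.site v.1) with hn
    have hg := D.P.g_pos h.ok.hA (n := n) s
    set X := D.Ph T ep lam kap τ s v with hX
    set Y := D.Ph T ep lam kap τ (s - 1) v with hY
    have h9 := D.P.Gf_nonneg n s
    have key2 : X * D.P.Gf n s ≤ 4 * Real.exp (2 * D.P.m s * (D.P.L + 2)) * Real.exp (- (D.P.tau (s - 1) / 5)) * Y := by
      calc X * D.P.Gf n s ≤ (2 * D.P.g n s) * D.P.Gf n s := mul_le_mul_of_nonneg_right h2' h9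
        _ = 2 * (D.P.g n s * D.P.Gf n s) := by ring
        _ ≤ 2 * (2 * Real.exp (2 * D.P.m s * (D.P.L + 2)) * Real.exp (- (D.P.tau (s - 1) / 5)) * Y) := by linarith
        _ = _ := by ring
    have h11 := mul_le_mul_of_nonneg_left key2 (by positivity : 0 ≤ al * (D.P.m s * (4 * D.P.d)))
    calc X * (1 + al * (D.P.m s * (4 * D.P.d * D.P.Gf n s + eta)))
        = (1 + al * (D.P.m s * eta)) * X + al * (D.P.m s * (4 * D.P.d)) * (X * D.P.Gf n s) := by ring
      _ ≤ (1 + al * (D.P.m s * eta)) * X + al * (D.P.m s * (4 * D.P.d)) * (4 * Real.exp (2 * D.P.m s * (D.P.L + 2)) * Real.exp (- (D.P.tau (s - 1) / 5)) * Y) := by linarith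
      _ = _ := by rw [hC]; ring
  · rw [map_add, map_smul, map_smul]
    simp only [Pi.add_apply, Pi.smul_apply, smul_eq_mul]
    apply le_of_eq; ring

theorem PD.y_nonneg (h : CorrOK D.P T D.lev D.site M R L' ep lam K1 kap δ eta τ) (ho : D.OK T) {s : ℕ} (hs : s < M)
    (u0 : LV Q) (t : ℕ) : 0 ≤ D.y T ep lam kap τ u0 s t := by
  unfold PD.y
  exact (D.AW_L ho).OpL_pow_nonneg ho.card t (fun v => (D.Ph_pos h hs v).le) u0

theorem PD.y_zero (h : CorrOK D.P T D.lev D.site M R L' ep lam K1 kap δ eta τ) {u0 : LV Q} (hu0 : ∀ x, u0.1 (D.site x) = 1)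
    {s : ℕ} (hs : s < M) : D.y T ep lam kap τ u0 s 0 ≤ 2 * Real.exp (2 * D.P.m s * Real.log D.P.A) := by
  unfold PD.y
  rw [pow_zero, Module.End.one_apply, ← RP.g_zero h.ok hs]
  have h2 := (D.Ph_bounds h hs u0).2
  have h3 : nc D.lev (cfg D.site u0.1) = fun _ => 0 := by
    ext x
    unfold nc cfg
    rw [hu0]; exact h.lamp.lev1
  rw [h3] at h2
  exact h2

/-- The claim on all groups. -/
theorem PD.y_bound (h : CorrOK D.P T D.lev D.site M R L' ep lam K1 kap δ eta τ) (hr : RecOK D.P M R L' eta) (ho : D.OK T)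
    (hW : D.W0 = K1 * D.P.K) {u0 : LV Q} (hu0 : ∀ x, u0.1 (D.site x) = 1) (s : ℕ) (hs : s < M) (t : ℕ)
    (ht : t ≤ (s + 1) * (Fintype.card Q * L')) :
    D.y T ep lam kap τ u0 s t ≤ Real.exp (D.P.tau s / 100) := by
  have hn : (0 : ℝ) < Fintype.card Q := by exact_mod_cast Fintype.card_pos
  have hkap0 := h.kap0
  have hK0 := h.ok.K0
  have hd0 := h.ok.d0
  have hd := h.ok.hd
  have hLpos := h.ok.L0
  have heta0 := hr.eta0
  obtain ⟨kk, hkk'⟩ : ∃ kk, kk = kap * D.P.K := ⟨_, rfl⟩
  have hkK : kk = 1 / (40000 * D.P.d * D.P.d) := by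
    have := h.kapK
    have h2 : kk = kap * (D.P.d * D.P.K) / D.P.d := by rw [hkk']; field_simp
    rw [h2, this]; field_simp
  have hkk0 : 0 < kk := by rw [hkK]; positivity
  have heta1 : eta ≤ 1 := by
    have h2 : (1 : ℝ) ≤ M := by exact_mod_cast hr.M1
    have := hr.etaM; nlinarith
  -- the growth over one stage
  have stage : ∀ s < M, ∀ t0 t : ℕ, ∀ Z : ℝ, 0 ≤ Z → D.y T ep lam kap τ u0 s t0 ≤ Z →
      t0 ≤ t → t ≤ t0 + Fintype.card Q * L' → D.y T ep lam kap τ u0 s t ≤ Z * Real.exp (D.P.tau s / 1000) := by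
    intro s hs t0 t Z hZ hz h3 h4
    have hms := h.ok.m0 hs
    have ha : 0 ≤ kap * D.P.K / Fintype.card Q * (D.P.m s * (4 * D.P.d + eta)) := by positivity
    have h5 := geo_rec ha (fun t => D.y_crude h heta0 ho hW hs u0 t) hz hZ h3 h4
    refine h5.trans (mul_le_mul_of_nonneg_left ((one_add_pow_le ha _).trans ?_) hZ)
    apply Real.exp_le_exp.mpr
    have e1 : ((Fintype.card Q * L' : ℕ) : ℝ) * (kap * D.P.K / Fintype.card Q * (D.P.m s * (4 * D.P.d + eta)))
        = kk * D.P.tau s * (4 * D.P.d + eta) := by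
      rw [h.ok.tau s hs, hkk']; push_cast; field_simp
    rw [e1]
    exact numA hkK hd heta1 (Nat.cast_nonneg _)
  have fin : ∀ x : ℝ, 0 ≤ x → Real.exp (x / 200) * Real.exp (x / 1000) * Real.exp (x / 1000) ≤ Real.exp (x / 100) := by
    intro x hx
    rw [← Real.exp_add, ← Real.exp_add]
    apply Real.exp_le_exp.mpr; linarith
  have fin1 : ∀ x : ℝ, 0 ≤ x → Real.exp (x / 200) * Real.exp (x / 1000) ≤ Real.exp (x / 100) := by
    intro x hx
    rw [← Real.exp_add]
    apply Real.exp_le_exp.mpr; linarith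
  have init : ∀ s < M, D.y T ep lam kap τ u0 s 0 + M * D.P.tau s ≤ Real.exp (D.P.tau s / 200) := by
    intro s hs
    have h2 := D.y_zero (ep := ep) (lam := lam) (kap := kap) (τ := τ) h hu0 hs
    have := hr.big s hs
    linarith
  induction s generalizing t with
  | zero =>
    have h2 := init 0 hs
    have h3 : D.y T ep lam kap τ u0 0 0 ≤ Real.exp (D.P.tau 0 / 200) := by
      have : (0 : ℝ) ≤ M * D.P.tau 0 := by positivity
      linarith
    refine (stage 0 hs 0 t _ (Real.exp_pos _).le h3 (Nat.zero_le _) (by simpa using ht)).trans ?_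
    exact fin1 _ (Nat.cast_nonneg _)
  | succ s ih =>
    have hsM : s < M := by omega
    have hms := h.ok.m0 hs
    have hms' := h.ok.m0 hsM
    obtain ⟨al, hal⟩ : ∃ al, al = kap * D.P.K / (Fintype.card Q : ℝ) := ⟨_, rfl⟩
    have hal0 : 0 ≤ al := by rw [hal]; positivity
    have hT1 : al * ((Fintype.card Q : ℝ) * L') = kk * L' := by rw [hal, hkk']; field_simp
    have htau := h.ok.tau (s + 1) hs
    have htau' := h.ok.tau s hsM
    have hRm := h.ok.mR s (s + 1) (by omega) hs
    have hR2 := hr.R2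
    have htt : 2000 * (D.P.tau (s + 1) : ℝ) ≤ D.P.tau s := by
      rw [htau, htau']
      have : 2000 * D.P.m (s + 1) ≤ D.P.m s := by nlinarith
      nlinarith
    -- the first part
    have part1 : ∀ t, t ≤ (s + 1) * (Fintype.card Q * L') →
        D.y T ep lam kap τ u0 (s + 1) t ≤ Real.exp (D.P.tau (s + 1) / 200) * Real.exp (D.P.tau (s + 1) / 1000) := by
      intro t ht
      have hb : 0 ≤ al * (D.P.m (s + 1) * eta) := by positivity
      have hc : 0 ≤ al * (D.P.m (s + 1) * (16 * D.P.d)) := by positivity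
      have hrec : ∀ t < (s + 1) * (Fintype.card Q * L'),
          D.y T ep lam kap τ u0 (s + 1) (t + 1)
            ≤ D.y T ep lam kap τ u0 (s + 1) t * (1 + al * (D.P.m (s + 1) * eta))
              + al * (D.P.m (s + 1) * (16 * D.P.d)) := by
        intro t ht
        have h2 := D.y_fine h hr ho hW hs (by omega) u0 t
        rw [← hal] at h2
        have h3 := ih hsM t (le_of_lt ht)
        simp only [Nat.add_sub_cancel] at h2
        refine h2.trans ?_
        apply add_le_add le_rfl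
        have h4 : (4 * Real.exp (2 * D.P.m (s + 1) * (D.P.L + 2)) * Real.exp (- (D.P.tau s / 5)))
            * D.y T ep lam kap τ u0 s t ≤ 4 := by
          calc _ ≤ (4 * Real.exp (2 * D.P.m (s + 1) * (D.P.L + 2)) * Real.exp (- (D.P.tau s / 5))) * Real.exp (D.P.tau s / 100) :=
                mul_le_mul_of_nonneg_left h3 (by positivity)
            _ = 4 * Real.exp (2 * D.P.m (s + 1) * (D.P.L + 2) + (- (D.P.tau s / 5)) + D.P.tau s / 100) := by
                rw [Real.exp_add, Real.exp_add]; ring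
            _ ≤ 4 * 1 := by
                apply mul_le_mul_of_nonneg_left _ (by norm_num)
                apply Real.exp_le_one_iff.mpr
                have h5 : 2 * D.P.m (s + 1) * (D.P.L + 2) ≤ 204 * D.P.tau (s + 1) := by
                  rw [htau, h.ok.hL]; push_cast
                  have : (1 : ℝ) ≤ L' := by exact_mod_cast h.ok.hL1
                  nlinarith
                linarith
            _ = 4 := by ring
        calc al * (D.P.m (s + 1) * (4 * D.P.d)) * (4 * Real.exp (2 * D.P.m (s + 1) * (D.P.L + 2)) * Real.exp (- (D.P.tau s / 5)))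
              * D.y T ep lam kap τ u0 s t
            = al * (D.P.m (s + 1) * (4 * D.P.d)) * ((4 * Real.exp (2 * D.P.m (s + 1) * (D.P.L + 2)) * Real.exp (- (D.P.tau s / 5)))
              * D.y T ep lam kap τ u0 s t) := by ring
          _ ≤ al * (D.P.m (s + 1) * (4 * D.P.d)) * 4 := mul_le_mul_of_nonneg_left h4 (by positivity)
          _ = _ := by ring
      have h2 := lin_rec hb hc (D.y_nonneg h ho hs u0 0) hrec ht
      refine h2.trans ?_
      have ht' : (t : ℝ) ≤ (s + 1) * ((Fintype.card Q : ℝ) * L') := by exact_mod_cast ht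
      have hsM' : ((s : ℝ) + 1) ≤ M := by exact_mod_cast hsM
      have halt : al * t ≤ M * (kk * L') := by
        calc al * t ≤ al * ((s + 1) * ((Fintype.card Q : ℝ) * L')) := mul_le_mul_of_nonneg_left ht' hal0
          _ = (s + 1) * (kk * L') := by rw [← hT1]; ring
          _ ≤ _ := mul_le_mul_of_nonneg_right hsM' (by positivity)
      have hkkd : kk * (16 * D.P.d) ≤ 1 := by
        rw [hkK, div_mul_eq_mul_div, div_le_one (by positivity)]; nlinarith
      have hkk1 : kk ≤ 1 / 1000 := by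
        rw [hkK]; apply one_div_le_one_div_of_le (by norm_num); nlinarith
      apply mul_le_mul
      · have h3 : (t : ℝ) * (al * (D.P.m (s + 1) * (16 * D.P.d))) ≤ M * D.P.tau (s + 1) := by
          calc (t : ℝ) * (al * (D.P.m (s + 1) * (16 * D.P.d))) = (al * t) * (D.P.m (s + 1) * (16 * D.P.d)) := by ring
            _ ≤ (M * (kk * L')) * (D.P.m (s + 1) * (16 * D.P.d)) := mul_le_mul_of_nonneg_right halt (by positivity)
            _ = M * D.P.tau (s + 1) * (kk * (16 * D.P.d)) := by rw [htau]; ring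
            _ ≤ M * D.P.tau (s + 1) * 1 := mul_le_mul_of_nonneg_left hkkd (by positivity)
            _ = _ := mul_one _
        have := init (s + 1) hs
        linarith
      · refine (one_add_pow_le hb _).trans (Real.exp_le_exp.mpr ?_)
        calc (t : ℝ) * (al * (D.P.m (s + 1) * eta)) = (al * t) * (D.P.m (s + 1) * eta) := by ring
          _ ≤ (M * (kk * L')) * (D.P.m (s + 1) * eta) := mul_le_mul_of_nonneg_right halt (by positivity)
          _ = kk * D.P.tau (s + 1) * (eta * M) := by rw [htau]; ring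
          _ ≤ kk * D.P.tau (s + 1) * 1 := mul_le_mul_of_nonneg_left hr.etaM (by positivity)
          _ ≤ 1 / 1000 * D.P.tau (s + 1) * 1 := by gcongr
          _ = _ := by ring
      · positivity
      · positivity
    by_cases hcase : t ≤ (s + 1) * (Fintype.card Q * L')
    · exact (part1 t hcase).trans (fin1 _ (Nat.cast_nonneg _))
    · push Not at hcase
      have h6 := part1 ((s + 1) * (Fintype.card Q * L')) le_rfl
      have h7 : t ≤ (s + 1) * (Fintype.card Q * L') + Fintype.card Q * L' := by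
        calc t ≤ (s + 1 + 1) * (Fintype.card Q * L') := by exact_mod_cast ht
          _ = _ := by ring
      refine (stage (s + 1) hs _ t _ (by positivity) h6 hcase.le h7).trans ?_
      exact fin _ (Nat.cast_nonneg _)

/-- The expectation of `g · Gf` for the last group. -/
theorem PD.gGf_bound (h : CorrOK D.P T D.lev D.site M R L' ep lam K1 kap δ eta τ) (hr : RecOK D.P M R L' eta) (ho : D.OK T)
    (hW : D.W0 = K1 * D.P.K) {u0 : LV Q} (hu0 : ∀ x, u0.1 (D.site x) = 1) (hM2 : 2 ≤ M) (hm : D.P.m (M - 1) = 1) (t : ℕ)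
    (ht : t ≤ (M - 1) * (Fintype.card Q * L')) :
    (OpL T D.W0 (D.CC0 T) D.wL ^ t) (fun u => D.P.g (nc D.lev (cfg D.site u.1)) (M - 1) * D.P.Gf (nc D.lev (cfg D.site u.1)) (M - 1)) u0
      ≤ 2 := by
  have hs : M - 1 < M := by omega
  have h1 := D.y_bound (ep := ep) (lam := lam) (kap := kap) (τ := τ) h hr ho hW hu0 (M - 2) (by omega) t (by
    have : M - 2 + 1 = M - 1 := by omega
    rw [this]; exact ht)
  set k := 2 * Real.exp (2 * D.P.m (M - 1) * (D.P.L + 2)) * Real.exp (- (D.P.tau (M - 1 - 1) / 5)) with hk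
  have h2 := (D.AW_L ho).OpL_pow_mono t (F := fun u => D.P.g (nc D.lev (cfg D.site u.1)) (M - 1)
    * D.P.Gf (nc D.lev (cfg D.site u.1)) (M - 1)) (G := k • D.Ph T ep lam kap τ (M - 1 - 1))
    (fun v => D.key_gf (ep := ep) (lam := lam) (kap := kap) (τ := τ) h hr hs (by omega) v) u0
  refine h2.trans ?_
  rw [map_smul, Pi.smul_apply, smul_eq_mul]
  have e1 : M - 1 - 1 = M - 2 := by omega
  have h3 : (OpL T D.W0 (D.CC0 T) D.wL ^ t) (D.Ph T ep lam kap τ (M - 1 - 1)) u0 ≤ Real.exp (D.P.tau (M - 2) / 100) := by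
    rw [e1]; exact h1
  have hk0 : 0 ≤ k := by rw [hk]; positivity
  refine (mul_le_mul_of_nonneg_left h3 hk0).trans ?_
  rw [hk, hm, e1]
  have htau := h.ok.tau (M - 1) hs
  have htau' := h.ok.tau (M - 2) (by omega)
  have hRm := h.ok.mR (M - 2) (M - 1) (by omega) hs
  have hR2 := hr.R2
  have hLpos := h.ok.L0
  have htt : 2000 * (L' : ℝ) ≤ D.P.tau (M - 2) := by
    rw [htau']
    rw [hm] at hRm
    nlinarith
  calc 2 * Real.exp (2 * 1 * (D.P.L + 2)) * Real.exp (- (D.P.tau (M - 2) / 5)) * Real.exp (D.P.tau (M - 2) / 100)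
      = 2 * Real.exp (2 * 1 * (D.P.L + 2) + (- (D.P.tau (M - 2) / 5)) + D.P.tau (M - 2) / 100) := by
        rw [Real.exp_add, Real.exp_add]; ring
    _ ≤ 2 * 1 := by
        apply mul_le_mul_of_nonneg_left _ (by norm_num)
        apply Real.exp_le_one_iff.mpr
        rw [h.ok.hL]; push_cast
        have : (1 : ℝ) ≤ L' := by exact_mod_cast h.ok.hL1
        linarith
    _ = 2 := by ring

end PC

end Pool.Agent.H984
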