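import Pool.Agent.H984.PcGr

/-!
H984: transitivity, connectedness, relaxation time of the walks with general rates, and counting.
-/

set_option autoImplicit false

open Classical

namespace Pool.Agent.H984

namespace PC

section general

variable {V : Type} [Fintype V]

theorem tv_ge {p q : V → ℝ} (h : ∑ y, p y = ∑ y, q y) (A : V → Prop) :
    ∑ y, (if A y then q y - p y else 0) ≤ tv p q := by
  unfold tv
  rw [le_div_iff₀ (by norm_num)]
  have h1 : ∑ y, (q y - p y) = 0 := by rw [Finset.sum_sub_distrib, h, sub_self]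
  have h2 : (∑ y, (if A y then q y - p y else 0)) * 2 = ∑ y, ((if A y then q y - p y else 0) * 2 - (q y - p y)) := by
    rw [Finset.sum_sub_distrib, h1, sub_zero, Finset.sum_mul]
  rw [h2]
  apply Finset.sum_le_sum; intro y _
  by_cases hy : A y
  · rw [if_pos hy]
    have := neg_abs_le (p y - q y)
    linarith
  · rw [if_neg hy]
    have := le_abs_self (p y - q y)
    linarith

theorem tv_le {p q : V → ℝ} (h : ∑ y, p y = ∑ y, q y) {B : ℝ} (hB : ∀ A : V → Prop, ∑ y, (if A y then q y - p y else 0) ≤ B) :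
    tv p q ≤ B := by
  have h0 := hB (fun y => p y < q y)
  unfold tv
  rw [div_le_iff₀ (by norm_num)]
  have h1 : ∑ y, (q y - p y) = 0 := by rw [Finset.sum_sub_distrib, h, sub_self]
  have h2 : ∑ y, |p y - q y| = (∑ y, (if p y < q y then q y - p y else 0)) * 2 := by
    have h3 : (∑ y, (if p y < q y then q y - p y else 0)) * 2 = ∑ y, ((if p y < q y then q y - p y else 0) * 2 - (q y - p y)) := by
      rw [Finset.sum_sub_distrib, h1, sub_zero, Finset.sum_mul]
    rw [h3]
    apply Finset.sum_congr rfl; intro y _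
    by_cases hy : p y < q y
    · rw [if_pos hy, abs_of_neg (by linarith)]; ring
    · rw [if_neg hy, abs_of_nonneg (by linarith)]; ring
  rw [h2]
  linarith

variable {G : SimpleGraph V} {c : V → V → ℝ} {C : ℝ}

theorem CC.sum_stat (h : CC G c C) (x : V) : ∑ y, stat G c y = 1 := by
  simp only [h.stat_eq, Finset.sum_const, Finset.card_univ, nsmul_eq_mul]
  have : Nonempty V := ⟨x⟩
  have h2 : (Fintype.card V : ℝ) ≠ 0 := by exact_mod_cast Fintype.card_ne_zero
  field_simp

/-- The support grows at most geometrically. -/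
theorem supp_card {D : ℕ} (hD : ∀ x, G.degree x = D) (t : ℕ) (x : V) :
    (Finset.univ.filter (fun y => pw G c t x y ≠ 0)).card ≤ (D + 1) ^ t := by
  induction t with
  | zero =>
    rw [pow_zero]
    have : (Finset.univ.filter (fun y => pw G c 0 x y ≠ 0)) ⊆ {x} := by
      intro y hy
      have h2 := (Finset.mem_filter.mp hy).2
      unfold pw at h2
      rw [pow_zero, Matrix.one_apply] at h2
      by_cases hxy : x = y
      · rw [Finset.mem_singleton]; exact hxy.symm
      · rw [if_neg hxy] at h2; exact absurd rfl h2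
    calc _ ≤ ({x} : Finset V).card := Finset.card_le_card this
      _ = 1 := by simp
  | succ t ih =>
    have hsub : (Finset.univ.filter (fun y => pw G c (t + 1) x y ≠ 0)) ⊆
        (Finset.univ.filter (fun y => pw G c t x y ≠ 0)).biUnion (fun z => insert z (G.neighborFinset z)) := by
      intro y hy
      have h2 := (Finset.mem_filter.mp hy).2
      unfold pw at h2
      rw [pow_succ, Matrix.mul_apply] at h2
      obtain ⟨z, _, hz⟩ := Finset.exists_ne_zero_of_sum_ne_zero h2
      have hz1 : (walk G c ^ t) x z ≠ 0 := left_ne_zero_of_mul hz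
      have hz2 : walk G c z y ≠ 0 := right_ne_zero_of_mul hz
      refine Finset.mem_biUnion.mpr ⟨z, Finset.mem_filter.mpr ⟨Finset.mem_univ _, hz1⟩, ?_⟩
      rw [Finset.mem_insert, SimpleGraph.mem_neighborFinset]
      by_contra hc
      push Not at hc
      apply hz2
      unfold walk
      rw [Matrix.of_apply, if_neg (fun h => hc.1 h.symm), if_neg hc.2, add_zero]
    have h3 := (Finset.card_le_card hsub).trans Finset.card_biUnion_le
    have h4 : ∀ z ∈ (Finset.univ.filter (fun y => pw G c t x y ≠ 0)), (insert z (G.neighborFinset z)).card ≤ D + 1 := by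
      intro z _
      refine (Finset.card_insert_le _ _).trans ?_
      rw [SimpleGraph.card_neighborFinset_eq_degree, hD]
    have h5 := Finset.sum_le_sum h4
    rw [Finset.sum_const, smul_eq_mul] at h5
    calc _ ≤ _ := h3
      _ ≤ _ := h5
      _ ≤ (D + 1) ^ t * (D + 1) := Nat.mul_le_mul_right _ ih
      _ = _ := by rw [pow_succ]

/-- Counting bound for the mixing time. -/
theorem CC.count (h : CC G c C) {D : ℕ} (hD : ∀ x, G.degree x = D) {δ : ℝ} {t : ℕ} (hm : MixedBy G c (1 - δ) t) (x : V) :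
    δ * (Fintype.card V : ℝ) ≤ ((D : ℝ) + 1) ^ t := by
  have : Nonempty V := ⟨x⟩
  have hV : (0 : ℝ) < Fintype.card V := by exact_mod_cast Fintype.card_pos
  have h1 := hm x
  have hrow : ∑ y, pw G c t x y = ∑ y, stat G c y := by
    rw [h.sum_stat x]; exact h.row t x
  have h2 := tv_ge (p := fun y => pw G c t x y) (q := stat G c) hrow (fun y => pw G c t x y = 0)
  have h3 : ∑ y, (if pw G c t x y = 0 then stat G c y - pw G c t x y else 0)
      = 1 - ((Finset.univ.filter (fun y => pw G c t x y ≠ 0)).card : ℝ) / Fintype.card V := by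
    have e1 : ∀ y, (if pw G c t x y = 0 then stat G c y - pw G c t x y else 0)
        = 1 / (Fintype.card V : ℝ) - (if pw G c t x y ≠ 0 then 1 / (Fintype.card V : ℝ) else 0) := by
      intro y
      by_cases hy : pw G c t x y = 0
      · rw [if_pos hy, if_neg (not_not.mpr hy), hy, h.stat_eq]
      · rw [if_neg hy, if_pos hy]; ring
    rw [Finset.sum_congr rfl (fun y _ => e1 y), Finset.sum_sub_distrib, Finset.sum_const, Finset.card_univ, nsmul_eq_mul,
      ← Finset.sum_filter, Finset.sum_const, nsmul_eq_mul]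
    field_simp
  rw [h3] at h2
  have h4 : tv (fun y => pw G c t x y) (stat G c) ≤ 1 - δ := h1
  have h5 : δ ≤ ((Finset.univ.filter (fun y => pw G c t x y ≠ 0)).card : ℝ) / Fintype.card V := by linarith
  rw [le_div_iff₀ hV] at h5
  refine h5.trans ?_
  exact_mod_cast supp_card hD t x

/-- Mixing from a uniform bound. -/
theorem CC.mixed (h : CC G c C) {t : ℕ} {eta : ℝ} (hu : ∀ x y, |(Fintype.card V : ℝ) * pw G c t x y - 1| ≤ eta) :
    MixedBy G c eta t := by
  intro x
  have : Nonempty V := ⟨x⟩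
  have hV : (0 : ℝ) < Fintype.card V := by exact_mod_cast Fintype.card_pos
  unfold tv
  have heta : 0 ≤ eta := (abs_nonneg _).trans (hu x x)
  have h1 : ∀ y, |(walk G c ^ t) x y - stat G c y| ≤ eta / Fintype.card V := by
    intro y
    rw [h.stat_eq, le_div_iff₀ hV]
    have h2 : |(walk G c ^ t) x y - 1 / (Fintype.card V : ℝ)| * (Fintype.card V : ℝ)
        = |(Fintype.card V : ℝ) * pw G c t x y - 1| := by
      have e1 : (Fintype.card V : ℝ) * pw G c t x y - 1 = ((walk G c ^ t) x y - 1 / (Fintype.card V : ℝ)) * Fintype.card V := by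
        unfold pw; field_simp
      rw [e1, abs_mul, abs_of_pos hV]
    rw [h2]; exact hu x y
  have h2 := Finset.sum_le_sum (fun y (_ : y ∈ (Finset.univ : Finset V)) => h1 y)
  rw [Finset.sum_const, Finset.card_univ, nsmul_eq_mul] at h2
  have h3 : (Fintype.card V : ℝ) * (eta / Fintype.card V) = eta := by field_simp
  rw [h3] at h2
  linarith

theorem CC.sum_mulVec (h : CC G c C) (F : V → ℝ) : ∑ x, (walk G c).mulVec F x = ∑ x, F x := by
  unfold Matrix.mulVec dotProduct
  rw [Finset.sum_comm]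
  apply Finset.sum_congr rfl; intro y _
  rw [← Finset.sum_mul]
  have h1 : ∑ x, walk G c x y = 1 := by
    have h2 : ∀ x, walk G c x y = walk G c y x := by
      intro x
      have := congrFun (congrFun h.transpose x) y
      rw [← this]; rfl
    simp only [h2]
    have := h.one y
    unfold Matrix.mulVec dotProduct at this
    simpa using this
  rw [h1, one_mul]

end general

variable {Q : Type} [Group Q] [Fintype Q]
variable {T : Finset Q} {h1 : (1 : Q) ∉ T} {hinv : ∀ t ∈ T, t⁻¹ ∈ T}

theorem lampB_transitive : VertexTransitive (lampB T h1 hinv) := by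
  rintro ⟨u, b⟩ ⟨v, b'⟩
  obtain ⟨φ, hφ⟩ := lamp_transitive (h1 := h1) (hinv := hinv) u v
  let F : LV Q × Bool ≃ LV Q × Bool :=
    { toFun := fun p => (φ p.1, xor p.2 (xor b b'))
      invFun := fun p => (φ.symm p.1, xor p.2 (xor b b'))
      left_inv := by rintro ⟨w, c⟩; simp
      right_inv := by rintro ⟨w, c⟩; simp }
  refine ⟨⟨F, ?_⟩, ?_⟩
  · rintro ⟨w, c⟩ ⟨w', c'⟩
    show ((lampG T h1 hinv).Adj (φ w) (φ w') ∧ xor c (xor b b') = xor c' (xor b b') ∨ φ w = φ w' ∧ xor c (xor b b') ≠ xor c' (xor b b'))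
      ↔ ((lampG T h1 hinv).Adj w w' ∧ c = c' ∨ w = w' ∧ c ≠ c')
    rw [φ.map_adj_iff, φ.injective.eq_iff]
    simp
  · show ((φ u, xor b (xor b b')) : LV Q × Bool) = (v, b')
    rw [hφ]; simp

theorem lampB_connected (hgen : Subgroup.closure (T : Set Q) = ⊤) : (lampB T h1 hinv).Connected := by
  have hG := lamp_connected (h1 := h1) (hinv := hinv) hgen
  have lift : ∀ (b : Bool) (u v : LV Q), (lampB T h1 hinv).Reachable (u, b) (v, b) := by
    intro b u v
    obtain ⟨w⟩ := hG.preconnected u v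
    induction w with
    | nil => exact SimpleGraph.Reachable.refl _
    | cons h _ ih =>
      have : (lampB T h1 hinv).Adj (_, b) (_, b) := Or.inl ⟨h, rfl⟩
      exact this.reachable.trans ih
  have : Nonempty (LV Q × Bool) := ⟨((fun _ => 1, 1, 1), true)⟩
  refine ⟨?_⟩
  rintro ⟨u, b⟩ ⟨v, b'⟩
  by_cases hb : b = b'
  · subst hb; exact lift b u v
  · have : (lampB T h1 hinv).Adj (v, b) (v, b') := Or.inr ⟨rfl, hb⟩
    exact (lift b u v).trans this.reachable

theorem lampB_degree (p : LV Q × Bool) : (lampB T h1 hinv).degree p = 3 * T.card + 1 := by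
  obtain ⟨u, b⟩ := p
  have h2 : ((lampB T h1 hinv).degree (u, b) : ℝ) = 3 * T.card + 1 := by
    rw [← deg_sum, lampB_sum (fun _ => 1), deg_sum, lamp_deg]
  exact_mod_cast h2

theorem HS_sum {κ : Type} (s : Finset κ) {S : Finset Q} {F : κ → LV Q → ℝ} (h : ∀ i ∈ s, HS S (F i)) (a : κ → ℝ) :
    HS S (∑ i ∈ s, a i • F i) := by
  constructor
  · intro x hx f y e
    simp only [Finset.sum_apply, Pi.smul_apply, smul_eq_mul]
    rw [Finset.sum_comm]
    apply Finset.sum_eq_zero; intro i hi
    rw [← Finset.mul_sum, (h i hi).zero x hx, mul_zero]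
  · intro x hx f q y e
    simp only [Finset.sum_apply, Pi.smul_apply, smul_eq_mul]
    apply Finset.sum_congr rfl; intro i hi
    rw [(h i hi).const x hx]

theorem sum_DS_empty (v : LV Q) (f : Q → Q) :
    ∑ y, ∑ e, DS ∅ v (f, y, e) = 1 / (Fintype.card Q : ℝ) ^ (Fintype.card Q) := by
  have hprod : ∏ z, wS ∅ v.1 z (f z) = 1 / (Fintype.card Q : ℝ) ^ (Fintype.card Q) := by
    unfold wS
    simp only [Finset.notMem_empty, if_false]
    rw [Finset.prod_const, Finset.card_univ, one_div, inv_pow, one_div]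
  unfold DS
  simp only [hprod]
  have h4 : ∀ y : Q, ∑ e : Q, (if y = v.2.1 then (1 : ℝ) else 0) * (if e = v.2.2 then 1 else 0) * (1 / (Fintype.card Q : ℝ) ^ (Fintype.card Q))
      = (if y = v.2.1 then (1 : ℝ) else 0) * (1 / (Fintype.card Q : ℝ) ^ (Fintype.card Q)) := by
    intro y
    rw [← Finset.sum_mul, ← Finset.mul_sum, Finset.sum_ite_eq', if_pos (Finset.mem_univ _), mul_one]
  rw [Finset.sum_congr rfl (fun y _ => h4 y), ← Finset.sum_mul, Finset.sum_ite_eq', if_pos (Finset.mem_univ _), one_mul]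

theorem nsq_smul (k : ℝ) (F : LV Q → ℝ) : nsq (k • F) = k ^ 2 * nsq F := by
  rw [nsq_eq, nsq_eq, Finset.mul_sum]
  apply Finset.sum_congr rfl; intro u _
  simp only [Pi.smul_apply, smul_eq_mul]; ring

theorem nsq_pos {F : LV Q → ℝ} (h : F ≠ 0) : 0 < nsq F := by
  rw [nsq_eq]
  obtain ⟨u, hu⟩ := Function.ne_iff.mp h
  have hu2 : 0 < (F u) ^ 2 := by
    have : F u ≠ 0 := hu
    positivity
  exact lt_of_lt_of_le hu2 (Finset.single_le_sum (f := fun u => (F u) ^ 2) (fun _ _ => sq_nonneg _) (Finset.mem_univ u))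

/-- Eigenvalues of the walk. -/
theorem eig {cw : LV Q → LV Q → ℝ} {W0 C : ℝ} {wy : Q → ℝ} (h : CW T cw W0 C (fun u _ => wy u.2.1)) (hg : Gap T)
    {c : ℝ} (hr : (mkR T W0 C wy).OK c) {l : ℝ} (hl : l ≠ 1) {F : LV Q × Bool → ℝ} (hF : F ≠ 0)
    (he : (walk (lampB T h1 hinv) (cB T h1 hinv cw C)).mulVec F = l • F) : l ^ 2 ≤ 1 - c / Fintype.card Q := by
  have hT := hg.1
  have hn : (1 : ℝ) ≤ Fintype.card Q := by exact_mod_cast Fintype.card_pos
  obtain ⟨n, hn'⟩ : ∃ n : ℝ, n = (Fintype.card Q : ℝ) := ⟨_, rfl⟩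
  rw [← hn'] at hn ⊢
  have hn0 : 0 < n := by linarith
  have hc := hr.c0
  have hc1 : 2 * c ≤ 1 := by
    have := hr.ha; have := hr.tot 1; have := hr.hb 1; have := hr.hg 1; linarith
  obtain ⟨Fe, hFe⟩ : ∃ Fe : LV Q → ℝ, Fe = fun u => (F (u, true) + F (u, false)) / 2 := ⟨_, rfl⟩
  obtain ⟨Fo, hFo⟩ : ∃ Fo : LV Q → ℝ, Fo = fun u => (F (u, true) - F (u, false)) / 2 := ⟨_, rfl⟩
  have hdec : F = fun p => Fe p.1 + sg p.2 * Fo p.1 := by
    ext ⟨u, b⟩
    rw [hFe, hFo]
    cases b <;> simp [sg] <;> ring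
  have hstep : ∀ u b, E0 T (mkR T W0 C wy) Fe u + sg b * E1 T (mkR T W0 C wy) Fo u = l * (Fe u + sg b * Fo u) := by
    intro u b
    have h2 := pow_parts (h1 := h1) (hinv := hinv) h hT 1 Fe Fo u b
    rw [pow_one, pow_one, ← hdec, pw_succ', pw_zero, he] at h2
    rw [← h2, hdec]
    simp
  have s1 : sg true = 1 := by simp [sg]
  have s2 : sg false = -1 := by simp [sg]
  have hE0 : E0 T (mkR T W0 C wy) Fe = l • Fe := by
    ext u
    have a := hstep u true
    have b := hstep u false
    rw [s1] at a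
    rw [s2] at b
    simp only [Pi.smul_apply, smul_eq_mul]
    linarith
  have hE1 : E1 T (mkR T W0 C wy) Fo = l • Fo := by
    ext u
    have a := hstep u true
    have b := hstep u false
    rw [s1] at a
    rw [s2] at b
    simp only [Pi.smul_apply, smul_eq_mul]
    linarith
  by_cases ho : Fo = 0
  · -- the even part
    have hFe0 : Fe ≠ 0 := by
      intro h0
      apply hF
      rw [hdec, h0, ho]
      ext p; simp
    have hsum : ∑ u, Fe u = 0 := by
      have e1 := (h.CC (h1 := h1) (hinv := hinv) hT).sum_mulVec F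
      rw [he] at e1
      simp only [Pi.smul_apply, smul_eq_mul] at e1
      rw [← Finset.mul_sum] at e1
      have e2 : (l - 1) * ∑ p, F p = 0 := by linarith
      have e3 : ∑ p, F p = 0 := by
        rcases mul_eq_zero.mp e2 with h3 | h3
        · exact absurd (by linarith : l = 1) hl
        · exact h3
      rw [Fintype.sum_prod_type] at e3
      have e4 : ∑ u, Fe u = (∑ u : LV Q, ∑ b : Bool, F (u, b)) / 2 := by
        rw [hFe, Finset.sum_div]
        apply Finset.sum_congr rfl; intro u _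
        rw [Fintype.sum_bool]
      rw [e4, e3]; simp
    obtain ⟨FS, hFS⟩ : ∃ FS : Finset Q → LV Q → ℝ, FS = fun S => ∑ v, Fe v • DS S v := ⟨_, rfl⟩
    have hHS : ∀ S, HS S (FS S) := by
      intro S; rw [hFS]; exact HS_sum Finset.univ (fun v _ => DS_HS S v) Fe
    have hzero : ∀ f, ∑ y, ∑ e, FS ∅ (f, y, e) = 0 := by
      intro f
      rw [hFS]
      simp only [Finset.sum_apply, Pi.smul_apply, smul_eq_mul]
      have e1 : ∑ y, ∑ e, ∑ v, Fe v * DS ∅ v (f, y, e) = ∑ v, Fe v * ∑ y, ∑ e, DS ∅ v (f, y, e) := by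
        simp only [Finset.mul_sum]
        rw [Finset.sum_comm]
        simp only [Finset.sum_comm (s := (Finset.univ : Finset Q)) (t := (Finset.univ : Finset (LV Q)))]
        apply Finset.sum_congr rfl; intro v _
        rw [Finset.sum_comm]
      rw [e1]
      simp only [sum_DS_empty]
      rw [← Finset.sum_mul, hsum, zero_mul]
    have hsumS : Fe = ∑ S : Finset Q, FS S := by
      ext u
      rw [hFS]
      simp only [Finset.sum_apply, Pi.smul_apply, smul_eq_mul]
      rw [Finset.sum_comm]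
      have e1 : ∀ v, ∑ S : Finset Q, Fe v * DS S v u = Fe v * (if u = v then 1 else 0) := by
        intro v; rw [← Finset.mul_sum, sum_DS]
      simp only [e1]
      simp
    have hpow : ∀ t : ℕ, (E0 T (mkR T W0 C wy) ^ t) Fe = (l ^ t) • Fe := by
      intro t
      induction t with
      | zero => simp
      | succ t ih =>
        rw [pow_succ, Module.End.mul_apply, hE0, map_smul, ih, smul_smul, pow_succ, mul_comm]
    obtain ⟨Kc, hKc⟩ : ∃ Kc : ℝ, Kc = (Fintype.card (Finset Q) : ℝ) * ∑ S : Finset Q, nsq (FS S) := ⟨_, rfl⟩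
    have hrho0 : 0 < 1 - c / n := by
      have : c / n ≤ c := div_le_self hc.le hn
      linarith
    have hbound : ∀ t : ℕ, (l ^ 2) ^ t * nsq Fe ≤ (1 - c / n) ^ t * Kc := by
      intro t
      have e1 : (l ^ 2) ^ t * nsq Fe = nsq ((E0 T (mkR T W0 C wy) ^ t) Fe) := by
        rw [hpow, nsq_smul]; ring
      rw [e1]
      have e2 : (E0 T (mkR T W0 C wy) ^ t) Fe = ∑ S : Finset Q, (E0 T (mkR T W0 C wy) ^ t) (FS S) := by
        conv_lhs => rw [hsumS]
        rw [map_sum]
      rw [e2, nsq_eq]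
      have e3 : ∀ u, ((∑ S : Finset Q, (E0 T (mkR T W0 C wy) ^ t) (FS S)) u) ^ 2
          ≤ (Fintype.card (Finset Q) : ℝ) * ∑ S : Finset Q, ((E0 T (mkR T W0 C wy) ^ t) (FS S) u) ^ 2 := by
        intro u
        rw [Finset.sum_apply]
        have := sq_sum_le_card_mul_sum_sq (s := (Finset.univ : Finset (Finset Q))) (f := fun S => (E0 T (mkR T W0 C wy) ^ t) (FS S) u)
        rw [Finset.card_univ] at this
        exact this
      refine (Finset.sum_le_sum (fun u _ => e3 u)).trans ?_
      rw [← Finset.mul_sum, Finset.sum_comm, hKc, mul_left_comm]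
      apply mul_le_mul_of_nonneg_left _ (Nat.cast_nonneg _)
      rw [Finset.mul_sum]
      apply Finset.sum_le_sum; intro S _
      rw [← nsq_eq]
      rcases Finset.eq_empty_or_nonempty S with hS | hS
      · subst hS
        refine (HS_pow0 hg hr t (hHS ∅) hzero).trans ?_
        apply mul_le_mul_of_nonneg_right _ (nsq_nonneg _)
        apply pow_le_pow_left₀ (by linarith)
        have : c / n ≤ c := div_le_self hc.le hn
        linarith
      · have hSc : 0 < S.card := Finset.card_pos.mpr hS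
        refine (HS_pow hg hr hSc t (hHS S)).trans ?_
        apply mul_le_mul_of_nonneg_right _ (nsq_nonneg _)
        rw [← hn']
        have hS1 : (1 : ℝ) ≤ S.card := by exact_mod_cast hSc
        have hSn : (S.card : ℝ) ≤ n := by rw [hn']; exact_mod_cast Finset.card_le_univ S
        apply pow_le_pow_left₀
        · rw [sub_nonneg, div_le_one hn0]; nlinarith
        · have : c / n ≤ c * S.card / n := by
            apply div_le_div_of_nonneg_right _ hn0.le
            nlinarith
          linarith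
    by_contra hcon
    push Not at hcon
    have hFep := nsq_pos hFe0
    have hratio : 1 < l ^ 2 / (1 - c / n) := by rw [lt_div_iff₀ hrho0]; linarith
    obtain ⟨t, ht⟩ := pow_unbounded_of_one_lt (Kc / nsq Fe) hratio
    have h3 := hbound t
    rw [div_pow, div_lt_div_iff₀ hFep (by positivity)] at ht
    linarith
  · have h2 := E1_contract hg hr Fo
    rw [hE1, nsq_smul] at h2
    have h3 := le_of_mul_le_mul_right h2 (nsq_pos ho)
    have : c / n ≤ c := div_le_self hc.le hn
    linarith

/-- The relaxation time of the walk. -/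
theorem trel_bound {cw : LV Q → LV Q → ℝ} {W0 C : ℝ} {wy : Q → ℝ} (h : CW T cw W0 C (fun u _ => wy u.2.1)) (hg : Gap T)
    {c : ℝ} (hr : (mkR T W0 C wy).OK c) :
    0 ≤ trel (lampB T h1 hinv) (cB T h1 hinv cw C) ∧
      trel (lampB T h1 hinv) (cB T h1 hinv cw C) ≤ 2 / c * Fintype.card Q := by
  have hn : (1 : ℝ) ≤ Fintype.card Q := by exact_mod_cast Fintype.card_pos
  obtain ⟨n, hn'⟩ : ∃ n : ℝ, n = (Fintype.card Q : ℝ) := ⟨_, rfl⟩
  rw [← hn'] at hn ⊢
  have hn0 : 0 < n := by linarith
  have hc := hr.c0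
  have hc1 : 2 * c ≤ 1 := by
    have := hr.ha; have := hr.tot 1; have := hr.hb 1; have := hr.hg 1; linarith
  have hcn : c / n ≤ c := div_le_self hc.le hn
  have hcn0 : 0 < c / n := by positivity
  have h2 : lam2 (lampB T h1 hinv) (cB T h1 hinv cw C) ≤ 1 - c / (2 * n) := by
    unfold lam2
    apply Real.sSup_le
    · rintro l ⟨hl, F, hF, he⟩
      have h3 := eig h hg hr hl hF he
      rw [← hn'] at h3
      have e1 : c / (2 * n) = (c / n) / 2 := by field_simp
      rw [e1]
      apply abs_le_of_sq_le_sq' _ _ |>.2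
      · nlinarith
      · linarith
    · have e1 : c / (2 * n) = (c / n) / 2 := by field_simp
      rw [e1]; linarith
  have h3 : 0 < c / (2 * n) := by positivity
  unfold trel
  constructor
  · apply inv_nonneg.mpr; linarith
  · have h4 : c / (2 * n) ≤ 1 - lam2 (lampB T h1 hinv) (cB T h1 hinv cw C) := by linarith
    calc (1 - lam2 (lampB T h1 hinv) (cB T h1 hinv cw C))⁻¹ ≤ (c / (2 * n))⁻¹ := inv_anti₀ h3 h4
      _ = 2 / c * n := by field_simp

/-! ### Unit weights -/

theorem CW_one : CW T (fun _ _ => 1) 1 (3 * T.card + 1) (fun u _ => (fun _ : Q => (1 : ℝ)) u.2.1) where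
  C0 := by positivity
  symm _ _ := rfl
  pos _ _ _ _ _ := rfl
  dit _ _ _ _ _ := rfl
  lam _ _ _ _ _ := rfl
  W00 := by norm_num
  w0 _ _ _ := by norm_num
  tot u := by simp; linarith

theorem cB_one : cB T h1 hinv (fun _ _ => 1) (3 * T.card + 1) = fun _ _ => 1 := by
  ext p q
  unfold cB
  by_cases h : p.2 = q.2
  · rw [if_pos h]
  · rw [if_neg h]
    by_cases hp : p.1 = q.1
    · rw [if_pos hp, CW_one.wsumG_eq]; simp; ring
    · rw [if_neg hp]

theorem rates_one (hT : 8 ≤ T.card) : (mkR T 1 (3 * T.card + 1) (fun _ : Q => (1 : ℝ))).OK (1 / (2 * (3 * T.card + 1))) := by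
  have hT0 : (8 : ℝ) ≤ T.card := by exact_mod_cast hT
  unfold mkR
  refine ⟨by positivity, ?_, fun y => ?_, fun y => ?_, fun y => ?_⟩
  · show 7 * (1 / (2 * (3 * (T.card : ℝ) + 1))) ≤ 1 * T.card / (3 * T.card + 1)
    rw [mul_one_div, div_le_div_iff₀ (by positivity) (by positivity)]
    nlinarith
  · show 4 * (1 / (2 * (3 * (T.card : ℝ) + 1))) ≤ T.card * 1 / (2 * (3 * T.card + 1))
    rw [mul_one_div, div_le_div_iff₀ (by positivity) (by positivity)]
    nlinarith
  · show 1 / (2 * (3 * (T.card : ℝ) + 1)) ≤ (3 * T.card + 1 - 2 * T.card * 1 - T.card * 1) / (2 * (3 * T.card + 1))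
    apply div_le_div_of_nonneg_right _ (by positivity)
    linarith
  · show 1 * (T.card : ℝ) / (3 * T.card + 1) + T.card * 1 / (2 * (3 * T.card + 1))
      + (3 * T.card + 1 - 2 * T.card * 1 - T.card * 1) / (2 * (3 * T.card + 1)) ≤ 1 / 2
    have : (0 : ℝ) < 3 * T.card + 1 := by positivity
    apply le_of_eq
    field_simp
    ring

end PC

end Pool.Agent.H984
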