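import Pool.Agent.H984.Upper2

/-!
H984: sector analysis for lazy walks on the lamplighter graph with general rates.
-/

set_option autoImplicit false

open Classical

namespace Pool.Agent.H984

namespace PC

variable {Q : Type} [Group Q] [Fintype Q]

/-- Rates: moves of the base, moves of the lamp at `y`, flips of the extra bit at `y`. -/
structure Rates (Q : Type) where
  a : ℝ
  b : Q → ℝ
  g : Q → ℝ

/-- Hypotheses on the rates. -/
structure Rates.OK (r : Rates Q) (c : ℝ) : Prop where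
  c0 : 0 < c
  ha : 7 * c ≤ r.a
  hb : ∀ y, 4 * c ≤ r.b y
  hg : ∀ y, c ≤ r.g y
  tot : ∀ y, r.a + r.b y + r.g y ≤ 1 / 2

/-- The operator on functions which do not depend on the bit. -/
noncomputable def E0 (T : Finset Q) (r : Rates Q) : Module.End ℝ (LV Q → ℝ) where
  toFun F u := (1 - r.a - r.b u.2.1) * F u + r.a * Pb T (fun y e => F (u.1, y, e)) u.2.1 u.2.2 + r.b u.2.1 * Al T F u
  map_add' F G := by
    ext u
    have e1 : (fun y e => (F + G) (u.1, y, e)) = (fun y e => F (u.1, y, e)) + (fun y e => G (u.1, y, e)) := by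
      ext y e; rfl
    have e2 : Al T (F + G) u = Al T F u + Al T G u := by
      unfold Al; simp only [Pi.add_apply]; rw [Finset.sum_add_distrib, add_div]
    simp only [Pi.add_apply] at e1 ⊢
    rw [e1, map_add, e2]
    simp only [Pi.add_apply]; ring
  map_smul' k F := by
    ext u
    have e1 : (fun y e => (k • F) (u.1, y, e)) = k • (fun y e => F (u.1, y, e)) := by
      ext y e; rfl
    have e2 : Al T (k • F) u = k * Al T F u := by
      unfold Al; simp only [Pi.smul_apply, smul_eq_mul]; rw [← Finset.mul_sum]; ring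
    simp only [Pi.smul_apply, smul_eq_mul, RingHom.id_apply] at e1 ⊢
    rw [e1, map_smul, e2]
    simp only [Pi.smul_apply, smul_eq_mul]; ring

theorem E0_apply (T : Finset Q) (r : Rates Q) (F : LV Q → ℝ) (f : Q → Q) (y e : Q) :
    E0 T r F (f, y, e) = (1 - r.a - r.b y) * F (f, y, e) + r.a * Pb T (fun y e => F (f, y, e)) y e
      + r.b y * Al T F (f, y, e) := rfl

/-- The operator on functions which are odd in the bit. -/
noncomputable def E1 (T : Finset Q) (r : Rates Q) : Module.End ℝ (LV Q → ℝ) where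
  toFun F u := E0 T r F u - 2 * r.g u.2.1 * F u
  map_add' F G := by
    ext u
    simp only [map_add, Pi.add_apply]; ring
  map_smul' k F := by
    ext u
    simp only [map_smul, Pi.smul_apply, smul_eq_mul, RingHom.id_apply]; ring

theorem E1_apply (T : Finset Q) (r : Rates Q) (F : LV Q → ℝ) (u : LV Q) :
    E1 T r F u = E0 T r F u - 2 * r.g u.2.1 * F u := rfl

theorem HS_step {T : Finset Q} {r : Rates Q} {S : Finset Q} {F : LV Q → ℝ} (h : HS S F) : HS S (E0 T r F) := by
  constructor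
  · intro x hx f y e
    simp only [E0_apply]
    rw [Finset.sum_add_distrib, Finset.sum_add_distrib, ← Finset.mul_sum, ← Finset.mul_sum, ← Finset.mul_sum]
    have e1 : ∑ q, F (Function.update f x q, y, e) = 0 := h.zero x hx f y e
    have e2 : ∑ q, Pb T (fun y e => F (Function.update f x q, y, e)) y e = 0 := by
      simp only [Pb_apply]
      unfold Av
      rw [← Finset.sum_div, Finset.sum_add_distrib, ← Finset.sum_div, ← Finset.sum_div, Finset.sum_comm, Finset.sum_comm (s := Finset.univ) (t := T)]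
      rw [Finset.sum_eq_zero (fun t _ => h.zero x hx f (y * t) e), Finset.sum_eq_zero (fun t _ => h.zero x hx f y (e * t))]
      simp
    have e3 : ∑ q, Al T F (Function.update f x q, y, e) = 0 := by
      unfold Al
      simp only
      rw [← Finset.sum_div, Finset.sum_comm]
      have : ∀ t ∈ T, ∑ q, F (mv (Function.update f x q) y t, y, e) = 0 := by
        intro t _
        by_cases hxy : y = x
        · subst hxy
          simp only [mv_update_same]
          exact (Equiv.sum_comp (Equiv.mulRight t) (fun q => F (Function.update f y q, y, e))).trans (h.zero y hx f y e)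
        · simp only [mv_update_ne f hxy]
          exact h.zero x hx _ y e
      rw [Finset.sum_eq_zero this, zero_div]
    rw [e1, e2, e3]; simp
  · intro x hx f q y e
    simp only [E0_apply]
    have e2 : Pb T (fun y e => F (Function.update f x q, y, e)) y e = Pb T (fun y e => F (f, y, e)) y e := by
      have : (fun y e => F (Function.update f x q, y, e)) = (fun y e => F (f, y, e)) := by
        funext y e; exact h.const x hx f q y e
      rw [this]
    have e3 : Al T F (Function.update f x q, y, e) = Al T F (f, y, e) := by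
      unfold Al
      congr 1
      apply Finset.sum_congr rfl; intro t _
      simp only
      by_cases hxy : y = x
      · subst hxy
        rw [mv_update_same]
        have : mv f y t = Function.update f y (f y * t) := rfl
        rw [this, h.const y hx, h.const y hx]
      · rw [mv_update_ne f hxy]
        exact h.const x hx _ q y e
    rw [e2, e3, h.const x hx f q y e]

/-- Contraction of the lamp part at one place. -/
theorem Al_key {T : Finset Q} (hg : Gap T) {S : Finset Q} {F : LV Q → ℝ} (h : HS S F) (y e : Q) :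
    ∑ f, (Al T F (f, y, e)) ^ 2 ≤ ∑ f, (F (f, y, e)) ^ 2 - 15 / 16 * ∑ f, (if y ∈ S then (F (f, y, e)) ^ 2 else 0) := by
  have hn : (0 : ℝ) < Fintype.card Q := by exact_mod_cast Fintype.card_pos
  have s1 := sum_update (fun f => (Al T F (f, y, e)) ^ 2) y
  have s2 := sum_update (fun f => (F (f, y, e)) ^ 2) y
  have hAl : ∀ f q, Al T F (Function.update f y q, y, e) = Av T (fun q => F (Function.update f y q, y, e)) q := by
    intro f q
    unfold Al Av
    simp only [mv_update_same]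
  by_cases hy : y ∈ S
  · simp only [hy, if_true]
    have h3 : ∀ f, ∑ q, (Al T F (Function.update f y q, y, e)) ^ 2 ≤ 1 / 16 * ∑ q, (F (Function.update f y q, y, e)) ^ 2 := by
      intro f
      simp only [hAl]
      exact hg.2 _ (h.zero y hy f y e)
    have h4 := Finset.sum_le_sum (fun f (_ : f ∈ Finset.univ) => h3 f)
    rw [s1, ← Finset.mul_sum, s2] at h4
    have h5 : Fintype.card Q * ∑ f, (Al T F (f, y, e)) ^ 2 ≤ Fintype.card Q * (1 / 16 * ∑ f, (F (f, y, e)) ^ 2) := by linarith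
    have h6 := le_of_mul_le_mul_left h5 hn
    linarith
  · simp only [hy, if_false, Finset.sum_const_zero, mul_zero, sub_zero]
    have h3 : ∀ f, Al T F (f, y, e) = F (f, y, e) := by
      intro f
      unfold Al
      have : ∀ t ∈ T, F (mv f y t, y, e) = F (f, y, e) := fun t _ => h.const y hy f _ y e
      simp only
      rw [Finset.sum_congr rfl this, Finset.sum_const, nsmul_eq_mul]
      have : (T.card : ℝ) ≠ 0 := by exact_mod_cast hg.1.ne'
      field_simp
    simp only [h3]; exact le_rfl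

/-- The lamp average never increases the norm at one place. -/
theorem Al_le {T : Finset Q} (hT : 0 < T.card) (F : LV Q → ℝ) (y e : Q) :
    ∑ f, (Al T F (f, y, e)) ^ 2 ≤ ∑ f, (F (f, y, e)) ^ 2 := by
  have hT0 : (0 : ℝ) < T.card := by exact_mod_cast hT
  have h1 : ∀ f, (Al T F (f, y, e)) ^ 2 ≤ (∑ t ∈ T, (F (mv f y t, y, e)) ^ 2) / T.card := by
    intro f
    unfold Al
    simp only
    rw [div_pow, div_le_div_iff₀ (by positivity) hT0]
    have h2 := sq_sum_le_card_mul_sum_sq (s := T) (f := fun t => F (mv f y t, y, e))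
    nlinarith
  refine (Finset.sum_le_sum (fun f _ => h1 f)).trans ?_
  rw [← Finset.sum_div, Finset.sum_comm, div_le_iff₀ hT0]
  have h2 : ∀ t ∈ T, ∑ f, (F (mv f y t, y, e)) ^ 2 = ∑ f, (F (f, y, e)) ^ 2 := by
    intro t _
    let Eq : (Q → Q) ≃ (Q → Q) :=
      { toFun := fun f => mv f y t
        invFun := fun f => mv f y t⁻¹
        left_inv := fun f => mv_mv f y t
        right_inv := fun f => by
          have := mv_mv f y t⁻¹
          rwa [inv_inv] at this }
    exact Equiv.sum_comp Eq (fun f => (F (f, y, e)) ^ 2)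
  rw [Finset.sum_congr rfl h2, Finset.sum_const, nsmul_eq_mul]
  apply le_of_eq; ring

theorem sum_swap (G : LV Q → ℝ) : ∑ f, ∑ y, ∑ e, G (f, y, e) = ∑ y, ∑ e, ∑ f, G (f, y, e) := by
  rw [Finset.sum_comm]
  apply Finset.sum_congr rfl; intro y _
  rw [Finset.sum_comm]

/-- Convexity. -/
theorem E0_sq {T : Finset Q} {r : Rates Q} {c : ℝ} (hr : r.OK c) (F : LV Q → ℝ) :
    nsq (E0 T r F) ≤ ∑ f, ∑ y, ∑ e, ((1 - r.a - r.b y) * (F (f, y, e)) ^ 2
      + r.a * (Pb T (fun y e => F (f, y, e)) y e) ^ 2 + r.b y * (Al T F (f, y, e)) ^ 2) := by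
  unfold nsq
  apply Finset.sum_le_sum; intro f _
  apply Finset.sum_le_sum; intro y _
  apply Finset.sum_le_sum; intro e _
  rw [E0_apply]
  obtain ⟨A, hA⟩ : ∃ A, A = F (f, y, e) := ⟨_, rfl⟩
  obtain ⟨B, hB⟩ : ∃ B, B = Pb T (fun y e => F (f, y, e)) y e := ⟨_, rfl⟩
  obtain ⟨D, hD⟩ : ∃ D, D = Al T F (f, y, e) := ⟨_, rfl⟩
  rw [← hA, ← hB, ← hD]
  have ha := hr.ha; have hb := hr.hb y; have hg := hr.hg y; have ht := hr.tot y; have hc := hr.c0
  obtain ⟨a, ha'⟩ : ∃ a, a = r.a := ⟨_, rfl⟩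
  obtain ⟨b, hb'⟩ : ∃ b, b = r.b y := ⟨_, rfl⟩
  rw [← ha'] at ha ht ⊢
  rw [← hb'] at hb ht ⊢
  have ha0 : 0 ≤ a := by linarith
  have hb0 : 0 ≤ b := by linarith
  have h0 : 0 ≤ 1 - a - b := by linarith
  have e : (1 - a - b) * A ^ 2 + a * B ^ 2 + b * D ^ 2 - ((1 - a - b) * A + a * B + b * D) ^ 2
      = (1 - a - b) * a * (A - B) ^ 2 + (1 - a - b) * b * (A - D) ^ 2 + a * b * (B - D) ^ 2 := by ring
  have e2 : 0 ≤ (1 - a - b) * a * (A - B) ^ 2 + (1 - a - b) * b * (A - D) ^ 2 + a * b * (B - D) ^ 2 := by positivity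
  linarith

/-- One step in a nonempty sector. -/
theorem HS_contract {T : Finset Q} (hg : Gap T) {r : Rates Q} {c : ℝ} (hr : r.OK c) {S : Finset Q} {F : LV Q → ℝ} (h : HS S F)
    (hS : 0 < S.card) : nsq (E0 T r F) ≤ (1 - c * S.card / Fintype.card Q) * nsq F := by
  have hn : (0 : ℝ) < Fintype.card Q := by exact_mod_cast Fintype.card_pos
  obtain ⟨n, hn'⟩ : ∃ n : ℝ, n = (Fintype.card Q : ℝ) := ⟨_, rfl⟩
  rw [← hn'] at hn ⊢
  have hSr : (0 : ℝ) < S.card := by exact_mod_cast hS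
  have hSn : (S.card : ℝ) ≤ n := by
    rw [hn']; exact_mod_cast Finset.card_le_univ S
  have hc := hr.c0
  have ha := hr.ha
  obtain ⟨m, hm⟩ : ∃ m : (Q → Q) → ℝ, m = fun f => (∑ y, ∑ e, F (f, y, e)) / n ^ 2 := ⟨_, rfl⟩
  obtain ⟨X, hX⟩ : ∃ X, X = ∑ f, ∑ y, ∑ e, (F (f, y, e) - m f) ^ 2 := ⟨_, rfl⟩
  obtain ⟨Y, hY⟩ : ∃ Y, Y = ∑ f, ∑ y, ∑ e, (if y ∈ S then (F (f, y, e)) ^ 2 else 0) := ⟨_, rfl⟩
  have h2 : ∑ f, ∑ y, ∑ e, (Pb T (fun y e => F (f, y, e)) y e) ^ 2 ≤ nsq F - 7 / 16 * X := by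
    unfold nsq
    rw [hX, Finset.mul_sum, ← Finset.sum_sub_distrib]
    apply Finset.sum_le_sum; intro f _
    have := Pb_deficit hg (fun y e => F (f, y, e))
    rw [hm, hn']
    exact this
  have h3 : ∑ f, ∑ y, ∑ e, r.b y * (Al T F (f, y, e)) ^ 2 ≤ (∑ f, ∑ y, ∑ e, r.b y * (F (f, y, e)) ^ 2) - 15 / 4 * c * Y := by
    rw [hY, sum_swap (fun u => r.b u.2.1 * (Al T F u) ^ 2), sum_swap (fun u => r.b u.2.1 * (F u) ^ 2),
      sum_swap (fun u => if u.2.1 ∈ S then (F u) ^ 2 else 0), Finset.mul_sum, ← Finset.sum_sub_distrib]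
    apply Finset.sum_le_sum; intro y _
    rw [Finset.mul_sum, ← Finset.sum_sub_distrib]
    apply Finset.sum_le_sum; intro e _
    simp only
    rw [← Finset.mul_sum, ← Finset.mul_sum]
    have h4 := Al_key hg h y e
    have hb := hr.hb y
    have h5 : 0 ≤ ∑ f, (if y ∈ S then (F (f, y, e)) ^ 2 else 0) := Finset.sum_nonneg (fun _ _ => by
      split_ifs
      · exact sq_nonneg _
      · exact le_rfl)
    have h6 := mul_le_mul_of_nonneg_left h4 (by linarith : 0 ≤ r.b y)
    have h7 : 4 * c * ∑ f, (if y ∈ S then (F (f, y, e)) ^ 2 else 0) ≤ r.b y * ∑ f, (if y ∈ S then (F (f, y, e)) ^ 2 else 0) :=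
      mul_le_mul_of_nonneg_right hb h5
    linarith
  have h4 := E0_sq (T := T) hr F
  simp only [Finset.sum_add_distrib] at h4
  have e4 : ∑ f : Q → Q, ∑ y, ∑ e, (1 - r.a - r.b y) * (F (f, y, e)) ^ 2
      = (1 - r.a) * nsq F - ∑ f, ∑ y, ∑ e, r.b y * (F (f, y, e)) ^ 2 := by
    unfold nsq
    rw [Finset.mul_sum, ← Finset.sum_sub_distrib]
    apply Finset.sum_congr rfl; intro f _
    rw [Finset.mul_sum, ← Finset.sum_sub_distrib]
    apply Finset.sum_congr rfl; intro y _
    rw [Finset.mul_sum, ← Finset.sum_sub_distrib]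
    apply Finset.sum_congr rfl; intro e _
    ring
  have e5 : ∑ f : Q → Q, ∑ y, ∑ e, r.a * (Pb T (fun y e => F (f, y, e)) y e) ^ 2
      = r.a * ∑ f, ∑ y, ∑ e, (Pb T (fun y e => F (f, y, e)) y e) ^ 2 := by
    simp only [Finset.mul_sum]
  rw [e4, e5] at h4
  have hX0 : 0 ≤ X := by
    rw [hX]; exact Finset.sum_nonneg (fun _ _ => Finset.sum_nonneg (fun _ _ => Finset.sum_nonneg (fun _ _ => sq_nonneg _)))
  have hY0 : 0 ≤ Y := by
    rw [hY]
    exact Finset.sum_nonneg (fun _ _ => Finset.sum_nonneg (fun _ _ => Finset.sum_nonneg (fun _ _ => by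
      split_ifs
      · exact sq_nonneg _
      · exact le_rfl)))
  -- lower bound for X + Y
  have h5 : S.card * nsq F ≤ 3 * n * (X + Y) := by
    have h6 : ∀ f, S.card * ∑ y, ∑ e, (F (f, y, e)) ^ 2 ≤ 3 * n * (∑ y, ∑ e, (F (f, y, e) - m f) ^ 2 + ∑ y, ∑ e, (if y ∈ S then (F (f, y, e)) ^ 2 else 0)) := by
      intro f
      obtain ⟨x, hx⟩ : ∃ x, x = ∑ y, ∑ e, (F (f, y, e) - m f) ^ 2 := ⟨_, rfl⟩
      obtain ⟨z, hz⟩ : ∃ z, z = ∑ y, ∑ e, (if y ∈ S then (F (f, y, e)) ^ 2 else 0) := ⟨_, rfl⟩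
      rw [← hx, ← hz]
      have hx0 : 0 ≤ x := by rw [hx]; exact Finset.sum_nonneg (fun _ _ => Finset.sum_nonneg (fun _ _ => sq_nonneg _))
      have a1 : ∑ y, ∑ e, (F (f, y, e)) ^ 2 = x + n ^ 2 * (m f) ^ 2 := by
        have hs : ∑ y, ∑ e, F (f, y, e) = n ^ 2 * m f := by rw [hm]; field_simp
        have h7 : ∀ y e, (F (f, y, e) - m f) ^ 2 = (F (f, y, e)) ^ 2 - 2 * m f * F (f, y, e) + (m f) ^ 2 := by intro y e; ring
        rw [hx]
        simp only [h7, Finset.sum_add_distrib, Finset.sum_sub_distrib, ← Finset.mul_sum, hs, Finset.sum_const, Finset.card_univ, nsmul_eq_mul]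
        rw [← hn']; ring
      have a2 : S.card * n * (m f) ^ 2 ≤ 2 * z + 2 * x := by
        have h8 : ∑ y, ∑ _e : Q, (if y ∈ S then (m f) ^ 2 else 0) = S.card * n * (m f) ^ 2 := by
          simp only [Finset.sum_const, Finset.card_univ, nsmul_eq_mul]
          rw [← Finset.mul_sum, ← Finset.sum_filter, Finset.sum_const, nsmul_eq_mul]
          have : Finset.univ.filter (fun y => y ∈ S) = S := by ext; simp
          rw [this, ← hn']; ring
        rw [← h8, hz, hx, Finset.mul_sum, Finset.mul_sum, ← Finset.sum_add_distrib]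
        apply Finset.sum_le_sum; intro y _
        rw [Finset.mul_sum, Finset.mul_sum, ← Finset.sum_add_distrib]
        apply Finset.sum_le_sum; intro e _
        split_ifs
        · nlinarith [sq_nonneg (F (f, y, e) + (F (f, y, e) - m f))]
        · nlinarith [sq_nonneg (F (f, y, e) - m f)]
      rw [a1]
      have a3 : (S.card : ℝ) * x ≤ n * x := mul_le_mul_of_nonneg_right hSn hx0
      have a4 : n * (S.card * n * (m f) ^ 2) ≤ n * (2 * z + 2 * x) := mul_le_mul_of_nonneg_left a2 hn.le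
      have hz0 : 0 ≤ z := by
        rw [hz]
        exact Finset.sum_nonneg (fun _ _ => Finset.sum_nonneg (fun _ _ => by
          split_ifs
          · exact sq_nonneg _
          · exact le_rfl))
      have a5 : 0 ≤ n * z := by positivity
      linarith
    have h7 := Finset.sum_le_sum (fun f (_ : f ∈ Finset.univ) => h6 f)
    rw [← Finset.mul_sum, ← Finset.mul_sum, Finset.sum_add_distrib] at h7
    rw [hX, hY]
    exact h7
  have h6 : c * S.card / n * nsq F ≤ 3 * c * (X + Y) := by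
    rw [div_mul_eq_mul_div, div_le_iff₀ hn]
    have := mul_le_mul_of_nonneg_left h5 hc.le
    linarith
  have h7 := mul_le_mul_of_nonneg_left h2 (by linarith : 0 ≤ r.a)
  have h8 : 49 / 16 * c * X ≤ r.a * (7 / 16 * X) := by
    have := mul_le_mul_of_nonneg_right ha (by positivity : 0 ≤ 7 / 16 * X)
    linarith
  have h9 : 0 ≤ c * X := by positivity
  have h10 : 0 ≤ c * Y := by positivity
  rw [sub_mul, one_mul]
  linarith

/-- One step in the empty sector. -/
theorem HS_contract0 {T : Finset Q} (hg : Gap T) {r : Rates Q} {c : ℝ} (hr : r.OK c) {F : LV Q → ℝ} (h : HS ∅ F)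
    (h0 : ∀ f, ∑ y, ∑ e, F (f, y, e) = 0) : nsq (E0 T r F) ≤ (1 - c) * nsq F := by
  have hc := hr.c0
  have ha := hr.ha
  have h2 : ∑ f, ∑ y, ∑ e, (Pb T (fun y e => F (f, y, e)) y e) ^ 2 ≤ 9 / 16 * nsq F := by
    unfold nsq
    rw [Finset.mul_sum]
    exact Finset.sum_le_sum (fun f _ => hg.Pb_sq (fun y e => F (f, y, e)) (h0 f))
  have h3 : ∑ f, ∑ y, ∑ e, r.b y * (Al T F (f, y, e)) ^ 2 ≤ (∑ f, ∑ y, ∑ e, r.b y * (F (f, y, e)) ^ 2) := by
    rw [sum_swap (fun u => r.b u.2.1 * (Al T F u) ^ 2), sum_swap (fun u => r.b u.2.1 * (F u) ^ 2)]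
    apply Finset.sum_le_sum; intro y _
    apply Finset.sum_le_sum; intro e _
    simp only
    rw [← Finset.mul_sum, ← Finset.mul_sum]
    have hb := hr.hb y
    exact mul_le_mul_of_nonneg_left (Al_le hg.1 F y e) (by linarith)
  have h4 := E0_sq (T := T) hr F
  simp only [Finset.sum_add_distrib] at h4
  have e4 : ∑ f : Q → Q, ∑ y, ∑ e, (1 - r.a - r.b y) * (F (f, y, e)) ^ 2
      = (1 - r.a) * nsq F - ∑ f, ∑ y, ∑ e, r.b y * (F (f, y, e)) ^ 2 := by
    unfold nsq
    rw [Finset.mul_sum, ← Finset.sum_sub_distrib]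
    apply Finset.sum_congr rfl; intro f _
    rw [Finset.mul_sum, ← Finset.sum_sub_distrib]
    apply Finset.sum_congr rfl; intro y _
    rw [Finset.mul_sum, ← Finset.sum_sub_distrib]
    apply Finset.sum_congr rfl; intro e _
    ring
  have e5 : ∑ f : Q → Q, ∑ y, ∑ e, r.a * (Pb T (fun y e => F (f, y, e)) y e) ^ 2
      = r.a * ∑ f, ∑ y, ∑ e, (Pb T (fun y e => F (f, y, e)) y e) ^ 2 := by
    simp only [Finset.mul_sum]
  rw [e4, e5] at h4
  have hN := nsq_nonneg F
  have h5 := mul_le_mul_of_nonneg_left h2 (by linarith : 0 ≤ r.a)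
  have h6 : c * nsq F ≤ r.a * (7 / 16 * nsq F) := by
    have := mul_le_mul_of_nonneg_right ha (by positivity : 0 ≤ 7 / 16 * nsq F)
    nlinarith
  linarith

theorem HS_zero_step {T : Finset Q} (hg : Gap T) {r : Rates Q} {F : LV Q → ℝ} (h : HS ∅ F)
    (h0 : ∀ f, ∑ y, ∑ e, F (f, y, e) = 0) (f : Q → Q) : ∑ y, ∑ e, E0 T r F (f, y, e) = 0 := by
  simp only [E0_apply]
  have hAl : ∀ y e, Al T F (f, y, e) = F (f, y, e) := by
    intro y e
    unfold Al
    have : ∀ t ∈ T, F (mv f y t, y, e) = F (f, y, e) := fun t _ => h.const y (by simp) f _ y e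
    simp only
    rw [Finset.sum_congr rfl this, Finset.sum_const, nsmul_eq_mul]
    have : (T.card : ℝ) ≠ 0 := by exact_mod_cast hg.1.ne'
    field_simp
  have e1 : ∀ y e, (1 - r.a - r.b y) * F (f, y, e) + r.a * Pb T (fun y e => F (f, y, e)) y e + r.b y * Al T F (f, y, e)
      = (1 - r.a) * F (f, y, e) + r.a * Pb T (fun y e => F (f, y, e)) y e := by
    intro y e; rw [hAl]; ring
  simp only [e1, Finset.sum_add_distrib, ← Finset.mul_sum, h0 f]
  rw [sum_Pb hg.1 (fun y e => F (f, y, e)), h0 f]; simp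

theorem HS_pow {T : Finset Q} (hg : Gap T) {r : Rates Q} {c : ℝ} (hr : r.OK c) {S : Finset Q} (hS : 0 < S.card) (t : ℕ)
    {F : LV Q → ℝ} (h : HS S F) :
    nsq ((E0 T r ^ t) F) ≤ (1 - c * S.card / Fintype.card Q) ^ t * nsq F := by
  have hn : (0 : ℝ) < Fintype.card Q := by exact_mod_cast Fintype.card_pos
  have hSn : (S.card : ℝ) ≤ Fintype.card Q := by exact_mod_cast Finset.card_le_univ S
  have hc := hr.c0
  have hc1 : c ≤ 1 := by
    have := hr.ha; have := hr.tot 1; have := hr.hb 1; have := hr.hg 1; linarith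
  have h36 : c * (S.card : ℝ) / Fintype.card Q ≤ 1 := by
    rw [div_le_one hn]
    have : 0 ≤ (S.card : ℝ) := Nat.cast_nonneg _
    nlinarith
  induction t generalizing F with
  | zero => simp only [pow_zero, one_mul]; exact le_rfl
  | succ t ih =>
    have e1 : (E0 T r ^ (t + 1)) F = (E0 T r ^ t) (E0 T r F) := by
      rw [pow_succ, Module.End.mul_apply]
    rw [e1]
    refine (ih (HS_step h)).trans ?_
    rw [pow_succ, mul_assoc]
    apply mul_le_mul_of_nonneg_left (HS_contract hg hr h hS)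
    apply pow_nonneg; linarith

theorem HS_pow0 {T : Finset Q} (hg : Gap T) {r : Rates Q} {c : ℝ} (hr : r.OK c) (t : ℕ) {F : LV Q → ℝ} (h : HS ∅ F)
    (h0 : ∀ f, ∑ y, ∑ e, F (f, y, e) = 0) :
    nsq ((E0 T r ^ t) F) ≤ (1 - c) ^ t * nsq F := by
  have hc1 : c ≤ 1 := by
    have := hr.ha; have := hr.tot 1; have := hr.hb 1; have := hr.hg 1; have := hr.c0; linarith
  induction t generalizing F with
  | zero => simp only [pow_zero, one_mul]; exact le_rfl
  | succ t ih =>
    have e1 : (E0 T r ^ (t + 1)) F = (E0 T r ^ t) (E0 T r F) := by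
      rw [pow_succ, Module.End.mul_apply]
    rw [e1]
    refine (ih (HS_step h) (fun f => HS_zero_step hg h h0 f)).trans ?_
    rw [pow_succ, mul_assoc]
    apply mul_le_mul_of_nonneg_left (HS_contract0 hg hr h h0)
    apply pow_nonneg; linarith

/-- The odd operator contracts. -/
theorem E1_contract {T : Finset Q} (hg : Gap T) {r : Rates Q} {c : ℝ} (hr : r.OK c) (F : LV Q → ℝ) :
    nsq (E1 T r F) ≤ (1 - 2 * c) * nsq F := by
  have hc := hr.c0
  have ha := hr.ha
  have h1 : ∀ f y e, (E1 T r F (f, y, e)) ^ 2 ≤ (1 - r.a - r.b y - 2 * c) * (F (f, y, e)) ^ 2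
      + r.a * (Pb T (fun y e => F (f, y, e)) y e) ^ 2 + r.b y * (Al T F (f, y, e)) ^ 2 := by
    intro f y e
    rw [E1_apply, E0_apply]
    obtain ⟨A, hA⟩ : ∃ A, A = F (f, y, e) := ⟨_, rfl⟩
    obtain ⟨B, hB⟩ : ∃ B, B = Pb T (fun y e => F (f, y, e)) y e := ⟨_, rfl⟩
    obtain ⟨D, hD⟩ : ∃ D, D = Al T F (f, y, e) := ⟨_, rfl⟩
    simp only
    rw [← hA, ← hB, ← hD]
    have hb := hr.hb y; have hgy := hr.hg y; have ht := hr.tot y
    obtain ⟨a, ha'⟩ : ∃ a, a = r.a := ⟨_, rfl⟩
    obtain ⟨b, hb'⟩ : ∃ b, b = r.b y := ⟨_, rfl⟩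
    obtain ⟨g, hg'⟩ : ∃ g, g = r.g y := ⟨_, rfl⟩
    rw [← ha'] at ha ht ⊢
    rw [← hb'] at hb ht ⊢
    rw [← hg'] at hgy ht ⊢
    have ha0 : 0 ≤ a := by linarith
    have hb0 : 0 ≤ b := by linarith
    have hg0 : 0 ≤ g := by linarith
    have h0 : 0 ≤ 1 - a - b - 2 * g := by linarith
    have e1 : (1 - a - b) * A + a * B + b * D - 2 * g * A = (1 - a - b - 2 * g) * A + a * B + b * D := by ring
    rw [e1]
    have e2 : (1 - a - b - 2 * g) * A ^ 2 + a * B ^ 2 + b * D ^ 2 - ((1 - a - b - 2 * g) * A + a * B + b * D) ^ 2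
        = (1 - a - b - 2 * g) * a * (A - B) ^ 2 + (1 - a - b - 2 * g) * b * (A - D) ^ 2 + a * b * (B - D) ^ 2
          + 2 * g * ((1 - a - b - 2 * g) * A ^ 2 + a * B ^ 2 + b * D ^ 2) := by ring
    have e3 : 0 ≤ (1 - a - b - 2 * g) * a * (A - B) ^ 2 + (1 - a - b - 2 * g) * b * (A - D) ^ 2 + a * b * (B - D) ^ 2
          + 2 * g * ((1 - a - b - 2 * g) * A ^ 2 + a * B ^ 2 + b * D ^ 2) := by positivity
    have e4 : (1 - a - b - 2 * g) * A ^ 2 ≤ (1 - a - b - 2 * c) * A ^ 2 := by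
      apply mul_le_mul_of_nonneg_right _ (sq_nonneg _); linarith
    linarith
  have h2 : ∑ f, ∑ y, ∑ e, (Pb T (fun y e => F (f, y, e)) y e) ^ 2 ≤ nsq F := by
    unfold nsq
    apply Finset.sum_le_sum; intro f _
    have := Pb_deficit hg (fun y e => F (f, y, e))
    have h3 : 0 ≤ ∑ y, ∑ e, (F (f, y, e) - (∑ y, ∑ e, F (f, y, e)) / (Fintype.card Q : ℝ) ^ 2) ^ 2 :=
      Finset.sum_nonneg (fun _ _ => Finset.sum_nonneg (fun _ _ => sq_nonneg _))
    linarith
  have h3 : ∑ f, ∑ y, ∑ e, r.b y * (Al T F (f, y, e)) ^ 2 ≤ (∑ f, ∑ y, ∑ e, r.b y * (F (f, y, e)) ^ 2) := by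
    rw [sum_swap (fun u => r.b u.2.1 * (Al T F u) ^ 2), sum_swap (fun u => r.b u.2.1 * (F u) ^ 2)]
    apply Finset.sum_le_sum; intro y _
    apply Finset.sum_le_sum; intro e _
    simp only
    rw [← Finset.mul_sum, ← Finset.mul_sum]
    have hb := hr.hb y
    exact mul_le_mul_of_nonneg_left (Al_le hg.1 F y e) (by linarith)
  have h4 : nsq (E1 T r F) ≤ ∑ f, ∑ y, ∑ e, ((1 - r.a - r.b y - 2 * c) * (F (f, y, e)) ^ 2
      + r.a * (Pb T (fun y e => F (f, y, e)) y e) ^ 2 + r.b y * (Al T F (f, y, e)) ^ 2) := by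
    unfold nsq
    exact Finset.sum_le_sum (fun f _ => Finset.sum_le_sum (fun y _ => Finset.sum_le_sum (fun e _ => h1 f y e)))
  simp only [Finset.sum_add_distrib] at h4
  have e4 : ∑ f : Q → Q, ∑ y, ∑ e, (1 - r.a - r.b y - 2 * c) * (F (f, y, e)) ^ 2
      = (1 - r.a - 2 * c) * nsq F - ∑ f, ∑ y, ∑ e, r.b y * (F (f, y, e)) ^ 2 := by
    unfold nsq
    rw [Finset.mul_sum, ← Finset.sum_sub_distrib]
    apply Finset.sum_congr rfl; intro f _
    rw [Finset.mul_sum, ← Finset.sum_sub_distrib]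
    apply Finset.sum_congr rfl; intro y _
    rw [Finset.mul_sum, ← Finset.sum_sub_distrib]
    apply Finset.sum_congr rfl; intro e _
    ring
  have e5 : ∑ f : Q → Q, ∑ y, ∑ e, r.a * (Pb T (fun y e => F (f, y, e)) y e) ^ 2
      = r.a * ∑ f, ∑ y, ∑ e, (Pb T (fun y e => F (f, y, e)) y e) ^ 2 := by
    simp only [Finset.mul_sum]
  rw [e4, e5] at h4
  have h5 := mul_le_mul_of_nonneg_left h2 (by linarith : 0 ≤ r.a)
  linarith

theorem E1_pow {T : Finset Q} (hg : Gap T) {r : Rates Q} {c : ℝ} (hr : r.OK c) (t : ℕ) (F : LV Q → ℝ) :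
    nsq ((E1 T r ^ t) F) ≤ (1 - 2 * c) ^ t * nsq F := by
  have hc1 : 2 * c ≤ 1 := by
    have := hr.ha; have := hr.tot 1; have := hr.hb 1; have := hr.hg 1; have := hr.c0; linarith
  induction t generalizing F with
  | zero => simp only [pow_zero, one_mul]; exact le_rfl
  | succ t ih =>
    have e1 : (E1 T r ^ (t + 1)) F = (E1 T r ^ t) (E1 T r F) := by
      rw [pow_succ, Module.End.mul_apply]
    rw [e1]
    refine (ih _).trans ?_
    rw [pow_succ, mul_assoc]
    apply mul_le_mul_of_nonneg_left (E1_contract hg hr F)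
    apply pow_nonneg; linarith

end PC

end Pool.Agent.H984
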