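import Pool.Agent.H984.PcMod

/-!
H984: one step of the fully locked ratchet, with the extra negative term at the sites.
-/

set_option autoImplicit false

open Classical

namespace Pool.Agent.H984

namespace PC

variable {Q : Type} [Group Q] [Fintype Q] {ι : Type} [Fintype ι]

section lf

variable {P : RP ι Q} {T : Finset Q} {lev : Q → ℕ} {site : ι → Q} {M : ℕ} {R : ℝ} {L' : ℕ} {ep lam K1 kap δ eta : ℝ} {τ : ℕ}

/-- At a site, keeping half of the negative term. -/
theorem LF_site2 (h : CorrOK P T lev site M R L' ep lam K1 kap δ eta τ) {s : ℕ} (hs : s < M) (hinj : Function.Injective site)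
    (c : ι → Q) (x : ι) (e : Q) :
    Pb T (Fc P T lev site ep lam kap τ s c) (site x) e - Fc P T lev site ep lam kap τ s c (site x) e
      + kap * ∑ t ∈ T, lw P lev c x t e * (Fc P T lev site ep lam kap τ s (Function.update c x (c x * t)) (site x) e
        - Fc P T lev site ep lam kap τ s c (site x) e)
      ≤ kap * ((Pb T ^ τ) (uf P T lev site ep lam s c) (site x) e - lam / 2 * P.w ep (nc lev c) s x) := by
  have hT := h.lamp.gap.1
  have hkap := h.kap0
  have hlam := h.lam0
  have hlam1 := h.lam1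
  have hd := h.ok.d0
  have hd1 := h.ok.hd
  have hK := h.ok.K0
  set u := uf P T lev site ep lam s c with hu
  have e1 : Pb T (Fc P T lev site ep lam kap τ s c) (site x) e - Fc P T lev site ep lam kap τ s c (site x) e
      = kap * ((Pb T ^ τ) u (site x) e - u (site x) e) := by
    unfold Fc
    rw [map_add, map_smul]
    have h1 : Pb T (fun _ _ => P.V (nc lev c) s) = fun _ _ => P.V (nc lev c) s := by
      have := Pb_const hT (P.V (nc lev c) s) 1; rwa [pow_one] at this
    rw [h1]
    have h2 := congrFun (congrFun (Pb_Gr T τ u) (site x)) e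
    simp only [Pi.sub_apply] at h2
    simp only [Pi.add_apply, Pi.smul_apply, smul_eq_mul]
    rw [← h2]; ring
  have e2 : u (site x) e = P.hs (Uc T lev c) (Dc T lev c) (nc lev c) s x e + lam * P.w ep (nc lev c) s x := by
    rw [hu]; unfold uf
    rw [Finset.sum_eq_single_of_mem x (Finset.mem_univ x)]
    · rw [if_pos rfl]
    · intro y _ hy; rw [if_neg (fun h => hy (hinj h))]
  have e3 : ∑ t ∈ T, lw P lev c x t e * (Fc P T lev site ep lam kap τ s (Function.update c x (c x * t)) (site x) e
        - Fc P T lev site ep lam kap τ s c (site x) e)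
      = P.hs (Uc T lev c) (Dc T lev c) (nc lev c) s x e
        + kap * ∑ t ∈ T, lw P lev c x t e * (Gr T τ (uf P T lev site ep lam s (Function.update c x (c x * t))) (site x) e
          - Gr T τ u (site x) e) := by
    rw [← lamp_drift h.lamp c s x e, Finset.mul_sum, ← Finset.sum_add_distrib]
    apply Finset.sum_congr rfl; intro t _
    unfold Fc
    simp only [Pi.add_apply, Pi.smul_apply, smul_eq_mul]
    ring
  have hw := RP.w_nonneg h.ok h.small.ep0 (nc lev c) hs x
  have h4 : ∑ t ∈ T, lw P lev c x t e * (Gr T τ (uf P T lev site ep lam s (Function.update c x (c x * t))) (site x) e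
          - Gr T τ u (site x) e) ≤ P.d * P.K * (2 * 54 * P.w ep (nc lev c) s x) := by
    have h5 : ∀ t ∈ T, lw P lev c x t e * (Gr T τ (uf P T lev site ep lam s (Function.update c x (c x * t))) (site x) e
          - Gr T τ u (site x) e) ≤ P.K * (2 * 54 * P.w ep (nc lev c) s x) := by
      intro t ht
      have a1 := Gr_uf h hs (Function.update c x (c x * t)) (site x) e
      have a2 := Gr_uf h hs c (site x) e
      have a3 := green_site h hs (Function.update c x (c x * t)) x
      have a4 := green_site h hs c x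
      have a5 : P.w ep (nc lev (Function.update c x (c x * t))) s x ≤ 8 * P.w ep (nc lev c) s x := by
        rcases nc_cases (L := P.L) (d := P.d) (dp := P.dp) (fun h' t' ht' => h.lamp.step h' t' ht')
          (fun h' t' ht' => h.lamp.step' h' ht') c x ht with h6 | h6
        · rw [h6]; linarith
        · exact RP.w_nb h.ok h.small h6 (h.lamp.top _) hs x
      have a6 : Gr T τ (uf P T lev site ep lam s (Function.update c x (c x * t))) (site x) e - Gr T τ u (site x) e
          ≤ 2 * 54 * P.w ep (nc lev c) s x := by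
        have b1 := (_root_.abs_le.mp a1).2
        have b2 := (_root_.abs_le.mp a2).1
        have b3 : (1 + lam) * ∑ x', P.w ep (nc lev (Function.update c x (c x * t))) s x' * Gn T τ (site x) (site x')
            ≤ 2 * (48 * P.w ep (nc lev c) s x) := by
          apply mul_le_mul (by linarith) (by linarith) _ (by norm_num)
          exact Finset.sum_nonneg (fun x' _ => mul_nonneg (RP.w_nonneg h.ok h.small.ep0 _ hs x') (Gn_nonneg hT _ _ _))
        have b4 : (1 + lam) * ∑ x', P.w ep (nc lev c) s x' * Gn T τ (site x) (site x')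
            ≤ 2 * (6 * P.w ep (nc lev c) s x) := by
          apply mul_le_mul (by linarith) (by linarith) _ (by norm_num)
          exact Finset.sum_nonneg (fun x' _ => mul_nonneg (RP.w_nonneg h.ok h.small.ep0 _ hs x') (Gn_nonneg hT _ _ _))
        linarith
      have a7 := lw_nonneg (lev := lev) h.ok.K1 c x t e
      have a8 := lw_le (lev := lev) h.ok.K1 c x t e
      calc _ ≤ lw P lev c x t e * (2 * 54 * P.w ep (nc lev c) s x) := mul_le_mul_of_nonneg_left a6 a7
        _ ≤ _ := mul_le_mul_of_nonneg_right a8 (by positivity)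
    refine (Finset.sum_le_sum h5).trans ?_
    rw [Finset.sum_const, nsmul_eq_mul, h.lamp.card]; linarith
  rw [e1, e2, e3]
  have h6 := h.kapK
  have h7 : kap * (P.d * P.K * (2 * 54 * P.w ep (nc lev c) s x)) ≤ lam / 2 * P.w ep (nc lev c) s x := by
    have : kap * (P.d * P.K * (2 * 54 * P.w ep (nc lev c) s x)) = (kap * (P.d * P.K)) * 108 * P.w ep (nc lev c) s x := by ring
    rw [this, h6, h.hlam]
    apply mul_le_mul_of_nonneg_right _ hw
    rw [div_mul_eq_mul_div, div_div, div_le_div_iff₀ (by positivity) (by positivity)]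
    nlinarith
  have h8 := mul_le_mul_of_nonneg_left (mul_le_mul_of_nonneg_left h4 hkap.le) hkap.le
  have h9 := mul_le_mul_of_nonneg_left h7 hkap.le
  have e4 : kap * ((Pb T ^ τ) u (site x) e - (P.hs (Uc T lev c) (Dc T lev c) (nc lev c) s x e + lam * P.w ep (nc lev c) s x))
      + kap * (P.hs (Uc T lev c) (Dc T lev c) (nc lev c) s x e
        + kap * ∑ t ∈ T, lw P lev c x t e * (Gr T τ (uf P T lev site ep lam s (Function.update c x (c x * t))) (site x) e
          - Gr T τ u (site x) e))
      = kap * (Pb T ^ τ) u (site x) e - kap * (lam * P.w ep (nc lev c) s x)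
        + kap * (kap * ∑ t ∈ T, lw P lev c x t e * (Gr T τ (uf P T lev site ep lam s (Function.update c x (c x * t))) (site x) e
          - Gr T τ u (site x) e)) := by ring
  rw [e4]
  linarith

end lf

section step

variable {D : PD Q ι} {T : Finset Q} {M : ℕ} {R : ℝ} {L' : ℕ} {ep lam K1 kap δ eta : ℝ} {τ : ℕ}

theorem PD.AW_L (h : D.OK T) : AW T D.W0 (D.CC0 T) D.wL where
  C0 := D.CC0_pos h
  W00 := by have := h.W1; linarith
  w0 u t _ := by have := D.wL_ge h u t; linarith
  tot u := D.tot_of h (fun u t => D.wL_leK h u t) u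

theorem PD.AW_P (h : D.OK T) : AW T D.W0 (D.CC0 T) D.wP where
  C0 := D.CC0_pos h
  W00 := by have := h.W1; linarith
  w0 u t _ := by have := D.wP_ge h u t; linarith
  tot u := D.tot_of h (fun u t => D.wP_le h u t) u

theorem PD.AW_N (h : D.OK T) : AW T D.W0 (D.CC0 T) (fun u _ => D.wy u.2.1) where
  C0 := D.CC0_pos h
  W00 := by have := h.W1; linarith
  w0 u t _ := by have := D.wy_ge h u.2.1; linarith
  tot u := D.tot_of h (w := fun u _ => D.wy u.2.1) (fun u _ => D.wy_le h u.2.1) u

/-- The majorant at the place of the walker. -/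
noncomputable def PD.ws (D : PD Q ι) (ep : ℝ) (s : ℕ) (u : LV Q) : ℝ :=
  ∑ x, if D.site x = u.2.1 then D.P.w ep (nc D.lev (cfg D.site u.1)) s x else 0

/-- The corrected potential. -/
noncomputable def PD.Ph (D : PD Q ι) (T : Finset Q) (ep lam kap : ℝ) (τ s : ℕ) (u : LV Q) : ℝ :=
  Phi D.P T D.lev D.site ep lam kap τ s u

/-- The additive one-step inequality. -/
theorem PD.step0 (h : CorrOK D.P T D.lev D.site M R L' ep lam K1 kap δ eta τ) (ho : D.OK T) (hW : D.W0 = K1 * D.P.K)
    {s : ℕ} (hs : s < M) (u : LV Q) :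
    Op T D.W0 (D.CC0 T) D.wL (D.Ph T ep lam kap τ s) u
      ≤ D.Ph T ep lam kap τ s u + ((Pb T ^ τ) (uf D.P T D.lev D.site ep lam s (cfg D.site u.1)) u.2.1 u.2.2
          - lam / 2 * D.ws ep s u) / (2 * D.CC0 T) := by
  have hC := D.CC0_pos ho
  have hK0 := h.ok.K0
  have hd0 := h.ok.d0
  have hK1pos : (0 : ℝ) < K1 := by rw [h.hK1]; positivity
  have hcard := h.lamp.card
  have hkap : kap * (D.W0 * (2 * T.card)) = 1 := by
    rw [h.hkap, hcard, hW]; field_simp
  have hkap0 := h.kap0
  have hN : 0 < D.W0 * (2 * T.card) := by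
    by_contra hc
    push Not at hc
    have := mul_nonpos_of_nonneg_of_nonpos hkap0.le hc
    linarith
  unfold Op
  apply add_le_add le_rfl
  apply div_le_div_of_nonneg_right _ (by positivity)
  obtain ⟨f, y, e⟩ := u
  simp only
  set c := cfg D.site f with hc
  set F := Fc D.P T D.lev D.site ep lam kap τ s with hF
  have ePh : ∀ (f' : Q → Q) (y' e' : Q), D.Ph T ep lam kap τ s (f', y', e') = F (cfg D.site f') y' e' := fun _ _ _ => rfl
  simp only [ePh]
  rw [← hc]
  by_cases hy : ∃ x, D.site x = y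
  · obtain ⟨x, rfl⟩ := hy
    have h3 := LF_site2 h hs ho.inj c x e
    rw [← hF] at h3
    have h4 := mul_le_mul_of_nonneg_left h3 hN.le
    have e3 : ∑ t ∈ T, D.wL (f, D.site x, e) t * (F (cfg D.site (mv f (D.site x) t)) (D.site x) e - F c (D.site x) e)
        = ∑ t ∈ T, lw D.P D.lev c x t e * (F (Function.update c x (c x * t)) (D.site x) e - F c (D.site x) e) := by
      apply Finset.sum_congr rfl; intro t _
      rw [D.wL_site ho, cfg_mv_site ho.inj]
    rw [e3]
    have ews : D.ws ep s (f, D.site x, e) = D.P.w ep (nc D.lev c) s x := by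
      unfold PD.ws
      rw [Finset.sum_eq_single_of_mem x (Finset.mem_univ x)]
      · rw [if_pos rfl]
      · intro z _ hz; rw [if_neg (fun h' => hz (ho.inj h'))]
    rw [ews]
    set X := ∑ t ∈ T, lw D.P D.lev c x t e * (F (Function.update c x (c x * t)) (D.site x) e - F c (D.site x) e)
    set Y := (Pb T ^ τ) (uf D.P T D.lev D.site ep lam s c) (D.site x) e
    have e4 : D.W0 * (2 * T.card) * (Pb T (F c) (D.site x) e - F c (D.site x) e + kap * X)
        = D.W0 * (2 * T.card) * (Pb T (F c) (D.site x) e - F c (D.site x) e) + (kap * (D.W0 * (2 * T.card))) * X := by ring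
    have e5 : D.W0 * (2 * T.card) * (kap * (Y - lam / 2 * D.P.w ep (nc D.lev c) s x))
        = (kap * (D.W0 * (2 * T.card))) * (Y - lam / 2 * D.P.w ep (nc D.lev c) s x) := by ring
    rw [e4, e5, hkap, one_mul, one_mul] at h4
    exact h4
  · push Not at hy
    have e3 : ∑ t ∈ T, D.wL (f, y, e) t * (F (cfg D.site (mv f y t)) y e - F c y e) = 0 := by
      apply Finset.sum_eq_zero; intro t _
      rw [cfg_mv_off f hy, ← hc, sub_self, mul_zero]
    rw [e3, add_zero]
    have h3 := LF_off h (s := s) c y e hy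
    rw [← hF] at h3
    have ews : D.ws ep s (f, y, e) = 0 := by
      unfold PD.ws
      apply Finset.sum_eq_zero; intro x _
      rw [if_neg (hy x)]
    rw [ews]
    have h3' : Pb T (fun y e => F c y e) y e - F c y e = kap * (Pb T ^ τ) (uf D.P T D.lev D.site ep lam s c) y e := h3
    rw [h3']
    have e5 : D.W0 * (2 * T.card) * (kap * (Pb T ^ τ) (uf D.P T D.lev D.site ep lam s c) y e)
        = (kap * (D.W0 * (2 * T.card))) * (Pb T ^ τ) (uf D.P T D.lev D.site ep lam s c) y e := by ring
    rw [e5, hkap, one_mul, mul_zero, sub_zero]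

theorem PD.ws_nonneg (h : CorrOK D.P T D.lev D.site M R L' ep lam K1 kap δ eta τ) {s : ℕ} (hs : s < M) (u : LV Q) :
    0 ≤ D.ws ep s u := by
  unfold PD.ws
  apply Finset.sum_nonneg; intro x _
  split_ifs
  · exact RP.w_nonneg h.ok h.small.ep0 _ hs x
  · exact le_rfl

theorem PD.Ph_bounds (h : CorrOK D.P T D.lev D.site M R L' ep lam K1 kap δ eta τ) {s : ℕ} (hs : s < M) (u : LV Q) :
    D.P.g (nc D.lev (cfg D.site u.1)) s / 2 ≤ D.Ph T ep lam kap τ s u ∧
      D.Ph T ep lam kap τ s u ≤ 2 * D.P.g (nc D.lev (cfg D.site u.1)) s :=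
  Fc_bounds h hs (cfg D.site u.1) u.2.1 u.2.2

theorem PD.Ph_pos (h : CorrOK D.P T D.lev D.site M R L' ep lam K1 kap δ eta τ) {s : ℕ} (hs : s < M) (u : LV Q) :
    0 < D.Ph T ep lam kap τ s u := by
  have h2 := (PD.Ph_bounds h hs u).1
  have h3 := D.P.g_pos h.ok.hA (n := nc D.lev (cfg D.site u.1)) s
  linarith

/-- The multiplicative one-step inequality. -/
theorem PD.step1 (h : CorrOK D.P T D.lev D.site M R L' ep lam K1 kap δ eta τ) (heta : 0 ≤ eta) (ho : D.OK T) (hW : D.W0 = K1 * D.P.K)
    {s : ℕ} (hs : s < M) (u : LV Q) :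
    Op T D.W0 (D.CC0 T) D.wL (D.Ph T ep lam kap τ s) u
      ≤ D.Ph T ep lam kap τ s u * (1 + kap * D.P.K / Fintype.card Q
          * (D.P.m s * (4 * D.P.d * D.P.Gf (nc D.lev (cfg D.site u.1)) s + eta))) := by
  have hn : (0 : ℝ) < Fintype.card Q := by exact_mod_cast Fintype.card_pos
  have hC := D.CC0_pos ho
  have hK0 := h.ok.K0
  have hd0 := h.ok.d0
  have hK1pos : (0 : ℝ) < K1 := by rw [h.hK1]; positivity
  have hcard := h.lamp.card
  have hkap0 := h.kap0
  have h1 := D.step0 h ho hW hs u
  have h5 := Pb_uf h hs (cfg D.site u.1) u.2.1 u.2.2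
  obtain ⟨h6, h7⟩ := PD.Ph_bounds h hs u
  set g := D.P.g (nc D.lev (cfg D.site u.1)) s with hg
  have hg0 : 0 < g := D.P.g_pos h.ok.hA s
  have hG0 := D.P.Gf_nonneg (nc D.lev (cfg D.site u.1)) s
  have hms := h.ok.m0 hs
  set Bq := D.P.m s * (4 * D.P.d * D.P.Gf (nc D.lev (cfg D.site u.1)) s + eta) with hBq
  have hBq0 : 0 ≤ Bq := by positivity
  have hws := D.ws_nonneg h hs u
  have hlam := h.lam0
  have h8 : 0 ≤ D.P.K * g / Fintype.card Q * Bq := by positivity
  have hCge : 2 * D.P.d * D.W0 ≤ D.CC0 T := by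
    unfold PD.CC0; rw [hcard]
    have : 0 ≤ D.P.d * D.P.K := by positivity
    linarith
  have hW0 : 0 < D.W0 := by rw [hW]; positivity
  have h9 : ((Pb T ^ τ) (uf D.P T D.lev D.site ep lam s (cfg D.site u.1)) u.2.1 u.2.2 - lam / 2 * D.ws ep s u) / (2 * D.CC0 T)
      ≤ (D.P.K * g / Fintype.card Q * Bq) / (2 * (2 * D.P.d * D.W0)) := by
    calc _ ≤ (D.P.K * g / Fintype.card Q * Bq) / (2 * D.CC0 T) := by
          apply div_le_div_of_nonneg_right _ (by positivity)
          have : 0 ≤ lam / 2 * D.ws ep s u := by positivity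
          linarith
      _ ≤ _ := by
          apply div_le_div_of_nonneg_left h8 (by positivity)
          linarith
  have h10 : (D.P.K * g / Fintype.card Q * Bq) / (2 * (2 * D.P.d * D.W0)) = kap * D.P.K / Fintype.card Q * Bq * (g / 2) := by
    rw [h.hkap, hW]; field_simp
  have h11 : kap * D.P.K / Fintype.card Q * Bq * (g / 2) ≤ kap * D.P.K / Fintype.card Q * Bq * D.Ph T ep lam kap τ s u := by
    apply mul_le_mul_of_nonneg_left h6
    positivity
  rw [h10] at h9
  linarith

end step

end PC

end Pool.Agent.H984
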