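import Pool.Agent.H984.Stmt

/-!
H984: the notions of MP_cf7fa9_pr.
-/

set_option autoImplicit false

open Classical Filter

namespace Pool.Agent.H984

namespace PC

variable {V : Type} [Fintype V]

/-- `c_x = ∑_{y ~ x} c_{x,y}`. -/
noncomputable def wdeg (G : SimpleGraph V) (c : V → V → ℝ) (x : V) : ℝ := ∑ y, if G.Adj x y then c x y else 0

/-- The transition matrix of the lazy random walk on the weighted graph `(G, c)`. -/
noncomputable def walk (G : SimpleGraph V) (c : V → V → ℝ) : Matrix V V ℝ :=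
  Matrix.of fun x y => (if x = y then 1 / 2 else 0) + (if G.Adj x y then c x y / (2 * wdeg G c x) else 0)

/-- The stationary law. -/
noncomputable def stat (G : SimpleGraph V) (c : V → V → ℝ) (x : V) : ℝ := wdeg G c x / ∑ y, wdeg G c y

/-- Total variation distance. -/
noncomputable def tv (p q : V → ℝ) : ℝ := (∑ y, |p y - q y|) / 2

/-- `max_x ‖P^t(x,·) - π‖_TV ≤ ε`. -/
def MixedBy (G : SimpleGraph V) (c : V → V → ℝ) (ε : ℝ) (t : ℕ) : Prop :=
  ∀ x, tv (fun y => (walk G c ^ t) x y) (stat G c) ≤ ε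

/-- The total variation mixing time. -/
noncomputable def tmix (G : SimpleGraph V) (c : V → V → ℝ) (ε : ℝ) : ℕ := sInf {t : ℕ | MixedBy G c ε t}

/-- The second largest eigenvalue (the eigenvalue `1` is simple for a connected graph with positive weights). -/
noncomputable def lam2 (G : SimpleGraph V) (c : V → V → ℝ) : ℝ :=
  sSup {l : ℝ | l ≠ 1 ∧ ∃ F : V → ℝ, F ≠ 0 ∧ (walk G c).mulVec F = l • F}

/-- The relaxation time. -/
noncomputable def trel (G : SimpleGraph V) (c : V → V → ℝ) : ℝ := (1 - lam2 G c)⁻¹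

/-- A sequence of finite graphs. -/
structure GSeq where
  V : ℕ → Type
  fin : ∀ n, Fintype (V n)
  G : ∀ n, SimpleGraph (V n)

attribute [instance] GSeq.fin

/-- Weights on a sequence of graphs. -/
abbrev GSeq.Wt (S : GSeq) : Type := ∀ n, S.V n → S.V n → ℝ

/-- Unit weights. -/
def GSeq.one (S : GSeq) : S.Wt := fun _ _ _ => 1

/-- Product condition: `t_rel = o(t_mix)`. -/
def ProductCondition (S : GSeq) (w : S.Wt) : Prop :=
  Tendsto (fun n => trel (S.G n) (w n) / (tmix (S.G n) (w n) (1 / 4) : ℝ)) atTop (nhds 0)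

/-- Pre-cutoff: `sup_{0 < ε < 1/2} limsup_n t_mix(ε) / t_mix(1 - ε) < ∞`. -/
def PreCutoff (S : GSeq) (w : S.Wt) : Prop :=
  (⨆ ε ∈ Set.Ioo (0 : ℝ) (1 / 2), limsup (fun n => (tmix (S.G n) (w n) ε : ENNReal) / (tmix (S.G n) (w n) (1 - ε) : ENNReal)) atTop) < ⊤

/-- Bounded perturbations: symmetric edge weights in `[1, K]` for one `K`. -/
def BoundedPerturbation (S : GSeq) (w : S.Wt) : Prop :=
  (∀ n x y, w n x y = w n y x) ∧ ∃ K : ℝ, ∀ n x y, (S.G n).Adj x y → 1 ≤ w n x y ∧ w n x y ≤ K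

end PC

end Pool.Agent.H984
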