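import Pool.Agent.H984.Lev

/-!
H984: the ratchet of the lamp levels (definitions and one-step changes).
-/

set_option autoImplicit false

open Classical

namespace Pool.Agent.H984

variable {ι E : Type} [Fintype ι] [Fintype E]

/-- The parameters of the ratchet. -/
structure RP (ι E : Type) where
  gp : ι → ℕ
  bt : ι → Bool
  m : ℕ → ℝ
  tau : ℕ → ℕ
  th : ℕ → E → ℕ
  K : ℝ
  d : ℝ
  dp : ℝ
  A : ℝ
  L : ℕ

namespace RP

variable (P : RP ι E)

/-- Total level of a group. -/
noncomputable def lv (n : ι → ℕ) (j : ℕ) : ℕ := ∑ x, if P.gp x = j then n x else 0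

/-- The bit of a half-group. -/
noncomputable def par (n : ι → ℕ) (j : ℕ) (b : Bool) : ℕ :=
  (∑ x, if (P.gp x = j ∧ P.bt x = b) ∨ j < P.gp x then n x else 0) % 2

/-- Group `s` is released. -/
def own (n : ι → ℕ) (e : E) (s : ℕ) : Prop := ∀ j < s, P.tau j + P.th j e ≤ P.lv n j

/-- Group `j` is the controller. -/
def ctl (n : ι → ℕ) (e : E) (j : ℕ) : Prop :=
  P.lv n j < 2 * P.tau j + P.th j e ∧ ∀ j' < j, 2 * P.tau j' + P.th j' e ≤ P.lv n j'

noncomputable def kk (q : Prop) : ℝ := if q then P.K else 1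

/-- The weight of a lamp edge with upper level vector `n`. -/
noncomputable def wt (n : ι → ℕ) (e : E) (s : ℕ) (b : Bool) : ℝ :=
  if P.own n e s then P.kk (P.par n s b = 0)
  else P.kk (∃ j < s, P.ctl n e j ∧ P.par n j false = 0 ∧ P.par n j true = 0)

noncomputable def nu (n : ι → ℕ) (s j : ℕ) : ℝ :=
  (∑ e : E, if ¬ P.own n e s ∧ P.ctl n e j then (1 : ℝ) else 0) / (Fintype.card E : ℝ)

noncomputable def Gf (n : ι → ℕ) (s : ℕ) : ℝ :=
  (∑ e : E, if P.own n e s then (1 : ℝ) else 0) / (Fintype.card E : ℝ)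

noncomputable def aw (n : ι → ℕ) (s : ℕ) (b : Bool) : ℝ :=
  (∑ e : E, P.wt n e s b) / (Fintype.card E : ℝ)

noncomputable def cc (n : ι → ℕ) (j : ℕ) : ℝ :=
  (P.par n j false : ℝ) + (P.par n j true : ℝ) + P.d / 2 * ((P.par n j false : ℝ) * (P.par n j true : ℝ))

noncomputable def g (n : ι → ℕ) (s : ℕ) : ℝ := ∏ x, if P.gp x = s then phi P.A P.L (n x) else 1

noncomputable def rho (n : ι → ℕ) (s : ℕ) : ℝ := ∑ x, if P.gp x = s then rr P.A P.L (n x) else 0

noncomputable def S (n : ι → ℕ) (s : ℕ) : ℝ :=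
  ∑ j ∈ Finset.range s, P.nu n s j * P.cc n j / (P.m j * P.dp)

noncomputable def V (n : ι → ℕ) (s : ℕ) : ℝ := P.g n s * (1 + P.rho n s * P.S n s)

end RP

/-- Raise the level of one lamp. -/
noncomputable def up (n : ι → ℕ) (x : ι) : ι → ℕ := Function.update n x (n x + 1)

/-- Lower the level of one lamp. -/
noncomputable def dn (n : ι → ℕ) (x : ι) : ι → ℕ := Function.update n x (n x - 1)

omit [Fintype ι] in
theorem up_dn {n : ι → ℕ} {x : ι} (h : 1 ≤ n x) : up (dn n x) x = n := by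
  unfold up dn
  rw [Function.update_idem]
  simp only [Function.update_self]
  rw [Nat.sub_add_cancel h, Function.update_eq_self]

omit [Fintype ι] in
theorem dn_self {n : ι → ℕ} {x : ι} : dn n x x = n x - 1 := by
  unfold dn; simp

omit [Fintype ι] in
theorem up_self {n : ι → ℕ} {x : ι} : up n x x = n x + 1 := by
  unfold up; simp

omit [Fintype ι] in
theorem up_ne {n : ι → ℕ} {x y : ι} (h : y ≠ x) : up n x y = n y := by
  unfold up; simp [h]

theorem sum_up (p : ι → Prop) [DecidablePred p] (n : ι → ℕ) (x : ι) :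
    (∑ y, if p y then up n x y else 0) = (∑ y, if p y then n y else 0) + if p x then 1 else 0 := by
  have h : ∀ y, (if p y then up n x y else 0) = (if p y then n y else 0) + (if y = x then (if p x then 1 else 0) else 0) := by
    intro y
    by_cases hy : y = x
    · subst hy; rw [up_self]; by_cases hp : p y <;> simp [hp]
    · rw [up_ne hy]; simp [hy]
  rw [Finset.sum_congr rfl (fun y _ => h y), Finset.sum_add_distrib]
  simp

namespace RP

variable (P : RP ι E)

theorem lv_up (n : ι → ℕ) (x : ι) (j : ℕ) : P.lv (up n x) j = P.lv n j + if P.gp x = j then 1 else 0 :=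
  sum_up _ n x

theorem par_up (n : ι → ℕ) (x : ι) (j : ℕ) (b : Bool) :
    P.par (up n x) j b = (P.par n j b + if (P.gp x = j ∧ P.bt x = b) ∨ j < P.gp x then 1 else 0) % 2 := by
  unfold par
  rw [sum_up, Nat.mod_add_mod]

theorem par_lt (n : ι → ℕ) (j : ℕ) (b : Bool) : P.par n j b < 2 := Nat.mod_lt _ (by norm_num)

theorem par_cases (n : ι → ℕ) (j : ℕ) (b : Bool) : P.par n j b = 0 ∨ P.par n j b = 1 := by
  have := P.par_lt n j b; omega

theorem g_up {n : ι → ℕ} (hA : 1 ≤ P.A) (x : ι) (s : ℕ) :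
    P.g (up n x) s = P.g n s * (1 + if P.gp x = s then rr P.A P.L (n x) else 0) := by
  unfold g
  rw [← Finset.mul_prod_erase Finset.univ _ (Finset.mem_univ x),
    ← Finset.mul_prod_erase Finset.univ (fun y => if P.gp y = s then phi P.A P.L (n y) else 1) (Finset.mem_univ x)]
  have h : ∀ y ∈ Finset.univ.erase x, (if P.gp y = s then phi P.A P.L (up n x y) else 1)
      = (if P.gp y = s then phi P.A P.L (n y) else 1) := by
    intro y hy
    rw [up_ne (Finset.ne_of_mem_erase hy)]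
  rw [Finset.prod_congr rfl h, up_self]
  by_cases hx : P.gp x = s
  · simp only [hx, if_true]
    rw [phi_succ' hA]; ring
  · simp [hx]

theorem rho_up (n : ι → ℕ) (x : ι) (s : ℕ) :
    P.rho (up n x) s = P.rho n s + if P.gp x = s then (rr P.A P.L (n x + 1) - rr P.A P.L (n x)) else 0 := by
  unfold rho
  rw [← Finset.add_sum_erase Finset.univ _ (Finset.mem_univ x),
    ← Finset.add_sum_erase Finset.univ (fun y => if P.gp y = s then rr P.A P.L (n y) else 0) (Finset.mem_univ x)]
  have h : ∀ y ∈ Finset.univ.erase x, (if P.gp y = s then rr P.A P.L (up n x y) else 0)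
      = (if P.gp y = s then rr P.A P.L (n y) else 0) := by
    intro y hy
    rw [up_ne (Finset.ne_of_mem_erase hy)]
  rw [Finset.sum_congr rfl h, up_self]
  by_cases hx : P.gp x = s
  · simp only [hx, if_true]; ring
  · simp [hx]

theorem g_pos {n : ι → ℕ} (hA : 1 ≤ P.A) (s : ℕ) : 0 < P.g n s := by
  unfold g
  apply Finset.prod_pos
  intro x _
  split_ifs
  · exact phi_pos hA _
  · norm_num

theorem rho_nonneg {n : ι → ℕ} (hA : 1 ≤ P.A) (s : ℕ) : 0 ≤ P.rho n s := by
  unfold rho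
  apply Finset.sum_nonneg
  intro x _
  split_ifs
  · exact rr_nonneg hA _
  · norm_num

theorem nu_nonneg (n : ι → ℕ) (s j : ℕ) : 0 ≤ P.nu n s j := by
  unfold nu
  apply div_nonneg _ (Nat.cast_nonneg _)
  apply Finset.sum_nonneg
  intro e _; split_ifs <;> norm_num

theorem Gf_nonneg (n : ι → ℕ) (s : ℕ) : 0 ≤ P.Gf n s := by
  unfold Gf
  apply div_nonneg _ (Nat.cast_nonneg _)
  apply Finset.sum_nonneg
  intro e _; split_ifs <;> norm_num

omit [Fintype E] in
theorem ctl_unique {n : ι → ℕ} {e : E} {j j' : ℕ} (h : P.ctl n e j) (h' : P.ctl n e j') : j = j' := by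
  rcases lt_trichotomy j j' with hl | hl | hl
  · have := h'.2 j hl; have := h.1; omega
  · exact hl
  · have := h.2 j' hl; have := h'.1; omega

omit [Fintype E] in
theorem ctl_exists {n : ι → ℕ} {e : E} {s : ℕ} (h : ¬ P.own n e s) : ∃ j < s, P.ctl n e j := by
  unfold own at h
  push Not at h
  obtain ⟨j, hj, hlt⟩ := h
  have hex : ∃ j, P.lv n j < 2 * P.tau j + P.th j e := ⟨j, by omega⟩
  refine ⟨Nat.find hex, ?_, Nat.find_spec hex, ?_⟩
  · have := Nat.find_min' hex (m := j) (by omega); omega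
  · intro j' hj'
    have := Nat.find_min hex hj'
    omega

/-- The indicator of control splits. -/
theorem sum_ctl {s : ℕ} (n : ι → ℕ) (e : E) (f : ℕ → ℝ) (hn : ¬ P.own n e s) :
    ∃ j < s, P.ctl n e j ∧ ∑ i ∈ Finset.range s, (if ¬ P.own n e s ∧ P.ctl n e i then (1 : ℝ) else 0) * f i = f j := by
  obtain ⟨j, hj, hc⟩ := P.ctl_exists hn
  refine ⟨j, hj, hc, ?_⟩
  rw [Finset.sum_eq_single_of_mem j (Finset.mem_range.mpr hj)]
  · simp [hn, hc]
  · intro i _ hij
    have : ¬ P.ctl n e i := fun h => hij (P.ctl_unique h hc)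
    simp [this]

theorem wt_eq {s : ℕ} (n : ι → ℕ) (e : E) (b : Bool) :
    P.wt n e s b = (if P.own n e s then (1 : ℝ) else 0) * P.kk (P.par n s b = 0)
      + ∑ i ∈ Finset.range s, (if ¬ P.own n e s ∧ P.ctl n e i then (1 : ℝ) else 0)
          * P.kk (P.par n i false = 0 ∧ P.par n i true = 0) := by
  unfold wt
  by_cases h : P.own n e s
  · rw [if_pos h, if_pos h]
    have : ∀ i ∈ Finset.range s, (if ¬ P.own n e s ∧ P.ctl n e i then (1 : ℝ) else 0)
          * P.kk (P.par n i false = 0 ∧ P.par n i true = 0) = 0 := by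
      intro i _; simp [h]
    rw [Finset.sum_eq_zero this]; ring
  · rw [if_neg h, if_neg h]
    obtain ⟨j, hj, hc, hs⟩ := P.sum_ctl n e (fun i => P.kk (P.par n i false = 0 ∧ P.par n i true = 0)) h
    rw [hs]
    have : (∃ j < s, P.ctl n e j ∧ P.par n j false = 0 ∧ P.par n j true = 0)
        ↔ (P.par n j false = 0 ∧ P.par n j true = 0) := by
      constructor
      · rintro ⟨i, _, hi, h2⟩
        rw [P.ctl_unique hc hi]; exact h2
      · intro h2; exact ⟨j, hj, hc, h2⟩
    simp only [this]; ring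

theorem aw_eq [Nonempty E] {s : ℕ} (n : ι → ℕ) (b : Bool) :
    P.aw n s b = P.Gf n s * P.kk (P.par n s b = 0)
      + ∑ i ∈ Finset.range s, P.nu n s i * P.kk (P.par n i false = 0 ∧ P.par n i true = 0) := by
  unfold aw Gf nu
  rw [Finset.sum_congr rfl (fun e _ => P.wt_eq n e b), Finset.sum_add_distrib, Finset.sum_comm, add_div]
  congr 1
  · rw [← Finset.sum_mul]; ring
  · rw [Finset.sum_div]
    apply Finset.sum_congr rfl
    intro i _
    rw [← Finset.sum_mul]; ring

theorem sum_nu [Nonempty E] (n : ι → ℕ) (s : ℕ) : P.Gf n s + ∑ i ∈ Finset.range s, P.nu n s i = 1 := by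
  unfold Gf nu
  have hE : (Fintype.card E : ℝ) ≠ 0 := by exact_mod_cast Fintype.card_ne_zero
  rw [← Finset.sum_div, Finset.sum_comm, ← add_div, ← Finset.sum_add_distrib]
  rw [div_eq_one_iff_eq hE]
  have : ∀ e : E, ((if P.own n e s then (1 : ℝ) else 0)
      + ∑ y ∈ Finset.range s, if ¬P.own n e s ∧ P.ctl n e y then (1 : ℝ) else 0) = 1 := by
    intro e
    by_cases h : P.own n e s
    · simp [h]
    · obtain ⟨j, hj, hc, hs⟩ := P.sum_ctl n e (fun _ => 1) h
      simp only [mul_one] at hs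
      rw [hs]; simp [h]
  rw [Finset.sum_congr rfl (fun e _ => this e)]
  simp

theorem kk_ge (hK : 1 ≤ P.K) (q : Prop) : 1 ≤ P.kk q := by unfold kk; split_ifs <;> linarith
theorem kk_le (hK : 1 ≤ P.K) (q : Prop) : P.kk q ≤ P.K := by unfold kk; split_ifs <;> linarith

theorem wt_ge (hK : 1 ≤ P.K) (n : ι → ℕ) (e : E) (s : ℕ) (b : Bool) : 1 ≤ P.wt n e s b := by
  unfold wt; split_ifs <;> exact P.kk_ge hK _
theorem wt_le (hK : 1 ≤ P.K) (n : ι → ℕ) (e : E) (s : ℕ) (b : Bool) : P.wt n e s b ≤ P.K := by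
  unfold wt; split_ifs <;> exact P.kk_le hK _

theorem aw_nonneg (hK : 1 ≤ P.K) (n : ι → ℕ) (s : ℕ) (b : Bool) : 0 ≤ P.aw n s b := by
  unfold aw
  apply div_nonneg _ (Nat.cast_nonneg _)
  apply Finset.sum_nonneg
  intro e _; have := P.wt_ge hK n e s b; linarith

theorem aw_le [Nonempty E] (hK : 1 ≤ P.K) (n : ι → ℕ) (s : ℕ) (b : Bool) : P.aw n s b ≤ P.K := by
  unfold aw
  have hE : (0 : ℝ) < (Fintype.card E : ℝ) := by exact_mod_cast Fintype.card_pos
  rw [div_le_iff₀ hE]
  calc ∑ e : E, P.wt n e s b ≤ ∑ e : E, P.K := Finset.sum_le_sum (fun e _ => P.wt_le hK n e s b)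
    _ = P.K * (Fintype.card E : ℝ) := by simp [mul_comm]

end RP

end Pool.Agent.H984
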