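import Pool.Agent.H984.Rat

/-!
H984: hypotheses on the ratchet, and the size of one-step changes.
-/

set_option autoImplicit false

open Classical

namespace Pool.Agent.H984

variable {ι E : Type} [Fintype ι] [Fintype E]

/-- Hypotheses on the parameters. -/
structure RP.OK (P : RP ι E) (M : ℕ) (R : ℝ) (L' : ℕ) : Prop where
  hA : 1 ≤ P.A
  hL : P.L = 100 * L'
  hL1 : 1 ≤ L'
  gpM : ∀ x, P.gp x < M
  mpos : ∀ j < M, 1 ≤ P.m j
  mR : ∀ j s, j < s → s < M → R * P.m s ≤ P.m j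
  hR : 1 ≤ R
  card : ∀ j < M, ∀ b, (∑ x, if P.gp x = j ∧ P.bt x = b then (1 : ℝ) else 0) = P.m j
  tau : ∀ j < M, (P.tau j : ℝ) = P.m j * L'
  th_lt : ∀ j < M, ∀ e, P.th j e < P.tau j
  th_cnt : ∀ j < M, ∀ v, (∑ e : E, if P.th j e = v then (1 : ℝ) else 0) ≤ 2 / P.tau j * Fintype.card E
  hd : 10000 ≤ P.d
  hK : P.K = 1000 * P.d
  hdp : 4 / 5 * P.d ≤ P.dp
  hdp' : P.dp ≤ P.d

/-- Local structure of the lamps at a level vector. -/
structure RP.UD (P : RP ι E) (n : ι → ℕ) (U D : ι → ℝ) : Prop where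
  lvl : ∀ x, n x ≤ P.L + 1
  U0 : ∀ x, 0 ≤ U x
  UD : ∀ x, U x + D x ≤ P.d
  D0 : ∀ x, 0 ≤ D x
  D1 : ∀ x, D x ≤ 1
  Utop : ∀ x, n x = P.L + 1 → U x = 0
  Uge : ∀ x, n x ≤ P.L → P.dp ≤ 97 / 100 * U x
  Dbot : ∀ x, n x = 0 → D x = 0
  Deq : ∀ x, 1 ≤ n x → n x ≤ P.L → D x = 1

/-- `n'` and `n` differ by one step at `x`. -/
def Nb (n n' : ι → ℕ) (x : ι) : Prop := n' = up n x ∨ n = up n' x

omit [Fintype ι] in
theorem Nb.symm {n n' : ι → ℕ} {x : ι} (h : Nb n n' x) : Nb n' n x := h.elim (fun h => Or.inr h) (fun h => Or.inl h)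

omit [Fintype ι] in
theorem nb_up (n : ι → ℕ) (x : ι) : Nb n (up n x) x := Or.inl rfl

omit [Fintype ι] in
theorem nb_dn {n : ι → ℕ} {x : ι} (h : 1 ≤ n x) : Nb n (dn n x) x := Or.inr (up_dn h).symm

namespace RP

variable {P : RP ι E} {M : ℕ} {R : ℝ} {L' : ℕ}

theorem OK.K1 (h : P.OK M R L') : 1 ≤ P.K := by rw [h.hK]; have := h.hd; linarith
theorem OK.K0 (h : P.OK M R L') : 0 < P.K := by have := h.K1; linarith
theorem OK.d0 (h : P.OK M R L') : 0 < P.d := by have := h.hd; linarith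
theorem OK.dp0 (h : P.OK M R L') : 0 < P.dp := by have := h.hd; have := h.hdp; linarith
theorem OK.m0 (h : P.OK M R L') {j : ℕ} (hj : j < M) : 0 < P.m j := by have := h.mpos j hj; linarith
theorem OK.R0 (h : P.OK M R L') : 0 < R := by have := h.hR; linarith
theorem OK.L0 (h : P.OK M R L') : (0 : ℝ) < L' := by have := h.hL1; exact_mod_cast this
theorem OK.tau0 (h : P.OK M R L') {j : ℕ} (hj : j < M) : (0 : ℝ) < P.tau j := by
  rw [h.tau j hj]; exact mul_pos (h.m0 hj) h.L0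

theorem par_real_nonneg (n : ι → ℕ) (j : ℕ) (b : Bool) : (0 : ℝ) ≤ P.par n j b := Nat.cast_nonneg _
theorem par_real_le (n : ι → ℕ) (j : ℕ) (b : Bool) : (P.par n j b : ℝ) ≤ 1 := by
  have := P.par_lt n j b
  have h2 : P.par n j b ≤ 1 := by omega
  exact_mod_cast h2

theorem cc_nonneg (h : P.OK M R L') (n : ι → ℕ) (j : ℕ) : 0 ≤ P.cc n j := by
  unfold cc
  have h1 := P.par_real_nonneg n j false
  have h2 := P.par_real_nonneg n j true
  have h3 := h.d0
  positivity

theorem cc_le (h : P.OK M R L') (n : ι → ℕ) (j : ℕ) : P.cc n j ≤ 2 + P.d / 2 := by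
  unfold cc
  have h3 := h.d0
  rcases P.par_cases n j false with h1 | h1 <;> rcases P.par_cases n j true with h2 | h2 <;>
    rw [h1, h2] <;> push_cast <;> linarith

theorem cc_le_dp (h : P.OK M R L') (n : ι → ℕ) (j : ℕ) : P.cc n j ≤ P.dp := by
  have := cc_le h n j; have := h.hd; have := h.hdp; linarith

theorem cc_div (h : P.OK M R L') (n : ι → ℕ) {j : ℕ} (hj : j < M) : P.cc n j / (P.m j * P.dp) ≤ 1 / P.m j := by
  have h0 := h.m0 hj
  have h1 := h.dp0
  rw [div_le_div_iff₀ (mul_pos h0 h1) h0]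
  have := cc_le_dp h n j
  nlinarith

theorem cc_div0 (h : P.OK M R L') (n : ι → ℕ) {j : ℕ} (hj : j < M) : 0 ≤ P.cc n j / (P.m j * P.dp) :=
  div_nonneg (cc_nonneg h n j) (mul_pos (h.m0 hj) h.dp0).le

theorem nu_sum_le [Nonempty E] (n : ι → ℕ) (s : ℕ) : ∑ i ∈ Finset.range s, P.nu n s i ≤ 1 := by
  have := P.sum_nu n s; have := P.Gf_nonneg n s; linarith

theorem inv_m (h : P.OK M R L') {j s : ℕ} (hj : j < s) (hs : s < M) : 1 / P.m j ≤ 1 / (R * P.m s) := by
  apply one_div_le_one_div_of_le (mul_pos h.R0 (h.m0 hs)) (h.mR j s hj hs)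

theorem S_nonneg (h : P.OK M R L') (n : ι → ℕ) {s : ℕ} (hs : s < M) : 0 ≤ P.S n s := by
  unfold S
  apply Finset.sum_nonneg
  intro j hj
  rw [mul_div_assoc]
  exact mul_nonneg (P.nu_nonneg n s j) (cc_div0 h n (lt_trans (Finset.mem_range.mp hj) hs))

theorem S_le [Nonempty E] (h : P.OK M R L') (n : ι → ℕ) {s : ℕ} (hs : s < M) : P.S n s ≤ 1 / (R * P.m s) := by
  unfold S
  calc ∑ j ∈ Finset.range s, P.nu n s j * P.cc n j / (P.m j * P.dp)
      ≤ ∑ j ∈ Finset.range s, P.nu n s j * (1 / (R * P.m s)) := by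
        apply Finset.sum_le_sum
        intro j hj
        have hj' := Finset.mem_range.mp hj
        rw [mul_div_assoc]
        exact mul_le_mul_of_nonneg_left ((cc_div h n (lt_trans hj' hs)).trans (inv_m h hj' hs)) (P.nu_nonneg n s j)
    _ = (∑ j ∈ Finset.range s, P.nu n s j) * (1 / (R * P.m s)) := by rw [Finset.sum_mul]
    _ ≤ 1 * (1 / (R * P.m s)) := by
        apply mul_le_mul_of_nonneg_right (nu_sum_le n s)
        have := h.R0; have := h.m0 hs; positivity
    _ = _ := one_mul _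

theorem card2 (h : P.OK M R L') {j : ℕ} (hj : j < M) : (∑ x, if P.gp x = j then (1 : ℝ) else 0) = 2 * P.m j := by
  have : ∀ x, (if P.gp x = j then (1 : ℝ) else 0)
      = (if P.gp x = j ∧ P.bt x = false then (1 : ℝ) else 0) + (if P.gp x = j ∧ P.bt x = true then (1 : ℝ) else 0) := by
    intro x
    by_cases h1 : P.gp x = j <;> cases h2 : P.bt x <;> simp [h1]
  rw [Finset.sum_congr rfl (fun x _ => this x), Finset.sum_add_distrib, h.card j hj, h.card j hj]; ring

theorem rho_le (h : P.OK M R L') (n : ι → ℕ) {s : ℕ} (hs : s < M) : P.rho n s ≤ 2 * P.m s := by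
  rw [← card2 h hs]
  unfold rho
  apply Finset.sum_le_sum
  intro x _
  split_ifs
  · exact rr_le_one h.hA _
  · exact le_rfl

theorem rhoS_le [Nonempty E] (h : P.OK M R L') (n : ι → ℕ) {s : ℕ} (hs : s < M) : P.rho n s * P.S n s ≤ 2 / R := by
  have h1 := rho_le h n hs
  have h2 := S_le h n hs
  have h3 := P.rho_nonneg h.hA (n := n) s
  have h4 := S_nonneg h n hs
  have h5 := h.m0 hs
  calc P.rho n s * P.S n s ≤ (2 * P.m s) * (1 / (R * P.m s)) := by gcongr
    _ = 2 / R := by have := h.R0; field_simp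

theorem rhoS_nonneg (h : P.OK M R L') (n : ι → ℕ) {s : ℕ} (hs : s < M) : 0 ≤ P.rho n s * P.S n s :=
  mul_nonneg (P.rho_nonneg h.hA s) (S_nonneg h n hs)

/-! ### One step -/

theorem lv_nb {n n' : ι → ℕ} {x : ι} (hn : Nb n n' x) {j : ℕ} (hj : P.gp x ≠ j) : P.lv n' j = P.lv n j := by
  rcases hn with rfl | rfl
  · rw [P.lv_up, if_neg hj, add_zero]
  · rw [P.lv_up, if_neg hj, add_zero]

theorem own_nb {n n' : ι → ℕ} {x : ι} (hn : Nb n n' x) {s : ℕ} (hs : s ≤ P.gp x) (e : E) : P.own n' e s ↔ P.own n e s := by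
  unfold own
  constructor
  · intro h j hj; rw [← lv_nb (P := P) hn (by omega)]; exact h j hj
  · intro h j hj; rw [lv_nb (P := P) hn (by omega)]; exact h j hj

theorem ctl_nb {n n' : ι → ℕ} {x : ι} (hn : Nb n n' x) {j : ℕ} (hj : j < P.gp x) (e : E) : P.ctl n' e j ↔ P.ctl n e j := by
  unfold ctl
  rw [lv_nb (P := P) hn (j := j) (by omega)]
  constructor
  · rintro ⟨h1, h2⟩; refine ⟨h1, fun j' hj' => ?_⟩; rw [← lv_nb (P := P) hn (j := j') (by omega)]; exact h2 j' hj'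
  · rintro ⟨h1, h2⟩; refine ⟨h1, fun j' hj' => ?_⟩; rw [lv_nb (P := P) hn (j := j') (by omega)]; exact h2 j' hj'

theorem nu_nb {n n' : ι → ℕ} {x : ι} (hn : Nb n n' x) {s j : ℕ} (hs : s ≤ P.gp x) (hj : j < s) : P.nu n' s j = P.nu n s j := by
  unfold nu
  congr 1
  apply Finset.sum_congr rfl
  intro e _
  rw [own_nb hn hs, ctl_nb hn (by omega)]

theorem Gf_nb {n n' : ι → ℕ} {x : ι} (hn : Nb n n' x) {s : ℕ} (hs : s ≤ P.gp x) : P.Gf n' s = P.Gf n s := by
  unfold Gf
  congr 1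
  apply Finset.sum_congr rfl
  intro e _
  rw [own_nb hn hs]

theorem par_nb_same {n n' : ι → ℕ} {x : ι} (hn : Nb n n' x) {j : ℕ} {b : Bool}
    (hj : ¬ ((P.gp x = j ∧ P.bt x = b) ∨ j < P.gp x)) : P.par n' j b = P.par n j b := by
  rcases hn with rfl | rfl
  · rw [P.par_up, if_neg hj, add_zero, Nat.mod_eq_of_lt (P.par_lt n j b)]
  · rw [P.par_up, if_neg hj, add_zero, Nat.mod_eq_of_lt (P.par_lt _ j b)]

theorem par_nb_flip {n n' : ι → ℕ} {x : ι} (hn : Nb n n' x) {j : ℕ} {b : Bool}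
    (hj : (P.gp x = j ∧ P.bt x = b) ∨ j < P.gp x) : P.par n' j b = 1 - P.par n j b := by
  rcases hn with rfl | rfl
  · rw [P.par_up, if_pos hj]; have := P.par_lt n j b; omega
  · rw [P.par_up, if_pos hj]; have := P.par_lt n' j b; omega

/-- The change of `cc` when bit `b` flips. -/
noncomputable def dl (P : RP ι E) (n : ι → ℕ) (j : ℕ) (b : Bool) : ℝ :=
  (1 - 2 * (P.par n j b : ℝ)) * (1 + P.d / 2 * (P.par n j (!b) : ℝ))

theorem cc_nb {n n' : ι → ℕ} {x : ι} (hn : Nb n n' x) {j : ℕ} (hj : P.gp x = j) :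
    P.cc n' j - P.cc n j = P.dl n j (P.bt x) := by
  unfold cc dl
  have h1 : P.par n' j (P.bt x) = 1 - P.par n j (P.bt x) := par_nb_flip hn (Or.inl ⟨hj, rfl⟩)
  have h2 : P.par n' j (!P.bt x) = P.par n j (!P.bt x) := par_nb_same hn (by
    rintro (⟨_, h⟩ | h)
    · revert h; cases P.bt x <;> simp
    · omega)
  have h3 := P.par_cases n j (P.bt x)
  cases hb : P.bt x
  · rw [hb] at h1 h2 h3
    simp only [Bool.not_false] at h2 ⊢
    rw [h1, h2]
    rcases h3 with h3 | h3 <;> rw [h3] <;> push_cast <;> ring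
  · rw [hb] at h1 h2 h3
    simp only [Bool.not_true] at h2 ⊢
    rw [h1, h2]
    rcases h3 with h3 | h3 <;> rw [h3] <;> push_cast <;> ring

theorem cc_nb_gt {n n' : ι → ℕ} {x : ι} (hn : Nb n n' x) {j : ℕ} (hj : P.gp x < j) : P.cc n' j = P.cc n j := by
  unfold cc
  rw [par_nb_same hn (b := false) (by rintro (⟨h, _⟩ | h) <;> omega),
    par_nb_same hn (b := true) (by rintro (⟨h, _⟩ | h) <;> omega)]

theorem sum_ind_le_one {s : ℕ} (n : ι → ℕ) (e : E) :
    ∑ i ∈ Finset.range s, (if ¬ P.own n e s ∧ P.ctl n e i then (1 : ℝ) else 0) ≤ 1 := by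
  by_cases h : P.own n e s
  · simp [h]
  · obtain ⟨j, _, _, hs⟩ := P.sum_ctl n e (fun _ => 1) h
    simp only [mul_one] at hs
    rw [hs]

theorem nu_diff [Nonempty E] (h : P.OK M R L') {n n' : ι → ℕ} {x : ι} (hn : Nb n n' x) (s : ℕ) :
    ∑ j ∈ Finset.range s, |P.nu n' s j - P.nu n s j| ≤ 8 / P.tau (P.gp x) := by
  have hE : (0 : ℝ) < (Fintype.card E : ℝ) := by exact_mod_cast Fintype.card_pos
  set i := P.gp x with hi
  have hiM : i < M := h.gpM x
  -- the two consecutive values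
  obtain ⟨v, hv⟩ : ∃ v, (P.lv n i = v ∧ P.lv n' i = v + 1) ∨ (P.lv n i = v + 1 ∧ P.lv n' i = v) := by
    rcases hn with rfl | rfl
    · exact ⟨P.lv n i, Or.inl ⟨rfl, by rw [P.lv_up, if_pos rfl]⟩⟩
    · exact ⟨P.lv n' i, Or.inr ⟨by rw [P.lv_up, if_pos rfl], rfl⟩⟩
  have key : ∀ e : E, ∑ j ∈ Finset.range s, |(if ¬ P.own n' e s ∧ P.ctl n' e j then (1 : ℝ) else 0)
      - (if ¬ P.own n e s ∧ P.ctl n e j then (1 : ℝ) else 0)|
      ≤ 2 * (if P.th i e = v + 1 - P.tau i then (1 : ℝ) else 0)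
        + 2 * (if P.th i e = v + 1 - 2 * P.tau i then (1 : ℝ) else 0) := by
    intro e
    by_cases hb : P.tau i + P.th i e = v + 1 ∨ 2 * P.tau i + P.th i e = v + 1
    · have h1 : ∑ j ∈ Finset.range s, |(if ¬ P.own n' e s ∧ P.ctl n' e j then (1 : ℝ) else 0)
          - (if ¬ P.own n e s ∧ P.ctl n e j then (1 : ℝ) else 0)| ≤ 2 := by
        calc _ ≤ ∑ j ∈ Finset.range s, ((if ¬ P.own n' e s ∧ P.ctl n' e j then (1 : ℝ) else 0)
              + (if ¬ P.own n e s ∧ P.ctl n e j then (1 : ℝ) else 0)) := by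
              apply Finset.sum_le_sum
              intro j _
              split_ifs <;> norm_num
          _ ≤ 2 := by
              rw [Finset.sum_add_distrib]
              have := sum_ind_le_one (P := P) (s := s) n e
              have := sum_ind_le_one (P := P) (s := s) n' e
              linarith
      refine h1.trans ?_
      rcases hb with hb | hb
      · have : P.th i e = v + 1 - P.tau i := by omega
        rw [if_pos this]
        have : (0 : ℝ) ≤ (if P.th i e = v + 1 - 2 * P.tau i then (1 : ℝ) else 0) := by split_ifs <;> norm_num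
        linarith
      · have : P.th i e = v + 1 - 2 * P.tau i := by omega
        rw [if_pos this]
        have : (0 : ℝ) ≤ (if P.th i e = v + 1 - P.tau i then (1 : ℝ) else 0) := by split_ifs <;> norm_num
        linarith
    · push Not at hb
      have hle1 : ∀ j, (P.tau j + P.th j e ≤ P.lv n' j ↔ P.tau j + P.th j e ≤ P.lv n j) := by
        intro j
        by_cases hj : i = j
        · subst hj; have := hb.1; rcases hv with ⟨h1, h2⟩ | ⟨h1, h2⟩ <;> rw [h1, h2] <;> omega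
        · rw [lv_nb (P := P) hn hj]
      have hle2 : ∀ j, (2 * P.tau j + P.th j e ≤ P.lv n' j ↔ 2 * P.tau j + P.th j e ≤ P.lv n j) := by
        intro j
        by_cases hj : i = j
        · subst hj; have := hb.2; rcases hv with ⟨h1, h2⟩ | ⟨h1, h2⟩ <;> rw [h1, h2] <;> omega
        · rw [lv_nb (P := P) hn hj]
      have ho : P.own n' e s ↔ P.own n e s := by
        unfold own; exact forall_congr' fun j => forall_congr' fun _ => hle1 j
      have hc : ∀ j, P.ctl n' e j ↔ P.ctl n e j := by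
        intro j; unfold ctl
        rw [← not_le, ← not_le, hle2 j]
        exact and_congr_right fun _ => forall_congr' fun j' => forall_congr' fun _ => hle2 j'
      have h0 : ∀ j ∈ Finset.range s, |(if ¬ P.own n' e s ∧ P.ctl n' e j then (1 : ℝ) else 0)
          - (if ¬ P.own n e s ∧ P.ctl n e j then (1 : ℝ) else 0)| = 0 := by
        intro j _
        rw [ho, hc j, sub_self, abs_zero]
      rw [Finset.sum_eq_zero h0]
      positivity
  have hsum : ∑ j ∈ Finset.range s, |P.nu n' s j - P.nu n s j|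
      ≤ (∑ e : E, ∑ j ∈ Finset.range s, |(if ¬ P.own n' e s ∧ P.ctl n' e j then (1 : ℝ) else 0)
      - (if ¬ P.own n e s ∧ P.ctl n e j then (1 : ℝ) else 0)|) / (Fintype.card E : ℝ) := by
    rw [Finset.sum_comm, Finset.sum_div]
    apply Finset.sum_le_sum
    intro j _
    unfold nu
    rw [← sub_div, ← Finset.sum_sub_distrib, abs_div, abs_of_pos hE]
    gcongr
    exact Finset.abs_sum_le_sum_abs _ _
  refine hsum.trans ?_
  rw [div_le_iff₀ hE]
  refine (Finset.sum_le_sum (fun e _ => key e)).trans ?_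
  rw [Finset.sum_add_distrib, ← Finset.mul_sum, ← Finset.mul_sum]
  have h1 := h.th_cnt i hiM (v + 1 - P.tau i)
  have h2 := h.th_cnt i hiM (v + 1 - 2 * P.tau i)
  have h3 : 8 / (P.tau i : ℝ) * (Fintype.card E : ℝ) = 2 * (2 / P.tau i * Fintype.card E) + 2 * (2 / P.tau i * Fintype.card E) := by ring
  rw [h3]
  linarith

theorem S_diff [Nonempty E] (h : P.OK M R L') {n n' : ι → ℕ} {x : ι} (hn : Nb n n' x) {s : ℕ} (hs : s < M)
    (hx : P.gp x < s) :
    |P.S n' s - P.S n s - P.nu n s (P.gp x) * P.dl n (P.gp x) (P.bt x) / (P.m (P.gp x) * P.dp)|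
      ≤ 8 / P.tau (P.gp x) + 1 / (R * P.m (P.gp x)) := by
  set i := P.gp x with hi
  have hiM : i < M := h.gpM x
  have hmi := h.m0 hiM
  have e1 : P.S n' s - P.S n s = ∑ j ∈ Finset.range s, P.nu n s j * ((P.cc n' j - P.cc n j) / (P.m j * P.dp))
      + ∑ j ∈ Finset.range s, (P.nu n' s j - P.nu n s j) * (P.cc n' j / (P.m j * P.dp)) := by
    unfold S
    rw [← Finset.sum_sub_distrib, ← Finset.sum_add_distrib]
    apply Finset.sum_congr rfl
    intro j _
    ring
  have e2 : ∑ j ∈ Finset.range s, P.nu n s j * ((P.cc n' j - P.cc n j) / (P.m j * P.dp))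
      = P.nu n s i * P.dl n i (P.bt x) / (P.m i * P.dp)
        + ∑ j ∈ (Finset.range s).erase i, P.nu n s j * ((P.cc n' j - P.cc n j) / (P.m j * P.dp)) := by
    rw [← Finset.add_sum_erase _ _ (Finset.mem_range.mpr hx), cc_nb hn hi.symm]
    ring
  have b1 : |∑ j ∈ Finset.range s, (P.nu n' s j - P.nu n s j) * (P.cc n' j / (P.m j * P.dp))| ≤ 8 / P.tau i := by
    refine (Finset.abs_sum_le_sum_abs _ _).trans (le_trans ?_ (nu_diff h hn s))
    apply Finset.sum_le_sum
    intro j hj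
    have hjM := lt_trans (Finset.mem_range.mp hj) hs
    rw [abs_mul, abs_of_nonneg (cc_div0 h n' hjM)]
    have h1 := cc_div h n' hjM
    have h2 : 1 / P.m j ≤ 1 := by rw [div_le_one (h.m0 hjM)]; exact h.mpos j hjM
    calc |P.nu n' s j - P.nu n s j| * (P.cc n' j / (P.m j * P.dp)) ≤ |P.nu n' s j - P.nu n s j| * 1 := by
          gcongr; exact h1.trans h2
      _ = _ := mul_one _
  have b2 : |∑ j ∈ (Finset.range s).erase i, P.nu n s j * ((P.cc n' j - P.cc n j) / (P.m j * P.dp))|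
      ≤ 1 / (R * P.m i) := by
    have hpos : 0 ≤ 1 / (R * P.m i) := by have := h.R0; positivity
    calc _ ≤ ∑ j ∈ (Finset.range s).erase i, P.nu n s j * (1 / (R * P.m i)) := by
          refine (Finset.abs_sum_le_sum_abs _ _).trans ?_
          apply Finset.sum_le_sum
          intro j hj
          have hji := Finset.ne_of_mem_erase hj
          have hjs := Finset.mem_range.mp (Finset.mem_of_mem_erase hj)
          have hjM := lt_trans hjs hs
          rw [abs_mul, abs_of_nonneg (P.nu_nonneg n s j)]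
          apply mul_le_mul_of_nonneg_left _ (P.nu_nonneg n s j)
          rcases lt_or_gt_of_ne hji with hlt | hgt
          · have h1 := cc_div h n hjM
            have h2 := cc_div h n' hjM
            have h3 := cc_div0 h n hjM
            have h4 := cc_div0 h n' hjM
            have h5 := inv_m h hlt hiM
            rw [sub_div, abs_le]
            constructor <;> linarith
          · rw [cc_nb_gt hn (by omega), sub_self, zero_div, abs_zero]; exact hpos
      _ ≤ ∑ j ∈ Finset.range s, P.nu n s j * (1 / (R * P.m i)) := by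
          apply Finset.sum_le_sum_of_subset_of_nonneg (Finset.erase_subset _ _)
          intro j _ _
          exact mul_nonneg (P.nu_nonneg n s j) hpos
      _ = (∑ j ∈ Finset.range s, P.nu n s j) * (1 / (R * P.m i)) := by rw [Finset.sum_mul]
      _ ≤ 1 * (1 / (R * P.m i)) := mul_le_mul_of_nonneg_right (nu_sum_le n s) hpos
      _ = _ := one_mul _
  rw [e1, e2]
  have : P.nu n s i * P.dl n i (P.bt x) / (P.m i * P.dp)
        + ∑ j ∈ (Finset.range s).erase i, P.nu n s j * ((P.cc n' j - P.cc n j) / (P.m j * P.dp))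
      + ∑ j ∈ Finset.range s, (P.nu n' s j - P.nu n s j) * (P.cc n' j / (P.m j * P.dp))
      - P.nu n s i * P.dl n i (P.bt x) / (P.m i * P.dp)
      = ∑ j ∈ (Finset.range s).erase i, P.nu n s j * ((P.cc n' j - P.cc n j) / (P.m j * P.dp))
      + ∑ j ∈ Finset.range s, (P.nu n' s j - P.nu n s j) * (P.cc n' j / (P.m j * P.dp)) := by ring
  rw [this]
  exact (abs_add_le _ _).trans (by linarith)

/-! ### The potential under one step -/

theorem V_ge (h : P.OK M R L') (n : ι → ℕ) {s : ℕ} (hs : s < M) : P.g n s ≤ P.V n s := by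
  unfold V
  have := P.g_pos h.hA (n := n) s
  have := rhoS_nonneg h n hs
  nlinarith

theorem V_le [Nonempty E] (h : P.OK M R L') (n : ι → ℕ) {s : ℕ} (hs : s < M) : P.V n s ≤ P.g n s * (1 + 2 / R) := by
  unfold V
  have := P.g_pos h.hA (n := n) s
  have := rhoS_le h n hs
  gcongr

/-- Up step of a lamp of the group itself. -/
theorem V_up_s [Nonempty E] (h : P.OK M R L') (n : ι → ℕ) {s : ℕ} (hs : s < M) {x : ι} (hx : P.gp x = s) :
    P.V (up n x) s - P.V n s ≤ P.g n s * (rr P.A P.L (n x) + 4 / R) := by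
  have h1 := V_le h (up n x) hs
  have h2 := V_ge h n hs
  rw [P.g_up h.hA, if_pos hx] at h1
  have h3 := rr_nonneg h.hA (L := P.L) (n x)
  have h4 := rr_le_one h.hA (L := P.L) (n x)
  have h5 := P.g_pos h.hA (n := n) s
  have h6 : 0 < 2 / R := by have := h.R0; positivity
  have h7 : P.g n s * (1 + rr P.A P.L (n x)) * (1 + 2 / R) ≤ P.g n s * (1 + rr P.A P.L (n x) + 2 * (2 / R)) := by
    rw [mul_assoc]
    apply mul_le_mul_of_nonneg_left _ h5.le
    nlinarith
  have h8 : (4 : ℝ) / R = 2 * (2 / R) := by ring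
  rw [h8]
  linarith

theorem V_up_s' [Nonempty E] (h : P.OK M R L') (n : ι → ℕ) {s : ℕ} (hs : s < M) {x : ι} (hx : P.gp x = s) :
    - (P.g n s * (2 / R)) ≤ P.V (up n x) s - P.V n s := by
  have h1 := V_ge h (up n x) hs
  have h2 := V_le h n hs
  rw [P.g_up h.hA, if_pos hx] at h1
  have h3 := rr_nonneg h.hA (L := P.L) (n x)
  have h5 := P.g_pos h.hA (n := n) s
  nlinarith

theorem g_dn (h : P.OK M R L') (n : ι → ℕ) {s : ℕ} {x : ι} (hx : P.gp x = s) (hn : 1 ≤ n x) :
    P.g n s = P.g (dn n x) s * (1 + rr P.A P.L (n x - 1)) := by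
  conv_lhs => rw [← up_dn hn]
  rw [P.g_up h.hA, if_pos hx, dn_self]

theorem g_dn_le (h : P.OK M R L') (n : ι → ℕ) {s : ℕ} {x : ι} (hx : P.gp x = s) (hn : 1 ≤ n x)
    (hl : n x ≤ P.L + 1) : P.g (dn n x) s ≤ P.g n s * (1 - rr P.A P.L (n x) / 2) := by
  have h1 := g_dn h n hx hn
  obtain ⟨l, hl'⟩ : ∃ l, n x = l + 1 := ⟨n x - 1, by omega⟩
  rw [hl'] at h1 hl ⊢
  simp only [Nat.add_sub_cancel] at h1
  have hg := P.g_pos h.hA (n := dn n x) s
  have hr := rr_nonneg h.hA (L := P.L) l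
  have hphi := phi_pos h.hA (L := P.L) l
  have hphi1 := phi_pos h.hA (L := P.L) (l + 1)
  have hsucc := phi_succ' h.hA (L := P.L) l
  by_cases hl2 : l + 1 ≤ P.L
  · have h2 := phi_down h.hA hl2
    rw [hsucc] at h2
    have h3 : 1 ≤ (1 + rr P.A P.L l) * (1 - rr P.A P.L (l + 1) / 2) := by
      have : phi P.A P.L l * 1 ≤ phi P.A P.L l * ((1 + rr P.A P.L l) * (1 - rr P.A P.L (l + 1) / 2)) := by linarith
      exact le_of_mul_le_mul_left this hphi
    rw [h1, mul_assoc]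
    nlinarith
  · rw [rr_top (by omega : P.L < l + 1), h1]
    nlinarith

theorem g_dn_ge (h : P.OK M R L') (n : ι → ℕ) {s : ℕ} {x : ι} (hx : P.gp x = s) (hn : 1 ≤ n x)
    (hl : n x ≤ P.L + 1) :
    P.g n s * (1 - 2 * rr P.A P.L (n x) - 1 / 2 ^ (P.L / 2)) ≤ P.g (dn n x) s := by
  have h1 := g_dn h n hx hn
  obtain ⟨l, hl'⟩ : ∃ l, n x = l + 1 := ⟨n x - 1, by omega⟩
  rw [hl'] at h1 hl ⊢
  simp only [Nat.add_sub_cancel] at h1
  have hg := P.g_pos h.hA (n := dn n x) s
  have hr := rr_nonneg h.hA (L := P.L) l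
  have hphi := phi_pos h.hA (L := P.L) l
  have hsucc := phi_succ' h.hA (L := P.L) l
  have hp : (0 : ℝ) < 1 / 2 ^ (P.L / 2) := by positivity
  by_cases hl2 : l + 1 ≤ P.L
  · have h2 := phi_down' h.hA hl2
    rw [hsucc] at h2
    have h3 : (1 + rr P.A P.L l) * (1 - 2 * rr P.A P.L (l + 1)) ≤ 1 := by
      have : phi P.A P.L l * ((1 + rr P.A P.L l) * (1 - 2 * rr P.A P.L (l + 1))) ≤ phi P.A P.L l * 1 := by linarith
      exact le_of_mul_le_mul_left this hphi
    rw [h1]
    have h4 : P.g (dn n x) s * (1 + rr P.A P.L l) * (1 - 2 * rr P.A P.L (l + 1) - 1 / 2 ^ (P.L / 2))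
        ≤ P.g (dn n x) s * ((1 + rr P.A P.L l) * (1 - 2 * rr P.A P.L (l + 1))) := by
      rw [mul_assoc]
      apply mul_le_mul_of_nonneg_left _ hg.le
      nlinarith
    nlinarith
  · have hlL : l = P.L := by omega
    subst hlL
    rw [rr_top (by omega : P.L < P.L + 1), h1]
    have h2 := phi_top_down h.hA (L := P.L)
    rw [hsucc] at h2
    have h3 : (1 + rr P.A P.L P.L) * (1 - 1 / 2 ^ (P.L / 2)) ≤ 1 := by
      have : phi P.A P.L P.L * ((1 + rr P.A P.L P.L) * (1 - 1 / 2 ^ (P.L / 2))) ≤ phi P.A P.L P.L * 1 := by linarith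
      exact le_of_mul_le_mul_left this hphi
    nlinarith

/-- Down step of a lamp of the group itself. -/
theorem V_dn_s [Nonempty E] (h : P.OK M R L') (n : ι → ℕ) {s : ℕ} (hs : s < M) {x : ι} (hx : P.gp x = s)
    (hn : 1 ≤ n x) (hl : n x ≤ P.L + 1) :
    P.V (dn n x) s - P.V n s ≤ P.g n s * (- (rr P.A P.L (n x) / 2) + 2 / R) := by
  have h1 := V_le h (dn n x) hs
  have h2 := V_ge h n hs
  have h3 := g_dn_le h n hx hn hl
  have h4 : 0 < 2 / R := by have := h.R0; positivity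
  have h5 := P.g_pos h.hA (n := n) s
  have h6 := P.g_pos h.hA (n := dn n x) s
  have h7 := rr_nonneg h.hA (L := P.L) (n x)
  have h8 : P.g (dn n x) s ≤ P.g n s := by
    have := mul_nonneg h5.le h7
    linarith
  have h9 : P.g (dn n x) s * (2 / R) ≤ P.g n s * (2 / R) := mul_le_mul_of_nonneg_right h8 h4.le
  linarith

theorem V_dn_s' [Nonempty E] (h : P.OK M R L') (n : ι → ℕ) {s : ℕ} (hs : s < M) {x : ι} (hx : P.gp x = s)
    (hn : 1 ≤ n x) (hl : n x ≤ P.L + 1) :
    - (P.g n s * (2 * rr P.A P.L (n x) + 1 / 2 ^ (P.L / 2) + 2 / R)) ≤ P.V (dn n x) s - P.V n s := by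
  have h1 := V_ge h (dn n x) hs
  have h2 := V_le h n hs
  have h3 := g_dn_ge h n hx hn hl
  nlinarith

theorem g_nb (h : P.OK M R L') {n n' : ι → ℕ} {x : ι} (hn : Nb n n' x) {s : ℕ} (hx : P.gp x ≠ s) :
    P.g n' s = P.g n s := by
  rcases hn with rfl | rfl
  · rw [P.g_up h.hA, if_neg hx]; ring
  · rw [P.g_up h.hA, if_neg hx]; ring

theorem rho_nb {n n' : ι → ℕ} {x : ι} (hn : Nb n n' x) {s : ℕ} (hx : P.gp x ≠ s) :
    P.rho n' s = P.rho n s := by
  rcases hn with rfl | rfl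
  · rw [P.rho_up, if_neg hx]; ring
  · rw [P.rho_up, if_neg hx]; ring

theorem V_nb (h : P.OK M R L') {n n' : ι → ℕ} {x : ι} (hn : Nb n n' x) {s : ℕ} (hx : P.gp x ≠ s) :
    P.V n' s - P.V n s = P.g n s * P.rho n s * (P.S n' s - P.S n s) := by
  unfold V
  rw [g_nb h hn hx, rho_nb hn hx]; ring

/-- Step of a later lamp. -/
theorem V_gt [Nonempty E] (h : P.OK M R L') {n n' : ι → ℕ} {x : ι} (hn : Nb n n' x) {s : ℕ} (hs : s < M)
    (hx : P.gp x ≠ s) : |P.V n' s - P.V n s| ≤ P.g n s * (2 / R) := by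
  rw [V_nb h hn hx, abs_mul, abs_of_nonneg (mul_nonneg (P.g_pos h.hA s).le (P.rho_nonneg h.hA s))]
  have h1 := S_le h n hs
  have h2 := S_le h n' hs
  have h3 := S_nonneg h n hs
  have h4 := S_nonneg h n' hs
  have h5 : |P.S n' s - P.S n s| ≤ 1 / (R * P.m s) := by rw [abs_le]; constructor <;> linarith
  have h6 := rho_le h n hs
  have h7 := P.g_pos h.hA (n := n) s
  have h8 := P.rho_nonneg h.hA (n := n) s
  have h9 := h.m0 hs
  rw [mul_assoc]
  apply mul_le_mul_of_nonneg_left _ h7.le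
  calc P.rho n s * |P.S n' s - P.S n s| ≤ (2 * P.m s) * (1 / (R * P.m s)) := by gcongr
    _ = 2 / R := by have := h.R0; field_simp

end RP

end Pool.Agent.H984
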