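import Pool.Agent.H984.Rat2

/-!
H984: the averaged drift inequality.
-/

set_option autoImplicit false

open Classical

namespace Pool.Agent.H984

variable {ι E : Type} [Fintype ι] [Fintype E]

namespace RP

variable {P : RP ι E} {M : ℕ} {R : ℝ} {L' : ℕ}

/-- The averaged drift at one site. -/
noncomputable def H (P : RP ι E) (U D : ι → ℝ) (n : ι → ℕ) (s : ℕ) (x : ι) : ℝ :=
  U x * P.aw (up n x) (P.gp x) (P.bt x) * (P.V (up n x) s - P.V n s)
    + D x * P.aw n (P.gp x) (P.bt x) * (P.V (dn n x) s - P.V n s)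

/-- Both bits are `v`. -/
def bb (P : RP ι E) (n : ι → ℕ) (j v : ℕ) : Prop := P.par n j false = v ∧ P.par n j true = v

theorem bb_up {n : ι → ℕ} {x : ι} {j : ℕ} (hj : j < P.gp x) :
    (P.par (up n x) j false = 0 ∧ P.par (up n x) j true = 0) ↔ P.bb n j 1 := by
  unfold bb
  rw [par_nb_flip (nb_up n x) (Or.inr hj), par_nb_flip (nb_up n x) (Or.inr hj)]
  have := P.par_lt n j false; have := P.par_lt n j true
  omega

theorem UD.Ule {n : ι → ℕ} {U D : ι → ℝ} (hU : P.UD n U D) (x : ι) : U x ≤ P.d := by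
  have := hU.UD x; have := hU.D0 x; linarith

theorem H_s [Nonempty E] (h : P.OK M R L') {n : ι → ℕ} {U D : ι → ℝ} (hU : P.UD n U D) {s : ℕ} (hs : s < M)
    {x : ι} (hx : P.gp x = s) :
    P.H U D n s x ≤ P.g n s * (∑ j ∈ Finset.range s, P.nu n s j *
        (P.kk (P.bb n j 1) * P.d * rr P.A P.L (n x)
          - (if P.bb n j 0 then P.K else 0) * (D x * rr P.A P.L (n x)) / 2)
        + P.Gf n s * P.K * P.d * rr P.A P.L (n x)) + P.K * P.d * P.g n s * (6 / R) := by
  have hK := h.K1
  have hK0 := h.K0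
  have hd := h.d0
  have hg := P.g_pos h.hA (n := n) s
  have hr := rr_nonneg h.hA (L := P.L) (n x)
  have hR : 0 < 2 / R := by have := h.R0; positivity
  have hU0 := hU.U0 x
  have hUd := hU.Ule x
  have hD0 := hU.D0 x
  have hD1 := hU.D1 x
  -- the two averages
  have ha1 : P.aw (up n x) s (P.bt x) ≤ P.Gf n s * P.K + ∑ j ∈ Finset.range s, P.nu n s j * P.kk (P.bb n j 1) := by
    rw [P.aw_eq, Gf_nb (nb_up n x) (le_of_eq hx.symm)]
    apply add_le_add
    · exact mul_le_mul_of_nonneg_left (P.kk_le hK _) (P.Gf_nonneg n s)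
    · apply le_of_eq
      apply Finset.sum_congr rfl
      intro j hj
      have hj' := Finset.mem_range.mp hj
      rw [nu_nb (nb_up n x) (le_of_eq hx.symm) hj', bb_up (by omega : j < P.gp x)]
  have ha2 : ∑ j ∈ Finset.range s, P.nu n s j * (if P.bb n j 0 then P.K else 0) ≤ P.aw n s (P.bt x) := by
    rw [P.aw_eq]
    have h1 : 0 ≤ P.Gf n s * P.kk (P.par n s (P.bt x) = 0) :=
      mul_nonneg (P.Gf_nonneg n s) (by have := P.kk_ge hK (P.par n s (P.bt x) = 0); linarith)
    have h2 : ∑ j ∈ Finset.range s, P.nu n s j * (if P.bb n j 0 then P.K else 0)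
        ≤ ∑ i ∈ Finset.range s, P.nu n s i * P.kk (P.par n i false = 0 ∧ P.par n i true = 0) := by
      apply Finset.sum_le_sum
      intro j _
      apply mul_le_mul_of_nonneg_left _ (P.nu_nonneg n s j)
      unfold kk bb
      split_ifs <;> linarith
    linarith
  have hawu0 := P.aw_nonneg hK (up n x) s (P.bt x)
  have hawu1 := P.aw_le hK (up n x) s (P.bt x)
  have hawn0 := P.aw_nonneg hK n s (P.bt x)
  have hawn1 := P.aw_le hK n s (P.bt x)
  -- up part
  have hu : U x * P.aw (up n x) s (P.bt x) * (P.V (up n x) s - P.V n s)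
      ≤ P.g n s * (P.d * rr P.A P.L (n x) * (P.Gf n s * P.K + ∑ j ∈ Finset.range s, P.nu n s j * P.kk (P.bb n j 1)))
        + P.K * P.d * P.g n s * (4 / R) := by
    have h1 := V_up_s h n hs hx
    calc U x * P.aw (up n x) s (P.bt x) * (P.V (up n x) s - P.V n s)
        ≤ U x * P.aw (up n x) s (P.bt x) * (P.g n s * (rr P.A P.L (n x) + 4 / R)) :=
          mul_le_mul_of_nonneg_left h1 (mul_nonneg hU0 hawu0)
      _ = P.g n s * (U x * rr P.A P.L (n x) * P.aw (up n x) s (P.bt x))
          + U x * P.aw (up n x) s (P.bt x) * (P.g n s * (4 / R)) := by ring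
      _ ≤ P.g n s * (P.d * rr P.A P.L (n x) * (P.Gf n s * P.K + ∑ j ∈ Finset.range s, P.nu n s j * P.kk (P.bb n j 1)))
          + P.d * P.K * (P.g n s * (4 / R)) := by
          have h4 : 0 < 4 / R := by have := h.R0; positivity
          gcongr
      _ = _ := by ring
  -- down part
  have hdn : D x * P.aw n s (P.bt x) * (P.V (dn n x) s - P.V n s)
      ≤ - (P.g n s * (D x * rr P.A P.L (n x) / 2 * ∑ j ∈ Finset.range s, P.nu n s j * (if P.bb n j 0 then P.K else 0)))
        + P.K * P.d * P.g n s * (2 / R) := by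
    by_cases hn : n x = 0
    · rw [hU.Dbot x hn]
      have : 0 < P.K * P.d * P.g n s * (2 / R) := by positivity
      simp only [zero_mul, zero_div, mul_zero, neg_zero, zero_add]
      exact this.le
    · have hn1 : 1 ≤ n x := Nat.one_le_iff_ne_zero.mpr hn
      have h1 := V_dn_s h n hs hx hn1 (hU.lvl x)
      calc D x * P.aw n s (P.bt x) * (P.V (dn n x) s - P.V n s)
          ≤ D x * P.aw n s (P.bt x) * (P.g n s * (- (rr P.A P.L (n x) / 2) + 2 / R)) :=
            mul_le_mul_of_nonneg_left h1 (mul_nonneg hD0 hawn0)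
        _ = - (P.g n s * (D x * rr P.A P.L (n x) / 2 * P.aw n s (P.bt x)))
            + D x * P.aw n s (P.bt x) * (P.g n s * (2 / R)) := by ring
        _ ≤ - (P.g n s * (D x * rr P.A P.L (n x) / 2 * ∑ j ∈ Finset.range s, P.nu n s j * (if P.bb n j 0 then P.K else 0)))
            + P.d * P.K * (P.g n s * (2 / R)) := by
            have hDd : D x ≤ P.d := by have := h.hd; linarith
            gcongr
        _ = _ := by ring
  have e1 : P.H U D n s x = U x * P.aw (up n x) s (P.bt x) * (P.V (up n x) s - P.V n s)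
      + D x * P.aw n s (P.bt x) * (P.V (dn n x) s - P.V n s) := by unfold H; rw [hx]
  rw [e1]
  have e2 : ∑ j ∈ Finset.range s, P.nu n s j *
        (P.kk (P.bb n j 1) * P.d * rr P.A P.L (n x)
          - (if P.bb n j 0 then P.K else 0) * (D x * rr P.A P.L (n x)) / 2)
      = P.d * rr P.A P.L (n x) * (∑ j ∈ Finset.range s, P.nu n s j * P.kk (P.bb n j 1))
        - D x * rr P.A P.L (n x) / 2 * ∑ j ∈ Finset.range s, P.nu n s j * (if P.bb n j 0 then P.K else 0) := by
    rw [Finset.mul_sum, Finset.mul_sum, ← Finset.sum_sub_distrib]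
    apply Finset.sum_congr rfl
    intro j _; ring
  rw [e2]
  have e3 : (6 : ℝ) / R = 4 / R + 2 / R := by ring
  rw [e3]
  linarith

/-- If `j` controls for some dither, then `j` is released for all. -/
theorem own_of_nu [Nonempty E] (h : P.OK M R L') {n : ι → ℕ} {s j : ℕ} (hj : j < M) (hnu : P.nu n s j ≠ 0) :
    (∀ e, P.own n e j) ∧ (P.lv n j : ℝ) < 3 * P.tau j := by
  have : ∃ e : E, ¬ P.own n e s ∧ P.ctl n e j := by
    by_contra hc
    push Not at hc
    apply hnu
    unfold nu
    rw [Finset.sum_eq_zero, zero_div]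
    intro e _
    rw [if_neg]
    rintro ⟨h1, h2⟩
    exact hc e h1 h2
  obtain ⟨e, _, hc⟩ := this
  constructor
  · intro e' i hi
    have h1 := hc.2 i hi
    have h2 := h.th_lt i (by omega) e'
    omega
  · have h1 := hc.1
    have h2 := h.th_lt j hj e
    have : P.lv n j < 3 * P.tau j := by omega
    exact_mod_cast this

theorem aw_own [Nonempty E] {n : ι → ℕ} {j : ℕ} {b : Bool} (ho : ∀ e, P.own n e j) :
    P.aw n j b = P.kk (P.par n j b = 0) := by
  unfold aw wt
  have hE : (Fintype.card E : ℝ) ≠ 0 := by exact_mod_cast Fintype.card_ne_zero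
  rw [Finset.sum_congr rfl (fun e _ => if_pos (ho e))]
  simp

theorem H_lt [Nonempty E] (h : P.OK M R L') {n : ι → ℕ} {U D : ι → ℝ} (hU : P.UD n U D) {s : ℕ} (hs : s < M)
    {x : ι} {i : ℕ} (hi : P.gp x = i) (hx : i < s) :
    P.H U D n s x ≤ P.g n s * (P.nu n s i * (P.rho n s / (P.m i * P.dp) * (P.dl n i (P.bt x)
        * (U x * P.kk (P.par n i (P.bt x) = 1) + D x * P.kk (P.par n i (P.bt x) = 0)))))
      + P.K * P.d * P.g n s * (2 * P.m s) * (8 / P.tau i + 1 / (R * P.m i)) := by
  have hK := h.K1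
  have hK0 := h.K0
  have hd := h.d0
  have hg := P.g_pos h.hA (n := n) s
  have hrho := P.rho_nonneg h.hA (n := n) s
  have hrho2 := rho_le h n hs
  have hU0 := hU.U0 x
  have hD0 := hU.D0 x
  have hUD := hU.UD x
  have hiM : i < M := lt_trans hx hs
  have hmi := h.m0 hiM
  set er := 8 / (P.tau i : ℝ) + 1 / (R * P.m i) with her
  have her0 : 0 ≤ er := by have := h.R0; have := h.tau0 hiM; positivity
  set q := P.nu n s i * P.dl n i (P.bt x) / (P.m i * P.dp) with hq
  have hawu0 := P.aw_nonneg hK (up n x) i (P.bt x)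
  have hawu1 := P.aw_le hK (up n x) i (P.bt x)
  have hawn0 := P.aw_nonneg hK n i (P.bt x)
  have hawn1 := P.aw_le hK n i (P.bt x)
  have h1 : P.V (up n x) s - P.V n s ≤ P.g n s * P.rho n s * (q + er) := by
    rw [V_nb h (nb_up n x) (by omega)]
    apply mul_le_mul_of_nonneg_left _ (mul_nonneg hg.le hrho)
    have := S_diff h (nb_up n x) hs (by omega : P.gp x < s)
    rw [hi] at this
    have := (abs_le.mp this).2
    linarith
  have h2 : D x * (P.aw n i (P.bt x) * (P.V (dn n x) s - P.V n s))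
      ≤ D x * (P.aw n i (P.bt x) * (P.g n s * P.rho n s * (q + er))) := by
    by_cases hn : n x = 0
    · rw [hU.Dbot x hn]; simp
    · have hn1 : 1 ≤ n x := Nat.one_le_iff_ne_zero.mpr hn
      apply mul_le_mul_of_nonneg_left _ hD0
      apply mul_le_mul_of_nonneg_left _ hawn0
      rw [V_nb h (nb_dn hn1) (by omega)]
      apply mul_le_mul_of_nonneg_left _ (mul_nonneg hg.le hrho)
      have := S_diff h (nb_dn hn1) hs (by omega : P.gp x < s)
      rw [hi] at this
      have := (abs_le.mp this).2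
      linarith
  have e1 : P.H U D n s x = U x * P.aw (up n x) i (P.bt x) * (P.V (up n x) s - P.V n s)
      + D x * (P.aw n i (P.bt x) * (P.V (dn n x) s - P.V n s)) := by unfold H; rw [hi]; ring
  have h3 : P.H U D n s x ≤ (U x * P.aw (up n x) i (P.bt x) + D x * P.aw n i (P.bt x))
      * (P.g n s * P.rho n s * (q + er)) := by
    rw [e1]
    have := mul_le_mul_of_nonneg_left h1 (mul_nonneg hU0 hawu0)
    linarith
  have h4 : (U x * P.aw (up n x) i (P.bt x) + D x * P.aw n i (P.bt x)) ≤ P.d * P.K := by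
    calc _ ≤ U x * P.K + D x * P.K := by gcongr
      _ = (U x + D x) * P.K := by ring
      _ ≤ _ := by gcongr
  have h5 : 0 ≤ (U x * P.aw (up n x) i (P.bt x) + D x * P.aw n i (P.bt x)) := by positivity
  have h6 : (U x * P.aw (up n x) i (P.bt x) + D x * P.aw n i (P.bt x)) * (P.g n s * P.rho n s * er)
      ≤ P.K * P.d * P.g n s * (2 * P.m s) * er := by
    calc _ ≤ (P.d * P.K) * (P.g n s * (2 * P.m s) * er) := by gcongr
      _ = _ := by ring
  have h7 : (U x * P.aw (up n x) i (P.bt x) + D x * P.aw n i (P.bt x)) * (P.g n s * P.rho n s * q)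
      = P.g n s * (P.nu n s i * (P.rho n s / (P.m i * P.dp) * (P.dl n i (P.bt x)
        * (U x * P.kk (P.par n i (P.bt x) = 1) + D x * P.kk (P.par n i (P.bt x) = 0))))) := by
    by_cases hnu : P.nu n s i = 0
    · rw [hq, hnu]; ring
    · have ho := (own_of_nu h hiM hnu).1
      have a2 : P.aw n i (P.bt x) = P.kk (P.par n i (P.bt x) = 0) := aw_own ho
      have a1 : P.aw (up n x) i (P.bt x) = P.kk (P.par n i (P.bt x) = 1) := by
        rw [aw_own (fun e => (own_nb (nb_up n x) (le_of_eq hi.symm) e).mpr (ho e)),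
          par_nb_flip (nb_up n x) (Or.inl ⟨hi, rfl⟩)]
        have hlt := P.par_lt n i (P.bt x)
        have : (1 - P.par n i (P.bt x) = 0) ↔ (P.par n i (P.bt x) = 1) := by omega
        simp only [this]
      rw [a1, a2, hq]; ring
  have h8 : (U x * P.aw (up n x) i (P.bt x) + D x * P.aw n i (P.bt x)) * (P.g n s * P.rho n s * (q + er))
      = (U x * P.aw (up n x) i (P.bt x) + D x * P.aw n i (P.bt x)) * (P.g n s * P.rho n s * q)
        + (U x * P.aw (up n x) i (P.bt x) + D x * P.aw n i (P.bt x)) * (P.g n s * P.rho n s * er) := by ring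
  linarith

theorem H_gt [Nonempty E] (h : P.OK M R L') {n : ι → ℕ} {U D : ι → ℝ} (hU : P.UD n U D) {s : ℕ} (hs : s < M)
    {x : ι} (hx : P.gp x ≠ s) :
    P.H U D n s x ≤ P.K * P.d * P.g n s * (2 / R) := by
  have hK := h.K1
  have hd := h.d0
  have hg := P.g_pos h.hA (n := n) s
  have hU0 := hU.U0 x
  have hD0 := hU.D0 x
  have hUD := hU.UD x
  have hawu0 := P.aw_nonneg hK (up n x) (P.gp x) (P.bt x)
  have hawu1 := P.aw_le hK (up n x) (P.gp x) (P.bt x)
  have hawn0 := P.aw_nonneg hK n (P.gp x) (P.bt x)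
  have hawn1 := P.aw_le hK n (P.gp x) (P.bt x)
  have hR : 0 < 2 / R := by have := h.R0; positivity
  have hB : 0 ≤ P.g n s * (2 / R) := by positivity
  have h1 : P.V (up n x) s - P.V n s ≤ P.g n s * (2 / R) := (abs_le.mp (V_gt h (nb_up n x) hs hx)).2
  have h2 : D x * P.aw n (P.gp x) (P.bt x) * (P.V (dn n x) s - P.V n s)
      ≤ D x * P.aw n (P.gp x) (P.bt x) * (P.g n s * (2 / R)) := by
    by_cases hn : n x = 0
    · rw [hU.Dbot x hn]; simp
    · have hn1 : 1 ≤ n x := Nat.one_le_iff_ne_zero.mpr hn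
      apply mul_le_mul_of_nonneg_left _ (mul_nonneg hD0 hawn0)
      exact (abs_le.mp (V_gt h (nb_dn hn1) hs hx)).2
  unfold H
  have h3 := mul_le_mul_of_nonneg_left h1 (mul_nonneg hU0 hawu0)
  have h4 : (U x * P.aw (up n x) (P.gp x) (P.bt x) + D x * P.aw n (P.gp x) (P.bt x)) ≤ P.d * P.K := by
    calc _ ≤ U x * P.K + D x * P.K := by gcongr
      _ = (U x + D x) * P.K := by ring
      _ ≤ _ := by have := h.K0; gcongr
  have h5 := mul_le_mul_of_nonneg_right h4 hB
  linarith

/-- Total rate of bit flips in a half-group. -/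
noncomputable def FR (P : RP ι E) (U D : ι → ℝ) (n : ι → ℕ) (j : ℕ) (b : Bool) : ℝ :=
  ∑ x, if P.gp x = j ∧ P.bt x = b then (U x * P.kk (P.par n j b = 1) + D x * P.kk (P.par n j b = 0)) else 0

theorem FR_le (h : P.OK M R L') {n : ι → ℕ} {U D : ι → ℝ} (hU : P.UD n U D) {j : ℕ} (hj : j < M) {b : Bool}
    (hp : P.par n j b = 0) : P.FR U D n j b ≤ P.m j * (P.d + P.K) := by
  unfold FR
  rw [← h.card j hj b, Finset.sum_mul]
  apply Finset.sum_le_sum
  intro x _
  split_ifs with hx
  · unfold kk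
    rw [if_neg (by rw [hp]; norm_num), if_pos hp]
    have := hU.Ule x; have := hU.D1 x; have := h.K0
    nlinarith
  · simp

theorem FR_ge (h : P.OK M R L') {n : ι → ℕ} {U D : ι → ℝ} (hU : P.UD n U D) {j : ℕ} (hj : j < M) {b : Bool}
    (hp : P.par n j b = 1) (hlv : (P.lv n j : ℝ) < 3 * P.tau j) : P.K * P.dp * P.m j ≤ P.FR U D n j b := by
  have hK0 := h.K0
  have hdp := h.dp0
  -- number of lamps at the top level
  set c : ℝ := ∑ x, if (P.gp x = j ∧ P.bt x = b) ∧ n x = P.L + 1 then (1 : ℝ) else 0 with hc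
  have hc1 : c * (P.L + 1) ≤ P.lv n j := by
    rw [hc, Finset.sum_mul]
    unfold lv
    push_cast
    apply Finset.sum_le_sum
    intro x _
    by_cases h1 : P.gp x = j
    · by_cases h2 : P.bt x = b ∧ n x = P.L + 1
      · rw [if_pos ⟨⟨h1, h2.1⟩, h2.2⟩, if_pos h1, h2.2]; push_cast; linarith
      · rw [if_neg (by tauto), if_pos h1]; simp
    · rw [if_neg (by tauto), if_neg h1]; simp
  have hc2 : c ≤ 3 / 100 * P.m j := by
    have h1 := h.tau j hj
    have h2 : (P.L : ℝ) = 100 * L' := by rw [h.hL]; push_cast; ring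
    have h3 := h.L0
    rw [h2] at hc1
    rw [h1] at hlv
    have hc0 : 0 ≤ c := by
      rw [hc]; apply Finset.sum_nonneg; intro x _; split_ifs <;> norm_num
    have h4 : c * (100 * L') ≤ 3 * (P.m j * L') := by nlinarith
    have h5 : (c * 100) * L' ≤ (3 * P.m j) * L' := by linarith
    have := le_of_mul_le_mul_right h5 h3
    linarith
  have h1 : P.K * (P.dp / (97 / 100)) * (P.m j - c) ≤ P.FR U D n j b := by
    unfold FR
    rw [← h.card j hj b, hc, ← Finset.sum_sub_distrib, Finset.mul_sum]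
    apply Finset.sum_le_sum
    intro x _
    by_cases hx : P.gp x = j ∧ P.bt x = b
    · rw [if_pos hx]
      by_cases hn : n x = P.L + 1
      · rw [if_pos ⟨hx, hn⟩, if_pos hx]
        simp only [sub_self, mul_zero]
        have := hU.U0 x; have := hU.D0 x
        have := P.kk_ge h.K1 (P.par n j b = 1); have := P.kk_ge h.K1 (P.par n j b = 0)
        positivity
      · rw [if_neg (by tauto), if_pos hx]
        have hle : n x ≤ P.L := by have := hU.lvl x; omega
        have h2 := hU.Uge x hle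
        have h3 := hU.D0 x
        unfold kk
        rw [if_pos hp, if_neg (by rw [hp]; norm_num)]
        have h4 : P.dp / (97 / 100) ≤ U x := by rw [div_le_iff₀ (by norm_num)]; linarith
        have h5 := mul_le_mul_of_nonneg_left h4 hK0.le
        linarith
    · rw [if_neg hx, if_neg (by tauto), if_neg hx]; simp
  have h2 : P.K * P.dp * P.m j ≤ P.K * (P.dp / (97 / 100)) * (P.m j - c) := by
    have h3 : P.m j * (97 / 100) ≤ P.m j - c := by linarith
    have h4 : P.K * P.dp * P.m j = P.K * (P.dp / (97 / 100)) * (P.m j * (97 / 100)) := by ring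
    rw [h4]
    apply mul_le_mul_of_nonneg_left h3
    positivity
  linarith

end RP

end Pool.Agent.H984
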