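import Pool.Agent.H984.Rat3

/-!
H984: the averaged drift inequality, summed.
-/

set_option autoImplicit false

open Classical

namespace Pool.Agent.H984

variable {ι E : Type} [Fintype ι] [Fintype E]

namespace RP

variable {P : RP ι E} {M : ℕ} {R : ℝ} {L' : ℕ}

/-- The part of `rho` from lamps at level zero. -/
noncomputable def rho0 (P : RP ι E) (n : ι → ℕ) (s : ℕ) : ℝ :=
  ∑ x, if P.gp x = s ∧ n x = 0 then rr P.A P.L (n x) else 0

/-- The part of `rho` from lamps at positive level. -/
noncomputable def rhop (P : RP ι E) (n : ι → ℕ) (s : ℕ) : ℝ :=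
  ∑ x, if P.gp x = s ∧ 1 ≤ n x then rr P.A P.L (n x) else 0

theorem rho_split (n : ι → ℕ) (s : ℕ) : P.rho n s = P.rho0 n s + P.rhop n s := by
  unfold rho rho0 rhop
  rw [← Finset.sum_add_distrib]
  apply Finset.sum_congr rfl
  intro x _
  by_cases h1 : P.gp x = s <;> by_cases h2 : n x = 0
  · simp [h1, h2]
  · have : 1 ≤ n x := Nat.one_le_iff_ne_zero.mpr h2
    simp [h1, h2, this]
  · simp [h1]
  · simp [h1]

theorem rho0_nonneg (h : P.OK M R L') (n : ι → ℕ) (s : ℕ) : 0 ≤ P.rho0 n s := by
  unfold rho0; apply Finset.sum_nonneg; intro x _; split_ifs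
  · exact rr_nonneg h.hA _
  · norm_num

theorem rhop_nonneg (h : P.OK M R L') (n : ι → ℕ) (s : ℕ) : 0 ≤ P.rhop n s := by
  unfold rhop; apply Finset.sum_nonneg; intro x _; split_ifs
  · exact rr_nonneg h.hA _
  · norm_num

theorem rho0_le (h : P.OK M R L') (n : ι → ℕ) {s : ℕ} (hs : s < M) : P.rho0 n s ≤ 2 * P.m s / P.A := by
  have hA := h.hA
  rw [← card2 h hs, Finset.sum_div]
  unfold rho0
  apply Finset.sum_le_sum
  intro x _
  by_cases h1 : P.gp x = s <;> by_cases h2 : n x = 0
  · rw [if_pos ⟨h1, h2⟩, if_pos h1, h2, rr_zero]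
  · rw [if_neg (by tauto), if_pos h1]; positivity
  · rw [if_neg (by tauto), if_neg h1]; simp
  · rw [if_neg (by tauto), if_neg h1]; simp

theorem rhop_eq {n : ι → ℕ} {U D : ι → ℝ} (hU : P.UD n U D) (s : ℕ) :
    (∑ x, if P.gp x = s then D x * rr P.A P.L (n x) else 0) = P.rhop n s := by
  unfold rhop
  apply Finset.sum_congr rfl
  intro x _
  by_cases h1 : P.gp x = s
  · by_cases h2 : 1 ≤ n x
    · rw [if_pos h1, if_pos ⟨h1, h2⟩]
      by_cases h3 : n x ≤ P.L
      · rw [hU.Deq x h2 h3]; ring
      · rw [rr_top (by omega)]; ring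
    · rw [if_pos h1, if_neg (by tauto), hU.Dbot x (by omega)]; ring
  · rw [if_neg h1, if_neg (by tauto)]

/-- The drift of mode `j`. -/
noncomputable def Z (P : RP ι E) (U D : ι → ℝ) (n : ι → ℕ) (s j : ℕ) : ℝ :=
  (P.kk (P.bb n j 1) * P.d * P.rho n s - (if P.bb n j 0 then P.K else 0) * P.rhop n s / 2)
    + P.rho n s / (P.m j * P.dp) * (P.dl n j false * P.FR U D n j false + P.dl n j true * P.FR U D n j true)

theorem Z_le (h : P.OK M R L') {n : ι → ℕ} {U D : ι → ℝ} (hU : P.UD n U D) (s : ℕ) {j : ℕ} (hj : j < M)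
    (hlv : (P.lv n j : ℝ) < 3 * P.tau j) : P.Z U D n s j ≤ P.K * (P.rho0 n s - P.rhop n s / 4) := by
  have hr0 := rho0_nonneg h n s
  have hrp := rhop_nonneg h n s
  have hrs := P.rho_split n s
  have hrho : 0 ≤ P.rho n s := by linarith
  have hd := h.hd
  have hd0 := h.d0
  have hK := h.hK
  have hdp := h.hdp
  have hdp0 := h.dp0
  have hm := h.m0 hj
  have hmd : 0 < P.m j * P.dp := mul_pos hm hdp0
  have hq : 0 ≤ P.rho n s / (P.m j * P.dp) := div_nonneg hrho hmd.le
  -- numbers
  have num1 : (1 + P.d / 2) * (P.d + P.K) ≤ P.dp * (65 / 100 * (P.d + P.K)) := by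
    have : 1 + P.d / 2 ≤ P.dp * (65 / 100) := by linarith
    have h2 : 0 ≤ P.d + P.K := by rw [hK]; linarith
    nlinarith
  unfold Z
  rcases P.par_cases n j false with pa | pa <;> rcases P.par_cases n j true with pb | pb
  · -- (0,0)
    have b1 : ¬ P.bb n j 1 := by unfold bb; omega
    have b0 : P.bb n j 0 := ⟨pa, pb⟩
    have f1 := FR_le h hU hj pa
    have f2 := FR_le h hU hj pb
    have d1 : P.dl n j false = 1 := by unfold dl; simp [pa, pb]
    have d2 : P.dl n j true = 1 := by unfold dl; simp [pa, pb]
    have k1 : P.kk (P.bb n j 1) = 1 := by unfold kk; rw [if_neg b1]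
    rw [d1, d2, k1, if_pos b0]
    have h1 : P.rho n s / (P.m j * P.dp) * (1 * P.FR U D n j false + 1 * P.FR U D n j true)
        ≤ P.rho n s * (P.d / 2) := by
      calc _ ≤ P.rho n s / (P.m j * P.dp) * (2 * (P.m j * (P.d + P.K))) := by
            apply mul_le_mul_of_nonneg_left _ hq; linarith
        _ = P.rho n s * (2 * (P.d + P.K) / P.dp) := by field_simp
        _ ≤ P.rho n s * (P.d / 2) := by
            apply mul_le_mul_of_nonneg_left _ hrho
            rw [div_le_iff₀ hdp0, hK]
            nlinarith
    rw [hrs] at h1 ⊢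
    rw [hK]
    nlinarith
  · -- (0,1)
    have b1 : ¬ P.bb n j 1 := by unfold bb; omega
    have b0 : ¬ P.bb n j 0 := by unfold bb; omega
    have f1 := FR_le h hU hj pa
    have f2 := FR_ge h hU hj pb hlv
    have d1 : P.dl n j false = 1 + P.d / 2 := by unfold dl; simp [pa, pb]
    have d2 : P.dl n j true = -1 := by unfold dl; simp [pa, pb]; norm_num
    have k1 : P.kk (P.bb n j 1) = 1 := by unfold kk; rw [if_neg b1]
    rw [d1, d2, k1, if_neg b0]
    have h1 : P.rho n s / (P.m j * P.dp) * ((1 + P.d / 2) * P.FR U D n j false + -1 * P.FR U D n j true)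
        ≤ P.rho n s * (65 / 100 * (P.d + P.K) - P.K) := by
      calc _ ≤ P.rho n s / (P.m j * P.dp) * (P.m j * (P.dp * (65 / 100 * (P.d + P.K))) - P.K * P.dp * P.m j) := by
            apply mul_le_mul_of_nonneg_left _ hq
            have h2 : (1 + P.d / 2) * P.FR U D n j false ≤ (1 + P.d / 2) * (P.m j * (P.d + P.K)) := by
              apply mul_le_mul_of_nonneg_left f1; linarith
            have h3 := mul_le_mul_of_nonneg_left num1 hm.le
            linarith
        _ = _ := by field_simp
    rw [hK] at h1 ⊢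
    rw [hrs] at h1 ⊢
    nlinarith
  · -- (1,0)
    have b1 : ¬ P.bb n j 1 := by unfold bb; omega
    have b0 : ¬ P.bb n j 0 := by unfold bb; omega
    have f1 := FR_ge h hU hj pa hlv
    have f2 := FR_le h hU hj pb
    have d1 : P.dl n j false = -1 := by unfold dl; simp [pa, pb]; norm_num
    have d2 : P.dl n j true = 1 + P.d / 2 := by unfold dl; simp [pa, pb]
    have k1 : P.kk (P.bb n j 1) = 1 := by unfold kk; rw [if_neg b1]
    rw [d1, d2, k1, if_neg b0]
    have h1 : P.rho n s / (P.m j * P.dp) * (-1 * P.FR U D n j false + (1 + P.d / 2) * P.FR U D n j true)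
        ≤ P.rho n s * (65 / 100 * (P.d + P.K) - P.K) := by
      calc _ ≤ P.rho n s / (P.m j * P.dp) * (P.m j * (P.dp * (65 / 100 * (P.d + P.K))) - P.K * P.dp * P.m j) := by
            apply mul_le_mul_of_nonneg_left _ hq
            have h2 : (1 + P.d / 2) * P.FR U D n j true ≤ (1 + P.d / 2) * (P.m j * (P.d + P.K)) := by
              apply mul_le_mul_of_nonneg_left f2; linarith
            have h3 := mul_le_mul_of_nonneg_left num1 hm.le
            linarith
        _ = _ := by field_simp
    rw [hK] at h1 ⊢
    rw [hrs] at h1 ⊢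
    nlinarith
  · -- (1,1)
    have b1 : P.bb n j 1 := ⟨pa, pb⟩
    have b0 : ¬ P.bb n j 0 := by unfold bb; omega
    have f1 := FR_ge h hU hj pa hlv
    have f2 := FR_ge h hU hj pb hlv
    have d1 : P.dl n j false = -(1 + P.d / 2) := by unfold dl; simp [pa, pb]; norm_num
    have d2 : P.dl n j true = -(1 + P.d / 2) := by unfold dl; simp [pa, pb]; norm_num
    have k1 : P.kk (P.bb n j 1) = P.K := by unfold kk; rw [if_pos b1]
    rw [d1, d2, k1, if_neg b0]
    have h1 : P.rho n s / (P.m j * P.dp) * (-(1 + P.d / 2) * P.FR U D n j false + -(1 + P.d / 2) * P.FR U D n j true)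
        ≤ P.rho n s * (- (2 * (1 + P.d / 2) * P.K)) := by
      calc _ ≤ P.rho n s / (P.m j * P.dp) * (-(1 + P.d / 2) * (2 * (P.K * P.dp * P.m j))) := by
            apply mul_le_mul_of_nonneg_left _ hq
            have h3 : 0 ≤ 1 + P.d / 2 := by linarith
            have := mul_le_mul_of_nonneg_left f1 h3
            have := mul_le_mul_of_nonneg_left f2 h3
            linarith
        _ = _ := by field_simp
    have hKpos := h.K0
    rw [hrs] at h1 ⊢
    have h5 : 0 ≤ P.K * P.rho0 n s := mul_nonneg hKpos.le hr0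
    have h6 : 0 ≤ P.K * P.rhop n s := mul_nonneg hKpos.le hrp
    nlinarith

theorem sum_gp (h : P.OK M R L') (f : ι → ℝ) : ∑ x, f x = ∑ i ∈ Finset.range M, ∑ x, if P.gp x = i then f x else 0 := by
  rw [Finset.sum_comm]
  apply Finset.sum_congr rfl
  intro x _
  rw [Finset.sum_ite_eq, if_pos (Finset.mem_range.mpr (h.gpM x))]

/-- The averaged drift inequality. -/
theorem drift [Nonempty E] (h : P.OK M R L') {n : ι → ℕ} {U D : ι → ℝ} (hU : P.UD n U D) {s : ℕ} (hs : s < M) :
    ∑ x, P.H U D n s x ≤ P.K * P.g n s * ((1 - P.Gf n s) * (P.rho0 n s - P.rhop n s / 4)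
      + P.Gf n s * P.d * P.rho n s + M * P.d * P.m s * (12 / R + 32 / L')) := by
  have hK0 := h.K0
  have hd0 := h.d0
  have hg := P.g_pos h.hA (n := n) s
  have hms := h.m0 hs
  have hR := h.R0
  have hL := h.L0
  have hR2 := h.hR
  set er : ℝ := P.K * P.d * P.g n s * P.m s * (12 / R + 32 / L') with her
  -- bound on each group
  have key : ∀ i ∈ Finset.range M, (∑ x, if P.gp x = i then P.H U D n s x else 0)
      ≤ (if i = s then P.g n s * (∑ j ∈ Finset.range s, P.nu n s j *
          (P.kk (P.bb n j 1) * P.d * P.rho n s - (if P.bb n j 0 then P.K else 0) * P.rhop n s / 2)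
          + P.Gf n s * P.K * P.d * P.rho n s) else 0)
        + (if i < s then P.g n s * (P.nu n s i * (P.rho n s / (P.m i * P.dp) * (P.dl n i false * P.FR U D n i false
            + P.dl n i true * P.FR U D n i true))) else 0) + er := by
    intro i hi
    have hiM := Finset.mem_range.mp hi
    have hmi := h.m0 hiM
    rcases lt_trichotomy i s with hlt | heq | hgt
    · rw [if_neg (by omega), if_pos hlt, zero_add]
      set c := P.K * P.d * P.g n s * (2 * P.m s) * (8 / P.tau i + 1 / (R * P.m i)) with hc
      have h1 : ∀ x, (if P.gp x = i then P.H U D n s x else 0) ≤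
          (P.g n s * (P.nu n s i * (P.rho n s / (P.m i * P.dp)))) *
            ((if P.gp x = i ∧ P.bt x = false then (P.dl n i false * (U x * P.kk (P.par n i false = 1) + D x * P.kk (P.par n i false = 0))) else 0)
            + (if P.gp x = i ∧ P.bt x = true then (P.dl n i true * (U x * P.kk (P.par n i true = 1) + D x * P.kk (P.par n i true = 0))) else 0))
          + (if P.gp x = i then (1 : ℝ) else 0) * c := by
        intro x
        by_cases hx : P.gp x = i
        · have := H_lt h hU hs hx hlt
          rw [if_pos hx, if_pos hx]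
          cases hb : P.bt x
          · rw [hb] at this
            rw [if_pos ⟨hx, rfl⟩, if_neg (by simp)]
            rw [hc]; linarith
          · rw [hb] at this
            rw [if_neg (by simp), if_pos ⟨hx, rfl⟩]
            rw [hc]; linarith
        · rw [if_neg hx, if_neg hx, if_neg (by tauto), if_neg (by tauto)]; simp
      refine (Finset.sum_le_sum (fun x _ => h1 x)).trans ?_
      rw [Finset.sum_add_distrib, ← Finset.mul_sum, ← Finset.sum_mul, Finset.sum_add_distrib, card2 h hiM]
      have e1 : ∀ b, (∑ x, if P.gp x = i ∧ P.bt x = b then (P.dl n i b * (U x * P.kk (P.par n i b = 1) + D x * P.kk (P.par n i b = 0))) else 0)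
          = P.dl n i b * P.FR U D n i b := by
        intro b; unfold FR; rw [Finset.mul_sum]; apply Finset.sum_congr rfl; intro x _; split_ifs <;> ring
      rw [e1, e1]
      have h2 : 2 * P.m i * c ≤ er := by
        rw [hc, her, h.tau i hiM]
        have : 2 * P.m i * (P.K * P.d * P.g n s * (2 * P.m s) * (8 / (P.m i * L') + 1 / (R * P.m i)))
            = P.K * P.d * P.g n s * P.m s * (4 / R + 32 / L') := by field_simp; ring
        rw [this]
        apply mul_le_mul_of_nonneg_left _ (by positivity)
        have : 4 / R ≤ 12 / R := by gcongr; norm_num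
        linarith
      linarith
    · subst heq
      rw [if_pos rfl, if_neg (by omega), add_zero]
      have h1 : ∀ x, (if P.gp x = i then P.H U D n i x else 0) ≤
          P.g n i * (∑ j ∈ Finset.range i, P.nu n i j *
            (P.kk (P.bb n j 1) * P.d * (if P.gp x = i then rr P.A P.L (n x) else 0)
              - (if P.bb n j 0 then P.K else 0) * (if P.gp x = i then D x * rr P.A P.L (n x) else 0) / 2)
            + P.Gf n i * P.K * P.d * (if P.gp x = i then rr P.A P.L (n x) else 0))
          + (if P.gp x = i then (1 : ℝ) else 0) * (P.K * P.d * P.g n i * (6 / R)) := by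
        intro x
        by_cases hx : P.gp x = i
        · have := H_s h hU hs hx
          simp only [hx, if_true]
          linarith
        · simp [hx]
      refine (Finset.sum_le_sum (fun x _ => h1 x)).trans ?_
      rw [Finset.sum_add_distrib, ← Finset.mul_sum, ← Finset.sum_mul, card2 h hiM, Finset.sum_add_distrib,
        Finset.sum_comm, ← Finset.mul_sum]
      have e1 : ∀ j ∈ Finset.range i, ∑ x, P.nu n i j *
            (P.kk (P.bb n j 1) * P.d * (if P.gp x = i then rr P.A P.L (n x) else 0)
              - (if P.bb n j 0 then P.K else 0) * (if P.gp x = i then D x * rr P.A P.L (n x) else 0) / 2)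
          = P.nu n i j * (P.kk (P.bb n j 1) * P.d * P.rho n i - (if P.bb n j 0 then P.K else 0) * P.rhop n i / 2) := by
        intro j _
        rw [← Finset.mul_sum, Finset.sum_sub_distrib, ← Finset.mul_sum, ← Finset.sum_div, ← Finset.mul_sum,
          rhop_eq hU]
        rfl
      rw [Finset.sum_congr rfl e1]
      have e2 : (∑ x, if P.gp x = i then rr P.A P.L (n x) else 0) = P.rho n i := rfl
      rw [e2]
      have h2 : 2 * P.m i * (P.K * P.d * P.g n i * (6 / R)) ≤ er := by
        rw [her]
        have : 2 * P.m i * (P.K * P.d * P.g n i * (6 / R)) = P.K * P.d * P.g n i * P.m i * (12 / R) := by ring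
        rw [this]
        apply mul_le_mul_of_nonneg_left _ (by positivity)
        have : 0 ≤ 32 / (L' : ℝ) := by positivity
        linarith
      linarith
    · rw [if_neg (by omega), if_neg (by omega), zero_add, zero_add]
      have h1 : ∀ x, (if P.gp x = i then P.H U D n s x else 0) ≤
          (if P.gp x = i then (1 : ℝ) else 0) * (P.K * P.d * P.g n s * (2 / R)) := by
        intro x
        by_cases hx : P.gp x = i
        · have := H_gt h hU hs (by omega : P.gp x ≠ s)
          rw [if_pos hx, if_pos hx]; linarith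
        · simp [hx]
      refine (Finset.sum_le_sum (fun x _ => h1 x)).trans ?_
      rw [← Finset.sum_mul, card2 h hiM, her]
      have hmi2 : P.m i ≤ P.m s := by
        have := h.mR s i hgt hiM
        nlinarith
      calc 2 * P.m i * (P.K * P.d * P.g n s * (2 / R)) ≤ 2 * P.m s * (P.K * P.d * P.g n s * (2 / R)) := by gcongr
        _ = P.K * P.d * P.g n s * P.m s * (4 / R) := by ring
        _ ≤ _ := by
            apply mul_le_mul_of_nonneg_left _ (by positivity)
            have h3 : 0 ≤ 32 / (L' : ℝ) := by positivity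
            have h4 : 4 / R ≤ 12 / R := by gcongr; norm_num
            linarith
  rw [sum_gp h]
  refine (Finset.sum_le_sum key).trans ?_
  rw [Finset.sum_add_distrib, Finset.sum_add_distrib, Finset.sum_ite_eq', if_pos (Finset.mem_range.mpr hs),
    Finset.sum_const, Finset.card_range, nsmul_eq_mul]
  have e3 : (∑ i ∈ Finset.range M, if i < s then P.g n s * (P.nu n s i * (P.rho n s / (P.m i * P.dp) * (P.dl n i false * P.FR U D n i false
            + P.dl n i true * P.FR U D n i true))) else 0)
      = ∑ i ∈ Finset.range s, P.g n s * (P.nu n s i * (P.rho n s / (P.m i * P.dp) * (P.dl n i false * P.FR U D n i false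
            + P.dl n i true * P.FR U D n i true))) := by
    rw [← Finset.sum_filter]
    apply Finset.sum_congr _ (fun _ _ => rfl)
    ext i; simp; omega
  rw [e3]
  have e4 : P.g n s * (∑ j ∈ Finset.range s, P.nu n s j *
          (P.kk (P.bb n j 1) * P.d * P.rho n s - (if P.bb n j 0 then P.K else 0) * P.rhop n s / 2)
          + P.Gf n s * P.K * P.d * P.rho n s)
        + ∑ i ∈ Finset.range s, P.g n s * (P.nu n s i * (P.rho n s / (P.m i * P.dp) * (P.dl n i false * P.FR U D n i false
            + P.dl n i true * P.FR U D n i true)))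
      = P.g n s * (∑ j ∈ Finset.range s, P.nu n s j * P.Z U D n s j) + P.g n s * (P.Gf n s * P.K * P.d * P.rho n s) := by
    rw [← Finset.mul_sum, mul_add, add_right_comm, ← mul_add, ← Finset.sum_add_distrib]
    congr 2
    apply Finset.sum_congr rfl
    intro j _
    unfold Z; ring
  rw [e4]
  have h5 : ∑ j ∈ Finset.range s, P.nu n s j * P.Z U D n s j
      ≤ (1 - P.Gf n s) * (P.K * (P.rho0 n s - P.rhop n s / 4)) := by
    have h6 : 1 - P.Gf n s = ∑ j ∈ Finset.range s, P.nu n s j := by
      have := P.sum_nu n s; linarith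
    rw [h6, Finset.sum_mul]
    apply Finset.sum_le_sum
    intro j hj
    have hjs := Finset.mem_range.mp hj
    by_cases hnu : P.nu n s j = 0
    · rw [hnu]; simp
    · have ho := (own_of_nu h (by omega) hnu).2
      exact mul_le_mul_of_nonneg_left (Z_le h hU s (by omega) ho) (P.nu_nonneg n s j)
  have h7 := mul_le_mul_of_nonneg_left h5 hg.le
  rw [her]
  linarith

end RP

end Pool.Agent.H984
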