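import Pool.Agent.H984.Rat4

/-!
H984: the majorant `w` of the pointwise drift.
-/

set_option autoImplicit false

open Classical

namespace Pool.Agent.H984

variable {ι E : Type} [Fintype ι] [Fintype E]

namespace RP

variable {P : RP ι E} {M : ℕ} {R : ℝ} {L' : ℕ}

/-- The drift at a site, with dither `e`. -/
noncomputable def hs (P : RP ι E) (U D : ι → ℝ) (n : ι → ℕ) (s : ℕ) (x : ι) (e : E) : ℝ :=
  U x * P.wt (up n x) e (P.gp x) (P.bt x) * (P.V (up n x) s - P.V n s)
    + D x * P.wt n e (P.gp x) (P.bt x) * (P.V (dn n x) s - P.V n s)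

theorem hs_avg [Nonempty E] (U D : ι → ℝ) (n : ι → ℕ) (s : ℕ) (x : ι) :
    (∑ e : E, P.hs U D n s x e) / (Fintype.card E : ℝ) = P.H U D n s x := by
  unfold hs H aw
  rw [Finset.sum_add_distrib, ← Finset.sum_mul, ← Finset.sum_mul, ← Finset.mul_sum, ← Finset.mul_sum]
  ring

/-- The majorant. -/
noncomputable def w (P : RP ι E) (ep : ℝ) (n : ι → ℕ) (s : ℕ) (x : ι) : ℝ :=
  P.K * P.g n s * (ep * (if P.gp x ≤ s then P.m s / P.m (P.gp x) else 1)
    + (if P.gp x = s then 2 * P.d * rr P.A P.L (n x) else 0)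
    + (if P.gp x < s then P.d * P.rho n s * P.nu n s (P.gp x) / P.m (P.gp x) else 0))

/-- Smallness of `ep` against the other parameters. -/
structure Small (P : RP ι E) (M : ℕ) (R : ℝ) (L' : ℕ) (ep : ℝ) : Prop where
  ep0 : 0 < ep
  ep1 : ep ≤ 1
  e1 : P.d * (4 / R) + 1 / 2 ^ (P.L / 2) ≤ ep
  e2 : 2 * P.d * (8 / L' + 1 / R) ≤ ep
  e3 : 2 * P.d * (1 / 2 ^ (P.L / 2)) ≤ ep
  e4 : P.d * (16 / L') ≤ ep

theorem base_nonneg (h : P.OK M R L') {ep : ℝ} (hep : 0 < ep) {s : ℕ} (hs : s < M) (x : ι) :
    0 ≤ ep * (if P.gp x ≤ s then P.m s / P.m (P.gp x) else 1) := by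
  have := h.m0 hs; have := h.m0 (h.gpM x)
  split_ifs <;> positivity

theorem w_nonneg (h : P.OK M R L') {ep : ℝ} (hep : 0 < ep) (n : ι → ℕ) {s : ℕ} (hs : s < M) (x : ι) :
    0 ≤ P.w ep n s x := by
  unfold w
  have h1 := base_nonneg h hep hs x
  have h2 := h.K0
  have h3 := P.g_pos h.hA (n := n) s
  have h4 := rr_nonneg h.hA (L := P.L) (n x)
  have h5 := P.rho_nonneg h.hA (n := n) s
  have h6 := P.nu_nonneg n s (P.gp x)
  have h7 := h.m0 (h.gpM x)
  have h8 := h.d0
  have a1 : 0 ≤ (if P.gp x = s then 2 * P.d * rr P.A P.L (n x) else 0) := by split_ifs <;> positivity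
  have a2 : 0 ≤ (if P.gp x < s then P.d * P.rho n s * P.nu n s (P.gp x) / P.m (P.gp x) else 0) := by
    split_ifs <;> positivity
  positivity

theorem dl_abs (h : P.OK M R L') (n : ι → ℕ) (j : ℕ) (b : Bool) : |P.dl n j b| ≤ P.dp := by
  unfold dl
  have hd := h.hd; have hdp := h.hdp
  rcases P.par_cases n j b with h1 | h1 <;> rcases P.par_cases n j (!b) with h2 | h2 <;> rw [h1, h2] <;>
    push_cast <;> rw [abs_le] <;> constructor <;> linarith

/-- Bound for the drift at one site. -/
theorem hs_le [Nonempty E] (h : P.OK M R L') {ep : ℝ} (hep : P.Small M R L' ep) {n : ι → ℕ} {U D : ι → ℝ}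
    (hU : P.UD n U D) {s : ℕ} (hs : s < M) (x : ι) (e : E) : |P.hs U D n s x e| ≤ P.w ep n s x := by
  have hK1 := h.K1
  have hK0 := h.K0
  have hd0 := h.d0
  have hd := h.hd
  have hR := h.R0
  have hg := P.g_pos h.hA (n := n) s
  have hU0 := hU.U0 x
  have hD0 := hU.D0 x
  have hD1 := hU.D1 x
  have hUD := hU.UD x
  have hms := h.m0 hs
  have w1 := P.wt_ge hK1 (up n x) e (P.gp x) (P.bt x)
  have w2 := P.wt_le hK1 (up n x) e (P.gp x) (P.bt x)
  have w3 := P.wt_ge hK1 n e (P.gp x) (P.bt x)
  have w4 := P.wt_le hK1 n e (P.gp x) (P.bt x)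
  -- generic: bounds a for up, b for down
  have gen : ∀ a b : ℝ, |P.V (up n x) s - P.V n s| ≤ a → (1 ≤ n x → |P.V (dn n x) s - P.V n s| ≤ b) → 0 ≤ b →
      |P.hs U D n s x e| ≤ P.K * (U x * a + D x * b) := by
    intro a b ha hb hb0
    have ha0 : 0 ≤ a := (abs_nonneg _).trans ha
    unfold RP.hs
    refine (abs_add_le _ _).trans ?_
    rw [abs_mul (U x * _), abs_mul (D x * _),
      abs_of_nonneg (mul_nonneg hU0 (by linarith : 0 ≤ P.wt (up n x) e (P.gp x) (P.bt x))),
      abs_of_nonneg (mul_nonneg hD0 (by linarith : 0 ≤ P.wt n e (P.gp x) (P.bt x)))]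
    have h1 : U x * P.wt (up n x) e (P.gp x) (P.bt x) * |P.V (up n x) s - P.V n s| ≤ U x * P.K * a := by gcongr
    have h2 : D x * P.wt n e (P.gp x) (P.bt x) * |P.V (dn n x) s - P.V n s| ≤ D x * P.K * b := by
      by_cases hn : n x = 0
      · rw [hU.Dbot x hn]; simp
      · have := hb (Nat.one_le_iff_ne_zero.mpr hn)
        gcongr
    linarith
  rcases lt_trichotomy (P.gp x) s with hlt | heq | hgt
  · -- earlier group
    have hiM : P.gp x < M := h.gpM x
    have hmi := h.m0 hiM
    have hrho := P.rho_nonneg h.hA (n := n) s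
    have hrho2 := rho_le h n hs
    have hnu := P.nu_nonneg n s (P.gp x)
    have st : ∀ n', Nb n n' x → |P.V n' s - P.V n s| ≤ P.g n s * (P.rho n s * P.nu n s (P.gp x) / P.m (P.gp x)
        + P.rho n s * (8 / P.tau (P.gp x) + 1 / (R * P.m (P.gp x)))) := by
      intro n' hn
      rw [V_nb h hn (by omega), abs_mul, abs_of_nonneg (mul_nonneg hg.le hrho)]
      have h1 := S_diff h hn hs hlt
      have h2 : |P.nu n s (P.gp x) * P.dl n (P.gp x) (P.bt x) / (P.m (P.gp x) * P.dp)| ≤ P.nu n s (P.gp x) / P.m (P.gp x) := by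
        rw [abs_div, abs_mul, abs_of_nonneg hnu, abs_of_pos (mul_pos hmi h.dp0)]
        rw [div_le_div_iff₀ (mul_pos hmi h.dp0) hmi]
        have := dl_abs h n (P.gp x) (P.bt x)
        calc P.nu n s (P.gp x) * |P.dl n (P.gp x) (P.bt x)| * P.m (P.gp x) ≤ P.nu n s (P.gp x) * P.dp * P.m (P.gp x) := by gcongr
          _ = _ := by ring
      have h3 : |P.S n' s - P.S n s| ≤ P.nu n s (P.gp x) / P.m (P.gp x) + (8 / P.tau (P.gp x) + 1 / (R * P.m (P.gp x))) := by
        have := abs_add_le (P.S n' s - P.S n s - P.nu n s (P.gp x) * P.dl n (P.gp x) (P.bt x) / (P.m (P.gp x) * P.dp))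
          (P.nu n s (P.gp x) * P.dl n (P.gp x) (P.bt x) / (P.m (P.gp x) * P.dp))
        rw [sub_add_cancel] at this
        linarith
      calc P.g n s * P.rho n s * |P.S n' s - P.S n s| ≤ P.g n s * P.rho n s *
            (P.nu n s (P.gp x) / P.m (P.gp x) + (8 / P.tau (P.gp x) + 1 / (R * P.m (P.gp x)))) := by gcongr
        _ = _ := by ring
    have hb0 : 0 ≤ P.g n s * (P.rho n s * P.nu n s (P.gp x) / P.m (P.gp x)
        + P.rho n s * (8 / P.tau (P.gp x) + 1 / (R * P.m (P.gp x)))) := by
      have := h.tau0 hiM; positivity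
    refine (gen _ _ (st _ (nb_up n x)) (fun hn => st _ (nb_dn hn)) hb0).trans ?_
    unfold w
    rw [if_pos hlt.le, if_neg (by omega), if_pos hlt, add_zero]
    have h4 : P.rho n s * (8 / P.tau (P.gp x) + 1 / (R * P.m (P.gp x))) ≤ (ep * (P.m s / P.m (P.gp x))) / P.d := by
      rw [h.tau _ hiM, le_div_iff₀ hd0]
      have e1 : 8 / (P.m (P.gp x) * (L' : ℝ)) + 1 / (R * P.m (P.gp x)) = (8 / L' + 1 / R) / P.m (P.gp x) := by
        have := h.L0; field_simp
      rw [e1]
      have h5 := hep.e2
      have h6 : 0 ≤ (8 / (L' : ℝ) + 1 / R) := by have := h.L0; positivity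
      calc P.rho n s * ((8 / L' + 1 / R) / P.m (P.gp x)) * P.d
          ≤ (2 * P.m s) * ((8 / L' + 1 / R) / P.m (P.gp x)) * P.d := by gcongr
        _ = (2 * P.d * (8 / L' + 1 / R)) * (P.m s / P.m (P.gp x)) := by ring
        _ ≤ _ := by gcongr
    calc P.K * (U x * (P.g n s * (P.rho n s * P.nu n s (P.gp x) / P.m (P.gp x)
            + P.rho n s * (8 / P.tau (P.gp x) + 1 / (R * P.m (P.gp x)))))
          + D x * (P.g n s * (P.rho n s * P.nu n s (P.gp x) / P.m (P.gp x)
            + P.rho n s * (8 / P.tau (P.gp x) + 1 / (R * P.m (P.gp x))))))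
        = P.K * P.g n s * ((U x + D x) * (P.rho n s * P.nu n s (P.gp x) / P.m (P.gp x)
            + P.rho n s * (8 / P.tau (P.gp x) + 1 / (R * P.m (P.gp x))))) := by ring
      _ ≤ P.K * P.g n s * (P.d * (P.rho n s * P.nu n s (P.gp x) / P.m (P.gp x) + (ep * (P.m s / P.m (P.gp x))) / P.d)) := by
          gcongr
      _ = P.K * P.g n s * (P.d * P.rho n s * P.nu n s (P.gp x) / P.m (P.gp x)
            + P.d * ((ep * (P.m s / P.m (P.gp x))) / P.d)) := by ring
      _ = _ := by rw [mul_div_cancel₀ _ hd0.ne']; ring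
  · -- own group
    have hr := rr_nonneg h.hA (L := P.L) (n x)
    have hp : (0 : ℝ) < 1 / 2 ^ (P.L / 2) := by positivity
    have h2R : 0 < 2 / R := by positivity
    have h4R : (4 : ℝ) / R = 2 * (2 / R) := by ring
    have a1 : |P.V (up n x) s - P.V n s| ≤ P.g n s * (rr P.A P.L (n x) + 4 / R) := by
      rw [abs_le]
      refine ⟨?_, V_up_s h n hs heq⟩
      have h1 := V_up_s' h n hs heq
      have h2 : P.g n s * (2 / R) ≤ P.g n s * (rr P.A P.L (n x) + 4 / R) := by
        apply mul_le_mul_of_nonneg_left _ hg.le; linarith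
      linarith
    have a2 : 1 ≤ n x → |P.V (dn n x) s - P.V n s| ≤ P.g n s * (2 * rr P.A P.L (n x) + 1 / 2 ^ (P.L / 2) + 4 / R) := by
      intro hn
      rw [abs_le]
      have h1 := V_dn_s h n hs heq hn (hU.lvl x)
      have h2 := V_dn_s' h n hs heq hn (hU.lvl x)
      have h3 : P.g n s * (-(rr P.A P.L (n x) / 2) + 2 / R) ≤ P.g n s * (2 * rr P.A P.L (n x) + 1 / 2 ^ (P.L / 2) + 4 / R) := by
        apply mul_le_mul_of_nonneg_left _ hg.le; linarith
      have h4 : P.g n s * (2 * rr P.A P.L (n x) + 1 / 2 ^ (P.L / 2) + 2 / R) ≤ P.g n s * (2 * rr P.A P.L (n x) + 1 / 2 ^ (P.L / 2) + 4 / R) := by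
        apply mul_le_mul_of_nonneg_left _ hg.le; linarith
      constructor <;> linarith
    refine (gen _ _ a1 a2 (by positivity)).trans ?_
    unfold w
    rw [if_pos heq.le, if_pos heq, if_neg (by omega), add_zero, heq, div_self hms.ne', mul_one]
    have h5 := hep.e1
    have h6 : U x * (rr P.A P.L (n x) + 4 / R) + D x * (2 * rr P.A P.L (n x) + 1 / 2 ^ (P.L / 2) + 4 / R)
        ≤ ep + 2 * P.d * rr P.A P.L (n x) := by
      have h7 : (U x + D x) * (rr P.A P.L (n x) + 4 / R) ≤ P.d * (rr P.A P.L (n x) + 4 / R) :=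
        mul_le_mul_of_nonneg_right hUD (by positivity)
      have h8 : D x * (rr P.A P.L (n x) + 1 / 2 ^ (P.L / 2)) ≤ 1 * (rr P.A P.L (n x) + 1 / 2 ^ (P.L / 2)) :=
        mul_le_mul_of_nonneg_right hD1 (by positivity)
      have h9 : rr P.A P.L (n x) ≤ P.d * rr P.A P.L (n x) := by nlinarith
      linarith
    calc P.K * (U x * (P.g n s * (rr P.A P.L (n x) + 4 / R)) + D x * (P.g n s * (2 * rr P.A P.L (n x) + 1 / 2 ^ (P.L / 2) + 4 / R)))
        = P.K * P.g n s * (U x * (rr P.A P.L (n x) + 4 / R) + D x * (2 * rr P.A P.L (n x) + 1 / 2 ^ (P.L / 2) + 4 / R)) := by ring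
      _ ≤ _ := by gcongr
  · -- later group
    have a1 := V_gt h (nb_up n x) hs (by omega : P.gp x ≠ s)
    have a2 : 1 ≤ n x → |P.V (dn n x) s - P.V n s| ≤ P.g n s * (2 / R) :=
      fun hn => V_gt h (nb_dn hn) hs (by omega : P.gp x ≠ s)
    refine (gen _ _ a1 a2 (by positivity)).trans ?_
    unfold w
    rw [if_neg (by omega), if_neg (by omega), if_neg (by omega), add_zero, add_zero, mul_one]
    have h5 := hep.e1
    have hp : (0 : ℝ) < 1 / 2 ^ (P.L / 2) := by positivity
    have h6 : (U x + D x) * (2 / R) ≤ ep := by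
      calc (U x + D x) * (2 / R) ≤ P.d * (4 / R) := by gcongr; norm_num
        _ ≤ ep := by linarith
    calc P.K * (U x * (P.g n s * (2 / R)) + D x * (P.g n s * (2 / R))) = P.K * P.g n s * ((U x + D x) * (2 / R)) := by ring
      _ ≤ _ := by gcongr

theorem w_sum [Nonempty E] (h : P.OK M R L') {ep : ℝ} (hep : 0 < ep) (n : ι → ℕ) {s : ℕ} (hs : s < M) :
    ∑ x, P.w ep n s x ≤ P.K * P.g n s * (2 * M * ep * P.m s + 4 * P.d * P.rho n s) := by
  have hK0 := h.K0
  have hg := P.g_pos h.hA (n := n) s
  have hms := h.m0 hs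
  have hd0 := h.d0
  have hrho := P.rho_nonneg h.hA (n := n) s
  rw [sum_gp h]
  have key : ∀ i ∈ Finset.range M, (∑ x, if P.gp x = i then P.w ep n s x else 0)
      ≤ P.K * P.g n s * (2 * ep * P.m s + (if i = s then 2 * P.d * P.rho n s else 0)
        + (if i < s then P.nu n s i * (2 * P.d * P.rho n s) else 0)) := by
    intro i hi
    have hiM := Finset.mem_range.mp hi
    have hmi := h.m0 hiM
    have e1 : ∀ x, (if P.gp x = i then P.w ep n s x else 0) = P.K * P.g n s *
        ((if P.gp x = i then (1 : ℝ) else 0) * (ep * (if i ≤ s then P.m s / P.m i else 1))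
          + (if i = s then 2 * P.d * (if P.gp x = i then rr P.A P.L (n x) else 0) else 0)
          + (if i < s then (if P.gp x = i then (1 : ℝ) else 0) * (P.d * P.rho n s * P.nu n s i / P.m i) else 0)) := by
      intro x
      by_cases hx : P.gp x = i
      · unfold w; simp only [hx, if_true]; ring
      · simp [hx]
    rw [Finset.sum_congr rfl (fun x _ => e1 x), ← Finset.mul_sum]
    apply mul_le_mul_of_nonneg_left _ (by positivity)
    rw [Finset.sum_add_distrib, Finset.sum_add_distrib, ← Finset.sum_mul, card2 h hiM]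
    apply add_le_add
    · apply add_le_add
      · split_ifs with h1
        · apply le_of_eq; field_simp
        · have hm2 : P.m i ≤ P.m s := by
            have := h.mR s i (by omega) hiM; have := h.hR; nlinarith
          nlinarith
      · by_cases h1 : i = s
        · simp only [h1, if_true]
          rw [← Finset.mul_sum]; exact le_rfl
        · simp [h1]
    · by_cases h1 : i < s
      · simp only [h1, if_true]
        rw [← Finset.sum_mul, card2 h hiM]
        apply le_of_eq; field_simp
      · simp [h1]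
  refine (Finset.sum_le_sum key).trans ?_
  rw [← Finset.mul_sum]
  apply mul_le_mul_of_nonneg_left _ (by positivity)
  rw [Finset.sum_add_distrib, Finset.sum_add_distrib, Finset.sum_const, Finset.card_range, nsmul_eq_mul,
    Finset.sum_ite_eq', if_pos (Finset.mem_range.mpr hs)]
  have e3 : (∑ i ∈ Finset.range M, if i < s then P.nu n s i * (2 * P.d * P.rho n s) else 0)
      = (∑ i ∈ Finset.range s, P.nu n s i) * (2 * P.d * P.rho n s) := by
    rw [← Finset.sum_filter, Finset.sum_mul]
    apply Finset.sum_congr _ (fun _ _ => rfl)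
    ext i; simp; omega
  rw [e3]
  have h4 := nu_sum_le (P := P) n s
  have h5 : 0 ≤ 2 * P.d * P.rho n s := by positivity
  nlinarith

theorem w_le [Nonempty E] (h : P.OK M R L') {ep : ℝ} (hep : P.Small M R L' ep) (n : ι → ℕ) {s : ℕ} (hs : s < M) (x : ι) :
    P.w ep n s x ≤ 3 * P.d * (P.K * P.g n s) := by
  have hK0 := h.K0
  have hg := P.g_pos h.hA (n := n) s
  have hms := h.m0 hs
  have hd0 := h.d0
  have hd := h.hd
  have hiM := h.gpM x
  have hmi := h.m0 hiM
  have hrho := P.rho_nonneg h.hA (n := n) s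
  have hrho2 := rho_le h n hs
  have hr := rr_nonneg h.hA (L := P.L) (n x)
  have hr1 := rr_le_one h.hA (L := P.L) (n x)
  have h1 := hep.ep1
  have h0 := hep.ep0
  have hR := h.R0
  have hnu := P.nu_nonneg n s (P.gp x)
  unfold w
  rw [mul_comm]
  apply mul_le_mul_of_nonneg_right _ (by positivity)
  rcases lt_trichotomy (P.gp x) s with hlt | heq | hgt
  · rw [if_pos hlt.le, if_neg (by omega), if_pos hlt, add_zero]
    have hm := h.mR _ s hlt hs
    have hnu1 : P.nu n s (P.gp x) ≤ 1 := by
      have := nu_sum_le (P := P) n s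
      have h3 := Finset.single_le_sum (f := fun i => P.nu n s i) (fun i _ => P.nu_nonneg n s i) (Finset.mem_range.mpr hlt)
      linarith
    have hm1 : P.m s / P.m (P.gp x) ≤ 1 := by
      rw [div_le_one hmi]; have := h.hR; nlinarith
    have h4 : P.d * P.rho n s * P.nu n s (P.gp x) / P.m (P.gp x) ≤ 2 * P.d := by
      rw [div_le_iff₀ hmi]
      calc P.d * P.rho n s * P.nu n s (P.gp x) ≤ P.d * (2 * P.m s) * 1 := by gcongr
        _ = 2 * P.d * P.m s := by ring
        _ ≤ _ := by
            apply mul_le_mul_of_nonneg_left _ (by positivity)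
            rw [div_le_one hmi] at hm1; exact hm1
    have h5 : ep * (P.m s / P.m (P.gp x)) ≤ 1 * 1 := by gcongr
    linarith
  · rw [if_pos heq.le, if_pos heq, if_neg (by omega), add_zero, heq, div_self hms.ne', mul_one]
    nlinarith
  · rw [if_neg (by omega), if_neg (by omega), if_neg (by omega)]
    linarith

theorem w_ge [Nonempty E] (h : P.OK M R L') {ep : ℝ} (hep : P.Small M R L' ep) (n : ι → ℕ) {s : ℕ} (hs : s < M) (x : ι) :
    (ep / P.m 0) * (P.K * P.g n s) ≤ P.w ep n s x := by
  have hK0 := h.K0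
  have hg := P.g_pos h.hA (n := n) s
  have hms := h.m0 hs
  have hd0 := h.d0
  have hiM := h.gpM x
  have hmi := h.m0 hiM
  have hrho := P.rho_nonneg h.hA (n := n) s
  have hr := rr_nonneg h.hA (L := P.L) (n x)
  have h0 := hep.ep0
  have hnu := P.nu_nonneg n s (P.gp x)
  have hm00 : 0 < P.m 0 := h.m0 (by omega)
  have hm0 : P.m (P.gp x) ≤ P.m 0 := by
    rcases Nat.eq_zero_or_pos (P.gp x) with h1 | h1
    · rw [h1]
    · have := h.mR 0 _ h1 hiM; have := h.hR; nlinarith
  unfold w
  rw [mul_comm (P.K * P.g n s)]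
  apply mul_le_mul_of_nonneg_right _ (by positivity)
  have a1 : 0 ≤ (if P.gp x = s then 2 * P.d * rr P.A P.L (n x) else 0) := by split_ifs <;> positivity
  have a2 : 0 ≤ (if P.gp x < s then P.d * P.rho n s * P.nu n s (P.gp x) / P.m (P.gp x) else 0) := by
    split_ifs <;> positivity
  have a3 : ep / P.m 0 ≤ ep * (if P.gp x ≤ s then P.m s / P.m (P.gp x) else 1) := by
    have h5 := h.mpos s hs
    have h6 := h.mpos 0 (by omega)
    split_ifs
    · rw [div_eq_mul_one_div]
      apply mul_le_mul_of_nonneg_left _ h0.le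
      rw [div_le_div_iff₀ hm00 hmi]
      nlinarith
    · rw [mul_one]; exact div_le_self h0.le h6
  linarith

/-- Stability of the majorant under one step. -/
theorem w_nb [Nonempty E] (h : P.OK M R L') {ep : ℝ} (hep : P.Small M R L' ep) {n n' : ι → ℕ} {x : ι} (hn : Nb n n' x)
    (hl : n x ≤ P.L + 1) {s : ℕ} (hs : s < M) (y : ι) : P.w ep n' s y ≤ 8 * P.w ep n s y := by
  have hK0 := h.K0
  have hg := P.g_pos h.hA (n := n) s
  have hms := h.m0 hs
  have hd0 := h.d0
  have hR := h.R0
  have hiM := h.gpM y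
  have hmi := h.m0 hiM
  have hrho := P.rho_nonneg h.hA (n := n) s
  have hrho2 := rho_le h n hs
  have hp : (0 : ℝ) < 1 / 2 ^ (P.L / 2) := by positivity
  have hry := rr_nonneg h.hA (L := P.L) (n y)
  have h0 := hep.ep0
  have hnu := P.nu_nonneg n s (P.gp y)
  -- the level ratio at x
  have hrx : rr P.A P.L (n' x) ≤ 4 * rr P.A P.L (n x) + 1 / 2 ^ (P.L / 2) := by
    have hrx0 := rr_nonneg h.hA (L := P.L) (n x)
    rcases hn with rfl | hn2
    · rw [up_self]
      have := rr_succ_le h.hA (L := P.L) (n x); linarith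
    · have e1 : n x = n' x + 1 := by rw [hn2, up_self]
      by_cases h2 : n x ≤ P.L
      · have := rr_le_succ h.hA (L := P.L) (l := n' x) (by omega)
        rw [e1]; linarith
      · have h3 : n' x = P.L := by omega
        rw [h3]
        have := rr_L h.hA (L := P.L)
        linarith
  have hry' : rr P.A P.L (n' y) ≤ 4 * rr P.A P.L (n y) + 1 / 2 ^ (P.L / 2) := by
    by_cases hxy : y = x
    · rw [hxy]; exact hrx
    · have : n' y = n y := by
        rcases hn with rfl | hn2
        · rw [up_ne hxy]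
        · rw [hn2, up_ne hxy]
      rw [this]; linarith
  have hg' : P.g n' s ≤ 2 * P.g n s := by
    by_cases hx : P.gp x = s
    · rcases hn with rfl | hn2
      · rw [P.g_up h.hA, if_pos hx]
        have := rr_le_one h.hA (L := P.L) (n x)
        nlinarith
      · have : P.g n' s ≤ P.g n s := by
          rw [hn2, P.g_up h.hA, if_pos hx]
          have := rr_nonneg h.hA (L := P.L) (n' x)
          have := P.g_pos h.hA (n := n') s
          nlinarith
        linarith
    · rw [g_nb h hn hx]; linarith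
  have hg'0 := P.g_pos h.hA (n := n') s
  -- rho * nu
  have hrn : P.gp y < s → P.rho n' s * P.nu n' s (P.gp y) ≤ 4 * (P.rho n s * P.nu n s (P.gp y)) + 1 / 2 ^ (P.L / 2) + 16 * P.m s / L' := by
    intro hy
    have hnu1 : ∀ n, P.nu n s (P.gp y) ≤ 1 := by
      intro n
      have := nu_sum_le (P := P) n s
      have h3 := Finset.single_le_sum (f := fun i => P.nu n s i) (fun i _ => P.nu_nonneg n s i) (Finset.mem_range.mpr hy)
      linarith
    have hL := h.L0
    have h16 : 0 ≤ 16 * P.m s / (L' : ℝ) := by positivity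
    by_cases hx : P.gp x = s
    · rw [nu_nb hn (le_of_eq hx.symm) hy]
      have hr' : P.rho n' s ≤ 4 * P.rho n s + 1 / 2 ^ (P.L / 2) := by
        have e1 : P.rho n' s = P.rho n s + (rr P.A P.L (n' x) - rr P.A P.L (n x)) := by
          rcases hn with rfl | hn2
          · rw [P.rho_up, if_pos hx, up_self]
          · have e2 : n x = n' x + 1 := by rw [hn2, up_self]
            have e3 := P.rho_up n' x s
            rw [← hn2, if_pos hx] at e3
            rw [e2]; linarith
        have h4 : rr P.A P.L (n x) ≤ P.rho n s := by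
          unfold rho
          have h5 := Finset.single_le_sum (f := fun z => if P.gp z = s then rr P.A P.L (n z) else 0)
            (fun z _ => by
              show 0 ≤ (if P.gp z = s then rr P.A P.L (n z) else 0)
              split_ifs
              · exact rr_nonneg h.hA _
              · exact le_rfl) (Finset.mem_univ x)
          simp only [hx, if_true] at h5
          exact h5
        linarith
      have h6 := mul_le_mul_of_nonneg_right hr' hnu
      have h7 : 1 / 2 ^ (P.L / 2) * P.nu n s (P.gp y) ≤ 1 / 2 ^ (P.L / 2) * 1 := by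
        apply mul_le_mul_of_nonneg_left (hnu1 n) hp.le
      linarith
    · rw [rho_nb hn hx]
      have h6 : P.nu n' s (P.gp y) ≤ P.nu n s (P.gp y) + 8 / L' := by
        have h7 := nu_diff h hn s
        have h8 := Finset.single_le_sum (f := fun j => |P.nu n' s j - P.nu n s j|) (fun i _ => abs_nonneg _) (Finset.mem_range.mpr hy)
        have h9 : 8 / (P.tau (P.gp x) : ℝ) ≤ 8 / L' := by
          rw [h.tau _ (h.gpM x)]
          apply div_le_div_of_nonneg_left (by norm_num) hL
          have := h.mpos _ (h.gpM x)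
          nlinarith
        have := (abs_le.mp (h8.trans (h7.trans h9))).2
        linarith
      have h10 := mul_le_mul_of_nonneg_left h6 hrho
      have h11 : P.rho n s * (8 / L') ≤ (2 * P.m s) * (8 / L') := by gcongr
      have h12 : 0 ≤ P.rho n s * P.nu n s (P.gp y) := mul_nonneg hrho hnu
      have h13 : (2 * P.m s) * (8 / (L' : ℝ)) = 16 * P.m s / L' := by ring
      linarith
  -- assemble
  set B := ep * (if P.gp y ≤ s then P.m s / P.m (P.gp y) else 1) with hB
  have hB0 : 0 ≤ B := base_nonneg h h0 hs y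
  have key : B + (if P.gp y = s then 2 * P.d * rr P.A P.L (n' y) else 0)
      + (if P.gp y < s then P.d * P.rho n' s * P.nu n' s (P.gp y) / P.m (P.gp y) else 0)
      ≤ 4 * (B + (if P.gp y = s then 2 * P.d * rr P.A P.L (n y) else 0)
      + (if P.gp y < s then P.d * P.rho n s * P.nu n s (P.gp y) / P.m (P.gp y) else 0)) := by
    rcases lt_trichotomy (P.gp y) s with hlt | heq | hgt
    · have hne : ¬ (P.gp y = s) := by omega
      simp only [hne, hlt, if_true, if_false, add_zero]
      have h1 := hrn hlt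
      have h2 : P.d * P.rho n' s * P.nu n' s (P.gp y) / P.m (P.gp y)
          ≤ 4 * (P.d * P.rho n s * P.nu n s (P.gp y) / P.m (P.gp y)) + P.d * (1 / 2 ^ (P.L / 2) + 16 * P.m s / L') / P.m (P.gp y) := by
        rw [← mul_div_assoc, ← add_div]
        apply div_le_div_of_nonneg_right _ hmi.le
        nlinarith
      have h3 : P.d * (1 / 2 ^ (P.L / 2) + 16 * P.m s / L') / P.m (P.gp y) ≤ 3 * B := by
        rw [hB, if_pos hlt.le]
        have e4 := hep.e4
        have e3 := hep.e3
        have h5 := h.mpos s hs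
        rw [div_le_iff₀ hmi]
        have : 3 * (ep * (P.m s / P.m (P.gp y))) * P.m (P.gp y) = 3 * ep * P.m s := by field_simp
        rw [this]
        have h6 : P.d * (16 * P.m s / L') ≤ ep * P.m s := by
          have : P.d * (16 * P.m s / L') = P.d * (16 / L') * P.m s := by ring
          rw [this]; gcongr
        have h7 : P.d * (1 / 2 ^ (P.L / 2)) ≤ ep * P.m s := by
          have : ep ≤ ep * P.m s := by nlinarith
          nlinarith
        have h8 : 0 ≤ ep * P.m s := by positivity
        linarith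
      linarith
    · have hne : ¬ (P.gp y < s) := by omega
      simp only [heq, hne, if_true, lt_irrefl, if_false, add_zero]
      have h3 : ep ≤ B := by rw [hB, if_pos heq.le, heq, div_self hms.ne', mul_one]
      have e3 := hep.e3
      have h4 := mul_le_mul_of_nonneg_left hry' (by positivity : 0 ≤ 2 * P.d)
      linarith
    · have hne : ¬ (P.gp y < s) := by omega
      have hne2 : ¬ (P.gp y = s) := by omega
      simp only [hne, hne2, if_false, add_zero]
      linarith
  unfold w
  rw [← hB]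
  calc P.K * P.g n' s * (B + (if P.gp y = s then 2 * P.d * rr P.A P.L (n' y) else 0)
      + (if P.gp y < s then P.d * P.rho n' s * P.nu n' s (P.gp y) / P.m (P.gp y) else 0))
      ≤ P.K * (2 * P.g n s) * (4 * (B + (if P.gp y = s then 2 * P.d * rr P.A P.L (n y) else 0)
      + (if P.gp y < s then P.d * P.rho n s * P.nu n s (P.gp y) / P.m (P.gp y) else 0))) := by
        have a1 : 0 ≤ (if P.gp y = s then 2 * P.d * rr P.A P.L (n y) else 0) := by split_ifs <;> positivity
        have a2 : 0 ≤ (if P.gp y < s then P.d * P.rho n s * P.nu n s (P.gp y) / P.m (P.gp y) else 0) := by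
          split_ifs <;> positivity
        apply mul_le_mul _ key _ (by positivity)
        · gcongr
        · have hry0 := rr_nonneg h.hA (L := P.L) (n' y)
          have hrho0 := P.rho_nonneg h.hA (n := n') s
          have hnu0 := P.nu_nonneg n' s (P.gp y)
          have b1 : 0 ≤ (if P.gp y = s then 2 * P.d * rr P.A P.L (n' y) else 0) := by split_ifs <;> positivity
          have b2 : 0 ≤ (if P.gp y < s then P.d * P.rho n' s * P.nu n' s (P.gp y) / P.m (P.gp y) else 0) := by
            split_ifs <;> positivity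
          positivity
    _ = _ := by ring

end RP

end Pool.Agent.H984
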