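import Mathlib

/-!
H984: the notions of MP_50f558_pr.
-/

set_option autoImplicit false

open Classical

namespace Pool.Agent.H984

/-- Transition matrix of the lazy simple random walk: `P(x,x) = 1/2` and `P(x,y) = 1/(2 deg x)` for `y ~ x`. -/
noncomputable def lazyWalk {V : Type} [Fintype V] (G : SimpleGraph V) : Matrix V V ℝ :=
  Matrix.of fun x y => (if x = y then 1 / 2 else 0) + (if G.Adj x y then 1 / (2 * (G.degree x : ℝ)) else 0)

/-- The stationary law `π(x) = deg x / (2 |E|)`. -/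
noncomputable def statLaw {V : Type} [Fintype V] (G : SimpleGraph V) (x : V) : ℝ :=
  (G.degree x : ℝ) / (2 * (G.edgeFinset.card : ℝ))

/-- `max_{x,y} |P^t(x,y)/π(y) - 1| ≤ 1/4`. -/
def Mixed {V : Type} [Fintype V] (G : SimpleGraph V) (t : ℕ) : Prop :=
  ∀ x y : V, |(lazyWalk G ^ t) x y / statLaw G y - 1| ≤ 1 / 4

/-- The uniform mixing time. -/
noncomputable def tInf {V : Type} [Fintype V] (G : SimpleGraph V) : ℕ := sInf {t : ℕ | Mixed G t}

/-- `f` is an `(a,b)`-quasi-isometry from `G` to `G'`. -/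
def IsQI {V V' : Type} (a b : ℝ) (G : SimpleGraph V) (G' : SimpleGraph V') (f : V → V') : Prop :=
  (∀ x y : V, a⁻¹ * (G.dist x y : ℝ) - b ≤ (G'.dist (f x) (f y) : ℝ) ∧
    (G'.dist (f x) (f y) : ℝ) ≤ a * (G.dist x y : ℝ) + b) ∧
  ∀ z : V', ∃ x : V, (G'.dist z (f x) : ℝ) ≤ b

/-- Vertex-transitivity. -/
def VertexTransitive {V : Type} (G : SimpleGraph V) : Prop := ∀ x y : V, ∃ φ : G ≃g G, φ x = y

end Pool.Agent.H984
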