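import Pool.Graph.R_seed8.Y171.CE.Top

/-!
H984: reduced words in the matrices `1 + X N` over `F_p[X]`.
-/

set_option autoImplicit false

open Polynomial Matrix
open Pool.Agent.Y171.CE

namespace Pool.Agent.H984

variable {p : ℕ} [Fact p.Prime]

/-- Coefficient matrix. -/
noncomputable def Cf (γ : SL2 (ZMod p)[X]) (m : ℕ) : Matrix (Fin 2) (Fin 2) (ZMod p) := fun i j => (γ.1 i j).coeff m

/-- The matrix of a nilpotent element. -/
def Nm (N : NilT p) : Matrix (Fin 2) (Fin 2) (ZMod p) := !![N.1.1, N.1.2.1; N.1.2.2, -N.1.1]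

/-- Scaling. -/
def nsm (c : ZMod p) (N : NilT p) : NilT p :=
  ⟨(c * N.1.1, c * N.1.2.1, c * N.1.2.2), by
    have := N.2
    show c * N.1.1 * (c * N.1.1) + c * N.1.2.1 * (c * N.1.2.2) = 0
    linear_combination c ^ 2 * this⟩

/-- The zero element. -/
def n0 : NilT p := ⟨(0, 0, 0), by simp⟩

theorem Nm_inj {N N' : NilT p} (h : Nm N = Nm N') : N = N' := by
  have h1 := congrFun (congrFun h 0) 0
  have h2 := congrFun (congrFun h 0) 1
  have h3 := congrFun (congrFun h 1) 0
  simp [Nm] at h1 h2 h3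
  apply Subtype.ext
  exact Prod.ext h1 (Prod.ext h2 h3)

theorem Nm_nsm (c : ZMod p) (N : NilT p) : Nm (nsm c N) = c • Nm N := by
  ext i j
  fin_cases i <;> fin_cases j <;> simp [Nm, nsm]

theorem Nm_n0 : Nm (n0 : NilT p) = 0 := by
  ext i j
  fin_cases i <;> fin_cases j <;> simp [Nm, n0]

theorem Nm_sq (N : NilT p) : Nm N * Nm N = 0 := by
  have h := N.2
  ext i j
  fin_cases i <;> fin_cases j <;> simp [Nm, Matrix.mul_apply, Fin.sum_univ_two]
  · exact h
  · ring
  · ring
  · linear_combination h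

/-- Matrix form of `st`. -/
theorem st_mat {R : Type} [CommRing R] [Algebra (ZMod p) R] (x : R) (N : NilT p) :
    (st x N).1 = 1 + x • (Nm N).map (algebraMap (ZMod p) R) := by
  ext i j
  fin_cases i <;> fin_cases j <;> simp [st, Nm] <;> ring

theorem mat_mul_sq {R : Type} [CommRing R] [Algebra (ZMod p) R] (N : NilT p) (c : ZMod p) :
    (Nm N).map (algebraMap (ZMod p) R) * (Nm (nsm c N)).map (algebraMap (ZMod p) R) = 0 := by
  rw [← Matrix.map_mul, Nm_nsm, Matrix.mul_smul, Nm_sq, smul_zero]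
  ext i j; simp

theorem st_mul_nsm {R : Type} [CommRing R] [Algebra (ZMod p) R] (x : R) (N : NilT p) (c : ZMod p) :
    st x N * st x (nsm c N) = st x (nsm (1 + c) N) := by
  apply Subtype.ext
  show (st x N).1 * (st x (nsm c N)).1 = (st x (nsm (1 + c) N)).1
  rw [st_mat, st_mat, st_mat, add_mul, mul_add, mul_add, smul_mul_smul_comm, mat_mul_sq, smul_zero, Nm_nsm, Nm_nsm]
  ext i j
  simp
  ring

theorem st_n0 {R : Type} [CommRing R] [Algebra (ZMod p) R] (x : R) : st x (n0 : NilT p) = 1 := by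
  apply Subtype.ext
  show (st x (n0 : NilT p)).1 = 1
  rw [st_mat, Nm_n0]; ext i j; simp

theorem nsm_zero (N : NilT p) : nsm 0 N = n0 := by
  apply Subtype.ext; simp [nsm, n0]

theorem nsm_one (N : NilT p) : nsm 1 N = N := by
  apply Subtype.ext; simp [nsm]

/-- Inverse step. -/
theorem st_inv {R : Type} [CommRing R] [Algebra (ZMod p) R] (x : R) (N : NilT p) : (st x N)⁻¹ = st x (nsm (-1) N) := by
  apply inv_eq_of_mul_eq_one_right
  rw [st_mul_nsm]
  have : (1 : ZMod p) + -1 = 0 := by ring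
  rw [this, nsm_zero, st_n0]

theorem pw_append {R : Type} [CommRing R] [Algebra (ZMod p) R] (x : R) (l l' : List (NilT p)) :
    pw x (l ++ l') = pw x l * pw x l' := by
  unfold pw; rw [List.map_append, List.prod_append]

theorem pw_single {R : Type} [CommRing R] [Algebra (ZMod p) R] (x : R) (N : NilT p) : pw x [N] = st x N := by
  unfold pw; simp

theorem pw_nil {R : Type} [CommRing R] [Algebra (ZMod p) R] (x : R) : pw x ([] : List (NilT p)) = 1 := by
  unfold pw; simp

/-- The inverse word. -/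
def negl (l : List (NilT p)) : List (NilT p) := (l.map (nsm (-1))).reverse

theorem negl_length (l : List (NilT p)) : (negl l).length = l.length := by unfold negl; simp

theorem pw_negl {R : Type} [CommRing R] [Algebra (ZMod p) R] (x : R) (l : List (NilT p)) : pw x (negl l) = (pw x l)⁻¹ := by
  induction l with
  | nil => unfold negl pw; simp
  | cons a l ih =>
    have h1 : negl (a :: l) = negl l ++ [nsm (-1) a] := by unfold negl; simp
    have h2 : pw x (a :: l) = st x a * pw x l := by unfold pw; simp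
    rw [h1, pw_append, pw_single, ih, h2, _root_.mul_inv_rev, st_inv]

/-! ### Degrees -/

theorem dg_le_iff (γ : SL2 (ZMod p)[X]) (m : ℕ) : dg γ ≤ m ↔ ∀ i j, (γ.1 i j).natDegree ≤ m := by
  unfold dg
  simp only [Finset.sup_le_iff, Finset.mem_univ, true_implies]

theorem Cf_zero_of_gt {γ : SL2 (ZMod p)[X]} {m : ℕ} (h : dg γ < m) : Cf γ m = 0 := by
  ext i j
  have h1 : (γ.1 i j).natDegree ≤ dg γ := (dg_le_iff γ (dg γ)).mp le_rfl i j
  exact Polynomial.coeff_eq_zero_of_natDegree_lt (by omega)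

theorem le_dg_of_Cf {γ : SL2 (ZMod p)[X]} {m : ℕ} (h : Cf γ m ≠ 0) : m ≤ dg γ := by
  by_contra hc
  exact h (Cf_zero_of_gt (by omega))

theorem det_Cf0 (γ : SL2 (ZMod p)[X]) : (Cf γ 0).det = 1 := by
  have h := γ.2
  rw [Matrix.det_fin_two] at h ⊢
  have h2 := congrArg (fun q : (ZMod p)[X] => q.coeff 0) h
  simp only [Polynomial.coeff_sub, Polynomial.mul_coeff_zero, Polynomial.coeff_one_zero] at h2
  exact h2

/-- The leading coefficient matrix is nonzero. -/
theorem Cf_dg_ne (γ : SL2 (ZMod p)[X]) : Cf γ (dg γ) ≠ 0 := by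
  intro h
  rcases Nat.eq_zero_or_pos (dg γ) with h0 | h0
  · rw [h0] at h
    have := det_Cf0 γ
    rw [h] at this
    simp at this
  · have h2 : dg γ ≤ dg γ - 1 := by
      rw [dg_le_iff]
      intro i j
      have h3 : (γ.1 i j).natDegree ≤ dg γ := (dg_le_iff γ (dg γ)).mp le_rfl i j
      by_contra hc
      have h4 : (γ.1 i j).natDegree = dg γ := by omega
      have h5 := congrFun (congrFun h i) j
      unfold Cf at h5
      rw [← h4] at h5
      simp only [Matrix.zero_apply] at h5
      have h6 : (γ.1 i j) = 0 := Polynomial.leadingCoeff_eq_zero.mp h5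
      rw [h6] at h4
      simp at h4
      omega
    omega

/-- Coefficients of a product with one step. -/
theorem Cf_step (γ : SL2 (ZMod p)[X]) (N : NilT p) (m : ℕ) :
    Cf (γ * st (X : (ZMod p)[X]) N) (m + 1) = Cf γ (m + 1) + Cf γ m * Nm N := by
  ext i j
  unfold Cf
  show ((γ.1 * (st (X : (ZMod p)[X]) N).1) i j).coeff (m + 1) = _
  rw [st_mat, mul_add, mul_one, Matrix.mul_smul]
  simp only [Matrix.add_apply, Matrix.smul_apply, smul_eq_mul, Polynomial.coeff_add, Polynomial.coeff_X_mul]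
  congr 1
  simp only [Matrix.mul_apply, Fin.sum_univ_two, Matrix.map_apply, Polynomial.algebraMap_eq, Polynomial.coeff_add,
    Polynomial.coeff_mul_C]

/-- A nonzero matrix kills only a line of nilpotent matrices. -/
theorem line {C : Matrix (Fin 2) (Fin 2) (ZMod p)} (hC : C ≠ 0) :
    ∃ N0 : NilT p, ∀ N : NilT p, C * Nm N = 0 → ∃ t, N = nsm t N0 := by
  obtain ⟨i, j, hij⟩ : ∃ i j, C i j ≠ 0 := by
    by_contra hc
    push Not at hc
    exact hC (by ext i j; exact hc i j)
  set r1 := C i 0 with hr1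
  set r2 := C i 1 with hr2
  have hne : r1 ≠ 0 ∨ r2 ≠ 0 := by
    fin_cases j
    · exact Or.inl hij
    · exact Or.inr hij
  refine ⟨⟨(-(r1 * r2), -(r2 * r2), r1 * r1), by show -(r1 * r2) * -(r1 * r2) + -(r2 * r2) * (r1 * r1) = 0; ring⟩, fun N hN => ?_⟩
  have e1 := congrFun (congrFun hN i) 0
  have e2 := congrFun (congrFun hN i) 1
  simp [Matrix.mul_apply, Fin.sum_univ_two, Nm] at e1 e2
  rw [← hr1, ← hr2] at e1 e2
  by_cases h1 : r1 = 0
  · have h2 : r2 ≠ 0 := hne.resolve_left (fun h => h h1)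
    rw [h1] at e1 e2
    simp at e1 e2
    have hc : N.1.2.2 = 0 := e1.resolve_left h2
    have ha : N.1.1 = 0 := e2.resolve_left h2
    refine ⟨-(N.1.2.1 / (r2 * r2)), ?_⟩
    apply Subtype.ext
    simp only [nsm]
    rw [h1]
    refine Prod.ext ?_ (Prod.ext ?_ ?_)
    · simp [ha]
    · simp only; field_simp
    · simp [hc]
  · refine ⟨N.1.2.2 / (r1 * r1), ?_⟩
    have ha : N.1.1 = -(r2 * N.1.2.2) / r1 := by
      rw [eq_div_iff h1]; linear_combination e1
    have hb : N.1.2.1 = r2 * N.1.1 / r1 := by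
      rw [eq_div_iff h1]; linear_combination e2
    apply Subtype.ext
    simp only [nsm]
    refine Prod.ext ?_ (Prod.ext ?_ ?_)
    · simp only; rw [ha]; field_simp
    · simp only; rw [hb, ha]; field_simp
    · simp only; field_simp

end Pool.Agent.H984
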