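import Pool.Agent.H984.Tree1

/-!
H984: reduction of words, and uniqueness of the way down.
-/

set_option autoImplicit false

open Polynomial Matrix
open Pool.Agent.Y171.CE

namespace Pool.Agent.H984

variable {p : ℕ} [Fact p.Prime]

/-- The element of a word. -/
noncomputable def W (l : List (NilT p)) : SL2 (ZMod p)[X] := pw (X : (ZMod p)[X]) l

/-- A word is reduced if its degree is its length. -/
def Red (l : List (NilT p)) : Prop := dg (W l) = l.length

theorem dgs : S_DG := Pool.Agent.Y495.CE.dgs

theorem dg_W_le (l : List (NilT p)) : dg (W l) ≤ l.length := (dgs p).2.2.2 l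

theorem dg_step_le (γ : SL2 (ZMod p)[X]) (N : NilT p) : dg (γ * st (X : (ZMod p)[X]) N) ≤ dg γ + 1 := (dgs p).2.1 N γ

theorem W_append_single (l : List (NilT p)) (N : NilT p) : W (l ++ [N]) = W l * st (X : (ZMod p)[X]) N := by
  unfold W; rw [pw_append, pw_single]

theorem Cf_one : Cf (1 : SL2 (ZMod p)[X]) 0 = 1 := by
  ext i j
  unfold Cf
  show ((1 : Matrix (Fin 2) (Fin 2) (ZMod p)[X]) i j).coeff 0 = _
  fin_cases i <;> fin_cases j <;> simp

/-- If the leading matrix is not killed, the extended word is reduced. -/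
theorem red_up {l : List (NilT p)} (h : Red l) {N : NilT p} (hN : Cf (W l) l.length * Nm N ≠ 0) : Red (l ++ [N]) := by
  unfold Red
  rw [W_append_single, List.length_append, List.length_singleton]
  apply le_antisymm
  · have := dg_step_le (W l) N; rw [h] at this; exact this
  · apply le_dg_of_Cf
    rw [Cf_step, Cf_zero_of_gt (by rw [h]; omega), zero_add]
    exact hN

/-- A nonempty reduced word: the word without its last letter is reduced, and the leading matrix. -/
theorem red_prefix {l1 : List (NilT p)} {N1 : NilT p} (h : Red (l1 ++ [N1])) :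
    Red l1 ∧ Cf (W (l1 ++ [N1])) (l1.length + 1) = Cf (W l1) l1.length * Nm N1 := by
  have h1 : Red l1 := by
    unfold Red at h ⊢
    rw [W_append_single, List.length_append, List.length_singleton] at h
    have h2 := dg_step_le (W l1) N1
    have h3 := dg_W_le l1
    omega
  refine ⟨h1, ?_⟩
  rw [W_append_single, Cf_step, Cf_zero_of_gt (by rw [h1]; omega), zero_add]

/-- Appending a step to a reduced word gives an element with a reduced word. -/
theorem red_ext {l : List (NilT p)} (h : Red l) (N : NilT p) : ∃ l', W l' = W (l ++ [N]) ∧ Red l' := by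
  by_cases hN : Cf (W l) l.length * Nm N = 0
  · obtain hl | ⟨l1, N1, hl⟩ : l = [] ∨ ∃ l1 N1, l = l1 ++ [N1] := by
      induction l using List.reverseRecOn with
      | nil => exact Or.inl rfl
      | append_singleton l1 N1 _ => exact Or.inr ⟨l1, N1, rfl⟩
    · -- empty word
      subst hl
      have h2 : Cf (W ([] : List (NilT p))) 0 = 1 := by
        have : W ([] : List (NilT p)) = 1 := pw_nil _
        rw [this, Cf_one]
      simp only [List.length_nil] at hN
      rw [h2, one_mul] at hN
      have h3 : N = n0 := Nm_inj (by rw [hN, Nm_n0])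
      refine ⟨[], ?_, h⟩
      rw [W_append_single, h3, st_n0, mul_one]
    · subst hl
      obtain ⟨h1, h2⟩ := red_prefix h
      rw [List.length_append, List.length_singleton] at hN
      have hlead : Cf (W (l1 ++ [N1])) (l1.length + 1) ≠ 0 := by
        have := Cf_dg_ne (W (l1 ++ [N1]))
        rw [h, List.length_append, List.length_singleton] at this
        exact this
      obtain ⟨N0, hN0⟩ := line hlead
      obtain ⟨t, ht⟩ := hN0 N hN
      obtain ⟨t1, ht1⟩ := hN0 N1 (by rw [h2, mul_assoc, Nm_sq, mul_zero])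
      have ht1' : t1 ≠ 0 := by
        intro h0
        rw [h0, nsm_zero] at ht1
        rw [h2, ht1, Nm_n0, mul_zero] at hlead
        exact hlead rfl
      have hNc : N = nsm (t / t1) N1 := by
        rw [ht, ht1]
        apply Subtype.ext
        simp only [nsm]
        refine Prod.ext ?_ (Prod.ext ?_ ?_) <;> simp only <;> field_simp
      have hW : W (l1 ++ [N1] ++ [N]) = W (l1 ++ [nsm (1 + t / t1) N1]) := by
        rw [W_append_single, W_append_single, W_append_single, mul_assoc, hNc, st_mul_nsm]
      by_cases hc : 1 + t / t1 = 0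
      · refine ⟨l1, ?_, h1⟩
        rw [hW, hc, nsm_zero, W_append_single, st_n0, mul_one]
      · refine ⟨l1 ++ [nsm (1 + t / t1) N1], hW.symm, ?_⟩
        apply red_up h1
        rw [Nm_nsm, Matrix.mul_smul, ← h2]
        exact smul_ne_zero hc hlead
  · exact ⟨l ++ [N], rfl, red_up h hN⟩

theorem red_nil : Red ([] : List (NilT p)) := by
  unfold Red
  have := dg_W_le ([] : List (NilT p))
  simpa using this

/-- Every element of the monoid has a reduced word. -/
theorem exists_red (l : List (NilT p)) : ∃ l', W l' = W l ∧ Red l' := by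
  induction l using List.reverseRecOn with
  | nil => exact ⟨[], rfl, red_nil⟩
  | append_singleton l N ih =>
    obtain ⟨l1, h1, h2⟩ := ih
    obtain ⟨l2, h3, h4⟩ := red_ext h2 N
    refine ⟨l2, ?_, h4⟩
    rw [h3, W_append_single, W_append_single, h1]

/-- At most `p` nilpotents are killed. -/
theorem kill_card {C : Matrix (Fin 2) (Fin 2) (ZMod p)} (hC : C ≠ 0) :
    (Finset.univ.filter (fun N : NilT p => C * Nm N = 0)).card ≤ p := by
  obtain ⟨N0, hN0⟩ := line hC
  have hsub : Finset.univ.filter (fun N : NilT p => C * Nm N = 0) ⊆ (Finset.univ : Finset (ZMod p)).image (fun t => nsm t N0) := by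
    intro N hN
    obtain ⟨t, ht⟩ := hN0 N (Finset.mem_filter.mp hN).2
    exact Finset.mem_image.mpr ⟨t, Finset.mem_univ _, ht.symm⟩
  calc _ ≤ _ := Finset.card_le_card hsub
    _ ≤ (Finset.univ : Finset (ZMod p)).card := Finset.card_image_le
    _ = p := by rw [Finset.card_univ, ZMod.card]

/-- The way down is unique. -/
theorem down_unique {γ : SL2 (ZMod p)[X]} {m : ℕ} (hm : dg γ = m + 1) {N N' : NilT p}
    (h : dg (γ * st (X : (ZMod p)[X]) N) ≤ m) (h' : dg (γ * st (X : (ZMod p)[X]) N') ≤ m) : N = N' := by
  have hlead : Cf γ (m + 1) ≠ 0 := by rw [← hm]; exact Cf_dg_ne γ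
  have top : ∀ N, dg (γ * st (X : (ZMod p)[X]) N) ≤ m → Cf γ (m + 1) * Nm N = 0 ∧ Cf γ (m + 1) + Cf γ m * Nm N = 0 := by
    intro N h
    constructor
    · have h1 := Cf_step γ N (m + 1)
      rw [Cf_zero_of_gt (by omega), Cf_zero_of_gt (γ := γ) (by omega), zero_add] at h1
      exact h1.symm
    · have h1 := Cf_step γ N m
      rw [Cf_zero_of_gt (by omega)] at h1
      exact h1.symm
  obtain ⟨N0, hN0⟩ := line hlead
  obtain ⟨a1, a2⟩ := top N h
  obtain ⟨b1, b2⟩ := top N' h'
  obtain ⟨t, ht⟩ := hN0 N a1
  obtain ⟨t', ht'⟩ := hN0 N' b1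
  by_cases htt : t = t'
  · rw [ht, ht', htt]
  · exfalso
    rw [ht, Nm_nsm, Matrix.mul_smul] at a2
    rw [ht', Nm_nsm, Matrix.mul_smul] at b2
    have h3 : (t - t') • (Cf γ m * Nm N0) = 0 := by
      rw [sub_smul]
      have : t • (Cf γ m * Nm N0) = t' • (Cf γ m * Nm N0) := add_left_cancel (a2.trans b2.symm)
      rw [this, sub_self]
    have h4 : Cf γ m * Nm N0 = 0 := by
      rcases smul_eq_zero.mp h3 with h5 | h5
      · exact absurd (sub_eq_zero.mp h5) htt
      · exact h5
    rw [h4, smul_zero, add_zero] at a2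
    exact hlead a2

end Pool.Agent.H984
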