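import Pool.Agent.H984.Tree2
import Pool.Agent.H984.Corr

/-!
H984: the level function on `SL_2(F)`, and the lamp group.
-/

set_option autoImplicit false

open Polynomial Matrix
open Pool.Agent.Y171.CE

namespace Pool.Agent.H984

variable {p : ℕ} [Fact p.Prime]
variable {F : Type} [Field F] [Fintype F] [DecidableEq F] [Algebra (ZMod p) F]

/-- Reduction. -/
noncomputable def red (x : F) : SL2 (ZMod p)[X] →* SL2 F :=
  Matrix.SpecialLinearGroup.map (aeval x : (ZMod p)[X] →ₐ[ZMod p] F).toRingHom

theorem red_apply (x : F) (γ : SL2 (ZMod p)[X]) (i j : Fin 2) : (red x γ).1 i j = aeval x (γ.1 i j) := rfl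

theorem red_st (x : F) (N : NilT p) : red x (st (X : (ZMod p)[X]) N) = st x N := by
  apply Subtype.ext
  ext i j
  rw [red_apply]
  unfold st
  fin_cases i <;> fin_cases j <;> simp <;> ring

theorem red_W (x : F) (l : List (NilT p)) : red x (W l) = pw x l := by
  unfold W
  induction l with
  | nil => rw [pw_nil, pw_nil, map_one]
  | cons a l ih =>
    have h1 : pw (X : (ZMod p)[X]) (a :: l) = st X a * pw X l := by unfold pw; simp
    have h2 : pw x (a :: l) = st x a * pw x l := by unfold pw; simp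
    rw [h1, h2, map_mul, red_st, ih]

/-- Short words with equal reduction have equal lifts. -/
theorem lift_unique {k : ℕ} {x : F} (hx : Good p k F x) {l l' : List (NilT p)} (hl : l.length + l'.length < k)
    (h : pw x l = pw x l') : W l = W l' := by
  obtain ⟨f, hf, hdvd⟩ := hx.poly
  have hcnt := (Pool.Agent.Y542.CE.cnt Pool.Agent.Y50.CE.ndiv p f k hf hx.one_le (l.length + l'.length)).1 hl
  have h1 : W (negl l ++ l') ∈ cng f (l.length + l'.length) := by
    refine ⟨?_, ?_⟩
    · have := dg_W_le (negl l ++ l')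
      rw [List.length_append, negl_length] at this
      exact this
    · intro i j
      rw [← hdvd, map_sub, ← red_apply, red_W, pw_append, pw_negl, h, inv_mul_cancel]
      have h2 : aeval x ((1 : Matrix (Fin 2) (Fin 2) (ZMod p)[X]) i j) = (1 : Matrix (Fin 2) (Fin 2) F) i j := by
        fin_cases i <;> fin_cases j <;> simp
      rw [h2]
      show (1 : Matrix (Fin 2) (Fin 2) F) i j - (1 : Matrix (Fin 2) (Fin 2) F) i j = 0
      exact sub_self _
  have h3 := hcnt _ h1
  unfold W at h3 ⊢
  rw [pw_append, pw_negl] at h3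
  exact (inv_mul_eq_one.mp h3)

/-- The level: word length, capped at `L + 1`. -/
noncomputable def lv2 (p : ℕ) [Fact p.Prime] {F : Type} [Field F] [Fintype F] [DecidableEq F] [Algebra (ZMod p) F]
    (x : F) (L : ℕ) (h : SL2 F) : ℕ :=
  sInf ({n | ∃ l : List (NilT p), l.length = n ∧ pw x l = h} ∪ {L + 1})

theorem lv2_top (x : F) (L : ℕ) (h : SL2 F) : lv2 p x L h ≤ L + 1 := Nat.sInf_le (Or.inr rfl)

theorem lv2_le (x : F) (L : ℕ) (l : List (NilT p)) : lv2 p x L (pw x l) ≤ l.length := Nat.sInf_le (Or.inl ⟨l, rfl, rfl⟩)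

theorem lv2_word {x : F} {L : ℕ} {h : SL2 F} (hl : lv2 p x L h ≤ L) :
    ∃ l : List (NilT p), l.length = lv2 p x L h ∧ pw x l = h := by
  have hne : ({n | ∃ l : List (NilT p), l.length = n ∧ pw x l = h} ∪ {L + 1}).Nonempty := ⟨L + 1, Or.inr rfl⟩
  rcases Nat.sInf_mem hne with h1 | h1
  · exact h1
  · exfalso
    have : lv2 p x L h = L + 1 := h1
    omega

/-- Words realizing the level are reduced, after a change. -/
theorem lv2_red {x : F} {L : ℕ} {h : SL2 F} (hl : lv2 p x L h ≤ L) :
    ∃ l : List (NilT p), l.length = lv2 p x L h ∧ pw x l = h ∧ Red l := by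
  obtain ⟨l, h1, h2⟩ := lv2_word hl
  obtain ⟨l', h3, h4⟩ := exists_red l
  have h5 : pw x l' = h := by rw [← red_W, h3, red_W, h2]
  have h6 : l'.length ≤ l.length := by
    have : dg (W l') = l'.length := h4
    rw [h3] at this
    have := dg_W_le l
    omega
  have h7 := lv2_le (p := p) x L l'
  rw [h5] at h7
  exact ⟨l', by omega, h5, h4⟩

theorem lv2_step (x : F) (L : ℕ) (h : SL2 F) (N : NilT p) : lv2 p x L (h * st x N) ≤ lv2 p x L h + 1 := by
  by_cases hl : lv2 p x L h ≤ L
  · obtain ⟨l, h1, h2⟩ := lv2_word hl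
    have h3 := lv2_le (p := p) x L (l ++ [N])
    rw [pw_append, pw_single, h2, List.length_append, List.length_singleton] at h3
    omega
  · have := lv2_top (p := p) x L (h * st x N)
    omega

theorem lv2_one (x : F) (L : ℕ) : lv2 p x L (1 : SL2 F) = 0 := by
  have := lv2_le (p := p) x L []
  rw [pw_nil] at this
  simpa using this

theorem lv2_up {k : ℕ} {x : F} (hx : Good p k F x) {L : ℕ} (hL : 2 * L + 2 < k) {h : SL2 F} {l : List (NilT p)}
    (h1 : l.length = lv2 p x L h) (h2 : pw x l = h) (h3 : Red l) (hl : lv2 p x L h ≤ L) {N : NilT p}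
    (hN : Cf (W l) l.length * Nm N ≠ 0) : lv2 p x L (h * st x N) = lv2 p x L h + 1 := by
  have h4 := lv2_step (p := p) x L h N
  have h5 := red_up h3 hN
  by_contra hc
  have h6 : lv2 p x L (h * st x N) ≤ L := by omega
  obtain ⟨l'', h7, h8⟩ := lv2_word h6
  have h9 : W l'' = W (l ++ [N]) := by
    apply lift_unique hx
    · rw [List.length_append, List.length_singleton]; omega
    · rw [h8, pw_append, pw_single, h2]
  have h10 : dg (W (l ++ [N])) = l.length + 1 := by
    have : dg (W (l ++ [N])) = (l ++ [N]).length := h5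
    rw [this, List.length_append, List.length_singleton]
  have h11 := dg_W_le l''
  rw [h9, h10] at h11
  omega

theorem lv2_down_unique {k : ℕ} {x : F} (hx : Good p k F x) {L : ℕ} (hL : 2 * L + 2 < k) {h : SL2 F} {N N' : NilT p}
    (hN : lv2 p x L (h * st x N) + 1 = lv2 p x L h) (hN' : lv2 p x L (h * st x N') + 1 = lv2 p x L h) : N = N' := by
  have htop := lv2_top (p := p) x L h
  obtain ⟨l, h1, h2, h3⟩ := lv2_red (p := p) (h := h * st x N) (x := x) (L := L) (by omega)
  obtain ⟨l', h1', h2', h3'⟩ := lv2_red (p := p) (h := h * st x N') (x := x) (L := L) (by omega)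
  have e1 : pw x (l ++ [nsm (-1) N]) = h := by
    rw [pw_append, pw_single, h2, ← st_inv]; group
  have e2 : pw x (l' ++ [nsm (-1) N']) = h := by
    rw [pw_append, pw_single, h2', ← st_inv]; group
  have e3 : W (l ++ [nsm (-1) N]) = W (l' ++ [nsm (-1) N']) := by
    apply lift_unique hx
    · simp only [List.length_append, List.length_singleton]; omega
    · rw [e1, e2]
  set γ := W (l ++ [nsm (-1) N]) with hγ
  set m := lv2 p x L (h * st x N) with hm
  have hdg1 : dg γ ≤ m + 1 := by
    have := dg_W_le (l ++ [nsm (-1) N])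
    rw [List.length_append, List.length_singleton, ← hγ] at this
    omega
  have hdg2 : ¬ dg γ ≤ m := by
    intro hc
    obtain ⟨l2, h4, h5⟩ := exists_red (l ++ [nsm (-1) N])
    have h6 : l2.length ≤ m := by
      have : dg (W l2) = l2.length := h5
      rw [h4, ← hγ] at this
      omega
    have h7 : pw x l2 = h := by rw [← red_W, h4, red_W, e1]
    have h8 := lv2_le (p := p) x L l2
    rw [h7] at h8
    omega
  have hdg : dg γ = m + 1 := by omega
  have f1 : γ * st (X : (ZMod p)[X]) N = W l := by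
    rw [hγ, W_append_single, ← st_inv]; group
  have f2 : γ * st (X : (ZMod p)[X]) N' = W l' := by
    rw [e3, W_append_single, ← st_inv]; group
  apply down_unique hdg
  · rw [f1]; have := dg_W_le l; omega
  · rw [f2]; have := dg_W_le l'; omega

theorem lv2_down_exists {x : F} {L : ℕ} {h : SL2 F} (h0 : 1 ≤ lv2 p x L h)
    (hl : lv2 p x L h ≤ L) : ∃ N : NilT p, N ≠ n0 ∧ lv2 p x L (h * st x N) + 1 = lv2 p x L h := by
  obtain ⟨l, h1, h2⟩ := lv2_word hl
  obtain ⟨l1, N1, hl1⟩ : ∃ l1 N1, l = l1 ++ [N1] := by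
    induction l using List.reverseRecOn with
    | nil => simp at h1; omega
    | append_singleton l1 N1 _ => exact ⟨l1, N1, rfl⟩
  subst hl1
  rw [List.length_append, List.length_singleton] at h1
  rw [pw_append, pw_single] at h2
  have e1 : h * st x (nsm (-1) N1) = pw x l1 := by rw [← h2, ← st_inv]; group
  have e2 : lv2 p x L (h * st x (nsm (-1) N1)) ≤ l1.length := by rw [e1]; exact lv2_le (p := p) x L l1
  have e3 : lv2 p x L h ≤ lv2 p x L (h * st x (nsm (-1) N1)) + 1 := by
    have := lv2_step (p := p) x L (h * st x (nsm (-1) N1)) N1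
    have e4 : h * st x (nsm (-1) N1) * st x N1 = h := by rw [e1, h2]
    rw [e4] at this
    exact this
  refine ⟨nsm (-1) N1, ?_, by omega⟩
  intro hc
  rw [hc, st_n0, mul_one] at e2
  omega

/-- `st x` is injective. -/
theorem st_inj {x : F} (hx : x ≠ 0) {N N' : NilT p} (h : st x N = st x N') : N = N' := by
  have h1 : (st x N).1 = (st x N').1 := by rw [h]
  rw [st_mat, st_mat] at h1
  have h2 := add_left_cancel h1
  apply Nm_inj
  ext i j
  have h3 := congrFun (congrFun h2 i) j
  simp only [Matrix.smul_apply, Matrix.map_apply, smul_eq_mul] at h3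
  exact (algebraMap (ZMod p) F).injective (mul_left_cancel₀ hx h3)

open Classical in
/-- The generators. -/
noncomputable def TT (p : ℕ) [Fact p.Prime] {F : Type} [Field F] [Fintype F] [DecidableEq F] [Algebra (ZMod p) F] (x : F) :
    Finset (SL2 F) :=
  (Finset.univ.filter (fun N : NilT p => N ≠ n0)).image (fun N => st x N)

theorem mem_TT {x : F} {t : SL2 F} : t ∈ TT p x ↔ ∃ N : NilT p, N ≠ n0 ∧ st x N = t := by
  unfold TT
  simp

theorem card_NilT : Fintype.card (NilT p) = p ^ 2 := Pool.Agent.Y495.CE.nil p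

theorem card_TT {x : F} (hx : x ≠ 0) : (TT p x).card = p ^ 2 - 1 := by
  classical
  unfold TT
  rw [Finset.card_image_of_injective _ (fun _ _ h => st_inj hx h), Finset.filter_ne', Finset.card_erase_of_mem (Finset.mem_univ _),
    Finset.card_univ, card_NilT]

theorem Good.x_ne {k : ℕ} {x : F} (hx : Good p k F x) (hk : 2 ≤ k) : x ≠ 0 := by
  intro h0
  obtain ⟨f, hf, hdvd⟩ := hx.poly
  have h1 : aeval x (X : (ZMod p)[X]) = 0 := by rw [aeval_X, h0]
  have h2 := (hdvd X).mp h1
  have h3 := Polynomial.natDegree_le_of_dvd h2 Polynomial.X_ne_zero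
  rw [Polynomial.natDegree_X, hf] at h3
  omega

theorem TT_inv {x : F} {t : SL2 F} (ht : t ∈ TT p x) : t⁻¹ ∈ TT p x := by
  obtain ⟨N, hN, rfl⟩ := mem_TT.mp ht
  refine mem_TT.mpr ⟨nsm (-1) N, ?_, (st_inv x N).symm⟩
  intro hc
  apply hN
  have : N = nsm (-1) (nsm (-1) N) := by apply Subtype.ext; simp [nsm]
  rw [this, hc]
  apply Subtype.ext; simp [nsm, n0]

theorem TT_one {x : F} (hx : x ≠ 0) : (1 : SL2 F) ∉ TT p x := by
  intro h
  obtain ⟨N, hN, h1⟩ := mem_TT.mp h
  rw [← st_n0 (p := p) x] at h1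
  exact hN (st_inj hx h1)

open Classical in
/-- Few ways down. -/
theorem TT_down_le {k : ℕ} {x : F} (hx : Good p k F x) {L : ℕ} (hL : 2 * L + 2 < k) (h : SL2 F) :
    ((TT p x).filter (fun t => lv2 p x L (h * t) + 1 = lv2 p x L h)).card ≤ 1 := by
  rw [Finset.card_le_one]
  intro a ha b hb
  obtain ⟨ha1, ha2⟩ := Finset.mem_filter.mp ha
  obtain ⟨hb1, hb2⟩ := Finset.mem_filter.mp hb
  obtain ⟨N, _, rfl⟩ := mem_TT.mp ha1
  obtain ⟨N', _, rfl⟩ := mem_TT.mp hb1
  rw [lv2_down_unique hx hL ha2 hb2]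

open Classical in
theorem TT_down_ge {x : F} {L : ℕ} {h : SL2 F} (h0 : 1 ≤ lv2 p x L h) (hl : lv2 p x L h ≤ L) :
    1 ≤ ((TT p x).filter (fun t => lv2 p x L (h * t) + 1 = lv2 p x L h)).card := by
  obtain ⟨N, hN, h1⟩ := lv2_down_exists h0 hl
  exact Finset.card_pos.mpr ⟨st x N, Finset.mem_filter.mpr ⟨mem_TT.mpr ⟨N, hN, rfl⟩, h1⟩⟩

open Classical in
/-- Many ways up. -/
theorem TT_up_ge {k : ℕ} {x : F} (hx : Good p k F x) {L : ℕ} (hL : 2 * L + 2 < k) (hx0 : x ≠ 0) {h : SL2 F} (hl : lv2 p x L h ≤ L) :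
    p ^ 2 - p ≤ ((TT p x).filter (fun t => lv2 p x L (h * t) = lv2 p x L h + 1)).card := by
  obtain ⟨l, h1, h2, h3⟩ := lv2_red hl
  have hlead : Cf (W l) l.length ≠ 0 := by
    have := Cf_dg_ne (W l)
    rw [h3] at this
    exact this
  have hsub : (Finset.univ.filter (fun N : NilT p => ¬ (Cf (W l) l.length * Nm N = 0))).image (fun N => st x N)
      ⊆ (TT p x).filter (fun t => lv2 p x L (h * t) = lv2 p x L h + 1) := by
    intro t ht
    obtain ⟨N, hN, rfl⟩ := Finset.mem_image.mp ht
    have hN' := (Finset.mem_filter.mp hN).2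
    refine Finset.mem_filter.mpr ⟨mem_TT.mpr ⟨N, ?_, rfl⟩, lv2_up hx hL h1 h2 h3 hl hN'⟩
    intro h0
    rw [h0, Nm_n0, mul_zero] at hN'
    exact hN' rfl
  have hc := Finset.card_le_card hsub
  rw [Finset.card_image_of_injective _ (fun _ _ h => st_inj hx0 h)] at hc
  have h4 := Finset.card_filter_add_card_filter_not (s := (Finset.univ : Finset (NilT p))) (fun N : NilT p => Cf (W l) l.length * Nm N = 0)
  rw [Finset.card_univ, card_NilT] at h4
  have h5 := kill_card hlead
  omega

/-- The ball. -/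
theorem ball_card {x : F} {L : ℕ} [DecidablePred fun h : SL2 F => lv2 p x L h ≤ L] :
    (Finset.univ.filter (fun h : SL2 F => lv2 p x L h ≤ L)).card ≤ (p ^ 2) ^ L := by
  classical
  have hsub : Finset.univ.filter (fun h : SL2 F => lv2 p x L h ≤ L)
      ⊆ (Finset.univ : Finset (Fin L → NilT p)).image (fun w => pw x (List.ofFn w)) := by
    intro h hh
    have hl := (Finset.mem_filter.mp hh).2
    obtain ⟨l, h1, h2⟩ := lv2_word hl
    set l' := l ++ List.replicate (L - l.length) n0 with hl'
    have h3 : l'.length = L := by rw [hl', List.length_append, List.length_replicate]; omega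
    have h4 : pw x l' = h := by
      rw [hl', pw_append, h2]
      have : pw x (List.replicate (L - l.length) (n0 : NilT p)) = 1 := by
        unfold pw; rw [List.map_replicate, st_n0]; simp
      rw [this, mul_one]
    refine Finset.mem_image.mpr ⟨fun i => l'.get (i.cast h3.symm), Finset.mem_univ _, ?_⟩
    have h5 : List.ofFn (fun i : Fin L => l'.get (i.cast h3.symm)) = l' := by
      apply List.ext_get
      · simp [h3]
      · intro n h6 h7; simp
    show pw x (List.ofFn (fun i : Fin L => l'.get (i.cast h3.symm))) = h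
    rw [h5, h4]
  calc _ ≤ _ := Finset.card_le_card hsub
    _ ≤ (Finset.univ : Finset (Fin L → NilT p)).card := Finset.card_image_le
    _ = (p ^ 2) ^ L := by rw [Finset.card_univ, Fintype.card_fun, card_NilT, Fintype.card_fin]

end Pool.Agent.H984
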